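import Mathlib

/-!
# Free topological groups: universal property and Graev's matchings
-/

set_option autoImplicit false

universe u v

namespace Q177.FreeTop

open Set Topology Filter FreeGroup

variable {X : Type u}

/-! ### The free topology -/

/-- `t` is the topology of the free topological group (Markov) on `X`. -/
structure IsFreeTop (X : Type u) [TopologicalSpace X] [t : TopologicalSpace (FreeGroup X)] :
    Prop where
  grp : IsTopologicalGroup (FreeGroup X)
  cont : Continuous (FreeGroup.of : X → FreeGroup X)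
  le : ∀ s : GroupTopology (FreeGroup X),
    @Continuous X (FreeGroup X) _ s.toTopologicalSpace FreeGroup.of → t ≤ s.toTopologicalSpace

lemma isFreeTop_sInf (X : Type u) [τ : TopologicalSpace X] :
    @IsFreeTop X τ (sInf {t : GroupTopology (FreeGroup X) |
      @Continuous X (FreeGroup X) τ t.toTopologicalSpace FreeGroup.of}).toTopologicalSpace := by
  let T : GroupTopology (FreeGroup X) := sInf {t : GroupTopology (FreeGroup X) |
      @Continuous X (FreeGroup X) τ t.toTopologicalSpace FreeGroup.of}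
  refine @IsFreeTop.mk X τ T.toTopologicalSpace T.toIsTopologicalGroup ?_ ?_
  · change @Continuous X (FreeGroup X) τ (sInf _ : GroupTopology (FreeGroup X)).toTopologicalSpace _
    rw [GroupTopology.toTopologicalSpace_sInf, continuous_sInf_rng]
    rintro _ ⟨t, ht, rfl⟩
    exact ht
  · intro s hs
    exact sInf_le (α := GroupTopology (FreeGroup X)) hs

lemma IsFreeTop.continuous_lift [TopologicalSpace X] [TopologicalSpace (FreeGroup X)]
    (h : IsFreeTop X) {G : Type v} [Group G] [TopologicalSpace G] [IsTopologicalGroup G]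
    (f : X → G) (hf : Continuous f) : Continuous (FreeGroup.lift f) := by
  rw [continuous_iff_le_induced]
  refine h.le ⟨TopologicalSpace.induced (FreeGroup.lift f) inferInstance,
    topologicalGroup_induced _⟩ ?_
  rw [continuous_induced_rng]
  convert hf using 1
  funext x
  simp

/-! ### Matchings -/

/-- `Cost ρ L c`: the list `L` has a perfect noncrossing matching of letters of opposite signs with
total cost `c`. -/
inductive Cost (ρ : X → X → ℝ) : List (X × Bool) → ℝ → Prop
  | nil : Cost ρ [] 0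
  | pair {x y : X} {b : Bool} {L₁ L₂ : List (X × Bool)} {c₁ c₂ : ℝ} :
      Cost ρ L₁ c₁ → Cost ρ L₂ c₂ →
      Cost ρ ((x, b) :: (L₁ ++ (y, !b) :: L₂)) (ρ x y + c₁ + c₂)

variable {ρ : X → X → ℝ}

lemma Cost.nonneg (h0 : ∀ x y, 0 ≤ ρ x y) {L : List (X × Bool)} {c : ℝ} (h : Cost ρ L c) :
    0 ≤ c := by
  induction h with
  | nil => exact le_rfl
  | @pair x y _ _ _ _ _ _ _ ih1 ih2 => linarith [h0 x y]

lemma Cost.append {L L' : List (X × Bool)} {c c' : ℝ} (h : Cost ρ L c) (h' : Cost ρ L' c') :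
    Cost ρ (L ++ L') (c + c') := by
  induction h with
  | nil => simpa using h'
  | @pair x y b L₁ L₂ c₁ c₂ h1 h2 ih1 ih2 =>
    have := Cost.pair (x := x) (y := y) (b := b) h1 ih2
    simp only [List.cons_append, List.append_assoc] at this ⊢
    rwa [show ρ x y + c₁ + c₂ + c' = ρ x y + c₁ + (c₂ + c') by ring]

lemma Cost.cons_inv {x : X} {b : Bool} {M : List (X × Bool)} {c : ℝ}
    (h : Cost ρ ((x, b) :: M) c) : ∃ (L₁ : List (X × Bool)) (y : X) (L₂ : List (X × Bool))
      (c₁ c₂ : ℝ), M = L₁ ++ (y, !b) :: L₂ ∧ Cost ρ L₁ c₁ ∧ Cost ρ L₂ c₂ ∧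
      c = ρ x y + c₁ + c₂ := by
  cases h with
  | pair h1 h2 => exact ⟨_, _, _, _, _, rfl, h1, h2, rfl⟩

lemma Cost.nil_inv {c : ℝ} (h : Cost ρ [] c) : c = 0 := by
  cases h
  rfl

lemma Cost.length {L : List (X × Bool)} {c : ℝ} (h : Cost ρ L c) : L = [] ∨ 2 ≤ L.length := by
  cases h with
  | nil => exact Or.inl rfl
  | pair h1 h2 =>
    right
    simp only [List.length_cons, List.length_append]
    omega

lemma Cost.snoc_inv {L : List (X × Bool)} {c : ℝ} (h : Cost ρ L c) :
    ∀ {M : List (X × Bool)} {x : X} {b : Bool}, L = M ++ [(x, b)] →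
      ∃ (L₁ : List (X × Bool)) (y : X) (L₂ : List (X × Bool)) (c₁ c₂ : ℝ),
      M = L₁ ++ (y, !b) :: L₂ ∧ Cost ρ L₁ c₁ ∧ Cost ρ L₂ c₂ ∧ c = c₁ + ρ y x + c₂ := by
  induction h with
  | nil =>
    intro M x b h
    simp at h
  | @pair z w d N₁ N₂ c₁ c₂ h1 h2 ih1 ih2 =>
    intro M x b hM
    rcases List.eq_nil_or_concat N₂ with rfl | ⟨N₂', ⟨x', b'⟩, rfl⟩
    · have h3 : (z, d) :: N₁ ++ [(w, !d)] = M ++ [(x, b)] := by simpa using hM
      obtain ⟨h4, h5⟩ := List.append_inj' h3 rfl
      simp only [List.cons.injEq, Prod.mk.injEq, and_true] at h5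
      obtain ⟨rfl, rfl⟩ := h5
      refine ⟨[], z, N₁, 0, c₁, by simp [← h4], Cost.nil, h1, ?_⟩
      rw [h2.nil_inv]
      ring
    · have h3 : ((z, d) :: (N₁ ++ (w, !d) :: N₂')) ++ [(x', b')] = M ++ [(x, b)] := by
        simpa using hM
      obtain ⟨h4, h5⟩ := List.append_inj' h3 rfl
      simp only [List.cons.injEq, Prod.mk.injEq, and_true] at h5
      obtain ⟨rfl, rfl⟩ := h5
      obtain ⟨P, y, Q, p, q, hP, hp, hq, hc⟩ := ih2 (M := N₂') (x := x') (b := b') (by simp)
      refine ⟨(z, d) :: (N₁ ++ (w, !d) :: P), y, Q, ρ z w + c₁ + p, q, ?_, Cost.pair h1 hp, hq, ?_⟩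
      · rw [← h4, hP]
        simp
      · rw [hc]
        ring

lemma Cost.cancel (h0 : ∀ x y, 0 ≤ ρ x y) (hsymm : ∀ x y, ρ x y = ρ y x)
    (htri : ∀ x y z, ρ x z ≤ ρ x y + ρ y z) {L : List (X × Bool)} {c : ℝ} (h : Cost ρ L c) :
    ∀ {L1 L2 : List (X × Bool)} {x : X} {b : Bool}, L = L1 ++ (x, b) :: (x, !b) :: L2 →
      ∃ c' ≤ c, Cost ρ (L1 ++ L2) c' := by
  induction h with
  | nil =>
    intro L1 L2 x b h
    simp at h
  | @pair z y d M₁ M₂ c₁ c₂ h1 h2 ih1 ih2 =>
    intro L1 L2 x b hL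
    have hc1 := h1.nonneg h0
    have hc2 := h2.nonneg h0
    rcases L1 with _ | ⟨p, L1'⟩
    · simp only [List.nil_append, List.cons.injEq, Prod.mk.injEq] at hL
      obtain ⟨⟨rfl, rfl⟩, hL⟩ := hL
      rcases M₁ with _ | ⟨q, M₁'⟩
      · simp only [List.nil_append, List.cons.injEq, Prod.mk.injEq, and_true] at hL
        obtain ⟨rfl, rfl⟩ := hL
        exact ⟨c₂, by linarith [h0 y y], by simpa using h2⟩
      · simp only [List.cons_append, List.cons.injEq] at hL
        obtain ⟨rfl, rfl⟩ := hL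
        obtain ⟨P, w, Q, p, q, rfl, hp, hq, rfl⟩ := h1.cons_inv
        refine ⟨p + (ρ w y + q + c₂), ?_, ?_⟩
        · linarith [htri w z y, hsymm w z]
        · have := hp.append (Cost.pair (x := w) (y := y) (b := d) hq h2)
          simpa using this
    · simp only [List.cons_append, List.cons.injEq] at hL
      obtain ⟨rfl, hL⟩ := hL
      rcases List.append_eq_append_iff.1 hL with ⟨a', ha', haL⟩ | ⟨a', ha', haL⟩
      · rcases a' with _ | ⟨q, a''⟩
        · simp only [List.append_nil, List.nil_append, List.cons.injEq, Prod.mk.injEq] at ha' haL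
          subst ha'
          obtain ⟨⟨rfl, rfl⟩, rfl⟩ := haL
          obtain ⟨P, w, Q, p, q, rfl, hp, hq, rfl⟩ := h2.cons_inv
          refine ⟨ρ z w + (c₁ + p) + q, ?_, ?_⟩
          · linarith [htri z y w]
          · have := Cost.pair (x := z) (y := w) (b := d) (h1.append hp) hq
            simpa using this
        · simp only [List.cons_append, List.cons.injEq] at haL
          obtain ⟨rfl, rfl⟩ := haL
          subst ha'
          obtain ⟨c', hc', hcost⟩ := ih2 (L1 := a'') (L2 := L2) (x := x) (b := b) rfl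
          refine ⟨ρ z y + c₁ + c', by linarith, ?_⟩
          have := Cost.pair (x := z) (y := y) (b := d) h1 hcost
          simpa using this
      · rcases a' with _ | ⟨q, a''⟩
        · simp only [List.append_nil, List.nil_append, List.cons.injEq, Prod.mk.injEq] at ha' haL
          subst ha'
          obtain ⟨⟨rfl, rfl⟩, rfl⟩ := haL
          obtain ⟨P, w, Q, p, q, rfl, hp, hq, rfl⟩ := h2.cons_inv
          refine ⟨ρ z w + (c₁ + p) + q, ?_, ?_⟩
          · linarith [htri z x w]
          · have := Cost.pair (x := z) (y := w) (b := d) (h1.append hp) hq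
            simpa using this
        · simp only [List.cons_append, List.cons.injEq] at haL
          obtain ⟨rfl, haL⟩ := haL
          rcases a'' with _ | ⟨q, a'''⟩
          · simp only [List.nil_append, List.cons.injEq, Prod.mk.injEq] at haL
            obtain ⟨⟨rfl, hbd⟩, rfl⟩ := haL
            have hbd' : b = d := by
              cases b <;> cases d <;> simp_all
            subst hbd'
            subst ha'
            obtain ⟨P, w, Q, p, q, rfl, hp, hq, rfl⟩ := h1.snoc_inv rfl
            refine ⟨ρ z w + p + (q + c₂), ?_, ?_⟩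
            · linarith [htri z x w, hsymm x w]
            · have := Cost.pair (x := z) (y := w) (b := b) hp (hq.append h2)
              simpa using this
          · simp only [List.cons_append, List.cons.injEq] at haL
            obtain ⟨rfl, rfl⟩ := haL
            subst ha'
            obtain ⟨c', hc', hcost⟩ := ih1 (L1 := L1') (L2 := a''') (x := x) (b := b) rfl
            refine ⟨ρ z y + c' + c₂, by linarith, ?_⟩
            have := Cost.pair (x := z) (y := y) (b := d) hcost h2
            simpa using this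

lemma Cost.expand (hxx : ∀ x, ρ x x = 0) {L : List (X × Bool)} {c : ℝ} (h : Cost ρ L c) :
    ∀ {L1 L2 : List (X × Bool)} (x : X) (b : Bool), L = L1 ++ L2 →
      Cost ρ (L1 ++ (x, b) :: (x, !b) :: L2) c := by
  have hpair : ∀ (x : X) (b : Bool), Cost ρ [(x, b), (x, !b)] 0 := fun x b => by
    have := Cost.pair (x := x) (y := x) (b := b) (Cost.nil (ρ := ρ)) Cost.nil
    simpa [hxx] using this
  induction h with
  | nil =>
    intro L1 L2 x b h
    obtain ⟨rfl, rfl⟩ := List.append_eq_nil_iff.1 h.symm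
    simpa using hpair x b
  | @pair z y d M₁ M₂ c₁ c₂ h1 h2 ih1 ih2 =>
    intro L1 L2 x b hL
    rcases L1 with _ | ⟨p, L1'⟩
    · simp only [List.nil_append] at hL
      subst hL
      have := (hpair x b).append (Cost.pair (x := z) (y := y) (b := d) h1 h2)
      simpa using this
    · simp only [List.cons_append, List.cons.injEq] at hL
      obtain ⟨rfl, hL⟩ := hL
      rcases List.append_eq_append_iff.1 hL with ⟨a', ha', haL⟩ | ⟨a', ha', haL⟩
      · rcases a' with _ | ⟨q, a''⟩
        · simp only [List.append_nil, List.nil_append] at ha' haL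
          subst ha' haL
          have := Cost.pair (x := z) (y := y) (b := d) (h1.append (hpair x b)) h2
          simpa using this
        · simp only [List.cons_append, List.cons.injEq] at haL
          obtain ⟨rfl, rfl⟩ := haL
          subst ha'
          have := Cost.pair (x := z) (y := y) (b := d) h1 (ih2 (L1 := a'') (L2 := L2) x b rfl)
          simpa using this
      · subst ha' haL
        have := Cost.pair (x := z) (y := y) (b := d) (ih1 (L1 := L1') (L2 := a') x b rfl) h2
        simpa using this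

lemma Cost.invRev (hsymm : ∀ x y, ρ x y = ρ y x) {L : List (X × Bool)} {c : ℝ}
    (h : Cost ρ L c) : Cost ρ (FreeGroup.invRev L) c := by
  induction h with
  | nil => exact Cost.nil
  | @pair x y b L₁ L₂ c₁ c₂ h1 h2 ih1 ih2 =>
    have := ih2.append (Cost.pair (x := y) (y := x) (b := b) ih1 Cost.nil)
    rw [show c₂ + (ρ y x + c₁ + 0) = ρ x y + c₁ + c₂ by rw [hsymm]; ring] at this
    simpa [FreeGroup.invRev] using this

lemma Cost.conj (hxx : ∀ x, ρ x x = 0) {L : List (X × Bool)} {c : ℝ}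
    (h : Cost ρ L c) (M : List (X × Bool)) : Cost ρ (M ++ L ++ FreeGroup.invRev M) c := by
  induction M with
  | nil => simpa [FreeGroup.invRev] using h
  | cons p M ih =>
    obtain ⟨x, b⟩ := p
    have := Cost.pair (x := x) (y := x) (b := b) ih Cost.nil
    rw [hxx, zero_add, add_zero] at this
    simpa [FreeGroup.invRev] using this

/-- A pseudometric (as a plain function). -/
structure PM (ρ : X → X → ℝ) : Prop where
  nonneg : ∀ x y, 0 ≤ ρ x y
  self : ∀ x, ρ x x = 0
  symm : ∀ x y, ρ x y = ρ y x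
  tri : ∀ x y z, ρ x z ≤ ρ x y + ρ y z

lemma Cost.step (hρ : PM ρ) {L L' : List (X × Bool)} {c : ℝ} (hs : Red.Step L L')
    (h : Cost ρ L c) : ∃ c' ≤ c, Cost ρ L' c' := by
  obtain ⟨⟩ := hs
  exact h.cancel hρ.nonneg hρ.symm hρ.tri rfl

lemma Cost.step_symm (hρ : PM ρ) {L L' : List (X × Bool)} {c : ℝ} (hs : Red.Step L L')
    (h : Cost ρ L' c) : Cost ρ L c := by
  obtain ⟨⟩ := hs
  exact h.expand hρ.self _ _ rfl

lemma Cost.red (hρ : PM ρ) {L L' : List (X × Bool)} {c : ℝ} (hs : Red L L')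
    (h : Cost ρ L c) : ∃ c' ≤ c, Cost ρ L' c' := by
  induction hs with
  | refl => exact ⟨c, le_rfl, h⟩
  | tail _ hstep ih =>
    obtain ⟨c', hc', h'⟩ := ih
    obtain ⟨c'', hc'', h''⟩ := h'.step hρ hstep
    exact ⟨c'', hc''.trans hc', h''⟩

lemma Cost.red_symm (hρ : PM ρ) {L L' : List (X × Bool)} {c : ℝ} (hs : Red L L')
    (h : Cost ρ L' c) : Cost ρ L c := by
  induction hs with
  | refl => exact h
  | tail _ hstep ih => exact ih (h.step_symm hρ hstep)

lemma cost_of_mk_eq (hρ : PM ρ) {L L' : List (X × Bool)} {c : ℝ}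
    (hmk : FreeGroup.mk L = FreeGroup.mk L') (h : Cost ρ L c) : ∃ c' ≤ c, Cost ρ L' c' := by
  classical
  obtain ⟨c', hc', h'⟩ := h.red hρ (FreeGroup.reduce.red (L := L))
  rw [FreeGroup.reduce.sound hmk] at h'
  exact ⟨c', hc', h'.red_symm hρ FreeGroup.reduce.red⟩

/-- Graev neighbourhoods of the identity -/
def V (ρ : X → X → ℝ) (ε : ℝ) : Set (FreeGroup X) :=
  {w | ∃ L c, FreeGroup.mk L = w ∧ Cost ρ L c ∧ c < ε}

lemma mk_mem_V (hρ : PM ρ) {ε : ℝ} {L : List (X × Bool)} :
    FreeGroup.mk L ∈ V ρ ε ↔ ∃ c < ε, Cost ρ L c := by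
  constructor
  · rintro ⟨L', c, h1, h2, h3⟩
    obtain ⟨c', hc', h'⟩ := cost_of_mk_eq hρ h1 h2
    exact ⟨c', hc'.trans_lt h3, h'⟩
  · rintro ⟨c, hc, h⟩
    exact ⟨L, c, rfl, h, hc⟩

/-- the filter basis of the Graev topology -/
@[reducible]
def graevBasis (hρ : PM ρ) : GroupFilterBasis (FreeGroup X) where
  sets := {S | ∃ ε > 0, S = V ρ ε}
  nonempty := ⟨_, 1, one_pos, rfl⟩
  inter_sets := by
    rintro _ _ ⟨ε, hε, rfl⟩ ⟨δ, hδ, rfl⟩
    refine ⟨_, ⟨min ε δ, lt_min hε hδ, rfl⟩, ?_⟩
    rintro w ⟨L, c, h1, h2, h3⟩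
    exact ⟨⟨L, c, h1, h2, h3.trans_le (min_le_left _ _)⟩,
      ⟨L, c, h1, h2, h3.trans_le (min_le_right _ _)⟩⟩
  one' := by
    rintro _ ⟨ε, hε, rfl⟩
    exact ⟨[], 0, rfl, Cost.nil, hε⟩
  mul' := by
    rintro _ ⟨ε, hε, rfl⟩
    refine ⟨_, ⟨ε / 2, half_pos hε, rfl⟩, ?_⟩
    rintro _ ⟨_, ⟨L, c, rfl, h2, h3⟩, _, ⟨L', c', rfl, h2', h3'⟩, rfl⟩
    exact ⟨L ++ L', c + c', by simp, h2.append h2', by linarith⟩
  inv' := by
    rintro _ ⟨ε, hε, rfl⟩
    refine ⟨_, ⟨ε, hε, rfl⟩, ?_⟩
    rintro _ ⟨L, c, rfl, h2, h3⟩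
    exact ⟨FreeGroup.invRev L, c, by simp, h2.invRev hρ.symm, h3⟩
  conj' := by
    rintro w _ ⟨ε, hε, rfl⟩
    refine ⟨_, ⟨ε, hε, rfl⟩, ?_⟩
    rintro _ ⟨L, c, rfl, h2, h3⟩
    obtain ⟨M, rfl⟩ := Quot.exists_rep w
    refine ⟨M ++ L ++ FreeGroup.invRev M, c, ?_, h2.conj hρ.self M, h3⟩
    simp only [FreeGroup.quot_mk_eq_mk, FreeGroup.inv_mk, FreeGroup.mul_mk]

/-- the Graev group topology -/
def graevTop (hρ : PM ρ) : GroupTopology (FreeGroup X) :=
  ⟨(graevBasis hρ).topology, (graevBasis hρ).isTopologicalGroup⟩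

lemma continuous_of_graev [TopologicalSpace X] (hρ : PM ρ)
    (hc : ∀ x, ∀ ε > 0, ∀ᶠ y in 𝓝 x, ρ x y < ε) :
    @Continuous X (FreeGroup X) _ (graevTop hρ).toTopologicalSpace FreeGroup.of := by
  let _ := (graevTop hρ).toTopologicalSpace
  rw [continuous_iff_continuousAt]
  intro x
  have hb := (graevBasis hρ).nhds_hasBasis (FreeGroup.of x)
  refine (hb.tendsto_right_iff).2 ?_
  rintro _ ⟨ε, hε, rfl⟩
  filter_upwards [hc x ε hε] with y hy
  refine ⟨(FreeGroup.of x)⁻¹ * FreeGroup.of y, ?_, by simp⟩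
  refine ⟨[(x, false), (y, true)], ρ x y + 0 + 0, ?_, Cost.pair Cost.nil Cost.nil, by simpa using hy⟩
  simp [FreeGroup.of, FreeGroup.inv_mk, FreeGroup.invRev]

lemma IsFreeTop.V_mem [TopologicalSpace X] [TopologicalSpace (FreeGroup X)]
    (h : IsFreeTop X) (hρ : PM ρ) (hc : ∀ x, ∀ ε > 0, ∀ᶠ y in 𝓝 x, ρ x y < ε) {ε : ℝ}
    (hε : 0 < ε) : V ρ ε ∈ 𝓝 (1 : FreeGroup X) := by
  have h1 := h.le (graevTop hρ) (continuous_of_graev hρ hc)
  have h2 : V ρ ε ∈ @nhds (FreeGroup X) (graevTop hρ).toTopologicalSpace 1 :=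
    (graevBasis hρ).mem_nhds_one ⟨ε, hε, rfl⟩
  exact (nhds_mono h1) h2

/-! ### Near words -/

/-- distinct letters of the list are at distance at least `δ` -/
def Sep (ρ : X → X → ℝ) (δ : ℝ) (L : List (X × Bool)) : Prop :=
  ∀ p ∈ L, ∀ q ∈ L, p.1 ≠ q.1 → δ ≤ ρ p.1 q.1

lemma exists_sep (hpos : ∀ x y, x ≠ y → 0 < ρ x y) (L : List (X × Bool)) :
    ∃ δ > 0, Sep ρ δ L := by
  classical
  have hfin : {r : ℝ | ∃ p ∈ L, ∃ q ∈ L, p.1 ≠ q.1 ∧ r = ρ p.1 q.1}.Finite := by
    have : {r : ℝ | ∃ p ∈ L, ∃ q ∈ L, p.1 ≠ q.1 ∧ r = ρ p.1 q.1} ⊆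
        (fun z : (X × Bool) × (X × Bool) => ρ z.1.1 z.2.1) '' ({p | p ∈ L} ×ˢ {q | q ∈ L}) := by
      rintro r ⟨p, hp, q, hq, -, rfl⟩
      exact ⟨(p, q), ⟨hp, hq⟩, rfl⟩
    exact ((List.finite_toSet L).prod (List.finite_toSet L)).image _ |>.subset this
  by_cases hne : {r : ℝ | ∃ p ∈ L, ∃ q ∈ L, p.1 ≠ q.1 ∧ r = ρ p.1 q.1}.Nonempty
  · obtain ⟨m, ⟨p, hp, q, hq, hpq, rfl⟩, hmin⟩ := hfin.exists_minimal hne
    refine ⟨_, hpos _ _ hpq, fun p' hp' q' hq' hne' => ?_⟩
    rcases le_total (ρ p.1 q.1) (ρ p'.1 q'.1) with h | h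
    · exact h
    · exact hmin ⟨p', hp', q', hq', hne', rfl⟩ h
  · refine ⟨1, one_pos, fun p hp q hq hpq => (hne ⟨_, p, hp, q, hq, hpq, rfl⟩).elim⟩

lemma Sep.mono {δ : ℝ} {L L' : List (X × Bool)} (h : Sep ρ δ L) (hL : ∀ p ∈ L', p ∈ L) :
    Sep ρ δ L' := fun p hp q hq => h p (hL p hp) q (hL q hq)

lemma Cost.eq_nil_of_reduced (hρ : PM ρ) {δ : ℝ} {L : List (X × Bool)} {c : ℝ}
    (h : Cost ρ L c) : FreeGroup.IsReduced L → Sep ρ δ L → c < δ → L = [] := by
  induction h with
  | nil => exact fun _ _ _ => rfl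
  | @pair x y b L₁ L₂ c₁ c₂ h1 h2 ih1 ih2 =>
    intro hred hsep hc
    exfalso
    have hc1 := h1.nonneg hρ.nonneg
    have hc2 := h2.nonneg hρ.nonneg
    have hxy := hρ.nonneg x y
    have hL₁ : L₁ = [] := by
      refine ih1 ?_ ?_ (by linarith)
      · have : FreeGroup.IsReduced ([(x, b)] ++ L₁ ++ ((y, !b) :: L₂)) := by simpa using hred
        exact (List.IsChain.right_of_append (List.IsChain.left_of_append this))
      · exact hsep.mono fun p hp => by simp [hp]
    subst hL₁
    simp only [List.nil_append] at hred hsep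
    have hne : x ≠ y := by
      rintro rfl
      have := (List.isChain_cons_cons.1 hred).1
      simp at this
    have := hsep (x, b) (by simp) (y, !b) (by simp) hne
    simp only at this
    linarith

/-- `Near ρ H L c`: the word `L` is obtained from a `ρ`-perturbation of the word `H` by inserting
matched words, with total cost `c`. -/
inductive Near (ρ : X → X → ℝ) : List (X × Bool) → List (X × Bool) → ℝ → Prop
  | nil {L : List (X × Bool)} {c : ℝ} : Cost ρ L c → Near ρ [] L c
  | cons {u L H : List (X × Bool)} {c₁ c₂ : ℝ} {x a : X} {b : Bool} :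
      Cost ρ u c₁ → Near ρ H L c₂ → Near ρ ((a, b) :: H) (u ++ (x, b) :: L) (c₁ + ρ x a + c₂)

lemma Near.nonneg (h0 : ∀ x y, 0 ≤ ρ x y) {H L : List (X × Bool)} {c : ℝ} (h : Near ρ H L c) :
    0 ≤ c := by
  induction h with
  | nil h => exact h.nonneg h0
  | @cons u L H c₁ c₂ x a b hu hL ih =>
    have := hu.nonneg h0
    have := h0 x a
    linarith

lemma near_of_cost (hρ : PM ρ) {δ : ℝ} {H : List (X × Bool)} :
    ∀ {L : List (X × Bool)} {c : ℝ}, FreeGroup.IsReduced H → Sep ρ δ H → c < δ →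
      Cost ρ (L ++ FreeGroup.invRev H) c → Near ρ H L c := by
  induction H with
  | nil =>
    intro L c _ _ _ h
    exact Near.nil (by simpa [FreeGroup.invRev] using h)
  | cons p H ih =>
    obtain ⟨a, b⟩ := p
    intro L c hred hsep hc h
    have hH : FreeGroup.IsReduced H := List.IsChain.tail hred
    have hinv : FreeGroup.invRev ((a, b) :: H) = FreeGroup.invRev H ++ [(a, !b)] := by
      simp [FreeGroup.invRev]
    rw [hinv, ← List.append_assoc] at h
    obtain ⟨L₁, y, L₂, c₁, c₂, hL, h1, h2, rfl⟩ := h.snoc_inv rfl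
    rw [Bool.not_not] at hL
    have hc1 := h1.nonneg hρ.nonneg
    have hc2 := h2.nonneg hρ.nonneg
    have hya := hρ.nonneg y a
    -- the impossible case
    have himp : ∀ a' : List (X × Bool), FreeGroup.invRev H = a' ++ (y, b) :: L₂ → False := by
      intro a' ha'
      have hredI : FreeGroup.IsReduced (FreeGroup.invRev H) := by
        classical
        rw [FreeGroup.isReduced_iff_reduce_eq, FreeGroup.reduce_invRev,
          (FreeGroup.isReduced_iff_reduce_eq).1 hH]
      have hmemI : ∀ p : X × Bool, p ∈ FreeGroup.invRev H → (p.1, !p.2) ∈ H := by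
        intro p hp
        unfold FreeGroup.invRev at hp
        rw [List.mem_reverse, List.mem_map] at hp
        obtain ⟨q, hq, rfl⟩ := hp
        simpa using hq
      have hsepI : Sep ρ δ (FreeGroup.invRev H) := by
        intro p hp q hq hpq
        exact hsep (p.1, !p.2) (List.mem_cons_of_mem _ (hmemI p hp)) (q.1, !q.2)
          (List.mem_cons_of_mem _ (hmemI q hq)) hpq
      have hL₂ : L₂ = [] := by
        refine h2.eq_nil_of_reduced hρ (δ := δ) ?_ ?_ (by linarith)
        · rw [ha'] at hredI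
          exact List.IsChain.tail (List.IsChain.right_of_append hredI)
        · refine hsepI.mono fun p hp => ?_
          rw [ha']
          simp [hp]
      subst hL₂
      have hyH : (y, !b) ∈ H := hmemI (y, b) (by rw [ha']; simp)
      have hya' : y = a := by
        by_contra hne
        have := hsep (y, !b) (List.mem_cons_of_mem _ hyH) (a, b) (by simp) hne
        simp only at this
        linarith
      subst hya'
      have hH' : H = (y, !b) :: FreeGroup.invRev a' := by
        have := congrArg FreeGroup.invRev ha'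
        rw [FreeGroup.invRev_invRev] at this
        rw [this]
        simp [FreeGroup.invRev]
      rw [hH'] at hred
      have := (List.isChain_cons_cons.1 hred).1
      simp at this
    rcases List.append_eq_append_iff.1 hL with ⟨a', ha', haL⟩ | ⟨a', ha', haL⟩
    · exact (himp a' haL).elim
    · rcases a' with _ | ⟨q, a''⟩
      · exact (himp [] (by simpa using haL.symm)).elim
      · simp only [List.cons_append, List.cons.injEq] at haL
        obtain ⟨rfl, rfl⟩ := haL
        subst ha'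
        exact Near.cons h1 (ih hH (hsep.mono fun p hp => List.mem_cons_of_mem _ hp)
          (by linarith) h2)

lemma mk_pair_true (x y : X) : FreeGroup.mk [(x, true), (y, false)] =
    FreeGroup.of x * (FreeGroup.of y)⁻¹ := by
  simp [FreeGroup.of, FreeGroup.inv_mk, FreeGroup.invRev]

lemma mk_pair_false (x y : X) : FreeGroup.mk [(x, false), (y, true)] =
    (FreeGroup.of x)⁻¹ * FreeGroup.of y := by
  simp [FreeGroup.of, FreeGroup.inv_mk, FreeGroup.invRev]

lemma mk_single_true (x : X) : FreeGroup.mk [(x, true)] = FreeGroup.of x := rfl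

lemma mk_single_false (x : X) : FreeGroup.mk [(x, false)] = (FreeGroup.of x)⁻¹ := by
  simp [FreeGroup.of, FreeGroup.inv_mk, FreeGroup.invRev]

lemma cost_three {L : List (X × Bool)} {c : ℝ} (hc : Cost ρ L c) (hL : L.length ≤ 3) :
    L = [] ∨ ∃ x y b, L = [(x, b), (y, !b)] ∧ c = ρ x y := by
  cases hc with
  | nil => exact Or.inl rfl
  | @pair x y b L₁ L₂ c₁ c₂ h1 h2 =>
    right
    simp only [List.length_cons, List.length_append] at hL
    rcases h1.length with rfl | h1'
    · rcases h2.length with rfl | h2'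
      · refine ⟨x, y, b, rfl, ?_⟩
        rw [h1.nil_inv, h2.nil_inv]
        ring
      · omega
    · omega

lemma cost_four {L : List (X × Bool)} {c : ℝ} (hc : Cost ρ L c) (hL : L.length ≤ 4) :
    (∃ u v c₁ c₂, L = u ++ v ∧ u.length ≤ 3 ∧ v.length ≤ 3 ∧ Cost ρ u c₁ ∧ Cost ρ v c₂ ∧
      c = c₁ + c₂) ∨
    ∃ g b x b' y g', L = [(g, b), (x, b'), (y, !b'), (g', !b)] ∧ c = ρ g g' + ρ x y := by
  cases hc with
  | nil => exact Or.inl ⟨[], [], 0, 0, rfl, by simp, by simp, Cost.nil, Cost.nil, by simp⟩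
  | @pair x y b L₁ L₂ c₁ c₂ h1 h2 =>
    simp only [List.length_cons, List.length_append] at hL
    rcases h1.length with rfl | h1'
    · left
      refine ⟨[(x, b), (y, !b)], L₂, ρ x y + c₁ + 0, c₂, by simp, by simp, by omega,
        Cost.pair h1 Cost.nil, h2, by ring⟩
    · right
      have hL₂ : L₂ = [] := by
        rcases h2.length with h | h
        · exact h
        · omega
      subst hL₂
      rcases cost_three h1 (by omega) with rfl | ⟨x', y', b', rfl, rfl⟩
      · simp at h1'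
      · refine ⟨x, b, x', b', y', y, by simp, ?_⟩
        rw [h2.nil_inv]
        ring

end Q177.FreeTop
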