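import Mathlib

/-!
# `k_ω`-topologies
-/

set_option autoImplicit false

universe u v w

namespace Q177.KOmega

open Set Topology Filter

/-- the topology coherent with a sequence of subspaces -/
@[reducible]
def kTop {Y : Type u} [TopologicalSpace Y] (K : ℕ → Set Y) : TopologicalSpace Y where
  IsOpen U := ∀ m, ∃ O, IsOpen O ∧ U ∩ K m = O ∩ K m
  isOpen_univ m := ⟨univ, isOpen_univ, rfl⟩
  isOpen_inter U V hU hV m := by
    obtain ⟨O, hO, h1⟩ := hU m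
    obtain ⟨P, hP, h2⟩ := hV m
    refine ⟨O ∩ P, hO.inter hP, ?_⟩
    rw [inter_inter_distrib_right, h1, h2, ← inter_inter_distrib_right]
  isOpen_sUnion 𝒰 h𝒰 m := by
    choose! O hO h1 using fun U hU => h𝒰 U hU m
    refine ⟨⋃ U ∈ 𝒰, O U, isOpen_biUnion fun U hU => hO U hU, ?_⟩
    ext x
    constructor
    · rintro ⟨⟨U, hU, hx⟩, hxK⟩
      have : x ∈ O U ∩ K m := by
        rw [← h1 U hU]
        exact ⟨hx, hxK⟩
      exact ⟨mem_iUnion₂.2 ⟨U, hU, this.1⟩, hxK⟩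
    · rintro ⟨hx, hxK⟩
      obtain ⟨U, hU, hx⟩ := mem_iUnion₂.1 hx
      have : x ∈ U ∩ K m := by
        rw [h1 U hU]
        exact ⟨hx, hxK⟩
      exact ⟨⟨U, hU, this.1⟩, hxK⟩

lemma isOpen_kTop_iff {Y : Type u} [TopologicalSpace Y] {K : ℕ → Set Y} {U : Set Y} :
    IsOpen[kTop K] U ↔ ∀ m, ∃ O, IsOpen O ∧ U ∩ K m = O ∩ K m := Iff.rfl

/-- Milnor's lemma -/
lemma milnor {Y : Type u} {Z : Type v} [TopologicalSpace Y] [TopologicalSpace Z] [RegularSpace Y]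
    [RegularSpace Z] {K : ℕ → Set Y} {L : ℕ → Set Z}
    (hK : ∀ m, IsCompact (K m)) (hKm : Monotone K) (hKu : ∀ y, ∃ m, y ∈ K m)
    (hL : ∀ m, IsCompact (L m)) (hLm : Monotone L) (hLu : ∀ z, ∃ m, z ∈ L m)
    (G : Set (Y × Z)) (hG : ∀ m, ∃ O, IsOpen O ∧ G ∩ (K m ×ˢ L m) = O ∩ (K m ×ˢ L m))
    {a : Y} {b : Z} (hab : (a, b) ∈ G) :
    ∃ (A : Set Y) (B : Set Z), IsOpen[kTop K] A ∧ IsOpen[kTop L] B ∧ a ∈ A ∧ b ∈ B ∧
      A ×ˢ B ⊆ G := by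
  classical
  obtain ⟨m₁, hm₁⟩ := hKu a
  obtain ⟨m₂, hm₂⟩ := hLu b
  set m₀ := max m₁ m₂ with hm₀
  have haK : a ∈ K m₀ := hKm (le_max_left _ _) hm₁
  have hbL : b ∈ L m₀ := hLm (le_max_right _ _) hm₂
  let Good : ℕ → Set Y × Set Z → Prop := fun m p =>
    IsCompact p.1 ∧ p.1 ⊆ K m ∧ IsCompact p.2 ∧ p.2 ⊆ L m ∧ p.1 ×ˢ p.2 ⊆ G
  have step : ∀ m p, ∃ q : (Set Y × Set Z) × (Set Y × Set Z), Good m p →
      Good (m + 1) q.1 ∧ IsOpen q.2.1 ∧ IsOpen q.2.2 ∧ p.1 ⊆ q.2.1 ∧ p.2 ⊆ q.2.2 ∧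
      q.2.1 ∩ K (m + 1) ⊆ q.1.1 ∧ q.2.2 ∩ L (m + 1) ⊆ q.1.2 := by
    intro m p
    by_cases hp : Good m p
    · obtain ⟨h1, h2, h3, h4, h5⟩ := hp
      obtain ⟨Q, hQ, hQG⟩ := hG (m + 1)
      have hsub : p.1 ×ˢ p.2 ⊆ Q := by
        rintro ⟨y, z⟩ hyz
        have : (y, z) ∈ Q ∩ (K (m + 1) ×ˢ L (m + 1)) := by
          rw [← hQG]
          exact ⟨h5 hyz, hKm (Nat.le_succ m) (h2 hyz.1), hLm (Nat.le_succ m) (h4 hyz.2)⟩
        exact this.1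
      obtain ⟨u, v, hu, hv, hpu, hpv, huv⟩ := generalized_tube_lemma h1 h3 hQ hsub
      obtain ⟨O, hO, hpO, hOu⟩ := h1.exists_isOpen_closure_subset (hu.mem_nhdsSet.2 hpu)
      obtain ⟨P, hP, hpP, hPv⟩ := h3.exists_isOpen_closure_subset (hv.mem_nhdsSet.2 hpv)
      refine ⟨((closure O ∩ K (m + 1), closure P ∩ L (m + 1)), (O, P)), fun _ =>
        ⟨⟨(hK (m + 1)).inter_left isClosed_closure, inter_subset_right,
        (hL (m + 1)).inter_left isClosed_closure, inter_subset_right, ?_⟩, hO, hP, hpO, hpP,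
        inter_subset_inter_left _ subset_closure, inter_subset_inter_left _ subset_closure⟩⟩
      rintro ⟨y, z⟩ ⟨⟨hy1, hy2⟩, ⟨hz1, hz2⟩⟩
      have : (y, z) ∈ G ∩ (K (m + 1) ×ˢ L (m + 1)) := by
        rw [hQG]
        exact ⟨huv ⟨hOu hy1, hPv hz1⟩, hy2, hz2⟩
      exact this.1
    · exact ⟨(p, p), fun h => (hp h).elim⟩
  choose q hq using step
  let s : ℕ → Set Y × Set Z := fun m => Nat.rec ({a}, {b}) (fun m p => (q (m₀ + m) p).1) m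
  have hs0 : s 0 = ({a}, {b}) := rfl
  have hss : ∀ m, s (m + 1) = (q (m₀ + m) (s m)).1 := fun m => rfl
  have hgood : ∀ m, Good (m₀ + m) (s m) := by
    intro m
    induction m with
    | zero =>
      refine ⟨isCompact_singleton, by simpa [s] using haK, isCompact_singleton,
        by simpa [s] using hbL, ?_⟩
      rintro ⟨y, z⟩ ⟨hy, hz⟩
      have hy' : y = a := hy
      have hz' : z = b := hz
      rw [hy', hz']
      exact hab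
    | succ m ih =>
      rw [hss, ← Nat.add_assoc]
      exact (hq _ _ ih).1
  have hO : ∀ m, IsOpen (q (m₀ + m) (s m)).2.1 := fun m => (hq _ _ (hgood m)).2.1
  have hP : ∀ m, IsOpen (q (m₀ + m) (s m)).2.2 := fun m => (hq _ _ (hgood m)).2.2.1
  have hsO : ∀ m, (s m).1 ⊆ (q (m₀ + m) (s m)).2.1 := fun m => (hq _ _ (hgood m)).2.2.2.1
  have hsP : ∀ m, (s m).2 ⊆ (q (m₀ + m) (s m)).2.2 := fun m => (hq _ _ (hgood m)).2.2.2.2.1
  have hOs : ∀ m, (q (m₀ + m) (s m)).2.1 ∩ K (m₀ + m + 1) ⊆ (s (m + 1)).1 := fun m =>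
    (hq _ _ (hgood m)).2.2.2.2.2.1
  have hPs : ∀ m, (q (m₀ + m) (s m)).2.2 ∩ L (m₀ + m + 1) ⊆ (s (m + 1)).2 := fun m =>
    (hq _ _ (hgood m)).2.2.2.2.2.2
  have hmono1 : Monotone fun m => (s m).1 := monotone_nat_of_le_succ fun m y hy =>
    hOs m ⟨hsO m hy, hKm (by omega) ((hgood m).2.1 hy)⟩
  have hmono2 : Monotone fun m => (s m).2 := monotone_nat_of_le_succ fun m y hy =>
    hPs m ⟨hsP m hy, hLm (by omega) ((hgood m).2.2.2.1 hy)⟩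
  refine ⟨⋃ m, (s m).1, ⋃ m, (s m).2, ?_, ?_, mem_iUnion.2 ⟨0, rfl⟩, mem_iUnion.2 ⟨0, rfl⟩, ?_⟩
  · intro j
    refine ⟨⋃ m ∈ {m | j ≤ m}, (q (m₀ + m) (s m)).2.1, isOpen_biUnion fun m _ => hO m, ?_⟩
    ext y
    constructor
    · rintro ⟨hy, hyK⟩
      obtain ⟨m, hm⟩ := mem_iUnion.1 hy
      refine ⟨mem_iUnion₂.2 ⟨max j m, (le_max_left j m : j ≤ max j m), hsO _ (hmono1 (le_max_right _ _) hm)⟩, hyK⟩
    · rintro ⟨hy, hyK⟩
      obtain ⟨m, hm, hym⟩ := mem_iUnion₂.1 hy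
      refine ⟨mem_iUnion.2 ⟨m + 1, hOs m ⟨hym, hKm ?_ hyK⟩⟩, hyK⟩
      have : j ≤ m := hm
      omega
  · intro j
    refine ⟨⋃ m ∈ {m | j ≤ m}, (q (m₀ + m) (s m)).2.2, isOpen_biUnion fun m _ => hP m, ?_⟩
    ext y
    constructor
    · rintro ⟨hy, hyK⟩
      obtain ⟨m, hm⟩ := mem_iUnion.1 hy
      refine ⟨mem_iUnion₂.2 ⟨max j m, (le_max_left j m : j ≤ max j m), hsP _ (hmono2 (le_max_right _ _) hm)⟩, hyK⟩
    · rintro ⟨hy, hyK⟩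
      obtain ⟨m, hm, hym⟩ := mem_iUnion₂.1 hy
      refine ⟨mem_iUnion.2 ⟨m + 1, hPs m ⟨hym, hLm ?_ hyK⟩⟩, hyK⟩
      have : j ≤ m := hm
      omega
  · rintro ⟨y, z⟩ ⟨hy, hz⟩
    obtain ⟨m, hm⟩ := mem_iUnion.1 hy
    obtain ⟨n, hn⟩ := mem_iUnion.1 hz
    exact (hgood (max m n)).2.2.2.2 ⟨hmono1 (le_max_left _ _) hm, hmono2 (le_max_right _ _) hn⟩

/-- continuity of maps of two variables -/
lemma continuous_kTop₂ {Y : Type u} {Z : Type v} {W : Type w} [TopologicalSpace Y]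
    [TopologicalSpace Z] [TopologicalSpace W] [RegularSpace Y]
    [RegularSpace Z] {K : ℕ → Set Y} {L : ℕ → Set Z} {M : ℕ → Set W}
    (hK : ∀ m, IsCompact (K m)) (hKm : Monotone K) (hKu : ∀ y, ∃ m, y ∈ K m)
    (hL : ∀ m, IsCompact (L m)) (hLm : Monotone L) (hLu : ∀ z, ∃ m, z ∈ L m)
    (f : Y × Z → W) (hf : Continuous f) (hfM : ∀ m, ∃ m', ∀ p ∈ K m ×ˢ L m, f p ∈ M m') :
    @Continuous (Y × Z) W (@instTopologicalSpaceProd Y Z (kTop K) (kTop L)) (kTop M) f := by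
  rw [@continuous_def]
  intro U hU
  rw [@isOpen_prod_iff]
  intro a b hab
  refine milnor hK hKm hKu hL hLm hLu (f ⁻¹' U) (fun m => ?_) hab
  obtain ⟨m', hm'⟩ := hfM m
  obtain ⟨O, hO, hUO⟩ := hU m'
  refine ⟨f ⁻¹' O, hO.preimage hf, ?_⟩
  ext p
  constructor
  · rintro ⟨hp, hpK⟩
    have : f p ∈ O ∩ M m' := by
      rw [← hUO]
      exact ⟨hp, hm' p hpK⟩
    exact ⟨this.1, hpK⟩
  · rintro ⟨hp, hpK⟩
    have : f p ∈ U ∩ M m' := by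
      rw [hUO]
      exact ⟨hp, hm' p hpK⟩
    exact ⟨this.1, hpK⟩

end Q177.KOmega
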