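import Pool.Agent.Q61.BS.Stm

/-! Lemma job 32870 (BS LOW, project BS of helper61), by helper177. -/

set_option autoImplicit false

open MeasureTheory Set Filter Topology Real

noncomputable section

namespace Pool.Agent.Q177.BS

open Pool.Agent.Q61.BS

theorem low (h : S_mea) (h1 : S_mdp) (h2 : S_est) (h3 : S_sep) : S_low := by
  intro β₁ β₂ hb1 hb2
  have key : ∀ x ∈ Ioo (0 : ℝ) 1, ENNReal.ofReal (FF β₁ β₂ x) ≤ dimH (range (pt β₁ β₂)) := by
    intro x hx
    by_contra hlt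
    rw [not_le, ENNReal.lt_iff_exists_real_btwn] at hlt
    obtain ⟨r, hr0, hr1, hr2⟩ := hlt
    have hrpos : 0 < r := by
      rcases hr0.lt_or_eq with h | h
      · exact h
      · rw [← h] at hr1
        simp at hr1
    have hrFF : r < FF β₁ β₂ x := (ENNReal.ofReal_lt_ofReal_iff'.1 hr2).1
    obtain ⟨μ, hμ, hcyl, hlim⟩ := h x hx
    refine absurd (h1 μ (pt β₁ β₂) r hμ hrpos ?_) (not_le.2 hr1)
    filter_upwards [hlim] with ω hω
    obtain ⟨ρ₀, hρ₀, H⟩ := h2 β₁ β₂ hb1 hb2 x hx ω hω r hrpos hrFF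
    refine ⟨ρ₀, hρ₀, fun ρ h0 hlt' => ?_⟩
    obtain ⟨n, m, hnm, hm, hn, hle⟩ := H ρ h0 hlt'
    calc μ {ω' | dist (pt β₁ β₂ ω') (pt β₁ β₂ ω) ≤ ρ}
        ≤ μ {ω' | (∀ k < n, ω' k = ω k) ∧ ∀ k < m, (ω' k = 0 ↔ ω k = 0)} := by
          apply measure_mono
          intro ω' hω'
          rw [mem_setOf_eq, Prod.dist_eq, max_le_iff] at hω'
          obtain ⟨hX, hY⟩ := hω'
          rw [dist_comm, Real.dist_eq] at hX hY
          have e1 := (h3 β₁ β₂ hb1.le hb2.le ω ω' m).2 (lt_of_le_of_lt hX hm)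
          have e2 := (h3 β₁ β₂ hb1.le hb2.le ω ω' n).1 (lt_of_le_of_lt hY hn)
          exact ⟨fun k hk => (e2 k hk.le).symm, fun k hk => (e1 k hk.le).symm⟩
      _ = ENNReal.ofReal (x ^ zc ω m * (1 - x) ^ (m - zc ω m) * (1 / 3) ^ (n - zc ω n)) :=
          hcyl ω n m hnm
      _ ≤ ENNReal.ofReal (ρ ^ r) := ENNReal.ofReal_le_ofReal hle
  intro x hx
  have hl5 : 0 < log 5 := Real.log_pos (by norm_num)
  have hden : x * β₁ + (1 - x) * β₂ ≠ 0 := by
    have hb1' : 0 < β₁ := hl5.trans hb1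
    have hb2' : 0 < β₂ := hl5.trans hb2
    rcases hx.1.lt_or_eq with h | h
    · have : 0 < x * β₁ := mul_pos h hb1'
      have : 0 ≤ (1 - x) * β₂ := mul_nonneg (by linarith [hx.2]) hb2'.le
      linarith
    · rw [← h]; simp; exact hb2'.ne'
  have hcont : ContinuousAt (fun y => FF β₁ β₂ y) x := by
    unfold FF
    apply ContinuousAt.add
    · exact (binEntropy_continuous.continuousAt).div_const _
    · apply ContinuousAt.div
      · fun_prop
      · fun_prop
      · exact hden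
  have hcl : x ∈ closure (Ioo (0 : ℝ) 1) := by
    rw [closure_Ioo (by norm_num)]
    exact hx
  haveI : (𝓝[Ioo (0 : ℝ) 1] x).NeBot := mem_closure_iff_nhdsWithin_neBot.1 hcl
  have ht : Tendsto (fun y => ENNReal.ofReal (FF β₁ β₂ y)) (𝓝[Ioo (0 : ℝ) 1] x)
      (𝓝 (ENNReal.ofReal (FF β₁ β₂ x))) :=
    (ENNReal.continuous_ofReal.continuousAt.tendsto.comp hcont.tendsto).mono_left
      nhdsWithin_le_nhds
  exact le_of_tendsto ht (by filter_upwards [self_mem_nhdsWithin] with y hy using key y hy)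

end Pool.Agent.Q177.BS
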