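import Mathlib

/-!
# Continuous solutions of `f (x + f x) = f x + f (f x)`: analytic lemmas
-/

set_option autoImplicit false

namespace Q177.Comp

open Set Filter Topology

/-! ### Pascal arrays -/

theorem newton (b : ℕ → ℕ → ℝ) (M : ℕ)
    (h : ∀ n k, n + k < M → b (n + 1) k = b n k + b n (k + 1)) :
    ∀ n k, n + k ≤ M →
      b n k = ∑ i ∈ Finset.range (n + 1), (n.choose i : ℝ) * b 0 (k + i) := by
  intro n
  induction n with
  | zero => intro k _; simp
  | succ n ih =>
    intro k hk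
    rw [h n k (by omega), ih k (by omega), ih (k + 1) (by omega)]
    rw [Finset.sum_range_succ' (fun i => ((n + 1).choose i : ℝ) * b 0 (k + i))]
    have h1 : ∀ i ∈ Finset.range (n + 1),
        ((n + 1).choose (i + 1) : ℝ) * b 0 (k + (i + 1)) =
        (n.choose i : ℝ) * b 0 (k + 1 + i) + (n.choose (i + 1) : ℝ) * b 0 (k + (i + 1)) := by
      intro i _
      rw [Nat.choose_succ_succ]
      push_cast
      have : k + 1 + i = k + (i + 1) := by ring
      rw [this]
      ring
    rw [Finset.sum_congr rfl h1, Finset.sum_add_distrib]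
    rw [Finset.sum_range_succ' (fun i => (n.choose i : ℝ) * b 0 (k + i))]
    rw [Finset.sum_range_succ (fun i => (n.choose (i + 1) : ℝ) * b 0 (k + (i + 1)))]
    simp
    ring

theorem arr (b : ℕ → ℕ → ℝ) (N : ℕ)
    (h : ∀ n k, n + k < N + 2 → b (n + 1) k = b n k + b n (k + 1))
    (hpos : ∀ k, k ≤ N + 2 → 0 ≤ b 0 k) :
    ((N : ℝ) + 2) * b (N + 1) 0 ^ 2 ≤
      b (N + 2) 0 * (((N : ℝ) + 1) * b N 0 + b (N + 1) 0) := by
  have hN := newton b (N + 2) h
  set p : ℕ → ℝ := fun i => ((N + 2).choose i : ℝ) * b 0 i with hp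
  have e2 : b (N + 2) 0 = ∑ i ∈ Finset.range (N + 3), p i := by
    rw [hN (N + 2) 0 (by omega)]
    simp [hp]
  have e1 : ((N : ℝ) + 2) * b (N + 1) 0 =
      ∑ i ∈ Finset.range (N + 3), p i * ((N : ℝ) + 2 - i) := by
    rw [hN (N + 1) 0 (by omega), Finset.sum_range_succ _ (N + 2), Finset.mul_sum]
    have : p (N + 2) * ((N : ℝ) + 2 - ((N + 2 : ℕ) : ℝ)) = 0 := by push_cast; ring
    rw [this, add_zero]
    refine Finset.sum_congr rfl fun i hi => ?_
    have hi' : i ≤ N + 1 := by simpa [Nat.lt_succ_iff] using hi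
    have hc := Nat.choose_mul_succ_eq (N + 1) i
    have hc' : ((N + 1).choose i : ℝ) * ((N : ℝ) + 2) =
        ((N + 2).choose i : ℝ) * ((N : ℝ) + 2 - i) := by
      have := congrArg (fun t : ℕ => (t : ℝ)) hc
      simp only [Nat.cast_mul] at this
      rw [Nat.cast_sub (by omega)] at this
      push_cast at this
      linarith
    simp only [hp, zero_add]
    linear_combination (b 0 i) * hc'
  have e0 : ((N : ℝ) + 2) * (((N : ℝ) + 1) * b N 0) =
      ∑ i ∈ Finset.range (N + 3), p i * (((N : ℝ) + 2 - i) * ((N : ℝ) + 1 - i)) := by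
    rw [hN N 0 (by omega), Finset.sum_range_succ _ (N + 2), Finset.sum_range_succ _ (N + 1),
      Finset.mul_sum, Finset.mul_sum]
    have h1 : p (N + 2) * (((N : ℝ) + 2 - ((N + 2 : ℕ) : ℝ)) * ((N : ℝ) + 1 - ((N + 2 : ℕ) : ℝ)))
        = 0 := by push_cast; ring
    have h2 : p (N + 1) * (((N : ℝ) + 2 - ((N + 1 : ℕ) : ℝ)) * ((N : ℝ) + 1 - ((N + 1 : ℕ) : ℝ)))
        = 0 := by push_cast; ring
    rw [h1, h2, add_zero, add_zero]
    refine Finset.sum_congr rfl fun i hi => ?_
    have hi' : i ≤ N := by simpa [Nat.lt_succ_iff] using hi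
    have hc := Nat.choose_mul_succ_eq (N + 1) i
    have hc' : ((N + 1).choose i : ℝ) * ((N : ℝ) + 2) =
        ((N + 2).choose i : ℝ) * ((N : ℝ) + 2 - i) := by
      have := congrArg (fun t : ℕ => (t : ℝ)) hc
      simp only [Nat.cast_mul] at this
      rw [Nat.cast_sub (by omega)] at this
      push_cast at this
      linarith
    have hd := Nat.choose_mul_succ_eq N i
    have hd' : (N.choose i : ℝ) * ((N : ℝ) + 1) =
        ((N + 1).choose i : ℝ) * ((N : ℝ) + 1 - i) := by
      have := congrArg (fun t : ℕ => (t : ℝ)) hd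
      simp only [Nat.cast_mul] at this
      rw [Nat.cast_sub (by omega)] at this
      push_cast at this
      linarith
    simp only [hp, zero_add]
    linear_combination (b 0 i * ((N : ℝ) + 1 - i)) * hc' + (b 0 i * ((N : ℝ) + 2)) * hd'
  have hp0 : ∀ i ∈ Finset.range (N + 3), 0 ≤ p i := by
    intro i hi
    have hi' : i ≤ N + 2 := by simpa [Nat.lt_succ_iff] using hi
    exact mul_nonneg (by positivity) (hpos i hi')
  have cs := Finset.sum_sq_le_sum_mul_sum_of_sq_le_mul (Finset.range (N + 3))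
    (r := fun i => p i * ((N : ℝ) + 2 - i)) (f := p)
    (g := fun i => p i * ((N : ℝ) + 2 - i) ^ 2) hp0
    (fun i hi => mul_nonneg (hp0 i hi) (sq_nonneg _)) (fun i _ => le_of_eq (by ring))
  have e3 : ∑ i ∈ Finset.range (N + 3), p i * ((N : ℝ) + 2 - i) ^ 2 =
      ((N : ℝ) + 2) * (((N : ℝ) + 1) * b N 0) + ((N : ℝ) + 2) * b (N + 1) 0 := by
    rw [e0, e1, ← Finset.sum_add_distrib]
    exact Finset.sum_congr rfl fun i _ => by ring
  rw [← e1, ← e2, e3] at cs
  have hpos2 : (0 : ℝ) < (N : ℝ) + 2 := by positivity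
  nlinarith [mul_le_mul_iff_right₀ hpos2 (b := ((N : ℝ) + 2) * b (N + 1) 0 ^ 2) (c := b (N + 2) 0 * (((N : ℝ) + 1) * b N 0 + b (N + 1) 0))]

/-- From the inequalities of `arr` for all `N` one gets log-convexity. -/
theorem lim_ineq (s t u : ℝ)
    (h : ∀ N : ℕ, ((N : ℝ) + 2) * t ^ 2 ≤ u * (((N : ℝ) + 1) * s + t)) : t ^ 2 ≤ s * u := by
  by_contra hc
  push Not at hc
  obtain ⟨N, hN⟩ := exists_nat_gt ((u * t - t ^ 2) / (t ^ 2 - s * u))
  have hpos : 0 < t ^ 2 - s * u := by linarith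
  rw [div_lt_iff₀ hpos] at hN
  have := h N
  nlinarith

end Q177.Comp
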