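import Pool.Agent.Q177.CompA

/-!
# Continuous solutions of `f (x + f x) = f x + f (f x)`: one-dimensional dynamics
-/

set_option autoImplicit false

namespace Q177.Comp

open Set Filter Topology

/-- Descent: arbitrarily small points with a large value of `K`. -/
theorem descent (K : ℝ → ℝ) (hK : ContinuousOn K (Ioi 0))
    (D : ∀ x, 0 < x → ∃ x', 0 < x' ∧ x' < x ∧ K x ≤ K x') :
    ∀ y, 0 < y → ∀ ε, 0 < ε → ∃ x, 0 < x ∧ x < ε ∧ K y ≤ K x := by
  intro y hy ε hε
  by_contra hcon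
  push Not at hcon
  have hεy : ε ≤ y := by
    by_contra hlt
    exact absurd (hcon y hy (not_le.1 hlt)) (lt_irrefl _)
  have hcomp : IsCompact (Icc ε y ∩ K ⁻¹' Ici (K y)) := by
    have hc : ContinuousOn K (Icc ε y) := hK.mono fun t ht => lt_of_lt_of_le hε ht.1
    exact isCompact_Icc.of_isClosed_subset
      (hc.preimage_isClosed_of_isClosed isClosed_Icc isClosed_Ici) inter_subset_left
  obtain ⟨x, hx, hmin⟩ := hcomp.exists_isLeast ⟨y, ⟨hεy, le_rfl⟩, mem_preimage.2 (mem_Ici.2 le_rfl)⟩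
  have hx0 : 0 < x := lt_of_lt_of_le hε hx.1.1
  obtain ⟨x', h0, hlt, hle⟩ := D x hx0
  have hK' : K y ≤ K x' := le_trans hx.2 hle
  by_cases h : x' < ε
  · exact absurd hK' (not_le.2 (hcon x' h0 h))
  · have : x ≤ x' := hmin ⟨⟨not_lt.1 h, le_trans hlt.le hx.1.2⟩, hK'⟩
    linarith

theorem iter_pos (g : ℝ → ℝ) (h : ∀ x, 0 < x → 0 < g x) (n : ℕ) :
    ∀ x, 0 < x → 0 < g^[n] x := by
  induction n with
  | zero => intro x hx; simpa
  | succ n ih => intro x hx; rw [Function.iterate_succ_apply]; exact ih _ (h x hx)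

theorem iter_zero (g : ℝ → ℝ) (h : g 0 = 0) (n : ℕ) : g^[n] 0 = 0 :=
  Function.iterate_fixed h n

theorem ratio_mono (g : ℝ → ℝ) (hpos : ∀ x, 0 < x → 0 < g x)
    (hlog : ∀ x, 0 < x → g x ^ 2 ≤ x * g (g x)) (n : ℕ) :
    ∀ x, 0 < x → g x / x ≤ g (g^[n] x) / (g^[n] x) := by
  induction n with
  | zero => intro x _; simp
  | succ n ih =>
    intro x hx
    rw [Function.iterate_succ_apply]
    refine le_trans ?_ (ih (g x) (hpos x hx))
    rw [div_le_div_iff₀ hx (hpos x hx)]
    nlinarith [hlog x hx]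

theorem iter_lower (g : ℝ → ℝ) (hpos : ∀ x, 0 < x → 0 < g x)
    (hlog : ∀ x, 0 < x → g x ^ 2 ≤ x * g (g x)) (n : ℕ) (x : ℝ) (hx : 0 < x) :
    (g x / x) ^ n * x ≤ g^[n] x := by
  induction n with
  | zero => simp
  | succ n ih =>
    rw [Function.iterate_succ_apply']
    have h1 := ratio_mono g hpos hlog n x hx
    have h2 := iter_pos g hpos n x hx
    have h3 : 0 ≤ g x / x := (div_pos (hpos x hx) hx).le
    calc (g x / x) ^ (n + 1) * x = (g x / x) * ((g x / x) ^ n * x) := by ring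
      _ ≤ (g x / x) * g^[n] x := by gcongr
      _ ≤ g (g^[n] x) / (g^[n] x) * g^[n] x := by gcongr
      _ = g (g^[n] x) := by field_simp

theorem iter_upper (g : ℝ → ℝ) (hpos : ∀ x, 0 < x → 0 < g x)
    (hlog : ∀ x, 0 < x → g x ^ 2 ≤ x * g (g x)) (n : ℕ) :
    ∀ w, 0 < w → g^[n] w ≤ (g (g^[n] w) / (g^[n] w)) ^ n * w := by
  induction n with
  | zero => intro w _; simp
  | succ n ih =>
    intro w hw
    have h1 := ratio_mono g hpos hlog (n + 1) w hw
    rw [Function.iterate_succ_apply] at h1 ⊢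
    have h2 := ih (g w) (hpos w hw)
    set R := g (g^[n] (g w)) / (g^[n] (g w)) with hR
    have h3 : 0 < g w / w := div_pos (hpos w hw) hw
    have hR0 : 0 < R := lt_of_lt_of_le h3 h1
    calc g^[n] (g w) ≤ R ^ n * g w := h2
      _ = R ^ n * ((g w / w) * w) := by field_simp
      _ ≤ R ^ n * (R * w) := by gcongr
      _ = R ^ (n + 1) * w := by ring

/-- Expanding comparison. -/
theorem lemG (g : ℝ → ℝ) (hg : Continuous g) (g0 : g 0 = 0) (hexp : ∀ x, 0 < x → x < g x)
    (hlog : ∀ x, 0 < x → g x ^ 2 ≤ x * g (g x))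
    (hsmall : ∀ y, 0 < y → ∀ ε, 0 < ε → ∃ x, 0 < x ∧ x < ε ∧ g y / y ≤ g x / x) :
    ∀ y, 0 < y → ∀ z, 0 < z → g y / y ≤ g z / z := by
  intro y hy z hz
  by_contra hcon
  push Not at hcon
  have hpos : ∀ x, 0 < x → 0 < g x := fun x hx => lt_trans hx (hexp x hx)
  set A := g z / z with hA
  set B := g y / y with hB
  have hA1 : 1 < A := by rw [hA, lt_div_iff₀ hz]; simpa using hexp z hz
  have hA0 : 0 < A := by linarith
  have hBA : 1 < B / A := by rw [lt_div_iff₀ hA0]; simpa using hcon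
  obtain ⟨m, hm⟩ := pow_unbounded_of_one_lt A hBA
  -- small x
  have hcont : Continuous (g^[m]) := hg.iterate m
  have hev : ∀ᶠ x in 𝓝 (0 : ℝ), g^[m] x < z := by
    have : Tendsto (g^[m]) (𝓝 0) (𝓝 0) := by
      have := hcont.tendsto 0
      rwa [iter_zero g g0] at this
    exact this.eventually (gt_mem_nhds hz)
  obtain ⟨ε, hε, hball⟩ := Metric.eventually_nhds_iff.1 hev
  obtain ⟨x, hx0, hxε, hxB⟩ := hsmall y hy ε hε
  have hmx : g^[m] x < z := hball (by rw [Real.dist_eq, sub_zero, abs_of_pos hx0]; exact hxε)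
  have hB1 : 1 < B := lt_trans hA1 hcon
  have hlow : ∀ n, B ^ n * x ≤ g^[n] x := by
    intro n
    refine le_trans ?_ (iter_lower g hpos hlog n x hx0)
    have : B ^ n ≤ (g x / x) ^ n := pow_le_pow_left₀ (by linarith) hxB n
    nlinarith
  have hex : ∃ n, z ≤ g^[n] x := by
    obtain ⟨n, hn⟩ := pow_unbounded_of_one_lt (z / x) hB1
    refine ⟨n, le_trans ?_ (hlow n)⟩
    rw [div_lt_iff₀ hx0] at hn
    exact hn.le
  classical
  set n := Nat.find hex with hn
  have hn1 : z ≤ g^[n] x := Nat.find_spec hex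
  have hmono : Monotone fun j => g^[j] x := by
    refine monotone_nat_of_le_succ fun j => ?_
    simp only [Function.iterate_succ_apply']
    exact (hexp _ (iter_pos g hpos j x hx0)).le
  have hmn : m < n := by
    by_contra hle
    have := hmono (not_lt.1 hle)
    simp only at this
    linarith
  obtain ⟨k, hk⟩ : ∃ k, n = k + 1 := ⟨n - 1, by omega⟩
  have hk1 : g^[k] x < z := by
    have := Nat.find_min hex (m := k) (by rw [← hn]; omega)
    exact not_le.1 this
  have hbx : B ^ k * x < z := lt_of_le_of_lt (hlow k) hk1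
  -- preimage of z
  have hivt : z ∈ g^[n] '' Icc 0 x := by
    refine intermediate_value_Icc hx0.le (hg.iterate n).continuousOn ⟨?_, hn1⟩
    rw [iter_zero g g0]; exact hz.le
  obtain ⟨w, ⟨hw0, hwx⟩, hwz⟩ := hivt
  have hw : 0 < w := by
    rcases hw0.eq_or_lt with h | h
    · rw [← h, iter_zero g g0] at hwz
      linarith
    · exact h
  have hup := iter_upper g hpos hlog n w hw
  rw [hwz, ← hA] at hup
  have hAn : 0 < A ^ n := by positivity
  have h1 : B ^ k * x < A ^ n * x := by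
    refine lt_of_lt_of_le hbx (le_trans hup ?_)
    gcongr
  have h2 : B ^ k < A ^ n := lt_of_mul_lt_mul_right h1 hx0.le
  rw [hk, pow_succ] at h2
  have h3 : (B / A) ^ k < A := by
    rw [div_pow, div_lt_iff₀ (by positivity)]
    linarith
  have h4 : (B / A) ^ m ≤ (B / A) ^ k := pow_le_pow_right₀ hBA.le (by omega)
  linarith

/-- Contracting comparison. -/
theorem lemC (g : ℝ → ℝ) (hg : Continuous g) (g0 : g 0 = 0)
    (hpos : ∀ x, 0 < x → 0 < g x) (hcontr : ∀ x, 0 < x → g x < x)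
    (hlog : ∀ x, 0 < x → g x ^ 2 ≤ x * g (g x))
    (hsmall : ∀ z, 0 < z → ∀ ε, 0 < ε → ∃ x, 0 < x ∧ x < ε ∧ g x / x ≤ g z / z) :
    ∀ y, 0 < y → ∀ z, 0 < z → g y / y ≤ g z / z := by
  intro y hy z hz
  by_contra hcon
  push Not at hcon
  set A := g z / z with hA
  set B := g y / y with hB
  have hA0 : 0 < A := div_pos (hpos z hz) hz
  have hB0 : 0 < B := lt_trans hA0 hcon
  have hBA : 1 < B / A := by rw [lt_div_iff₀ hA0]; simpa using hcon
  obtain ⟨m, hm⟩ := pow_unbounded_of_one_lt (1 / B) hBA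
  have hmy : 0 < g^[m] y := iter_pos g hpos m y hy
  obtain ⟨x, hx0, hxε, hxA⟩ := hsmall z hz (g^[m] y) hmy
  have hanti : Antitone fun j => g^[j] y := by
    refine antitone_nat_of_succ_le fun j => ?_
    simp only [Function.iterate_succ_apply']
    exact (hcontr _ (iter_pos g hpos j y hy)).le
  have hex : ∃ n, g^[n] y ≤ x := by
    by_contra hne
    push Not at hne
    have hbdd : BddBelow (range fun j => g^[j] y) := ⟨x, by
      rintro _ ⟨j, rfl⟩; exact (hne j).le⟩
    have ht := tendsto_atTop_ciInf hanti hbdd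
    have hL : x ≤ ⨅ j, g^[j] y := le_ciInf fun j => (hne j).le
    have hfix := isFixedPt_of_tendsto_iterate ht hg.continuousAt
    have := hcontr _ (lt_of_lt_of_le hx0 hL)
    rw [hfix.eq] at this
    exact lt_irrefl _ this
  classical
  set n := Nat.find hex with hn
  have hn1 : g^[n] y ≤ x := Nat.find_spec hex
  have hmn : m < n := by
    by_contra hle
    have := hanti (not_lt.1 hle)
    simp only at this
    linarith
  obtain ⟨k, hk⟩ : ∃ k, n = k + 1 := ⟨n - 1, by omega⟩
  have hk1 : x < g^[k] y := by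
    have := Nat.find_min hex (m := k) (by rw [← hn]; omega)
    exact not_le.1 this
  have hivt : x ∈ g^[k] '' Icc 0 y := by
    refine intermediate_value_Icc hy.le (hg.iterate k).continuousOn ⟨?_, hk1.le⟩
    rw [iter_zero g g0]; exact hx0.le
  obtain ⟨w, ⟨hw0, hwy⟩, hwx⟩ := hivt
  have hw : 0 < w := by
    rcases hw0.eq_or_lt with h | h
    · rw [← h, iter_zero g g0] at hwx
      linarith
    · exact h
  have hup := iter_upper g hpos hlog k w hw
  rw [hwx] at hup
  have hx' : x ≤ A ^ k * y := by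
    refine le_trans hup ?_
    have h0 : 0 ≤ g x / x := (div_pos (hpos x hx0) hx0).le
    gcongr
  have hlow := iter_lower g hpos hlog n y hy
  rw [← hB] at hlow
  have h1 : B ^ n * y ≤ A ^ k * y := by linarith
  have h2 : B ^ n ≤ A ^ k := le_of_mul_le_mul_right h1 hy
  rw [hk, pow_succ] at h2
  have h3 : (B / A) ^ k ≤ 1 / B := by
    rw [div_pow, div_le_div_iff₀ (by positivity) hB0]
    linarith
  have h4 : (B / A) ^ m ≤ (B / A) ^ k := pow_le_pow_right₀ hBA.le (by omega)
  linarith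

end Q177.Comp
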