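import Pool.Agent.Q177.CompB

/-!
# Continuous solutions of `f (x + f x) = f x + f (f x)`: nonnegative on the half line
-/

set_option autoImplicit false

namespace Q177.Comp

open Set Filter Topology

/-- Continuous solutions. -/
structure Sol (f : ℝ → ℝ) : Prop where
  cont : Continuous f
  eq : ∀ x, f (x + f x) = f x + f (f x)

variable {f : ℝ → ℝ}

theorem Sol.zero (h : Sol f) : f 0 = 0 := by
  have := h.eq 0
  rw [zero_add] at this
  linarith

theorem Sol.mir (h : Sol f) : Sol fun x => - f (-x) where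
  cont := (h.cont.comp continuous_neg).neg
  eq x := by
    have := h.eq (-x)
    simp only [neg_add, neg_neg]
    rw [this]
    ring

/-- the map `x ↦ x + f x` -/
def ph (f : ℝ → ℝ) (x : ℝ) : ℝ := x + f x

theorem Sol.cph (h : Sol f) : Continuous (ph f) := continuous_id.add h.cont

theorem ph_def (x : ℝ) : ph f x = x + f x := rfl

theorem Sol.f_ph (h : Sol f) (x : ℝ) : f (ph f x) = f x + f (f x) := h.eq x

theorem Sol.comm (h : Sol f) (x : ℝ) : f (ph f x) = ph f (f x) := h.eq x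

theorem Sol.ph_zero (h : Sol f) : ph f 0 = 0 := by simp [ph, h.zero]

theorem Sol.comm_iter (h : Sol f) (n k : ℕ) (x : ℝ) :
    f^[k] ((ph f)^[n] x) = (ph f)^[n] (f^[k] x) := by
  have hc : Function.Commute f (ph f) := fun x => h.comm x
  exact (hc.iterate_iterate k n) x

/-- Sliding lemma. -/
theorem Sol.slide (h : Sol f) (u q : ℝ) (hu : f u = 0) (hq : f q = u) (n : ℕ) :
    f (q + n * u) = u := by
  induction n with
  | zero => simpa
  | succ n ih =>
    have h1 := h.eq (q + n * u)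
    rw [ih, hu] at h1
    have : q + ((n + 1 : ℕ) : ℝ) * u = q + n * u + u := by push_cast; ring
    rw [this, h1, add_zero]

theorem Sol.lemW (h : Sol f) (y : ℝ)
    (H : ∀ ε, 0 < ε → ∃ u q, 0 < u ∧ u < ε ∧ f u = 0 ∧ f q = u ∧ q ≤ y) : f y = 0 := by
  by_contra hy
  have hy' : 0 < |f y| := abs_pos.2 hy
  obtain ⟨δ, hδ, hball⟩ := Metric.continuousAt_iff.1 (h.cont.continuousAt (x := y)) (|f y| / 2)
    (by positivity)
  obtain ⟨u, q, hu0, hu, hfu, hfq, hqy⟩ := H (min δ (|f y| / 2)) (lt_min hδ (by positivity))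
  set n := ⌊(y - q) / u⌋₊ with hn
  have h1 : (n : ℝ) ≤ (y - q) / u := Nat.floor_le (div_nonneg (by linarith) hu0.le)
  have h2 : (y - q) / u < n + 1 := Nat.lt_floor_add_one _
  rw [le_div_iff₀ hu0] at h1
  rw [div_lt_iff₀ hu0] at h2
  have h3 : dist (q + n * u) y < δ := by
    rw [Real.dist_eq, abs_lt]
    have := lt_of_lt_of_le hu (min_le_left _ _)
    constructor <;> nlinarith
  have h4 := hball h3
  rw [h.slide u q hfu hfq, Real.dist_eq] at h4
  have h5 := lt_of_lt_of_le hu (min_le_right _ _)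
  have h6 : |f y| ≤ |u - f y| + |u| := by
    have := abs_sub_abs_le_abs_sub (f y) u
    rw [abs_sub_comm] at this
    linarith
  rw [abs_of_pos hu0] at h6
  linarith

/-- If `f ≥ 0` on the half line and `f b = 0`, then `f = 0` on `[0, b]`. -/
theorem Sol.zero_below (h : Sol f) (hf : ∀ x, 0 ≤ x → 0 ≤ f x) (b : ℝ) (hb : 0 < b)
    (hfb : f b = 0) (x : ℝ) (hx : 0 ≤ x) (hxb : x ≤ b) : f x = 0 := by
  by_contra hne
  have hu : 0 < f x := lt_of_le_of_ne (hf x hx) (Ne.symm hne)
  have hstay : ∀ y, 0 ≤ y → y < b → ph f y < b := by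
    intro y hy hyb
    by_contra hge
    have : b ∈ ph f '' Icc 0 y :=
      intermediate_value_Icc hy h.cph.continuousOn ⟨by rw [h.ph_zero]; exact hb.le, not_lt.1 hge⟩
    obtain ⟨w, ⟨hw0, hwy⟩, hwb⟩ := this
    have h1 := h.f_ph w
    rw [hwb, hfb] at h1
    have h2 : f w = 0 := by
      have := hf w hw0
      have := hf (f w) this
      linarith
    rw [ph_def, h2] at hwb
    linarith
  have hcomp : IsCompact (Icc x b ∩ f ⁻¹' Ici (f x)) :=
    isCompact_Icc.inter_right (isClosed_Ici.preimage h.cont)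
  obtain ⟨y, ⟨⟨hxy, hyb⟩, hfy⟩, hmax⟩ :=
    hcomp.exists_isGreatest ⟨x, ⟨le_rfl, hxb⟩, mem_preimage.2 (mem_Ici.2 le_rfl)⟩
  have hfy' : f x ≤ f y := hfy
  have hyb' : y < b := by
    refine lt_of_le_of_ne hyb fun he => ?_
    rw [he, hfb] at hfy'
    linarith
  have h1 := hstay y (by linarith) hyb'
  have h2 : y < ph f y := by rw [ph_def]; linarith
  have h3 : ph f y ≤ y := by
    refine hmax ⟨⟨by linarith, h1.le⟩, ?_⟩
    show f x ≤ f (ph f y)
    rw [h.f_ph]
    have := hf (f y) (hf y (by linarith))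
    linarith
  linarith

/-- If `f ≥ 0` on the half line then it vanishes there or is positive on the open half line. -/
theorem Sol.dich (h : Sol f) (hf : ∀ x, 0 ≤ x → 0 ≤ f x) :
    (∀ x, 0 ≤ x → f x = 0) ∨ (∀ x, 0 < x → 0 < f x) := by
  by_contra hcon
  push Not at hcon
  obtain ⟨⟨y, hy, hfy⟩, b, hb, hfb⟩ := hcon
  have hfb0 : f b = 0 := le_antisymm hfb (hf b hb.le)
  apply hfy
  have hfy' : 0 < f y := lt_of_le_of_ne (hf y hy) (Ne.symm hfy)
  have hby : b < y := by
    by_contra hle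
    exact hfy (h.zero_below hf b hb hfb0 y hy (not_lt.1 hle))
  refine h.lemW y fun ε hε => ?_
  set u := min (ε / 2) (min b (f y)) with hu
  have hu0 : 0 < u := lt_min (by positivity) (lt_min hb hfy')
  have hub : u ≤ b := le_trans (min_le_right _ _) (min_le_left _ _)
  have huy : u ≤ f y := le_trans (min_le_right _ _) (min_le_right _ _)
  have huε : u < ε := lt_of_le_of_lt (min_le_left _ _) (by linarith)
  obtain ⟨q, ⟨hq1, hq2⟩, hq⟩ : u ∈ f '' Icc b y :=
    intermediate_value_Icc hby.le h.cont.continuousOn ⟨by rw [hfb0]; exact hu0.le, huy⟩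
  exact ⟨u, q, hu0, huε, h.zero_below hf b hb hfb0 u hu0.le hub, hq, hq2⟩

section CaseA

variable (h : Sol f) (hf : ∀ x, 0 < x → 0 < f x)
include h hf

theorem Sol.A_surj : ∀ N : ℕ, ∀ z, 0 < z → ∃ w, 0 < w ∧ w ≤ z ∧ (ph f)^[N] w = z := by
  intro N
  induction N with
  | zero => intro z hz; exact ⟨z, hz, le_rfl, rfl⟩
  | succ N ih =>
    intro z hz
    have : z ∈ ph f '' Icc 0 z := by
      refine intermediate_value_Icc hz.le h.cph.continuousOn ⟨by rw [h.ph_zero]; exact hz.le, ?_⟩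
      rw [ph_def]; linarith [hf z hz]
    obtain ⟨w, ⟨hw0, hwz⟩, hw⟩ := this
    have hwpos : 0 < w := by
      rcases hw0.eq_or_lt with he | he
      · rw [← he, h.ph_zero] at hw; linarith
      · exact he
    obtain ⟨v, hv0, hvw, hv⟩ := ih w hwpos
    exact ⟨v, hv0, hvw.trans hwz, by rw [Function.iterate_succ_apply', hv, hw]⟩

theorem Sol.A_log (z : ℝ) (hz : 0 < z) : ph f z ^ 2 ≤ z * ph f (ph f z) := by
  refine lim_ineq z (ph f z) (ph f (ph f z)) fun N => ?_
  obtain ⟨w, hw0, -, hw⟩ := h.A_surj hf N z hz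
  have := arr (fun n k => (ph f)^[n] (f^[k] w)) N (fun n k _ => by
    simp only [Function.iterate_succ_apply']
    rw [ph_def, ← h.comm_iter n k, ← Function.iterate_succ_apply' f k, h.comm_iter n (k + 1),
      Function.iterate_succ_apply'])
    (fun k _ => (iter_pos f hf k w hw0).le)
  simp only [Function.iterate_succ_apply', Function.iterate_zero, id] at this
  rw [hw] at this
  exact this

theorem Sol.A_log' (z : ℝ) (hz : 0 < z) : f z ^ 2 ≤ z * f (f z) := by
  have h1 := h.A_log hf z hz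
  rw [ph_def (f := f) (ph f z), h.f_ph, ph_def] at h1
  nlinarith

theorem Sol.caseA_pos : ∃ a, 0 < a ∧ ∀ x, 0 ≤ x → f x = a * x := by
  have hsm : ∀ y, 0 < y → ∀ ε, 0 < ε → ∃ x, 0 < x ∧ x < ε ∧ ph f y / y ≤ ph f x / x := by
    refine descent (fun x => ph f x / x) ?_ ?_
    · exact h.cph.continuousOn.div continuousOn_id fun x hx => ne_of_gt hx
    · intro y hy
      obtain ⟨w, hw0, -, hw⟩ := h.A_surj hf 1 y hy
      rw [Function.iterate_one] at hw
      have hfw := hf w hw0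
      have hffw := hf (f w) hfw
      refine ⟨f w, hfw, by rw [← hw, ph_def]; linarith, ?_⟩
      have h1 := h.A_log' hf w hw0
      rw [div_le_div_iff₀ hy hfw]
      rw [ph_def (f := f) y, ph_def (f := f) (f w), ← hw, h.f_ph, ph_def]
      nlinarith
  have key := lemG (ph f) h.cph h.ph_zero (fun x hx => by rw [ph_def]; linarith [hf x hx])
    (h.A_log hf) hsm
  refine ⟨f 1, hf 1 one_pos, fun x hx => ?_⟩
  rcases hx.eq_or_lt with he | hx
  · rw [← he, h.zero]; ring
  · have h1 := key 1 one_pos x hx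
    have h2 := key x hx 1 one_pos
    have h3 : ph f x / x = ph f 1 / 1 := le_antisymm h2 h1
    rw [div_one, div_eq_iff hx.ne'] at h3
    simp only [ph_def] at h3
    linarith

end CaseA

theorem Sol.caseA (h : Sol f) (hf : ∀ x, 0 ≤ x → 0 ≤ f x) :
    ∃ a, 0 ≤ a ∧ ∀ x, 0 ≤ x → f x = a * x := by
  rcases h.dich hf with h0 | h1
  · exact ⟨0, le_rfl, fun x hx => by rw [h0 x hx, zero_mul]⟩
  · obtain ⟨a, ha, h2⟩ := h.caseA_pos h1
    exact ⟨a, ha.le, h2⟩

/-- If `f = a x` on the right half line, `a ≥ 0`, then `f ≤ 0` on the left half line. -/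
theorem Sol.left_nonpos (h : Sol f) (a : ℝ) (ha : 0 ≤ a) (hf : ∀ x, 0 ≤ x → f x = a * x) :
    ∀ x, x ≤ 0 → f x ≤ 0 := by
  intro x hx
  by_contra hpos
  push Not at hpos
  have hcomp : IsCompact (Icc x 0 ∩ f ⁻¹' Ici (f x)) :=
    isCompact_Icc.inter_right (isClosed_Ici.preimage h.cont)
  obtain ⟨y, ⟨⟨hxy, hy0⟩, hfy⟩, hmax⟩ :=
    hcomp.exists_isGreatest ⟨x, ⟨le_rfl, hx⟩, mem_preimage.2 (mem_Ici.2 le_rfl)⟩
  have hfy' : f x ≤ f y := hfy
  have hfy0 : 0 < f y := by linarith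
  have h1 : f (ph f y) = (1 + a) * f y := by
    rw [h.f_ph, hf (f y) hfy0.le]; ring
  by_cases hp : 0 ≤ ph f y
  · rw [hf _ hp, ph_def] at h1
    have : a * y ≤ 0 := mul_nonpos_of_nonneg_of_nonpos ha hy0
    nlinarith
  · have h2 : ph f y ≤ y := by
      refine hmax ⟨⟨?_, (not_le.1 hp).le⟩, ?_⟩
      · rw [ph_def]; linarith
      · show f x ≤ f (ph f y)
        rw [h1]; nlinarith
    rw [ph_def] at h2
    linarith

/-- Case A: nonnegative on the right half line. -/
theorem Sol.caseA_full (h : Sol f) (hf : ∀ x, 0 ≤ x → 0 ≤ f x) :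
    ∃ a b, 0 ≤ a ∧ 0 ≤ b ∧ (∀ x, 0 ≤ x → f x = a * x) ∧ (∀ x, x ≤ 0 → f x = b * x) := by
  obtain ⟨a, ha, hfa⟩ := h.caseA hf
  have hl := h.left_nonpos a ha hfa
  obtain ⟨b, hb, hfb⟩ := h.mir.caseA (fun x hx => by
    have := hl (-x) (by linarith)
    show 0 ≤ - f (-x)
    linarith)
  refine ⟨a, b, ha, hb, hfa, fun x hx => ?_⟩
  have := hfb (-x) (by linarith)
  simp only [neg_neg] at this
  linarith

end Q177.Comp
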