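import Pool.Agent.Q177.CompC

/-!
# Continuous solutions of `f (x + f x) = f x + f (f x)`: the mixed case, signs
-/

set_option autoImplicit false

namespace Q177.Comp

open Set Filter Topology

theorem sign_const (g : ℝ → ℝ) (hg : Continuous g) (S : Set ℝ) (hS : S.OrdConnected)
    (h : ∀ x ∈ S, g x ≠ 0) : (∀ x ∈ S, 0 < g x) ∨ (∀ x ∈ S, g x < 0) := by
  by_contra hcon
  push Not at hcon
  obtain ⟨⟨x, hx, hgx⟩, y, hy, hgy⟩ := hcon
  have h0 : (0 : ℝ) ∈ uIcc (g x) (g y) := mem_uIcc_of_le hgx hgy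
  obtain ⟨w, hw, hw0⟩ := intermediate_value_uIcc hg.continuousOn h0
  exact h w (hS.uIcc_subset hx hy hw) hw0

theorem first_zero (g : ℝ → ℝ) (hg : Continuous g) (a b : ℝ) (hab : a < b) (ha : 0 < g a)
    (hb : g b ≤ 0) : ∃ z, a < z ∧ z ≤ b ∧ g z = 0 ∧ ∀ t, a ≤ t → t < z → 0 < g t := by
  have hcomp : IsCompact (Icc a b ∩ g ⁻¹' Iic 0) :=
    isCompact_Icc.inter_right (isClosed_Iic.preimage hg)
  obtain ⟨z, ⟨⟨haz, hzb⟩, hgz⟩, hmin⟩ :=
    hcomp.exists_isLeast ⟨b, ⟨hab.le, le_rfl⟩, mem_preimage.2 (mem_Iic.2 hb)⟩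
  have hgz' : g z ≤ 0 := hgz
  have hlt : ∀ t, a ≤ t → t < z → 0 < g t := by
    intro t hat htz
    by_contra hc
    have : z ≤ t := hmin ⟨⟨hat, by linarith⟩, mem_preimage.2 (mem_Iic.2 (not_lt.1 hc))⟩
    linarith
  have haz' : a < z := by
    rcases haz.eq_or_lt with he | he
    · rw [← he] at hgz'; linarith
    · exact he
  refine ⟨z, haz', hzb, ?_, hlt⟩
  obtain ⟨w, ⟨hw1, hw2⟩, hw0⟩ : (0 : ℝ) ∈ g '' Icc a z :=
    intermediate_value_Icc' haz'.le hg.continuousOn ⟨hgz', ha.le⟩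
  rcases hw2.eq_or_lt with he | he
  · rw [← he]; exact hw0
  · have := hlt w hw1 he
    linarith

/-- Mixed case. -/
structure Mixed (f : ℝ → ℝ) : Prop where
  sol : Sol f
  pos : ∃ p, 0 < p ∧ f p < 0
  neg : ∃ q, q < 0 ∧ 0 < f q

variable {f : ℝ → ℝ}

theorem Mixed.mir (h : Mixed f) : Mixed fun x => - f (-x) where
  sol := h.sol.mir
  pos := by
    obtain ⟨q, hq, hfq⟩ := h.neg
    exact ⟨-q, by linarith, by simpa using hfq⟩
  neg := by
    obtain ⟨p, hp, hfp⟩ := h.pos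
    exact ⟨-p, by linarith, by simpa using hfp⟩

/-- Zeros do not accumulate at `0` from the right. -/
theorem Mixed.lemZ (h : Mixed f) : ∃ d, 0 < d ∧ ∀ x, 0 < x → x < d → f x ≠ 0 := by
  by_contra hcon
  push Not at hcon
  obtain ⟨p, hp, hfp⟩ := h.pos
  obtain ⟨q, hq, hfq⟩ := h.neg
  have : f p = 0 := by
    refine h.sol.lemW p fun ε hε => ?_
    obtain ⟨u, hu0, hu, hfu⟩ := hcon (min ε (f q)) (lt_min hε hfq)
    obtain ⟨w, ⟨hw1, hw2⟩, hw⟩ : u ∈ f '' Icc q 0 :=
      intermediate_value_Icc' hq.le h.sol.cont.continuousOn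
        ⟨by rw [h.sol.zero]; exact hu0.le, (lt_of_lt_of_le hu (min_le_right _ _)).le⟩
    exact ⟨u, w, hu0, lt_of_lt_of_le hu (min_le_left _ _), hfu, hw, by linarith⟩
  linarith

section L1

variable (h : Sol f) (z : ℝ) (hz : 0 < z) (hfz : f z = 0) (hpos : ∀ x, 0 < x → x < z → 0 < f x)
include h hpos

theorem Sol.L1a (t : ℝ) (ht0 : 0 < t) (htz : t < z) (ε : ℝ) (hε : 0 < ε) :
    ∃ τ, 0 < τ ∧ τ < ε ∧ τ ≤ t ∧ ∀ a, f (a + τ) = f τ → f (a + t) = f t := by
  by_contra hcon
  push Not at hcon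
  set B : Set ℝ := {τ | 0 < τ ∧ τ ≤ t ∧ ∀ a, f (a + τ) = f τ → f (a + t) = f t} with hB
  have hBε : ∀ τ ∈ B, ε ≤ τ := by
    intro τ hτ
    by_contra hlt
    obtain ⟨a, ha1, ha2⟩ := hcon τ hτ.1 (not_le.1 hlt) hτ.2.1
    exact ha2 (hτ.2.2 a ha1)
  have htB : t ∈ B := ⟨ht0, le_rfl, fun a ha => ha⟩
  have hεt := hBε t htB
  obtain ⟨m, hm, hmin⟩ := isCompact_Icc.exists_isMinOn (nonempty_Icc.2 hεt)
    h.cont.continuousOn
  have hμ : 0 < f m := hpos m (lt_of_lt_of_le hε hm.1) (lt_of_le_of_lt hm.2 htz)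
  obtain ⟨τ, hτB, hτ⟩ := exists_lt_of_csInf_lt ⟨t, htB⟩
    (show sInf B < sInf B + f m by linarith)
  have hτ0 := hτB.1
  obtain ⟨w, ⟨hw0, hwτ⟩, hw⟩ : τ ∈ ph f '' Icc 0 τ := by
    refine intermediate_value_Icc hτ0.le h.cph.continuousOn
      ⟨by rw [h.ph_zero]; exact hτ0.le, ?_⟩
    rw [ph_def]
    linarith [hpos τ hτ0 (lt_of_le_of_lt hτB.2.1 htz)]
  have hw0' : 0 < w := by
    rcases hw0.eq_or_lt with he | he
    · rw [← he, h.ph_zero] at hw; linarith
    · exact he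
  have hwB : w ∈ B := by
    refine ⟨hw0', hwτ.trans hτB.2.1, fun a ha => hτB.2.2 a ?_⟩
    have h1 := h.eq (a + w)
    rw [ha] at h1
    rw [← hw, ph_def, ← add_assoc, h1, h.eq]
  have h1 : sInf B ≤ w := csInf_le ⟨0, fun τ hτ => hτ.1.le⟩ hwB
  have h2 : f m ≤ f w := hmin ⟨hBε w hwB, hwB.2.1⟩
  rw [ph_def] at hw
  linarith

theorem Sol.L1b (c : ℝ) (hc0 : f c = 0) (hc : ∀ η, 0 < η → ∃ c1, c - η < c1 ∧ c1 < c ∧ 0 < f c1)
    (t : ℝ) (ht0 : 0 < t) (htz : t < z) : f (c + t) = f t := by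
  have hcl : IsClosed {a : ℝ | f (a + t) = f t} :=
    isClosed_eq (h.cont.comp (continuous_id.add continuous_const)) continuous_const
  have hmem : c ∈ closure {a : ℝ | f (a + t) = f t} := by
    rw [Metric.mem_closure_iff]
    intro η hη
    obtain ⟨c1, hc1, hc1c, hfc1⟩ := hc (η / 2) (by positivity)
    -- small τ
    have hev : ∀ᶠ x in 𝓝 (0 : ℝ), f x < f c1 := by
      have := h.cont.tendsto 0
      rw [h.zero] at this
      exact this.eventually (gt_mem_nhds hfc1)
    obtain ⟨δ, hδ, hball⟩ := Metric.eventually_nhds_iff.1 hev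
    obtain ⟨τ, hτ0, hτ, hτt, hτB⟩ := h.L1a z hpos t ht0 htz (min δ (η / 2))
      (lt_min hδ (by positivity))
    have h1 : f τ < f c1 := hball (by
      rw [Real.dist_eq, sub_zero, abs_of_pos hτ0]; exact lt_of_lt_of_le hτ (min_le_left _ _))
    have h2 : 0 < f τ := hpos τ hτ0 (lt_of_le_of_lt hτt htz)
    obtain ⟨x, ⟨hx1, hx2⟩, hx⟩ : f τ ∈ f '' Icc c1 c :=
      intermediate_value_Icc' hc1c.le h.cont.continuousOn ⟨by rw [hc0]; exact h2.le, h1.le⟩
    refine ⟨x - τ, hτB (x - τ) (by rw [sub_add_cancel, hx]), ?_⟩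
    have h3 := lt_of_lt_of_le hτ (min_le_right _ _)
    rw [Real.dist_eq, abs_lt]
    constructor <;> linarith
  exact hcl.closure_subset hmem

include hz hfz in
theorem Sol.L1c (n : ℕ) : ∀ t, 0 ≤ t → t ≤ z → f (n * z + t) = f t := by
  induction n with
  | zero => intro t _ _; simp
  | succ n ih =>
    set c := ((n + 1 : ℕ) : ℝ) * z with hc
    have hc' : c = n * z + z := by rw [hc]; push_cast; ring
    have hc0 : f c = 0 := by rw [hc', ih z hz.le le_rfl, hfz]
    have hcl : ∀ η, 0 < η → ∃ c1, c - η < c1 ∧ c1 < c ∧ 0 < f c1 := by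
      intro η hη
      have hs0 : 0 < min (η / 2) (z / 2) := lt_min (by positivity) (by positivity)
      have hs1 := min_le_left (η / 2) (z / 2)
      have hs2 := min_le_right (η / 2) (z / 2)
      refine ⟨c - min (η / 2) (z / 2), by linarith, by linarith, ?_⟩
      have : c - min (η / 2) (z / 2) = n * z + (z - min (η / 2) (z / 2)) := by rw [hc']; ring
      rw [this, ih _ (by linarith) (by linarith)]
      exact hpos _ (by linarith) (by linarith)
    have hopen := h.L1b z hpos c hc0 hcl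
    intro t ht0 htz
    have heq : EqOn (fun t => f (c + t)) f (closure (Ioo 0 z)) := by
      refine EqOn.closure (fun t ht => hopen t ht.1 ht.2)
        (h.cont.comp (continuous_const.add continuous_id)) h.cont
    rw [closure_Ioo hz.ne] at heq
    exact heq ⟨ht0, htz⟩

end L1

/-- `f` is not positive near `0+` in the mixed case. -/
theorem Mixed.L1 (h : Mixed f) (d : ℝ) (hd : 0 < d) (hpos : ∀ x, 0 < x → x < d → 0 < f x) :
    False := by
  obtain ⟨p, hp, hfp⟩ := h.pos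
  have hdp : d ≤ p := by
    by_contra hlt
    have := hpos p hp (not_le.1 hlt)
    linarith
  obtain ⟨z, hz1, hz2, hfz, hz⟩ := first_zero f h.sol.cont (d / 2) p (by linarith)
    (hpos (d / 2) (by positivity) (by linarith)) hfp.le
  have hz0 : 0 < z := by linarith
  have hposz : ∀ x, 0 < x → x < z → 0 < f x := by
    intro x hx hxz
    by_cases hxd : x < d
    · exact hpos x hx hxd
    · exact hz x (by linarith) hxz
  set n := ⌊p / z⌋₊ with hn
  have h1 : (n : ℝ) ≤ p / z := Nat.floor_le (by positivity)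
  have h2 : p / z < n + 1 := Nat.lt_floor_add_one _
  rw [le_div_iff₀ hz0] at h1
  rw [div_lt_iff₀ hz0] at h2
  have h3 := h.sol.L1c z hz0 hfz hposz n (p - n * z) (by linarith) (by nlinarith)
  have h4 : (n : ℝ) * z + (p - n * z) = p := by ring
  rw [h4] at h3
  have h5 : 0 ≤ f (p - n * z) := by
    rcases (show (0 : ℝ) ≤ p - n * z by linarith).eq_or_lt with he | he
    · rw [← he, h.sol.zero]
    · exact (hposz _ he (by nlinarith)).le
  linarith

theorem Mixed.neg_near (h : Mixed f) : ∃ d, 0 < d ∧ ∀ x, 0 < x → x < d → f x < 0 := by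
  obtain ⟨d, hd, hne⟩ := h.lemZ
  rcases sign_const f h.sol.cont (Ioo 0 d) ordConnected_Ioo (fun x hx => hne x hx.1 hx.2) with
    h1 | h1
  · exact (h.L1 d hd fun x h0 hxd => h1 x ⟨h0, hxd⟩).elim
  · exact ⟨d, hd, fun x h0 hxd => h1 x ⟨h0, hxd⟩⟩

theorem Mixed.near (h : Mixed f) :
    ∃ d, 0 < d ∧ (∀ x, 0 < x → x < d → f x < 0) ∧ (∀ x, x < 0 → -d < x → 0 < f x) := by
  obtain ⟨d1, hd1, h1⟩ := h.neg_near
  obtain ⟨d2, hd2, h2⟩ := h.mir.neg_near
  refine ⟨min d1 d2, lt_min hd1 hd2, fun x h0 hx => h1 x h0 (lt_of_lt_of_le hx (min_le_left _ _)),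
    fun x hx hxd => ?_⟩
  have := h2 (-x) (by linarith) (by have := min_le_right d1 d2; linarith)
  simp only [neg_neg] at this
  linarith

/-- `f < 0` on the right half line. -/
theorem Mixed.L3 (h : Mixed f) : ∀ x, 0 < x → f x < 0 := by
  obtain ⟨d, hd, hn, hp⟩ := h.near
  by_contra hcon
  push Not at hcon
  obtain ⟨y, hy, hfy⟩ := hcon
  have hdy : d ≤ y := by
    by_contra hlt
    have := hn y hy (not_le.1 hlt)
    linarith
  obtain ⟨b, hb1, -, hfb, hb⟩ := first_zero (fun x => - f x) h.sol.cont.neg (d / 2) y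
    (by linarith) (by simpa using hn (d / 2) (by positivity) (by linarith)) (by simpa using hfy)
  have hfb : f b = 0 := by simpa using hfb
  have hb0 : 0 < b := by linarith
  have hneg : ∀ x, 0 < x → x < b → f x < 0 := by
    intro x hx hxb
    by_cases hxd : x < d
    · exact hn x hx hxd
    · simpa using hb x (by linarith) hxb
  set m := b / 2 with hm
  have hm0 : 0 < m := by positivity
  have hfm : f m < 0 := hneg m hm0 (by linarith)
  -- find twins near `b`
  have htwin : ∀ x, 0 < x → f x < 0 → f m < f x → ∃ x', m < x' ∧ x' < b ∧ f x' = f x := by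
    intro x _ hfx hmx
    obtain ⟨x', ⟨h1, h2⟩, h3⟩ : f x ∈ f '' Icc m b :=
      intermediate_value_Icc (by linarith) h.sol.cont.continuousOn
        ⟨hmx.le, by rw [hfb]; exact hfx.le⟩
    refine ⟨x', ?_, ?_, h3⟩
    · rcases h1.eq_or_lt with he | he
      · rw [← he] at h3; linarith
      · exact he
    · rcases h2.eq_or_lt with he | he
      · rw [he, hfb] at h3; linarith
      · exact he
  -- smallness of values near 0
  have hsm : ∃ δ, 0 < δ ∧ δ ≤ b ∧ δ ≤ m ∧ ∀ x, 0 < x → x < δ →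
      f m < f x ∧ -m < f x ∧ -d < ph f x := by
    have ht := h.sol.cont.tendsto 0
    rw [h.sol.zero] at ht
    have htp := h.sol.cph.tendsto 0
    rw [h.sol.ph_zero] at htp
    have hev := (ht.eventually (lt_mem_nhds hfm)).and
      ((ht.eventually (lt_mem_nhds (show -m < 0 by linarith))).and
      (htp.eventually (lt_mem_nhds (show -d < 0 by linarith))))
    obtain ⟨δ, hδ, hball⟩ := Metric.eventually_nhds_iff.1 hev
    refine ⟨min δ (min b m), lt_min hδ (lt_min hb0 hm0),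
      (min_le_right _ _).trans (min_le_left _ _), (min_le_right _ _).trans (min_le_right _ _),
      fun x hx0 hx => ?_⟩
    exact hball (by
      rw [Real.dist_eq, sub_zero, abs_of_pos hx0]; exact lt_of_lt_of_le hx (min_le_left _ _))
  obtain ⟨δ, hδ, hδb, hδm, hsmall⟩ := hsm
  by_cases hcase : ∃ x, 0 < x ∧ x < δ ∧ ph f x ≤ 0
  · obtain ⟨x, hx0, hxδ, hphx⟩ := hcase
    obtain ⟨s1, s2, s3⟩ := hsmall x hx0 hxδ
    obtain ⟨x', hx1, hx2, hx3⟩ := htwin x hx0 (hneg x hx0 (by linarith)) s1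
    have h1 : f (ph f x') = f (ph f x) := by rw [h.sol.f_ph, h.sol.f_ph, hx3]
    have h2 : 0 ≤ f (ph f x) := by
      rcases hphx.eq_or_lt with he | he
      · rw [he, h.sol.zero]
      · exact (hp _ he s3).le
    have h3 : f (ph f x') < 0 := by
      refine hneg _ ?_ ?_ <;> rw [ph_def, hx3]
      · linarith
      · linarith [hneg x hx0 (by linarith)]
    linarith
  · push Not at hcase
    -- choose `t`
    have ht0 : 0 < δ / 2 := by positivity
    set t := δ / 2 with ht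
    obtain ⟨s1, s2, s3⟩ := hsmall t ht0 (by linarith)
    obtain ⟨x, hx1, hx2, hx3⟩ := htwin t ht0 (hneg t ht0 (by linarith)) s1
    have hcomp : IsCompact (Icc 0 t ∩ {τ | f (x - t + τ) = f τ}) :=
      isCompact_Icc.inter_right (isClosed_eq
        (h.sol.cont.comp (continuous_const.add continuous_id)) h.sol.cont)
    obtain ⟨τ, ⟨⟨hτ0, hτt⟩, hτ⟩, hmin⟩ :=
      hcomp.exists_isLeast ⟨t, ⟨ht0.le, le_rfl⟩, by
        show f (x - t + t) = f t
        rw [sub_add_cancel, hx3]⟩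
    have hτ' : f (x - t + τ) = f τ := hτ
    have hτz : τ = 0 := by
      by_contra hne
      have hτpos : 0 < τ := lt_of_le_of_ne hτ0 (Ne.symm hne)
      have hfτ : f τ < 0 := hneg τ hτpos (by linarith)
      have h1 : 0 < ph f τ := hcase τ hτpos (by linarith)
      have h2 : τ ≤ ph f τ := by
        refine hmin ⟨⟨h1.le, by rw [ph_def]; linarith⟩, ?_⟩
        show f (x - t + ph f τ) = f (ph f τ)
        have h3 := h.sol.eq (x - t + τ)
        rw [hτ'] at h3
        rw [ph_def, ← add_assoc, h3, h.sol.eq]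
      rw [ph_def] at h2
      linarith
    rw [hτz, add_zero, h.sol.zero] at hτ'
    have := hneg (x - t) (by linarith) (by linarith)
    linarith

theorem Mixed.L3' (h : Mixed f) : ∀ x, x < 0 → 0 < f x := by
  intro x hx
  have := h.mir.L3 (-x) (by linarith)
  simp only [neg_neg] at this
  linarith

end Q177.Comp
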