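import Pool.Agent.Q177.CompD

/-!
# Continuous solutions of `f (x + f x) = f x + f (f x)`: the mixed case, linearity
-/

set_option autoImplicit false

namespace Q177.Comp

open Set Filter Topology

variable {f : ℝ → ℝ}

theorem Mixed.zero_iff (h : Mixed f) (x : ℝ) (hx : f x = 0) : x = 0 := by
  rcases lt_trichotomy x 0 with h1 | h1 | h1
  · have := h.L3' x h1; linarith
  · exact h1
  · have := h.L3 x h1; linarith

theorem Mixed.N_sym (h : Mixed f) (x : ℝ) (hx : ph f x = 0) : ph f (-x) = 0 ∧ f (-x) = x := by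
  have h1 : f x = -x := by rw [ph_def] at hx; linarith
  have h2 := h.sol.comm x
  rw [hx, h.sol.zero, h1] at h2
  refine ⟨h2.symm, ?_⟩
  rw [ph_def] at h2; linarith

theorem Mixed.N_back (h : Mixed f) (x : ℝ) (hx : ph f (f x) = 0) : ph f x = 0 := by
  rw [← h.sol.comm] at hx
  exact h.zero_iff _ hx

theorem Mixed.N_FF (h : Mixed f) (x : ℝ) (hx : ph f x = 0) : f (f x) = x := by
  have h1 : f x = -x := by rw [ph_def] at hx; linarith
  rw [h1]; exact (h.N_sym x hx).2

theorem Sol.FF (h : Sol f) (x : ℝ) : f (f x) = x + (f (ph f x) - ph f x) := by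
  rw [h.f_ph, ph_def]; ring

theorem twins_pos (g : ℝ → ℝ) (hg : Continuous g) (a c b : ℝ) (hac : a < c) (hcb : c < b)
    (ha : g a = 0) (hb : g b = 0) (hc : 0 < g c) :
    ∃ t1 t2, a < t1 ∧ t1 < t2 ∧ t2 < b ∧ g t1 = g t2 := by
  obtain ⟨t1, ⟨h1, h2⟩, h3⟩ : g c / 2 ∈ g '' Icc a c :=
    intermediate_value_Icc hac.le hg.continuousOn ⟨by rw [ha]; positivity, by linarith⟩
  obtain ⟨t2, ⟨k1, k2⟩, k3⟩ : g c / 2 ∈ g '' Icc c b :=
    intermediate_value_Icc' hcb.le hg.continuousOn ⟨by rw [hb]; positivity, by linarith⟩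
  refine ⟨t1, t2, ?_, ?_, ?_, by rw [h3, k3]⟩
  · rcases h1.eq_or_lt with he | he
    · rw [← he, ha] at h3; linarith
    · exact he
  · rcases k1.eq_or_lt with he | he
    · rw [← he] at k3; linarith
    · linarith
  · rcases k2.eq_or_lt with he | he
    · rw [he, hb] at k3; linarith
    · exact he

theorem twins (g : ℝ → ℝ) (hg : Continuous g) (a c b : ℝ) (hac : a < c) (hcb : c < b)
    (ha : g a = 0) (hb : g b = 0) (hc : g c ≠ 0) :
    ∃ t1 t2, a < t1 ∧ t1 < t2 ∧ t2 < b ∧ g t1 = g t2 := by
  rcases lt_or_gt_of_ne hc with h1 | h1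
  · obtain ⟨t1, t2, k1, k2, k3, k4⟩ := twins_pos (fun x => - g x) hg.neg a c b hac hcb
      (by simp [ha]) (by simp [hb]) (by simpa using h1)
    exact ⟨t1, t2, k1, k2, k3, by simpa using k4⟩
  · exact twins_pos g hg a c b hac hcb ha hb h1

/-- No bounded gap of the zero set of `ph f`. -/
theorem Mixed.no_gap (h : Mixed f) (a b : ℝ) (hab : a < b) (ha : ph f a = 0)
    (hb : ph f b = 0) (hne : ∀ x ∈ Ioo a b, ph f x ≠ 0) : False := by
  have hc := h.sol.cont
  have hFc : Continuous fun x => f (f x) := hc.comp hc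
  have hFa := h.N_FF a ha
  have hFb := h.N_FF b hb
  have hback : ∀ x, ph f (f (f x)) = 0 → ph f x = 0 := fun x hx => h.N_back x (h.N_back _ hx)
  have hmaps : ∀ t, a ≤ t → t ≤ b → a ≤ f (f t) ∧ f (f t) ≤ b := by
    intro t hat htb
    constructor
    · by_contra hlt
      push Not at hlt
      obtain ⟨t', ⟨h1, h2⟩, h3⟩ : a ∈ (fun x => f (f x)) '' Icc t b :=
        intermediate_value_Icc htb hFc.continuousOn ⟨hlt.le, by show a ≤ f (f b); rw [hFb]; exact hab.le⟩
      simp only at h3
      have h4 : ph f t' = 0 := hback t' (by rw [h3]; exact ha)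
      have h5 : t' ≠ b := by rintro rfl; rw [hFb] at h3; linarith
      have h6 : t' ≠ a := by
        intro he
        have : t = a := by linarith
        rw [this, hFa] at hlt
        exact lt_irrefl _ hlt
      exact hne t' ⟨lt_of_le_of_ne (hat.trans h1) (Ne.symm h6), lt_of_le_of_ne h2 h5⟩ h4
    · by_contra hlt
      push Not at hlt
      obtain ⟨t', ⟨h1, h2⟩, h3⟩ : b ∈ (fun x => f (f x)) '' Icc a t :=
        intermediate_value_Icc hat hFc.continuousOn ⟨by show f (f a) ≤ b; rw [hFa]; exact hab.le, hlt.le⟩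
      simp only at h3
      have h4 : ph f t' = 0 := hback t' (by rw [h3]; exact hb)
      have h5 : t' ≠ a := by rintro rfl; rw [hFa] at h3; linarith
      have h6 : t' ≠ b := by
        intro he
        have : t = b := by linarith
        rw [this, hFb] at hlt
        exact lt_irrefl _ hlt
      exact hne t' ⟨lt_of_le_of_ne h1 (Ne.symm h5), lt_of_le_of_ne (h2.trans htb) h6⟩ h4
  have hmid : (a + b) / 2 ∈ Ioo a b := ⟨by linarith, by linarith⟩
  obtain ⟨t1, t2, k1, k2, k3, k4⟩ := twins (ph f) h.sol.cph a ((a + b) / 2) b hmid.1 hmid.2 ha hb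
    (hne _ hmid)
  set δ := t2 - t1 with hδ
  have hδ0 : 0 < δ := by linarith
  set K : Set ℝ := Icc a (b - δ) ∩ {t | ph f t = ph f (t + δ)} with hK
  have hKc : IsCompact K := isCompact_Icc.inter_right (isClosed_eq h.sol.cph
    (h.sol.cph.comp (continuous_id.add continuous_const)))
  have hKn : K.Nonempty := ⟨t1, ⟨by linarith, by linarith⟩, by
    show ph f t1 = ph f (t1 + δ)
    rw [k4]; congr 1; rw [hδ]; ring⟩
  have hinv : ∀ t ∈ K, f (f t) ∈ K := by
    rintro t ⟨⟨h1, h2⟩, h3⟩
    have h3' : ph f t = ph f (t + δ) := h3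
    have e1 := h.sol.FF t
    have e2 := h.sol.FF (t + δ)
    rw [← h3'] at e2
    have e3 : f (f (t + δ)) = f (f t) + δ := by rw [e1, e2]; ring
    have m1 := hmaps t h1 (by linarith)
    have m2 := hmaps (t + δ) (by linarith) (by linarith)
    refine ⟨⟨m1.1, by rw [e3] at m2; linarith [m2.2]⟩, ?_⟩
    show ph f (f (f t)) = ph f (f (f t) + δ)
    rw [← e3, ← h.sol.comm, ← h.sol.comm, ← h.sol.comm, ← h.sol.comm, h3']
  have hend : ph f a ≠ ph f (a + δ) := by
    rw [ha]
    exact (hne (a + δ) ⟨by linarith, by linarith⟩).symm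
  rcases sign_const (ph f) h.sol.cph (Ioo a b) ordConnected_Ioo hne with hs | hs
  · obtain ⟨t, ht, hmin⟩ := hKc.exists_isLeast hKn
    have h1 : t ≤ f (f t) := hmin (hinv t ht)
    rw [h.sol.FF t] at h1
    have hta : t ≠ a := by
      rintro rfl
      exact hend ht.2
    have h2 : 0 < ph f t := hs t ⟨lt_of_le_of_ne ht.1.1 (Ne.symm hta), by
      have := ht.1.2; linarith⟩
    have := h.L3 _ h2
    linarith
  · obtain ⟨t, ht, hmax⟩ := hKc.exists_isGreatest hKn
    have h1 : f (f t) ≤ t := hmax (hinv t ht)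
    rw [h.sol.FF t] at h1
    have hta : t ≠ a := by
      rintro rfl
      exact hend ht.2
    have h2 : ph f t < 0 := hs t ⟨lt_of_le_of_ne ht.1.1 (Ne.symm hta), by
      have := ht.1.2; linarith⟩
    have := h.L3' _ h2
    linarith

theorem last_zero (g : ℝ → ℝ) (hg : Continuous g) (a b : ℝ) (hab : a ≤ b) (ha : g a = 0) :
    ∃ z, a ≤ z ∧ z ≤ b ∧ g z = 0 ∧ ∀ t, z < t → t ≤ b → g t ≠ 0 := by
  have hcomp : IsCompact (Icc a b ∩ g ⁻¹' {0}) :=
    isCompact_Icc.inter_right (isClosed_singleton.preimage hg)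
  obtain ⟨z, ⟨⟨haz, hzb⟩, hgz⟩, hmax⟩ :=
    hcomp.exists_isGreatest ⟨a, ⟨le_rfl, hab⟩, ha⟩
  exact ⟨z, haz, hzb, hgz, fun t hzt htb h0 =>
    absurd (hmax ⟨⟨haz.trans hzt.le, htb⟩, h0⟩) (not_le.2 hzt)⟩

theorem next_zero (g : ℝ → ℝ) (hg : Continuous g) (a b : ℝ) (hab : a ≤ b) (hb : g b = 0) :
    ∃ z, a ≤ z ∧ z ≤ b ∧ g z = 0 ∧ ∀ t, a ≤ t → t < z → g t ≠ 0 := by
  have hcomp : IsCompact (Icc a b ∩ g ⁻¹' {0}) :=
    isCompact_Icc.inter_right (isClosed_singleton.preimage hg)
  obtain ⟨z, ⟨⟨haz, hzb⟩, hgz⟩, hmin⟩ :=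
    hcomp.exists_isLeast ⟨b, ⟨hab, le_rfl⟩, hb⟩
  exact ⟨z, haz, hzb, hgz, fun t hat htz h0 =>
    absurd (hmin ⟨⟨hat, htz.le.trans hzb⟩, h0⟩) (not_le.2 htz)⟩

/-- The zero set of `ph f` is an interval. -/
theorem Mixed.N_conv (h : Mixed f) (n : ℝ) (hn : 0 < n) (hn0 : ph f n = 0) (x : ℝ) (hx0 : 0 ≤ x)
    (hxn : x ≤ n) : ph f x = 0 := by
  by_contra hne
  obtain ⟨a, ha1, ha2, ha3, ha4⟩ := last_zero (ph f) h.sol.cph 0 x hx0 h.sol.ph_zero
  obtain ⟨b, hb1, hb2, hb3, hb4⟩ := next_zero (ph f) h.sol.cph x n hxn hn0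
  have hax : a < x := lt_of_le_of_ne ha2 (by rintro rfl; exact hne ha3)
  have hxb : x < b := lt_of_le_of_ne hb1 (by rintro rfl; exact hne hb3)
  refine h.no_gap a b (by linarith) ha3 hb3 fun t ht => ?_
  rcases le_total t x with h1 | h1
  · exact ha4 t ht.1 h1
  · exact hb4 t h1 ht.2

/-- If `ph f` has a zero off the origin, then `f = -x`. -/
theorem Mixed.N_all (h : Mixed f) (n : ℝ) (hn : 0 < n) (hn0 : ph f n = 0) (y : ℝ) :
    ph f y = 0 := by
  by_contra hy
  have hB : ph f |y| ≠ 0 := by
    rcases abs_cases y with ⟨h1, -⟩ | ⟨h1, -⟩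
    · rwa [h1]
    · rw [h1]
      intro h2
      have := (h.N_sym _ h2).1
      rw [neg_neg] at this
      exact hy this
  set B := |y| with hBdef
  have hnB : n < B := by
    by_contra hle
    exact hB (h.N_conv n hn hn0 B (abs_nonneg y) (not_lt.1 hle))
  obtain ⟨α, hα1, hα2, hα3, hα4⟩ := last_zero (ph f) h.sol.cph n B hnB.le hn0
  have hα0 : 0 < α := by linarith
  have hαB : α < B := lt_of_le_of_ne hα2 (by rintro rfl; exact hB hα3)
  have hin : ∀ s, |s| ≤ α → ph f s = 0 := by
    intro s hs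
    rcases abs_cases s with ⟨h1, h2⟩ | ⟨h1, h2⟩
    · exact h.N_conv α hα0 hα3 s h2 (by linarith)
    · have := (h.N_sym _ (h.N_conv α hα0 hα3 (-s) (by linarith) (by linarith))).1
      rwa [neg_neg] at this
  have hout : ∀ x, α < x → ph f x ≠ 0 := by
    intro x hx h0
    rcases le_or_gt x B with h1 | h1
    · exact hα4 x hx h1 h0
    · exact hB (h.N_conv x (by linarith) h0 B (abs_nonneg y) h1.le)
  have hout' : ∀ x, x < -α → ph f x ≠ 0 := fun x hx h0 =>
    hout (-x) (by linarith) (h.N_sym x h0).1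
  have hfs : ∀ s, |s| ≤ α → f s = -s := by
    intro s hs
    have := hin s hs
    rw [ph_def] at this; linarith
  rcases sign_const (ph f) h.sol.cph (Ioi α) ordConnected_Ioi (fun x hx => hout x hx) with hs | hs
  · -- positive beyond `α`
    have hBpos : 0 < ph f B := hs B hαB
    set s := min (ph f B) α with hsdef
    have hs0 : 0 < s := lt_min hBpos hα0
    have hsα : s ≤ α := min_le_right _ _
    obtain ⟨x, ⟨hx1, hx2⟩, hx3⟩ : s ∈ ph f '' Icc α B :=
      intermediate_value_Icc hαB.le h.sol.cph.continuousOn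
        ⟨by rw [hα3]; exact hs0.le, min_le_left _ _⟩
    have hsabs : |s| ≤ α := by rw [abs_of_pos hs0]; exact hsα
    have hstep : ∀ k : ℕ, ph f (x - 2 * k * s) = s := by
      intro k
      induction k with
      | zero => simpa using hx3
      | succ k ih =>
        have e1 := h.sol.FF (x - 2 * k * s)
        rw [ih, hfs s hsabs] at e1
        have e2 : x - 2 * ((k + 1 : ℕ) : ℝ) * s = f (f (x - 2 * k * s)) := by
          rw [e1]; push_cast; ring
        rw [e2, ← h.sol.comm, ← h.sol.comm, ih]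
        exact h.N_FF s (hin s hsabs)
    set k := ⌊(x + α) / (2 * s)⌋₊ with hk
    have h1 : (k : ℝ) ≤ (x + α) / (2 * s) := Nat.floor_le (div_nonneg (by linarith) (by linarith))
    have h2 : (x + α) / (2 * s) < k + 1 := Nat.lt_floor_add_one _
    rw [le_div_iff₀ (by linarith)] at h1
    rw [div_lt_iff₀ (by linarith)] at h2
    have h3 := hin (x - 2 * k * s) (by
      rw [abs_le]
      constructor <;> nlinarith)
    rw [hstep k] at h3
    linarith
  · -- negative beyond `α`
    have hBneg : ph f B < 0 := hs B hαB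
    set s := max (ph f B) (-α) with hsdef
    have hs0 : s < 0 := max_lt hBneg (by linarith)
    have hsα : -α ≤ s := le_max_right _ _
    obtain ⟨x, ⟨hx1, hx2⟩, hx3⟩ : s ∈ ph f '' Icc α B :=
      intermediate_value_Icc' hαB.le h.sol.cph.continuousOn
        ⟨le_max_left _ _, by rw [hα3]; exact hs0.le⟩
    have hxα : α < x := by
      rcases hx1.eq_or_lt with he | he
      · rw [← he, hα3] at hx3; linarith
      · exact he
    have hsabs : |s| ≤ α := by rw [abs_of_neg hs0]; linarith
    -- sign on the left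
    have hleft : ∀ v, v < -α → 0 < ph f v := by
      rcases sign_const (ph f) h.sol.cph (Iio (-α)) ordConnected_Iio
        (fun x hx => hout' x hx) with h1 | h1
      · exact fun v hv => h1 v hv
      · exfalso
        have h2 := h.L3' _ (hs x hxα)
        rw [h.sol.comm] at h2
        have h3 : f x < -α := by
          have := hs x hxα
          rw [ph_def] at this; linarith
        have := h1 (f x) h3
        linarith
    have hsurj : ∀ x, α < x → ∃ y, α < y ∧ f (f y) = x := by
      intro x hx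
      have hfα : f (-α) = α := by
        have := hfs (-α) (by rw [abs_neg, abs_of_pos hα0]); linarith
      have hfα' : f α = -α := hfs α (by rw [abs_of_pos hα0])
      obtain ⟨v, ⟨hv1, hv2⟩, hv3⟩ : x ∈ f '' Icc (-x) (-α) := by
        refine intermediate_value_Icc' (by linarith) h.sol.cont.continuousOn
          ⟨by rw [hfα]; exact hx.le, ?_⟩
        have := hleft (-x) (by linarith)
        rw [ph_def] at this; linarith
      have hv : v < -α := lt_of_le_of_ne hv2 (by rintro rfl; rw [hfα] at hv3; linarith)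
      obtain ⟨y, ⟨hy1, hy2⟩, hy3⟩ : v ∈ f '' Icc α (-v) := by
        refine intermediate_value_Icc' (by linarith) h.sol.cont.continuousOn
          ⟨?_, by rw [hfα']; exact hv2⟩
        have := hs (-v) (show α < -v by linarith)
        rw [ph_def] at this; linarith
      refine ⟨y, lt_of_le_of_ne hy1 (by rintro rfl; rw [hfα'] at hy3; linarith), ?_⟩
      rw [hy3, hv3]
    have hstep : ∀ k : ℕ, α < x + 2 * k * s ∧ ph f (x + 2 * k * s) = s := by
      intro k
      induction k with
      | zero => simpa using ⟨hxα, hx3⟩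
      | succ k ih =>
        obtain ⟨y, hy, hyx⟩ := hsurj _ ih.1
        have e1 : f (f (ph f y)) = s := by
          rw [h.sol.comm, h.sol.comm, hyx]; exact ih.2
        have e2 : ph f (ph f y) = 0 := by
          refine h.N_back _ (h.N_back _ ?_)
          rw [e1]; exact hin s hsabs
        have e3 : ph f y = s := by rw [← h.N_FF _ e2]; exact e1
        have e4 := h.sol.FF y
        rw [e3, hfs s hsabs, hyx] at e4
        have e5 : x + 2 * ((k + 1 : ℕ) : ℝ) * s = y := by push_cast; linarith
        rw [e5]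
        exact ⟨hy, e3⟩
    obtain ⟨k, hk⟩ := exists_nat_gt (x / (-(2 * s)))
    rw [div_lt_iff₀ (by linarith)] at hk
    have := (hstep k).1
    nlinarith

section PatC

variable (h : Mixed f) (hC : ∀ x, 0 < x → 0 < ph f x) (hC' : ∀ x, x < 0 → ph f x < 0)
include h hC hC'

theorem Mixed.C_abs (x : ℝ) : |x| = |ph f x| + |f x| := by
  rcases lt_trichotomy x 0 with h1 | h1 | h1
  · have h2 := hC' x h1
    have h3 := h.L3' x h1
    rw [abs_of_neg h1, abs_of_neg h2, abs_of_pos h3, ph_def]; ring
  · subst h1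
    rw [h.sol.ph_zero, h.sol.zero]; simp
  · have h2 := hC x h1
    have h3 := h.L3 x h1
    rw [abs_of_pos h1, abs_of_pos h2, abs_of_neg h3, ph_def]; ring

theorem Mixed.C_log (z : ℝ) : |ph f z| ^ 2 ≤ |ph f (ph f z)| * |z| := by
  refine lim_ineq _ _ _ fun N => ?_
  have := arr (fun n k => |(ph f)^[N + 2 - n - k] (f^[k] z)|) N (fun n k hnk => by
    obtain ⟨j, hj⟩ : ∃ j, N + 2 = j + (n + 1) + k := ⟨N + 2 - (n + 1) - k, by omega⟩
    have e1 : N + 2 - (n + 1) - k = j := by omega
    have e2 : N + 2 - n - k = j + 1 := by omega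
    have e3 : N + 2 - n - (k + 1) = j := by omega
    simp only [e1, e2, e3]
    rw [h.C_abs hC hC' ((ph f)^[j] (f^[k] z)), ← Function.iterate_succ_apply' (ph f)]
    congr 2
    rw [← h.sol.comm_iter j (k + 1), Function.iterate_succ_apply', h.sol.comm_iter j k])
    (fun k _ => abs_nonneg _)
  have e0 : N + 2 - (N + 2) - 0 = 0 := by omega
  have e1 : N + 2 - (N + 1) - 0 = 1 := by omega
  have e2 : N + 2 - N - 0 = 2 := by omega
  simp only [e0, e1, e2, Function.iterate_zero, id, Function.iterate_succ,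
    Function.comp_apply] at this
  exact this

theorem Mixed.C_log' (z : ℝ) : f z ^ 2 ≤ z * f (f z) := by
  have h1 := h.C_log hC hC' z
  have h2 : |ph f (ph f z)| * |z| = z * ph f (ph f z) := by
    rcases lt_trichotomy z 0 with h3 | h3 | h3
    · have h4 := hC' z h3
      rw [abs_of_neg h3, abs_of_neg (hC' _ h4)]; ring
    · subst h3; simp
    · have h4 := hC z h3
      rw [abs_of_pos h3, abs_of_pos (hC _ h4)]; ring
  rw [h2, sq_abs, ph_def (f := f) (ph f z), h.sol.f_ph, ph_def] at h1
  nlinarith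

theorem Mixed.patC : ∃ a, 0 < a ∧ ∀ x, 0 ≤ x → f x = -a * x := by
  have hsm : ∀ y, 0 < y → ∀ ε, 0 < ε → ∃ x, 0 < x ∧ x < ε ∧ ph f x / x ≤ ph f y / y := by
    intro y hy ε hε
    obtain ⟨x, h1, h2, h3⟩ := descent (fun x => -(ph f x / x)) (by
      exact (h.sol.cph.continuousOn.div continuousOn_id fun x hx => ne_of_gt hx).neg) (by
      intro x hx
      have b0 := h.L3 x hx
      have c0 := h.L3' _ b0
      have d0 := h.L3 _ c0
      have b1 := hC x hx
      have c1 := hC' _ b0
      rw [ph_def] at b1 c1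
      have l1 := h.C_log' hC hC' x
      have l2 := h.C_log' hC hC' (f x)
      refine ⟨f (f x), c0, by linarith, ?_⟩
      rw [neg_le_neg_iff, div_le_div_iff₀ c0 hx, ph_def, ph_def]
      set b := -(f x) with hb
      set c := f (f x) with hc
      set d := -(f c) with hd
      have hfx : f x = -b := by rw [hb]; ring
      have hfc : f c = -d := by rw [hd]; ring
      rw [hfx] at l1 l2 b0
      rw [hfc] at l2 d0
      rw [hfx, hfc]
      have hbc : 0 < b * c := mul_pos (by linarith) c0
      have key : (b * c) * (b * c) ≤ (b * c) * (x * d) := by nlinarith [mul_le_mul l1 l2 (sq_nonneg _) (by nlinarith)]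
      have := le_of_mul_le_mul_left key hbc
      nlinarith) y hy ε hε
    exact ⟨x, h1, h2, by linarith⟩
  have key := lemC (ph f) h.sol.cph h.sol.ph_zero hC
    (fun x hx => by rw [ph_def]; linarith [h.L3 x hx]) (fun x hx => by
      have h1 := h.C_log hC hC' x
      rw [abs_of_pos hx, abs_of_pos (hC _ (hC x hx)), sq_abs] at h1
      linarith) hsm
  refine ⟨-f 1, by linarith [h.L3 1 one_pos], fun x hx => ?_⟩
  rcases hx.eq_or_lt with he | hx
  · rw [← he, h.sol.zero]; ring
  · have h1 := key 1 one_pos x hx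
    have h2 := key x hx 1 one_pos
    have h3 : ph f x / x = ph f 1 / 1 := le_antisymm h2 h1
    rw [div_one, div_eq_iff hx.ne'] at h3
    simp only [ph_def] at h3
    linarith

end PatC

section PatE

variable (h : Mixed f) (hE : ∀ x, 0 < x → ph f x < 0) (hE' : ∀ x, x < 0 → 0 < ph f x)
include h hE hE'

theorem Mixed.E_abs (x : ℝ) : |f x| = |x| + |ph f x| := by
  rcases lt_trichotomy x 0 with h1 | h1 | h1
  · have h2 := hE' x h1
    have h3 := h.L3' x h1
    rw [abs_of_neg h1, abs_of_pos h2, abs_of_pos h3, ph_def]; ring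
  · subst h1
    rw [h.sol.ph_zero, h.sol.zero]; simp
  · have h2 := hE x h1
    have h3 := h.L3 x h1
    rw [abs_of_pos h1, abs_of_neg h2, abs_of_neg h3, ph_def]; ring

theorem Mixed.E_surj : Function.Surjective f := by
  intro z
  rcases lt_trichotomy z 0 with h1 | h1 | h1
  · obtain ⟨v, -, hv⟩ : z ∈ f '' Icc 0 (-z) := by
      refine intermediate_value_Icc' (by linarith) h.sol.cont.continuousOn
        ⟨?_, by rw [h.sol.zero]; exact h1.le⟩
      have := hE (-z) (by linarith)
      rw [ph_def] at this; linarith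
    exact ⟨v, hv⟩
  · exact ⟨0, by rw [h.sol.zero, h1]⟩
  · obtain ⟨v, -, hv⟩ : z ∈ f '' Icc (-z) 0 := by
      refine intermediate_value_Icc' (by linarith) h.sol.cont.continuousOn
        ⟨by rw [h.sol.zero]; exact h1.le, ?_⟩
      have := hE' (-z) (by linarith)
      rw [ph_def] at this; linarith
    exact ⟨v, hv⟩

theorem Mixed.E_log (z : ℝ) : |f z| ^ 2 ≤ |z| * |f (f z)| := by
  refine lim_ineq _ _ _ fun N => ?_
  obtain ⟨w, hw⟩ := (h.E_surj hE hE').iterate N z
  have := arr (fun n k => |f^[n] ((ph f)^[k] w)|) N (fun n k hnk => by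
    simp only [Function.iterate_succ_apply']
    rw [h.E_abs hE hE' (f^[n] ((ph f)^[k] w))]
    congr 2
    rw [← Function.iterate_succ_apply' (ph f), h.sol.comm_iter (k + 1) n,
      Function.iterate_succ_apply', h.sol.comm_iter k n])
    (fun k _ => abs_nonneg _)
  simp only [Function.iterate_succ_apply', Function.iterate_zero, id] at this
  rw [hw] at this
  exact this

theorem Mixed.E_log' (z : ℝ) : f z ^ 2 ≤ z * f (f z) := by
  have h1 := h.E_log hE hE' z
  have h2 : |z| * |f (f z)| = z * f (f z) := by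
    rcases lt_trichotomy z 0 with h3 | h3 | h3
    · rw [abs_of_neg h3, abs_of_neg (h.L3 _ (h.L3' z h3))]; ring
    · subst h3; simp
    · rw [abs_of_pos h3, abs_of_pos (h.L3' _ (h.L3 z h3))]
  rwa [h2, sq_abs] at h1

theorem Mixed.patE : ∃ a, 0 < a ∧ ∀ x, 0 ≤ x → f x = -a * x := by
  have hFc : Continuous fun x => f (f x) := h.sol.cont.comp h.sol.cont
  have hlog := h.E_log' hE hE'
  have hsm : ∀ y, 0 < y → ∀ ε, 0 < ε → ∃ x, 0 < x ∧ x < ε ∧ f (f y) / y ≤ f (f x) / x := by
    refine descent (fun x => f (f x) / x) ?_ ?_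
    · exact hFc.continuousOn.div continuousOn_id fun x hx => ne_of_gt hx
    · intro y hy
      obtain ⟨w, hw⟩ := h.E_surj hE hE' y
      have hw0 : w < 0 := by
        rcases lt_trichotomy w 0 with h1 | h1 | h1
        · exact h1
        · rw [h1, h.sol.zero] at hw; linarith
        · have := h.L3 w h1; linarith
      have p0 := hE' w hw0
      have l1 := hlog w
      have l2 := hlog y
      rw [hw] at l1
      have hy1 := h.L3 y hy
      have hy2 := h.L3' _ hy1
      have e1 : f (f (ph f w)) = f y + f (f y) := by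
        rw [h.sol.comm, hw, h.sol.f_ph]
      refine ⟨ph f w, p0, by rw [ph_def, hw]; linarith, ?_⟩
      show f (f y) / y ≤ f (f (ph f w)) / ph f w
      rw [div_le_div_iff₀ hy p0, e1, ph_def, hw]
      -- a = -w, b = y, c = - f y, d = f (f y)
      set a := -w with ha
      set c := -(f y) with hc
      set d := f (f y) with hd
      have hw' : w = -a := by rw [ha]; ring
      have hfy : f y = -c := by rw [hc]; ring
      rw [hw', hfy] at l1
      rw [hfy] at l2 hy1
      rw [hfy, hw']
      have ha0 : 0 < a := by linarith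
      have hc0 : 0 < c := by linarith
      have hbc : 0 < y * c := mul_pos hy hc0
      have key : (y * c) * (y * c) ≤ (y * c) * (a * d) := by
        nlinarith [mul_le_mul l1 l2 (sq_nonneg _) (by nlinarith)]
      have := le_of_mul_le_mul_left key hbc
      nlinarith
  have hexp : ∀ x, 0 < x → x < f (f x) := by
    intro x hx
    have h1 := hE x hx
    have h2 := hE' _ (h.L3 x hx)
    rw [ph_def] at h1 h2
    linarith
  have hlogF : ∀ x, 0 < x → f (f x) ^ 2 ≤ x * f (f (f (f x))) := by
    intro x hx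
    have l1 := hlog x
    have l2 := hlog (f x)
    have l3 := hlog (f (f x))
    have b0 := h.L3 x hx
    have c0 := h.L3' _ b0
    have d0 := h.L3 _ c0
    have e0 := h.L3' _ d0
    set b := f x
    set c := f b
    set d := f c
    set e := f d
    -- b² ≤ x c, c² ≤ b d, d² ≤ c e
    have k1 : (c ^ 2) ^ 2 ≤ (b * d) ^ 2 := pow_le_pow_left₀ (sq_nonneg _) l2 2
    have k2 : b ^ 2 * d ^ 2 ≤ (x * c) * (c * e) := mul_le_mul l1 l3 (sq_nonneg _) (by nlinarith)
    have k3 : c ^ 2 * c ^ 2 ≤ c ^ 2 * (x * e) := by nlinarith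
    exact le_of_mul_le_mul_left k3 (by positivity)
  have key := lemG (fun x => f (f x)) hFc (by simp [h.sol.zero]) hexp hlogF hsm
  set C := f (f 1) with hC
  have hC0 : 0 < C := h.L3' _ (h.L3 1 one_pos)
  have hlin : ∀ x, 0 < x → f (f x) = C * x := by
    intro x hx
    have h1 := key 1 one_pos x hx
    have h2 := key x hx 1 one_pos
    have h3 : f (f x) / x = f (f 1) / 1 := le_antisymm h2 h1
    rw [div_one, div_eq_iff hx.ne'] at h3
    exact h3
  have hsq : 0 < √C := Real.sqrt_pos.2 hC0
  have hss : √C * √C = C := Real.mul_self_sqrt hC0.le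
  have hup : ∀ x, 0 < x → - f x ≤ √C * x := by
    intro x hx
    have l1 := hlog x
    rw [hlin x hx] at l1
    refine le_trans (le_abs_self _) (abs_le_of_sq_le_sq ?_ (by positivity))
    nlinarith
  refine ⟨√C, hsq, fun x hx => ?_⟩
  rcases hx.eq_or_lt with he | hx
  · rw [← he, h.sol.zero]; ring
  · have u1 := hup x hx
    have l2 := hlog (f x)
    rw [hlin x hx] at l2
    have hCx : 0 < C * x := by positivity
    have u2 := hup (C * x) hCx
    have b0 := h.L3 x hx
    -- (C x)^2 ≤ f x * f (C x) ≤ (- f x) * √C * C * x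
    have k1 : (C * x) ^ 2 ≤ (- f x) * (√C * (C * x)) := by
      have : f x * f (C * x) = (- f x) * (- f (C * x)) := by ring
      rw [this] at l2
      refine l2.trans ?_
      gcongr
      linarith
    have k2 : (√C * (C * x)) * (√C * x) ≤ (√C * (C * x)) * (- f x) := by
      have : (√C * (C * x)) * (√C * x) = (C * x) ^ 2 := by
        calc (√C * (C * x)) * (√C * x) = (√C * √C) * (C * x * x) := by ring
          _ = (C * x) ^ 2 := by rw [hss]; ring
      rw [this]; linarith
    have k3 := le_of_mul_le_mul_left k2 (by positivity)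
    linarith

end PatE

/-- In the mixed case `f` is linear on the right half line. -/
theorem Mixed.right (h : Mixed f) : ∃ a, 0 < a ∧ ∀ x, 0 ≤ x → f x = -a * x := by
  by_cases hN : ∃ n, 0 < n ∧ ph f n = 0
  · obtain ⟨n, hn, hn0⟩ := hN
    refine ⟨1, one_pos, fun x _ => ?_⟩
    have := h.N_all n hn hn0 x
    rw [ph_def] at this
    linarith
  · push Not at hN
    have hN' : ∀ x, x < 0 → ph f x ≠ 0 := fun x hx h0 =>
      hN (-x) (by linarith) (h.N_sym x h0).1
    have hone := h.L3 1 one_pos
    rcases sign_const (ph f) h.sol.cph (Ioi 0) ordConnected_Ioi (fun x hx => hN x hx) with h1 | h1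
    · refine h.patC (fun x hx => h1 x hx) ?_
      rcases sign_const (ph f) h.sol.cph (Iio 0) ordConnected_Iio (fun x hx => hN' x hx) with
        h2 | h2
      · exfalso
        have h3 := h2 (f 1) hone
        rw [← h.sol.comm] at h3
        have := h.L3 _ (h1 1 (mem_Ioi.2 one_pos))
        linarith
      · exact fun x hx => h2 x hx
    · refine h.patE (fun x hx => h1 x hx) ?_
      rcases sign_const (ph f) h.sol.cph (Iio 0) ordConnected_Iio (fun x hx => hN' x hx) with
        h2 | h2
      · exact fun x hx => h2 x hx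
      · exfalso
        have h3 := h2 (f 1) hone
        rw [← h.sol.comm] at h3
        have := h.L3' _ (h1 1 (mem_Ioi.2 one_pos))
        linarith

theorem Mixed.linear (h : Mixed f) : ∃ a, ∀ x, f x = a * x := by
  obtain ⟨a, ha, hfa⟩ := h.right
  obtain ⟨b, hb, hfb⟩ := h.mir.right
  have hfb' : ∀ x, x ≤ 0 → f x = -b * x := by
    intro x hx
    have := hfb (-x) (by linarith)
    simp only [neg_neg] at this
    linarith
  have hab : a = b := by
    have h1 := h.sol.eq 1
    rw [hfa 1 zero_le_one, mul_one, hfb' (-a) (by linarith)] at h1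
    rcases le_total 0 (1 + -a) with h2 | h2
    · rw [hfa _ h2] at h1
      have h3 : a * (a - b) = 0 := by linarith
      rcases mul_eq_zero.1 h3 with h4 | h4 <;> linarith
    · rw [hfb' _ h2] at h1
      linarith
  refine ⟨-a, fun x => ?_⟩
  rcases le_total 0 x with hx | hx
  · exact hfa x hx
  · rw [hfb' x hx, hab]

theorem classification (f : ℝ → ℝ) (hf : Continuous f) :
    (∀ x, f (x + f x) = f x + f (f x)) ↔
      (∃ a, ∀ x, f x = a * x) ∨
      (∃ a b, 0 ≤ a ∧ 0 ≤ b ∧ (∀ x, 0 ≤ x → f x = a * x) ∧ (∀ x, x ≤ 0 → f x = b * x)) := by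
  constructor
  · intro heq
    have h : Sol f := ⟨hf, heq⟩
    by_cases hA : ∀ x, 0 ≤ x → 0 ≤ f x
    · exact Or.inr (h.caseA_full hA)
    · by_cases hB : ∀ x, x ≤ 0 → f x ≤ 0
      · right
        obtain ⟨a, b, ha, hb, h1, h2⟩ := h.mir.caseA_full (fun x hx => by
          have := hB (-x) (by linarith)
          show 0 ≤ - f (-x)
          linarith)
        refine ⟨b, a, hb, ha, fun x hx => ?_, fun x hx => ?_⟩
        · have := h2 (-x) (by linarith)
          simp only [neg_neg] at this
          linarith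
        · have := h1 (-x) (by linarith)
          simp only [neg_neg] at this
          linarith
      · left
        push Not at hA hB
        obtain ⟨p, hp, hfp⟩ := hA
        obtain ⟨q, hq, hfq⟩ := hB
        have hp' : 0 < p := by
          rcases hp.eq_or_lt with he | he
          · rw [← he, h.zero] at hfp; exact absurd hfp (lt_irrefl _)
          · exact he
        have hq' : q < 0 := by
          rcases hq.eq_or_lt with he | he
          · rw [he, h.zero] at hfq; exact absurd hfq (lt_irrefl _)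
          · exact he
        exact (Mixed.mk h ⟨p, hp', hfp⟩ ⟨q, hq', hfq⟩).linear
  · rintro (⟨a, ha⟩ | ⟨a, b, ha, hb, h1, h2⟩) x
    · rw [ha x, ha (x + a * x), ha (a * x)]; ring
    · rcases le_total 0 x with hx | hx
      · have h3 : 0 ≤ a * x := mul_nonneg ha hx
        rw [h1 x hx, h1 (x + a * x) (by linarith), h1 (a * x) h3]; ring
      · have h3 : b * x ≤ 0 := mul_nonpos_of_nonneg_of_nonpos hb hx
        rw [h2 x hx, h2 (x + b * x) (by linarith), h2 (b * x) h3]; ring

end Q177.Comp
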