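import Mathlib

/-! Algebra of symmetric Jacobi recurrences and the sextic Freud string equation. -/

namespace Pool.Agent.Q177.Fr
open Polynomial

noncomputable section

/-- The monic polynomials with recurrence coefficients `b`. -/
def P (b : ℕ → ℝ) : ℕ → ℝ[X]
  | 0 => 1
  | 1 => X
  | (n + 2) => X * P b (n + 1) - C (b (n + 1)) * P b n

theorem X_mul_P {b : ℕ → ℝ} (hb : b 0 = 0) (n : ℕ) :
    X * P b n = P b (n + 1) + C (b n) * P b (n - 1) := by
  cases n with
  | zero => simp [P, hb]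
  | succ n =>
    simp only [Nat.add_sub_cancel]
    rw [show n + 1 + 1 = n + 2 from rfl, P]
    ring

theorem P_monic_natDegree (b : ℕ → ℝ) (n : ℕ) :
    ((P b n).Monic ∧ (P b n).natDegree = n) ∧
      ((P b (n + 1)).Monic ∧ (P b (n + 1)).natDegree = n + 1) := by
  induction n with
  | zero => simp [P, monic_X]
  | succ n ih =>
    refine ⟨ih.2, ?_⟩
    obtain ⟨⟨h1, h2⟩, h3, h4⟩ := ih
    have hm : (X * P b (n + 1)).Monic := monic_X.mul h3
    have hdX : (X * P b (n + 1)).degree = ((n + 2 : ℕ) : WithBot ℕ) := by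
      rw [degree_eq_natDegree hm.ne_zero, monic_X.natDegree_mul h3, h4, natDegree_X]
      congr 1
      omega
    have hlt : (C (b (n + 1)) * P b n).degree < (X * P b (n + 1)).degree := by
      rw [hdX]
      rw [← smul_eq_C_mul]
      refine lt_of_le_of_lt (degree_smul_le _ _) ?_
      rw [degree_eq_natDegree h1.ne_zero, h2]
      exact_mod_cast (by omega : n < n + 2)
    have hmon : (P b (n + 1 + 1)).Monic := by
      rw [show n + 1 + 1 = n + 2 from rfl, P]
      exact hm.sub_of_left hlt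
    refine ⟨hmon, ?_⟩
    have : (P b (n + 1 + 1)).degree = ((n + 2 : ℕ) : WithBot ℕ) := by
      rw [show n + 1 + 1 = n + 2 from rfl, P, degree_sub_eq_left_of_degree_lt hlt, hdX]
    exact natDegree_eq_of_degree_eq_some this

theorem P_monic (b : ℕ → ℝ) (n : ℕ) : (P b n).Monic := (P_monic_natDegree b n).1.1

theorem P_natDegree (b : ℕ → ℝ) (n : ℕ) : (P b n).natDegree = n := (P_monic_natDegree b n).1.2

theorem P_degree (b : ℕ → ℝ) (n : ℕ) : (P b n).degree = n := by
  rw [degree_eq_natDegree (P_monic b n).ne_zero, P_natDegree]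

/-- The polynomial sequence. -/
def seq (b : ℕ → ℝ) : Polynomial.Sequence ℝ := ⟨P b, P_degree b⟩

theorem seq_apply (b : ℕ → ℝ) (n : ℕ) : (seq b) n = P b n := rfl

theorem seq_unit (b : ℕ → ℝ) (n : ℕ) : IsUnit ((seq b) n).leadingCoeff := by
  rw [seq_apply, (P_monic b n).leadingCoeff]
  exact isUnit_one

/-- The basis of the orthogonal polynomials. -/
def bas (b : ℕ → ℝ) : Module.Basis ℕ ℝ ℝ[X] := (seq b).basis (seq_unit b)

theorem bas_apply (b : ℕ → ℝ) (n : ℕ) : bas b n = P b n := by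
  simp [bas, seq_apply]

theorem ext_P (b : ℕ → ℝ) {L M : ℝ[X] →ₗ[ℝ] ℝ} (h : ∀ n, L (P b n) = M (P b n)) : L = M := by
  apply (bas b).ext
  intro n
  rw [bas_apply]
  exact h n

/-- The norming product. -/
def hh (b : ℕ → ℝ) (n : ℕ) : ℝ := ∏ i ∈ Finset.range n, b (i + 1)

theorem hh_zero (b : ℕ → ℝ) : hh b 0 = 1 := by simp [hh]

theorem hh_succ (b : ℕ → ℝ) (n : ℕ) : hh b (n + 1) = b (n + 1) * hh b n := by
  simp [hh, Finset.prod_range_succ, mul_comm]

/-- `L` annihilates all `P b n`, `n ≥ 1`. -/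
def Ort (b : ℕ → ℝ) (L : ℝ[X] →ₗ[ℝ] ℝ) : Prop := ∀ n, L (P b (n + 1)) = 0

theorem L_C_mul (L : ℝ[X] →ₗ[ℝ] ℝ) (c : ℝ) (p : ℝ[X]) : L (C c * p) = c * L p := by
  rw [← smul_eq_C_mul, map_smul, smul_eq_mul]

variable {b : ℕ → ℝ} {L : ℝ[X] →ₗ[ℝ] ℝ}

theorem L_pow_lt (hb : b 0 = 0) (hL : Ort b L) : ∀ (j k : ℕ), j < k → L (X ^ j * P b k) = 0 := by
  intro j
  induction j with
  | zero =>
    intro k hk
    obtain ⟨k, rfl⟩ := Nat.exists_eq_add_of_lt hk
    simpa using hL k
  | succ j ih =>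
    intro k hk
    rw [pow_succ, mul_assoc, X_mul_P hb, mul_add, map_add, ih _ (by omega),
      show X ^ j * (C (b k) * P b (k - 1)) = C (b k) * (X ^ j * P b (k - 1)) by ring,
      L_C_mul, ih _ (by omega)]
    ring

theorem L_pow_eq (hb : b 0 = 0) (hL : Ort b L) (k : ℕ) :
    L (X ^ k * P b k) = L 1 * hh b k := by
  induction k with
  | zero => simp [P, hh_zero]
  | succ k ih =>
    rw [pow_succ, mul_assoc, X_mul_P hb, mul_add, map_add, L_pow_lt hb hL _ _ (by omega),
      show X ^ k * (C (b (k + 1)) * P b (k + 1 - 1)) = C (b (k + 1)) * (X ^ k * P b k) by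
        simp only [Nat.add_sub_cancel]; ring,
      L_C_mul, ih, hh_succ]
    ring

theorem L_mul_P_of_lt (hb : b 0 = 0) (hL : Ort b L) (q : ℝ[X]) (k : ℕ) (hq : q.degree < k) :
    L (q * P b k) = 0 := by
  by_cases h0 : q = 0
  · simp [h0]
  have hn : q.natDegree < k := by
    rw [degree_eq_natDegree h0] at hq
    exact_mod_cast hq
  rw [q.as_sum_range_C_mul_X_pow, Finset.sum_mul, map_sum]
  apply Finset.sum_eq_zero
  intro i hi
  rw [Finset.mem_range] at hi
  rw [mul_assoc, L_C_mul, L_pow_lt hb hL _ _ (by omega), mul_zero]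

theorem L_PP_self (hb : b 0 = 0) (hL : Ort b L) (k : ℕ) :
    L (P b k * P b k) = L 1 * hh b k := by
  have hd : (P b k - X ^ k).degree < (k : WithBot ℕ) := by
    have := degree_sub_lt_left (p := P b k) (q := X ^ k)
      (by rw [P_degree, degree_X_pow]) (P_monic b k).ne_zero
      (by rw [(P_monic b k).leadingCoeff, leadingCoeff_X_pow])
    rwa [P_degree] at this
  have h := L_mul_P_of_lt hb hL _ k hd
  rw [sub_mul, map_sub, L_pow_eq hb hL] at h
  linarith

theorem L_PP_ne (hb : b 0 = 0) (hL : Ort b L) {i j : ℕ} (hij : i ≠ j) :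
    L (P b i * P b j) = 0 := by
  rcases lt_or_gt_of_ne hij with h | h
  · exact L_mul_P_of_lt hb hL _ _ (by rw [P_degree]; exact_mod_cast h)
  · rw [mul_comm]
    exact L_mul_P_of_lt hb hL _ _ (by rw [P_degree]; exact_mod_cast h)

/-- The derivative of the potential. -/
def V' (τ t : ℝ) : ℝ[X] := C 6 * X ^ 5 - C (4 * τ) * X ^ 3 - C (2 * t) * X

/-- Left-hand side of the string equation at index `n`. -/
def lhs (τ t : ℝ) (b : ℕ → ℝ) (n : ℕ) : ℝ :=
  6 * b n * (b (n - 2) * b (n - 1) + b (n - 1) ^ 2 + 2 * b (n - 1) * b n + b (n - 1) * b (n + 1)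
    + b n ^ 2 + 2 * b n * b (n + 1) + b (n + 1) ^ 2 + b (n + 1) * b (n + 2))
    - 4 * τ * b n * (b (n - 1) + b n + b (n + 1)) - 2 * t * b n

theorem X2_mul_P (hb : b 0 = 0) (n : ℕ) :
    X ^ 2 * P b n = P b (n + 2) + C (b n + b (n + 1)) * P b n
      + C (b n * b (n - 1)) * P b (n - 2) := by
  rw [pow_two, mul_assoc, X_mul_P hb, mul_add, X_mul_P hb,
    show X * (C (b n) * P b (n - 1)) = C (b n) * (X * P b (n - 1)) by ring, X_mul_P hb]
  rcases n with _ | n
  · simp [hb]
  · simp only [Nat.add_sub_cancel, C_add, C_mul, show n + 1 - 2 = n - 1 by omega]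
    ring

theorem X3_mul_P (hb : b 0 = 0) (n : ℕ) :
    X ^ 3 * P b n = P b (n + 3) + C (b n + b (n + 1) + b (n + 2)) * P b (n + 1)
      + C (b n * (b (n - 1) + b n + b (n + 1))) * P b (n - 1)
      + C (b n * b (n - 1) * b (n - 2)) * P b (n - 3) := by
  rw [show (X : ℝ[X]) ^ 3 = X * X ^ 2 by ring, mul_assoc, X2_mul_P hb, mul_add, mul_add,
    show X * (C (b n + b (n + 1)) * P b n) = C (b n + b (n + 1)) * (X * P b n) by ring,
    show X * (C (b n * b (n - 1)) * P b (n - 2)) = C (b n * b (n - 1)) * (X * P b (n - 2)) by ring,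
    X_mul_P hb, X_mul_P hb, X_mul_P hb]
  rcases n with _ | _ | n
  · simp [hb]
    ring
  · simp [hb]
    ring
  · simp only [C_add, C_mul, show n + 1 + 1 - 2 = n by omega,
      show n + 1 + 1 - 1 = n + 1 by omega, show n + 1 + 1 - 3 = n - 1 by omega,
      show n + 1 + 1 + 2 - 1 = n + 1 + 1 + 1 by omega, show n + 1 + 1 + 2 = n + 4 by omega]
    ring

theorem L_X_PP (hb : b 0 = 0) (hL : Ort b L) (k : ℕ) :
    L (X * (P b (k + 1) * P b k)) = L 1 * hh b k * b (k + 1) := by
  rw [show X * (P b (k + 1) * P b k) = P b (k + 1) * (X * P b k) by ring, X_mul_P hb, mul_add,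
    map_add, L_PP_self hb hL, hh_succ,
    show P b (k + 1) * (C (b k) * P b (k - 1)) = C (b k) * (P b (k + 1) * P b (k - 1)) by ring,
    L_C_mul, L_PP_ne hb hL (by omega)]
  ring

theorem L_X3_PP (hb : b 0 = 0) (hL : Ort b L) (k : ℕ) :
    L (X ^ 3 * (P b (k + 1) * P b k)) = L 1 * hh b k * (b (k + 1) *
      (b k + b (k + 1) + b (k + 2))) := by
  rw [show X ^ 3 * (P b (k + 1) * P b k) = (X * P b k) * (X ^ 2 * P b (k + 1)) by ring,
    X_mul_P hb, X2_mul_P hb]
  have e : (P b (k + 1) + C (b k) * P b (k - 1)) * (P b (k + 1 + 2) +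
      C (b (k + 1) + b (k + 1 + 1)) * P b (k + 1) + C (b (k + 1) * b (k + 1 - 1)) *
        P b (k + 1 - 2)) =
      P b (k + 1) * P b (k + 3) + C (b (k + 1) + b (k + 2)) * (P b (k + 1) * P b (k + 1)) +
        C (b (k + 1) * b k) * (P b (k + 1) * P b (k - 1)) +
        C (b k) * (P b (k - 1) * P b (k + 3)) +
        C (b k * (b (k + 1) + b (k + 2))) * (P b (k - 1) * P b (k + 1)) +
        C (b k * (b (k + 1) * b k)) * (P b (k - 1) * P b (k - 1)) := by
    simp only [C_add, C_mul, show k + 1 - 2 = k - 1 by omega, Nat.add_sub_cancel,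
      show k + 1 + 2 = k + 3 by omega, show k + 1 + 1 = k + 2 by omega]
    ring
  rw [e]
  simp only [LinearMap.map_add, L_C_mul, L_PP_self hb hL]
  rw [L_PP_ne hb hL (show k + 1 ≠ k + 3 by omega), L_PP_ne hb hL (show k + 1 ≠ k - 1 by omega),
    L_PP_ne hb hL (show k - 1 ≠ k + 3 by omega), L_PP_ne hb hL (show k - 1 ≠ k + 1 by omega),
    hh_succ]
  rcases k with _ | k
  · simp [hb]
    ring
  · simp only [Nat.add_sub_cancel, hh_succ]
    ring

theorem L_X5_PP (hb : b 0 = 0) (hL : Ort b L) (k : ℕ) :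
    L (X ^ 5 * (P b (k + 1) * P b k)) = L 1 * hh b k * (b (k + 1) *
      (b (k - 1) * b k + b k ^ 2 + 2 * b k * b (k + 1) + b k * b (k + 2) + b (k + 1) ^ 2
        + 2 * b (k + 1) * b (k + 2) + b (k + 2) ^ 2 + b (k + 2) * b (k + 3))) := by
  rw [show X ^ 5 * (P b (k + 1) * P b k) = (X ^ 2 * P b k) * (X ^ 3 * P b (k + 1)) by ring,
    X2_mul_P hb, X3_mul_P hb]
  have e : (P b (k + 2) + C (b k + b (k + 1)) * P b k + C (b k * b (k - 1)) * P b (k - 2)) *
      (P b (k + 1 + 3) + C (b (k + 1) + b (k + 1 + 1) + b (k + 1 + 2)) * P b (k + 1 + 1) +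
        C (b (k + 1) * (b (k + 1 - 1) + b (k + 1) + b (k + 1 + 1))) * P b (k + 1 - 1) +
        C (b (k + 1) * b (k + 1 - 1) * b (k + 1 - 2)) * P b (k + 1 - 3)) =
      (P b (k + 2) * P b (k + 4)
        + C (b (k + 1) + b (k + 2) + b (k + 3)) * (P b (k + 2) * P b (k + 2))
        + C (b (k + 1) * (b k + b (k + 1) + b (k + 2))) * (P b (k + 2) * P b k)
        + C (b (k + 1) * b k * b (k - 1)) * (P b (k + 2) * P b (k - 2))) +
      (C (b k + b (k + 1)) * (P b k * P b (k + 4))
        + C ((b k + b (k + 1)) * (b (k + 1) + b (k + 2) + b (k + 3))) * (P b k * P b (k + 2))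
        + C ((b k + b (k + 1)) * (b (k + 1) * (b k + b (k + 1) + b (k + 2)))) * (P b k * P b k)
        + C ((b k + b (k + 1)) * b (k + 1)) * (C (b k * b (k - 1)) * (P b k * P b (k - 2)))) +
      (C (b k * b (k - 1)) * (P b (k - 2) * P b (k + 4))
        + C (b k * b (k - 1) * (b (k + 1) + b (k + 2) + b (k + 3))) * (P b (k - 2) * P b (k + 2))
        + C (b (k + 1) * (b k + b (k + 1) + b (k + 2))) *
          (C (b k * b (k - 1)) * (P b k * P b (k - 2)))
        + C (b k * b (k - 1) * (b (k + 1) * b k * b (k - 1))) * (P b (k - 2) * P b (k - 2))) := by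
    simp only [C_add, C_mul, show k + 1 - 2 = k - 1 by omega, Nat.add_sub_cancel,
      show k + 1 - 3 = k - 2 by omega, show k + 1 + 3 = k + 4 by omega,
      show k + 1 + 2 = k + 3 by omega, show k + 1 + 1 = k + 2 by omega]
    ring
  rw [e]
  have h0 : L (C (b k * b (k - 1)) * (P b k * P b (k - 2))) = 0 := by
    rw [L_C_mul]
    rcases k with _ | _ | k
    · simp [hb]
    · simp [hb]
    · rw [L_PP_ne hb hL (by omega), mul_zero]
  simp only [LinearMap.map_add, L_C_mul, L_PP_self hb hL] at h0 ⊢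
  rw [L_PP_ne hb hL (show k + 2 ≠ k + 4 by omega), L_PP_ne hb hL (show k + 2 ≠ k by omega),
    L_PP_ne hb hL (show k + 2 ≠ k - 2 by omega), L_PP_ne hb hL (show k ≠ k + 4 by omega),
    L_PP_ne hb hL (show k ≠ k + 2 by omega), L_PP_ne hb hL (show k - 2 ≠ k + 4 by omega),
    L_PP_ne hb hL (show k - 2 ≠ k + 2 by omega), h0]
  rcases k with _ | _ | k
  · simp [hb, hh_succ, hh_zero]
    ring
  · simp [hb, hh_succ, hh_zero]
    ring
  · simp only [hh_succ, show k + 1 + 1 - 2 = k by omega, show k + 1 + 1 - 1 = k + 1 by omega]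
    ring

theorem L_V'_PP (hb : b 0 = 0) (hL : Ort b L) (τ t : ℝ) (k : ℕ) :
    L (V' τ t * (P b (k + 1) * P b k)) = L 1 * hh b k * lhs τ t b (k + 1) := by
  have e : V' τ t * (P b (k + 1) * P b k) = C 6 * (X ^ 5 * (P b (k + 1) * P b k)) -
      C (4 * τ) * (X ^ 3 * (P b (k + 1) * P b k)) - C (2 * t) * (X * (P b (k + 1) * P b k)) := by
    rw [V']
    ring
  rw [e, map_sub, map_sub, L_C_mul, L_C_mul, L_C_mul, L_X5_PP hb hL, L_X3_PP hb hL,
    L_X_PP hb hL, lhs]
  simp only [show k + 1 - 2 = k - 1 by omega, Nat.add_sub_cancel,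
      show k + 1 + 2 = k + 3 by omega, show k + 1 + 1 = k + 2 by omega]
  ring

theorem L_derivative_PP (hb : b 0 = 0) (hL : Ort b L) (k : ℕ) :
    L (derivative (P b (k + 1) * P b k)) = (k + 1) * (L 1 * hh b k) := by
  rw [derivative_mul, map_add]
  have h1 : L (P b (k + 1) * derivative (P b k)) = 0 := by
    rw [mul_comm]
    apply L_mul_P_of_lt hb hL
    refine lt_of_le_of_lt degree_derivative_le ?_
    rw [P_degree]
    exact_mod_cast Nat.lt_succ_self k
  have h2 : L (derivative (P b (k + 1)) * P b k) = (k + 1) * (L 1 * hh b k) := by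
    have hd : (derivative (P b (k + 1)) - C ((k : ℝ) + 1) * P b k).degree < (k : WithBot ℕ) := by
      have hk : ((k : ℝ) + 1) ≠ 0 := by positivity
      have hcoef : (derivative (P b (k + 1))).coeff k = (k : ℝ) + 1 := by
        rw [coeff_derivative]
        have := (P_monic b (k + 1)).coeff_natDegree
        rw [P_natDegree] at this
        rw [this]
        ring
      rw [degree_lt_iff_coeff_zero]
      intro m hm
      rw [coeff_sub, coeff_C_mul]
      rcases hm.eq_or_lt with h | h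
      · subst h
        have := (P_monic b k).coeff_natDegree
        rw [P_natDegree] at this
        rw [hcoef, this]
        ring
      · rw [coeff_derivative, coeff_eq_zero_of_natDegree_lt (by rw [P_natDegree]; omega),
          coeff_eq_zero_of_natDegree_lt (by rw [P_natDegree]; omega)]
        ring
    have h := L_mul_P_of_lt hb hL _ k hd
    rw [sub_mul, map_sub, mul_assoc, L_C_mul, L_PP_self hb hL] at h
    linarith
  rw [h1, h2, add_zero]

end

end Pool.Agent.Q177.Fr
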