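import Pool.Agent.Q177.FrA

/-! Parity, the Pearson identity and positivity. -/

namespace Pool.Agent.Q177.Fr
open Polynomial

noncomputable section

variable {b : ℕ → ℝ} {L : ℝ[X] →ₗ[ℝ] ℝ}

theorem P_comp_neg (b : ℕ → ℝ) (n : ℕ) :
    (P b n).comp (-X) = C ((-1) ^ n) * P b n ∧
      (P b (n + 1)).comp (-X) = C ((-1) ^ (n + 1)) * P b (n + 1) := by
  induction n with
  | zero => simp [P]
  | succ n ih =>
    refine ⟨ih.2, ?_⟩
    rw [show n + 1 + 1 = n + 2 from rfl, P, sub_comp, mul_comp, mul_comp, X_comp, C_comp,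
      ih.1, ih.2]
    simp only [pow_succ, C_mul, C_neg, C_1]
    ring

/-- Reflection. -/
def refl (L : ℝ[X] →ₗ[ℝ] ℝ) : ℝ[X] →ₗ[ℝ] ℝ where
  toFun q := L (q.comp (-X))
  map_add' p q := by rw [add_comp, map_add]
  map_smul' c p := by simp [smul_comp]

theorem L_comp_neg (hL : Ort b L) (q : ℝ[X]) : L (q.comp (-X)) = L q := by
  have : refl L = L := by
    apply ext_P b
    intro n
    change L ((P b n).comp (-X)) = _
    rw [(P_comp_neg b n).1, L_C_mul]
    rcases n with _ | n
    · simp
    · rw [hL n, mul_zero]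
  exact LinearMap.congr_fun this q

theorem L_pow_odd (hL : Ort b L) {k : ℕ} (hk : Odd k) : L (X ^ k) = 0 := by
  have h := L_comp_neg hL (X ^ k)
  rw [X_pow_comp, hk.neg_pow, map_neg] at h
  linarith

/-- The Pearson defect. -/
def D (τ t : ℝ) (L : ℝ[X] →ₗ[ℝ] ℝ) : ℝ[X] →ₗ[ℝ] ℝ where
  toFun q := L (derivative q) - L (V' τ t * q)
  map_add' p q := by rw [derivative_add, mul_add, map_add, map_add]; ring
  map_smul' c p := by
    simp only [mul_smul_comm, map_smul, smul_eq_mul, RingHom.id_apply]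
    ring

theorem D_X_pow (hb : b 0 = 0) (hL : Ort b L) (τ t : ℝ)
    (hE : ∀ n, lhs τ t b (n + 1) = n + 1) (k : ℕ) : D τ t L (X ^ k) = 0 := by
  induction k using Nat.strong_induction_on with
  | _ k ih =>
  rcases Nat.even_or_odd k with hk | hk
  · change L (derivative (X ^ k)) - L (V' τ t * X ^ k) = 0
    have h1 : L (derivative (X ^ k)) = 0 := by
      rw [derivative_X_pow, L_C_mul]
      rcases k with _ | k
      · simp
      · rw [Nat.add_sub_cancel, L_pow_odd hL (by grind), mul_zero]
    have h2 : V' τ t * X ^ k = C 6 * X ^ (k + 5) - C (4 * τ) * X ^ (k + 3)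
        - C (2 * t) * X ^ (k + 1) := by
      rw [V']; ring
    rw [h1, h2, map_sub, map_sub, L_C_mul, L_C_mul, L_C_mul, L_pow_odd hL (by grind),
      L_pow_odd hL (by grind), L_pow_odd hL (by grind)]
    ring
  · obtain ⟨n, rfl⟩ := hk
    have hPP : D τ t L (P b (n + 1) * P b n) = 0 := by
      change L (derivative (P b (n + 1) * P b n)) - L (V' τ t * (P b (n + 1) * P b n)) = 0
      rw [L_derivative_PP hb hL, L_V'_PP hb hL, hE n]
      ring
    have hdeg : (P b (n + 1) * P b n - X ^ (2 * n + 1)).degree < ((2 * n + 1 : ℕ) : WithBot ℕ) := by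
      have hd : (P b (n + 1) * P b n).degree = ((2 * n + 1 : ℕ) : WithBot ℕ) := by
        rw [degree_mul, P_degree, P_degree]
        norm_cast
        omega
      have := degree_sub_lt_left (p := P b (n + 1) * P b n) (q := X ^ (2 * n + 1))
        (by rw [hd, degree_X_pow]) ((P_monic b _).mul (P_monic b _)).ne_zero
        (by rw [((P_monic b _).mul (P_monic b _)).leadingCoeff, leadingCoeff_X_pow])
      rwa [hd] at this
    set r := P b (n + 1) * P b n - X ^ (2 * n + 1) with hr
    have hr0 : D τ t L r = 0 := by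
      by_cases h0 : r = 0
      · rw [h0, map_zero]
      have hn : r.natDegree < 2 * n + 1 := by
        rw [degree_eq_natDegree h0] at hdeg
        exact_mod_cast hdeg
      rw [r.as_sum_range_C_mul_X_pow, map_sum]
      apply Finset.sum_eq_zero
      intro i hi
      rw [Finset.mem_range] at hi
      rw [L_C_mul, ih i (by omega), mul_zero]
    have : (X : ℝ[X]) ^ (2 * n + 1) = P b (n + 1) * P b n - r := by rw [hr]; ring
    rw [this, map_sub, hPP, hr0, sub_zero]

/-- The moment recursion. -/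
theorem moment_rec (hb : b 0 = 0) (hL : Ort b L) (τ t : ℝ)
    (hE : ∀ n, lhs τ t b (n + 1) = n + 1) (k : ℕ) :
    6 * L (X ^ (k + 5)) - 4 * τ * L (X ^ (k + 3)) - 2 * t * L (X ^ (k + 1)) =
      k * L (X ^ (k - 1)) := by
  have h : L (derivative (X ^ k)) - L (V' τ t * X ^ k) = 0 := D_X_pow hb hL τ t hE k
  have h2 : V' τ t * X ^ k = C 6 * X ^ (k + 5) - C (4 * τ) * X ^ (k + 3)
        - C (2 * t) * X ^ (k + 1) := by
      rw [V']; ring
  rw [h2, map_sub, map_sub, L_C_mul, L_C_mul, L_C_mul, derivative_X_pow,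
    L_C_mul] at h
  linarith

theorem L_sq_nonneg (hb : b 0 = 0) (hpos : ∀ n, 0 < b (n + 1)) (hL : Ort b L) (h1 : 0 ≤ L 1)
    (q : ℝ[X]) : 0 ≤ L (q * q) := by
  have hq := (bas b).linearCombination_repr q
  rw [← hq, Finsupp.linearCombination_apply, Finsupp.sum, Finset.sum_mul_sum, map_sum]
  apply Finset.sum_nonneg
  intro i hi
  rw [map_sum, Finset.sum_eq_single i]
  · rw [bas_apply, smul_mul_smul_comm, map_smul, L_PP_self hb hL, smul_eq_mul]
    have : 0 < hh b i := Finset.prod_pos (fun j _ => hpos j)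
    have := mul_self_nonneg ((bas b).repr q i)
    positivity
  · intro j _ hj
    rw [bas_apply, bas_apply, smul_mul_smul_comm, map_smul, L_PP_ne hb hL (Ne.symm hj), smul_zero]
  · intro h
    exact absurd hi h

theorem L_cs (hpos : ∀ q, 0 ≤ L (q * q)) (p q : ℝ[X]) :
    (L (p * q)) ^ 2 ≤ L (p * p) * L (q * q) := by
  have key : ∀ x : ℝ, 0 ≤ L (p * p) * (x * x) + (2 * L (p * q)) * x + L (q * q) := by
    intro x
    have h := hpos (C x * p + q)
    have e : (C x * p + q) * (C x * p + q) = C (x * x) * (p * p) + C (2 * x) * (p * q) + q * q := by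
      simp only [C_mul, map_ofNat]
      ring
    rw [e, LinearMap.map_add, LinearMap.map_add, L_C_mul, L_C_mul] at h
    linarith
  have h := discrim_le_zero key
  rw [discrim] at h
  nlinarith

/-- The functional with the given recurrence coefficients. -/
def LL (b : ℕ → ℝ) : ℝ[X] →ₗ[ℝ] ℝ := (bas b).coord 0

theorem LL_ort (b : ℕ → ℝ) : Ort b (LL b) := by
  intro n
  rw [LL, ← bas_apply, Module.Basis.coord_apply, Module.Basis.repr_self]
  simp

theorem LL_one (b : ℕ → ℝ) : LL b 1 = 1 := by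
  have : (1 : ℝ[X]) = bas b 0 := by rw [bas_apply, P]
  rw [this, LL, Module.Basis.coord_apply, Module.Basis.repr_self]
  simp

/-- Two positive recurrence sequences with the same functional coincide. -/
theorem eq_of_functional {b c : ℕ → ℝ} (hb : b 0 = 0) (hc : c 0 = 0)
    (hbp : ∀ n, 0 < b (n + 1)) (hLb : Ort b L) (hLc : Ort c L) (h1 : L 1 ≠ 0) : b = c := by
  have key : ∀ n, P b n = P c n ∧ P b (n + 1) = P c (n + 1) ∧ b n = c n := by
    intro n
    induction n with
    | zero => simp [P, hb, hc]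
    | succ n ih =>
      obtain ⟨i1, i2, i3⟩ := ih
      have e1 := L_pow_eq hb hLb n
      have e2 := L_pow_eq hb hLb (n + 1)
      have f1 := L_pow_eq hc hLc n
      have f2 := L_pow_eq hc hLc (n + 1)
      rw [i1, f1] at e1
      rw [i2, f2, hh_succ, hh_succ] at e2
      have hbn : 0 < hh b n := Finset.prod_pos (fun j _ => hbp j)
      have e3 : hh c n = hh b n := mul_left_cancel₀ h1 e1
      rw [e3] at e2
      have e4 := mul_left_cancel₀ h1 e2
      have e5 : c (n + 1) = b (n + 1) := mul_right_cancel₀ hbn.ne' e4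
      refine ⟨i2, ?_, e5.symm⟩
      rw [show n + 1 + 1 = n + 2 from rfl, P, P, i1, i2, e5]
  exact funext fun n => (key n).2.2

end

end Pool.Agent.Q177.Fr
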