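import Pool.Agent.Q177.FrB

/-! Moment growth and the characteristic functions `E m j`. -/

namespace Pool.Agent.Q177.Fr
open Complex Filter Topology

noncomputable section

/-- The moment recursion, abstractly. -/
def Rec (τ t : ℝ) (m : ℕ → ℝ) : Prop :=
  ∀ k : ℕ, 6 * m (k + 5) - 4 * τ * m (k + 3) - 2 * t * m (k + 1) = k * m (k - 1)

theorem fact_half_succ (n : ℕ) : ((n + 2) / 2).factorial = (n / 2 + 1) * (n / 2).factorial := by
  rw [show (n + 2) / 2 = n / 2 + 1 by omega, Nat.factorial_succ]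

set_option maxHeartbeats 2000000 in
theorem moment_bound {τ t : ℝ} {m : ℕ → ℝ} (h : Rec τ t m) :
    ∃ C B : ℝ, 0 ≤ C ∧ 1 ≤ B ∧ ∀ n, |m n| ≤ C * B ^ n * ((n / 2).factorial : ℝ) := by
  set B : ℝ := 2 + 3 * |τ| + 3 * |t| with hB
  have hτ := abs_nonneg τ
  have ht := abs_nonneg t
  have hB1 : 1 ≤ B := by linarith
  have hB2 : 2 ≤ B := by linarith
  have hBB : 2 * B ≤ B ^ 2 := by nlinarith
  have hB4 : B ≤ B ^ 4 := le_self_pow₀ hB1 (by norm_num)
  set C : ℝ := |m 0| + |m 1| + |m 2| + |m 3| + |m 4| + |m 5| with hC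
  have hC0 : 0 ≤ C := by positivity
  refine ⟨C, B, hC0, hB1, ?_⟩
  have base : ∀ n, |m n| ≤ C → |m n| ≤ C * B ^ n * ((n / 2).factorial : ℝ) := by
    intro n hn
    have h1 : (1 : ℝ) ≤ B ^ n := one_le_pow₀ hB1
    have h2 : (1 : ℝ) ≤ ((n / 2).factorial : ℝ) := by
      exact_mod_cast Nat.one_le_iff_ne_zero.mpr (Nat.factorial_ne_zero _)
    calc |m n| ≤ C * 1 * 1 := by linarith
      _ ≤ C * B ^ n * ((n / 2).factorial : ℝ) := by gcongr
  intro n
  induction n using Nat.strong_induction_on with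
  | _ n ih =>
  have hm := fun i : ℕ => abs_nonneg (m i)
  match n with
  | 0 => exact base 0 (by linarith [hm 0, hm 1, hm 2, hm 3, hm 4, hm 5])
  | 1 => exact base 1 (by linarith [hm 0, hm 1, hm 2, hm 3, hm 4, hm 5])
  | 2 => exact base 2 (by linarith [hm 0, hm 1, hm 2, hm 3, hm 4, hm 5])
  | 3 => exact base 3 (by linarith [hm 0, hm 1, hm 2, hm 3, hm 4, hm 5])
  | 4 => exact base 4 (by linarith [hm 0, hm 1, hm 2, hm 3, hm 4, hm 5])
  | 5 => exact base 5 (by linarith [hm 0, hm 1, hm 2, hm 3, hm 4, hm 5])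
  | (n + 6) =>
    have e := h (n + 1)
    rw [show n + 1 + 5 = n + 6 by omega, show n + 1 + 3 = n + 4 by omega,
      show n + 1 + 1 = n + 2 by omega, Nat.add_sub_cancel] at e
    have e1 : 6 * m (n + 6) = 4 * τ * m (n + 4) + 2 * t * m (n + 2) +
        ((n + 1 : ℕ) : ℝ) * m n := by linarith
    have e2 : 6 * |m (n + 6)| ≤ 4 * |τ| * |m (n + 4)| + 2 * |t| * |m (n + 2)| +
        ((n : ℝ) + 1) * |m n| := by
      have : |6 * m (n + 6)| ≤ |4 * τ * m (n + 4)| + |2 * t * m (n + 2)| +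
          |((n + 1 : ℕ) : ℝ) * m n| := by
        rw [e1]
        exact abs_add_three _ _ _
      simpa [abs_mul, abs_of_nonneg (by positivity : (0:ℝ) ≤ (n : ℝ) + 1)] using this
    have i0 := ih n (by omega)
    have i2 := ih (n + 2) (by omega)
    have i4 := ih (n + 4) (by omega)
    set F : ℝ := ((n / 2).factorial : ℝ) with hF
    set q : ℝ := ((n / 2 : ℕ) : ℝ) with hq
    have hq0 : 0 ≤ q := by positivity
    have hF0 : 0 ≤ F := by positivity
    have f2 : (((n + 2) / 2).factorial : ℝ) = (q + 1) * F := by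
      rw [fact_half_succ]; push_cast; ring
    have f4 : (((n + 4) / 2).factorial : ℝ) = (q + 2) * ((q + 1) * F) := by
      rw [show n + 4 = (n + 2) + 2 by omega, fact_half_succ]
      push_cast
      rw [f2, show (n + 2) / 2 = n / 2 + 1 by omega]
      push_cast
      ring
    have f6 : (((n + 6) / 2).factorial : ℝ) = (q + 3) * ((q + 2) * ((q + 1) * F)) := by
      rw [show n + 6 = (n + 4) + 2 by omega, fact_half_succ]
      push_cast
      rw [f4, show (n + 4) / 2 = n / 2 + 2 by omega]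
      push_cast
      ring
    have hn : (n : ℝ) + 1 ≤ 2 * (q + 1) := by
      have : n + 1 ≤ 2 * (n / 2 + 1) := by omega
      rw [hq]
      exact_mod_cast this
    rw [f2] at i2
    rw [f4] at i4
    rw [f6]
    set A : ℝ := C * B ^ n * ((q + 1) * F) with hA
    have hA0 : 0 ≤ A := by positivity
    have g0 : ((n : ℝ) + 1) * |m n| ≤ 2 * A := by
      calc ((n : ℝ) + 1) * |m n| ≤ (2 * (q + 1)) * (C * B ^ n * F) := by gcongr
        _ = 2 * A := by rw [hA]; ring
    have g2 : |m (n + 2)| ≤ B ^ 2 * A := by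
      calc |m (n + 2)| ≤ C * B ^ (n + 2) * ((q + 1) * F) := i2
        _ = B ^ 2 * A := by rw [hA]; ring
    have g4 : |m (n + 4)| ≤ B ^ 4 * (q + 2) * A := by
      calc |m (n + 4)| ≤ C * B ^ (n + 4) * ((q + 2) * ((q + 1) * F)) := i4
        _ = B ^ 4 * (q + 2) * A := by rw [hA]; ring
    have goal : C * B ^ (n + 6) * ((q + 3) * ((q + 2) * ((q + 1) * F))) =
        B ^ 6 * ((q + 3) * (q + 2)) * A := by rw [hA]; ring
    rw [goal]
    have k4 : 4 * |τ| * |m (n + 4)| ≤ 2 * (B ^ 6 * ((q + 3) * (q + 2)) * A) := by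
      have b1 : 4 * |τ| ≤ 2 * B ^ 2 := by linarith
      calc 4 * |τ| * |m (n + 4)| ≤ (2 * B ^ 2) * (B ^ 4 * (q + 2) * A) := by gcongr
        _ = 2 * (B ^ 6 * (1 * (q + 2)) * A) := by ring
        _ ≤ 2 * (B ^ 6 * ((q + 3) * (q + 2)) * A) := by
          gcongr
          linarith
    have k2 : 2 * |t| * |m (n + 2)| ≤ 2 * (B ^ 6 * ((q + 3) * (q + 2)) * A) := by
      have b1 : 2 * |t| ≤ 2 * B ^ 4 := by linarith
      calc 2 * |t| * |m (n + 2)| ≤ (2 * B ^ 4) * (B ^ 2 * A) := by gcongr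
        _ = 2 * (B ^ 6 * (1 * 1) * A) := by ring
        _ ≤ 2 * (B ^ 6 * ((q + 3) * (q + 2)) * A) := by
          gcongr <;> linarith
    have k0 : ((n : ℝ) + 1) * |m n| ≤ 2 * (B ^ 6 * ((q + 3) * (q + 2)) * A) := by
      refine g0.trans ?_
      calc 2 * A = 2 * (1 * (1 * 1) * A) := by ring
        _ ≤ 2 * (B ^ 6 * ((q + 3) * (q + 2)) * A) := by
          gcongr
          · exact one_le_pow₀ hB1
          · linarith
          · linarith
    linarith

theorem summable_moments {τ t : ℝ} {m : ℕ → ℝ} (h : Rec τ t m) (R : ℝ) (hR : 0 ≤ R) (j : ℕ) :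
    Summable fun k : ℕ => R ^ k * |m (k + j)| / (k.factorial : ℝ) := by
  obtain ⟨C, B, hC, hB, hm⟩ := moment_bound h
  have hB0 : 0 ≤ B := by linarith
  set K : ℝ := (2 * B ^ 2) ^ j * (j.factorial : ℝ) with hK
  have hsum : Summable fun k : ℕ => C * ((1 / 2 : ℝ) ^ k + K * ((8 * R ^ 2 * B ^ 2) ^ k /
      (k.factorial : ℝ))) := by
    apply Summable.mul_left
    apply Summable.add
    · exact summable_geometric_of_lt_one (by norm_num) (by norm_num)
    · exact (Real.summable_pow_div_factorial _).mul_left _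
  refine Summable.of_nonneg_of_le (fun k => by positivity) (fun k => ?_) hsum
  set a : ℝ := (((k + j) / 2).factorial : ℝ) with ha
  set f : ℝ := (k.factorial : ℝ) with hf
  have hf0 : 0 < f := by rw [hf]; exact_mod_cast Nat.factorial_pos k
  have ha2 : a ^ 2 ≤ 2 ^ (k + j) * (f * (j.factorial : ℝ)) := by
    have h1 : ((k + j) / 2).factorial * ((k + j) / 2).factorial ≤ (k + j).factorial :=
      (Nat.le_of_dvd (Nat.factorial_pos _) (Nat.factorial_mul_factorial_dvd_factorial_add _ _)).trans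
        (Nat.factorial_le (by omega))
    have h2 : (k + j).factorial ≤ 2 ^ (k + j) * (k.factorial * j.factorial) := by
      rw [← Nat.add_choose_mul_factorial_mul_factorial, mul_assoc]
      exact Nat.mul_le_mul_right _ (Nat.choose_le_two_pow _ _)
    have h3 := h1.trans h2
    rw [pow_two, ha, hf]
    exact_mod_cast h3
  have hx : R ^ k * B ^ (k + j) * a / f ≤ (1 / 2 : ℝ) ^ k + K * ((8 * R ^ 2 * B ^ 2) ^ k / f) := by
    set x : ℝ := 2 ^ k * (R ^ k * B ^ (k + j) * a / f) with hxdef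
    have hx2 : x ^ 2 ≤ 4 ^ k * (R ^ k) ^ 2 * (B ^ (k + j)) ^ 2 *
        (2 ^ (k + j) * (f * (j.factorial : ℝ))) / f ^ 2 := by
      have h4 : (4 : ℝ) ^ k = (2 ^ k) ^ 2 := by
        rw [← pow_mul, mul_comm, pow_mul]
        norm_num
      have : x ^ 2 = 4 ^ k * (R ^ k) ^ 2 * (B ^ (k + j)) ^ 2 * a ^ 2 / f ^ 2 := by
        rw [hxdef, h4]
        ring
      rw [this]
      gcongr
    have e1 : 4 ^ k * (R ^ k) ^ 2 * (B ^ (k + j)) ^ 2 *
        (2 ^ (k + j) * (f * (j.factorial : ℝ))) / f ^ 2 = K * (8 * R ^ 2 * B ^ 2) ^ k / f := by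
      rw [hK, show (8 : ℝ) = 4 * 2 by norm_num]
      field_simp
      simp only [mul_pow, pow_add, ← pow_mul]
      ring
    rw [e1] at hx2
    have hxx : x ≤ 1 + x ^ 2 := by nlinarith [sq_nonneg (x - 1), sq_nonneg x, sq_nonneg (x + 1)]
    have h2k : (0 : ℝ) < 2 ^ k := by positivity
    have e2 : R ^ k * B ^ (k + j) * a / f = (1 / 2 : ℝ) ^ k * x := by
      rw [hxdef, one_div, inv_pow]
      field_simp
    rw [e2]
    calc (1 / 2 : ℝ) ^ k * x ≤ (1 / 2 : ℝ) ^ k * (1 + K * (8 * R ^ 2 * B ^ 2) ^ k / f) := by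
          gcongr
          linarith
      _ = (1 / 2 : ℝ) ^ k + (1 / 2 : ℝ) ^ k * (K * (8 * R ^ 2 * B ^ 2) ^ k / f) := by ring
      _ ≤ (1 / 2 : ℝ) ^ k + 1 * (K * (8 * R ^ 2 * B ^ 2) ^ k / f) := by
          gcongr
          exact pow_le_one₀ (by norm_num) (by norm_num)
      _ = (1 / 2 : ℝ) ^ k + K * ((8 * R ^ 2 * B ^ 2) ^ k / f) := by ring
  calc R ^ k * |m (k + j)| / f ≤ R ^ k * (C * B ^ (k + j) * a) / f := by
        gcongr
        exact hm (k + j)
    _ = C * (R ^ k * B ^ (k + j) * a / f) := by ring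
    _ ≤ C * ((1 / 2 : ℝ) ^ k + K * ((8 * R ^ 2 * B ^ 2) ^ k / f)) := by gcongr

/-- The `j`-th derivative of the characteristic function, as a series. -/
def E (m : ℕ → ℝ) (j : ℕ) (s : ℝ) : ℂ :=
  ∑' k : ℕ, (I * (s : ℂ)) ^ k * (m (k + j) : ℂ) / (k.factorial : ℂ)

theorem norm_term (m : ℕ → ℝ) (j : ℕ) (s : ℝ) (k : ℕ) :
    ‖(I * (s : ℂ)) ^ k * (m (k + j) : ℂ) / (k.factorial : ℂ)‖ =
      |s| ^ k * |m (k + j)| / (k.factorial : ℝ) := by
  simp [norm_pow]

theorem summable_E {τ t : ℝ} {m : ℕ → ℝ} (h : Rec τ t m) (j : ℕ) (s : ℝ) :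
    Summable fun k : ℕ => (I * (s : ℂ)) ^ k * (m (k + j) : ℂ) / (k.factorial : ℂ) := by
  apply Summable.of_norm
  simp_rw [norm_term]
  exact summable_moments h _ (abs_nonneg s) j

theorem E_zero (m : ℕ → ℝ) (j : ℕ) : E m j 0 = m j := by
  rw [E, tsum_eq_single 0]
  · simp
  · intro k hk
    simp [hk]

theorem hasDerivAt_E {τ t : ℝ} {m : ℕ → ℝ} (h : Rec τ t m) (j : ℕ) (s : ℝ) :
    HasDerivAt (E m j) (I * E m (j + 1) s) s := by
  set R : ℝ := |s| + 1 with hR
  have hR0 : 0 ≤ R := by positivity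
  set g : ℕ → ℝ → ℂ := fun k y => (I * (y : ℂ)) ^ k * (m (k + j) : ℂ) / (k.factorial : ℂ) with hg
  set g' : ℕ → ℝ → ℂ := fun k y =>
    ((k : ℂ) * (I * (y : ℂ)) ^ (k - 1) * I) * (m (k + j) : ℂ) / (k.factorial : ℂ) with hg'
  set u : ℕ → ℝ := fun k => (k : ℝ) * R ^ (k - 1) * |m (k + j)| / (k.factorial : ℝ) with hu
  have hus : Summable u := by
    rw [← summable_nat_add_iff 1]
    refine (summable_moments h R hR0 (j + 1)).congr (fun k => ?_)
    simp only [hu, Nat.add_sub_cancel]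
    rw [show k + 1 + j = k + (j + 1) by omega, Nat.factorial_succ]
    push_cast
    have : ((k : ℝ) + 1) ≠ 0 := by positivity
    field_simp
  have hder : ∀ k y, y ∈ Metric.ball (0 : ℝ) R → HasDerivAt (g k) (g' k y) y := by
    intro k y _
    have h1 : HasDerivAt (fun y : ℝ => I * (y : ℂ)) I y := by
      simpa using (Complex.ofRealCLM.hasDerivAt (x := y)).const_mul I
    have h2 := ((h1.pow k).mul_const (m (k + j) : ℂ)).div_const (k.factorial : ℂ)
    exact h2
  have hb : ∀ k y, y ∈ Metric.ball (0 : ℝ) R → ‖g' k y‖ ≤ u k := by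
    intro k y hy
    rw [Metric.mem_ball, dist_zero_right, Real.norm_eq_abs] at hy
    simp only [hg', hu, norm_mul, norm_pow, norm_div, Complex.norm_I, Complex.norm_real,
      Complex.norm_natCast, Real.norm_eq_abs, one_mul, mul_one]
    gcongr
  have hs : s ∈ Metric.ball (0 : ℝ) R := by
    rw [Metric.mem_ball, dist_zero_right, Real.norm_eq_abs]
    linarith
  have key := hasDerivAt_tsum_of_isPreconnected hus Metric.isOpen_ball
    (convex_ball (0 : ℝ) R).isPreconnected hder hb hs (summable_E h j s) hs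
  have e : ∑' k, g' k s = I * E m (j + 1) s := by
    have hsum' : Summable fun k => g' k s :=
      Summable.of_norm_bounded hus (fun k => hb k s hs)
    rw [hsum'.tsum_eq_zero_add, E, ← tsum_mul_left]
    simp only [hg', Nat.cast_zero, zero_mul, zero_div, zero_add, Nat.add_sub_cancel]
    congr 1
    ext k
    rw [show k + 1 + j = k + (j + 1) by omega, Nat.factorial_succ]
    push_cast
    have h1 : ((k : ℂ) + 1) ≠ 0 := by exact_mod_cast (Nat.succ_ne_zero k)
    have h2 : (k.factorial : ℂ) ≠ 0 := by exact_mod_cast (Nat.factorial_ne_zero k)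
    field_simp
  rw [← e]
  exact key

/-- The differential equation. -/
theorem E_ode {τ t : ℝ} {m : ℕ → ℝ} (h : Rec τ t m) (j : ℕ) (s : ℝ) :
    6 * E m (j + 5) s - 4 * τ * E m (j + 3) s - 2 * t * E m (j + 1) s =
      I * s * E m j s + j * E m (j - 1) s := by
  have s5 := (summable_E h (j + 5) s).mul_left 6
  have s3 := (summable_E h (j + 3) s).mul_left (4 * (τ : ℂ))
  have s1 := (summable_E h (j + 1) s).mul_left (2 * (t : ℂ))
  have e1 : 6 * E m (j + 5) s - 4 * τ * E m (j + 3) s - 2 * t * E m (j + 1) s =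
      ∑' k : ℕ, (I * (s : ℂ)) ^ k * (((k + j : ℕ) : ℂ) * (m (k + j - 1) : ℂ)) /
        (k.factorial : ℂ) := by
    rw [E, E, E, ← tsum_mul_left, ← tsum_mul_left, ← tsum_mul_left, ← s5.tsum_sub s3,
      ← (s5.sub s3).tsum_sub s1]
    congr 1
    ext k
    have := h (k + j)
    rw [show k + (j + 5) = k + j + 5 by omega, show k + (j + 3) = k + j + 3 by omega,
      show k + (j + 1) = k + j + 1 by omega]
    have hc : ((6 * m (k + j + 5) - 4 * τ * m (k + j + 3) - 2 * t * m (k + j + 1) : ℝ) : ℂ) =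
        (((k + j : ℕ) * m (k + j - 1) : ℝ) : ℂ) := by rw [this]
    have hc2 : 6 * (m (k + j + 5) : ℂ) - 4 * τ * m (k + j + 3) - 2 * t * m (k + j + 1) =
        ((k + j : ℕ) : ℂ) * (m (k + j - 1) : ℂ) := by
      push_cast at hc ⊢
      exact hc
    rw [← hc2]
    ring
  have t1 : Summable fun k : ℕ => (k : ℂ) * ((I * (s : ℂ)) ^ k * (m (k + j - 1) : ℂ) /
        (k.factorial : ℂ)) := by
    rw [← summable_nat_add_iff 1]
    refine ((summable_E h j s).mul_left (I * s)).congr (fun k => ?_)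
    rw [show k + 1 + j - 1 = k + j by omega, Nat.factorial_succ]
    push_cast
    have h1 : ((k : ℂ) + 1) ≠ 0 := by exact_mod_cast (Nat.succ_ne_zero k)
    have h2 : (k.factorial : ℂ) ≠ 0 := by exact_mod_cast (Nat.factorial_ne_zero k)
    field_simp
    ring
  have t1e : ∑' k : ℕ, (k : ℂ) * ((I * (s : ℂ)) ^ k * (m (k + j - 1) : ℂ) /
        (k.factorial : ℂ)) = I * s * E m j s := by
    rw [t1.tsum_eq_zero_add, E, ← tsum_mul_left]
    simp only [Nat.cast_zero, zero_mul, zero_add]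
    congr 1
    ext k
    rw [show k + 1 + j - 1 = k + j by omega, Nat.factorial_succ]
    push_cast
    have h1 : ((k : ℂ) + 1) ≠ 0 := by exact_mod_cast (Nat.succ_ne_zero k)
    have h2 : (k.factorial : ℂ) ≠ 0 := by exact_mod_cast (Nat.factorial_ne_zero k)
    field_simp
    ring
  rw [e1, ← t1e]
  rcases j with _ | j
  · simp only [Nat.cast_zero, zero_mul, add_zero]
    congr 1
    ext k
    ring
  · have t2 := (summable_E h j s).mul_left ((j + 1 : ℕ) : ℂ)
    rw [Nat.add_sub_cancel, E, ← tsum_mul_left]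
    have e2 : (fun k : ℕ => (I * (s : ℂ)) ^ k * (((k + (j + 1) : ℕ) : ℂ) *
        (m (k + (j + 1) - 1) : ℂ)) / (k.factorial : ℂ)) = fun k : ℕ =>
        (k : ℂ) * ((I * (s : ℂ)) ^ k * (m (k + (j + 1) - 1) : ℂ) / (k.factorial : ℂ)) +
        ((j + 1 : ℕ) : ℂ) * ((I * (s : ℂ)) ^ k * (m (k + j) : ℂ) / (k.factorial : ℂ)) := by
      ext k
      rw [show k + (j + 1) - 1 = k + j by omega]
      push_cast
      ring
    rw [e2]
    exact t1.tsum_add t2

end

end Pool.Agent.Q177.Fr
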