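import Pool.Agent.Q177.FrC

/-! Boundedness of `E m j` from positivity. -/

namespace Pool.Agent.Q177.Fr
open Complex Filter Topology Polynomial

noncomputable section

/-- moments -/
def mo (L : ℝ[X] →ₗ[ℝ] ℝ) (k : ℕ) : ℝ := L (Polynomial.X ^ k)

/-- truncated polynomial with coefficients `c`. -/
def tr (c : ℕ → ℝ) (N : ℕ) : ℝ[X] := ∑ k ∈ Finset.range N, Polynomial.C (c k) * Polynomial.X ^ k

variable {L : ℝ[X] →ₗ[ℝ] ℝ}

theorem L_X_tr (c : ℕ → ℝ) (N j : ℕ) :
    L (Polynomial.X ^ j * tr c N) = ∑ k ∈ Finset.range N, c k * mo L (k + j) := by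
  rw [tr, Finset.mul_sum, map_sum]
  apply Finset.sum_congr rfl
  intro k _
  rw [show (Polynomial.X : ℝ[X]) ^ j * (Polynomial.C (c k) * Polynomial.X ^ k) =
    Polynomial.C (c k) * Polynomial.X ^ (k + j) by ring, L_C_mul, mo]

theorem L_tr_tr (c : ℕ → ℝ) (N : ℕ) :
    L (tr c N * tr c N) = ∑ p ∈ Finset.range N ×ˢ Finset.range N,
      c p.1 * c p.2 * mo L (p.1 + p.2) := by
  rw [tr, Finset.sum_mul_sum, map_sum, Finset.sum_product]
  apply Finset.sum_congr rfl
  intro k _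
  rw [map_sum]
  apply Finset.sum_congr rfl
  intro l _
  rw [show Polynomial.C (c k) * (Polynomial.X : ℝ[X]) ^ k * (Polynomial.C (c l) *
    Polynomial.X ^ l) = Polynomial.C (c k * c l) * Polynomial.X ^ (k + l) by
      rw [Polynomial.C_mul]; ring, L_C_mul, mo]

theorem finite_bound (hpos : ∀ q, 0 ≤ L (q * q)) (c : ℕ → ℂ) (N j : ℕ) :
    ‖∑ k ∈ Finset.range N, c k * (mo L (k + j) : ℂ)‖ ^ 2 ≤
      mo L (2 * j) * (∑ p ∈ Finset.range N ×ˢ Finset.range N,
        c p.1 * (starRingEnd ℂ) (c p.2) * (mo L (p.1 + p.2) : ℂ)).re := by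
  set a : ℕ → ℝ := fun k => (c k).re with ha
  set b : ℕ → ℝ := fun k => (c k).im with hb
  have e1 : (∑ k ∈ Finset.range N, c k * (mo L (k + j) : ℂ)).re = L (Polynomial.X ^ j * tr a N) := by
    rw [L_X_tr, re_sum]
    apply Finset.sum_congr rfl
    intro k _
    simp [ha]
  have e2 : (∑ k ∈ Finset.range N, c k * (mo L (k + j) : ℂ)).im = L (Polynomial.X ^ j * tr b N) := by
    rw [L_X_tr, im_sum]
    apply Finset.sum_congr rfl
    intro k _
    simp [hb]
  have e3 : (∑ p ∈ Finset.range N ×ˢ Finset.range N,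
        c p.1 * (starRingEnd ℂ) (c p.2) * (mo L (p.1 + p.2) : ℂ)).re =
      L (tr a N * tr a N) + L (tr b N * tr b N) := by
    rw [L_tr_tr, L_tr_tr, re_sum, ← Finset.sum_add_distrib]
    apply Finset.sum_congr rfl
    intro p _
    simp [ha, hb]
    ring
  have e4 : mo L (2 * j) = L (Polynomial.X ^ j * Polynomial.X ^ j) := by
    rw [mo, ← pow_add, two_mul]
  rw [← normSq_eq_norm_sq, normSq_apply, e1, e2, e3, e4, mul_add]
  have h1 := L_cs hpos (Polynomial.X ^ j) (tr a N)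
  have h2 := L_cs hpos (Polynomial.X ^ j) (tr b N)
  rw [pow_two] at h1 h2
  exact add_le_add h1 h2

theorem tendsto_range_prod :
    Tendsto (fun N : ℕ => Finset.range N ×ˢ Finset.range N) atTop atTop := by
  apply tendsto_atTop_finset_of_monotone
  · intro a b h
    exact Finset.product_subset_product (Finset.range_mono h) (Finset.range_mono h)
  · rintro ⟨x, y⟩
    refine ⟨x + y + 1, ?_⟩
    simp only [Finset.mem_product, Finset.mem_range]
    omega

theorem conj_term (s : ℝ) (l : ℕ) :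
    (starRingEnd ℂ) ((I * (s : ℂ)) ^ l / (l.factorial : ℂ)) =
      (-(I * (s : ℂ))) ^ l / (l.factorial : ℂ) := by
  simp [map_div₀, map_pow]

theorem binomial_antidiag (x y : ℂ) (n : ℕ) :
    ∑ p ∈ Finset.HasAntidiagonal.antidiagonal n, x ^ p.1 / (p.1.factorial : ℂ) * (y ^ p.2 / (p.2.factorial : ℂ)) =
      (x + y) ^ n / (n.factorial : ℂ) := by
  rw [(Commute.all x y).add_pow', Finset.sum_div]
  apply Finset.sum_congr rfl
  rintro ⟨i, j⟩ hij
  rw [Finset.HasAntidiagonal.mem_antidiagonal] at hij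
  simp only at hij ⊢
  subst hij
  have h1 : (i.factorial : ℂ) ≠ 0 := by exact_mod_cast (Nat.factorial_ne_zero i)
  have h2 : (j.factorial : ℂ) ≠ 0 := by exact_mod_cast (Nat.factorial_ne_zero j)
  have h3 : ((i + j).factorial : ℂ) ≠ 0 := by exact_mod_cast (Nat.factorial_ne_zero (i + j))
  have h4 : (((i + j).choose i : ℕ) : ℂ) * (i.factorial : ℂ) * (j.factorial : ℂ) =
      ((i + j).factorial : ℂ) := by
    rw [Nat.choose_symm_add]
    exact_mod_cast Nat.add_choose_mul_factorial_mul_factorial i j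
  rw [nsmul_eq_mul, ← h4]
  have h5 : (((i + j).choose i : ℕ) : ℂ) ≠ 0 := by
    intro h
    rw [h] at h4
    apply h3
    rw [← h4]
    ring
  field_simp

/-- The double series. -/
def dbl (m : ℕ → ℝ) (s : ℝ) (p : ℕ × ℕ) : ℂ :=
  ((I * (s : ℂ)) ^ p.1 / (p.1.factorial : ℂ)) *
    (starRingEnd ℂ) ((I * (s : ℂ)) ^ p.2 / (p.2.factorial : ℂ)) * (m (p.1 + p.2) : ℂ)

theorem norm_dbl (m : ℕ → ℝ) (s : ℝ) (p : ℕ × ℕ) :
    ‖dbl m s p‖ = |s| ^ p.1 / (p.1.factorial : ℝ) * (|s| ^ p.2 / (p.2.factorial : ℝ)) *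
      |m (p.1 + p.2)| := by
  rw [dbl, norm_mul, norm_mul, RCLike.norm_conj]
  simp [norm_pow]

theorem binomial_antidiag_real (x y : ℝ) (n : ℕ) :
    ∑ p ∈ Finset.HasAntidiagonal.antidiagonal n, x ^ p.1 / (p.1.factorial : ℝ) * (y ^ p.2 / (p.2.factorial : ℝ)) =
      (x + y) ^ n / (n.factorial : ℝ) := by
  have := binomial_antidiag x y n
  exact_mod_cast this

theorem summable_dbl {τ t : ℝ} {m : ℕ → ℝ} (h : Rec τ t m) (s : ℝ) : Summable (dbl m s) := by
  apply Summable.of_norm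
  rw [← (Finset.HasAntidiagonal.sigmaAntidiagonalEquivProd (A := ℕ)).summable_iff]
  change Summable (fun x : (Σ n : ℕ, Finset.HasAntidiagonal.antidiagonal n) =>
    ‖dbl m s (Finset.HasAntidiagonal.sigmaAntidiagonalEquivProd x)‖)
  rw [summable_sigma_of_nonneg (fun _ => norm_nonneg _)]
  refine ⟨fun n => Summable.of_finite, ?_⟩
  have := summable_moments h (|s| + |s|) (by positivity) 0
  refine this.congr (fun n => ?_)
  rw [tsum_fintype]
  rw [Finset.univ_eq_attach]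
  simp only [Finset.HasAntidiagonal.sigmaAntidiagonalEquivProd_apply, norm_dbl]
  have e : ∀ p ∈ (Finset.HasAntidiagonal.antidiagonal n).attach,
      |s| ^ p.1.1 / (p.1.1.factorial : ℝ) * (|s| ^ p.1.2 / (p.1.2.factorial : ℝ)) *
      |m (p.1.1 + p.1.2)| = |s| ^ p.1.1 / (p.1.1.factorial : ℝ) *
        (|s| ^ p.1.2 / (p.1.2.factorial : ℝ)) * |m n| := by
    rintro ⟨p, hp⟩ _
    rw [Finset.HasAntidiagonal.mem_antidiagonal] at hp
    simp only
    rw [hp]
  rw [Finset.sum_congr rfl e, ← Finset.sum_mul,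
    Finset.sum_attach (Finset.HasAntidiagonal.antidiagonal n) (fun p : ℕ × ℕ => |s| ^ p.1 / (p.1.factorial : ℝ) *
        (|s| ^ p.2 / (p.2.factorial : ℝ))), binomial_antidiag_real]
  rw [add_zero]
  ring

theorem tsum_dbl {τ t : ℝ} {m : ℕ → ℝ} (h : Rec τ t m) (s : ℝ) :
    ∑' p, dbl m s p = m 0 := by
  have hs := summable_dbl h s
  rw [← (Finset.HasAntidiagonal.sigmaAntidiagonalEquivProd (A := ℕ)).tsum_eq]
  have hs' : Summable fun x => dbl m s (Finset.HasAntidiagonal.sigmaAntidiagonalEquivProd (A := ℕ) x) :=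
    (Finset.HasAntidiagonal.sigmaAntidiagonalEquivProd (A := ℕ)).summable_iff.mpr hs
  rw [hs'.tsum_sigma' (fun n => Summable.of_finite)]
  have e : ∀ n : ℕ, ∑' (c : Finset.HasAntidiagonal.antidiagonal n),
      dbl m s (Finset.HasAntidiagonal.sigmaAntidiagonalEquivProd (A := ℕ) ⟨n, c⟩) =
      (I * (s : ℂ) + -(I * (s : ℂ))) ^ n / (n.factorial : ℂ) * (m n : ℂ) := by
    intro n
    rw [tsum_fintype, Finset.univ_eq_attach]
    simp only [Finset.HasAntidiagonal.sigmaAntidiagonalEquivProd_apply, dbl, conj_term]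
    have e : ∀ p ∈ (Finset.HasAntidiagonal.antidiagonal n).attach,
        (I * (s : ℂ)) ^ p.1.1 / (p.1.1.factorial : ℂ) * ((-(I * (s : ℂ))) ^ p.1.2 /
          (p.1.2.factorial : ℂ)) * (m (p.1.1 + p.1.2) : ℂ) =
        (I * (s : ℂ)) ^ p.1.1 / (p.1.1.factorial : ℂ) * ((-(I * (s : ℂ))) ^ p.1.2 /
          (p.1.2.factorial : ℂ)) * (m n : ℂ) := by
      rintro ⟨p, hp⟩ _
      rw [Finset.HasAntidiagonal.mem_antidiagonal] at hp
      simp only
      rw [hp]
    rw [Finset.sum_congr rfl e, ← Finset.sum_mul,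
      Finset.sum_attach (Finset.HasAntidiagonal.antidiagonal n) (fun p : ℕ × ℕ => (I * (s : ℂ)) ^ p.1 /
        (p.1.factorial : ℂ) * ((-(I * (s : ℂ))) ^ p.2 / (p.2.factorial : ℂ))),
      binomial_antidiag]
  simp_rw [e]
  rw [tsum_eq_single 0]
  · simp
  · intro n hn
    simp [hn]

theorem E_bound {τ t : ℝ} (hpos : ∀ q, 0 ≤ L (q * q)) (h : Rec τ t (mo L)) (j : ℕ) (s : ℝ) :
    ‖E (mo L) j s‖ ^ 2 ≤ mo L (2 * j) * mo L 0 := by
  have h1 : Tendsto (fun N : ℕ => ∑ k ∈ Finset.range N, (I * (s : ℂ)) ^ k *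
      (mo L (k + j) : ℂ) / (k.factorial : ℂ)) atTop (𝓝 (E (mo L) j s)) :=
    (summable_E h j s).hasSum.tendsto_sum_nat
  have h2 : Tendsto (fun N : ℕ => ∑ p ∈ Finset.range N ×ˢ Finset.range N, dbl (mo L) s p) atTop
      (𝓝 (mo L 0 : ℂ)) := by
    rw [← tsum_dbl h s]
    exact (summable_dbl h s).hasSum.comp tendsto_range_prod
  have h3 := (h1.norm).pow 2
  have h4 : Tendsto (fun N : ℕ => mo L (2 * j) *
      (∑ p ∈ Finset.range N ×ˢ Finset.range N, dbl (mo L) s p).re) atTop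
      (𝓝 (mo L (2 * j) * mo L 0)) := by
    have := (Complex.continuous_re.tendsto _).comp h2
    rw [Complex.ofReal_re] at this
    exact this.const_mul _
  refine le_of_tendsto_of_tendsto' h3 h4 (fun N => ?_)
  have := finite_bound hpos (fun k => (I * (s : ℂ)) ^ k / (k.factorial : ℂ)) N j
  refine le_trans (le_of_eq ?_) this
  congr 2
  apply Finset.sum_congr rfl
  intro k _
  ring

end

end Pool.Agent.Q177.Fr
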