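import Pool.Agent.Q177.FrB

/-! The sextic Freud weight and its functional. -/

namespace Pool.Agent.Q177.Fr
open MeasureTheory Polynomial

noncomputable section

/-- The sextic Freud weight. -/
def wt (τ t x : ℝ) : ℝ := Real.exp (-x ^ 6 + τ * x ^ 4 + t * x ^ 2)

theorem wt_pos (τ t x : ℝ) : 0 < wt τ t x := Real.exp_pos _

theorem wt_bound (τ t : ℝ) : ∃ K : ℝ, ∀ x : ℝ, wt τ t x ≤ K * Real.exp (-1 * x ^ 2) := by
  set A : ℝ := |τ| + |t| + 1 with hA
  have hτ := abs_nonneg τ
  have ht := abs_nonneg t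
  refine ⟨Real.exp (|τ| * A ^ 2 + (|t| + 1) * A), fun x => ?_⟩
  rw [wt, ← Real.exp_add, Real.exp_le_exp]
  set y : ℝ := x ^ 2 with hy
  have hy0 : 0 ≤ y := sq_nonneg x
  have e1 : x ^ 6 = y ^ 3 := by rw [hy]; ring
  have e2 : x ^ 4 = y ^ 2 := by rw [hy]; ring
  rw [e1, e2]
  have h1 : τ * y ^ 2 ≤ |τ| * y ^ 2 := by gcongr; exact le_abs_self τ
  have h2 : t * y ≤ |t| * y := by gcongr; exact le_abs_self t
  have hA1 : 1 ≤ A := by linarith
  rcases le_or_gt A y with h | h
  · have h3 : A * y ^ 2 ≤ y ^ 3 := by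
      have : y ^ 3 = y * y ^ 2 := by ring
      rw [this]; gcongr
    have h4 : y ≤ y ^ 2 := by nlinarith
    have h5 : (|t| + 1) * y ≤ (|t| + 1) * y ^ 2 := by gcongr
    have h6 : A * y ^ 2 = |τ| * y ^ 2 + (|t| + 1) * y ^ 2 := by rw [hA]; ring
    have h7 : 0 ≤ |τ| * A ^ 2 + (|t| + 1) * A := by positivity
    nlinarith
  · have h3 : |τ| * y ^ 2 ≤ |τ| * A ^ 2 := by gcongr
    have h4 : (|t| + 1) * y ≤ (|t| + 1) * A := by gcongr
    have h5 : 0 ≤ y ^ 3 := by positivity
    nlinarith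

theorem continuous_wt (τ t : ℝ) : Continuous (wt τ t) := by
  unfold wt
  fun_prop

theorem integrable_pow_wt (τ t : ℝ) (k : ℕ) : Integrable (fun x : ℝ => x ^ k * wt τ t x) := by
  obtain ⟨K, hK⟩ := wt_bound τ t
  have hg : Integrable (fun x : ℝ => x ^ (k : ℝ) * Real.exp (-1 * x ^ 2)) :=
    integrable_rpow_mul_exp_neg_mul_sq (by norm_num) (by
      have : (0 : ℝ) ≤ k := Nat.cast_nonneg k
      linarith)
  have hg' : Integrable (fun x : ℝ => K * ‖x ^ (k : ℝ) * Real.exp (-1 * x ^ 2)‖) :=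
    hg.norm.const_mul K
  refine hg'.mono' ?_ (Filter.Eventually.of_forall fun x => ?_)
  · exact ((continuous_pow k).mul (continuous_wt τ t)).aestronglyMeasurable
  · rw [norm_mul, norm_mul, Real.rpow_natCast, Real.norm_of_nonneg (wt_pos τ t x).le,
      Real.norm_of_nonneg (Real.exp_pos _).le]
    calc ‖x ^ k‖ * wt τ t x ≤ ‖x ^ k‖ * (K * Real.exp (-1 * x ^ 2)) := by
          gcongr
          exact hK x
      _ = K * (‖x ^ k‖ * Real.exp (-1 * x ^ 2)) := by ring

theorem integrable_poly_wt (τ t : ℝ) (q : ℝ[X]) : Integrable (fun x : ℝ => q.eval x * wt τ t x) := by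
  induction q using Polynomial.induction_on' with
  | add p q hp hq =>
    refine (hp.add hq).congr (Filter.Eventually.of_forall fun x => ?_)
    simp only [Pi.add_apply, eval_add]
    ring
  | monomial n a =>
    refine ((integrable_pow_wt τ t n).const_mul a).congr (Filter.Eventually.of_forall fun x => ?_)
    simp only [eval_monomial]
    ring

/-- The functional of the weight. -/
def L0 (τ t : ℝ) : ℝ[X] →ₗ[ℝ] ℝ where
  toFun q := ∫ x : ℝ, q.eval x * wt τ t x
  map_add' p q := by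
    rw [← integral_add (integrable_poly_wt τ t p) (integrable_poly_wt τ t q)]
    congr 1
    ext x
    rw [eval_add]
    ring
  map_smul' c p := by
    rw [RingHom.id_apply, smul_eq_mul, ← integral_const_mul]
    congr 1
    ext x
    rw [eval_smul, smul_eq_mul]
    ring

theorem L0_apply (τ t : ℝ) (q : ℝ[X]) : L0 τ t q = ∫ x : ℝ, q.eval x * wt τ t x := rfl

theorem L0_X_pow (τ t : ℝ) (k : ℕ) : L0 τ t (X ^ k) = ∫ x : ℝ, x ^ k * wt τ t x := by
  rw [L0_apply]
  simp

theorem L0_sq_pos (τ t : ℝ) {q : ℝ[X]} (hq : q ≠ 0) : 0 < L0 τ t (q * q) := by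
  rw [L0_apply, integral_pos_iff_support_of_nonneg]
  · apply IsOpen.measure_pos
    · apply Continuous.isOpen_support
      exact (q * q).continuous.mul (continuous_wt τ t)
    · obtain ⟨x, hx⟩ : ∃ x : ℝ, q.eval x ≠ 0 := by
        by_contra h
        push Not at h
        exact hq (Polynomial.funext (fun x => by rw [h x, eval_zero]))
      refine ⟨x, ?_⟩
      rw [Function.mem_support, eval_mul]
      exact mul_ne_zero (mul_ne_zero hx hx) (wt_pos τ t x).ne'
  · intro x
    simp only [Pi.zero_apply, eval_mul]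
    exact mul_nonneg (mul_self_nonneg _) (wt_pos τ t x).le
  · exact integrable_poly_wt τ t _

theorem L0_one_pos (τ t : ℝ) : 0 < L0 τ t 1 := by
  have := L0_sq_pos τ t (one_ne_zero (α := ℝ[X]))
  rwa [mul_one] at this

theorem L0_comp_neg (τ t : ℝ) (q : ℝ[X]) : L0 τ t (q.comp (-X)) = L0 τ t q := by
  rw [L0_apply, L0_apply, ← integral_neg_eq_self (fun x : ℝ => q.eval x * wt τ t x)]
  congr 1
  ext x
  rw [eval_comp, eval_neg, eval_X]
  have : wt τ t (-x) = wt τ t x := by
    unfold wt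
    congr 1
    ring
  rw [this]

theorem L0_pearson (τ t : ℝ) (q : ℝ[X]) : L0 τ t (derivative q) = L0 τ t (V' τ t * q) := by
  have hd : ∀ x : ℝ, HasDerivAt (fun x : ℝ => q.eval x * wt τ t x)
      ((derivative q - V' τ t * q).eval x * wt τ t x) x := by
    intro x
    have h1 := q.hasDerivAt x
    have h2 : HasDerivAt (fun x : ℝ => -x ^ 6 + τ * x ^ 4 + t * x ^ 2)
        (-(6 * x ^ 5) + τ * (4 * x ^ 3) + t * (2 * x)) x := by
      have a6 : HasDerivAt (fun x : ℝ => x ^ 6) (6 * x ^ 5) x := by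
        simpa using hasDerivAt_pow 6 x
      have a4 : HasDerivAt (fun x : ℝ => x ^ 4) (4 * x ^ 3) x := by
        simpa using hasDerivAt_pow 4 x
      have a2 : HasDerivAt (fun x : ℝ => x ^ 2) (2 * x) x := by
        simpa using hasDerivAt_pow 2 x
      exact (a6.neg.add (a4.const_mul τ)).add (a2.const_mul t)
    have h3 := h1.mul h2.exp
    refine h3.congr_deriv ?_
    simp only [wt, V', eval_sub, eval_mul, eval_C, eval_pow, eval_X]
    ring
  have h := integral_eq_zero_of_hasDerivAt_of_integrable hd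
    (integrable_poly_wt τ t _) (integrable_poly_wt τ t q)
  have h' : L0 τ t (derivative q - V' τ t * q) = 0 := h
  rw [map_sub] at h'
  linarith

end

end Pool.Agent.Q177.Fr
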