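import Pool.Agent.Q177.FrD
import Pool.Agent.Q177.FrE

/-! The Fourier argument: moments of a bounded solution are those of the weight. -/

namespace Pool.Agent.Q177.Fr
open Complex Filter Topology MeasureTheory FourierTransform

noncomputable section

variable {L : Polynomial ℝ →ₗ[ℝ] ℝ} {τ t : ℝ}

theorem pow_E_bound (hpos : ∀ q, 0 ≤ L (q * q)) (h : Rec τ t (mo L)) (p : ℕ) :
    ∀ j, ∃ K, ∀ s : ℝ, ‖(s : ℂ) ^ p * E (mo L) j s‖ ≤ K := by
  induction p with
  | zero =>
    intro j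
    refine ⟨Real.sqrt (mo L (2 * j) * mo L 0), fun s => ?_⟩
    rw [pow_zero, one_mul]
    exact Real.le_sqrt_of_sq_le (E_bound hpos h j s)
  | succ p ih =>
    intro j
    obtain ⟨K5, h5⟩ := ih (j + 5)
    obtain ⟨K3, h3⟩ := ih (j + 3)
    obtain ⟨K1, h1⟩ := ih (j + 1)
    obtain ⟨K0, h0⟩ := ih (j - 1)
    refine ⟨6 * K5 + ‖(4 * τ : ℂ)‖ * K3 + ‖(2 * t : ℂ)‖ * K1 + ‖(j : ℂ)‖ * K0, fun s => ?_⟩
    have e : I * ((s : ℂ) ^ (p + 1) * E (mo L) j s) =
        6 * ((s : ℂ) ^ p * E (mo L) (j + 5) s) - (4 * τ) * ((s : ℂ) ^ p * E (mo L) (j + 3) s)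
          - (2 * t) * ((s : ℂ) ^ p * E (mo L) (j + 1) s)
          - j * ((s : ℂ) ^ p * E (mo L) (j - 1) s) := by
      have := E_ode h j s
      have e2 : I * ((s : ℂ) ^ (p + 1) * E (mo L) j s) =
        (s : ℂ) ^ p * (I * s * E (mo L) j s + j * E (mo L) (j - 1) s) -
          (s : ℂ) ^ p * (j * E (mo L) (j - 1) s) := by ring
      rw [e2, ← this]
      ring
    have e3 : ‖(s : ℂ) ^ (p + 1) * E (mo L) j s‖ = ‖I * ((s : ℂ) ^ (p + 1) * E (mo L) j s)‖ := by
      rw [norm_mul I, Complex.norm_I, one_mul]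
    rw [e3, e]
    calc _ ≤ ‖6 * ((s : ℂ) ^ p * E (mo L) (j + 5) s)‖ +
          ‖(4 * τ) * ((s : ℂ) ^ p * E (mo L) (j + 3) s)‖ +
          ‖(2 * t) * ((s : ℂ) ^ p * E (mo L) (j + 1) s)‖ +
          ‖j * ((s : ℂ) ^ p * E (mo L) (j - 1) s)‖ := by
          refine (norm_sub_le _ _).trans (add_le_add ?_ le_rfl)
          refine (norm_sub_le _ _).trans (add_le_add ?_ le_rfl)
          exact norm_sub_le _ _
      _ ≤ _ := by
          rw [norm_mul 6, norm_mul (4 * (τ : ℂ)), norm_mul (2 * (t : ℂ)), norm_mul (j : ℂ)]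
          have n6 : ‖(6 : ℂ)‖ = 6 := by norm_num
          rw [n6]
          gcongr
          · exact h5 s
          · exact h3 s
          · exact h1 s
          · exact h0 s

theorem continuous_E (h : Rec τ t (mo L)) (j : ℕ) : Continuous (E (mo L) j) :=
  continuous_iff_continuousAt.mpr fun s => (hasDerivAt_E h j s).continuousAt

theorem integrable_pow_E (hpos : ∀ q, 0 ≤ L (q * q)) (h : Rec τ t (mo L)) (p j : ℕ) :
    Integrable (fun s : ℝ => (s : ℂ) ^ p * E (mo L) j s) := by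
  obtain ⟨K0, h0⟩ := pow_E_bound hpos h p j
  obtain ⟨K2, h2⟩ := pow_E_bound hpos h (p + 2) j
  have hi : Integrable (fun s : ℝ => (K0 + K2) * (1 + s ^ 2)⁻¹) :=
    integrable_inv_one_add_sq.const_mul _
  refine hi.mono' ?_ (Eventually.of_forall fun s => ?_)
  · apply Continuous.aestronglyMeasurable
    exact (Complex.continuous_ofReal.pow p).mul (continuous_E h j)
  · have hs : (0 : ℝ) < 1 + s ^ 2 := by positivity
    rw [← div_eq_mul_inv, le_div_iff₀ hs]
    have e : ‖(s : ℂ) ^ (p + 2) * E (mo L) j s‖ = ‖(s : ℂ) ^ p * E (mo L) j s‖ * s ^ 2 := by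
      rw [pow_add, mul_right_comm, norm_mul, norm_pow _ 2, Complex.norm_real, Real.norm_eq_abs,
        sq_abs]
    have b2 := h2 s
    rw [e] at b2
    have b0 := h0 s
    nlinarith

/-- rescaled function -/
def G (m : ℕ → ℝ) (j : ℕ) (v : ℝ) : ℂ := E m j (2 * Real.pi * v)

theorem two_pi_ne : (2 * Real.pi : ℝ) ≠ 0 := by positivity

theorem integrable_G (hpos : ∀ q, 0 ≤ L (q * q)) (h : Rec τ t (mo L)) (j : ℕ) :
    Integrable (G (mo L) j) := by
  have := (integrable_pow_E hpos h 0 j).comp_mul_left' two_pi_ne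
  refine this.congr (Eventually.of_forall fun v => ?_)
  simp [G]

theorem integrable_mul_G (hpos : ∀ q, 0 ≤ L (q * q)) (h : Rec τ t (mo L)) (j : ℕ) :
    Integrable (fun v : ℝ => v • G (mo L) j v) := by
  have := ((integrable_pow_E hpos h 1 j).comp_mul_left' two_pi_ne).const_mul
    ((2 * Real.pi : ℝ) : ℂ)⁻¹
  refine this.congr (Eventually.of_forall fun v => ?_)
  have h2 : ((2 * Real.pi : ℝ) : ℂ) ≠ 0 := by exact_mod_cast two_pi_ne
  simp only [G, pow_one, Complex.real_smul, Complex.ofReal_mul (2 * Real.pi) v]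
  rw [← mul_assoc, ← mul_assoc, inv_mul_cancel₀ h2, one_mul]

theorem hasDerivAt_G (h : Rec τ t (mo L)) (j : ℕ) (v : ℝ) :
    HasDerivAt (G (mo L) j) ((2 * Real.pi * I) * G (mo L) (j + 1) v) v := by
  have h1 : HasDerivAt (fun v : ℝ => 2 * Real.pi * v) (2 * Real.pi) v := by
    simpa using (hasDerivAt_id v).const_mul (2 * Real.pi)
  have h2 := (hasDerivAt_E h j (2 * Real.pi * v)).scomp v h1
  refine h2.congr_deriv ?_
  rw [G, Complex.real_smul]
  push_cast
  ring

theorem fourier_G_succ (hpos : ∀ q, 0 ≤ L (q * q)) (h : Rec τ t (mo L)) (j : ℕ) (w : ℝ) :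
    𝓕 (G (mo L) (j + 1)) w = w * 𝓕 (G (mo L) j) w := by
  have hd : deriv (G (mo L) j) = fun v => (2 * Real.pi * I) * G (mo L) (j + 1) v :=
    funext fun v => (hasDerivAt_G h j v).deriv
  have hdi : Integrable (deriv (G (mo L) j)) := by
    rw [hd]
    exact (integrable_G hpos h (j + 1)).const_mul _
  have key := congrFun (Real.fourier_deriv (integrable_G hpos h j)
    (fun v => (hasDerivAt_G h j v).differentiableAt) hdi) w
  have e : 𝓕 (deriv (G (mo L) j)) w = (2 * Real.pi * I) * 𝓕 (G (mo L) (j + 1)) w := by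
    rw [hd, Real.fourier_eq, Real.fourier_eq, ← integral_const_mul]
    congr 1
    ext v
    rw [Circle.smul_def, Circle.smul_def, smul_eq_mul, smul_eq_mul]
    ring
  rw [e, smul_eq_mul] at key
  have h2 : (2 * Real.pi * I : ℂ) ≠ 0 := by
    simp [Real.pi_ne_zero]
  apply mul_left_cancel₀ h2
  rw [key]
  ring

theorem fourier_G (hpos : ∀ q, 0 ≤ L (q * q)) (h : Rec τ t (mo L)) (j : ℕ) (w : ℝ) :
    𝓕 (G (mo L) j) w = (w : ℂ) ^ j * 𝓕 (G (mo L) 0) w := by
  induction j with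
  | zero => simp
  | succ j ih =>
    rw [fourier_G_succ hpos h, ih]
    ring

theorem fourier_G_deriv (hpos : ∀ q, 0 ≤ L (q * q)) (h : Rec τ t (mo L)) (w : ℝ) :
    HasDerivAt (𝓕 (G (mo L) 0))
      (-((6 * w ^ 5 - 4 * τ * w ^ 3 - 2 * t * w : ℝ) : ℂ) * 𝓕 (G (mo L) 0) w) w := by
  have key := Real.hasDerivAt_fourier (integrable_G hpos h 0) (integrable_mul_G hpos h 0) w
  refine key.congr_deriv ?_
  have i5 := integrable_G hpos h 5
  have i3 := integrable_G hpos h 3
  have i1 := integrable_G hpos h 1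
  have e : (fun x : ℝ => (-2 * Real.pi * I * x : ℂ) • G (mo L) 0 x) = fun x =>
      (-6 : ℂ) • G (mo L) 5 x + (4 * τ : ℂ) • G (mo L) 3 x + (2 * t : ℂ) • G (mo L) 1 x := by
    ext x
    have := E_ode h 0 (2 * Real.pi * x)
    simp only [zero_add, Nat.cast_zero, zero_mul, add_zero] at this
    simp only [smul_eq_mul, G]
    push_cast at this
    linear_combination this
  rw [e]
  have f5 := fourier_G hpos h 5 w
  have f3 := fourier_G hpos h 3 w
  have f1 := fourier_G hpos h 1 w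
  rw [Real.fourier_eq] at f5 f3 f1
  rw [Real.fourier_eq]
  have g5 := ((Real.fourierIntegral_convergent_iff w).2 i5).const_mul (-6 : ℂ)
  have g3 := ((Real.fourierIntegral_convergent_iff w).2 i3).const_mul (4 * τ : ℂ)
  have g1 := ((Real.fourierIntegral_convergent_iff w).2 i1).const_mul (2 * t : ℂ)
  have e2 : (fun v : ℝ => Real.fourierChar (-(inner ℝ v w)) • ((-6 : ℂ) • G (mo L) 5 v +
      (4 * τ : ℂ) • G (mo L) 3 v + (2 * t : ℂ) • G (mo L) 1 v)) = fun v =>
      ((-6 : ℂ) * (Real.fourierChar (-(inner ℝ v w)) • G (mo L) 5 v) +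
      (4 * τ : ℂ) * (Real.fourierChar (-(inner ℝ v w)) • G (mo L) 3 v)) +
      (2 * t : ℂ) * (Real.fourierChar (-(inner ℝ v w)) • G (mo L) 1 v) := by
    funext v
    simp only [Circle.smul_def, smul_eq_mul]
    ring
  have g53 : Integrable (fun v : ℝ => (-6 : ℂ) * (Real.fourierChar (-(inner ℝ v w)) •
      G (mo L) 5 v) + (4 * τ : ℂ) * (Real.fourierChar (-(inner ℝ v w)) • G (mo L) 3 v)) :=
    g5.add g3
  rw [e2, integral_add g53 g1, integral_add g5 g3, integral_const_mul,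
    integral_const_mul, integral_const_mul, f5, f3, f1]
  push_cast
  ring

theorem fourier_G_eq (hpos : ∀ q, 0 ≤ L (q * q)) (h : Rec τ t (mo L)) (w : ℝ) :
    𝓕 (G (mo L) 0) w = 𝓕 (G (mo L) 0) 0 * (wt τ t w : ℂ) := by
  set V : ℝ → ℝ := fun w => w ^ 6 - τ * w ^ 4 - t * w ^ 2 with hV
  set Φ : ℝ → ℂ := fun w => 𝓕 (G (mo L) 0) w * ((Real.exp (V w) : ℝ) : ℂ) with hΦ
  have hd : ∀ w, HasDerivAt Φ 0 w := by
    intro w
    have h1 := fourier_G_deriv hpos h w
    have a6 : HasDerivAt (fun x : ℝ => x ^ 6) (6 * w ^ 5) w := by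
      simpa using hasDerivAt_pow 6 w
    have a4 : HasDerivAt (fun x : ℝ => x ^ 4) (4 * w ^ 3) w := by
      simpa using hasDerivAt_pow 4 w
    have a2 : HasDerivAt (fun x : ℝ => x ^ 2) (2 * w) w := by
      simpa using hasDerivAt_pow 2 w
    have h2 : HasDerivAt V (6 * w ^ 5 - τ * (4 * w ^ 3) - t * (2 * w)) w :=
      (a6.sub (a4.const_mul τ)).sub (a2.const_mul t)
    have h3 := h1.mul (h2.exp.ofReal_comp)
    refine h3.congr_deriv ?_
    push_cast
    ring
  have hc : Φ w = Φ 0 :=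
    is_const_of_deriv_eq_zero (fun w => (hd w).differentiableAt) (fun w => (hd w).deriv) w 0
  have h0 : Φ 0 = 𝓕 (G (mo L) 0) 0 := by
    simp [hΦ, hV]
  have h1 : 𝓕 (G (mo L) 0) w = Φ w * (wt τ t w : ℂ) := by
    simp only [hΦ, mul_assoc]
    rw [← Complex.ofReal_mul, wt, ← Real.exp_add]
    have : V w + (-w ^ 6 + τ * w ^ 4 + t * w ^ 2) = 0 := by
      simp only [hV]; ring
    rw [this]
    simp
  rw [h1, hc, h0]

/-- The main uniqueness statement for functionals. -/
theorem moments_eq (hpos : ∀ q, 0 ≤ L (q * q)) (h : Rec τ t (mo L)) :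
    ∃ c : ℝ, ∀ j, mo L j = c * ∫ x : ℝ, x ^ j * wt τ t x := by
  set U : ℂ := 𝓕 (G (mo L) 0) 0 with hU
  refine ⟨U.re, fun j => ?_⟩
  have hG : 𝓕 (G (mo L) j) = fun w => U * ((w ^ j * wt τ t w : ℝ) : ℂ) := by
    funext w
    rw [fourier_G hpos h, fourier_G_eq hpos h w]
    push_cast
    ring
  have hint : Integrable (𝓕 (G (mo L) j)) := by
    rw [hG]
    exact (integrable_pow_wt τ t j).ofReal.const_mul U
  have hcont : Continuous (G (mo L) j) :=
    continuous_iff_continuousAt.mpr fun s => (hasDerivAt_G h j s).continuousAt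
  have key := congrFun (hcont.fourierInv_fourier_eq (integrable_G hpos h j) hint) 0
  rw [Real.fourierInv_eq, hG] at key
  have e : (fun v : ℝ => Real.fourierChar (inner ℝ v (0 : ℝ)) •
      (fun w : ℝ => U * ((w ^ j * wt τ t w : ℝ) : ℂ)) v) = fun v =>
      U * ((v ^ j * wt τ t v : ℝ) : ℂ) := by
    funext v
    simp
  rw [e, integral_const_mul, integral_complex_ofReal] at key
  have e2 : G (mo L) j 0 = mo L j := by
    rw [G, mul_zero, E_zero]
  rw [e2] at key
  have := congrArg Complex.re key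
  rw [Complex.ofReal_re, Complex.mul_re, Complex.ofReal_re, Complex.ofReal_im] at this
  rw [← this]
  ring

end

end Pool.Agent.Q177.Fr
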