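import Pool.Agent.Q177.FrF

/-! Existence and the final uniqueness theorem. -/

namespace Pool.Agent.Q177.Fr
open Polynomial MeasureTheory

noncomputable section

/-- Consecutive orthogonal polynomials of the weight. -/
def Q (τ t : ℝ) : ℕ → ℝ[X] × ℝ[X]
  | 0 => (1, X)
  | (n + 1) => ((Q τ t n).2, X * (Q τ t n).2 -
      C (L0 τ t ((Q τ t n).2 * (Q τ t n).2) / L0 τ t ((Q τ t n).1 * (Q τ t n).1)) * (Q τ t n).1)

/-- The recurrence coefficients of the weight. -/
def be (τ t : ℝ) : ℕ → ℝ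
  | 0 => 0
  | (n + 1) => L0 τ t ((Q τ t n).2 * (Q τ t n).2) / L0 τ t ((Q τ t n).1 * (Q τ t n).1)

variable (τ t : ℝ)

theorem P_be (n : ℕ) : P (be τ t) n = (Q τ t n).1 ∧ P (be τ t) (n + 1) = (Q τ t n).2 := by
  induction n with
  | zero => simp [P, Q]
  | succ n ih =>
    refine ⟨ih.2, ?_⟩
    rw [show n + 1 + 1 = n + 2 from rfl, P, ih.1, ih.2, Q, be]

theorem be_succ (n : ℕ) : be τ t (n + 1) =
    L0 τ t (P (be τ t) (n + 1) * P (be τ t) (n + 1)) /
      L0 τ t (P (be τ t) n * P (be τ t) n) := by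
  rw [be, (P_be τ t n).1, (P_be τ t n).2]

theorem be_pos (n : ℕ) : 0 < be τ t (n + 1) := by
  rw [be_succ]
  exact div_pos (L0_sq_pos τ t (P_monic _ _).ne_zero) (L0_sq_pos τ t (P_monic _ _).ne_zero)

theorem L0_parity (b : ℕ → ℝ) (i n : ℕ) (h : Odd (i + n)) : L0 τ t (X ^ i * P b n) = 0 := by
  have h1 := L0_comp_neg τ t (X ^ i * P b n)
  rw [mul_comp, X_pow_comp, (P_comp_neg b n).1] at h1
  have e : (-X : ℝ[X]) ^ i * (C ((-1) ^ n) * P b n) = C ((-1) ^ (i + n)) * (X ^ i * P b n) := by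
    rw [neg_pow, pow_add]
    simp only [C_mul, C_pow, C_neg, C_1]
    ring
  rw [e, L_C_mul, h.neg_one_pow] at h1
  linarith

theorem L_sq_of_orth {L : ℝ[X] →ₗ[ℝ] ℝ} (b : ℕ → ℝ) (k : ℕ)
    (h : ∀ j < k, L (X ^ j * P b k) = 0) : L (P b k * P b k) = L (X ^ k * P b k) := by
  have hd : (P b k - X ^ k).degree < (k : WithBot ℕ) := by
    have := degree_sub_lt_left (p := P b k) (q := X ^ k)
      (by rw [P_degree, degree_X_pow]) (P_monic b k).ne_zero
      (by rw [(P_monic b k).leadingCoeff, leadingCoeff_X_pow])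
    rwa [P_degree] at this
  have h0 : L ((P b k - X ^ k) * P b k) = 0 := by
    set q := P b k - X ^ k with hq
    by_cases hz : q = 0
    · simp [hz]
    have hn : q.natDegree < k := by
      rw [degree_eq_natDegree hz] at hd
      exact_mod_cast hd
    rw [q.as_sum_range_C_mul_X_pow, Finset.sum_mul, map_sum]
    apply Finset.sum_eq_zero
    intro i hi
    rw [Finset.mem_range] at hi
    rw [mul_assoc, L_C_mul, h i (by omega), mul_zero]
  rw [sub_mul, map_sub] at h0
  linarith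

theorem be_orth (n : ℕ) : (∀ j < n, L0 τ t (X ^ j * P (be τ t) n) = 0) ∧
    (∀ j < n + 1, L0 τ t (X ^ j * P (be τ t) (n + 1)) = 0) := by
  induction n with
  | zero =>
    refine ⟨fun j hj => absurd hj (Nat.not_lt_zero j), fun j hj => ?_⟩
    exact L0_parity τ t _ _ _ (by
      have : j = 0 := by omega
      subst this
      exact odd_one)
  | succ n ih =>
    obtain ⟨ih1, ih2⟩ := ih
    refine ⟨ih2, fun j hj => ?_⟩
    have e : X ^ j * P (be τ t) (n + 1 + 1) = X ^ (j + 1) * P (be τ t) (n + 1) -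
        C (be τ t (n + 1)) * (X ^ j * P (be τ t) n) := by
      rw [show n + 1 + 1 = n + 2 from rfl, P]
      ring
    rw [e, map_sub, L_C_mul]
    rcases (by omega : j < n ∨ j = n ∨ j = n + 1) with h | h | h
    · rw [ih2 _ (by omega), ih1 _ h]
      ring
    · subst h
      rw [← L_sq_of_orth _ _ ih2, ← L_sq_of_orth _ _ ih1, be_succ,
        div_mul_cancel₀ _ (L0_sq_pos τ t (P_monic _ _).ne_zero).ne', sub_self]
    · subst h
      rw [L0_parity τ t _ _ _ (by exact ⟨n + 1, by ring⟩), L0_parity τ t _ _ _ ⟨n, by ring⟩]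
      ring

theorem be_ort : Ort (be τ t) (L0 τ t) := by
  intro n
  have := (be_orth τ t n).2 0 (by omega)
  simpa using this

theorem be_zero : be τ t 0 = 0 := rfl

theorem be_string (n : ℕ) : lhs τ t (be τ t) (n + 1) = n + 1 := by
  have h1 := L_V'_PP (be_zero τ t) (be_ort τ t) τ t n
  have h2 := L_derivative_PP (be_zero τ t) (be_ort τ t) n
  rw [← L0_pearson, h2] at h1
  have hpos : 0 < L0 τ t 1 * hh (be τ t) n :=
    mul_pos (L0_one_pos τ t) (Finset.prod_pos fun j _ => be_pos τ t j)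
  have h3 : L0 τ t 1 * hh (be τ t) n * ((n : ℝ) + 1) =
      L0 τ t 1 * hh (be τ t) n * lhs τ t (be τ t) (n + 1) := by
    rw [← h1]; ring
  exact (mul_left_cancel₀ hpos.ne' h3).symm

theorem unique {b : ℕ → ℝ} (hb : b 0 = 0) (hp : ∀ n, 0 < b (n + 1))
    (hE : ∀ n, lhs τ t b (n + 1) = n + 1) : b = be τ t := by
  have hort := LL_ort b
  have h1 := LL_one b
  have hpos : ∀ q, 0 ≤ LL b (q * q) := fun q =>
    L_sq_nonneg hb hp hort (by rw [h1]; norm_num) q
  have hrec : Rec τ t (mo (LL b)) := fun k => moment_rec hb hort τ t hE k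
  obtain ⟨c, hc⟩ := moments_eq hpos hrec
  have hL : LL b = c • L0 τ t := by
    apply LinearMap.ext
    intro q
    rw [q.as_sum_range_C_mul_X_pow, map_sum, map_sum]
    apply Finset.sum_congr rfl
    intro i _
    rw [L_C_mul, LinearMap.smul_apply, L_C_mul, L0_X_pow, smul_eq_mul]
    have := hc i
    rw [mo] at this
    rw [this]
    ring
  have hort' : Ort (be τ t) (LL b) := by
    intro n
    rw [hL, LinearMap.smul_apply, be_ort τ t n, smul_zero]
  exact eq_of_functional hb (be_zero τ t) hp hort hort' (by rw [h1]; norm_num)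

theorem be_one : be τ t 1 = L0 τ t (X ^ 2) / L0 τ t (X ^ 0) := by
  rw [be_succ τ t 0]
  simp [P, pow_two]

theorem be_two : be τ t 2 = L0 τ t (X ^ 4) / L0 τ t (X ^ 2) - L0 τ t (X ^ 2) / L0 τ t (X ^ 0) := by
  rw [be_succ τ t 1, L_sq_of_orth _ _ (be_orth τ t 1).2]
  have e : X ^ (1 + 1) * P (be τ t) (1 + 1) = X ^ 4 - C (be τ t 1) * X ^ 2 := by
    rw [show 1 + 1 = 0 + 2 from rfl, P, P, P]
    ring
  have e1 : P (be τ t) 1 * P (be τ t) 1 = X ^ 2 := by
    rw [P]; ring
  rw [e, e1, map_sub, L_C_mul, be_one]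
  have hX : L0 τ t (X ^ 2) ≠ 0 := by
    have := L0_sq_pos τ t (X_ne_zero (R := ℝ))
    rw [← pow_two] at this
    exact this.ne'
  have hX0 : L0 τ t (X ^ 0) ≠ 0 := by
    rw [pow_zero]
    exact (L0_one_pos τ t).ne'
  field_simp

end

end Pool.Agent.Q177.Fr
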