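import Mathlib
import Pool.Agent.Q177.FreeTop

/-!
# Free topological groups over metrizable spaces with compact derived set: `F₄` is Fréchet–Urysohn
-/

set_option autoImplicit false

universe u v

namespace Q177.FreeTop

open Set Topology Filter FreeGroup

variable {X : Type u}

/-- A compatible metric `ρ` together with a function `γ` (roughly the distance to the set of
nonisolated points) such that pairs of distinct `ρ`-close points are close to the compact set of
nonisolated points. -/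
structure UCM [TopologicalSpace X] (ρ : X → X → ℝ) (γ : X → ℝ) : Prop where
  pm : PM ρ
  pos : ∀ x y, x ≠ y → 0 < ρ x y
  bdd : ∀ x y, ρ x y ≤ 3
  cont : ∀ x, ∀ ε > 0, ∀ᶠ y in 𝓝 x, ρ x y < ε
  nhd : ∀ x, ∀ W ∈ 𝓝 x, ∃ ε > 0, ∀ y, ρ x y < ε → y ∈ W
  γ_nonneg : ∀ x, 0 ≤ γ x
  γ_cont : Continuous γ
  iso : ∀ x, 0 < γ x → IsOpen ({x} : Set X)
  sum : ∀ x y, x ≠ y → γ x + γ y ≤ ρ x y
  comp : ∀ x : ℕ → X, Tendsto (fun n => γ (x n)) atTop (𝓝 0) →
    ∃ (a : X) (φ : ℕ → ℕ), StrictMono φ ∧ Tendsto (x ∘ φ) atTop (𝓝 a)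

lemma exists_ucm [TopologicalSpace X] [TopologicalSpace.MetrizableSpace X]
    (hK : IsCompact {x : X | ¬ IsOpen ({x} : Set X)}) : ∃ ρ γ, UCM (X := X) ρ γ := by
  classical
  let _ := TopologicalSpace.metrizableSpaceMetric X
  set K : Set X := {x : X | ¬ IsOpen ({x} : Set X)} with hKdef
  let γ : X → ℝ := fun x => if K = ∅ then 1 else min (Metric.infDist x K) 1
  let ρ : X → X → ℝ := fun x y => if x = y then 0 else min (dist x y) 1 + γ x + γ y
  have hγ0 : ∀ x, 0 ≤ γ x := by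
    intro x
    simp only [γ]
    split_ifs
    · exact zero_le_one
    · exact le_min Metric.infDist_nonneg zero_le_one
  have hγ1 : ∀ x, γ x ≤ 1 := by
    intro x
    simp only [γ]
    split_ifs
    · exact le_rfl
    · exact min_le_right _ _
  have hγc : Continuous γ := by
    by_cases h : K = ∅
    · have : γ = fun _ => 1 := by
        funext x
        simp only [γ, if_pos h]
      rw [this]
      exact continuous_const
    · have : γ = fun x => min (Metric.infDist x K) 1 := by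
        funext x
        simp only [γ, if_neg h]
      rw [this]
      exact (Metric.continuous_infDist_pt K).min continuous_const
  have hm0 : ∀ x y : X, 0 ≤ min (dist x y) 1 := fun x y => le_min dist_nonneg zero_le_one
  have hmtri : ∀ x y z : X, min (dist x z) 1 ≤ min (dist x y) 1 + min (dist y z) 1 := by
    intro x y z
    have h1 := dist_triangle x y z
    have h2 := dist_nonneg (x := x) (y := y)
    have h3 := dist_nonneg (x := y) (y := z)
    rcases min_cases (dist x z) 1 with ⟨h, h'⟩ | ⟨h, h'⟩ <;>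
    rcases min_cases (dist x y) 1 with ⟨k, k'⟩ | ⟨k, k'⟩ <;>
    rcases min_cases (dist y z) 1 with ⟨l, l'⟩ | ⟨l, l'⟩ <;> linarith
  have hρne : ∀ x y, x ≠ y → ρ x y = min (dist x y) 1 + γ x + γ y := fun x y h => if_neg h
  have hρself : ∀ x, ρ x x = 0 := fun x => if_pos rfl
  have hρ0 : ∀ x y, 0 ≤ ρ x y := by
    intro x y
    by_cases h : x = y
    · subst h
      rw [hρself]
    · rw [hρne x y h]
      linarith [hm0 x y, hγ0 x, hγ0 y]
  have hKiso : ∀ x, 0 < γ x → IsOpen ({x} : Set X) := by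
    intro x hx
    by_contra hcon
    have hxK : x ∈ K := hcon
    have hne : K ≠ ∅ := (nonempty_of_mem hxK).ne_empty
    simp only [γ, if_neg hne] at hx
    rw [Metric.infDist_zero_of_mem hxK] at hx
    simp at hx
  have hKzero : ∀ x ∈ K, γ x = 0 := by
    intro x hxK
    have hne : K ≠ ∅ := (nonempty_of_mem hxK).ne_empty
    simp only [γ, if_neg hne]
    rw [Metric.infDist_zero_of_mem hxK]
    simp
  refine ⟨ρ, γ, ⟨⟨hρ0, hρself, ?_, ?_⟩, ?_, ?_, ?_, ?_, hγ0, hγc, hKiso, ?_, ?_⟩⟩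
  · intro x y
    by_cases h : x = y
    · subst h
      rfl
    · rw [hρne x y h, hρne y x (Ne.symm h), dist_comm]
      ring
  · intro x y z
    by_cases hxz : x = z
    · subst hxz
      rw [hρself]
      linarith [hρ0 x y, hρ0 y x]
    · by_cases hxy : x = y
      · subst hxy
        rw [hρself]
        linarith
      · by_cases hyz : y = z
        · subst hyz
          rw [hρself]
          linarith
        · rw [hρne x z hxz, hρne x y hxy, hρne y z hyz]
          linarith [hmtri x y z, hγ0 y]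
  · intro x y h
    rw [hρne x y h]
    have : 0 < min (dist x y) 1 := lt_min (dist_pos.2 h) one_pos
    linarith [hγ0 x, hγ0 y]
  · intro x y
    by_cases h : x = y
    · subst h
      rw [hρself]
      norm_num
    · rw [hρne x y h]
      linarith [min_le_right (dist x y) 1, hγ1 x, hγ1 y]
  · intro x ε hε
    by_cases hx : IsOpen ({x} : Set X)
    · filter_upwards [hx.mem_nhds (mem_singleton x)] with y hy
      rw [mem_singleton_iff] at hy
      subst hy
      rwa [hρself]
    · have hxK : x ∈ K := hx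
      have h1 : ∀ᶠ y in 𝓝 x, γ y < ε / 2 := by
        refine (hγc.tendsto x).eventually (gt_mem_nhds ?_)
        rw [hKzero x hxK]
        exact half_pos hε
      have h2 : ∀ᶠ y in 𝓝 x, dist y x < ε / 2 := Metric.ball_mem_nhds x (half_pos hε)
      filter_upwards [h1, h2] with y hy1 hy2
      by_cases h : x = y
      · subst h
        rwa [hρself]
      · rw [hρne x y h, hKzero x hxK]
        have := min_le_left (dist x y) 1
        rw [dist_comm] at hy2
        linarith
  · intro x W hW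
    obtain ⟨ε, hε, hball⟩ := Metric.mem_nhds_iff.1 hW
    refine ⟨min ε 1, lt_min hε one_pos, fun y hy => hball ?_⟩
    rw [Metric.mem_ball, dist_comm]
    by_cases h : x = y
    · subst h
      rw [dist_self]
      exact hε
    · rw [hρne x y h] at hy
      have h1 : min (dist x y) 1 < min ε 1 := by linarith [hγ0 x, hγ0 y]
      rcases min_cases (dist x y) 1 with ⟨h2, h3⟩ | ⟨h2, h3⟩
      · rw [h2] at h1
        exact h1.trans_le (min_le_left _ _)
      · rw [h2] at h1
        exact absurd (h1.trans_le (min_le_right _ _)) (lt_irrefl _)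
  · intro x y h
    rw [hρne x y h]
    linarith [hm0 x y]
  · intro x hx
    by_cases hne : K = ∅
    · exfalso
      have : (fun n => γ (x n)) = fun _ => 1 := by
        funext n
        simp only [γ, if_pos hne]
      rw [this] at hx
      have := tendsto_nhds_unique hx tendsto_const_nhds
      norm_num at this
    · have hK' : K.Nonempty := nonempty_iff_ne_empty.2 hne
      have hk : ∀ n, ∃ k ∈ K, dist (x n) k < Metric.infDist (x n) K + 1 / ((n : ℝ) + 1) := by
        intro n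
        apply (Metric.infDist_lt_iff hK').1
        have : (0 : ℝ) < 1 / ((n : ℝ) + 1) := by positivity
        linarith
      choose k hkK hk using hk
      obtain ⟨a, -, φ, hφ, hφa⟩ := hK.tendsto_subseq hkK
      refine ⟨a, φ, hφ, ?_⟩
      -- the distances tend to zero
      have hinf : Tendsto (fun n => Metric.infDist (x n) K) atTop (𝓝 0) := by
        have h1 : ∀ᶠ n in atTop, γ (x n) = Metric.infDist (x n) K := by
          filter_upwards [hx.eventually (gt_mem_nhds one_pos)] with n hn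
          simp only [γ, if_neg hne] at hn ⊢
          rcases min_cases (Metric.infDist (x n) K) 1 with ⟨h2, h3⟩ | ⟨h2, h3⟩
          · exact h2
          · rw [h2] at hn
            exact absurd hn (lt_irrefl _)
        exact hx.congr' h1
      have hd : Tendsto (fun n => dist (x n) (k n)) atTop (𝓝 0) := by
        refine squeeze_zero (fun n => dist_nonneg) (fun n => (hk n).le) ?_
        simpa using hinf.add (tendsto_one_div_add_atTop_nhds_zero_nat (𝕜 := ℝ))
      have hd' := hd.comp hφ.tendsto_atTop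
      rw [tendsto_iff_dist_tendsto_zero] at hφa ⊢
      refine squeeze_zero (fun n => dist_nonneg) (fun n => dist_triangle _ (k (φ n)) _) ?_
      simpa using hd'.add hφa

variable [TopologicalSpace X] {ρ : X → X → ℝ} {γ : X → ℝ}

lemma UCM.tendsto (h : UCM ρ γ) {x : ℕ → X} {a : X} :
    Tendsto x atTop (𝓝 a) ↔ Tendsto (fun n => ρ a (x n)) atTop (𝓝 0) := by
  constructor
  · intro hx
    rw [Metric.tendsto_atTop]
    intro ε hε
    obtain ⟨N, hN⟩ := eventually_atTop.1 (hx.eventually (h.cont a ε hε))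
    refine ⟨N, fun n hn => ?_⟩
    rw [Real.dist_eq, sub_zero, abs_of_nonneg (h.pm.nonneg _ _)]
    exact hN n hn
  · intro hx W hW
    obtain ⟨ε, hε, hW'⟩ := h.nhd a W hW
    have h1 : ∀ᶠ n in atTop, ρ a (x n) < ε := hx.eventually (gt_mem_nhds hε)
    exact h1.mono fun n hn => hW' _ hn

lemma UCM.uc (h : UCM ρ γ) {x y : ℕ → X} (hne : ∀ n, x n ≠ y n)
    (hxy : Tendsto (fun n => ρ (x n) (y n)) atTop (𝓝 0)) :
    ∃ (a : X) (φ : ℕ → ℕ), StrictMono φ ∧ Tendsto (x ∘ φ) atTop (𝓝 a) ∧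
      Tendsto (y ∘ φ) atTop (𝓝 a) := by
  have h1 : Tendsto (fun n => γ (x n)) atTop (𝓝 0) :=
    squeeze_zero (fun n => h.γ_nonneg _)
      (fun n => by linarith [h.sum _ _ (hne n), h.γ_nonneg (y n)]) hxy
  obtain ⟨a, φ, hφ, ha⟩ := h.comp x h1
  refine ⟨a, φ, hφ, ha, ?_⟩
  rw [h.tendsto] at ha ⊢
  refine squeeze_zero (fun n => h.pm.nonneg _ _) (fun n => h.pm.tri _ (x (φ n)) _) ?_
  simpa using ha.add (hxy.comp hφ.tendsto_atTop)

variable [TopologicalSpace (FreeGroup X)]

lemma small_pair (hF : IsFreeTop X) (h : UCM ρ γ) {W : Set (FreeGroup X)}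
    (hW : W ∈ 𝓝 (1 : FreeGroup X)) :
    ∃ δ > 0, ∀ (x y : X) (b : Bool), ρ x y < δ → FreeGroup.mk [(x, b), (y, !b)] ∈ W := by
  have := hF.grp
  by_contra hcon
  push Not at hcon
  have hn : ∀ n : ℕ, ∃ (x y : X) (b : Bool), ρ x y < 1 / ((n : ℝ) + 1) ∧
      FreeGroup.mk [(x, b), (y, !b)] ∉ W := fun n => hcon _ (by positivity)
  choose x y b hxy hnW using hn
  have h1W : (1 : FreeGroup X) ∈ W := mem_of_mem_nhds hW
  have hne : ∀ n, x n ≠ y n := by
    intro n heq
    apply hnW n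
    rw [heq]
    cases hb : b n
    · rw [Bool.not_false, mk_pair_false, inv_mul_cancel]
      exact h1W
    · rw [Bool.not_true, mk_pair_true, mul_inv_cancel]
      exact h1W
  have hlim : Tendsto (fun n => ρ (x n) (y n)) atTop (𝓝 0) :=
    squeeze_zero (fun n => h.pm.nonneg _ _) (fun n => (hxy n).le)
      tendsto_one_div_add_atTop_nhds_zero_nat
  obtain ⟨a, φ, hφ, hx, hy⟩ := h.uc hne hlim
  have hx' := (hF.cont.tendsto a).comp hx
  have hy' := (hF.cont.tendsto a).comp hy
  have h1 := hx'.mul hy'.inv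
  have h2 := hx'.inv.mul hy'
  rw [mul_inv_cancel] at h1
  rw [inv_mul_cancel] at h2
  obtain ⟨n, hn1, hn2⟩ := ((h1.eventually hW).and (h2.eventually hW)).exists
  apply hnW (φ n)
  cases hb : b (φ n)
  · rw [Bool.not_false, mk_pair_false]
    exact hn2
  · rw [Bool.not_true, mk_pair_true]
    exact hn1

lemma small_cost (hF : IsFreeTop X) (h : UCM ρ γ) {W : Set (FreeGroup X)}
    (hW : W ∈ 𝓝 (1 : FreeGroup X)) :
    ∃ δ > 0, ∀ (L : List (X × Bool)) (c : ℝ), L.length ≤ 3 → Cost ρ L c → c < δ →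
      FreeGroup.mk L ∈ W := by
  obtain ⟨δ, hδ, hpair⟩ := small_pair hF h hW
  refine ⟨δ, hδ, fun L c hL hc hcδ => ?_⟩
  rcases cost_three hc hL with rfl | ⟨x, y, b, rfl, rfl⟩
  · exact mem_of_mem_nhds hW
  · exact hpair x y b hcδ

lemma near_step (hF : IsFreeTop X) (h : UCM ρ γ) {H : List (X × Bool)} {a : X} {b : Bool}
    (hH : ∀ W ∈ 𝓝 (FreeGroup.mk H), ∃ δ > 0, ∀ (L : List (X × Bool)) (c : ℝ), L.length ≤ 3 →
      Near ρ H L c → c < δ → FreeGroup.mk L ∈ W) {W : Set (FreeGroup X)}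
    (hW : W ∈ 𝓝 (FreeGroup.mk ((a, b) :: H))) :
    ∃ δ > 0, ∀ (L : List (X × Bool)) (c : ℝ), L.length ≤ 4 →
      Near ρ ((a, b) :: H) L c → c < δ → FreeGroup.mk L ∈ W := by
  have := hF.grp
  have hdec : FreeGroup.mk ((a, b) :: H) = 1 * (FreeGroup.mk [(a, b)] * FreeGroup.mk H) := by
    rw [one_mul, FreeGroup.mul_mk]
    rfl
  rw [hdec] at hW
  have hcont : Tendsto (fun p : FreeGroup X × (FreeGroup X × FreeGroup X) => p.1 * (p.2.1 * p.2.2))
      (𝓝 (1 : FreeGroup X) ×ˢ (𝓝 (FreeGroup.mk [(a, b)]) ×ˢ 𝓝 (FreeGroup.mk H)))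
      (𝓝 (1 * (FreeGroup.mk [(a, b)] * FreeGroup.mk H))) := by
    rw [← nhds_prod_eq, ← nhds_prod_eq]
    exact (continuous_fst.mul
      ((continuous_fst.comp continuous_snd).mul (continuous_snd.comp continuous_snd))).tendsto
      ((1 : FreeGroup X), (FreeGroup.mk [(a, b)], FreeGroup.mk H))
  have h1 := hcont hW
  rw [mem_map, mem_prod_iff] at h1
  obtain ⟨W₁, hW₁, T, hT, hsub⟩ := h1
  obtain ⟨W₂, hW₂, W₃, hW₃, hsub'⟩ := mem_prod_iff.1 hT
  obtain ⟨δ₁, hδ₁, hs₁⟩ := small_cost hF h hW₁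
  obtain ⟨δ₃, hδ₃, hs₃⟩ := hH W₃ hW₃
  have hsingle : ∃ δ₂ > 0, ∀ x, ρ x a < δ₂ → FreeGroup.mk [(x, b)] ∈ W₂ := by
    have hcont' : Continuous fun x : X => FreeGroup.mk [(x, b)] := by
      cases b
      · simp only [mk_single_false]
        exact hF.cont.inv
      · exact hF.cont
    obtain ⟨ε, hε, hε'⟩ := h.nhd a _ (hcont'.tendsto a hW₂)
    refine ⟨ε, hε, fun x hx => hε' x ?_⟩
    rwa [h.pm.symm]
  obtain ⟨δ₂, hδ₂, hs₂⟩ := hsingle
  refine ⟨min δ₁ (min δ₂ δ₃), lt_min hδ₁ (lt_min hδ₂ hδ₃), ?_⟩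
  intro L c hL hnear hc
  cases hnear with
  | @cons u L' _ c₁ c₂ x _ _ hu hL' =>
    simp only [List.length_append, List.length_cons] at hL
    have hc1 := hu.nonneg h.pm.nonneg
    have hxa := h.pm.nonneg x a
    have hc2 := hL'.nonneg h.pm.nonneg
    have e1 : c₁ < δ₁ := by linarith [min_le_left δ₁ (min δ₂ δ₃)]
    have e2 : ρ x a < δ₂ := by
      linarith [min_le_right δ₁ (min δ₂ δ₃), min_le_left δ₂ δ₃]
    have e3 : c₂ < δ₃ := by
      linarith [min_le_right δ₁ (min δ₂ δ₃), min_le_right δ₂ δ₃]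
    have m1 := hs₁ u c₁ (by omega) hu e1
    have m2 := hs₂ x e2
    have m3 := hs₃ L' c₂ (by omega) hL' e3
    have m4 : (FreeGroup.mk u, (FreeGroup.mk [(x, b)], FreeGroup.mk L')) ∈ W₁ ×ˢ T :=
      ⟨m1, hsub' ⟨m2, m3⟩⟩
    have m5 := hsub m4
    simp only [mem_preimage, FreeGroup.mul_mk] at m5
    simpa using m5

lemma near_three (hF : IsFreeTop X) (h : UCM ρ γ) (H : List (X × Bool)) :
    ∀ W ∈ 𝓝 (FreeGroup.mk H), ∃ δ > 0, ∀ (L : List (X × Bool)) (c : ℝ), L.length ≤ 3 →
      Near ρ H L c → c < δ → FreeGroup.mk L ∈ W := by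
  induction H with
  | nil =>
    intro W hW
    obtain ⟨δ, hδ, hs⟩ := small_cost hF h hW
    refine ⟨δ, hδ, fun L c hL hnear hc => ?_⟩
    cases hnear with
    | nil hh => exact hs L c hL hh hc
  | cons p H ih =>
    obtain ⟨a, b⟩ := p
    intro W hW
    obtain ⟨δ, hδ, hs⟩ := near_step hF h ih hW
    exact ⟨δ, hδ, fun L c hL => hs L c (by omega)⟩

/-- convergence to elements different from the identity -/
lemma seq_ne_one (hF : IsFreeTop X) (h : UCM ρ γ) {A : Set (FreeGroup X)}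
    (hA : ∀ w ∈ A, ∃ L : List (X × Bool), L.length ≤ 4 ∧ FreeGroup.mk L = w) {g : FreeGroup X}
    (hg : g ∈ closure A) (hne : g ≠ 1) : ∃ w : ℕ → FreeGroup X, (∀ n, w n ∈ A) ∧
      Tendsto w atTop (𝓝 g) := by
  classical
  have := hF.grp
  obtain ⟨H, hH, hHg⟩ : ∃ H : List (X × Bool), FreeGroup.IsReduced H ∧ FreeGroup.mk H = g :=
    ⟨g.toWord, FreeGroup.isReduced_toWord, FreeGroup.mk_toWord⟩
  subst hHg
  obtain ⟨δ, hδ, hsep⟩ := exists_sep h.pos H
  have hU : ∀ n : ℕ, ∃ w ∈ A, w * (FreeGroup.mk H)⁻¹ ∈ V ρ (min δ (1 / ((n : ℝ) + 1))) := by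
    intro n
    have h1 : V ρ (min δ (1 / ((n : ℝ) + 1))) ∈ 𝓝 (1 : FreeGroup X) :=
      hF.V_mem h.pm h.cont (lt_min hδ (by positivity))
    have h2 : (fun w : FreeGroup X => w * (FreeGroup.mk H)⁻¹) ⁻¹'
        V ρ (min δ (1 / ((n : ℝ) + 1))) ∈ 𝓝 (FreeGroup.mk H) := by
      have hc : Continuous fun w : FreeGroup X => w * (FreeGroup.mk H)⁻¹ :=
        continuous_id.mul continuous_const
      apply hc.tendsto
      rwa [mul_inv_cancel]
    obtain ⟨w, hw1, hw2⟩ := mem_closure_iff_nhds.1 hg _ h2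
    exact ⟨w, hw2, hw1⟩
  choose w hwA hwV using hU
  refine ⟨w, hwA, ?_⟩
  choose L hL4 hLw using fun n => hA (w n) (hwA n)
  have hnear : ∀ n : ℕ, ∃ c < 1 / ((n : ℝ) + 1), Near ρ H (L n) c := by
    intro n
    have h1 := hwV n
    rw [← hLw n, FreeGroup.inv_mk, FreeGroup.mul_mk, mk_mem_V h.pm] at h1
    obtain ⟨c, hc, h1⟩ := h1
    exact ⟨c, hc.trans_le (min_le_right _ _),
      near_of_cost h.pm hH hsep (hc.trans_le (min_le_left _ _)) h1⟩
  choose c hc hnear using hnear
  rcases H with _ | ⟨⟨a, b⟩, H⟩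
  · exact (hne rfl).elim
  · intro W hW
    obtain ⟨δ', hδ', hs⟩ := near_step hF h (near_three hF h H) hW
    have h1 : ∀ᶠ n : ℕ in atTop, 1 / ((n : ℝ) + 1) < δ' :=
      (tendsto_one_div_add_atTop_nhds_zero_nat (𝕜 := ℝ)).eventually (gt_mem_nhds hδ')
    refine h1.mono fun n hn => ?_
    have h2 := hs (L n) (c n) (hL4 n) (hnear n) ((hc n).trans hn)
    rw [hLw n] at h2
    exact h2

end Q177.FreeTop
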