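import Mathlib

/-!
# Two-by-two matrices: unipotent and diagonal units
-/

set_option autoImplicit false

universe u v

namespace Q177.Mat2

open Set Topology Filter

variable {R : Type v} [NormedCommRing R]

/-- upper unipotent matrices -/
def uni (b : R) : (Matrix (Fin 2) (Fin 2) R)ˣ where
  val := !![1, b; 0, 1]
  inv := !![1, -b; 0, 1]
  val_inv := by simp [Matrix.one_fin_two]
  inv_val := by simp [Matrix.one_fin_two]

lemma uni_val (b : R) : (uni b).val = !![1, b; 0, 1] := rfl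

lemma uni_inv_val (b : R) : ((uni b)⁻¹).val = !![1, -b; 0, 1] := rfl

lemma continuous_uni : Continuous (uni : R → (Matrix (Fin 2) (Fin 2) R)ˣ) := by
  rw [Units.continuous_iff]
  constructor
  · refine continuous_matrix fun i j => ?_
    fin_cases i <;> fin_cases j <;> simp [uni] <;> fun_prop
  · have : (fun x : R => ((uni x)⁻¹ : (Matrix (Fin 2) (Fin 2) R)ˣ).val) =
        fun x : R => !![1, -x; 0, 1] := rfl
    rw [this]
    refine continuous_matrix fun i j => ?_
    fin_cases i <;> fin_cases j <;> simp <;> fun_prop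

variable [NormedAlgebra ℝ R]

lemma alg_mul_inv {k : ℝ} (hk : k ≠ 0) : algebraMap ℝ R k * algebraMap ℝ R k⁻¹ = 1 := by
  rw [← map_mul, mul_inv_cancel₀ hk, map_one]

lemma alg_inv_mul {k : ℝ} (hk : k ≠ 0) : algebraMap ℝ R k⁻¹ * algebraMap ℝ R k = 1 := by
  rw [← map_mul, inv_mul_cancel₀ hk, map_one]

/-- diagonal matrices -/
noncomputable def dia (k : ℝ) (hk : k ≠ 0) : (Matrix (Fin 2) (Fin 2) R)ˣ where
  val := !![algebraMap ℝ R k, 0; 0, 1]
  inv := !![algebraMap ℝ R k⁻¹, 0; 0, 1]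
  val_inv := by
    rw [Matrix.mul_fin_two]
    simp only [alg_mul_inv hk, mul_zero, add_zero, zero_mul, mul_one, zero_add,
      Matrix.one_fin_two]
  inv_val := by
    rw [Matrix.mul_fin_two]
    simp only [alg_inv_mul hk, mul_zero, add_zero, zero_mul, mul_one, zero_add,
      Matrix.one_fin_two]

lemma dia_val (k : ℝ) (hk : k ≠ 0) :
    (dia k hk : (Matrix (Fin 2) (Fin 2) R)ˣ).val = !![algebraMap ℝ R k, 0; 0, 1] := rfl

lemma dia_inv_val (k : ℝ) (hk : k ≠ 0) :
    ((dia k hk : (Matrix (Fin 2) (Fin 2) R)ˣ)⁻¹).val = !![algebraMap ℝ R k⁻¹, 0; 0, 1] := rfl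

lemma entry_pp (k : ℝ) (hk : k ≠ 0) (b c : R) :
    (dia k hk * (uni b * (uni c)⁻¹) * (dia k hk)⁻¹ : (Matrix (Fin 2) (Fin 2) R)ˣ).val 0 1 =
      algebraMap ℝ R k * (b - c) := by
  simp only [Units.val_mul, dia_val, dia_inv_val, uni_val, uni_inv_val, Matrix.mul_fin_two]
  simp only [Matrix.of_apply, Matrix.cons_val_zero, Matrix.cons_val_one]
  ring

lemma entry_pm (k : ℝ) (hk : k ≠ 0) (b c : R) :
    (dia k hk * ((uni b)⁻¹ * uni c) * (dia k hk)⁻¹ : (Matrix (Fin 2) (Fin 2) R)ˣ).val 0 1 =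
      algebraMap ℝ R k * (c - b) := by
  simp only [Units.val_mul, dia_val, dia_inv_val, uni_val, uni_inv_val, Matrix.mul_fin_two]
  simp only [Matrix.of_apply, Matrix.cons_val_zero, Matrix.cons_val_one]
  ring

lemma entry_mp (k : ℝ) (hk : k ≠ 0) (b c : R) :
    ((dia k hk)⁻¹ * (uni b * (uni c)⁻¹) * dia k hk : (Matrix (Fin 2) (Fin 2) R)ˣ).val 0 1 =
      algebraMap ℝ R k⁻¹ * (b - c) := by
  simp only [Units.val_mul, dia_val, dia_inv_val, uni_val, uni_inv_val, Matrix.mul_fin_two]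
  simp only [Matrix.of_apply, Matrix.cons_val_zero, Matrix.cons_val_one]
  ring

lemma entry_mm (k : ℝ) (hk : k ≠ 0) (b c : R) :
    ((dia k hk)⁻¹ * ((uni b)⁻¹ * uni c) * dia k hk : (Matrix (Fin 2) (Fin 2) R)ˣ).val 0 1 =
      algebraMap ℝ R k⁻¹ * (c - b) := by
  simp only [Units.val_mul, dia_val, dia_inv_val, uni_val, uni_inv_val, Matrix.mul_fin_two]
  simp only [Matrix.of_apply, Matrix.cons_val_zero, Matrix.cons_val_one]
  ring

lemma continuous_entry :
    Continuous fun u : (Matrix (Fin 2) (Fin 2) R)ˣ => u.val 0 1 :=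
  (continuous_id.matrix_elem 0 1).comp Units.continuous_val

end Q177.Mat2
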