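import Mathlib
import Pool.Agent.Q177.FreeTop
import Pool.Agent.Q177.FreeTopUC
import Pool.Agent.Q177.Mat2

/-!
# `F₄(X)` is Fréchet–Urysohn for metrizable `X` with compact derived set
-/

set_option autoImplicit false

universe u v

namespace Q177.FreeTop

open Set Topology Filter FreeGroup Q177.Mat2

variable {X : Type u} [TopologicalSpace X] {ρ : X → X → ℝ} {γ : X → ℝ}

lemma UCM.continuous_rho (h : UCM ρ γ) (x : X) : Continuous (ρ x) := by
  rw [continuous_iff_continuousAt]
  intro z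
  rw [ContinuousAt, Metric.tendsto_nhds]
  intro ε hε
  filter_upwards [h.cont z ε hε] with z' hz'
  rw [Real.dist_eq, abs_lt]
  have h1 := h.pm.tri x z z'
  have h2 := h.pm.tri x z' z
  rw [h.pm.symm z' z] at h2
  constructor <;> linarith

/-- Kuratowski embedding -/
noncomputable def UCM.kur (h : UCM ρ γ) (x : X) : BoundedContinuousFunction X ℝ :=
  BoundedContinuousFunction.ofNormedAddCommGroup (ρ x) (h.continuous_rho x) 3 (fun y => by
    rw [Real.norm_eq_abs, abs_of_nonneg (h.pm.nonneg _ _)]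
    exact h.bdd x y)

lemma UCM.kur_apply (h : UCM ρ γ) (x y : X) : h.kur x y = ρ x y := rfl

lemma UCM.norm_kur_sub (h : UCM ρ γ) (x y : X) : ‖h.kur x - h.kur y‖ ≤ ρ x y := by
  rw [BoundedContinuousFunction.norm_le (h.pm.nonneg _ _)]
  intro z
  rw [BoundedContinuousFunction.sub_apply, h.kur_apply, h.kur_apply, Real.norm_eq_abs, abs_le]
  have h1 := h.pm.tri x y z
  have h2 := h.pm.tri y x z
  rw [h.pm.symm y x] at h2
  constructor <;> linarith

lemma UCM.le_norm_kur_sub (h : UCM ρ γ) (x y : X) : ρ x y ≤ ‖h.kur x - h.kur y‖ := by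
  have h1 := BoundedContinuousFunction.norm_coe_le_norm (h.kur x - h.kur y) y
  rw [BoundedContinuousFunction.sub_apply, h.kur_apply, h.kur_apply, h.pm.self, sub_zero,
    Real.norm_eq_abs, abs_of_nonneg (h.pm.nonneg _ _)] at h1
  exact h1

lemma UCM.continuous_kur (h : UCM ρ γ) : Continuous h.kur := by
  rw [continuous_iff_continuousAt]
  intro x
  rw [ContinuousAt, Metric.tendsto_nhds]
  intro ε hε
  filter_upwards [h.cont x ε hε] with y hy
  rw [dist_eq_norm]
  refine (h.norm_kur_sub y x).trans_lt ?_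
  rwa [h.pm.symm]

open Classical in
/-- the maps to the matrix group -/
noncomputable def matMap (h : UCM ρ γ) (r : ℝ) (k : X → ℝ) (hk : ∀ x, k x ≠ 0) (x : X) :
    (Matrix (Fin 2) (Fin 2) (BoundedContinuousFunction X ℝ))ˣ :=
  if γ x < r then uni (h.kur x) else dia (k x) (hk x)

lemma matMap_lt (h : UCM ρ γ) {r : ℝ} (k : X → ℝ) (hk : ∀ x, k x ≠ 0) {x : X} (hx : γ x < r) :
    matMap h r k hk x = uni (h.kur x) := if_pos hx

lemma matMap_ge (h : UCM ρ γ) {r : ℝ} (k : X → ℝ) (hk : ∀ x, k x ≠ 0) {x : X} (hx : r ≤ γ x) :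
    matMap h r k hk x = dia (k x) (hk x) := if_neg (not_lt.2 hx)

lemma continuous_matMap (h : UCM ρ γ) {r : ℝ} (hr : 0 < r) (k : X → ℝ) (hk : ∀ x, k x ≠ 0) :
    Continuous (matMap h r k hk) := by
  rw [continuous_iff_continuousAt]
  intro x
  by_cases hx : γ x < r
  · have h1 : ∀ᶠ y in 𝓝 x, γ y < r := (h.γ_cont.tendsto x).eventually (gt_mem_nhds hx)
    have h2 : (fun y => uni (h.kur y)) =ᶠ[𝓝 x] matMap h r k hk :=
      h1.mono fun y hy => (matMap_lt h k hk hy).symm
    exact ((continuous_uni.comp h.continuous_kur).continuousAt (x := x)).congr h2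
  · push Not at hx
    have h1 : 𝓝 x = pure x := (isOpen_singleton_iff_nhds_eq_pure x).1 (h.iso x (hr.trans_le hx))
    rw [ContinuousAt, h1]
    exact tendsto_pure_nhds _ _

variable [TopologicalSpace (FreeGroup X)]

lemma tendsto_pair (hF : IsFreeTop X) (h : UCM ρ γ) {x y : ℕ → X} {b : ℕ → Bool}
    (hxy : Tendsto (fun n => ρ (x n) (y n)) atTop (𝓝 0)) :
    Tendsto (fun n => FreeGroup.mk [(x n, b n), (y n, !(b n))]) atTop (𝓝 1) := by
  intro W hW
  obtain ⟨δ, hδ, hs⟩ := small_pair hF h hW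
  have h1 : ∀ᶠ n in atTop, ρ (x n) (y n) < δ := hxy.eventually (gt_mem_nhds hδ)
  exact h1.mono fun n hn => hs _ _ _ hn

/-- conjugates of null sequences by convergent sequences (with varying signs) are null sequences -/
lemma tendsto_conj (hF : IsFreeTop X) {g g' : ℕ → X} {a : X} {b : ℕ → Bool}
    {s : ℕ → FreeGroup X} (hs : Tendsto s atTop (𝓝 1)) (hg : Tendsto g atTop (𝓝 a))
    (hg' : Tendsto g' atTop (𝓝 a)) :
    Tendsto (fun n => FreeGroup.mk [(g n, b n)] * s n * FreeGroup.mk [(g' n, !(b n))]) atTop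
      (𝓝 1) := by
  have := hF.grp
  have k1 := (hF.cont.tendsto a).comp hg
  have k2 := (hF.cont.tendsto a).comp hg'
  have h1 := (k1.mul hs).mul k2.inv
  have h2 := (k1.inv.mul hs).mul k2
  rw [mul_one, mul_inv_cancel] at h1
  rw [mul_one, inv_mul_cancel] at h2
  intro W hW
  refine ((h1.eventually hW).and (h2.eventually hW)).mono fun n hn => ?_
  change FreeGroup.mk [(g n, b n)] * s n * FreeGroup.mk [(g' n, !(b n))] ∈ W
  cases hb : b n
  · rw [Bool.not_false, mk_single_false, mk_single_true]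
    exact hn.2
  · rw [Bool.not_true, mk_single_false, mk_single_true]
    exact hn.1

omit [TopologicalSpace X] [TopologicalSpace (FreeGroup X)] in
lemma mk_four (g g' x y : X) (b b' : Bool) :
    FreeGroup.mk [(g, b), (x, b'), (y, !b'), (g', !b)] =
      FreeGroup.mk [(g, b)] * FreeGroup.mk [(x, b'), (y, !b')] * FreeGroup.mk [(g', !b)] := by
  simp only [FreeGroup.mul_mk, List.cons_append, List.nil_append]

lemma seq_one (hF : IsFreeTop X) (h : UCM ρ γ) {A : Set (FreeGroup X)}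
    (hA : ∀ w ∈ A, ∃ L : List (X × Bool), L.length ≤ 4 ∧ FreeGroup.mk L = w)
    (h1 : (1 : FreeGroup X) ∈ closure A) : ∃ w : ℕ → FreeGroup X, (∀ n, w n ∈ A) ∧
      Tendsto w atTop (𝓝 1) := by
  classical
  have := hF.grp
  by_contra hcon
  push Not at hcon
  have hlen : ∀ w ∈ A, w.toWord.length ≤ 4 := by
    intro w hw
    obtain ⟨L, hL, rfl⟩ := hA w hw
    exact (FreeGroup.norm_mk_le (L₁ := L)).trans hL
  have hpos : ∀ n : ℕ, (0 : ℝ) < 1 / ((n : ℝ) + 1) := fun n => by positivity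
  have hlim := tendsto_one_div_add_atTop_nhds_zero_nat (𝕜 := ℝ)
  -- first type
  obtain ⟨δ₁, hδ₁, hs₁⟩ : ∃ δ₁ > 0, ∀ w ∈ A, ∀ u v c₁ c₂, w.toWord = u ++ v → u.length ≤ 3 →
      v.length ≤ 3 → Cost ρ u c₁ → Cost ρ v c₂ → δ₁ ≤ c₁ + c₂ := by
    by_contra hc
    push Not at hc
    choose w hwA u v c₁ c₂ hw hu hv hcu hcv hlt using fun n : ℕ => hc _ (hpos n)
    refine hcon w hwA fun W hW => ?_
    obtain ⟨W', hW', hWW⟩ := exists_open_nhds_one_mul_subset hW
    obtain ⟨δ, hδ, hs⟩ := small_cost hF h (hW'.mem_nhds hWW.1)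
    have h2 : ∀ᶠ n : ℕ in atTop, 1 / ((n : ℝ) + 1) < δ := hlim.eventually (gt_mem_nhds hδ)
    refine h2.mono fun n hn => ?_
    have e1 := (hcu n).nonneg h.pm.nonneg
    have e2 := (hcv n).nonneg h.pm.nonneg
    have e3 := hlt n
    have m1 := hs (u n) (c₁ n) (hu n) (hcu n) (by linarith)
    have m2 := hs (v n) (c₂ n) (hv n) (hcv n) (by linarith)
    have m3 : w n = FreeGroup.mk (u n) * FreeGroup.mk (v n) := by
      rw [FreeGroup.mul_mk, ← hw n, FreeGroup.mk_toWord]
    change w n ∈ W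
    rw [m3]
    exact hWW.2 (mul_mem_mul m1 m2)
  -- second type, close to the nonisolated points
  obtain ⟨r, hr, hs₂⟩ : ∃ r > 0, ∀ w ∈ A, ∀ g b x b' y g',
      w.toWord = [(g, b), (x, b'), (y, !b'), (g', !b)] → ρ g g' + ρ x y < r → r ≤ γ g := by
    by_contra hc
    push Not at hc
    choose w hwA g b x b' y g' hw hlt hγ using fun n : ℕ => hc _ (hpos n)
    have hγ0 : Tendsto (fun n => γ (g n)) atTop (𝓝 0) :=
      squeeze_zero (fun n => h.γ_nonneg _) (fun n => (hγ n).le) hlim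
    have hxy : Tendsto (fun n => ρ (x n) (y n)) atTop (𝓝 0) :=
      squeeze_zero (fun n => h.pm.nonneg _ _)
        (fun n => by linarith [hlt n, h.pm.nonneg (g n) (g' n)]) hlim
    have hgg : Tendsto (fun n => ρ (g n) (g' n)) atTop (𝓝 0) :=
      squeeze_zero (fun n => h.pm.nonneg _ _)
        (fun n => by linarith [hlt n, h.pm.nonneg (x n) (y n)]) hlim
    obtain ⟨a, φ, hφ, ha⟩ := h.comp g hγ0
    have ha' : Tendsto (g' ∘ φ) atTop (𝓝 a) := by
      rw [h.tendsto] at ha ⊢
      refine squeeze_zero (fun n => h.pm.nonneg _ _) (fun n => h.pm.tri _ (g (φ n)) _) ?_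
      simpa using ha.add (hgg.comp hφ.tendsto_atTop)
    have hS := (tendsto_pair hF h (b := b') hxy).comp hφ.tendsto_atTop
    have hT := tendsto_conj hF (b := b ∘ φ) hS ha ha'
    refine hcon (w ∘ φ) (fun n => hwA _) ?_
    convert hT using 1
    funext n
    simp only [Function.comp]
    rw [← mk_four, ← hw (φ n), FreeGroup.mk_toWord]
  -- second type, fixed conjugating letter
  have hs₃ : ∀ g : X, ∃ ε > 0, ∀ w ∈ A, ∀ b x b' y,
      w.toWord = [(g, b), (x, b'), (y, !b'), (g, !b)] → ε ≤ ρ x y := by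
    intro g
    by_contra hc
    push Not at hc
    choose w hwA b x b' y hw hlt using fun n : ℕ => hc _ (hpos n)
    have hxy : Tendsto (fun n => ρ (x n) (y n)) atTop (𝓝 0) :=
      squeeze_zero (fun n => h.pm.nonneg _ _) (fun n => (hlt n).le) hlim
    have hS := tendsto_pair hF h (b := b') hxy
    have hT := tendsto_conj hF (b := b) hS (tendsto_const_nhds (x := g))
      (tendsto_const_nhds (x := g))
    refine hcon w hwA ?_
    convert hT using 1
    funext n
    rw [← mk_four, ← hw n, FreeGroup.mk_toWord]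
  choose E hE hs₃ using hs₃
  have hk : ∀ x, (E x)⁻¹ ≠ 0 := fun x => inv_ne_zero (hE x).ne'
  have hk' : ∀ x, E x ≠ 0 := fun x => (hE x).ne'
  set r₀ := min δ₁ r with hr₀
  have hr₀pos : 0 < r₀ := lt_min hδ₁ hr
  set f₁ := matMap h r₀ (fun x => (E x)⁻¹) hk with hf₁
  set f₂ := matMap h r₀ E hk' with hf₂
  have hc₁ : Continuous (FreeGroup.lift f₁) :=
    hF.continuous_lift f₁ (continuous_matMap h hr₀pos _ _)
  have hc₂ : Continuous (FreeGroup.lift f₂) :=
    hF.continuous_lift f₂ (continuous_matMap h hr₀pos _ _)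
  have hN₁ : {w : FreeGroup X | ‖(FreeGroup.lift f₁ w).val 0 1‖ < 1} ∈ 𝓝 (1 : FreeGroup X) := by
    refine (continuous_norm.comp (continuous_entry.comp hc₁)).tendsto (1 : FreeGroup X)
      (Iio_mem_nhds (a := (1 : ℝ)) ?_)
    simp
  have hN₂ : {w : FreeGroup X | ‖(FreeGroup.lift f₂ w).val 0 1‖ < 1} ∈ 𝓝 (1 : FreeGroup X) := by
    refine (continuous_norm.comp (continuous_entry.comp hc₂)).tendsto (1 : FreeGroup X)
      (Iio_mem_nhds (a := (1 : ℝ)) ?_)
    simp
  obtain ⟨w, ⟨⟨hwV, hw₁⟩, hw₂⟩, hwA⟩ := mem_closure_iff_nhds.1 h1 _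
    (inter_mem (inter_mem (hF.V_mem h.pm h.cont hr₀pos) hN₁) hN₂)
  rw [← FreeGroup.mk_toWord (x := w), mk_mem_V h.pm] at hwV
  obtain ⟨c, hc, hcost⟩ := hwV
  rcases cost_four hcost (hlen w hwA) with ⟨u, v, c₁, c₂, huv, hu, hv, hcu, hcv, rfl⟩ |
    ⟨g, b, x, b', y, g', hw, rfl⟩
  · have := hs₁ w hwA u v c₁ c₂ huv hu hv hcu hcv
    linarith [min_le_left δ₁ r]
  · have e1 := h.pm.nonneg g g'
    have e2 := h.pm.nonneg x y
    have e3 : r₀ ≤ r := min_le_right _ _
    have e4 := hs₂ w hwA g b x b' y g' hw (by linarith)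
    have hgg : g = g' := by
      by_contra hne
      have := h.sum g g' hne
      have := h.γ_nonneg g'
      linarith
    subst hgg
    have hxy : x ≠ y := by
      intro heq
      subst heq
      have hred := FreeGroup.isReduced_toWord (x := w)
      rw [hw] at hred
      have := (List.isChain_cons_cons.1 (List.isChain_cons_cons.1 hred).2).1
      simp at this
    have e5 := h.sum x y hxy
    have e6 := h.γ_nonneg x
    have e7 := h.γ_nonneg y
    have hx : γ x < r₀ := by linarith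
    have hy : γ y < r₀ := by linarith
    have hg : r₀ ≤ γ g := by linarith
    have e8 := hs₃ g w hwA b x b' y hw
    have hEg := hE g
    have key : ∀ f : BoundedContinuousFunction X ℝ, ρ x y ≤ ‖f‖ →
        ¬ ‖algebraMap ℝ (BoundedContinuousFunction X ℝ) (E g)⁻¹ * f‖ < 1 := by
      intro f hf
      rw [← Algebra.smul_def, norm_smul, Real.norm_eq_abs, abs_of_pos (inv_pos.2 hEg), not_lt]
      have : E g ≤ ‖f‖ := e8.trans hf
      rw [inv_mul_eq_div, one_le_div hEg]
      exact this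
    have n1 := h.le_norm_kur_sub x y
    have n2 : ρ x y ≤ ‖h.kur y - h.kur x‖ := by
      rw [norm_sub_rev]
      exact n1
    simp only [mem_ofPred_eq] at hw₁ hw₂
    rw [← FreeGroup.mk_toWord (x := w), hw, FreeGroup.lift_mk] at hw₁ hw₂
    cases b <;> cases b' <;>
      simp only [List.map_cons, List.map_nil, List.prod_cons, List.prod_nil, mul_one, Bool.not_true,
        Bool.not_false, cond_true, cond_false, hf₁, hf₂, matMap_lt h _ _ hx, matMap_lt h _ _ hy,
        matMap_ge h _ _ hg] at hw₁ hw₂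
    · rw [← mul_assoc (uni (h.kur x))⁻¹, ← mul_assoc, entry_mm] at hw₂
      exact key _ n2 hw₂
    · rw [← mul_assoc (uni (h.kur x)), ← mul_assoc, entry_mp] at hw₂
      exact key _ n1 hw₂
    · rw [← mul_assoc (uni (h.kur x))⁻¹, ← mul_assoc, entry_pm] at hw₁
      exact key _ n2 hw₁
    · rw [← mul_assoc (uni (h.kur x)), ← mul_assoc, entry_pp] at hw₁
      exact key _ n1 hw₁

/-- The subspace of words of length at most four is Fréchet–Urysohn. -/
theorem frechet_four (hF : IsFreeTop X) [TopologicalSpace.MetrizableSpace X]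
    (hK : IsCompact {x : X | ¬ IsOpen ({x} : Set X)}) :
    FrechetUrysohnSpace {w : FreeGroup X // ∃ L : List (X × Bool), L.length ≤ 4 ∧
      FreeGroup.mk L = w} := by
  obtain ⟨ρ, γ, h⟩ := exists_ucm hK
  refine ⟨fun S g hg => ?_⟩
  have hg' : (g : FreeGroup X) ∈ closure (Subtype.val '' S) :=
    image_closure_subset_closure_image continuous_subtype_val ⟨g, hg, rfl⟩
  have hA : ∀ w ∈ (Subtype.val '' S : Set (FreeGroup X)), ∃ L : List (X × Bool), L.length ≤ 4 ∧
      FreeGroup.mk L = w := by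
    rintro _ ⟨w, -, rfl⟩
    exact w.2
  have hseq : ∃ w : ℕ → FreeGroup X, (∀ n, w n ∈ Subtype.val '' S) ∧
      Tendsto w atTop (𝓝 (g : FreeGroup X)) := by
    by_cases hne : (g : FreeGroup X) = 1
    · rw [hne] at hg' ⊢
      exact seq_one hF h hA hg'
    · exact seq_ne_one hF h hA hg' hne
  obtain ⟨w, hwS, hw⟩ := hseq
  choose z hzS hzw using hwS
  refine ⟨z, hzS, ?_⟩
  rw [tendsto_subtype_rng]
  convert hw using 1
  funext n
  exact hzw n

end Q177.FreeTop
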