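import Mathlib
import Pool.Agent.Q177.FreeTopF4

/-!
# The `k_R` property, separation axioms
-/

set_option autoImplicit false

universe u v

namespace Q177.FreeTop

open Set Topology Filter FreeGroup

/-- functions on a sequential space which are continuous on compact sets are continuous -/
lemma continuous_of_compact {Y : Type u} [TopologicalSpace Y] [SequentialSpace Y] (f : Y → ℝ)
    (hf : ∀ K : Set Y, IsCompact K → ContinuousOn f K) : Continuous f := by
  rw [continuous_iff_seqContinuous]
  intro x a hx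
  have hK := hx.isCompact_insert_range
  have h1 := (hf _ hK) a (mem_insert _ _)
  refine h1.tendsto.comp ?_
  rw [tendsto_nhdsWithin_iff]
  exact ⟨hx, Eventually.of_forall fun n => Or.inr ⟨n, rfl⟩⟩

variable {X : Type u} [TopologicalSpace X]

/-- a metrizable space has a compatible metric, as a plain function -/
lemma exists_pm [TopologicalSpace.MetrizableSpace X] : ∃ ρ : X → X → ℝ, PM ρ ∧
    (∀ x y, x ≠ y → 0 < ρ x y) ∧ ∀ x, ∀ ε > 0, ∀ᶠ y in 𝓝 x, ρ x y < ε := by
  let _ := TopologicalSpace.metrizableSpaceMetric X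
  refine ⟨dist, ⟨fun _ _ => dist_nonneg, dist_self, dist_comm, dist_triangle⟩,
    fun x y h => dist_pos.2 h, fun x ε hε => ?_⟩
  filter_upwards [Metric.ball_mem_nhds x hε] with y hy
  rw [dist_comm]
  exact hy

lemma IsFreeTop.t2 [TopologicalSpace (FreeGroup X)] (hF : IsFreeTop X)
    [TopologicalSpace.MetrizableSpace X] : T2Space (FreeGroup X) := by
  classical
  have := hF.grp
  obtain ⟨ρ, hρ, hpos, hcont⟩ := exists_pm (X := X)
  refine IsTopologicalGroup.t2Space_of_one_sep fun w hw => ?_
  obtain ⟨δ, hδ, hsep⟩ := exists_sep hpos w.toWord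
  refine ⟨V ρ δ, hF.V_mem hρ hcont hδ, fun hmem => hw ?_⟩
  rw [← FreeGroup.mk_toWord (x := w), mk_mem_V hρ] at hmem
  obtain ⟨c, hc, hcost⟩ := hmem
  have := hcost.eq_nil_of_reduced hρ FreeGroup.isReduced_toWord hsep hc
  rw [← FreeGroup.mk_toWord (x := w), this]
  rfl

/-- Hausdorff topological groups are Tychonoff -/
lemma t35_of_group (G : Type u) [Group G] [TopologicalSpace G] [IsTopologicalGroup G] [T2Space G] :
    T35Space G := by
  have : CompletelyRegularSpace G :=
    CompletelyRegularSpace.of_exists_uniformSpace ⟨IsTopologicalGroup.rightUniformSpace G, rfl⟩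
  exact {}

/-- `F₄(X)` is a `k_R`-space -/
lemma kR_four [TopologicalSpace (FreeGroup X)] (hF : IsFreeTop X)
    [TopologicalSpace.MetrizableSpace X] (hK : IsCompact {x : X | ¬ IsOpen ({x} : Set X)}) :
    T35Space {w : FreeGroup X // ∃ L : List (X × Bool), L.length ≤ 4 ∧ FreeGroup.mk L = w} ∧
    ∀ f : {w : FreeGroup X // ∃ L : List (X × Bool), L.length ≤ 4 ∧ FreeGroup.mk L = w} → ℝ,
      (∀ K, IsCompact K → ContinuousOn f K) → Continuous f := by
  have := hF.grp
  have := hF.t2
  have := t35_of_group (FreeGroup X)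
  have := frechet_four hF hK
  exact ⟨Topology.IsEmbedding.subtypeVal.t35Space, fun f hf => continuous_of_compact f hf⟩

end Q177.FreeTop
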