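import Mathlib
import Pool.Agent.Q177.KOmega

/-!
# Free topological vector spaces
-/

set_option autoImplicit false

universe u v

namespace Q177.FreeVec

open Set Topology Filter Q177.KOmega

variable {X : Type u}

/-- `t` is the topology of the free topological vector space `V(X)` on `X →₀ ℝ`. -/
structure IsFreeVec (X : Type u) [TopologicalSpace X] [t : TopologicalSpace (X →₀ ℝ)] : Prop where
  add : IsTopologicalAddGroup (X →₀ ℝ)
  smul : ContinuousSMul ℝ (X →₀ ℝ)
  cont : Continuous (fun x : X => Finsupp.single x (1 : ℝ))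
  le : ∀ s : TopologicalSpace (X →₀ ℝ), @IsTopologicalAddGroup (X →₀ ℝ) s _ →
    @ContinuousSMul ℝ (X →₀ ℝ) _ _ s →
    @Continuous X (X →₀ ℝ) _ s (fun x : X => Finsupp.single x (1 : ℝ)) → t ≤ s

/-- the topology of the free topological vector space: the finest vector topology for which the
map of `X` is continuous -/
@[reducible]
def vecTop (X : Type u) [τ : TopologicalSpace X] : TopologicalSpace (X →₀ ℝ) :=
  sInf {t | @IsTopologicalAddGroup (X →₀ ℝ) t _ ∧ @ContinuousSMul ℝ (X →₀ ℝ) _ _ t ∧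
    @Continuous X (X →₀ ℝ) τ t (fun x : X => Finsupp.single x (1 : ℝ))}

lemma isFreeVec_vecTop (X : Type u) [τ : TopologicalSpace X] :
    @IsFreeVec X τ (vecTop X) := by
  refine @IsFreeVec.mk X τ (vecTop X) ?_ ?_ ?_ ?_
  · exact topologicalAddGroup_sInf fun t ht => ht.1
  · exact continuousSMul_sInf fun t ht => ht.2.1
  · rw [continuous_sInf_rng]
    exact fun t ht => ht.2.2
  · intro s h1 h2 h3
    exact sInf_le ⟨h1, h2, h3⟩

variable [TopologicalSpace X]

lemma IsFreeVec.continuous_lift [TopologicalSpace (X →₀ ℝ)] (h : IsFreeVec X) {E : Type v}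
    [AddCommGroup E] [Module ℝ E] [TopologicalSpace E] [IsTopologicalAddGroup E]
    [ContinuousSMul ℝ E] (f : X → E) (hf : Continuous f) :
    Continuous (Finsupp.linearCombination ℝ f) := by
  rw [continuous_iff_le_induced]
  refine h.le (TopologicalSpace.induced (Finsupp.linearCombination ℝ f) inferInstance)
    (topologicalAddGroup_induced _) (continuousSMul_induced _) ?_
  rw [continuous_induced_rng]
  convert hf using 1
  funext x
  simp

/-- `Σ_{j<n} c_j x_j` -/
noncomputable def comb (n : ℕ) (p : (Fin n → ℝ) × (Fin n → X)) : X →₀ ℝ :=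
  ∑ j, Finsupp.single (p.2 j) (p.1 j)

lemma continuous_comb [TopologicalSpace (X →₀ ℝ)] (h : IsFreeVec X) (n : ℕ) :
    Continuous (comb (X := X) n) := by
  have := h.add
  have := h.smul
  unfold comb
  refine continuous_finsetSum _ fun j _ => ?_
  have h1 : (fun p : (Fin n → ℝ) × (Fin n → X) => Finsupp.single (p.2 j) (p.1 j)) =
      fun p => p.1 j • Finsupp.single (p.2 j) (1 : ℝ) := by
    funext p
    simp
  rw [h1]
  exact ((continuous_apply j).comp continuous_fst).smul
    (h.cont.comp ((continuous_apply j).comp continuous_snd))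

/-- the set of all `Σ_{j<n} c_j x_j` with `|c_j| ≤ a` and `x_j ∈ C` -/
def Im (n : ℕ) (a : ℝ) (C : Set X) : Set (X →₀ ℝ) :=
  {v | ∃ (c : Fin n → ℝ) (x : Fin n → X), (∀ j, c j ∈ Icc (-a) a) ∧ (∀ j, x j ∈ C) ∧
    v = ∑ j, Finsupp.single (x j) (c j)}

lemma isCompact_Im [TopologicalSpace (X →₀ ℝ)] (h : IsFreeVec X) (n : ℕ) (a : ℝ) {C : Set X}
    (hC : IsCompact C) : IsCompact (Im n a C) := by
  have h1 : Im n a C = comb n '' ((Set.pi univ fun _ => Icc (-a) a) ×ˢ (Set.pi univ fun _ => C)) := by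
    ext v
    constructor
    · rintro ⟨c, x, hc, hx, rfl⟩
      exact ⟨(c, x), ⟨fun j _ => hc j, fun j _ => hx j⟩, rfl⟩
    · rintro ⟨⟨c, x⟩, ⟨hc, hx⟩, rfl⟩
      exact ⟨c, x, fun j => hc j trivial, fun j => hx j trivial, rfl⟩
  rw [h1]
  exact ((isCompact_univ_pi fun _ => isCompact_Icc).prod
    (isCompact_univ_pi fun _ => hC)).image (continuous_comb h n)

omit [TopologicalSpace X] in
lemma Im_mono {n n' : ℕ} {a a' : ℝ} {C C' : Set X} (hn : n ≤ n') (ha : a ≤ a') (ha' : 0 ≤ a')
    (hC : C ⊆ C') {x₀ : X} (hx₀ : x₀ ∈ C') : Im n a C ⊆ Im n' a' C' := by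
  rintro v ⟨c, x, hc, hx, rfl⟩
  obtain ⟨k, rfl⟩ := Nat.exists_eq_add_of_le hn
  refine ⟨Fin.append c (fun _ => 0), Fin.append x (fun _ => x₀), ?_, ?_, ?_⟩
  · intro j
    refine Fin.addCases (fun i => ?_) (fun i => ?_) j
    · rw [Fin.append_left]
      exact ⟨by linarith [(hc i).1], (hc i).2.trans ha⟩
    · rw [Fin.append_right]
      exact ⟨by linarith, ha'⟩
  · intro j
    refine Fin.addCases (fun i => ?_) (fun i => ?_) j
    · rw [Fin.append_left]
      exact hC (hx i)
    · rw [Fin.append_right]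
      exact hx₀
  · rw [Fin.sum_univ_add]
    simp [Fin.append_left, Fin.append_right]

omit [TopologicalSpace X] in
lemma Im_add {n n' : ℕ} {a : ℝ} {C : Set X} {v w : X →₀ ℝ} (hv : v ∈ Im n a C)
    (hw : w ∈ Im n' a C) : v + w ∈ Im (n + n') a C := by
  obtain ⟨c, x, hc, hx, rfl⟩ := hv
  obtain ⟨c', x', hc', hx', rfl⟩ := hw
  refine ⟨Fin.append c c', Fin.append x x', ?_, ?_, ?_⟩
  · intro j
    refine Fin.addCases (fun i => ?_) (fun i => ?_) j
    · rw [Fin.append_left]
      exact hc i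
    · rw [Fin.append_right]
      exact hc' i
  · intro j
    refine Fin.addCases (fun i => ?_) (fun i => ?_) j
    · rw [Fin.append_left]
      exact hx i
    · rw [Fin.append_right]
      exact hx' i
  · rw [Fin.sum_univ_add]
    simp [Fin.append_left, Fin.append_right]

omit [TopologicalSpace X] in
lemma Im_smul {n : ℕ} {a r b : ℝ} {C : Set X} {v : X →₀ ℝ} (hv : v ∈ Im n a C)
    (hr : |r| ≤ b) : r • v ∈ Im n (b * a) C := by
  obtain ⟨c, x, hc, hx, rfl⟩ := hv
  refine ⟨fun j => r * c j, x, fun j => ?_, hx, ?_⟩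
  · have h1 : |c j| ≤ a := abs_le.2 (hc j)
    have h2 : |r * c j| ≤ b * a := by
      rw [abs_mul]
      exact mul_le_mul hr h1 (abs_nonneg _) ((abs_nonneg _).trans hr)
    exact abs_le.1 h2
  · rw [Finset.smul_sum]
    simp

/-- `spₙ(X)` -/
def sp (X : Type u) (n : ℕ) : Set (X →₀ ℝ) :=
  {v | ∃ (c : Fin n → ℝ) (x : Fin n → X), (∀ j, c j ∈ Icc (-(n : ℝ)) n) ∧
    v = ∑ j, Finsupp.single (x j) (c j)}

end Q177.FreeVec
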