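import Mathlib
import Pool.Agent.Q177.KOmega
import Pool.Agent.Q177.FreeVec

/-!
# Free topological vector spaces over locally compact σ-compact metrizable spaces
-/

set_option autoImplicit false

universe u v

namespace Q177.FreeVec

open Set Topology Filter Q177.KOmega

variable {X : Type u} [TopologicalSpace X]

/-- A `k`-space: a set is closed if its trace on every compact subspace is closed. -/
def IsKSpace (Z : Type u) [TopologicalSpace Z] : Prop :=
  ∀ C : Set Z, (∀ K : Set Z, IsCompact K → IsClosed ((↑) ⁻¹' C : Set K)) → IsClosed C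

/-- functionals given by continuous functions -/
lemma IsFreeVec.t2 [TopologicalSpace (X →₀ ℝ)] (h : IsFreeVec X) [T35Space X] :
    T2Space (X →₀ ℝ) := by
  classical
  have := h.add
  refine IsTopologicalAddGroup.t2Space_of_zero_sep fun v hv => ?_
  obtain ⟨x, hx⟩ : ∃ x, v x ≠ 0 := by
    by_contra hcon
    push Not at hcon
    exact hv (Finsupp.ext hcon)
  -- a function which is `0` at `x` and `1` at the other points of the support
  have hclosed : IsClosed ((v.support.erase x : Finset X) : Set X) := (Finset.finite_toSet _).isClosed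
  obtain ⟨f, hf, hfx, hf1⟩ := CompletelyRegularSpace.completely_regular x _ hclosed (by simp)
  let g : X → ℝ := fun y => 1 - (f y : ℝ)
  have hg : Continuous g := continuous_const.sub (continuous_subtype_val.comp hf)
  have hT := h.continuous_lift g hg
  have hval : Finsupp.linearCombination ℝ g v = v x := by
    rw [Finsupp.linearCombination_apply, Finsupp.sum]
    rw [Finset.sum_eq_single x]
    · simp [g, hfx]
    · intro y hy hyx
      have : f y = 1 := hf1 (by simp [hyx] at *; exact hy)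
      simp [g, this]
    · intro hx'
      simp at hx'
      exact (hx hx').elim
  have hpos : 0 < |v x| := abs_pos.2 hx
  refine ⟨{w | |Finsupp.linearCombination ℝ g w| < |v x|}, ?_, ?_⟩
  · refine (continuous_abs.comp hT).tendsto (0 : X →₀ ℝ) (Iio_mem_nhds (a := |v x|) ?_)
    simpa using hpos
  · simp only [mem_ofPred_eq, hval]
    exact lt_irrefl _

lemma addGroup_of_smul {V : Type u} [AddCommGroup V] [Module ℝ V] (k : TopologicalSpace V)
    (hadd : @Continuous (V × V) V (@instTopologicalSpaceProd _ _ k k) k fun p => p.1 + p.2)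
    (hsmul : @Continuous (ℝ × V) V (@instTopologicalSpaceProd ℝ V _ k) k fun p => p.1 • p.2) :
    @IsTopologicalAddGroup V k _ := by
  have h1 : ContinuousAdd V := ⟨hadd⟩
  have h2 : ContinuousSMul ℝ V := ⟨hsmul⟩
  have h3 : ContinuousNeg V := ⟨by
    have h1 : (fun v : V => -v) = fun v => (-1 : ℝ) • v := by
      funext v
      simp
    rw [h1]
    exact continuous_const.smul continuous_id⟩
  exact {}

section kw

variable [t : TopologicalSpace (X →₀ ℝ)] (h : IsFreeVec X) (C : ℕ → Set X) {x₀ : X}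

include h in
/-- The topology of `V(X)` is the `k_ω`-topology. -/
lemma isOpen_of_kTop [T35Space X] (hC : ∀ m, IsCompact (C m)) (hCm : Monotone C)
    (hCi : ∀ x, ∃ m, x ∈ interior (C m)) (hx₀ : ∀ m, x₀ ∈ C m) {U : Set (X →₀ ℝ)}
    (hU : IsOpen[kTop fun m : ℕ => Im m (m : ℝ) (C m)] U) : IsOpen U := by
  have := h.add
  have := h.smul
  have := h.t2
  set K : ℕ → Set (X →₀ ℝ) := fun m : ℕ => Im m (m : ℝ) (C m) with hKdef
  have hK : ∀ m, IsCompact (K m) := fun m => isCompact_Im h m m (hC m)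
  have hKm : Monotone K := fun m n hmn => Im_mono hmn (by exact_mod_cast hmn) (by positivity)
    (hCm hmn) (hx₀ n)
  have hKu : ∀ v, ∃ m, v ∈ K m := by
    intro v
    induction v using Finsupp.induction_linear with
    | zero => exact ⟨0, 0, fun i => i.elim0, fun i => i.elim0, fun i => i.elim0, by simp⟩
    | add v w hv hw =>
      obtain ⟨m, hm⟩ := hv
      obtain ⟨n, hn⟩ := hw
      refine ⟨max m n + max m n, ?_⟩
      have h1 := Im_add (hKm (le_max_left m n) hm) (hKm (le_max_right m n) hn)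
      refine Im_mono le_rfl ?_ (by positivity) (hCm (Nat.le_add_right _ _)) (hx₀ _) h1
      exact_mod_cast Nat.le_add_right _ _
    | single x c =>
      obtain ⟨m, hm⟩ := hCi x
      have hxm := interior_subset hm
      obtain ⟨k, hk⟩ := exists_nat_ge |c|
      refine ⟨max (max m k) 1, ?_⟩
      have h1 : Finsupp.single x c ∈ Im 1 (k : ℝ) (C m) :=
        ⟨fun _ => c, fun _ => x, fun _ => abs_le.1 hk, fun _ => hxm, by simp⟩
      refine Im_mono (le_max_right _ _) ?_ (by positivity)
        (hCm ((le_max_left m k).trans (le_max_left _ _))) (hx₀ _) h1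
      exact_mod_cast (le_max_right m k).trans (le_max_left _ _)
  have hadd : ∀ m, ∃ m', ∀ p ∈ K m ×ˢ K m, p.1 + p.2 ∈ K m' := by
    intro m
    refine ⟨m + m, fun p hp => ?_⟩
    have h1 := Im_add hp.1 hp.2
    refine Im_mono le_rfl ?_ (by positivity) (hCm (Nat.le_add_right _ _)) (hx₀ _) h1
    exact_mod_cast Nat.le_add_right _ _
  let L : ℕ → Set ℝ := fun m => Icc (-(m : ℝ)) m
  have hL : ∀ m, IsCompact (L m) := fun m => isCompact_Icc
  have hLm : Monotone L := fun m n hmn => by
    have : (m : ℝ) ≤ n := by exact_mod_cast hmn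
    exact Icc_subset_Icc (by linarith) this
  have hLu : ∀ r : ℝ, ∃ m, r ∈ L m := fun r => by
    obtain ⟨m, hm⟩ := exists_nat_ge |r|
    exact ⟨m, abs_le.1 hm⟩
  have hsmul : ∀ m, ∃ m', ∀ p ∈ L m ×ˢ K m, p.1 • p.2 ∈ K m' := by
    intro m
    refine ⟨m + m * m, fun p hp => ?_⟩
    have h1 := Im_smul (b := (m : ℝ)) hp.2 (abs_le.2 hp.1)
    refine Im_mono (Nat.le_add_right _ _) ?_ (by positivity) (hCm (Nat.le_add_right _ _)) (hx₀ _) h1
    push_cast
    nlinarith [(Nat.cast_nonneg m : (0 : ℝ) ≤ m)]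
  have hcadd : @Continuous _ _ (@instTopologicalSpaceProd _ _ (kTop K) (kTop K)) (kTop K)
      (fun p : (X →₀ ℝ) × (X →₀ ℝ) => p.1 + p.2) :=
    continuous_kTop₂ hK hKm hKu hK hKm hKu _ continuous_add hadd
  have hcsmul' : @Continuous _ _ (@instTopologicalSpaceProd _ _ (kTop L) (kTop K)) (kTop K)
      (fun p : ℝ × (X →₀ ℝ) => p.1 • p.2) :=
    continuous_kTop₂ hL hLm hLu hK hKm hKu _ continuous_smul hsmul
  have hLtop : ∀ O : Set ℝ, IsOpen[kTop L] O → IsOpen O := by
    intro O hO
    rw [isOpen_iff_mem_nhds]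
    intro r hr
    obtain ⟨m, hm⟩ := exists_nat_gt |r|
    obtain ⟨P, hP, hOP⟩ := hO m
    have h1 := abs_lt.1 hm
    have h2 : Ioo (-(m : ℝ)) m ∈ 𝓝 r := Ioo_mem_nhds h1.1 h1.2
    have hrP : r ∈ P ∩ L m := by
      rw [← hOP]
      exact ⟨hr, h1.1.le, h1.2.le⟩
    filter_upwards [h2, hP.mem_nhds hrP.1] with s hs hsP
    have : s ∈ O ∩ L m := by
      rw [hOP]
      exact ⟨hsP, hs.1.le, hs.2.le⟩
    exact this.1
  have hcsmul : @Continuous _ _ (@instTopologicalSpaceProd ℝ _ _ (kTop K)) (kTop K)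
      (fun p : ℝ × (X →₀ ℝ) => p.1 • p.2) := by
    rw [@continuous_def] at hcsmul' ⊢
    intro O hO
    have h1 := hcsmul' O hO
    rw [@isOpen_prod_iff] at h1 ⊢
    intro a b hab
    obtain ⟨P, Q, hP, hQ, ha, hb, hPQ⟩ := h1 a b hab
    exact ⟨P, Q, hLtop P hP, hQ, ha, hb, hPQ⟩
  have hS : @ContinuousSMul ℝ (X →₀ ℝ) _ _ (kTop K) := @ContinuousSMul.mk ℝ _ _ _ (kTop K) hcsmul
  have hA : @IsTopologicalAddGroup (X →₀ ℝ) (kTop K) _ :=
    addGroup_of_smul (kTop K) hcadd hcsmul
  have hX : @Continuous X (X →₀ ℝ) _ (kTop K) (fun x : X => Finsupp.single x (1 : ℝ)) := by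
    rw [@continuous_def]
    intro O hO
    rw [isOpen_iff_mem_nhds]
    intro x hx
    obtain ⟨m, hm⟩ := hCi x
    obtain ⟨P, hP, hOP⟩ := hO (max m 1)
    have hin : ∀ y ∈ interior (C m), Finsupp.single y (1 : ℝ) ∈ K (max m 1) := by
      intro y hy
      have h1 : Finsupp.single y (1 : ℝ) ∈ Im 1 (1 : ℝ) (C m) :=
        ⟨fun _ => 1, fun _ => y, fun _ => by norm_num, fun _ => interior_subset hy, by simp⟩
      refine Im_mono (le_max_right _ _) ?_ (by positivity) (hCm (le_max_left _ _)) (hx₀ _) h1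
      exact_mod_cast le_max_right m 1
    have hxP : Finsupp.single x (1 : ℝ) ∈ P ∩ K (max m 1) := by
      rw [← hOP]
      exact ⟨hx, hin x hm⟩
    have h2 : ∀ᶠ y in 𝓝 x, Finsupp.single y (1 : ℝ) ∈ P :=
      h.cont.continuousAt (hP.mem_nhds hxP.1)
    filter_upwards [h2, isOpen_interior.mem_nhds hm] with y hy1 hy2
    have : Finsupp.single y (1 : ℝ) ∈ O ∩ K (max m 1) := by
      rw [hOP]
      exact ⟨hy1, hin y hy2⟩
    exact this.1
  exact h.le (kTop K) hA hS hX U hU

include h in
lemma isClosed_of_inter [T35Space X] (hC : ∀ m, IsCompact (C m)) (hCm : Monotone C)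
    (hCi : ∀ x, ∃ m, x ∈ interior (C m)) (hx₀ : ∀ m, x₀ ∈ C m) {S : Set (X →₀ ℝ)}
    (hS : ∀ m : ℕ, IsClosed (S ∩ Im m (m : ℝ) (C m))) : IsClosed S := by
  rw [← isOpen_compl_iff]
  refine isOpen_of_kTop h C hC hCm hCi hx₀ fun m => ⟨(S ∩ Im m (m : ℝ) (C m))ᶜ,
    (hS m).isOpen_compl, ?_⟩
  ext v
  constructor
  · rintro ⟨h1, h2⟩
    exact ⟨fun h3 => h1 h3.1, h2⟩
  · rintro ⟨h1, h2⟩
    exact ⟨fun h3 => h1 ⟨h3, h2⟩, h2⟩

omit [TopologicalSpace X] t in
lemma sp_inter (n m : ℕ) (C : Set X) {x₀ : X} (hx₀ : x₀ ∈ C) :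
    sp X n ∩ Im m (m : ℝ) C = Im n (n : ℝ) C ∩ Im m (m : ℝ) C := by
  classical
  ext v
  constructor
  · rintro ⟨⟨c, x, hc, hv⟩, hm⟩
    refine ⟨?_, hm⟩
    have hsupp : ∀ y, v y ≠ 0 → y ∈ C := by
      intro y hy
      obtain ⟨c', x', -, hx', rfl⟩ := hm
      by_contra hcon
      apply hy
      rw [Finsupp.finsetSum_apply]
      refine Finset.sum_eq_zero fun j _ => ?_
      rw [Finsupp.single_apply, if_neg]
      rintro rfl
      exact hcon (hx' j)
    refine ⟨fun j => if x j ∈ C then c j else 0, fun j => if x j ∈ C then x j else x₀, ?_, ?_, ?_⟩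
    · intro j
      dsimp only
      split_ifs
      · exact hc j
      · exact ⟨by simp, by positivity⟩
    · intro j
      dsimp only
      split_ifs with hj
      · exact hj
      · exact hx₀
    · ext y
      rw [Finsupp.finsetSum_apply]
      by_cases hy : y ∈ C
      · have h1 : v y = ∑ j, Finsupp.single (x j) (c j) y := by
          rw [hv, Finsupp.finsetSum_apply]
        rw [h1]
        refine Finset.sum_congr rfl fun j _ => ?_
        by_cases hj : x j ∈ C
        · simp only [if_pos hj]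
        · simp only [if_neg hj, Finsupp.single_zero]
          rw [Finsupp.single_apply, if_neg]
          · rfl
          · rintro rfl
            exact hj hy
      · have h1 : v y = 0 := by
          by_contra hcon
          exact hy (hsupp y hcon)
        rw [h1]
        symm
        refine Finset.sum_eq_zero fun j _ => ?_
        by_cases hj : x j ∈ C
        · simp only [if_pos hj]
          rw [Finsupp.single_apply, if_neg]
          rintro rfl
          exact hy hj
        · simp only [if_neg hj, Finsupp.single_zero]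
          rfl
  · rintro ⟨⟨c, x, hc, -, hv⟩, hm⟩
    exact ⟨⟨c, x, hc, hv⟩, hm⟩

include h in
lemma isKSpace_sp [T35Space X] (hC : ∀ m, IsCompact (C m)) (hCm : Monotone C)
    (hCi : ∀ x, ∃ m, x ∈ interior (C m)) (hx₀ : ∀ m, x₀ ∈ C m) (n : ℕ) :
    IsKSpace (sp X n) := by
  have := h.add
  have := h.t2
  have hcl : ∀ m, IsClosed (sp X n ∩ Im m (m : ℝ) (C m)) := fun m => by
    rw [sp_inter n m (C m) (hx₀ m)]
    exact (isCompact_Im h n n (hC m)).isClosed.inter (isCompact_Im h m m (hC m)).isClosed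
  have hspc : IsClosed (sp X n) := isClosed_of_inter h C hC hCm hCi hx₀ hcl
  intro S hS
  have hemb : IsClosedEmbedding (Subtype.val : sp X n → (X →₀ ℝ)) := hspc.isClosedEmbedding_subtypeVal
  rw [hemb.isClosed_iff_image_isClosed]
  refine isClosed_of_inter h C hC hCm hCi hx₀ fun m => ?_
  have hK : IsCompact ((Subtype.val : sp X n → (X →₀ ℝ)) ⁻¹' Im m (m : ℝ) (C m)) :=
    hemb.isCompact_preimage (isCompact_Im h m m (hC m))
  have h1 := hS _ hK
  have h2 : IsClosed (S ∩ (Subtype.val : sp X n → (X →₀ ℝ)) ⁻¹' Im m (m : ℝ) (C m)) := by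
    have h3 := hK.isClosed.isClosedEmbedding_subtypeVal.isClosedMap _ h1
    rwa [Subtype.image_preimage_coe, inter_comm] at h3
  have h4 : Subtype.val '' S ∩ Im m (m : ℝ) (C m) =
      Subtype.val '' (S ∩ (Subtype.val : sp X n → (X →₀ ℝ)) ⁻¹' Im m (m : ℝ) (C m)) := by
    rw [image_inter_preimage]
  rw [h4]
  exact hemb.isClosedMap _ h2

end kw

end Q177.FreeVec
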