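import Mathlib
import Pool.Agent.Q177.FreeVec
import Pool.Agent.Q177.FreeVecK

/-!
# Free topological vector spaces: weighted coordinate maps, bump functions
-/

set_option autoImplicit false

universe u v

namespace Q177.FreeVec

open Set Topology Filter
open scoped ENNReal

variable {X : Type u} [TopologicalSpace X] [TopologicalSpace (X →₀ ℝ)] {ι : Type v}

omit [TopologicalSpace X] [TopologicalSpace (X →₀ ℝ)] in
/-- the linear extension of a real function -/
noncomputable def phat (f : X → ℝ) : (X →₀ ℝ) →ₗ[ℝ] ℝ := Finsupp.linearCombination ℝ f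

omit [TopologicalSpace X] [TopologicalSpace (X →₀ ℝ)] in
lemma phat_single (f : X → ℝ) (x : X) (c : ℝ) : phat f (Finsupp.single x c) = c * f x := by
  simp [phat]

lemma exists_weighted (h : IsFreeVec X) (φ : ι → X → ℝ) (hφ : ∀ i, Continuous (φ i))
    (hlf : LocallyFinite fun i => Function.support (φ i)) (c : ι → ℝ) :
    ∃ T : (X →₀ ℝ) → lp (fun _ : ι => ℝ) ∞, Continuous T ∧ T 0 = 0 ∧
      ∀ v i, (T v : ι → ℝ) i = c i * phat (φ i) v := by
  classical
  let F : X → lp (fun _ : ι => ℝ) ∞ := fun x => ∑ᶠ i, lp.single ∞ i (c i * φ i x)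
  have hF : Continuous F := by
    refine continuous_finsum (fun i => ?_) ?_
    · exact (lp.isometry_single (E := fun _ : ι => ℝ) (p := ∞) i).continuous.comp
        (continuous_const.mul (hφ i))
    · refine hlf.subset fun i x hx => ?_
      rw [Function.mem_support] at hx ⊢
      intro h0
      apply hx
      rw [h0, mul_zero, lp.single_zero]
  have hFi : ∀ x i, (F x : ι → ℝ) i = c i * φ i x := by
    intro x i
    have hfin : (Function.support fun i => lp.single (E := fun _ : ι => ℝ) ∞ i (c i * φ i x)).Finite := by
      refine (hlf.point_finite x).subset fun i hi => ?_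
      rw [Function.mem_support] at hi
      change φ i x ≠ 0
      intro h0
      apply hi
      rw [h0, mul_zero, lp.single_zero]
    simp only [F]
    rw [finsum_eq_sum _ hfin, lp.coeFn_sum, Finset.sum_apply]
    by_cases hi : i ∈ hfin.toFinset
    · rw [Finset.sum_eq_single i]
      · simp
      · intro j _ hji
        exact lp.single_apply_ne _ _ _ hji.symm
      · intro hcon
        exact (hcon hi).elim
    · have h0 : c i * φ i x = 0 := by
        by_contra hne
        apply hi
        rw [Set.Finite.mem_toFinset, Function.mem_support]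
        intro h1
        apply hne
        have := congrArg (fun f : lp (fun _ : ι => ℝ) ∞ => (f : ι → ℝ) i) h1
        simpa using this
      rw [h0]
      refine Finset.sum_eq_zero fun j hj => ?_
      by_cases hji : i = j
      · subst hji
        exact (hi hj).elim
      · exact lp.single_apply_ne _ _ _ hji
  refine ⟨Finsupp.linearCombination ℝ F, h.continuous_lift F hF, map_zero _, fun v i => ?_⟩
  induction v using Finsupp.induction_linear with
  | zero => simp
  | add v w hv hw =>
    rw [map_add, map_add, lp.coeFn_add, Pi.add_apply, hv, hw]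
    ring
  | single x a =>
    rw [Finsupp.linearCombination_single, lp.coeFn_smul, Pi.smul_apply, hFi, phat_single,
      smul_eq_mul]
    ring

/-- compact sets have only finitely many nonzero coordinates for a locally finite family -/
lemma compact_finite (h : IsFreeVec X) (φ : ι → X → ℝ) (hφ : ∀ i, Continuous (φ i))
    (hlf : LocallyFinite fun i => Function.support (φ i)) {K : Set (X →₀ ℝ)} (hK : IsCompact K) :
    {i | ∃ v ∈ K, phat (φ i) v ≠ 0}.Finite := by
  classical
  by_contra hinf
  have hinf' : {i | ∃ v ∈ K, phat (φ i) v ≠ 0}.Infinite := hinf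
  let e := hinf'.natEmbedding
  choose v hvK hv using fun n => (e n).2
  have hinj : Function.Injective fun n => (e n : ι) := fun a b hab => e.injective (Subtype.ext hab)
  let c : ι → ℝ := Function.extend (fun n => (e n : ι)) (fun n => (n : ℝ) / |phat (φ (e n)) (v n)|)
    (fun _ => 0)
  have hc : ∀ n, c (e n) = (n : ℝ) / |phat (φ (e n)) (v n)| := fun n => hinj.extend_apply _ _ n
  obtain ⟨T, hT, -, hTi⟩ := exists_weighted h φ hφ hlf c
  obtain ⟨M, hM⟩ := (hK.image hT).isBounded.exists_norm_le
  obtain ⟨n, hn⟩ := exists_nat_gt M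
  have h1 := hM (T (v n)) ⟨v n, hvK n, rfl⟩
  have h2 := (lp.norm_apply_le_norm ENNReal.top_ne_zero (T (v n)) (e n : ι)).trans h1
  rw [hTi, hc, Real.norm_eq_abs, abs_mul, abs_div, abs_abs,
    div_mul_cancel₀ _ (abs_ne_zero.2 (hv n)), Nat.abs_cast] at h2
  linarith

end Q177.FreeVec
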