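import Mathlib
import Pool.Agent.Q177.FreeVec
import Pool.Agent.Q177.FreeVecK
import Pool.Agent.Q177.FreeVecBump

/-!
# Consequences of the `k`-property or of countable tightness of `sp₂(X)` for metrizable `X`
-/

set_option autoImplicit false

universe u v

namespace Q177.FreeVec

open Set Topology Filter

/-! ### Bump functions in metric spaces -/

section bumps

variable {X : Type u} [MetricSpace X]

/-- a cone function -/
noncomputable def cone (a : X) (r : ℝ) (y : X) : ℝ := max 0 (1 - dist y a / r)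

lemma continuous_cone (a : X) (r : ℝ) : Continuous (cone a r) :=
  continuous_const.max (continuous_const.sub ((continuous_id.dist continuous_const).div_const r))

lemma cone_self (a : X) (r : ℝ) : cone a r a = 1 := by
  simp [cone]

lemma cone_eq_zero {a : X} {r : ℝ} (hr : 0 < r) {y : X} (hy : r ≤ dist y a) : cone a r y = 0 := by
  unfold cone
  rw [max_eq_left]
  have : 1 ≤ dist y a / r := (one_le_div hr).2 hy
  linarith

lemma dist_lt_of_cone {a : X} {r : ℝ} (hr : 0 < r) {y : X} (hy : cone a r y ≠ 0) :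
    dist y a < r := by
  by_contra hcon
  exact hy (cone_eq_zero hr (not_lt.1 hcon))

lemma bump_sep {D : Set X} {ε : ℝ} (hε : 0 < ε)
    (hD : ∀ x ∈ D, ∀ y ∈ D, x ≠ y → ε ≤ dist x y) :
    ∃ φ : D → X → ℝ, (∀ d, Continuous (φ d)) ∧ LocallyFinite (fun d => Function.support (φ d)) ∧
      (∀ d : D, φ d d = 1) ∧ ∀ d e : D, d ≠ e → φ d e = 0 := by
  have h4 : 0 < ε / 4 := by linarith
  refine ⟨fun d => cone (d : X) (ε / 4), fun d => continuous_cone _ _, ?_, fun d => cone_self _ _,
    fun d e hde => ?_⟩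
  · intro y
    refine ⟨Metric.ball y (ε / 8), Metric.ball_mem_nhds y (by linarith), ?_⟩
    refine Set.Subsingleton.finite ?_
    rintro d ⟨z, hz, hzy⟩ e ⟨w, hw, hwy⟩
    by_contra hne
    have h1 : dist z (d : X) < ε / 4 := dist_lt_of_cone h4 hz
    have h2 : dist w (e : X) < ε / 4 := dist_lt_of_cone h4 hw
    have h3 : dist z y < ε / 8 := hzy
    have h5 : dist w y < ε / 8 := hwy
    have h6 := hD d d.2 e e.2 (fun h => hne (Subtype.ext h))
    have h7 : dist (d : X) e ≤ dist z (d : X) + dist z y + dist w y + dist w e := by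
      have e1 := dist_triangle (d : X) z e
      have e2 := dist_triangle z y (e : X)
      have e3 := dist_triangle y w (e : X)
      rw [dist_comm (d : X) z] at e1
      rw [dist_comm y w] at e3
      linarith
    linarith
  · apply cone_eq_zero h4
    have := hD d d.2 e e.2 (fun h => hde (Subtype.ext h))
    rw [dist_comm]
    linarith

lemma bump_seq {x : ℕ → X} (hinj : Function.Injective x)
    (hx : ∀ y, ∃ δ > 0, {n | dist (x n) y < δ}.Finite) {O : Set X} (hO : IsOpen O)
    (hxO : ∀ n, x n ∈ O) :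
    ∃ φ : ℕ → X → ℝ, (∀ n, Continuous (φ n)) ∧ LocallyFinite (fun n => Function.support (φ n)) ∧
      (∀ n, φ n (x n) = 1) ∧ (∀ n m, n ≠ m → φ n (x m) = 0) ∧ ∀ n, ∀ y ∉ O, φ n y = 0 := by
  have hr : ∀ n : ℕ, ∃ r > 0, r ≤ 1 / ((n : ℝ) + 1) ∧ Metric.ball (x n) r ⊆ O ∧
      ∀ m, n ≠ m → r ≤ dist (x m) (x n) := by
    intro n
    obtain ⟨δ, hδ, hfin⟩ := hx (x n)
    obtain ⟨δ', hδ', hball⟩ := Metric.isOpen_iff.1 hO (x n) (hxO n)
    have hmin : ∃ ε > 0, ∀ m ∈ {m | dist (x m) (x n) < δ}, n ≠ m → ε ≤ dist (x m) (x n) := by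
      have hfin' := (hfin.subset (t := {m | dist (x m) (x n) < δ} \ {n}) sdiff_subset).image
        (fun m => dist (x m) (x n))
      by_cases hne : ((fun m => dist (x m) (x n)) '' ({m | dist (x m) (x n) < δ} \ {n})).Nonempty
      · obtain ⟨b, ⟨m, ⟨hm1, hm2⟩, rfl⟩, hb⟩ := hfin'.exists_minimal hne
        refine ⟨dist (x m) (x n), dist_pos.2 (fun h => hm2 (hinj h)), fun k hk hkn => ?_⟩
        rcases le_total (dist (x m) (x n)) (dist (x k) (x n)) with h | h
        · exact h
        · exact hb ⟨k, ⟨hk, fun h => hkn h.symm⟩, rfl⟩ h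
      · refine ⟨1, one_pos, fun m hm hnm => (hne ⟨_, m, ⟨hm, fun h => hnm h.symm⟩, rfl⟩).elim⟩
    obtain ⟨ε, hε, hmin⟩ := hmin
    refine ⟨min (min δ δ') (min ε (1 / ((n : ℝ) + 1))), by positivity,
      (min_le_right _ _).trans (min_le_right _ _), ?_, ?_⟩
    · exact (Metric.ball_subset_ball ((min_le_left _ _).trans (min_le_right _ _))).trans hball
    · intro m hnm
      by_cases hm : dist (x m) (x n) < δ
      · exact ((min_le_right _ _).trans (min_le_left _ _)).trans (hmin m hm hnm)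
      · exact ((min_le_left _ _).trans (min_le_left _ _)).trans (not_lt.1 hm)
  choose r hr0 hr1 hrO hrm using hr
  refine ⟨fun n => cone (x n) (r n), fun n => continuous_cone _ _, ?_, fun n => cone_self _ _,
    fun n m hnm => cone_eq_zero (hr0 n) (hrm n m hnm), fun n y hy => ?_⟩
  · intro y
    obtain ⟨δ, hδ, hfin⟩ := hx y
    refine ⟨Metric.ball y (δ / 2), Metric.ball_mem_nhds y (by linarith), ?_⟩
    obtain ⟨N, hN⟩ := exists_nat_one_div_lt (half_pos hδ)
    refine (hfin.union (finite_le_nat N)).subset ?_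
    rintro n ⟨z, hz, hzy⟩
    by_cases hn : n ≤ N
    · exact Or.inr hn
    · left
      have h1 : dist z (x n) < r n := dist_lt_of_cone (hr0 n) hz
      have h2 : dist z y < δ / 2 := hzy
      have h3 : 1 / ((n : ℝ) + 1) ≤ 1 / ((N : ℝ) + 1) := by
        apply one_div_le_one_div_of_le (by positivity)
        have : (N : ℝ) ≤ n := by exact_mod_cast (not_le.1 hn).le
        linarith
      have h4 := dist_triangle (x n) z y
      rw [dist_comm (x n) z] at h4
      have h5 := hr1 n
      change dist (x n) y < δ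
      linarith
  · apply cone_eq_zero (hr0 n)
    by_contra hcon
    exact hy (hrO n (not_le.1 hcon))

/-- noncompact closed sets contain closed discrete sequences -/
lemma exists_discrete_seq {C : Set X} (hC : IsClosed C) (hnc : ¬ IsCompact C) :
    ∃ x : ℕ → X, Function.Injective x ∧ (∀ n, x n ∈ C) ∧
      ∀ y, ∃ δ > 0, {n | dist (x n) y < δ}.Finite := by
  rw [isCompact_iff_isSeqCompact, IsSeqCompact] at hnc
  push Not at hnc
  obtain ⟨u, hu, hnc⟩ := hnc
  have h1 : ∀ y, ∃ δ > 0, {n | dist (u n) y < δ}.Finite := by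
    intro y
    by_contra hcon
    push Not at hcon
    have hfreq : ∀ k : ℕ, ∃ᶠ n in atTop, dist (u n) y < 1 / ((k : ℝ) + 1) := fun k =>
      Nat.frequently_atTop_iff_infinite.2 (hcon _ (by positivity))
    obtain ⟨φ, hφ, hφ'⟩ := extraction_forall_of_frequently hfreq
    have hlim : Tendsto (u ∘ φ) atTop (𝓝 y) := by
      rw [tendsto_iff_dist_tendsto_zero]
      exact squeeze_zero (fun n => dist_nonneg) (fun n => (hφ' n).le)
        tendsto_one_div_add_atTop_nhds_zero_nat
    have hyC : y ∈ C := hC.mem_of_tendsto hlim (Eventually.of_forall fun n => hu _)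
    exact hnc y hyC φ hφ hlim
  have hinf : (range u).Infinite := by
    intro hfin
    have huniv : (univ : Set ℕ) ⊆ ⋃ y ∈ range u, {n | u n = y} := fun n _ =>
      mem_iUnion₂.2 ⟨u n, ⟨n, rfl⟩, rfl⟩
    refine infinite_univ ((hfin.biUnion fun y _ => ?_).subset huniv)
    obtain ⟨δ, hδ, hf⟩ := h1 y
    refine hf.subset fun n hn => ?_
    have hn' : u n = y := hn
    change dist (u n) y < δ
    rw [hn', dist_self]
    exact hδ
  let e := hinf.natEmbedding
  have hinj : Function.Injective fun n => (e n : X) := fun a b hab => e.injective (Subtype.ext hab)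
  refine ⟨fun n => (e n : X), hinj, fun n => ?_, fun y => ?_⟩
  · obtain ⟨k, hk⟩ := (e n).2
    change (e n : X) ∈ C
    rw [← hk]
    exact hu k
  · obtain ⟨δ, hδ, hfin⟩ := h1 y
    refine ⟨δ, hδ, ?_⟩
    refine Finite.of_finite_image (f := fun n => (e n : X)) ((hfin.image u).subset ?_) hinj.injOn
    rintro _ ⟨n, hn, rfl⟩
    obtain ⟨k, hk⟩ := (e n).2
    refine ⟨k, ?_, hk⟩
    change dist (u k) y < δ
    rw [hk]
    exact hn

end bumps

/-! ### Separability -/

/-- A nonseparable metric space contains an uncountable separated set. -/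
lemma exists_uncountable_sep {X : Type u} [MetricSpace X]
    (hX : ¬ TopologicalSpace.SeparableSpace X) : ∃ (ε : ℝ) (D : Set X), 0 < ε ∧ ¬ D.Countable ∧
      ∀ x ∈ D, ∀ y ∈ D, x ≠ y → ε ≤ dist x y := by
  by_contra hcon
  push Not at hcon
  apply hX
  have h2 : SecondCountableTopology X := by
    refine Metric.secondCountable_of_almost_dense_set fun ε hε => ?_
    obtain ⟨D, hD⟩ := zorn_subset {D : Set X | ∀ x ∈ D, ∀ y ∈ D, x ≠ y → ε ≤ dist x y} (by
      intro c hc hchain
      refine ⟨⋃₀ c, ?_, fun s hs => subset_sUnion_of_mem hs⟩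
      rintro x ⟨s, hs, hx⟩ y ⟨t, ht, hy⟩ hxy
      rcases hchain.total hs ht with hst | hst
      · exact hc ht x (hst hx) y hy hxy
      · exact hc hs x hx y (hst hy) hxy)
    refine ⟨D, ?_, fun x => ?_⟩
    · by_contra hD'
      obtain ⟨x, hx, y, hy, hxy, hlt⟩ := hcon ε D hε hD'
      exact absurd (hD.prop x hx y hy hxy) (not_le.2 hlt)
    · by_contra hx
      push Not at hx
      have hmem : insert x D ∈ {D : Set X | ∀ x ∈ D, ∀ y ∈ D, x ≠ y → ε ≤ dist x y} := by
        rintro a (rfl | ha) b (rfl | hb) hab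
        · exact (hab rfl).elim
        · exact (hx b hb).le
        · rw [dist_comm]
          exact (hx a ha).le
        · exact hD.prop a ha b hb hab
      have hxD : x ∈ D := hD.le_of_ge hmem (subset_insert x D) (mem_insert x D)
      have := hx x hxD
      rw [dist_self] at this
      linarith
  infer_instance

/-- an infinite subset of `[0,1]` has close points -/
lemma exists_close {ι : Type u} {g : ι → ℝ} (hg : ∀ i, g i ∈ Icc (0 : ℝ) 1)
    {S : Set ι} (hS : S.Infinite) (N : ℕ) :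
    ∃ x ∈ S, ∃ y ∈ S, x ≠ y ∧ |g x - g y| < 1 / ((N : ℝ) + 1) := by
  have hmaps : MapsTo (fun i => ⌊((N : ℝ) + 1) * g i⌋₊) S (Iic (N + 1) : Set ℕ) := by
    intro i _
    have h1 := (hg i).2
    have h2 : ((N : ℝ) + 1) * g i ≤ ((N + 1 : ℕ) : ℝ) := by
      push_cast
      nlinarith [(Nat.cast_nonneg N : (0 : ℝ) ≤ N)]
    exact Nat.floor_le_of_le h2
  obtain ⟨x, hx, y, hy, hxy, hfl⟩ := hS.exists_ne_map_eq_of_mapsTo hmaps (finite_Iic _)
  refine ⟨x, hx, y, hy, hxy, ?_⟩
  have hN : (0 : ℝ) < (N : ℝ) + 1 := by positivity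
  have hx0 : 0 ≤ ((N : ℝ) + 1) * g x := mul_nonneg hN.le (hg x).1
  have hy0 : 0 ≤ ((N : ℝ) + 1) * g y := mul_nonneg hN.le (hg y).1
  have a1 := Nat.floor_le hx0
  have a2 := Nat.lt_floor_add_one (((N : ℝ) + 1) * g x)
  have a3 := Nat.floor_le hy0
  have a4 := Nat.lt_floor_add_one (((N : ℝ) + 1) * g y)
  have hfl' : ⌊((N : ℝ) + 1) * g x⌋₊ = ⌊((N : ℝ) + 1) * g y⌋₊ := hfl
  rw [hfl'] at a1 a2
  have h5 : |((N : ℝ) + 1) * (g x - g y)| < 1 := by
    rw [abs_lt]
    constructor <;> nlinarith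
  rw [abs_mul, abs_of_pos hN] at h5
  rw [lt_div_iff₀ hN]
  linarith

/-- the data used for nonseparable spaces -/
lemma exists_index {X : Type u} {D : Set X} (hD : ¬ D.Countable) :
    ∃ (ι : Type u) (e : ι → X) (g : ι → ℝ), Uncountable ι ∧ Function.Injective e ∧
      (∀ i, e i ∈ D) ∧ Function.Injective g ∧ ∀ i, g i ∈ Icc (0 : ℝ) 1 := by
  have h1 : Cardinal.aleph 1 ≤ Cardinal.mk D := by
    rw [← Cardinal.succ_aleph0, Order.succ_le_iff, ← not_le, Cardinal.le_aleph0_iff_set_countable]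
    exact hD
  obtain ⟨s, hs⟩ := Cardinal.le_mk_iff_exists_set.1 h1
  have h2 : Cardinal.lift.{0, u} (Cardinal.mk s) ≤ Cardinal.lift.{u} (Cardinal.mk (Icc (0 : ℝ) 1)) := by
    rw [Cardinal.lift_uzero, hs, Cardinal.mk_Icc_real zero_lt_one, Cardinal.lift_continuum]
    exact Cardinal.aleph_one_le_continuum
  obtain ⟨g⟩ := Cardinal.lift_mk_le'.1 h2
  refine ⟨s, fun i => ((i : D) : X), fun i => (g i : ℝ), ?_,
    Subtype.val_injective.comp Subtype.val_injective, fun i => (i : D).2,
    Subtype.val_injective.comp g.injective, fun i => (g i).2⟩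
  rw [← Cardinal.aleph0_lt_mk_iff, hs]
  exact Cardinal.aleph0_lt_aleph_one

end Q177.FreeVec
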