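import Mathlib
import Pool.Agent.Q177.FreeVec
import Pool.Agent.Q177.FreeVecK
import Pool.Agent.Q177.FreeVecBump
import Pool.Agent.Q177.FreeVecA

/-!
# The `k`-property and the tightness of `spₙ(X)` for metrizable `X`
-/

set_option autoImplicit false

universe u v

namespace Q177.FreeVec

open Set Topology Filter
open scoped ENNReal

section sep

variable {X : Type u} [MetricSpace X] [TopologicalSpace (X →₀ ℝ)] {ι : Type u}

/-- the set used for the nonseparable case -/
def badSet (e : ι → X) (g : ι → ℝ) : Set (X →₀ ℝ) :=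
  {v | ∃ i j, i ≠ j ∧ v = Finsupp.single (e i) |g i - g j| + Finsupp.single (e j) |g i - g j|}

omit [MetricSpace X] [TopologicalSpace (X →₀ ℝ)] in
lemma sp_mono {m n : ℕ} (hmn : m ≤ n) (x₀ : X) : sp X m ⊆ sp X n := by
  rintro v ⟨c, x, hc, hv⟩
  have h1 : v ∈ Im m (m : ℝ) (univ : Set X) := ⟨c, x, hc, fun _ => trivial, hv⟩
  obtain ⟨c', x', hc', -, hv'⟩ := Im_mono hmn (Nat.cast_le.2 hmn) (Nat.cast_nonneg n)
    Subset.rfl (mem_univ x₀) h1
  exact ⟨c', x', hc', hv'⟩

omit [MetricSpace X] [TopologicalSpace (X →₀ ℝ)] in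
lemma badSet_subset {m : ℕ} (hm : 2 ≤ m) {e : ι → X} {g : ι → ℝ}
    (hg : ∀ i, g i ∈ Icc (0 : ℝ) 1) : badSet e g ⊆ sp X m := by
  rintro v ⟨i, j, -, rfl⟩
  refine sp_mono hm (e i) ?_
  have h1 : |g i - g j| ≤ 1 := by
    rw [abs_le]
    constructor <;> linarith [(hg i).1, (hg i).2, (hg j).1, (hg j).2]
  have h0 := abs_nonneg (g i - g j)
  refine ⟨fun _ => |g i - g j|, ![e i, e j], fun _ => ⟨?_, ?_⟩, ?_⟩
  · push_cast
    linarith
  · push_cast
    linarith
  · simp [Fin.sum_univ_two]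

omit [MetricSpace X] [TopologicalSpace (X →₀ ℝ)] in
lemma zero_mem_sp (n : ℕ) (x : X) : (0 : X →₀ ℝ) ∈ sp X n :=
  ⟨fun _ => 0, fun _ => x, fun _ => ⟨by simp, by simp⟩, by simp⟩

lemma zero_mem_closure (h : IsFreeVec X) {e : ι → X} {g : ι → ℝ} [Uncountable ι]
    (hg : ∀ i, g i ∈ Icc (0 : ℝ) 1) : (0 : X →₀ ℝ) ∈ closure (badSet e g) := by
  have := h.add
  have := h.smul
  rw [mem_closure_iff_nhds]
  intro W hW
  obtain ⟨W', hW', hWW⟩ := exists_nhds_zero_half hW
  have hm : ∀ i, ∃ m : ℕ, ∀ t : ℝ, |t| < 1 / ((m : ℝ) + 1) → Finsupp.single (e i) t ∈ W' := by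
    intro i
    have hc : Continuous fun t : ℝ => t • Finsupp.single (e i) (1 : ℝ) :=
      continuous_id.smul continuous_const
    have h1 : (fun t : ℝ => t • Finsupp.single (e i) (1 : ℝ)) ⁻¹' W' ∈ 𝓝 (0 : ℝ) := by
      apply hc.tendsto 0
      simpa using hW'
    obtain ⟨δ, hδ, hball⟩ := Metric.mem_nhds_iff.1 h1
    obtain ⟨m, hm⟩ := exists_nat_one_div_lt hδ
    refine ⟨m, fun t ht => ?_⟩
    have h2 : t ∈ Metric.ball (0 : ℝ) δ := by
      rw [Metric.mem_ball, dist_zero_right, Real.norm_eq_abs]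
      exact ht.trans hm
    have h3 := hball h2
    simpa using h3
  choose m hm using hm
  obtain ⟨k, hk⟩ : ∃ k, {i | m i = k}.Infinite := by
    by_contra hcon
    push Not at hcon
    have h1 : (univ : Set ι) ⊆ ⋃ k, {i | m i = k} := fun i _ => mem_iUnion.2 ⟨m i, rfl⟩
    have h2 : (univ : Set ι).Countable :=
      (countable_iUnion fun k => (hcon k).countable).mono h1
    exact not_countable_univ_iff.2 inferInstance h2
  obtain ⟨i, hi, j, hj, hij, hlt⟩ := exists_close hg hk k
  refine ⟨_, ?_, ⟨i, j, hij, rfl⟩⟩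
  have hi' : m i = k := hi
  have hj' : m j = k := hj
  refine hWW _ (hm i _ ?_) _ (hm j _ ?_)
  · rw [abs_abs, hi']
    exact hlt
  · rw [abs_abs, hj']
    exact hlt

/-- If `sp₂(X)` is a `k`-space then `X` is separable. -/
lemma separable_of_k (h : IsFreeVec X) {m : ℕ} (hm : 2 ≤ m) (hk : IsKSpace (sp X m)) :
    TopologicalSpace.SeparableSpace X := by
  classical
  have := h.add
  have := h.smul
  have := h.t2
  by_contra hsep
  obtain ⟨ε, D, hε, hD, hDsep⟩ := exists_uncountable_sep hsep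
  obtain ⟨ι, e, g, hι, he, heD, hginj, hg⟩ := exists_index hD
  obtain ⟨φ', hφc, hφlf, hφ1, hφ0⟩ := bump_sep hε hDsep
  let φ : ι → X → ℝ := fun i => φ' ⟨e i, heD i⟩
  have hφc' : ∀ i, Continuous (φ i) := fun i => hφc _
  have hφlf' : LocallyFinite fun i => Function.support (φ i) :=
    hφlf.comp_injective (g := fun i : ι => (⟨e i, heD i⟩ : D))
      (fun a b hab => he (congrArg Subtype.val hab))
  have hφ1' : ∀ i, φ i (e i) = 1 := fun i => hφ1 ⟨e i, heD i⟩
  have hφ0' : ∀ i j, i ≠ j → φ i (e j) = 0 := fun i j hij =>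
    hφ0 ⟨e i, heD i⟩ ⟨e j, heD j⟩ (fun hcon => hij (he (congrArg Subtype.val hcon)))
  -- the trace on compact sets is finite
  have hfin : ∀ K : Set (X →₀ ℝ), IsCompact K → (badSet e g ∩ K).Finite := by
    intro K hK
    have h1 := compact_finite h φ hφc' hφlf' hK
    refine ((h1.prod h1).image (fun p : ι × ι =>
      Finsupp.single (e p.1) |g p.1 - g p.2| + Finsupp.single (e p.2) |g p.1 - g p.2|)).subset ?_
    rintro v ⟨⟨i, j, hij, rfl⟩, hvK⟩
    have hpos : |g i - g j| ≠ 0 := abs_ne_zero.2 (sub_ne_zero.2 fun hcon => hij (hginj hcon))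
    refine ⟨(i, j), ⟨⟨_, hvK, ?_⟩, ⟨_, hvK, ?_⟩⟩, rfl⟩
    · rw [map_add, phat_single, phat_single, hφ1', hφ0' i j hij]
      simpa using hpos
    · rw [map_add, phat_single, phat_single, hφ1', hφ0' j i hij.symm]
      simpa using hpos
  have hclosed : IsClosed ((Subtype.val : sp X m → (X →₀ ℝ)) ⁻¹' badSet e g) := by
    refine hk _ fun K hK => ?_
    have h1 : ((Subtype.val : sp X m → (X →₀ ℝ)) ⁻¹' badSet e g ∩ K).Finite := by
      refine Finite.of_finite_image (f := Subtype.val)
        ((hfin _ (hK.image continuous_subtype_val)).subset ?_) Subtype.val_injective.injOn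
      rintro _ ⟨z, ⟨hz1, hz2⟩, rfl⟩
      exact ⟨hz1, z, hz2, rfl⟩
    have h2 : ((Subtype.val : K → sp X m) ⁻¹'
        ((Subtype.val : sp X m → (X →₀ ℝ)) ⁻¹' badSet e g)).Finite := by
      refine Finite.of_finite_image (f := Subtype.val) (h1.subset ?_) Subtype.val_injective.injOn
      rintro _ ⟨z, hz, rfl⟩
      exact ⟨hz, z.2⟩
    exact h2.isClosed
  have hx : Nonempty ι := inferInstance
  obtain ⟨i0⟩ := hx
  have h0 : (⟨0, zero_mem_sp m (e i0)⟩ : sp X m) ∈
      closure ((Subtype.val : sp X m → (X →₀ ℝ)) ⁻¹' badSet e g) := by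
    rw [closure_subtype]
    rw [Subtype.image_preimage_coe, inter_eq_right.2 (badSet_subset hm hg)]
    exact zero_mem_closure h hg
  rw [hclosed.closure_eq] at h0
  obtain ⟨i, j, hij, hv⟩ := h0
  have h1 := congrArg (fun v => phat (φ i) v) hv
  simp only [map_zero, map_add, phat_single, hφ1', hφ0' i j hij] at h1
  have hpos : |g i - g j| ≠ 0 := abs_ne_zero.2 (sub_ne_zero.2 fun hcon => hij (hginj hcon))
  apply hpos
  linarith

/-- Countable tightness. -/
def CountablyTight (Z : Type u) [TopologicalSpace Z] : Prop :=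
  ∀ (A : Set Z), ∀ z ∈ closure A, ∃ B ⊆ A, B.Countable ∧ z ∈ closure B

/-- If `sp₂(X)` has countable tightness then `X` is separable. -/
lemma separable_of_tight (h : IsFreeVec X) {m : ℕ} (hm : 2 ≤ m)
    (hk : CountablyTight (sp X m)) :
    TopologicalSpace.SeparableSpace X := by
  classical
  have := h.add
  have := h.smul
  by_contra hsep
  obtain ⟨ε, D, hε, hD, hDsep⟩ := exists_uncountable_sep hsep
  obtain ⟨ι, e, g, hι, he, heD, hginj, hg⟩ := exists_index hD
  obtain ⟨φ', hφc, hφlf, hφ1, hφ0⟩ := bump_sep hε hDsep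
  let φ : ι → X → ℝ := fun i => φ' ⟨e i, heD i⟩
  have hφc' : ∀ i, Continuous (φ i) := fun i => hφc _
  have hφlf' : LocallyFinite fun i => Function.support (φ i) :=
    hφlf.comp_injective (g := fun i : ι => (⟨e i, heD i⟩ : D))
      (fun a b hab => he (congrArg Subtype.val hab))
  have hφ1' : ∀ i, φ i (e i) = 1 := fun i => hφ1 ⟨e i, heD i⟩
  have hφ0' : ∀ i j, i ≠ j → φ i (e j) = 0 := fun i j hij =>
    hφ0 ⟨e i, heD i⟩ ⟨e j, heD j⟩ (fun hcon => hij (he (congrArg Subtype.val hcon)))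
  obtain ⟨i0⟩ : Nonempty ι := inferInstance
  have h0 : (⟨0, zero_mem_sp m (e i0)⟩ : sp X m) ∈
      closure ((Subtype.val : sp X m → (X →₀ ℝ)) ⁻¹' badSet e g) := by
    rw [closure_subtype, Subtype.image_preimage_coe, inter_eq_right.2 (badSet_subset hm hg)]
    exact zero_mem_closure h hg
  obtain ⟨B, hB, hBc, hB0⟩ := hk _ _ h0
  -- the countably many indices
  choose! a b hab hv using fun (z : sp X m) (hz : z ∈ B) => hB hz
  have hE : (a '' B ∪ b '' B).Countable := (hBc.image a).union (hBc.image b)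
  obtain ⟨N, hN⟩ := countable_iff_exists_injOn.1 hE
  -- weights
  let E : Set ι := a '' B ∪ b '' B
  have hw : ∀ j, ∃ w : ℝ, ∀ i ∈ E, N i ≤ N j → i ≠ j → |g i - g j|⁻¹ ≤ w := by
    intro j
    have hfin : (E ∩ N ⁻¹' Iic (N j)).Finite := by
      refine Finite.of_finite_image ((finite_Iic (N j)).subset ?_) (hN.mono inter_subset_left)
      rintro _ ⟨i, hi, rfl⟩
      exact hi.2
    obtain ⟨w, hw⟩ := (hfin.image fun i => |g i - g j|⁻¹).bddAbove
    exact ⟨w, fun i hi hij _ => hw ⟨i, ⟨hi, hij⟩, rfl⟩⟩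
  choose w hw using hw
  obtain ⟨T, hT, hT0, hTi⟩ := exists_weighted h φ hφc' hφlf' w
  have hnhd : {z : sp X m | ‖T z.1‖ < 1} ∈ 𝓝 (⟨0, zero_mem_sp m (e i0)⟩ : sp X m) := by
    have hc : Continuous fun z : sp X m => ‖T z.1‖ :=
      continuous_norm.comp (hT.comp continuous_subtype_val)
    refine hc.tendsto _ (Iio_mem_nhds (a := (1 : ℝ)) ?_)
    simp [hT0]
  obtain ⟨z, hz1, hzB⟩ := mem_closure_iff_nhds.1 hB0 _ hnhd
  have hz1' : ‖T z.1‖ < 1 := hz1
  have hij := hab z hzB
  have hpos : 0 < |g (a z) - g (b z)| :=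
    abs_pos.2 (sub_ne_zero.2 fun hcon => hij (hginj hcon))
  have haE : a z ∈ E := Or.inl ⟨z, hzB, rfl⟩
  have hbE : b z ∈ E := Or.inr ⟨z, hzB, rfl⟩
  have hTa : (T z.1 : ι → ℝ) (a z) = w (a z) * |g (a z) - g (b z)| := by
    rw [hTi, hv z hzB, map_add, phat_single, phat_single, hφ1', hφ0' _ _ hij]
    ring
  have hTb : (T z.1 : ι → ℝ) (b z) = w (b z) * |g (a z) - g (b z)| := by
    rw [hTi, hv z hzB, map_add, phat_single, phat_single, hφ1', hφ0' _ _ hij.symm]
    ring
  rcases le_total (N (a z)) (N (b z)) with hle | hle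
  · have h1 := hw (b z) (a z) haE hle hij
    have h2 := lp.norm_apply_le_norm ENNReal.top_ne_zero (T z.1) (b z)
    rw [hTb, Real.norm_eq_abs] at h2
    have h3 : 1 ≤ w (b z) * |g (a z) - g (b z)| := by
      have := mul_le_mul_of_nonneg_right h1 hpos.le
      rwa [inv_mul_cancel₀ hpos.ne'] at this
    linarith [le_abs_self (w (b z) * |g (a z) - g (b z)|)]
  · have h1 := hw (a z) (b z) hbE hle hij.symm
    have h2 := lp.norm_apply_le_norm ENNReal.top_ne_zero (T z.1) (a z)
    rw [hTa, Real.norm_eq_abs] at h2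
    have h3 : 1 ≤ w (a z) * |g (a z) - g (b z)| := by
      rw [abs_sub_comm] at h1
      have := mul_le_mul_of_nonneg_right h1 hpos.le
      rwa [inv_mul_cancel₀ hpos.ne'] at this
    linarith [le_abs_self (w (a z) * |g (a z) - g (b z)|)]

end sep

/-- If `X` is separable metrizable, every `spₙ(X)` has countable tightness. -/
lemma tight_of_separable {X : Type u} [TopologicalSpace X] [SecondCountableTopology X]
    [TopologicalSpace (X →₀ ℝ)] (h : IsFreeVec X) (n : ℕ) : CountablyTight (sp X n) := by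
  have := h.add
  have := h.smul
  intro A z hz
  -- parametrization
  let P : Type u := (Fin n → Icc (-(n : ℝ)) n) × (Fin n → X)
  let q : P → sp X n := fun p => ⟨∑ j, Finsupp.single (p.2 j) (p.1 j : ℝ),
    fun j => (p.1 j : ℝ), p.2, fun j => (p.1 j).2, rfl⟩
  have hq : Continuous q := by
    refine Continuous.subtype_mk ?_ _
    have h1 : Continuous fun p : P => ((fun j => (p.1 j : ℝ), p.2) : (Fin n → ℝ) × (Fin n → X)) :=
      (continuous_pi fun j => continuous_subtype_val.comp
        ((continuous_apply j).comp continuous_fst)).prodMk continuous_snd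
    exact (continuous_comb h n).comp h1
  have hsurj : Function.Surjective q := by
    rintro ⟨v, c, x, hc, hv⟩
    exact ⟨(fun j => ⟨c j, hc j⟩, x), Subtype.ext hv.symm⟩
  obtain ⟨t, htc, htd⟩ := TopologicalSpace.exists_countable_dense (q ⁻¹' A : Set P)
  refine ⟨q '' (Subtype.val '' t), ?_, (htc.image _).image _, ?_⟩
  · rintro _ ⟨_, ⟨p, -, rfl⟩, rfl⟩
    exact p.2
  · have hsub : A ⊆ closure (q '' (Subtype.val '' t)) := by
      intro a ha
      obtain ⟨p, rfl⟩ := hsurj a
      have h1 : (⟨p, ha⟩ : (q ⁻¹' A : Set P)) ∈ closure t := htd _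
      have h2 : p ∈ closure (Subtype.val '' t) :=
        image_closure_subset_closure_image continuous_subtype_val ⟨_, h1, rfl⟩
      exact image_closure_subset_closure_image hq ⟨p, h2, rfl⟩
    exact closure_minimal hsub isClosed_closure hz

/-! ### Local compactness -/

/-- If `sp₂(X)` is a `k`-space then `X` is locally compact. -/
lemma locallyCompact_of_k {X : Type u} [MetricSpace X] [TopologicalSpace (X →₀ ℝ)]
    (h : IsFreeVec X) {m : ℕ} (hm : 2 ≤ m) (hk : IsKSpace (sp X m)) : WeaklyLocallyCompactSpace X := by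
  classical
  have := h.add
  have := h.smul
  have := h.t2
  refine ⟨fun p => ?_⟩
  by_contra hcon
  push Not at hcon
  have hnc : ∀ r > 0, ¬ IsCompact (Metric.closedBall p r) := fun r hr hcpt =>
    hcon _ hcpt (Metric.closedBall_mem_nhds p hr)
  -- the sequence `z`
  obtain ⟨z', hz'inj, -, hz'⟩ := exists_discrete_seq (Metric.isClosed_closedBall (x := p))
    (hnc 1 one_pos)
  obtain ⟨s, hs, hfin⟩ := hz' p
  obtain ⟨N, hN⟩ : ∃ N : ℕ, ∀ n, N ≤ n → s ≤ dist (z' n) p := by
    obtain ⟨N, hN⟩ := hfin.bddAbove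
    refine ⟨N + 1, fun n hn => ?_⟩
    by_contra hlt
    have := hN (not_le.1 hlt)
    omega
  let z : ℕ → X := fun n => z' (n + N)
  have hzinj : Function.Injective z := fun a b hab => by
    have := hz'inj hab
    omega
  have hz : ∀ y, ∃ δ > 0, {n | dist (z n) y < δ}.Finite := by
    intro y
    obtain ⟨δ, hδ, hf⟩ := hz' y
    refine ⟨δ, hδ, ?_⟩
    refine Finite.of_finite_image (f := fun n => n + N) (hf.subset ?_)
      (fun a _ b _ hab => by simpa using hab)
    rintro _ ⟨n, hn, rfl⟩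
    exact hn
  have hzs : ∀ n, s ≤ dist (z n) p := fun n => hN _ (Nat.le_add_left _ _)
  -- the sequences `x n`
  let r : ℕ → ℝ := fun n => min (s / 4) (1 / ((n : ℝ) + 1))
  have hr : ∀ n, 0 < r n := fun n => lt_min (by linarith) (by positivity)
  choose x hxinj hxr hx using fun n => exists_discrete_seq
    (Metric.isClosed_closedBall (x := p) (ε := r n)) (hnc _ (hr n))
  have hxs : ∀ n j, dist (x n j) p < s / 2 := by
    intro n j
    have h1 : dist (x n j) p ≤ r n := hxr n j
    have h2 : r n ≤ s / 4 := min_le_left _ _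
    linarith
  obtain ⟨φ, hφc, hφlf, hφ1, hφ0, hφO⟩ := bump_seq hzinj hz
    (O := {y | s / 2 < dist y p}) (isOpen_lt continuous_const (continuous_id.dist continuous_const))
    (fun n => by
      have := hzs n
      change s / 2 < dist (z n) p
      linarith)
  choose ψ hψc hψlf hψ1 hψ0 hψO using fun n => bump_seq (hxinj n) (hx n)
    (O := {y | dist y p < s / 2}) (isOpen_lt (continuous_id.dist continuous_const) continuous_const)
    (hxs n)
  have hφx : ∀ n m j, φ n (x m j) = 0 := fun n m j => hφO n _ (fun hc => by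
    have h1 : s / 2 < dist (x m j) p := hc
    linarith [hxs m j])
  have hφp : ∀ n, φ n p = 0 := fun n => hφO n _ (fun hc => by
    have h1 : s / 2 < dist p p := hc
    rw [dist_self] at h1
    linarith)
  have hψz : ∀ n j m, ψ n j (z m) = 0 := fun n j m => hψO n j _ (fun hc => by
    have h1 : dist (z m) p < s / 2 := hc
    linarith [hzs m])
  let a : ℕ × ℕ → (X →₀ ℝ) := fun q =>
    Finsupp.single (x q.1 q.2) 1 + Finsupp.single (z q.1) (1 / ((q.2 : ℝ) + 1))
  have hpos : ∀ j : ℕ, (1 : ℝ) / ((j : ℝ) + 1) ≠ 0 := fun j => by positivity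
  have hfinK : ∀ K : Set (X →₀ ℝ), IsCompact K → {q : ℕ × ℕ | a q ∈ K}.Finite := by
    intro K hK
    have h1 := compact_finite h φ hφc hφlf hK
    have h2 : ∀ n, {j | ∃ v ∈ K, phat (ψ n j) v ≠ 0}.Finite := fun n =>
      compact_finite h (ψ n) (hψc n) (hψlf n) hK
    refine (h1.biUnion fun n _ => (h2 n).image (fun j => ((n, j) : ℕ × ℕ))).subset ?_
    rintro ⟨n, j⟩ hq
    refine mem_iUnion₂.2 ⟨n, ⟨a (n, j), hq, ?_⟩, j, ⟨a (n, j), hq, ?_⟩, rfl⟩
    · simp only [a]
      rw [map_add, phat_single, phat_single, hφx, hφ1]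
      simpa using (hpos j)
    · simp only [a]
      rw [map_add, phat_single, phat_single, hψ1, hψz]
      simp
  have hasp : ∀ q, a q ∈ sp X m := by
    intro q
    have h1 : (1 : ℝ) / ((q.2 : ℝ) + 1) ≤ 1 := by
      rw [div_le_one (by positivity)]
      linarith [(Nat.cast_nonneg q.2 : (0 : ℝ) ≤ q.2)]
    have h0 : (0 : ℝ) ≤ 1 / ((q.2 : ℝ) + 1) := by positivity
    refine sp_mono hm p ?_
    refine ⟨![1, 1 / ((q.2 : ℝ) + 1)], ![x q.1 q.2, z q.1], fun j => ?_, ?_⟩
    · fin_cases j
      · simp only [Fin.zero_eta, Matrix.cons_val_zero]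
        push_cast
        constructor <;> norm_num
      · simp only [Fin.mk_one, Matrix.cons_val_one]
        push_cast
        constructor <;> linarith
    · simp [Fin.sum_univ_two, a]
  have hpsp : Finsupp.single p (1 : ℝ) ∈ sp X m := by
    refine sp_mono hm p ?_
    refine ⟨![1, 0], ![p, p], fun j => ?_, ?_⟩
    · fin_cases j
      · simp only [Fin.zero_eta, Matrix.cons_val_zero]
        push_cast
        constructor <;> norm_num
      · simp only [Fin.mk_one, Matrix.cons_val_one]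
        push_cast
        constructor <;> simp
    · simp [Fin.sum_univ_two]
  have hclosed : IsClosed ((Subtype.val : sp X m → (X →₀ ℝ)) ⁻¹' range a) := by
    refine hk _ fun K hK => ?_
    have h1 : ((Subtype.val : sp X m → (X →₀ ℝ)) ⁻¹' range a ∩ K).Finite := by
      refine Finite.of_finite_image (f := Subtype.val)
        (((hfinK _ (hK.image continuous_subtype_val)).image a).subset ?_)
        Subtype.val_injective.injOn
      rintro _ ⟨w, ⟨⟨q, hq⟩, hw2⟩, rfl⟩
      refine ⟨q, ?_, hq⟩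
      exact ⟨w, hw2, hq.symm⟩
    have h2 : ((Subtype.val : K → sp X m) ⁻¹'
        ((Subtype.val : sp X m → (X →₀ ℝ)) ⁻¹' range a)).Finite := by
      refine Finite.of_finite_image (f := Subtype.val) (h1.subset ?_) Subtype.val_injective.injOn
      rintro _ ⟨w, hw, rfl⟩
      exact ⟨hw, w.2⟩
    exact h2.isClosed
  have hpcl : Finsupp.single p (1 : ℝ) ∈ closure (range a) := by
    rw [mem_closure_iff_nhds]
    intro W hW
    have hadd : Tendsto (fun q : (X →₀ ℝ) × (X →₀ ℝ) => q.1 + q.2)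
        (𝓝 (Finsupp.single p (1 : ℝ)) ×ˢ 𝓝 0) (𝓝 (Finsupp.single p (1 : ℝ) + 0)) := by
      rw [← nhds_prod_eq]
      exact continuous_add.tendsto (Finsupp.single p (1 : ℝ), (0 : X →₀ ℝ))
    rw [add_zero] at hadd
    obtain ⟨W₁, hW₁, W₂, hW₂, hsub⟩ := mem_prod_iff.1 (hadd hW)
    obtain ⟨δ, hδ, hball⟩ := Metric.mem_nhds_iff.1 (h.cont.continuousAt hW₁)
    obtain ⟨n, hn⟩ := exists_nat_one_div_lt hδ
    have h1 : ∀ j, Finsupp.single (x n j) (1 : ℝ) ∈ W₁ := by
      intro j
      have h2 : dist (x n j) p ≤ r n := hxr n j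
      have h3 : r n ≤ 1 / ((n : ℝ) + 1) := min_le_right _ _
      have h4 : x n j ∈ Metric.ball p δ := by
        rw [Metric.mem_ball]
        linarith
      exact hball h4
    have h2 : Tendsto (fun j : ℕ => Finsupp.single (z n) (1 / ((j : ℝ) + 1))) atTop (𝓝 0) := by
      have h3 : Tendsto (fun j : ℕ => (1 / ((j : ℝ) + 1)) • Finsupp.single (z n) (1 : ℝ)) atTop
          (𝓝 ((0 : ℝ) • Finsupp.single (z n) (1 : ℝ))) :=
        (tendsto_one_div_add_atTop_nhds_zero_nat (𝕜 := ℝ)).smul tendsto_const_nhds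
      rw [zero_smul] at h3
      simpa using h3
    obtain ⟨j, hj⟩ := (h2.eventually hW₂).exists
    exact ⟨a (n, j), hsub (a := (Finsupp.single (x n j) (1 : ℝ),
      Finsupp.single (z n) (1 / ((j : ℝ) + 1)))) ⟨h1 j, hj⟩, ⟨(n, j), rfl⟩⟩
  have hp0 : (⟨Finsupp.single p (1 : ℝ), hpsp⟩ : sp X m) ∈
      closure ((Subtype.val : sp X m → (X →₀ ℝ)) ⁻¹' range a) := by
    rw [closure_subtype, Subtype.image_preimage_coe, inter_eq_right.2 (range_subset_iff.2 hasp)]
    exact hpcl
  rw [hclosed.closure_eq] at hp0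
  obtain ⟨⟨n, j⟩, hq⟩ := hp0
  have h1 := congrArg (fun v => phat (φ n) v) hq
  simp only [a, map_add, phat_single, hφx, hφ1, hφp] at h1
  apply hpos j
  linarith

/-- **Main theorem.** For metrizable `X`: if `sp₂(X)` is a `k`-space, then so are all `spₙ(X)`. -/
theorem isKSpace_all {X : Type u} [TopologicalSpace X] [TopologicalSpace.MetrizableSpace X]
    [TopologicalSpace (X →₀ ℝ)] (h : IsFreeVec X) {m : ℕ} (hm : 2 ≤ m) (hk : IsKSpace (sp X m)) (n : ℕ) :
    IsKSpace (sp X n) := by
  let _ := TopologicalSpace.metrizableSpaceMetric X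
  rcases isEmpty_or_nonempty X with hX | ⟨⟨x₀⟩⟩
  · have hsub : Subsingleton (X →₀ ℝ) := inferInstance
    intro C _
    have hC : C = ∅ ∨ C = univ := Set.eq_empty_or_nonempty C |>.imp id fun hne =>
      Subsingleton.eq_univ_of_nonempty hne
    rcases hC with rfl | rfl
    · exact isClosed_empty
    · exact isClosed_univ
  · have hsep := separable_of_k h hm hk
    have hlc := locallyCompact_of_k h hm hk
    have h2 : SecondCountableTopology X := UniformSpace.secondCountable_of_separable X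
    have hlc' : LocallyCompactSpace X := inferInstance
    let E : CompactExhaustion X := CompactExhaustion.choice X
    refine isKSpace_sp h (fun m => insert x₀ (E m)) (x₀ := x₀)
      (fun m => (E.isCompact m).insert x₀) ?_ ?_ (fun m => mem_insert _ _) n
    · exact fun m k hmk => insert_subset_insert (E.subset hmk)
    · intro x
      obtain ⟨m, hm⟩ := E.exists_mem x
      exact ⟨m + 1, interior_mono (subset_insert _ _) (E.subset_interior_succ m hm)⟩

/-- For metrizable `X`: if `sp₂(X)` has countable tightness, then so have all `spₙ(X)`. -/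
theorem tight_all {X : Type u} [TopologicalSpace X] [TopologicalSpace.MetrizableSpace X]
    [TopologicalSpace (X →₀ ℝ)] (h : IsFreeVec X) {m : ℕ} (hm : 2 ≤ m)
    (hk : CountablyTight (sp X m)) (n : ℕ) :
    CountablyTight (sp X n) := by
  let _ := TopologicalSpace.metrizableSpaceMetric X
  have hsep := separable_of_tight h hm hk
  have h2 : SecondCountableTopology X := UniformSpace.secondCountable_of_separable X
  exact tight_of_separable h n

end Q177.FreeVec
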