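import Mathlib

/-!
# Lacunary cosine sums: the dyadic martingale of `G(t) = ∑ sin(n_k t)/n_k`
-/

set_option autoImplicit false

namespace Q177.Lac

open MeasureTheory Filter Topology Set

/-- The partial sums. -/
noncomputable def S (n : ℕ → ℕ) (m : ℕ) (x : ℝ) : ℝ :=
  ∑ k ∈ Finset.range m, Real.cos ((n k : ℝ) * x)

/-- The hypotheses. -/
structure Gap (n : ℕ → ℕ) (q : ℝ) : Prop where
  one_lt : 1 < q
  pos : ∀ k, 0 < n k
  gap : ∀ k, q * (n k : ℝ) ≤ (n (k + 1) : ℝ)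

/-- The constant. -/
noncomputable def C (q : ℝ) : ℝ := q / (q - 1)

variable {n : ℕ → ℕ} {q : ℝ}

lemma Gap.C_pos (h : Gap n q) : 0 < C q := by
  have := h.one_lt
  unfold C
  apply div_pos <;> linarith

lemma Gap.pos' (h : Gap n q) (k : ℕ) : (0 : ℝ) < n k := by exact_mod_cast h.pos k

lemma Gap.pow_le (h : Gap n q) (m i : ℕ) : q ^ i * (n m : ℝ) ≤ n (m + i) := by
  have hq := h.one_lt
  induction i with
  | zero => simp
  | succ i ih =>
    calc q ^ (i + 1) * (n m : ℝ) = q * (q ^ i * n m) := by ring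
      _ ≤ q * n (m + i) := by gcongr
      _ ≤ n (m + i + 1) := h.gap _

lemma Gap.lt_succ (h : Gap n q) (k : ℕ) : n k < n (k + 1) := by
  have hq := h.one_lt
  have h1 := h.gap k
  have h2 := h.pos' k
  have : (n k : ℝ) < n (k + 1) := by nlinarith
  exact_mod_cast this

lemma Gap.strictMono (h : Gap n q) : StrictMono n := strictMono_nat_of_lt_succ h.lt_succ

lemma Gap.mono (h : Gap n q) : Monotone n := h.strictMono.monotone

lemma Gap.sum_le' (h : Gap n q) (m : ℕ) : ∑ k ∈ Finset.range (m + 1), (n k : ℝ) ≤ C q * n m := by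
  have hq := h.one_lt
  have hC : C q / q + 1 = C q := by
    unfold C
    have h1 : q ≠ 0 := by linarith
    have h2 : q - 1 ≠ 0 := by linarith
    field_simp
    ring
  have hC0 := h.C_pos
  induction m with
  | zero =>
    simp only [zero_add, Finset.range_one, Finset.sum_singleton]
    have h1 : 1 ≤ C q := by
      rw [← hC]
      have : 0 ≤ C q / q := by positivity
      linarith
    have h2 := h.pos' 0
    nlinarith
  | succ m ih =>
    rw [Finset.sum_range_succ]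
    have h1 := h.gap m
    have h2 : (n m : ℝ) ≤ n (m + 1) / q := by
      rw [le_div_iff₀ (by linarith)]
      linarith
    calc _ ≤ C q * n m + n (m + 1) := by linarith
      _ ≤ C q * (n (m + 1) / q) + n (m + 1) := by gcongr
      _ = (C q / q + 1) * n (m + 1) := by ring
      _ = C q * n (m + 1) := by rw [hC]

lemma Gap.sum_le (h : Gap n q) {m : ℕ} {B : ℝ} (hB : 0 ≤ B) (hm : ∀ k < m, (n k : ℝ) ≤ B) :
    ∑ k ∈ Finset.range m, (n k : ℝ) ≤ C q * B := by
  rcases m with _ | m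
  · simp
    exact mul_nonneg h.C_pos.le hB
  · exact (h.sum_le' m).trans (mul_le_mul_of_nonneg_left (hm m (Nat.lt_succ_self m)) h.C_pos.le)

lemma Gap.summable_inv (h : Gap n q) (m : ℕ) : Summable fun i => (1 : ℝ) / n (m + i) := by
  have hq := h.one_lt
  have hs : Summable fun i : ℕ => (1 / (n m : ℝ)) * (q⁻¹) ^ i :=
    (summable_geometric_of_lt_one (by positivity) (inv_lt_one_of_one_lt₀ hq)).mul_left _
  refine Summable.of_nonneg_of_le (fun i => by positivity) (fun i => ?_) hs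
  have h1 := h.pow_le m i
  have h2 := h.pos' m
  have h3 : 0 < q ^ i := by positivity
  calc (1 : ℝ) / n (m + i) ≤ 1 / (q ^ i * n m) := by
        apply one_div_le_one_div_of_le (by positivity) h1
    _ = _ := by rw [inv_pow]; field_simp

lemma Gap.tsum_inv_le (h : Gap n q) (m : ℕ) : ∑' i, (1 : ℝ) / n (m + i) ≤ C q / n m := by
  have hq := h.one_lt
  have hg : HasSum (fun i : ℕ => (1 / (n m : ℝ)) * (q⁻¹) ^ i) ((1 / (n m : ℝ)) * (1 - q⁻¹)⁻¹) :=
    (hasSum_geometric_of_lt_one (by positivity) (inv_lt_one_of_one_lt₀ hq)).mul_left _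
  have h0 : ∑' i, (1 : ℝ) / n (m + i) ≤ (1 / (n m : ℝ)) * (1 - q⁻¹)⁻¹ := by
    rw [← hg.tsum_eq]
    refine Summable.tsum_le_tsum (fun i => ?_) (h.summable_inv m) hg.summable
    have h1 := h.pow_le m i
    have h2 := h.pos' m
    have h3 : 0 < q ^ i := by positivity
    calc (1 : ℝ) / n (m + i) ≤ 1 / (q ^ i * n m) := by
          apply one_div_le_one_div_of_le (by positivity) h1
      _ = _ := by rw [inv_pow]; field_simp
  refine h0.trans (le_of_eq ?_)
  unfold C
  have h1 : q ≠ 0 := by linarith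
  have h2 : q - 1 ≠ 0 := by linarith
  have h3 : (n m : ℝ) ≠ 0 := (h.pos' m).ne'
  have h4 : 1 - q⁻¹ = (q - 1) / q := by field_simp
  rw [h4]
  field_simp

/-- The integral of the lacunary series. -/
noncomputable def G (n : ℕ → ℕ) (t : ℝ) : ℝ := ∑' k, Real.sin ((n k : ℝ) * t) / n k

lemma Gap.summable_G (h : Gap n q) (t : ℝ) : Summable fun k => Real.sin ((n k : ℝ) * t) / n k := by
  have hs : Summable fun k => (1 : ℝ) / n k := by simpa using h.summable_inv 0
  refine Summable.of_norm_bounded hs fun k => ?_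
  have := h.pos' k
  rw [Real.norm_eq_abs, abs_div, abs_of_pos this]
  gcongr
  exact Real.abs_sin_le_one _

lemma cos_lip (a b : ℝ) : |Real.cos a - Real.cos b| ≤ |a - b| := Real.abs_cos_sub_cos_le a b

/-- The difference quotients of `G` approximate the partial sums. -/
lemma Gap.quot_bound (h : Gap n q) {a b x : ℝ} (hab : a < b) (hx : x ∈ Icc a b) (m : ℕ) :
    |G n b - G n a - (b - a) * S n m x| ≤
      (b - a) ^ 2 * ∑ k ∈ Finset.range m, (n k : ℝ) + 2 * ∑' i, (1 : ℝ) / n (m + i) := by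
  let u : ℕ → ℝ := fun k => (Real.sin ((n k : ℝ) * b) - Real.sin ((n k : ℝ) * a)) / n k
  have hu : Summable u := by
    have := (h.summable_G b).sub (h.summable_G a)
    refine this.congr fun k => ?_
    simp only [u, sub_div]
  have hG : G n b - G n a = ∑' k, u k := by
    rw [G, G, ← (h.summable_G b).tsum_sub (h.summable_G a)]
    congr 1
    funext k
    simp only [u, sub_div]
  have hsplit : G n b - G n a = ∑ k ∈ Finset.range m, u k + ∑' i, u (i + m) := by
    rw [hG]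
    exact (hu.sum_add_tsum_nat_add m).symm
  have h1 : |∑ k ∈ Finset.range m, u k - (b - a) * S n m x| ≤
      (b - a) ^ 2 * ∑ k ∈ Finset.range m, (n k : ℝ) := by
    rw [S, Finset.mul_sum, ← Finset.sum_sub_distrib, Finset.mul_sum]
    refine (Finset.abs_sum_le_sum_abs _ _).trans (Finset.sum_le_sum fun k _ => ?_)
    have hk := h.pos' k
    have hd : ∀ t ∈ Ioo a b, HasDerivAt (fun t => Real.sin ((n k : ℝ) * t))
        (Real.cos ((n k : ℝ) * t) * n k) t := by
      intro t _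
      have := (Real.hasDerivAt_sin ((n k : ℝ) * t)).comp t ((hasDerivAt_id t).const_mul (n k : ℝ))
      simpa [Function.comp_def] using this
    obtain ⟨c, hc, hc'⟩ := exists_hasDerivAt_eq_slope (fun t => Real.sin ((n k : ℝ) * t))
      (fun t => Real.cos ((n k : ℝ) * t) * n k) hab (by fun_prop) hd
    have hba : 0 < b - a := by linarith
    have huk : u k = (b - a) * Real.cos ((n k : ℝ) * c) := by
      simp only [u]
      rw [eq_div_iff hba.ne'] at hc'
      rw [← hc']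
      field_simp
    rw [huk, ← mul_sub, abs_mul, abs_of_pos hba, pow_two, mul_assoc]
    refine mul_le_mul_of_nonneg_left ?_ hba.le
    refine (cos_lip _ _).trans ?_
    rw [← mul_sub, abs_mul, abs_of_pos hk, mul_comm]
    refine mul_le_mul_of_nonneg_right ?_ hk.le
    rw [abs_le]
    constructor <;> linarith [hc.1, hc.2, hx.1, hx.2]
  have h2 : |∑' i, u (i + m)| ≤ 2 * ∑' i, (1 : ℝ) / n (m + i) := by
    rw [← tsum_mul_left, ← Real.norm_eq_abs]
    refine tsum_of_norm_bounded ((h.summable_inv m).mul_left 2).hasSum fun i => ?_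
    have hk := h.pos' (i + m)
    simp only [u]
    rw [Real.norm_eq_abs, abs_div, abs_of_pos hk, add_comm m i, mul_one_div]
    gcongr
    have e1 := Real.abs_sin_le_one ((n (i + m) : ℝ) * b)
    have e2 := Real.abs_sin_le_one ((n (i + m) : ℝ) * a)
    calc |Real.sin ((n (i + m) : ℝ) * b) - Real.sin ((n (i + m) : ℝ) * a)|
        ≤ |Real.sin ((n (i + m) : ℝ) * b)| + |Real.sin ((n (i + m) : ℝ) * a)| := abs_sub _ _
      _ ≤ 2 := by linarith
  rw [hsplit]
  calc |∑ k ∈ Finset.range m, u k + ∑' i, u (i + m) - (b - a) * S n m x|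
      = |(∑ k ∈ Finset.range m, u k - (b - a) * S n m x) + ∑' i, u (i + m)| := by
        congr 1; ring
    _ ≤ |∑ k ∈ Finset.range m, u k - (b - a) * S n m x| + |∑' i, u (i + m)| := abs_add_le _ _
    _ ≤ _ := add_le_add h1 h2

/-- The value of the martingale on the `l`-th dyadic interval of level `j`. -/
noncomputable def val (n : ℕ → ℕ) (j : ℕ) (l : ℤ) : ℝ :=
  2 ^ j * (G n ((l + 1) / 2 ^ j) - G n (l / 2 ^ j))

/-- The dyadic martingale. -/
noncomputable def M (n : ℕ → ℕ) (j : ℕ) (x : ℝ) : ℝ := val n j ⌊(2 : ℝ) ^ j * x⌋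

lemma Gap.M_bound (h : Gap n q) {j m : ℕ} (h1 : ∀ k < m, (n k : ℝ) ≤ 2 * 2 ^ j)
    (h2 : (2 : ℝ) ^ j ≤ 2 * n m) (x : ℝ) : |M n j x - S n m x| ≤ 6 * C q := by
  set l : ℤ := ⌊(2 : ℝ) ^ j * x⌋ with hl
  have hp : (0 : ℝ) < 2 ^ j := by positivity
  have ha : (l : ℝ) / 2 ^ j ≤ x := by
    rw [div_le_iff₀ hp, mul_comm x]
    exact Int.floor_le _
  have hb : x ≤ ((l : ℝ) + 1) / 2 ^ j := by
    rw [le_div_iff₀ hp, mul_comm x]
    exact (Int.lt_floor_add_one _).le
  have hab : (l : ℝ) / 2 ^ j < ((l : ℝ) + 1) / 2 ^ j := by gcongr; linarith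
  have hlen : ((l : ℝ) + 1) / 2 ^ j - (l : ℝ) / 2 ^ j = 1 / 2 ^ j := by
    rw [← sub_div]; ring_nf
  have key := h.quot_bound hab ⟨ha, hb⟩ m
  rw [hlen] at key
  have hs := h.sum_le (by positivity) h1
  have ht := h.tsum_inv_le m
  have hC := h.C_pos
  have hnm := h.pos' m
  have e1 : |M n j x - S n m x| = 2 ^ j *
      |G n (((l : ℝ) + 1) / 2 ^ j) - G n ((l : ℝ) / 2 ^ j) - 1 / 2 ^ j * S n m x| := by
    rw [← abs_of_pos hp, ← abs_mul, abs_of_pos hp]
    congr 1
    rw [M, val, ← hl]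
    field_simp
  rw [e1]
  have e2 : (2 : ℝ) ^ j * ((1 / 2 ^ j) ^ 2 * ∑ k ∈ Finset.range m, (n k : ℝ)) ≤ 2 * C q := by
    calc (2 : ℝ) ^ j * ((1 / 2 ^ j) ^ 2 * ∑ k ∈ Finset.range m, (n k : ℝ))
        ≤ (2 : ℝ) ^ j * ((1 / 2 ^ j) ^ 2 * (C q * (2 * 2 ^ j))) := by gcongr
      _ = 2 * C q := by field_simp
  have e3 : (2 : ℝ) ^ j * (2 * ∑' i, (1 : ℝ) / n (m + i)) ≤ 4 * C q := by
    calc (2 : ℝ) ^ j * (2 * ∑' i, (1 : ℝ) / n (m + i)) ≤ (2 * n m) * (2 * (C q / n m)) := by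
          have : 0 ≤ ∑' i, (1 : ℝ) / n (m + i) := tsum_nonneg fun i => by positivity
          gcongr
      _ = 4 * C q := by field_simp; ring
  calc _ ≤ (2 : ℝ) ^ j * ((1 / 2 ^ j) ^ 2 * ∑ k ∈ Finset.range m, (n k : ℝ) +
        2 * ∑' i, (1 : ℝ) / n (m + i)) := by gcongr
    _ ≤ 6 * C q := by rw [mul_add]; linarith

/-- For every level there is an index. -/
lemma Gap.exists_index (h : Gap n q) (j : ℕ) :
    ∃ m, (∀ k < m, (n k : ℝ) ≤ 2 ^ j) ∧ (2 : ℝ) ^ j ≤ n m := by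
  classical
  have hex : ∃ m, 2 ^ j ≤ n m := ⟨2 ^ j, h.strictMono.le_apply⟩
  refine ⟨Nat.find hex, fun k hk => ?_, ?_⟩
  · have := Nat.find_min hex hk
    exact_mod_cast (not_le.1 this).le
  · exact_mod_cast Nat.find_spec hex

lemma Gap.M_close (h : Gap n q) (j : ℕ) : ∃ m, ∀ x, |M n j x - S n m x| ≤ 6 * C q ∧
    |M n (j + 1) x - S n m x| ≤ 6 * C q := by
  obtain ⟨m, h1, h2⟩ := h.exists_index j
  have hp : (0 : ℝ) < 2 ^ j := by positivity
  refine ⟨m, fun x => ⟨h.M_bound (fun k hk => ?_) ?_ x, h.M_bound (fun k hk => ?_) ?_ x⟩⟩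
  · linarith [h1 k hk]
  · linarith
  · have := h1 k hk
    rw [pow_succ]
    linarith
  · rw [pow_succ]
    linarith

lemma Gap.M_incr (h : Gap n q) (j : ℕ) (x : ℝ) : |M n (j + 1) x - M n j x| ≤ 12 * C q := by
  obtain ⟨m, hm⟩ := h.M_close j
  have := (hm x).1
  have := (hm x).2
  calc |M n (j + 1) x - M n j x| = |(M n (j + 1) x - S n m x) - (M n j x - S n m x)| := by ring_nf
    _ ≤ |M n (j + 1) x - S n m x| + |M n j x - S n m x| := abs_sub _ _
    _ ≤ _ := by linarith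

lemma Gap.S_close (h : Gap n q) (m : ℕ) : ∃ j, ∀ x, |M n j x - S n m x| ≤ 6 * C q := by
  refine ⟨Nat.log 2 (n m), fun x => h.M_bound (fun k hk => ?_) ?_ x⟩
  · have h1 : n k ≤ n m := h.mono hk.le
    have h2 : n m < 2 ^ (Nat.log 2 (n m) + 1) := Nat.lt_pow_succ_log_self (by norm_num) _
    have h3 : n k ≤ 2 * 2 ^ Nat.log 2 (n m) := by
      rw [pow_succ] at h2
      omega
    exact_mod_cast h3
  · have h1 : 2 ^ Nat.log 2 (n m) ≤ n m := Nat.pow_log_le_self 2 (h.pos m).ne'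
    have h2 : (2 : ℝ) ^ Nat.log 2 (n m) ≤ n m := by exact_mod_cast h1
    have := h.pos' m
    linarith

lemma abs_S_le (n : ℕ → ℕ) (m : ℕ) (x : ℝ) : |S n m x| ≤ m := by
  unfold S
  refine (Finset.abs_sum_le_sum_abs _ _).trans ?_
  calc ∑ k ∈ Finset.range m, |Real.cos ((n k : ℝ) * x)| ≤ ∑ k ∈ Finset.range m, (1 : ℝ) :=
        Finset.sum_le_sum fun k _ => Real.abs_cos_le_one _
    _ = m := by simp

lemma Gap.M_bdd (h : Gap n q) (j : ℕ) : ∃ B, ∀ x, |M n j x| ≤ B := by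
  obtain ⟨m, hm⟩ := h.M_close j
  refine ⟨m + 6 * C q, fun x => ?_⟩
  have h1 := (hm x).1
  have h2 := abs_S_le n m x
  calc |M n j x| = |S n m x + (M n j x - S n m x)| := by ring_nf
    _ ≤ |S n m x| + |M n j x - S n m x| := abs_add_le _ _
    _ ≤ _ := by linarith

end Q177.Lac
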