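import Mathlib
import Pool.Agent.Q177.LacA

/-!
# Lacunary cosine sums: the martingale property and one-sided boundedness
-/

set_option autoImplicit false

namespace Q177.Lac

open MeasureTheory Filter Topology Set

/-- The index of the dyadic interval. -/
noncomputable def fl (j : ℕ) (x : ℝ) : ℤ := ⌊(2 : ℝ) ^ j * x⌋

lemma measurable_fl (j : ℕ) : Measurable (fl j) :=
  Int.measurable_floor.comp (measurable_const_mul _)

lemma fl_succ (j : ℕ) (x : ℝ) : fl j x = fl (j + 1) x / 2 := by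
  unfold fl
  set y := (2 : ℝ) ^ j * x with hy
  have h1 : (2 : ℝ) ^ (j + 1) * x = 2 * y := by rw [hy, pow_succ]; ring
  rw [h1]
  have h2 : ⌊y⌋ ≤ ⌊2 * y⌋ / 2 := by
    rw [Int.le_ediv_iff_mul_le (by norm_num), Int.le_floor]
    push_cast
    have := Int.floor_le y
    linarith
  have h3 : ⌊2 * y⌋ / 2 ≤ ⌊y⌋ := by
    rw [Int.le_floor]
    have h4 : 2 * (⌊2 * y⌋ / 2) ≤ ⌊2 * y⌋ := Int.mul_ediv_self_le (by norm_num)
    have h5 : ((2 * (⌊2 * y⌋ / 2) : ℤ) : ℝ) ≤ 2 * y := (Int.cast_le.2 h4).trans (Int.floor_le _)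
    push_cast at h5
    linarith
  exact le_antisymm h2 h3

/-- The dyadic filtration. -/
noncomputable def filt : Filtration ℕ (inferInstance : MeasurableSpace ℝ) where
  seq j := MeasurableSpace.comap (fl j) ⊤
  mono' := monotone_nat_of_le_succ fun j => by
    have h : fl j = (fun l : ℤ => l / 2) ∘ fl (j + 1) := funext fun x => fl_succ j x
    rw [h, ← MeasurableSpace.comap_comp]
    exact MeasurableSpace.comap_mono le_top
  le' j := by
    rintro _ ⟨B, -, rfl⟩
    exact measurable_fl j MeasurableSet.of_discrete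

/-- The dyadic intervals. -/
def J (j : ℕ) (l : ℤ) : Set ℝ := Ico ((l : ℝ) / 2 ^ j) (((l : ℝ) + 1) / 2 ^ j)

lemma mem_J {j : ℕ} {l : ℤ} {x : ℝ} : x ∈ J j l ↔ fl j x = l := by
  have hp : (0 : ℝ) < 2 ^ j := by positivity
  rw [fl, Int.floor_eq_iff, J, mem_Ico, div_le_iff₀ hp, lt_div_iff₀ hp, mul_comm x]

lemma measurable_M (n : ℕ → ℕ) (j : ℕ) : Measurable (M n j) := by
  have h : M n j = val n j ∘ fl j := rfl
  rw [h]
  exact (measurable_of_countable _).comp (measurable_fl j)

variable {n : ℕ → ℕ} {q : ℝ}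

lemma Gap.integrableOn_M (h : Gap n q) (j : ℕ) {s : Set ℝ} (hs' : volume s < ⊤) :
    IntegrableOn (M n j) s := by
  obtain ⟨B, hB⟩ := h.M_bdd j
  have : IsFiniteMeasure (volume.restrict s) := ⟨by rwa [Measure.restrict_apply_univ]⟩
  exact Integrable.of_bound (measurable_M n j).aestronglyMeasurable B
    (Eventually.of_forall fun x => by simpa using hB x)

lemma setIntegral_M (n : ℕ → ℕ) (j : ℕ) (l : ℤ) :
    ∫ x in J j l, M n j x = G n (((l : ℝ) + 1) / 2 ^ j) - G n ((l : ℝ) / 2 ^ j) := by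
  have hp : (0 : ℝ) < 2 ^ j := by positivity
  have h1 : ∫ x in J j l, M n j x = ∫ x in J j l, val n j l := by
    refine setIntegral_congr_fun measurableSet_Ico fun x hx => ?_
    have := mem_J.1 hx
    change val n j (fl j x) = _
    rw [this]
  rw [h1, setIntegral_const, J, measureReal_def, Real.volume_Ico]
  have h2 : ((l : ℝ) + 1) / 2 ^ j - (l : ℝ) / 2 ^ j = 1 / 2 ^ j := by
    rw [← sub_div]; ring_nf
  rw [h2, ENNReal.toReal_ofReal (by positivity), val, smul_eq_mul]
  field_simp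

lemma Gap.setIntegral_M_succ (h : Gap n q) (j : ℕ) (l : ℤ) :
    ∫ x in J j l, M n (j + 1) x = ∫ x in J j l, M n j x := by
  have hp : (0 : ℝ) < 2 ^ j := by positivity
  have h1 : J j l = J (j + 1) (2 * l) ∪ J (j + 1) (2 * l + 1) := by
    ext x
    rw [mem_union, mem_J, mem_J, mem_J, fl_succ]
    omega
  have hdisj : Disjoint (J (j + 1) (2 * l)) (J (j + 1) (2 * l + 1)) := by
    rw [Set.disjoint_left]
    intro x hx hx'
    rw [mem_J] at hx hx'
    omega
  have hfin : ∀ l', volume (J (j + 1) l') < ⊤ := fun l' => by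
    rw [J, Real.volume_Ico]
    exact ENNReal.ofReal_lt_top
  have h2 : ∫ x in J j l, M n (j + 1) x =
      (∫ x in J (j + 1) (2 * l), M n (j + 1) x) + ∫ x in J (j + 1) (2 * l + 1), M n (j + 1) x := by
    rw [h1]
    exact setIntegral_union hdisj measurableSet_Ico (h.integrableOn_M (j + 1) (hfin _))
      (h.integrableOn_M (j + 1) (hfin _))
  rw [h2, setIntegral_M, setIntegral_M, setIntegral_M]
  have e1 : ((2 * l : ℤ) : ℝ) / 2 ^ (j + 1) = (l : ℝ) / 2 ^ j := by
    push_cast
    rw [pow_succ]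
    field_simp
  have e2 : (((2 * l : ℤ) : ℝ) + 1) / 2 ^ (j + 1) = ((2 * l + 1 : ℤ) : ℝ) / 2 ^ (j + 1) := by
    push_cast
    ring
  have e3 : (((2 * l + 1 : ℤ) : ℝ) + 1) / 2 ^ (j + 1) = ((l : ℝ) + 1) / 2 ^ j := by
    push_cast
    rw [pow_succ]
    field_simp
    ring
  rw [e1, e2, e3]
  ring

/-- The measure. -/
noncomputable abbrev mu : Measure ℝ := volume.restrict (Ico (0 : ℝ) 7)

instance : IsFiniteMeasure mu := ⟨by
  rw [Measure.restrict_apply_univ, Real.volume_Ico]
  exact ENNReal.ofReal_lt_top⟩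

lemma Gap.setIntegral_eq (h : Gap n q) (j : ℕ) {s : Set ℝ} (hs : MeasurableSet[filt j] s) :
    ∫ x in s, M n (j + 1) x ∂mu = ∫ x in s, M n j x ∂mu := by
  classical
  obtain ⟨B, -, rfl⟩ := hs
  have hmeas : MeasurableSet (fl j ⁻¹' B) := measurable_fl j MeasurableSet.of_discrete
  have hp : (0 : ℝ) < 2 ^ j := by positivity
  let t : Finset ℤ := (Finset.Ico 0 (7 * 2 ^ j : ℤ)).filter (· ∈ B)
  have hU : fl j ⁻¹' B ∩ Ico (0 : ℝ) 7 = ⋃ l ∈ t, J j l := by
    ext x
    simp only [mem_inter_iff, mem_preimage, mem_Ico, mem_iUnion, exists_prop, t,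
      Finset.mem_filter, Finset.mem_Ico, mem_J]
    have e1 : 0 ≤ x ↔ 0 ≤ fl j x := by
      rw [fl, Int.floor_nonneg]
      constructor
      · intro h; positivity
      · intro h; exact nonneg_of_mul_nonneg_right h hp
    have e2 : x < 7 ↔ fl j x < 7 * 2 ^ j := by
      rw [fl, Int.floor_lt]
      push_cast
      rw [mul_comm (2 ^ j : ℝ) x, mul_lt_mul_iff_left₀ hp]
    constructor
    · rintro ⟨h1, h2, h3⟩
      exact ⟨fl j x, ⟨⟨e1.1 h2, e2.1 h3⟩, h1⟩, rfl⟩
    · rintro ⟨l, ⟨⟨h2, h3⟩, h1⟩, rfl⟩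
      exact ⟨h1, e1.2 h2, e2.2 h3⟩
  have hint : ∀ i, ∫ x in fl j ⁻¹' B, M n i x ∂mu = ∑ l ∈ t, ∫ x in J j l, M n i x := by
    intro i
    rw [Measure.restrict_restrict hmeas, hU]
    refine integral_biUnion_finset t (fun l _ => measurableSet_Ico) ?_ ?_
    · intro l _ l' _ hne
      rw [Function.onFun, Set.disjoint_left]
      intro x hx hx'
      rw [mem_J] at hx hx'
      exact hne (hx.symm.trans hx')
    · intro l _
      refine h.integrableOn_M i ?_
      rw [J, Real.volume_Ico]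
      exact ENNReal.ofReal_lt_top
  rw [hint, hint]
  exact Finset.sum_congr rfl fun l _ => h.setIntegral_M_succ j l

lemma Gap.integrable_M (h : Gap n q) (j : ℕ) : Integrable (M n j) mu :=
  h.integrableOn_M j (by
    rw [Real.volume_Ico]
    exact ENNReal.ofReal_lt_top)

lemma stronglyMeasurable_M (n : ℕ → ℕ) (j : ℕ) : StronglyMeasurable[filt j] (M n j) := by
  have h : @Measurable ℝ ℝ (filt j) _ (M n j) := by
    intro s _
    refine ⟨val n j ⁻¹' s, trivial, rfl⟩
  exact h.stronglyMeasurable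

lemma Gap.martingale (h : Gap n q) : Martingale (M n) filt mu := by
  refine martingale_nat (fun j => stronglyMeasurable_M n j) h.integrable_M fun j => ?_
  refine ae_eq_condExp_of_forall_setIntegral_eq (filt.le j) (h.integrable_M (j + 1))
    (fun s _ _ => (h.integrable_M j).integrableOn) (fun s hs _ => (h.setIntegral_eq j hs).symm)
    (stronglyMeasurable_M n j).aestronglyMeasurable

/-- Almost everywhere, the martingale is bounded above iff it is bounded below. -/
lemma Gap.ae_bdd_iff (h : Gap n q) : ∀ᵐ x ∂mu, BddAbove (range fun j => M n j x) ↔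
    BddBelow (range fun j => M n j x) := by
  have hC := h.C_pos
  let R : NNReal := ⟨12 * C q, by positivity⟩
  exact h.martingale.bddAbove_range_iff_bddBelow_range (R := R)
    (Eventually.of_forall fun x j => h.M_incr j x)

end Q177.Lac
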