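import Mathlib
import Pool.Agent.Q177.LacB

/-!
# Lacunary cosine sums: almost everywhere unboundedness, crossings and density
-/

set_option autoImplicit false

namespace Q177.Lac

open MeasureTheory Filter Topology Set
open scoped FourierTransform

/-! ### Riemann–Lebesgue -/

lemma riemannLebesgue {A : Set ℝ} (hA : MeasurableSet A) (hfin : volume A < ⊤) :
    Tendsto (fun w : ℝ => ∫ x in A, Real.cos (w * x)) (cocompact ℝ) (𝓝 0) := by
  have h1 := Real.tendsto_integral_exp_smul_cocompact (A.indicator (fun _ => (1 : ℂ)))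
  have h2 : Tendsto (fun w : ℝ => (2 * Real.pi)⁻¹ * w) (cocompact ℝ) (cocompact ℝ) :=
    tendsto_cocompact_mul_left₀ (by positivity)
  have h3 := (h1.comp h2).norm
  rw [norm_zero] at h3
  refine squeeze_zero_norm (fun w => ?_) h3
  simp only [Function.comp_apply]
  have h4 : (∫ v : ℝ, 𝐞 (-(v * ((2 * Real.pi)⁻¹ * w))) • A.indicator (fun _ => (1 : ℂ)) v) =
      ∫ v in A, Complex.exp (((-(w * v) : ℝ) : ℂ) * Complex.I) := by
    rw [← integral_indicator hA]
    congr 1
    funext v
    by_cases hv : v ∈ A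
    · simp only [indicator_of_mem hv]
      rw [Circle.smul_def, Real.fourierChar_apply, smul_eq_mul, mul_one]
      congr 2
      push_cast
      field_simp
    · simp [indicator_of_notMem hv]
  rw [h4]
  have hint : IntegrableOn (fun v : ℝ => Complex.exp (((-(w * v) : ℝ) : ℂ) * Complex.I)) A := by
    have : IsFiniteMeasure (volume.restrict A) := ⟨by rwa [Measure.restrict_apply_univ]⟩
    refine Integrable.of_bound (Continuous.aestronglyMeasurable (by fun_prop)) 1
      (Eventually.of_forall fun v => ?_)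
    rw [Complex.norm_exp_ofReal_mul_I]
  have h5 : ∫ x in A, Real.cos (w * x) =
      (∫ v in A, Complex.exp (((-(w * v) : ℝ) : ℂ) * Complex.I)).re := by
    have := integral_re (𝕜 := ℂ) hint
    simp only [RCLike.re_eq_complex_re] at this
    rw [← this]
    congr 1
    funext v
    rw [Complex.exp_ofReal_mul_I_re, Real.cos_neg]
  rw [h5, Real.norm_eq_abs]
  exact Complex.abs_re_le_norm _

variable {n : ℕ → ℕ} {q : ℝ}

lemma S_add (n : ℕ → ℕ) (m T : ℕ) (x : ℝ) :
    S n (m + T) x - S n m x = ∑ i ∈ Finset.range T, Real.cos ((n (m + i) : ℝ) * x) := by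
  unfold S
  rw [Finset.sum_range_add]
  ring

lemma continuous_S (n : ℕ → ℕ) (m : ℕ) : Continuous (S n m) := by
  unfold S
  fun_prop

lemma Gap.tendsto_sub (h : Gap n q) {i j : ℕ} (hij : i ≠ j) :
    Tendsto (fun m => (n (m + i) : ℝ) - n (m + j)) atTop (cocompact ℝ) := by
  rw [← Metric.cobounded_eq_cocompact, ← tendsto_norm_atTop_iff_cobounded]
  have hq := h.one_lt
  have key : ∀ a b : ℕ, a < b → ∀ m, (q - 1) * m ≤ |(n (m + b) : ℝ) - n (m + a)| := by
    intro a b hab m
    have h1 : (n (m + a + 1) : ℝ) ≤ n (m + b) := by exact_mod_cast h.mono (by omega)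
    have h2 := h.gap (m + a)
    have h3 : (m : ℝ) ≤ n (m + a) := by
      have : m + a ≤ n (m + a) := h.strictMono.le_apply
      have : m ≤ n (m + a) := by omega
      exact_mod_cast this
    refine le_trans ?_ (le_abs_self _)
    nlinarith
  have hlim : Tendsto (fun m : ℕ => (q - 1) * (m : ℝ)) atTop atTop :=
    Tendsto.const_mul_atTop (by linarith) tendsto_natCast_atTop_atTop
  refine tendsto_atTop_mono (fun m => ?_) hlim
  rw [Real.norm_eq_abs]
  rcases lt_or_gt_of_ne hij with hlt | hlt
  · rw [abs_sub_comm]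
    exact key i j hlt m
  · exact key j i hlt m

lemma Gap.tendsto_add (h : Gap n q) (i j : ℕ) :
    Tendsto (fun m => (n (m + i) : ℝ) + n (m + j)) atTop (cocompact ℝ) := by
  rw [← Metric.cobounded_eq_cocompact, ← tendsto_norm_atTop_iff_cobounded]
  refine tendsto_atTop_mono (fun m => ?_) tendsto_natCast_atTop_atTop (f := fun m : ℕ => (m : ℝ))
  rw [Real.norm_eq_abs]
  have h3 : (m : ℝ) ≤ n (m + i) := by
    have : m + i ≤ n (m + i) := h.strictMono.le_apply
    have : m ≤ n (m + i) := by omega
    exact_mod_cast this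
  have := h.pos' (m + j)
  refine le_trans ?_ (le_abs_self _)
  linarith

/-- Second moments over a fixed set. -/
lemma Gap.tendsto_sq (h : Gap n q) {A : Set ℝ} (hA : MeasurableSet A) (hfin : volume A < ⊤)
    (T : ℕ) : Tendsto (fun m => ∫ x in A, (S n (m + T) x - S n m x) ^ 2) atTop
      (𝓝 (T * (volume.real A) / 2)) := by
  have hI : ∀ w : ℝ, IntegrableOn (fun x => Real.cos (w * x)) A := by
    intro w
    have : IsFiniteMeasure (volume.restrict A) := ⟨by rwa [Measure.restrict_apply_univ]⟩
    exact Integrable.of_bound (Continuous.aestronglyMeasurable (by fun_prop)) 1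
      (Eventually.of_forall fun v => by simpa using Real.abs_cos_le_one _)
  let φ : ℝ → ℝ := fun w => ∫ x in A, Real.cos (w * x)
  have hφ0 : φ 0 = volume.real A := by simp [φ]
  have heq : ∀ m, ∫ x in A, (S n (m + T) x - S n m x) ^ 2 =
      ∑ i ∈ Finset.range T, ∑ j ∈ Finset.range T,
        (φ ((n (m + i) : ℝ) - n (m + j)) + φ ((n (m + i) : ℝ) + n (m + j))) / 2 := by
    intro m
    have h1 : ∀ x, (S n (m + T) x - S n m x) ^ 2 = ∑ i ∈ Finset.range T, ∑ j ∈ Finset.range T,
        (Real.cos (((n (m + i) : ℝ) - n (m + j)) * x) +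
          Real.cos (((n (m + i) : ℝ) + n (m + j)) * x)) / 2 := by
      intro x
      rw [S_add, pow_two, Finset.sum_mul_sum]
      refine Finset.sum_congr rfl fun i _ => Finset.sum_congr rfl fun j _ => ?_
      rw [sub_mul, add_mul, Real.cos_sub, Real.cos_add]
      ring
    simp_rw [h1]
    rw [integral_finsetSum]
    · refine Finset.sum_congr rfl fun i _ => ?_
      rw [integral_finsetSum]
      · refine Finset.sum_congr rfl fun j _ => ?_
        rw [integral_div, integral_add (hI _) (hI _)]
      · intro j _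
        exact ((hI _).add (hI _)).div_const 2
    · intro i _
      exact integrable_finsetSum _ fun j _ => ((hI _).add (hI _)).div_const 2
  have hlim : Tendsto (fun m => ∑ i ∈ Finset.range T, ∑ j ∈ Finset.range T,
      (φ ((n (m + i) : ℝ) - n (m + j)) + φ ((n (m + i) : ℝ) + n (m + j))) / 2) atTop
      (𝓝 (∑ i ∈ Finset.range T, ∑ j ∈ Finset.range T,
        ((if i = j then volume.real A else 0) + 0) / 2)) := by
    refine tendsto_finsetSum _ fun i _ => tendsto_finsetSum _ fun j _ => ?_
    refine Tendsto.div_const (Tendsto.add ?_ ?_) 2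
    · by_cases hij : i = j
      · subst hij
        simp only [sub_self, hφ0, if_true]
        exact tendsto_const_nhds
      · simp only [if_neg hij]
        exact (riemannLebesgue hA hfin).comp (h.tendsto_sub hij)
    · exact (riemannLebesgue hA hfin).comp (h.tendsto_add i j)
  have hval : ∑ i ∈ Finset.range T, ∑ j ∈ Finset.range T,
        ((if i = j then volume.real A else 0) + 0) / 2 = T * (volume.real A) / 2 := by
    simp only [add_zero]
    have : ∀ i ∈ Finset.range T, ∑ j ∈ Finset.range T, (if i = j then volume.real A else 0) / 2 =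
        volume.real A / 2 := by
      intro i hi
      rw [← Finset.sum_div, Finset.sum_ite_eq, if_pos hi]
    rw [Finset.sum_congr rfl this]
    simp
    ring
  rw [← hval]
  refine hlim.congr fun m => (heq m).symm

lemma Gap.measure_bounded (h : Gap n q) (K : ℝ) :
    volume {x | x ∈ Ico (0 : ℝ) 7 ∧ ∀ m, |S n m x| ≤ K} = 0 := by
  set A : Set ℝ := {x | x ∈ Ico (0 : ℝ) 7 ∧ ∀ m, |S n m x| ≤ K} with hAdef
  have hA : MeasurableSet A := by
    have : A = Ico (0 : ℝ) 7 ∩ ⋂ m, {x | |S n m x| ≤ K} := by
      ext x; simp [hAdef]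
    rw [this]
    refine measurableSet_Ico.inter (MeasurableSet.iInter fun m => ?_)
    exact measurableSet_le (continuous_S n m).abs.measurable measurable_const
  have hfin : volume A < ⊤ := by
    refine (measure_mono (fun x hx => hx.1)).trans_lt (b := volume (Ico (0 : ℝ) 7)) ?_
    rw [Real.volume_Ico]
    exact ENNReal.ofReal_lt_top
  have hle : ∀ T m : ℕ, ∫ x in A, (S n (m + T) x - S n m x) ^ 2 ≤ 4 * K ^ 2 * volume.real A := by
    intro T m
    have h1 : ∀ x ∈ A, (S n (m + T) x - S n m x) ^ 2 ≤ 4 * K ^ 2 := by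
      intro x hx
      have e1 := abs_le.1 (hx.2 (m + T))
      have e2 := abs_le.1 (hx.2 m)
      have e3 : |S n (m + T) x - S n m x| ≤ 2 * K := by
        rw [abs_le]; constructor <;> linarith
      calc (S n (m + T) x - S n m x) ^ 2 = |S n (m + T) x - S n m x| ^ 2 := (sq_abs _).symm
        _ ≤ (2 * K) ^ 2 := by gcongr
        _ = 4 * K ^ 2 := by ring
    calc ∫ x in A, (S n (m + T) x - S n m x) ^ 2 ≤ ∫ x in A, (4 * K ^ 2 : ℝ) := by
          refine setIntegral_mono_on ?_ ?_ hA h1
          · have : IsFiniteMeasure (volume.restrict A) :=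
              ⟨by rwa [Measure.restrict_apply_univ]⟩
            refine Integrable.of_bound (C := 4 * K ^ 2) (Continuous.aestronglyMeasurable
              (((continuous_S n (m + T)).sub (continuous_S n m)).pow 2)) ?_
            rw [ae_restrict_iff' hA]
            refine Eventually.of_forall fun x hx => ?_
            rw [Real.norm_eq_abs, abs_of_nonneg (sq_nonneg _)]
            exact h1 x hx
          · exact integrableOn_const hfin.ne
      _ = 4 * K ^ 2 * volume.real A := by
          rw [setIntegral_const, smul_eq_mul, mul_comm]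
  have hT : ∀ T : ℕ, T * (volume.real A) / 2 ≤ 4 * K ^ 2 * volume.real A := fun T =>
    le_of_tendsto' (h.tendsto_sq hA hfin T) (hle T)
  by_contra hne
  have hpos : 0 < volume.real A := by
    rw [measureReal_def]
    exact ENNReal.toReal_pos hne hfin.ne
  obtain ⟨T, hT'⟩ := exists_nat_gt (8 * K ^ 2)
  have h1 := hT T
  have h2 : 8 * K ^ 2 * volume.real A < T * volume.real A := by gcongr
  linarith

/-- Almost everywhere the partial sums are unbounded above and below. -/
lemma Gap.ae_unbounded (h : Gap n q) : ∀ᵐ x ∂mu, ¬ BddAbove (range fun m => S n m x) ∧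
    ¬ BddBelow (range fun m => S n m x) := by
  have h1 : ∀ᵐ x ∂mu, ∀ K : ℕ, ¬ ∀ m, |S n m x| ≤ K := by
    rw [ae_all_iff]
    intro K
    rw [ae_restrict_iff' measurableSet_Ico, ae_iff]
    refine measure_mono_null (fun x hx => ?_) (h.measure_bounded K)
    simp only [mem_ofPred_eq, Classical.not_imp, not_not] at hx
    exact hx
  filter_upwards [h1, h.ae_bdd_iff] with x hx hiff
  have hnb : ¬ (BddAbove (range fun m => S n m x) ∧ BddBelow (range fun m => S n m x)) := by
    rintro ⟨⟨a, ha⟩, ⟨b, hb⟩⟩
    obtain ⟨K, hK⟩ := exists_nat_ge (max |a| |b|)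
    refine hx K fun m => ?_
    have e1 : S n m x ≤ a := ha ⟨m, rfl⟩
    have e2 : b ≤ S n m x := hb ⟨m, rfl⟩
    have e3 := le_abs_self a
    have e4 := neg_abs_le b
    have e5 := (le_max_left |a| |b|).trans hK
    have e6 := (le_max_right |a| |b|).trans hK
    rw [abs_le]
    constructor <;> linarith
  have eA : BddAbove (range fun m => S n m x) ↔ BddAbove (range fun j => M n j x) := by
    constructor
    · rintro ⟨a, ha⟩
      refine ⟨a + 6 * C q, ?_⟩
      rintro _ ⟨j, rfl⟩
      obtain ⟨m, hm⟩ := h.M_close j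
      have e1 : S n m x ≤ a := ha ⟨m, rfl⟩
      have e2 := abs_le.1 (hm x).1
      change M n j x ≤ _
      linarith [e2.2]
    · rintro ⟨a, ha⟩
      refine ⟨a + 6 * C q, ?_⟩
      rintro _ ⟨m, rfl⟩
      obtain ⟨j, hj⟩ := h.S_close m
      have e1 : M n j x ≤ a := ha ⟨j, rfl⟩
      have e2 := abs_le.1 (hj x)
      change S n m x ≤ _
      linarith [e2.1]
  have eB : BddBelow (range fun m => S n m x) ↔ BddBelow (range fun j => M n j x) := by
    constructor
    · rintro ⟨a, ha⟩
      refine ⟨a - 6 * C q, ?_⟩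
      rintro _ ⟨j, rfl⟩
      obtain ⟨m, hm⟩ := h.M_close j
      have e1 : a ≤ S n m x := ha ⟨m, rfl⟩
      have e2 := abs_le.1 (hm x).1
      change _ ≤ M n j x
      linarith [e2.1]
    · rintro ⟨a, ha⟩
      refine ⟨a - 6 * C q, ?_⟩
      rintro _ ⟨m, rfl⟩
      obtain ⟨j, hj⟩ := h.S_close m
      have e1 : a ≤ M n j x := ha ⟨j, rfl⟩
      have e2 := abs_le.1 (hj x)
      change _ ≤ S n m x
      linarith [e2.2]
  rw [← eA, ← eB] at hiff
  tauto

end Q177.Lac
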