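import Mathlib
import Pool.Agent.Q177.LacC

/-!
# Lacunary cosine sums: density of the partial sums
-/

set_option autoImplicit false

namespace Q177.Lac

open MeasureTheory Filter Topology Set Metric

variable {n : ℕ → ℕ} {q : ℝ}

/-- Upcrossings of every level occur arbitrarily late. -/
lemma exists_upcrossing {x : ℝ} (h1 : ¬ BddAbove (range fun m => S n m x))
    (h2 : ¬ BddBelow (range fun m => S n m x)) (ξ : ℝ) (N : ℕ) :
    ∃ m ≥ N, S n m x ≤ ξ ∧ ξ ≤ S n (m + 1) x := by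
  by_contra hcon
  push Not at hcon
  -- some late partial sum is below the level
  obtain ⟨m₁, hm₁, hS⟩ : ∃ m ≥ N, S n m x ≤ ξ := by
    by_contra hno
    push Not at hno
    refine h2 ⟨min ξ (-(N : ℝ)), ?_⟩
    rintro _ ⟨m, rfl⟩
    rcases le_or_gt N m with hm | hm
    · exact (min_le_left _ _).trans (hno m hm).le
    · refine (min_le_right _ _).trans ?_
      have e1 := (abs_le.1 (abs_S_le n m x)).1
      have e2 : (m : ℝ) ≤ N := by exact_mod_cast hm.le
      change _ ≤ S n m x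
      linarith
  have hall : ∀ i, S n (m₁ + i) x ≤ ξ := by
    intro i
    induction i with
    | zero => simpa using hS
    | succ i ih => exact (hcon (m₁ + i) (by omega) ih).le
  refine h1 ⟨max ξ m₁, ?_⟩
  rintro _ ⟨m, rfl⟩
  rcases le_or_gt m₁ m with hm | hm
  · obtain ⟨i, rfl⟩ := Nat.exists_eq_add_of_le hm
    exact (hall i).trans (le_max_left _ _)
  · refine le_trans ?_ (le_max_right _ _)
    have e1 := (abs_le.1 (abs_S_le n m x)).2
    have e2 : (m : ℝ) ≤ m₁ := by exact_mod_cast hm.le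
    change S n m x ≤ _
    linarith

lemma S_succ (n : ℕ → ℕ) (m : ℕ) (x : ℝ) :
    S n (m + 1) x = S n m x + Real.cos ((n m : ℝ) * x) := by
  unfold S
  rw [Finset.sum_range_succ]

/-- Near an upcrossing there is an exact hit. -/
lemma Gap.exists_hit (h : Gap n q) {x ξ : ℝ} {m : ℕ} (h1 : S n m x ≤ ξ)
    (h2 : ξ ≤ S n (m + 1) x) :
    ∃ i, m ≤ i ∧ i ≤ m + 1 ∧ ∃ y ∈ Icc x (x + 2 * Real.pi / n m), S n i y = ξ := by
  have hn := h.pos' m
  have hper : Function.Periodic (fun y : ℝ => Real.cos ((n m : ℝ) * y)) (2 * Real.pi / n m) := by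
    intro y
    simp only
    rw [mul_add, mul_div_cancel₀ _ hn.ne', Real.cos_add_two_pi]
  obtain ⟨y', hy', hcos⟩ := hper.exists_mem_Ico (by positivity) (Real.pi / n m) x
  have hcos' : Real.cos ((n m : ℝ) * y') = -1 := by
    rw [← hcos, mul_div_cancel₀ _ hn.ne', Real.cos_pi]
  have hsucc := S_succ n m y'
  rw [hcos'] at hsucc
  rcases le_or_gt ξ (S n m y') with hc | hc
  · obtain ⟨y, hy, hy2⟩ := intermediate_value_Icc hy'.1 (continuous_S n m).continuousOn ⟨h1, hc⟩
    exact ⟨m, le_rfl, Nat.le_succ m, y, ⟨hy.1, hy.2.trans hy'.2.le⟩, hy2⟩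
  · obtain ⟨y, hy, hy2⟩ := intermediate_value_Icc' hy'.1 (continuous_S n (m + 1)).continuousOn
      ⟨by rw [hsucc]; linarith, h2⟩
    exact ⟨m + 1, Nat.le_succ m, le_rfl, y, ⟨hy.1, hy.2.trans hy'.2.le⟩, hy2⟩

lemma Gap.lip (h : Gap n q) {i m : ℕ} (hi : i ≤ m + 1) (y z : ℝ) :
    |S n i y - S n i z| ≤ C q * n m * |y - z| := by
  unfold S
  rw [← Finset.sum_sub_distrib]
  refine (Finset.abs_sum_le_sum_abs _ _).trans ?_
  calc ∑ k ∈ Finset.range i, |Real.cos ((n k : ℝ) * y) - Real.cos ((n k : ℝ) * z)|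
      ≤ ∑ k ∈ Finset.range i, (n k : ℝ) * |y - z| := by
        refine Finset.sum_le_sum fun k _ => (cos_lip _ _).trans ?_
        rw [← mul_sub, abs_mul, abs_of_pos (h.pos' k)]
    _ = (∑ k ∈ Finset.range i, (n k : ℝ)) * |y - z| := by rw [Finset.sum_mul]
    _ ≤ (∑ k ∈ Finset.range (m + 1), (n k : ℝ)) * |y - z| := by
        refine mul_le_mul_of_nonneg_right ?_ (abs_nonneg _)
        exact Finset.sum_le_sum_of_subset_of_nonneg (Finset.range_mono hi)
          fun k _ _ => (h.pos' k).le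
    _ ≤ _ := mul_le_mul_of_nonneg_right (h.sum_le' m) (abs_nonneg _)

/-- For each level and precision, almost every point is a late near-hit. -/
lemma Gap.ae_near (h : Gap n q) (ξ : ℝ) {ε : ℝ} (hε : 0 < ε) (N : ℕ) :
    ∀ᵐ x ∂mu, ∃ m ≥ N, |S n m x - ξ| < ε := by
  set B : Set ℝ := {x | ∀ m ≥ N, ε ≤ |S n m x - ξ|} with hB
  have hC := h.C_pos
  have hpi := Real.pi_pos
  have hBm : MeasurableSet B := by
    have : B = ⋂ m, ⋂ (_ : m ≥ N), {x | ε ≤ |S n m x - ξ|} := by
      ext x; simp [hB]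
    rw [this]
    refine MeasurableSet.iInter fun m => MeasurableSet.iInter fun _ => ?_
    exact measurableSet_le measurable_const ((continuous_S n m).sub continuous_const).abs.measurable
  set e : ℝ := min (ε / 2) (C q) with he
  have he0 : 0 < e := lt_min (by linarith) hC
  have heε : e < ε := (min_le_left _ _).trans_lt (by linarith)
  have heC : e ≤ C q := min_le_right _ _
  set κ : ℝ := e / (4 * Real.pi * C q) with hκ
  have hκ0 : 0 < κ := by positivity
  have hdens := Besicovitch.ae_tendsto_measure_inter_div_of_measurableSet (volume : Measure ℝ) hBm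
  have hdens' : ∀ᵐ x ∂mu, Tendsto (fun r => volume (B ∩ closedBall x r) /
      volume (closedBall x r)) (𝓝[>] 0) (𝓝 (B.indicator 1 x)) := ae_restrict_of_ae hdens
  filter_upwards [hdens', h.ae_unbounded] with x hx hunb
  by_contra hcon
  push Not at hcon
  have hxB : x ∈ B := hcon
  rw [indicator_of_mem hxB, Pi.one_apply] at hx
  have hlt : ENNReal.ofReal (1 - κ) < 1 := by
    rw [← ENNReal.ofReal_one, ENNReal.ofReal_lt_ofReal_iff one_pos]
    linarith
  have hev : ∀ᶠ r in 𝓝[>] (0 : ℝ), ENNReal.ofReal (1 - κ) <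
      volume (B ∩ closedBall x r) / volume (closedBall x r) := hx.eventually (lt_mem_nhds hlt)
  have hr : Tendsto (fun m : ℕ => 4 * Real.pi / (n m : ℝ)) atTop (𝓝[>] 0) := by
    rw [tendsto_nhdsWithin_iff]
    constructor
    · refine Tendsto.const_div_atTop ?_ _
      refine tendsto_atTop_mono (fun m => ?_) tendsto_natCast_atTop_atTop (f := fun m : ℕ => (m : ℝ))
      exact_mod_cast h.strictMono.le_apply (x := m)
    · refine Eventually.of_forall fun m => ?_
      have := h.pos' m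
      exact div_pos (by positivity) this
  obtain ⟨N', hN'⟩ := eventually_atTop.1 (hr.eventually hev)
  obtain ⟨m, hm, hc1, hc2⟩ := exists_upcrossing hunb.1 hunb.2 ξ (max N N')
  obtain ⟨i, hi1, hi2, y, hy, hySi⟩ := h.exists_hit hc1 hc2
  have hnm := h.pos' m
  set r : ℝ := 4 * Real.pi / (n m : ℝ) with hrdef
  have hr0 : 0 < r := by positivity
  set ρ : ℝ := e / (C q * n m) with hρ
  have hρ0 : 0 < ρ := by positivity
  have hρle : ρ ≤ 2 * Real.pi / n m := by
    rw [hρ, div_le_div_iff₀ (by positivity) hnm]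
    have h3 : e ≤ 2 * Real.pi * C q := by
      have := Real.pi_gt_three
      nlinarith
    calc e * (n m : ℝ) ≤ (2 * Real.pi * C q) * n m := by gcongr
      _ = _ := by ring
  have hsub : B ∩ closedBall x r ⊆ Icc (x - r) (x + r) \ Ioo (y - ρ) (y + ρ) := by
    rintro z ⟨hzB, hz⟩
    refine ⟨?_, fun hz' => ?_⟩
    · rwa [Real.closedBall_eq_Icc] at hz
    · have h3 := h.lip hi2 z y
      rw [hySi] at h3
      have h4 : |z - y| < ρ := by
        rw [abs_lt]
        constructor <;> linarith [hz'.1, hz'.2]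
      have h5 : C q * n m * |z - y| < e := by
        calc C q * n m * |z - y| < C q * n m * ρ := by gcongr
          _ = e := by rw [hρ]; field_simp
      have h6 := hzB i ((le_max_left _ _).trans (hm.le.trans hi1))
      linarith
  have hsub2 : Ioo (y - ρ) (y + ρ) ⊆ Icc (x - r) (x + r) := by
    intro z hz
    have h3 : r = 2 * Real.pi / n m + 2 * Real.pi / n m := by rw [hrdef]; ring
    constructor <;> linarith [hz.1, hz.2, hy.1, hy.2]
  have hmeas : volume (B ∩ closedBall x r) ≤ ENNReal.ofReal (1 - κ) * volume (closedBall x r) := by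
    refine (measure_mono hsub).trans ?_
    rw [measure_sdiff hsub2 measurableSet_Ioo.nullMeasurableSet (by
      rw [Real.volume_Ioo]; exact ENNReal.ofReal_ne_top), Real.volume_Icc, Real.volume_Ioo,
      Real.volume_closedBall]
    have hκ1 : κ ≤ 1 := by
      rw [hκ, div_le_one (by positivity)]
      have := Real.pi_gt_three
      nlinarith
    rw [← ENNReal.ofReal_mul (by linarith), ← ENNReal.ofReal_sub _ (by linarith)]
    apply ENNReal.ofReal_le_ofReal
    have h3 : κ * (2 * r) = 2 * ρ := by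
      rw [hκ, hrdef, hρ]
      field_simp
    nlinarith
  have hgt := hN' m ((le_max_right _ _).trans hm)
  have hball0 : volume (closedBall x r) ≠ 0 := by
    rw [Real.volume_closedBall]
    simp only [ne_eq, ENNReal.ofReal_eq_zero, not_le]
    linarith
  have hballt : volume (closedBall x r) ≠ ⊤ := by
    rw [Real.volume_closedBall]
    exact ENNReal.ofReal_ne_top
  have hle : volume (B ∩ closedBall x r) / volume (closedBall x r) ≤ ENNReal.ofReal (1 - κ) :=
    ENNReal.div_le_of_le_mul hmeas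
  exact absurd hle (not_le.2 hgt)

lemma Gap.ae_all (h : Gap n q) : ∀ᵐ x ∂mu, ∀ ξ : ℝ, ∀ ε : ℝ, 0 < ε →
    ∃ᶠ m in atTop, |S n m x - ξ| < ε := by
  have h1 : ∀ᵐ x ∂mu, ∀ (ξ : ℚ) (p : ℕ) (N : ℕ), ∃ m ≥ N, |S n m x - ξ| < 1 / ((p : ℝ) + 1) := by
    rw [ae_all_iff]; intro ξ
    rw [ae_all_iff]; intro p
    rw [ae_all_iff]; intro N
    exact h.ae_near ξ (by positivity) N
  filter_upwards [h1] with x hx ξ ε hε
  rw [frequently_atTop]
  intro N
  obtain ⟨ξ', h2, h3⟩ := exists_rat_btwn (show ξ < ξ + ε / 2 by linarith)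
  obtain ⟨p, hp⟩ := exists_nat_one_div_lt (show 0 < ε / 2 by linarith)
  obtain ⟨m, hm, h4⟩ := hx ξ' p N
  refine ⟨m, hm, ?_⟩
  calc |S n m x - ξ| = |(S n m x - ξ') + (ξ' - ξ)| := by ring_nf
    _ ≤ |S n m x - ξ'| + |(ξ' : ℝ) - ξ| := abs_add_le _ _
    _ < ε := by
        have : |(ξ' : ℝ) - ξ| < ε / 2 := by
          rw [abs_of_pos (by linarith)]
          linarith
        linarith

/-- The final statement. -/
theorem main (n : ℕ → ℕ) (q : ℝ) (hq : 1 < q) (hn : ∀ k, 0 < n k)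
    (hgap : ∀ k, q * (n k : ℝ) ≤ (n (k + 1) : ℝ)) :
    volume {x : ℝ | x ∈ Ico 0 (2 * Real.pi) ∧ ∀ ξ : ℝ, ∀ ε : ℝ, 0 < ε →
      ∃ᶠ m in atTop, |(∑ k ∈ Finset.range m, Real.cos ((n k : ℝ) * x)) - ξ| < ε} =
      ENNReal.ofReal (2 * Real.pi) := by
  have h : Gap n q := ⟨hq, hn, hgap⟩
  have hae := h.ae_all
  rw [ae_restrict_iff' measurableSet_Ico, ae_iff] at hae
  have hsub : Ico 0 (2 * Real.pi) ⊆ Ico (0 : ℝ) 7 := by
    refine Ico_subset_Ico_right ?_
    have := Real.pi_lt_d2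
    linarith
  refine le_antisymm ?_ ?_
  · refine (measure_mono (fun x hx => hx.1)).trans (b := volume (Ico (0 : ℝ) (2 * Real.pi))) ?_
    rw [Real.volume_Ico, sub_zero]
  · calc ENNReal.ofReal (2 * Real.pi) = volume (Ico (0 : ℝ) (2 * Real.pi)) := by
          rw [Real.volume_Ico, sub_zero]
      _ ≤ volume ({x : ℝ | x ∈ Ico 0 (2 * Real.pi) ∧ ∀ ξ : ℝ, ∀ ε : ℝ, 0 < ε →
            ∃ᶠ m in atTop, |(∑ k ∈ Finset.range m, Real.cos ((n k : ℝ) * x)) - ξ| < ε} ∪
            {x | ¬(x ∈ Ico (0 : ℝ) 7 → ∀ ξ : ℝ, ∀ ε : ℝ, 0 < ε →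
              ∃ᶠ m in atTop, |S n m x - ξ| < ε)}) := by
          refine measure_mono fun x hx => ?_
          by_cases hP : ∀ ξ : ℝ, ∀ ε : ℝ, 0 < ε → ∃ᶠ m in atTop, |S n m x - ξ| < ε
          · exact Or.inl ⟨hx, hP⟩
          · exact Or.inr fun h' => hP (h' (hsub hx))
      _ ≤ _ := by
          refine (measure_union_le _ _).trans ?_
          rw [hae, add_zero]

end Q177.Lac
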