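import Pool.Agent.Q88.MD.Stm

set_option autoImplicit false

open MeasureTheory Set Filter Topology
open scoped ENNReal NNReal

namespace Pool.Agent.Q177.MD

open Pool.Agent.Q88.MD

lemma mem_dy_iff {n k : ℕ} {x : ℝ} (hx : 0 ≤ x) : x ∈ dy n k ↔ dk n x = k := by
  have h2 : (0 : ℝ) < 2 ^ n := by positivity
  unfold dy dk
  rw [mem_Ico, Nat.floor_eq_iff (by positivity), div_le_iff₀ h2, lt_div_iff₀ h2, mul_comm x]

lemma mem_dy_self {n : ℕ} {x : ℝ} (hx : 0 ≤ x) : x ∈ dy n (dk n x) := (mem_dy_iff hx).2 rfl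

lemma dk_lt {n : ℕ} {x : ℝ} (h0 : 0 ≤ x) (hx : x < 1) : dk n x < 2 ^ n := by
  unfold dk
  have h2 : (0 : ℝ) < 2 ^ n := by positivity
  rw [Nat.floor_lt (by positivity)]
  push_cast
  nlinarith

lemma dk_div {n m : ℕ} (hnm : n ≤ m) (x : ℝ) : dk n x = dk m x / 2 ^ (m - n) := by
  unfold dk
  rw [show (2 : ℕ) ^ (m - n) = ((2 ^ (m - n) : ℕ)) from rfl, ← Nat.floor_div_natCast]
  congr 1
  push_cast
  obtain ⟨d, rfl⟩ := Nat.exists_eq_add_of_le hnm
  rw [Nat.add_sub_cancel_left, pow_add]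
  field_simp

lemma dy_sub {n k : ℕ} (hk : k < 2 ^ n) : dy n k ⊆ Ico 0 1 := by
  have h2 : (0 : ℝ) < 2 ^ n := by positivity
  rintro x ⟨hx1, hx2⟩
  refine ⟨le_trans (by positivity) hx1, lt_of_lt_of_le hx2 ?_⟩
  rw [div_le_one h2]
  exact_mod_cast hk

lemma dy_nonneg {n k : ℕ} {x : ℝ} (hx : x ∈ dy n k) : 0 ≤ x :=
  le_trans (by positivity) hx.1

/-- Maximal dyadic intervals with a property. -/
lemma maximal (P : ℕ → ℕ → Prop) : ∃ M : Set (ℕ × ℕ), (∀ p ∈ M, P p.1 p.2 ∧ p.2 < 2 ^ p.1) ∧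
    M.PairwiseDisjoint (fun p => dy p.1 p.2) ∧
    ∀ x ∈ Ico (0 : ℝ) 1, (∃ n, P n (dk n x)) → x ∈ ⋃ p ∈ M, dy p.1 p.2 := by
  classical
  refine ⟨{p | P p.1 p.2 ∧ p.2 < 2 ^ p.1 ∧ ∀ m < p.1, ¬ P m (p.2 / 2 ^ (p.1 - m))},
    fun p hp => ⟨hp.1, hp.2.1⟩, ?_, ?_⟩
  · rintro ⟨n, k⟩ ⟨hP, hk, hm⟩ ⟨n', k'⟩ ⟨hP', hk', hm'⟩ hne
    simp only at hP hk hm hP' hk' hm'
    refine Set.disjoint_left.2 ?_
    intro x hx hx'
    simp only at hx hx'
    have h0 := dy_nonneg hx
    rw [mem_dy_iff h0] at hx hx'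
    apply hne
    rcases lt_trichotomy n n' with h | h | h
    · exfalso
      apply hm' n h
      rw [← hx', ← dk_div h.le, hx]
      exact hP
    · subst h
      rw [← hx, ← hx']
    · exfalso
      apply hm n' h
      rw [← hx, ← dk_div h.le, hx']
      exact hP'
  · intro x hx hex
    simp only [mem_iUnion, mem_ofPred_eq, Prod.exists, exists_prop]
    refine ⟨Nat.find hex, dk (Nat.find hex) x, ⟨Nat.find_spec hex, dk_lt hx.1 hx.2, ?_⟩,
      mem_dy_self hx.1⟩
    intro m hm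
    rw [← dk_div hm.le]
    exact Nat.find_min hex hm

lemma meas_dy (n k : ℕ) : MeasurableSet (dy n k) := measurableSet_Ico

lemma vol_dy (n k : ℕ) : volume (dy n k) = (ENNReal.ofReal (2 ^ n))⁻¹ := by
  unfold dy
  rw [Real.volume_Ico, ← ENNReal.ofReal_inv_of_pos (by positivity)]
  congr 1
  field_simp
  ring

lemma inner_ge {s : ℝ} (hs : s ∈ Ico (0 : ℝ) 1) (om : Measure ℝ) {n k : ℕ} (hk : k < 2 ^ n) {x : ℝ}
    (hx : x ∈ dy n k) :
    ENNReal.ofReal (2 ^ n) ^ (1 - (1 - s) / 2) * om (dy n k) ≤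
      ∫⁻ y in Icc (0 : ℝ) 1, ENNReal.ofReal |x - y| ^ ((1 - s) / 2 - 1) ∂om := by
  have h2 : (0 : ℝ) < 2 ^ n := by positivity
  calc ENNReal.ofReal (2 ^ n) ^ (1 - (1 - s) / 2) * om (dy n k)
      = ∫⁻ y in dy n k, ENNReal.ofReal (2 ^ n) ^ (1 - (1 - s) / 2) ∂om := by
        rw [setLIntegral_const]
    _ ≤ ∫⁻ y in dy n k, ENNReal.ofReal |x - y| ^ ((1 - s) / 2 - 1) ∂om := by
        refine setLIntegral_mono' (meas_dy n k) ?_
        intro y hy
        have h1 : ENNReal.ofReal |x - y| ≤ (ENNReal.ofReal (2 ^ n))⁻¹ := by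
          rw [← ENNReal.ofReal_inv_of_pos h2]
          apply ENNReal.ofReal_le_ofReal
          have e : ((k : ℝ) + 1) / 2 ^ n = (k : ℝ) / 2 ^ n + (2 ^ n)⁻¹ := by
            field_simp
          obtain ⟨a1, a2⟩ := hx
          obtain ⟨b1, b2⟩ := hy
          rw [e] at a2 b2
          rw [abs_le]
          constructor <;> linarith
        have h3 : (1 - s) / 2 - 1 = -(1 - (1 - s) / 2) := by ring
        rw [h3, ENNReal.rpow_neg]
        rw [← ENNReal.inv_le_inv, inv_inv, ← ENNReal.inv_rpow]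
        apply ENNReal.rpow_le_rpow h1
        have := hs.1
        linarith
    _ ≤ ∫⁻ y in Icc (0 : ℝ) 1, ENNReal.ofReal |x - y| ^ ((1 - s) / 2 - 1) ∂om :=
        lintegral_mono_set ((dy_sub hk).trans Ico_subset_Icc_self)

lemma two_pow_rpow (s : ℝ) (n : ℕ) :
    ENNReal.ofReal (2 ^ (n * s)) = (ENNReal.ofReal (2 ^ n))⁻¹ *
      (ENNReal.ofReal (2 ^ n) ^ (1 - (1 - s) / 2)) ^ 2 := by
  have h2 : (0 : ℝ) < 2 ^ n := by positivity
  rw [ENNReal.ofReal_rpow_of_pos h2, ← ENNReal.ofReal_inv_of_pos h2, ← ENNReal.ofReal_pow (by positivity),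
    ← ENNReal.ofReal_mul (by positivity)]
  congr 1
  rw [← Real.rpow_natCast 2 n, ← Real.rpow_mul (by norm_num), ← Real.rpow_neg (by norm_num),
    ← Real.rpow_natCast _ 2, ← Real.rpow_mul (by norm_num), ← Real.rpow_add (by norm_num)]
  congr 1
  push_cast
  ring

/-- Step (1). -/
lemma step1 {s : ℝ} (hs : s ∈ Ico (0 : ℝ) 1) (om : Measure ℝ) (M : Set (ℕ × ℕ))
    (hM : ∀ p ∈ M, p.2 < 2 ^ p.1) (hd : M.PairwiseDisjoint (fun p => dy p.1 p.2)) :
    ∑' p : M, ENNReal.ofReal (2 ^ ((p.1.1 : ℝ) * s)) * om (dy p.1.1 p.1.2) ^ 2 ≤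
      energy ((1 - s) / 2) om := by
  have hc : M.Countable := Set.to_countable M
  calc ∑' p : M, ENNReal.ofReal (2 ^ ((p.1.1 : ℝ) * s)) * om (dy p.1.1 p.1.2) ^ 2
      ≤ ∑' p : M, ∫⁻ x in dy p.1.1 p.1.2,
          (∫⁻ y in Icc (0 : ℝ) 1, ENNReal.ofReal |x - y| ^ ((1 - s) / 2 - 1) ∂om) ^ 2 := by
        refine ENNReal.tsum_le_tsum ?_
        rintro ⟨⟨n, k⟩, hp⟩
        simp only
        have hk : k < 2 ^ n := hM _ hp
        calc ENNReal.ofReal (2 ^ ((n : ℝ) * s)) * om (dy n k) ^ 2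
            = ∫⁻ x in dy n k, (ENNReal.ofReal (2 ^ n) ^ (1 - (1 - s) / 2) * om (dy n k)) ^ 2 := by
              rw [setLIntegral_const, vol_dy, two_pow_rpow, mul_pow]
              ring
          _ ≤ _ := by
              refine setLIntegral_mono' (meas_dy n k) ?_
              intro x hx
              exact pow_le_pow_left' (inner_ge hs om hk hx) 2
    _ = ∫⁻ x in ⋃ p ∈ M, dy p.1 p.2,
          (∫⁻ y in Icc (0 : ℝ) 1, ENNReal.ofReal |x - y| ^ ((1 - s) / 2 - 1) ∂om) ^ 2 := by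
        rw [lintegral_biUnion hc (fun p _ => meas_dy p.1 p.2) hd]
    _ ≤ energy ((1 - s) / 2) om := by
        unfold energy
        apply lintegral_mono_set
        refine iUnion₂_subset ?_
        intro p hp
        exact (dy_sub (hM p hp)).trans Ico_subset_Icc_self

theorem pol (h : S_qap) : S_pol := by
  intro s hs μ hμ E hE hEm hx
  right
  rw [h]
  intro om hom hC hom0
  obtain ⟨C, hCc, hCE, hC0⟩ := hC
  by_contra hI
  apply hom0
  rw [← Measure.measure_univ_eq_zero]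
  have hE0 : om univ = om E := by
    refine le_antisymm ?_ (measure_mono (subset_univ _))
    calc om univ ≤ om (C ∪ Cᶜ) := by rw [union_compl_self]
      _ ≤ om C + om Cᶜ := measure_union_le _ _
      _ = om C := by rw [hC0, add_zero]
      _ ≤ om E := measure_mono hCE
  -- main estimate
  have key : ∀ a : ℕ, (a : ℝ≥0∞) * om univ ≤ energy ((1 - s) / 2) om := by
    intro a
    obtain ⟨M, hM, hd, hcov⟩ := maximal (fun n k => (a : ℝ≥0∞) ≤ ENNReal.ofReal (2 ^ ((n : ℝ) * s)) * om (dy n k))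
    have hc : M.Countable := Set.to_countable M
    set U : Set ℝ := ⋃ p ∈ M, dy p.1 p.2 with hU
    -- the set E \ U is null
    have hnull : om (E \ U) = 0 := by
      have hB : ∀ B : ℕ, (B : ℝ≥0∞) * om (E \ U) ≤ (a : ℝ≥0∞) * μ univ := by
        intro B
        obtain ⟨N, hN, hdN, hcovN⟩ := maximal
          (fun n k => ENNReal.ofReal (B * 2 ^ (-(n * s))) ≤ μ (dy n k))
        have hcN : N.Countable := Set.to_countable N
        have h1 : E \ U ⊆ ⋃ p ∈ N, (dy p.1 p.2 ∩ (E \ U)) := by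
          intro x hxE
          have := hcovN x (hE hxE.1) (hx x hxE.1 B)
          simp only [mem_iUnion] at this ⊢
          obtain ⟨p, hp, hxp⟩ := this
          exact ⟨p, hp, hxp, hxE⟩
        calc (B : ℝ≥0∞) * om (E \ U) ≤ (B : ℝ≥0∞) * om (⋃ p ∈ N, (dy p.1 p.2 ∩ (E \ U))) := by
              gcongr
          _ ≤ (B : ℝ≥0∞) * ∑' p : N, om (dy p.1.1 p.1.2 ∩ (E \ U)) := by
              gcongr
              exact measure_biUnion_le om hcN _
          _ = ∑' p : N, (B : ℝ≥0∞) * om (dy p.1.1 p.1.2 ∩ (E \ U)) := by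
              rw [ENNReal.tsum_mul_left]
          _ ≤ ∑' p : N, (a : ℝ≥0∞) * μ (dy p.1.1 p.1.2) := by
              refine ENNReal.tsum_le_tsum ?_
              rintro ⟨⟨n, k⟩, hp⟩
              simp only
              by_cases hne : (dy n k ∩ (E \ U)).Nonempty
              · obtain ⟨x, hxd, hxE, hxU⟩ := hne
                have hx0 := dy_nonneg hxd
                have hkx : dk n x = k := (mem_dy_iff hx0).1 hxd
                have h2 : ENNReal.ofReal (2 ^ ((n : ℝ) * s)) * om (dy n k) ≤ a := by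
                  by_contra hlt
                  apply hxU
                  apply hcov x (hE hxE)
                  refine ⟨n, ?_⟩
                  rw [hkx]
                  exact (not_le.1 hlt).le
                have h3 : ENNReal.ofReal (B * 2 ^ (-(n * s))) ≤ μ (dy n k) := (hN _ hp).1
                have h4 : (B : ℝ≥0∞) = ENNReal.ofReal (B * 2 ^ (-(n * s))) *
                    ENNReal.ofReal (2 ^ ((n : ℝ) * s)) := by
                  rw [← ENNReal.ofReal_mul (by positivity), mul_assoc, ← Real.rpow_add (by norm_num)]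
                  simp
                calc (B : ℝ≥0∞) * om (dy n k ∩ (E \ U)) ≤ (B : ℝ≥0∞) * om (dy n k) := by
                      gcongr
                      exact inter_subset_left
                  _ = ENNReal.ofReal (B * 2 ^ (-(n * s))) *
                      (ENNReal.ofReal (2 ^ ((n : ℝ) * s)) * om (dy n k)) := by
                      rw [← mul_assoc, ← h4]
                  _ ≤ μ (dy n k) * a := by gcongr
                  _ = a * μ (dy n k) := mul_comm _ _
              · rw [not_nonempty_iff_eq_empty] at hne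
                rw [hne]
                simp
          _ = (a : ℝ≥0∞) * ∑' p : N, μ (dy p.1.1 p.1.2) := by
              rw [ENNReal.tsum_mul_left]
          _ = (a : ℝ≥0∞) * μ (⋃ p ∈ N, dy p.1 p.2) := by
              rw [measure_biUnion hcN hdN (fun p _ => meas_dy p.1 p.2)]
          _ ≤ (a : ℝ≥0∞) * μ univ := by
              gcongr
              exact subset_univ _
      by_contra hne
      have hfin : (a : ℝ≥0∞) * μ univ ≠ ⊤ :=
        ENNReal.mul_ne_top (ENNReal.natCast_ne_top a) (measure_ne_top μ _)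
      obtain ⟨B, hBB⟩ := ENNReal.exists_nat_mul_gt hne hfin
      exact absurd (hB B) (not_le.2 hBB)
    have h5 : om univ ≤ om U := by
      rw [hE0]
      calc om E ≤ om ((E \ U) ∪ U) := by
            apply measure_mono
            intro x hx
            by_cases hxU : x ∈ U
            · exact Or.inr hxU
            · exact Or.inl ⟨hx, hxU⟩
        _ ≤ om (E \ U) + om U := measure_union_le _ _
        _ = om U := by rw [hnull, zero_add]
    calc (a : ℝ≥0∞) * om univ ≤ (a : ℝ≥0∞) * om U := by gcongr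
      _ = (a : ℝ≥0∞) * ∑' p : M, om (dy p.1.1 p.1.2) := by
          rw [hU, measure_biUnion hc hd (fun p _ => meas_dy p.1 p.2)]
      _ = ∑' p : M, (a : ℝ≥0∞) * om (dy p.1.1 p.1.2) := by
          rw [ENNReal.tsum_mul_left]
      _ ≤ ∑' p : M, ENNReal.ofReal (2 ^ ((p.1.1 : ℝ) * s)) * om (dy p.1.1 p.1.2) ^ 2 := by
          refine ENNReal.tsum_le_tsum ?_
          rintro ⟨⟨n, k⟩, hp⟩
          simp only
          have h6 : (a : ℝ≥0∞) ≤ ENNReal.ofReal (2 ^ ((n : ℝ) * s)) * om (dy n k) := (hM _ hp).1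
          calc (a : ℝ≥0∞) * om (dy n k)
              ≤ (ENNReal.ofReal (2 ^ ((n : ℝ) * s)) * om (dy n k)) * om (dy n k) := by gcongr
            _ = _ := by ring
      _ ≤ energy ((1 - s) / 2) om := step1 hs om M (fun p hp => (hM p hp).2) hd
  by_contra hne
  obtain ⟨a, ha⟩ := ENNReal.exists_nat_mul_gt hne hI
  exact absurd (key a) (not_le.2 ha)

end Pool.Agent.Q177.MD
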