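import Pool.Agent.Q88.MK.Stm

/-! Lemma job 32896 (MK FIN, project MK of helper88), by helper177. -/

set_option autoImplicit false

open Set MvPolynomial Filter Topology

noncomputable section

namespace Pool.Agent.Q177.MK

open Pool.Agent.Q88.MK

theorem fin (h : S_mvt) (h1 : S_bdd) (h2 : S_cha) : S_fin := by
  intro s p hs hp H hMar
  obtain ⟨C, r, hC, hr, hM⟩ := hMar
  obtain ⟨ρ, N, D, hρ0, hρ1, hN, hNρ, hLoc⟩ := H (⌈r⌉₊ + 1)
  set R : ℕ := ⌈r⌉₊ + 1 with hR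
  have hrR : r ≤ (R : ℝ) := by
    have := Nat.le_ceil r
    rw [hR]
    push_cast
    linarith
  obtain ⟨δ₀, M, hδ0, hδ1, hgood⟩ := h2 s p ρ N D hs hp hρ0 hρ1.le hN hLoc
  have hs0 : 0 < s := by linarith
  have hp0 : 0 < p := by linarith
  set M' : ℝ := max (M : ℝ) 1 with hM'
  have hM'1 : 1 ≤ M' := le_max_right _ _
  have hM'0 : 0 < M' := by linarith
  -- the main estimate
  have key : ∀ k : ℕ, 1 / 2 ≤ ((1 + s) * C * M' ^ R * δ₀) * (((N : ℝ) + 1) ^ R * ρ) ^ k := by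
    intro k
    obtain ⟨Q, hdeg, hQ0, hQ⟩ := hgood k
    set δ : ℝ := δ₀ * ρ ^ k with hδ
    have hδpos : 0 < δ := mul_pos hδ0 (pow_pos hρ0 k)
    have hδle : δ ≤ 1 := by
      rw [hδ]
      calc δ₀ * ρ ^ k ≤ 1 * 1 := by
            apply mul_le_mul hδ1 (pow_le_one₀ hρ0.le hρ1.le) (pow_pos hρ0 k).le zero_le_one
        _ = 1 := one_mul 1
    set n' : ℝ := M' * ((N : ℝ) + 1) ^ k with hn'
    have hN1 : (1 : ℝ) ≤ ((N : ℝ) + 1) ^ k := by
      apply one_le_pow₀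
      have : (0 : ℝ) ≤ N := Nat.cast_nonneg N
      linarith
    have hn'1 : 1 ≤ n' := by
      rw [hn']
      calc (1 : ℝ) = 1 * 1 := (one_mul 1).symm
        _ ≤ M' * ((N : ℝ) + 1) ^ k := mul_le_mul hM'1 hN1 zero_le_one hM'0.le
    have hdeg' : (Q.totalDegree : ℝ) ≤ n' := by
      have e1 : (Q.totalDegree : ℝ) ≤ ((M * (N + 1) ^ k : ℕ) : ℝ) := by exact_mod_cast hdeg
      have e2 : ((M * (N + 1) ^ k : ℕ) : ℝ) = (M : ℝ) * ((N : ℝ) + 1) ^ k := by push_cast; ring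
      rw [e2] at e1
      exact e1.trans (mul_le_mul_of_nonneg_right (le_max_left _ _) (by linarith))
    have hpow : (Q.totalDegree : ℝ) ^ r ≤ n' ^ R := by
      calc (Q.totalDegree : ℝ) ^ r ≤ n' ^ r :=
            Real.rpow_le_rpow (Nat.cast_nonneg _) hdeg' hr.le
        _ ≤ n' ^ (R : ℝ) := Real.rpow_le_rpow_of_exponent_le hn'1 hrR
        _ = n' ^ R := Real.rpow_natCast _ _
    have hne : ((fun z : ℝ × ℝ => |ev Q z.1 z.2|) '' cusp s p).Nonempty := by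
      refine ⟨_, (0, 0), ⟨?_, ?_, ?_⟩, rfl⟩
      · exact ⟨le_rfl, zero_le_one⟩
      · simp [Real.zero_rpow hs0.ne']
      · simp [Real.zero_rpow hs0.ne', Real.zero_rpow hp0.ne']
    have hsup : sSup ((fun z : ℝ × ℝ => |ev Q z.1 z.2|) '' cusp s p) ≤ 1 := by
      apply csSup_le hne
      rintro _ ⟨z, hz, rfl⟩
      exact (hQ z.1 z.2 ⟨hz.1.1, hz.1.2, hz.2.1, hz.2.2⟩).1
    have hG : ∀ t ∈ Icc (0 : ℝ) δ, gradNorm Q (t, t ^ s) ≤ C * n' ^ R := by
      intro t ht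
      have hmem : (t, t ^ s) ∈ cusp s p := by
        refine ⟨⟨ht.1, ht.2.trans hδle⟩, le_rfl, ?_⟩
        have : 0 ≤ t ^ p := Real.rpow_nonneg ht.1 p
        simp only
        linarith
      calc gradNorm Q (t, t ^ s) ≤ sSup (gradNorm Q '' cusp s p) :=
            le_csSup (h1 s p Q hs hp).1 ⟨_, hmem, rfl⟩
        _ ≤ C * (Q.totalDegree : ℝ) ^ r * sSup ((fun z => |ev Q z.1 z.2|) '' cusp s p) := hM Q
        _ ≤ C * (Q.totalDegree : ℝ) ^ r * 1 := by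
            apply mul_le_mul_of_nonneg_left hsup
            exact mul_nonneg hC.le (Real.rpow_nonneg (Nat.cast_nonneg _) _)
        _ = C * (Q.totalDegree : ℝ) ^ r := mul_one _
        _ ≤ C * n' ^ R := mul_le_mul_of_nonneg_left hpow hC.le
    have hhalf : |ev Q δ (δ ^ s)| ≤ 1 / 2 := by
      have hin : InX s p δ (δ ^ s) := by
        refine ⟨hδpos.le, hδle, le_rfl, ?_⟩
        have : 0 ≤ δ ^ p := Real.rpow_nonneg hδpos.le p
        linarith
      have := (hQ δ (δ ^ s) hin).2 le_rfl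
      rw [div_self hδpos.ne', mul_one] at this
      exact this
    have hmain := h s Q (C * n' ^ R) δ hs hδpos hδle hQ0 hhalf hG
    calc (1 : ℝ) / 2 ≤ (1 + s) * (C * n' ^ R) * δ := hmain
      _ = ((1 + s) * C * M' ^ R * δ₀) * (((N : ℝ) + 1) ^ R * ρ) ^ k := by
          rw [hn', hδ, mul_pow, mul_pow, ← pow_mul, ← pow_mul, Nat.mul_comm k R]
          ring
  have hq0 : 0 ≤ ((N : ℝ) + 1) ^ R * ρ := by positivity
  have ht : Tendsto (fun k : ℕ => ((1 + s) * C * M' ^ R * δ₀) * (((N : ℝ) + 1) ^ R * ρ) ^ k) atTop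
      (𝓝 (((1 + s) * C * M' ^ R * δ₀) * 0)) :=
    (tendsto_pow_atTop_nhds_zero_of_lt_one hq0 hNρ).const_mul _
  rw [mul_zero] at ht
  have := ge_of_tendsto' ht key
  norm_num at this

end Pool.Agent.Q177.MK
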