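import Mathlib

set_option autoImplicit false

namespace Q177.Navy

open Set Topology

/-! A combinatorial lemma on kernels of uncountable families of finite sets. -/

theorem exists_uncountable_fiber {W κ : Type*} [Countable κ] {I : Set W} (hI : ¬ I.Countable)
    (f : W → κ) : ∃ k, ¬ {ξ ∈ I | f ξ = k}.Countable := by
  by_contra hcon
  push Not at hcon
  refine hI ((countable_iUnion hcon).mono ?_)
  intro ξ hξ
  exact mem_iUnion.2 ⟨f ξ, hξ, rfl⟩

theorem kernel {W P : Type*} {I : Set W} (hI : ¬ I.Countable) (ρ : W → Finset P)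
    (γ : W → Set P) : ∃ I' ⊆ I, ¬ I'.Countable ∧ ∃ (r : Finset P) (c : Set P), ∀ ξ ∈ I',
      r ⊆ ρ ξ ∧ (∀ A ∈ r, (A ∈ γ ξ ↔ A ∈ c)) ∧ ∀ A, A ∉ r → {ξ ∈ I' | A ∈ ρ ξ}.Countable := by
  classical
  obtain ⟨m, hm⟩ := exists_uncountable_fiber hI (fun ξ => (ρ ξ).card)
  set I1 := {ξ ∈ I | (ρ ξ).card = m} with hI1
  -- a kernel of maximal size
  have hex : ∃ j, ∃ r : Finset P, r.card + j = m ∧ ¬ {ξ ∈ I1 | r ⊆ ρ ξ}.Countable := by
    refine ⟨m, ∅, by simp, ?_⟩
    simpa using hm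
  obtain ⟨r, hrm, hr⟩ := Nat.find_spec hex
  have hmax : ∀ A, A ∉ r → {ξ ∈ I1 | r ⊆ ρ ξ ∧ A ∈ ρ ξ}.Countable := by
    intro A hA
    by_contra hcon
    obtain ⟨ξ, hξ⟩ : {ξ ∈ I1 | r ⊆ ρ ξ ∧ A ∈ ρ ξ}.Nonempty := by
      by_contra h
      rw [not_nonempty_iff_eq_empty] at h
      exact hcon (h ▸ countable_empty)
    have hsub : insert A r ⊆ ρ ξ := Finset.insert_subset hξ.2.2 hξ.2.1
    have hcard : (insert A r).card ≤ m := by
      rw [← hξ.1.2]; exact Finset.card_le_card hsub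
    rw [Finset.card_insert_of_notMem hA] at hcard
    have hlt : m - (r.card + 1) < Nat.find hex := by omega
    refine Nat.find_min hex hlt ⟨insert A r, ?_, ?_⟩
    · rw [Finset.card_insert_of_notMem hA]; omega
    · intro h
      apply hcon
      refine h.mono ?_
      rintro η ⟨h1, h2, h3⟩
      exact ⟨h1, Finset.insert_subset h3 h2⟩
  obtain ⟨t, ht⟩ := exists_uncountable_fiber hr (fun ξ => (⟨r.filter (fun A => A ∈ γ ξ),
    Finset.mem_powerset.2 (Finset.filter_subset _ _)⟩ : {t // t ∈ r.powerset}))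
  refine ⟨_, ?_, ht, r, (t.1 : Set P), ?_⟩
  · rintro ξ ⟨⟨hξ, _⟩, _⟩
    exact hξ.1
  · rintro ξ ⟨⟨hξ1, hξr⟩, hξt⟩
    refine ⟨hξr, ?_, ?_⟩
    · intro A hA
      have h1 : r.filter (fun A => A ∈ γ ξ) = t.1 := congrArg Subtype.val hξt
      rw [← h1]
      simp [hA]
    · intro A hA
      refine (hmax A hA).mono ?_
      rintro η ⟨⟨⟨h1, h2⟩, _⟩, h3⟩
      exact ⟨h1, h2, h3⟩

section good

variable {W : Type} (P : Type) (kk : (ℕ → W) → ℕ) (rr : (ℕ → W) → Finset P)
  (val : ℕ → (ℕ → W) → Set P)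

/-- large subtrees with kernels -/
def Good : ℕ → ℕ → (ℕ → W) → Finset P → Set P → Prop
  | 0, l, u, r, c => ∃ x : ℕ → W, (∀ i < l, x i = u i) ∧ kk x ≤ l ∧ rr x = r ∧
      ∀ A ∈ r, (A ∈ val l x ↔ A ∈ c)
  | m + 1, l, u, r, c => ∃ I : Set W, ¬ I.Countable ∧ ∃ (ρ : W → Finset P) (γ : W → Set P),
      ∀ ξ ∈ I, Good m (l + 1) (Function.update u l ξ) (ρ ξ) (γ ξ) ∧ r ⊆ ρ ξ ∧
        (∀ A ∈ r, (A ∈ γ ξ ↔ A ∈ c)) ∧ ∀ A, A ∉ r → {ξ ∈ I | A ∈ ρ ξ}.Countable

variable {P kk rr val}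

theorem good_of_children [Uncountable W] {l : ℕ} {u : ℕ → W}
    (h : ∀ ξ : W, ∃ m r c, Good P kk rr val m (l + 1) (Function.update u l ξ) r c) :
    ∃ m r c, Good P kk rr val m l u r c := by
  choose m r c h using h
  obtain ⟨k, hk⟩ := exists_uncountable_fiber (I := (univ : Set W))
    (by rw [countable_univ_iff]; exact not_countable) m
  obtain ⟨I', hI', hunc, r0, c0, hker⟩ := kernel hk r c
  refine ⟨k + 1, r0, c0, I', hunc, r, c, fun ξ hξ => ⟨?_, hker ξ hξ⟩⟩
  have h1 : m ξ = k := (hI' hξ).2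
  rw [← h1]
  exact h ξ

theorem exists_good [Uncountable W] (l : ℕ) (u : ℕ → W) :
    ∃ m r c, Good P kk rr val m l u r c := by
  classical
  by_contra hcon
  -- bad nodes
  let Bad : ℕ × (ℕ → W) → Prop := fun p => ¬ ∃ m r c, Good P kk rr val m p.1 p.2 r c
  have hstep : ∀ p : {p // Bad p}, ∃ q : {p // Bad p}, q.1.1 = p.1.1 + 1 ∧
      ∀ i < p.1.1, q.1.2 i = p.1.2 i := by
    rintro ⟨⟨l, u⟩, hp⟩
    have h1 : ¬ ∀ ξ : W, ∃ m r c, Good P kk rr val m (l + 1) (Function.update u l ξ) r c :=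
      fun h => hp (good_of_children h)
    push Not at h1
    obtain ⟨ξ, hξ⟩ := h1
    refine ⟨⟨(l + 1, Function.update u l ξ), ?_⟩, rfl, ?_⟩
    · rintro ⟨m, r, c, h⟩
      exact hξ m r c h
    · intro i hi
      exact Function.update_of_ne (ne_of_lt hi) _ _
  choose nx hnx1 hnx2 using hstep
  let q : ℕ → {p // Bad p} := fun n => Nat.rec ⟨(l, u), hcon⟩ (fun _ p => nx p) n
  have hq : ∀ n, q (n + 1) = nx (q n) := fun n => rfl
  have hlen : ∀ n, (q n).1.1 = l + n := by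
    intro n
    induction n with
    | zero => rfl
    | succ n ih => rw [hq, hnx1, ih]; rfl
  have hag : ∀ n, ∀ i < l + n, (q (n + 1)).1.2 i = (q n).1.2 i := by
    intro n i hi
    rw [hq]
    exact hnx2 _ i (by rw [hlen]; exact hi)
  have hag2 : ∀ n j, ∀ i < l + n, (q (n + j)).1.2 i = (q n).1.2 i := by
    intro n j
    induction j with
    | zero => intro i _; rfl
    | succ j ih =>
      intro i hi
      rw [← Nat.add_assoc, hag (n + j) i (by omega)]
      exact ih i hi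
  let x : ℕ → W := fun i => (q (i + 1)).1.2 i
  have hx : ∀ n, ∀ i < l + n, x i = (q n).1.2 i := by
    intro n i hi
    show (q (i + 1)).1.2 i = (q n).1.2 i
    rcases le_total n (i + 1) with h | h
    · obtain ⟨j, hj⟩ := Nat.exists_eq_add_of_le h
      rw [hj]
      exact hag2 n j i hi
    · obtain ⟨j, hj⟩ := Nat.exists_eq_add_of_le h
      rw [hj]
      exact (hag2 (i + 1) j i (by omega)).symm
  apply (q (kk x)).2
  refine ⟨0, rr x, val (q (kk x)).1.1 x, x, ?_, ?_, rfl, fun A _ => Iff.rfl⟩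
  · intro i hi
    rw [hlen] at hi
    exact hx _ i hi
  · rw [hlen]
    exact Nat.le_add_left _ _

/-- interleaving two large subtrees -/
theorem interleave [LinearOrder W] (hW : ∀ i : W, (Set.Iic i).Countable) (m : ℕ) :
    ∀ (l : ℕ) (u v : ℕ → W) (r r' : Finset P) (c c' : Set P), 1 ≤ l →
      Good P kk rr val m l u r c → Good P kk rr val m l v r' c' →
      (∀ A ∈ r, A ∈ r' → (A ∈ c ↔ A ∈ c')) → (∀ i, i + 1 < l → u i < v (i + 1)) →
      (∀ i, i + 1 < l → v i < u (i + 1)) →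
      ∃ x y : ℕ → W, (∀ i < l, x i = u i) ∧ (∀ i < l, y i = v i) ∧ kk x ≤ l + m ∧
        kk y ≤ l + m ∧ (∀ i, i + 1 < l + m → x i < y (i + 1)) ∧
        (∀ i, i + 1 < l + m → y i < x (i + 1)) ∧
        ∀ A ∈ rr x, A ∈ rr y → (A ∈ val (l + m) x ↔ A ∈ val (l + m) y) := by
  induction m with
  | zero =>
    rintro l u v r r' c c' hl ⟨x, hxu, hkx, rfl, hcx⟩ ⟨y, hyv, hky, rfl, hcy⟩ hcc huv hvu
    refine ⟨x, y, hxu, hyv, hkx, hky, ?_, ?_, ?_⟩
    · intro i hi
      rw [hxu i (by omega), hyv (i + 1) (by omega)]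
      exact huv i hi
    · intro i hi
      rw [hyv i (by omega), hxu (i + 1) (by omega)]
      exact hvu i hi
    · intro A hA hA'
      show A ∈ val l x ↔ A ∈ val l y
      rw [hcx A hA, hcy A hA', hcc A hA hA']
  | succ m ih =>
    rintro l u v r r' c c' hl ⟨I, hI, ρ, γ, h1⟩ ⟨I', hI', ρ', γ', h2⟩ hcc huv hvu
    obtain ⟨ξ, hξI, hξv, hξr⟩ : ∃ ξ ∈ I, v (l - 1) < ξ ∧ ∀ A ∈ ρ ξ, A ∈ r' → A ∈ r := by
      by_contra hcon
      push Not at hcon
      apply hI
      obtain ⟨ξ0, hξ0⟩ : I.Nonempty := by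
        by_contra h
        rw [not_nonempty_iff_eq_empty] at h
        exact hI (h ▸ countable_empty)
      have hcnt : (Set.Iic (v (l - 1)) ∪ ⋃ A ∈ {A ∈ (r' : Set P) | A ∉ r},
          {ξ ∈ I | A ∈ ρ ξ}).Countable := by
        refine (hW _).union (Set.Countable.biUnion ?_ ?_)
        · exact (r'.countable_toSet).mono fun A hA => hA.1
        · intro A hA
          exact (h1 ξ0 hξ0).2.2.2 A hA.2
      refine hcnt.mono ?_
      intro ξ hξ
      by_cases hle : ξ ≤ v (l - 1)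
      · exact Or.inl hle
      · obtain ⟨A, hA, hAr', hAr⟩ := hcon ξ hξ (not_le.1 hle)
        exact Or.inr (mem_biUnion (show A ∈ {A ∈ (r' : Set P) | A ∉ r} from ⟨hAr', hAr⟩) ⟨hξ, hA⟩)
    obtain ⟨η, hηI, hηu, hηr⟩ : ∃ η ∈ I', u (l - 1) < η ∧ ∀ A ∈ ρ' η, A ∈ ρ ξ → A ∈ r' := by
      by_contra hcon
      push Not at hcon
      apply hI'
      obtain ⟨ξ0, hξ0⟩ : I'.Nonempty := by
        by_contra h
        rw [not_nonempty_iff_eq_empty] at h
        exact hI' (h ▸ countable_empty)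
      have hcnt : (Set.Iic (u (l - 1)) ∪ ⋃ A ∈ {A ∈ (ρ ξ : Set P) | A ∉ r'},
          {η ∈ I' | A ∈ ρ' η}).Countable := by
        refine (hW _).union (Set.Countable.biUnion ?_ ?_)
        · exact ((ρ ξ).countable_toSet).mono fun A hA => hA.1
        · intro A hA
          exact (h2 ξ0 hξ0).2.2.2 A hA.2
      refine hcnt.mono ?_
      intro η hη
      by_cases hle : η ≤ u (l - 1)
      · exact Or.inl hle
      · obtain ⟨A, hA, hAr', hAr⟩ := hcon η hη (not_le.1 hle)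
        exact Or.inr (mem_biUnion (show A ∈ {A ∈ (ρ ξ : Set P) | A ∉ r'} from ⟨hAr', hAr⟩) ⟨hη, hA⟩)
    obtain ⟨hg1, hr1, hc1, _⟩ := h1 ξ hξI
    obtain ⟨hg2, hr2, hc2, _⟩ := h2 η hηI
    obtain ⟨x, y, hx, hy, hkx, hky, hxy, hyx, hv⟩ := ih (l + 1) _ _ _ _ _ _ (by omega) hg1 hg2
      (by
        intro A hA hA'
        have hAr' : A ∈ r' := hηr A hA' hA
        have hAr : A ∈ r := hξr A hA hAr'
        rw [hc1 A hAr, hc2 A hAr', hcc A hAr hAr'])
      (by
        intro i hi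
        rcases Nat.lt_or_ge (i + 1) l with h | h
        · rw [Function.update_of_ne (by omega), Function.update_of_ne (by omega)]
          exact huv i h
        · have hil : i + 1 = l := by omega
          rw [Function.update_of_ne (by omega), hil, Function.update_self]
          have : i = l - 1 := by omega
          rw [this]
          exact hηu)
      (by
        intro i hi
        rcases Nat.lt_or_ge (i + 1) l with h | h
        · rw [Function.update_of_ne (by omega), Function.update_of_ne (by omega)]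
          exact hvu i h
        · have hil : i + 1 = l := by omega
          rw [Function.update_of_ne (by omega), hil, Function.update_self]
          have : i = l - 1 := by omega
          rw [this]
          exact hξv)
    have hlm : l + 1 + m = l + (m + 1) := by omega
    rw [hlm] at hkx hky hxy hyx hv
    refine ⟨x, y, ?_, ?_, hkx, hky, hxy, hyx, hv⟩
    · intro i hi
      rw [hx i (by omega), Function.update_of_ne (by omega)]
    · intro i hi
      rw [hy i (by omega), Function.update_of_ne (by omega)]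

/-- **Uncountable linking.** -/
theorem linking [LinearOrder W] [Uncountable W] (hW : ∀ i : W, (Set.Iic i).Countable)
    (hk : ∀ x, 1 ≤ kk x) :
    ∃ a : W, ¬ {b : W | b ≠ a ∧ ∃ (n : ℕ) (x y : ℕ → W), x 0 = a ∧ y 0 = b ∧ kk x ≤ n ∧
      kk y ≤ n ∧ (∀ i, i + 1 < n → x i < y (i + 1)) ∧ (∀ i, i + 1 < n → y i < x (i + 1)) ∧
      ∀ A ∈ rr x, A ∈ rr y → (A ∈ val n x ↔ A ∈ val n y)}.Countable := by
  classical
  obtain ⟨w0⟩ : Nonempty W := inferInstance
  obtain ⟨m, r, c, hg⟩ := exists_good (P := P) (kk := kk) (rr := rr) (val := val) 0 (fun _ => w0)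
  cases m with
  | zero =>
    obtain ⟨x, _, hkx, _⟩ := hg
    have := hk x
    omega
  | succ m =>
    obtain ⟨I, hI, ρ, γ, h1⟩ := hg
    obtain ⟨a, ha⟩ : I.Nonempty := by
      by_contra h
      rw [not_nonempty_iff_eq_empty] at h
      exact hI (h ▸ countable_empty)
    refine ⟨a, fun hcnt => hI ?_⟩
    have hcnt2 : ({a} ∪ (⋃ A ∈ {A ∈ (ρ a : Set P) | A ∉ r}, {ξ ∈ I | A ∈ ρ ξ}) ∪
      {b : W | b ≠ a ∧ ∃ (n : ℕ) (x y : ℕ → W), x 0 = a ∧ y 0 = b ∧ kk x ≤ n ∧
      kk y ≤ n ∧ (∀ i, i + 1 < n → x i < y (i + 1)) ∧ (∀ i, i + 1 < n → y i < x (i + 1)) ∧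
      ∀ A ∈ rr x, A ∈ rr y → (A ∈ val n x ↔ A ∈ val n y)}).Countable := by
      refine ((countable_singleton a).union (Set.Countable.biUnion ?_ ?_)).union hcnt
      · exact ((ρ a).countable_toSet).mono fun A hA => hA.1
      · intro A hA
        exact (h1 a ha).2.2.2 A hA.2
    refine hcnt2.mono ?_
    intro b hb
    by_cases hab : b = a
    · exact Or.inl (Or.inl hab)
    by_cases hA : ∀ A ∈ ρ a, A ∈ ρ b → A ∈ r
    · right
      refine ⟨hab, ?_⟩
      obtain ⟨hg1, hr1, hc1, _⟩ := h1 a ha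
      obtain ⟨hg2, hr2, hc2, _⟩ := h1 b hb
      obtain ⟨x, y, hx, hy, hkx, hky, hxy, hyx, hv⟩ := interleave hW m 1 _ _ _ _ _ _ le_rfl hg1 hg2
        (by
          intro A hA1 hA2
          have hAr := hA A hA1 hA2
          rw [hc1 A hAr, hc2 A hAr])
        (by intro i hi; omega) (by intro i hi; omega)
      refine ⟨1 + m, x, y, ?_, ?_, hkx, hky, hxy, hyx, hv⟩
      · rw [hx 0 (by omega)]
        simp
      · rw [hy 0 (by omega)]
        simp
    · push Not at hA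
      obtain ⟨A, hA1, hA2, hA3⟩ := hA
      exact Or.inl (Or.inr (mem_biUnion (show A ∈ {A ∈ (ρ a : Set P) | A ∉ r} from ⟨hA1, hA3⟩)
        ⟨hb, hA2⟩))

end good

end Q177.Navy
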