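import Mathlib

set_option autoImplicit false

universe u v

namespace Q177.ParaL

open Set Topology

/-- Every point has a neighbourhood meeting only countably many members. -/
def LocallyCountable {X : Type u} [TopologicalSpace X] (𝒱 : Set (Set X)) : Prop :=
  ∀ x : X, ∃ N ∈ 𝓝 x, {V ∈ 𝒱 | (V ∩ N).Nonempty}.Countable

/-- Every open cover has a locally countable open refinement. -/
def Paralindelof (X : Type u) [TopologicalSpace X] : Prop :=
  ∀ 𝒰 : Set (Set X), (∀ U ∈ 𝒰, IsOpen U) → ⋃₀ 𝒰 = univ →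
    ∃ 𝒱 : Set (Set X), (∀ V ∈ 𝒱, IsOpen V) ∧ ⋃₀ 𝒱 = univ ∧ (∀ V ∈ 𝒱, ∃ U ∈ 𝒰, V ⊆ U) ∧
      LocallyCountable 𝒱

variable {X : Type u} {Y : Type v} [TopologicalSpace X] [TopologicalSpace Y] {f : X → Y}

/-- a saturated neighbourhood of a Lindelöf fibre meeting only countably many members -/
theorem exists_tube (hc : IsClosedMap f) {𝒱 : Set (Set X)}
    (hV : LocallyCountable 𝒱) {y : Y} (hy : IsLindelof (f ⁻¹' {y})) :
    ∃ N : Set Y, IsOpen N ∧ y ∈ N ∧ {V ∈ 𝒱 | (V ∩ f ⁻¹' N).Nonempty}.Countable := by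
  choose O hO hOc using hV
  obtain ⟨t, htc, htU, ht⟩ := hy.elim_nhds_subcover (fun x => interior (O x))
    (fun x _ => interior_mem_nhds.2 (hO x))
  set W : Set X := ⋃ x ∈ t, interior (O x) with hW
  have hWo : IsOpen W := isOpen_biUnion fun x _ => isOpen_interior
  refine ⟨(f '' Wᶜ)ᶜ, (hc _ hWo.isClosed_compl).isOpen_compl, ?_, ?_⟩
  · rintro ⟨x, hx, hxy⟩
    exact hx (ht hxy)
  · refine (htc.biUnion fun x _ => hOc x).mono ?_
    rintro V ⟨hV, x, hxV, hx⟩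
    have hxW : x ∈ W := by
      by_contra h
      exact hx ⟨x, h, rfl⟩
    obtain ⟨z, hz, hxz⟩ := mem_iUnion₂.1 hxW
    exact mem_biUnion hz ⟨hV, x, hxV, interior_subset hxz⟩

theorem image_lindelof (hf : Continuous f) (hs : Function.Surjective f) (hc : IsClosedMap f)
    (hL : ∀ y, IsLindelof (f ⁻¹' {y})) (hX : Paralindelof X) : Paralindelof Y := by
  intro 𝒰 hU hcov
  -- first refinement
  obtain ⟨𝒱, hVo, hVc, hVr, hVl⟩ := hX ((fun U => f ⁻¹' U) '' 𝒰)
    (by rintro _ ⟨U, hU', rfl⟩; exact (hU U hU').preimage hf)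
    (by
      refine eq_univ_of_forall fun x => ?_
      have h : f x ∈ ⋃₀ 𝒰 := by rw [hcov]; trivial
      obtain ⟨U, hU', hx⟩ := h
      exact ⟨_, ⟨U, hU', rfl⟩, hx⟩)
  choose N hNo hNy hNc using fun y => exists_tube hc hVl (hL y)
  -- second refinement
  obtain ⟨𝒲, hWo, hWc, hWr, hWl⟩ := hX (range fun y => f ⁻¹' (N y))
    (by rintro _ ⟨y, rfl⟩; exact (hNo y).preimage hf)
    (eq_univ_of_forall fun x => ⟨_, ⟨f x, rfl⟩, hNy (f x)⟩)
  choose M hMo hMy hMc using fun y => exists_tube hc hWl (hL y)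
  have hVr' : ∀ V : 𝒱, ∃ U ∈ 𝒰, (V : Set X) ⊆ f ⁻¹' U := by
    rintro ⟨V, hV⟩
    obtain ⟨_, ⟨U, hU', rfl⟩, h⟩ := hVr V hV
    exact ⟨U, hU', h⟩
  choose u hu hVu using hVr'
  -- stars
  let st : Set X → Set X := fun V => ⋃₀ {W ∈ 𝒲 | (W ∩ f ⁻¹' (f '' V)).Nonempty}
  have hsto : ∀ V, IsOpen (st V) := fun V => isOpen_sUnion fun W hW => hWo W hW.1
  let G : 𝒱 → Set Y := fun V => (f '' (st V)ᶜ)ᶜ ∩ u V
  have hG : ∀ V : 𝒱, ∀ y ∈ G V, f ⁻¹' {y} ⊆ st V := by
    rintro V y ⟨hy, _⟩ x hx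
    by_contra h
    exact hy ⟨x, h, hx⟩
  refine ⟨range G, ?_, ?_, ?_, ?_⟩
  · rintro _ ⟨V, rfl⟩
    exact ((hc _ (hsto V).isClosed_compl).isOpen_compl).inter (hU _ (hu V))
  · refine eq_univ_of_forall fun y => ?_
    obtain ⟨x, rfl⟩ := hs y
    have h : x ∈ ⋃₀ 𝒱 := by rw [hVc]; trivial
    obtain ⟨V, hV, hxV⟩ := h
    refine ⟨G ⟨V, hV⟩, ⟨_, rfl⟩, ?_, hVu ⟨V, hV⟩ hxV⟩
    rintro ⟨z, hz, hzx⟩
    apply hz
    have h2 : z ∈ ⋃₀ 𝒲 := by rw [hWc]; trivial
    obtain ⟨W, hW, hzW⟩ := h2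
    exact ⟨W, ⟨hW, z, hzW, x, hxV, hzx.symm⟩, hzW⟩
  · rintro _ ⟨V, rfl⟩
    exact ⟨u V, hu V, inter_subset_right⟩
  · intro y
    refine ⟨M y, (hMo y).mem_nhds (hMy y), ?_⟩
    -- the members of `𝒱` met through a member of `𝒲`
    have hcnt : (⋃ W ∈ {W ∈ 𝒲 | (W ∩ f ⁻¹' (M y)).Nonempty},
        {V ∈ 𝒱 | (W ∩ f ⁻¹' (f '' V)).Nonempty}).Countable := by
      refine (hMc y).biUnion fun W hW => ?_
      obtain ⟨_, ⟨z, rfl⟩, hWz⟩ := hWr W hW.1
      refine (hNc z).mono ?_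
      rintro V ⟨hV, w, hwW, v, hvV, hvw⟩
      refine ⟨hV, v, hvV, ?_⟩
      show f v ∈ N z
      rw [hvw]
      exact hWz hwW
    refine (hcnt.preimage (f := fun V : 𝒱 => (V : Set X)) Subtype.val_injective).image G |>.mono ?_
    rintro _ ⟨⟨V, rfl⟩, z, hzG, hzM⟩
    refine ⟨V, ?_, rfl⟩
    obtain ⟨x, rfl⟩ := hs z
    obtain ⟨W, ⟨hW, hWV⟩, hxW⟩ := hG V _ hzG (rfl : x ∈ f ⁻¹' {f x})
    exact mem_iUnion₂.2 ⟨W, ⟨hW, x, hxW, hzM⟩, V.2, hWV⟩

/-- closed subspaces -/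
theorem closed_subspace (hX : Paralindelof X) {A : Set X} (hA : IsClosed A) : Paralindelof A := by
  intro 𝒰 hU hcov
  have h1 : ∀ U : 𝒰, ∃ O : Set X, IsOpen O ∧ Subtype.val ⁻¹' O = (U : Set A) := fun U =>
    isOpen_induced_iff.1 (hU U.1 U.2)
  choose O hO hOU using h1
  obtain ⟨𝒱, hVo, hVc, hVr, hVl⟩ := hX (insert Aᶜ (range O))
    (by
      rintro _ (rfl | ⟨U, rfl⟩)
      · exact hA.isOpen_compl
      · exact hO U)
    (by
      refine eq_univ_of_forall fun x => ?_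
      by_cases hx : x ∈ A
      · have h : (⟨x, hx⟩ : A) ∈ ⋃₀ 𝒰 := by rw [hcov]; trivial
        obtain ⟨U, hU', hxU⟩ := h
        refine ⟨O ⟨U, hU'⟩, Or.inr ⟨_, rfl⟩, ?_⟩
        have : (⟨x, hx⟩ : A) ∈ Subtype.val ⁻¹' O ⟨U, hU'⟩ := by rw [hOU]; exact hxU
        exact this
      · exact ⟨Aᶜ, Or.inl rfl, hx⟩)
  refine ⟨(fun V : Set X => (Subtype.val ⁻¹' V : Set A)) '' {V ∈ 𝒱 | (V ∩ A).Nonempty}, ?_, ?_,
    ?_, ?_⟩
  · rintro _ ⟨V, hV, rfl⟩
    exact (hVo V hV.1).preimage continuous_subtype_val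
  · refine eq_univ_of_forall fun x => ?_
    have h : x.1 ∈ ⋃₀ 𝒱 := by rw [hVc]; trivial
    obtain ⟨V, hV, hxV⟩ := h
    exact ⟨_, ⟨V, ⟨hV, x.1, hxV, x.2⟩, rfl⟩, hxV⟩
  · rintro _ ⟨V, ⟨hV, z, hzV, hzA⟩, rfl⟩
    obtain ⟨U, hU', hVU⟩ := hVr V hV
    rcases hU' with rfl | ⟨U, rfl⟩
    · exact absurd hzA (hVU hzV)
    · refine ⟨U, U.2, ?_⟩
      rw [← hOU]
      exact preimage_mono hVU
  · intro x
    obtain ⟨N, hN, hNc⟩ := hVl x.1
    refine ⟨Subtype.val ⁻¹' N, continuous_subtype_val.continuousAt.preimage_mem_nhds hN, ?_⟩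
    refine (hNc.image fun V : Set X => (Subtype.val ⁻¹' V : Set A)).mono ?_
    rintro _ ⟨⟨V, ⟨hV, _⟩, rfl⟩, z, hzV, hzN⟩
    exact ⟨V, ⟨hV, z.1, hzV, hzN⟩, rfl⟩

/-- closed mappings of `T1` spaces all of whose fibres have Lindelöf boundaries -/
theorem image_frontier [T1Space X] (hf : Continuous f) (hs : Function.Surjective f)
    (hc : IsClosedMap f) (hL : ∀ y, IsLindelof (frontier (f ⁻¹' {y}))) (hX : Paralindelof X) :
    Paralindelof Y := by
  classical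
  choose p hp using hs
  have hcl : ∀ y, IsClosed (f ⁻¹' {y}) := by
    intro y
    have : IsClosed ({y} : Set Y) := by
      have h := hc {p y} isClosed_singleton
      rwa [image_singleton, hp] at h
    exact this.preimage hf
  set A : Set X := {x | x ∈ frontier (f ⁻¹' {f x}) ∨
    (frontier (f ⁻¹' {f x}) = ∅ ∧ x = p (f x))} with hAdef
  have hA : IsClosed A := by
    rw [← isOpen_compl_iff, isOpen_iff_forall_mem_open]
    intro x hx
    rw [mem_compl_iff, hAdef, mem_ofPred_eq, not_or] at hx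
    obtain ⟨h1, h2⟩ := hx
    have hxint : x ∈ interior (f ⁻¹' {f x}) := by
      by_contra h
      exact h1 ⟨subset_closure rfl, h⟩
    by_cases hfr : frontier (f ⁻¹' {f x}) = ∅
    · refine ⟨interior (f ⁻¹' {f x}) \ {p (f x)}, ?_,
        isOpen_interior.sdiff isClosed_singleton, hxint, fun h => h2 ⟨hfr, h⟩⟩
      rintro z ⟨hz, hzp⟩ hzA
      have hz' : z ∈ f ⁻¹' {f x} := interior_subset hz
      have hzx : f z = f x := hz'
      rcases hzA with h | h
      · rw [hzx] at h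
        exact h.2 hz
      · apply hzp
        rw [mem_singleton_iff, h.2, hzx]
    · refine ⟨interior (f ⁻¹' {f x}), ?_, isOpen_interior, hxint⟩
      intro z hz hzA
      have hz' : z ∈ f ⁻¹' {f x} := interior_subset hz
      have hzx : f z = f x := hz'
      rcases hzA with h | h
      · rw [hzx] at h
        exact h.2 hz
      · rw [hzx] at h
        exact hfr h.1
  have hXA : Paralindelof A := closed_subspace hX hA
  refine image_lindelof (f := fun x : A => f x) (hf.comp continuous_subtype_val) ?_ ?_ ?_ hXA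
  · intro y
    by_cases hfr : frontier (f ⁻¹' {y}) = ∅
    · refine ⟨⟨p y, Or.inr ⟨?_, ?_⟩⟩, hp y⟩
      · rw [hp]; exact hfr
      · rw [hp]
    · obtain ⟨x, hx⟩ := nonempty_iff_ne_empty.2 hfr
      have hxy : f x = y := (hcl y).frontier_subset hx
      refine ⟨⟨x, Or.inl ?_⟩, hxy⟩
      rw [hxy]; exact hx
  · exact hc.comp hA.isClosedMap_subtype_val
  · intro y
    rw [Topology.IsInducing.subtypeVal.isLindelof_iff]
    by_cases hfr : frontier (f ⁻¹' {y}) = ∅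
    · have : Subtype.val '' ((fun x : A => f x) ⁻¹' {y}) ⊆ {p y} := by
        rintro _ ⟨z, hz, rfl⟩
        have hzy : f z = y := hz
        rcases z.2 with h | h
        · rw [hzy, hfr] at h
          exact absurd h (notMem_empty _)
        · rw [mem_singleton_iff, h.2, hzy]
      exact ((finite_singleton _).subset this).isLindelof
    · have : Subtype.val '' ((fun x : A => f x) ⁻¹' {y}) = frontier (f ⁻¹' {y}) := by
        ext x
        constructor
        · rintro ⟨z, hz, rfl⟩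
          have hzy : f z = y := hz
          rcases z.2 with h | h
          · rw [hzy] at h
            exact h
          · rw [hzy] at h
            exact absurd h.1 hfr
        · intro hx
          have hxy : f x = y := (hcl y).frontier_subset hx
          exact ⟨⟨x, Or.inl (by rw [hxy]; exact hx)⟩, hxy, rfl⟩
      rw [this]
      exact hL y

end Q177.ParaL
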