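import Pool.Agent.Q177.NavyA
import Pool.Agent.Q177.ParaL

set_option autoImplicit false

namespace Q177.Navy

open Set Topology
open Q177.ParaL (LocallyCountable Paralindelof)

variable {W : Type} [LinearOrder W]

/-- codes of sets -/
abbrev Code (W : Type) : Type := Set (ℕ × (ℕ → W))

/-- the isolated points -/
structure Ed (W : Type) [LinearOrder W] where
  n : ℕ
  x : ℕ → W
  y : ℕ → W
  g : Set (Code W)
  ne : x 0 ≠ y 0
  xy : ∀ i, i + 1 < n → x i < y (i + 1)
  yx : ∀ i, i + 1 < n → y i < x (i + 1)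

/-- the domain -/
inductive XX (W : Type) [LinearOrder W] : Type
  | br (z : ℕ → W) : XX W
  | ed (d : Ed W) : XX W

/-- `e` is linked to the cone of `z` at level `k` through `x` -/
def Lk (k : ℕ) (r : Finset (Code W)) (z : ℕ → W) (n : ℕ) (x : ℕ → W) (g : Set (Code W)) : Prop :=
  k ≤ n ∧ (∀ i < k, x i = z i) ∧ ∀ A ∈ r, (A ∈ g ↔ (n, x) ∈ A)

/-- basic neighbourhoods -/
def Nb (k : ℕ) (r : Finset (Code W)) (z : ℕ → W) : Set (XX W) :=
  {p | match p with
    | XX.br z' => ∀ i < k, z' i = z i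
    | XX.ed d => Lk k r z d.n d.x d.g ∨ Lk k r z d.n d.y d.g}

theorem inl_mem {k : ℕ} {r : Finset (Code W)} {z z' : ℕ → W} :
    XX.br z' ∈ Nb k r z ↔ ∀ i < k, z' i = z i := Iff.rfl

theorem inr_mem {k : ℕ} {r : Finset (Code W)} {z : ℕ → W} {d : Ed W} :
    XX.ed d ∈ Nb k r z ↔ Lk k r z d.n d.x d.g ∨ Lk k r z d.n d.y d.g := Iff.rfl

omit [LinearOrder W] in
theorem Lk.mono {k k' : ℕ} {r r' : Finset (Code W)} {z : ℕ → W} {n : ℕ} {x : ℕ → W}
    {g : Set (Code W)} (hk : k ≤ k') (hr : r ⊆ r') (h : Lk k' r' z n x g) : Lk k r z n x g :=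
  ⟨hk.trans h.1, fun i hi => h.2.1 i (lt_of_lt_of_le hi hk), fun A hA => h.2.2 A (hr hA)⟩

theorem Nb_mono {k k' : ℕ} {r r' : Finset (Code W)} {z : ℕ → W} (hk : k ≤ k') (hr : r ⊆ r') :
    Nb k' r' z ⊆ Nb k r z := by
  rintro (z' | d) h
  · exact fun i hi => h i (lt_of_lt_of_le hi hk)
  · rcases h with h | h
    · exact Or.inl (h.mono hk hr)
    · exact Or.inr (h.mono hk hr)

omit [LinearOrder W] in
theorem Lk.congr {k : ℕ} {r : Finset (Code W)} {z z' : ℕ → W} {n : ℕ} {x : ℕ → W}
    {g : Set (Code W)} (h : ∀ i < k, z i = z' i) (hl : Lk k r z n x g) : Lk k r z' n x g :=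
  ⟨hl.1, fun i hi => (hl.2.1 i hi).trans (h i hi), hl.2.2⟩

theorem Nb_congr' {k : ℕ} {r : Finset (Code W)} {z z' : ℕ → W} (h : ∀ i < k, z i = z' i) :
    Nb k r z ⊆ Nb k r z' := by
  rintro (w | d) hw
  · exact fun i hi => (hw i hi).trans (h i hi)
  · rcases hw with hw | hw
    · exact Or.inl (hw.congr h)
    · exact Or.inr (hw.congr h)

theorem Nb_congr {k : ℕ} {r : Finset (Code W)} {z z' : ℕ → W} (h : ∀ i < k, z i = z' i) :
    Nb k r z = Nb k r z' :=
  Subset.antisymm (Nb_congr' h) (Nb_congr' fun i hi => (h i hi).symm)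

theorem self_mem (k : ℕ) (r : Finset (Code W)) (z : ℕ → W) : XX.br z ∈ Nb k r z :=
  fun _ _ => rfl

open Classical in
instance : TopologicalSpace (XX W) where
  IsOpen U := ∀ z : ℕ → W, XX.br z ∈ U → ∃ k r, Nb k r z ⊆ U
  isOpen_univ := fun z _ => ⟨0, ∅, subset_univ _⟩
  isOpen_inter := by
    intro U V hU hV z hz
    obtain ⟨k, r, h⟩ := hU z hz.1
    obtain ⟨k', r', h'⟩ := hV z hz.2
    exact ⟨max k k', r ∪ r', subset_inter
      ((Nb_mono (le_max_left _ _) Finset.subset_union_left).trans h)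
      ((Nb_mono (le_max_right _ _) Finset.subset_union_right).trans h')⟩
  isOpen_sUnion := by
    rintro 𝒰 h𝒰 z ⟨U, hU, hz⟩
    obtain ⟨k, r, h⟩ := h𝒰 U hU z hz
    exact ⟨k, r, h.trans (subset_sUnion_of_mem hU)⟩

theorem isOpen_iff {U : Set (XX W)} :
    IsOpen U ↔ ∀ z : ℕ → W, XX.br z ∈ U → ∃ k r, Nb k r z ⊆ U := Iff.rfl

theorem Nb_open (k : ℕ) (r : Finset (Code W)) (z : ℕ → W) : IsOpen (Nb k r z) := by
  rw [isOpen_iff]
  intro z' hz'
  refine ⟨k, r, ?_⟩
  rw [Nb_congr (z := z') (z' := z) hz']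

theorem inr_open (d : Ed W) : IsOpen ({XX.ed d} : Set (XX W)) := by
  rw [isOpen_iff]
  intro z hz
  cases mem_singleton_iff.1 hz

theorem open_of_inr {U : Set (XX W)} (h : ∀ z : ℕ → W, XX.br z ∉ U) : IsOpen U := by
  rw [isOpen_iff]
  intro z hz
  exact absurd hz (h z)

/-- the code of the cone of `z` -/
def cone (k : ℕ) (z : ℕ → W) : Code W := {p | ∀ i < k, p.2 i = z i}

theorem disj {k k' : ℕ} {r r' : Finset (Code W)} {z z' : ℕ → W} {A : Code W} (hA : A ∈ r)
    (hA' : A ∈ r') (h1 : ∀ n x, k ≤ n → (∀ i < k, x i = z i) → (n, x) ∈ A)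
    (h2 : ∀ n x, k' ≤ n → (∀ i < k', x i = z' i) → (n, x) ∉ A) :
    Disjoint (Nb k r z) (Nb k' r' z') := by
  rw [Set.disjoint_left]
  have key : ∀ (n : ℕ) (x y : ℕ → W) (g : Set (Code W)), Lk k r z n x g → Lk k' r' z' n y g →
      False := by
    intro n x y g hx hy
    have e1 := (hx.2.2 A hA).2 (h1 n x hx.1 hx.2.1)
    exact h2 n y hy.1 hy.2.1 ((hy.2.2 A hA').1 e1)
  rintro (w | d) hw hw'
  · exact h2 (max k k') w (le_max_right _ _) hw' (h1 (max k k') w (le_max_left _ _) hw)
  · rcases hw with hw | hw <;> rcases hw' with hw' | hw'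
    · exact key _ _ _ _ hw hw'
    · exact key _ _ _ _ hw hw'
    · exact key _ _ _ _ hw hw'
    · exact key _ _ _ _ hw hw'

open Classical in
/-- neighbourhoods with the code of the cone are clopen -/
theorem Nb_clopen {k : ℕ} {r : Finset (Code W)} {z : ℕ → W} (h : cone k z ∈ r) :
    IsClosed (Nb k r z) := by
  rw [← isOpen_compl_iff, isOpen_iff]
  intro z' hz'
  have hz2 : ¬ ∀ i < k, z' i = z i := hz'
  refine ⟨k, {cone k z}, ?_⟩
  have := disj (k := k) (k' := k) (r := r) (r' := {cone k z}) (z := z) (z' := z') h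
    (Finset.mem_singleton_self _) (fun n x _ hx => hx) (fun n x _ hx hxA => hz2 fun i hi =>
      (hx i hi).symm.trans (hxA i hi))
  exact fun p hp hp' => Set.disjoint_left.1 this hp' hp

open Classical in
theorem X_basis (p : XX W) (U : Set (XX W)) (hU : IsOpen U) (hp : p ∈ U) :
    ∃ V : Set (XX W), IsClopen V ∧ p ∈ V ∧ V ⊆ U := by
  cases p with
  | br z =>
    obtain ⟨k, r, h⟩ := isOpen_iff.1 hU z hp
    refine ⟨Nb k (insert (cone k z) r) z, ⟨Nb_clopen (Finset.mem_insert_self _ _), Nb_open _ _ _⟩,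
      self_mem _ _ _, ?_⟩
    exact (Nb_mono le_rfl (Finset.subset_insert _ _)).trans h
  | ed d =>
    refine ⟨{XX.ed d}, ⟨?_, inr_open d⟩, rfl, singleton_subset_iff.2 hp⟩
    rw [← isOpen_compl_iff, isOpen_iff]
    intro z _
    refine ⟨d.n + 1, ∅, ?_⟩
    rintro p hp' rfl
    rcases hp' with h | h
    · have := h.1; omega
    · have := h.1; omega

theorem X_t1 : T1Space (XX W) := by
  refine ⟨fun p => ?_⟩
  rw [← isOpen_compl_iff, isOpen_iff]
  intro z hz
  cases p with
  | ed d =>
    refine ⟨d.n + 1, ∅, ?_⟩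
    rintro p hp' rfl
    rcases hp' with h | h
    · have := h.1; omega
    · have := h.1; omega
  | br z' =>
    have hne : z ≠ z' := fun h => hz (by rw [h]; rfl)
    obtain ⟨i, hi⟩ := Function.ne_iff.1 hne
    refine ⟨i + 1, ∅, ?_⟩
    rintro p hp' rfl
    exact hi (hp' i (Nat.lt_succ_self i)).symm

theorem t3_of_basis {Z : Type} [TopologicalSpace Z] (h1 : T1Space Z)
    (h : ∀ (p : Z) (U : Set Z), IsOpen U → p ∈ U → ∃ V : Set Z, IsClopen V ∧ p ∈ V ∧ V ⊆ U) :
    T3Space Z := by
  have : RegularSpace Z := by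
    refine RegularSpace.of_exists_mem_nhds_isClosed_subset ?_
    intro p s hs
    obtain ⟨U, hUs, hU, hpU⟩ := mem_nhds_iff.1 hs
    obtain ⟨V, hV, hpV, hVU⟩ := h p U hU hpU
    exact ⟨V, hV.2.mem_nhds hpV, hV.1, hVU.trans hUs⟩
  exact ⟨⟩

theorem X_t3 : T3Space (XX W) := t3_of_basis X_t1 X_basis

/-! ### Paralindelöfness -/

section para

variable (hW : ∀ i : W, (Set.Iic i).Countable)

/-- truncation -/
def trunc (w0 : W) (k : ℕ) (z : ℕ → W) : ℕ → W := fun i => if i < k then z i else w0

omit [LinearOrder W] in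
theorem trunc_lt {w0 : W} {k : ℕ} {z : ℕ → W} {i : ℕ} (hi : i < k) : trunc w0 k z i = z i := by
  simp [trunc, hi]

omit [LinearOrder W] in
theorem trunc_congr {w0 : W} {k : ℕ} {z z' : ℕ → W} (h : ∀ i < k, z i = z' i) :
    trunc w0 k z = trunc w0 k z' := by
  funext i
  by_cases hi : i < k
  · simp [trunc, hi, h i hi]
  · simp [trunc, hi]

include hW in
open Classical in
theorem X_para [Nonempty W] : Paralindelof (XX W) := by
  intro 𝒰 hU hcov
  let w0 : W := Classical.arbitrary W
  have hex : ∀ z : ℕ → W, ∃ k, ∃ r, ∃ U ∈ 𝒰, Nb k r z ⊆ U := by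
    intro z
    have h : XX.br z ∈ ⋃₀ 𝒰 := by rw [hcov]; trivial
    obtain ⟨U, hU', hzU⟩ := h
    obtain ⟨k, r, hkr⟩ := isOpen_iff.1 (hU U hU') z hzU
    exact ⟨k, r, U, hU', hkr⟩
  let dp : (ℕ → W) → ℕ := fun z => Nat.find (hex z)
  have hdp : ∀ z, ∃ r, ∃ U ∈ 𝒰, Nb (dp z) r z ⊆ U := fun z => Nat.find_spec (hex z)
  choose r U hU' hNb using hdp
  have hdmin : ∀ z k r, (∃ U ∈ 𝒰, Nb k r z ⊆ U) → dp z ≤ k := fun z k r h =>
    Nat.find_min' (hex z) ⟨r, h⟩
  have hdp_congr : ∀ z z' : ℕ → W, (∀ i < dp z, z i = z' i) → dp z' = dp z := by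
    intro z z' h
    have h1 : dp z' ≤ dp z := hdmin z' (dp z) (r z) ⟨U z, hU' z, by
      rw [← Nb_congr h]; exact hNb z⟩
    apply le_antisymm h1
    refine hdmin z (dp z') (r z') ⟨U z', hU' z', ?_⟩
    rw [Nb_congr fun i hi => h i (lt_of_lt_of_le hi h1)]
    exact hNb z'
  -- the codes of the depth sets
  let AA : ℕ → Code W := fun j => {p | dp p.2 = j ∧ j ≤ p.1}
  let R : (ℕ → W) → Finset (Code W) := fun z => r z ∪ (Finset.range (dp z + 1)).image AA
  let st : (ℕ → W) → (ℕ → W) := fun z => trunc w0 (dp z) z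
  have hst : ∀ z, ∀ i < dp z, st z i = z i := fun z i hi => trunc_lt hi
  have hdst : ∀ z, dp (st z) = dp z := fun z => hdp_congr z _ fun i hi => (hst z i hi).symm
  have hst_congr : ∀ z z' : ℕ → W, dp z = dp z' → (∀ i < dp z, z i = z' i) → st z = st z' := by
    intro z z' h1 h2
    show trunc w0 (dp z) z = trunc w0 (dp z') z'
    rw [← h1]
    exact trunc_congr h2
  let V : (ℕ → W) → Set (XX W) := fun z => Nb (dp z) (R (st z)) z
  have hVst : ∀ z, V (st z) = V z := by
    intro z
    show Nb (dp (st z)) (R (st (st z))) (st z) = Nb (dp z) (R (st z)) z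
    have h1 : st (st z) = st z := hst_congr _ _ (hdst z) fun i hi => by
      rw [hdst] at hi
      exact hst z i hi
    rw [h1, hdst]
    exact Nb_congr (hst z)
  have hVU : ∀ z, V z ⊆ U (st z) := by
    intro z
    have h1 : V z ⊆ Nb (dp z) (r (st z)) z := Nb_mono le_rfl Finset.subset_union_left
    refine h1.trans ?_
    rw [Nb_congr fun i hi => (hst z i hi).symm, ← hdst z]
    exact hNb (st z)
  refine ⟨range V ∪ {S | ∃ d : Ed W, (∀ z, XX.ed d ∉ V z) ∧ S = {XX.ed d}},
    ?_, ?_, ?_, ?_⟩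
  · rintro S (⟨z, rfl⟩ | ⟨d, _, rfl⟩)
    · exact Nb_open _ _ _
    · exact inr_open d
  · refine eq_univ_of_forall fun p => ?_
    cases p with
    | br z => exact ⟨V z, Or.inl ⟨z, rfl⟩, self_mem _ _ _⟩
    | ed d =>
      by_cases h : ∀ z, XX.ed d ∉ V z
      · exact ⟨{XX.ed d}, Or.inr ⟨d, h, rfl⟩, rfl⟩
      · push Not at h
        obtain ⟨z, hz⟩ := h
        exact ⟨V z, Or.inl ⟨z, rfl⟩, hz⟩
  · rintro S (⟨z, rfl⟩ | ⟨d, _, rfl⟩)
    · exact ⟨U (st z), hU' _, hVU z⟩
    · have h : XX.ed d ∈ ⋃₀ 𝒰 := by rw [hcov]; trivial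
      obtain ⟨O, hO, hdO⟩ := h
      exact ⟨O, hO, singleton_subset_iff.2 hdO⟩
  · -- local countability
    -- linked members
    have hlink : ∀ (z w x y : ℕ → W) (n : ℕ) (g : Set (Code W)),
        Lk (dp z) (R (st z)) z n x g →
        Lk (dp w + 1) (R (st w)) w n y g → dp z = dp w := by
      intro z w x y n g h1 h2
      have hdx : dp x = dp z := hdp_congr z x fun i hi => (h1.2.1 i hi).symm
      have hdy : dp y = dp w := hdp_congr w y fun i hi => (h2.2.1 i (by omega)).symm
      rcases lt_trichotomy (dp z) (dp w) with h | h | h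
      · exfalso
        have e1 : AA (dp z) ∈ R (st z) := Finset.mem_union_right _ (Finset.mem_image.2
          ⟨dp z, by rw [Finset.mem_range, hdst]; omega, rfl⟩)
        have e2 : AA (dp z) ∈ R (st w) := Finset.mem_union_right _ (Finset.mem_image.2
          ⟨dp z, by rw [Finset.mem_range, hdst]; omega, rfl⟩)
        have e3 : AA (dp z) ∈ g := (h1.2.2 _ e1).2 ⟨hdx, h1.1⟩
        have e4 := ((h2.2.2 _ e2).1 e3).1
        have e5 : dp y = dp z := e4
        omega
      · exact h
      · exfalso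
        have e1 : AA (dp w) ∈ R (st z) := Finset.mem_union_right _ (Finset.mem_image.2
          ⟨dp w, by rw [Finset.mem_range, hdst]; omega, rfl⟩)
        have e2 : AA (dp w) ∈ R (st w) := Finset.mem_union_right _ (Finset.mem_image.2
          ⟨dp w, by rw [Finset.mem_range, hdst]; omega, rfl⟩)
        have e3 : AA (dp w) ∈ g := (h2.2.2 _ e2).2 ⟨hdy, by have := h2.1; show dp w ≤ n; omega⟩
        have e4 := ((h1.2.2 _ e1).1 e3).1
        have e5 : dp x = dp w := e4
        omega
    intro p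
    cases p with
    | ed d =>
      refine ⟨{XX.ed d}, (inr_open d).mem_nhds rfl, ?_⟩
      have : {S ∈ range V ∪ {S | ∃ d : Ed W, (∀ z, XX.ed d ∉ V z) ∧ S = {XX.ed d}} |
          (S ∩ {XX.ed d}).Nonempty} ⊆ {V d.x, V d.y, {XX.ed d}} := by
        rintro S ⟨⟨z, rfl⟩ | ⟨d', _, rfl⟩, q, hq, hqd⟩
        · rw [mem_singleton_iff] at hqd
          subst hqd
          have key : ∀ x : ℕ → W, Lk (dp z) (R (st z)) z d.n x d.g → V z = V x := by
            intro x hx
            have hdx : dp x = dp z := hdp_congr z x fun i hi => (hx.2.1 i hi).symm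
            have : st z = st x := hst_congr z x hdx.symm fun i hi => (hx.2.1 i hi).symm
            rw [← hVst z, ← hVst x, this]
          rcases hq with hq | hq
          · exact Or.inl (key _ hq)
          · exact Or.inr (Or.inl (key _ hq))
        · rw [mem_singleton_iff] at hq hqd
          rw [← hq, hqd]
          simp
      exact (Set.toFinite _).countable.mono this
    | br w =>
      refine ⟨Nb (dp w + 1) (R (st w)) w, (Nb_open _ _ _).mem_nhds (self_mem _ _ _), ?_⟩
      have hNV : Nb (dp w + 1) (R (st w)) w ⊆ V w := Nb_mono (Nat.le_succ _) subset_rfl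
      -- the bounded sequences
      let K : Set (ℕ → W) := {u | ∀ i, (i < dp w → u i < w (i + 1)) ∧ (¬ i < dp w → u i = w0)}
      have hK : K.Countable := by
        have h1 : ∀ k : ℕ, {u : ℕ → W | ∀ i, (i < k → u i < w (i + 1)) ∧
            (¬ i < k → u i = w0)}.Countable := by
          intro k
          induction k with
          | zero =>
            refine (countable_singleton (fun _ => w0)).mono ?_
            intro u hu
            rw [mem_singleton_iff]
            funext i
            exact (hu i).2 (Nat.not_lt_zero i)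
          | succ k ih =>
            refine ((ih.prod (hW (w (k + 1)))).image
              (fun p : (ℕ → W) × W => Function.update p.1 k p.2)).mono ?_
            intro u hu
            refine ⟨(Function.update u k w0, u k), ⟨?_, ((hu k).1 (Nat.lt_succ_self k)).le⟩, ?_⟩
            · intro i
              refine ⟨fun hi => ?_, fun hi => ?_⟩
              · simp only
                rw [Function.update_of_ne (ne_of_lt hi)]
                exact (hu i).1 (by omega)
              · simp only
                by_cases hik : i = k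
                · rw [hik, Function.update_self]
                · rw [Function.update_of_ne hik]
                  exact (hu i).2 (by omega)
            · simp
        exact h1 (dp w)
      refine ((hK.image V).insert (V w)).mono ?_
      rintro S ⟨⟨z, rfl⟩ | ⟨d, hd, rfl⟩, q, hq, hqw⟩
      · have same : ∀ x : ℕ → W, (∀ i < dp z, x i = z i) → (∀ i < dp w + 1, x i = w i) →
            V z = V w := by
          intro x h1 h2
          have e1 : dp x = dp z := hdp_congr z x fun i hi => (h1 i hi).symm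
          have e2 : dp x = dp w := hdp_congr w x fun i hi => (h2 i (by omega)).symm
          have : st z = st w := hst_congr z w (e1.symm.trans e2) fun i hi => by
            rw [← h1 i hi, h2 i (by omega)]
          rw [← hVst z, ← hVst w, this]
        have diff : ∀ (x y : ℕ → W) (n : ℕ) (g : Set (Code W)),
            (∀ i, i + 1 < n → x i < y (i + 1)) →
            Lk (dp z) (R (st z)) z n x g →
            Lk (dp w + 1) (R (st w)) w n y g → V z ∈ V '' K := by
          intro x y n g hxy h1 h2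
          have hzw := hlink z w x y n g h1 h2
          refine ⟨st z, ?_, hVst z⟩
          intro i
          refine ⟨fun hi => ?_, fun hi => ?_⟩
          · rw [hst z i (by omega), ← h1.2.1 i (by omega), ← h2.2.1 (i + 1) (by omega)]
            exact hxy i (by have := h2.1; omega)
          · show trunc w0 (dp z) z i = w0
            unfold trunc
            rw [if_neg (by omega)]
        cases q with
        | br x => exact Or.inl (same x hq hqw)
        | ed d =>
          rcases hq with hq | hq <;> rcases hqw with hqw | hqw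
          · exact Or.inl (same d.x hq.2.1 hqw.2.1)
          · exact Or.inr (diff _ _ _ _ d.xy hq hqw)
          · exact Or.inr (diff _ _ _ _ d.yx hq hqw)
          · exact Or.inl (same d.y hq.2.1 hqw.2.1)
      · rw [mem_singleton_iff] at hq
        subst hq
        exact absurd (hNV hqw) (hd w)

end para

end Q177.Navy
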