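import Pool.Agent.Q177.NavyB

set_option autoImplicit false

namespace Q177.Navy

open Set Topology
open Q177.ParaL (LocallyCountable Paralindelof)

variable {W : Type} [LinearOrder W]

open Classical in
theorem X_normal : NormalSpace (XX W) := by
  refine ⟨fun H K hH hK hHK => ?_⟩
  -- neighbourhoods missing `H` or `K`
  have hmiss : ∀ (C : Set (XX W)), IsClosed C → ∀ z : ℕ → W, XX.br z ∉ C →
      ∃ k r, Disjoint (Nb k r z) C := by
    intro C hC z hz
    obtain ⟨k, r, h⟩ := isOpen_iff.1 hC.isOpen_compl z hz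
    exact ⟨k, r, disjoint_left.2 fun p hp => h hp⟩
  let A : Code W := {p | ∃ i ≤ p.1, (∀ z' : ℕ → W, (∀ j < i, z' j = p.2 j) → XX.br z' ∉ K) ∧
    ∀ i' < i, ∃ z' : ℕ → W, (∀ j < i', z' j = p.2 j) ∧ XX.br z' ∈ H}
  have h1 : ∀ z : ℕ → W, XX.br z ∈ H → ∃ k r, Disjoint (Nb k r z) K ∧
      ∀ n x, k ≤ n → (∀ i < k, x i = z i) → (n, x) ∈ A := by
    intro z hz
    obtain ⟨k, r, hkr⟩ := hmiss K hK z (disjoint_left.1 hHK hz)
    have hex : ∃ i, ∀ z' : ℕ → W, (∀ j < i, z' j = z j) → XX.br z' ∉ K :=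
      ⟨k, fun z' hz' => disjoint_left.1 hkr hz'⟩
    refine ⟨k, r, hkr, fun n x hn hx => ⟨Nat.find hex, ?_, ?_, ?_⟩⟩
    · exact (Nat.find_min' hex fun z' hz' => disjoint_left.1 hkr hz').trans hn
    · intro z' hz'
      refine Nat.find_spec hex z' fun j hj => ?_
      rw [hz' j hj]
      exact hx j (lt_of_lt_of_le hj (Nat.find_min' hex fun z' hz' => disjoint_left.1 hkr hz'))
    · intro i' hi'
      refine ⟨z, fun j hj => ?_, hz⟩
      exact (hx j (lt_of_lt_of_le (hj.trans hi')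
        (Nat.find_min' hex fun z' hz' => disjoint_left.1 hkr hz'))).symm
  have h2 : ∀ w : ℕ → W, XX.br w ∈ K → ∃ k r, Disjoint (Nb k r w) H ∧
      ∀ n x, k ≤ n → (∀ i < k, x i = w i) → (n, x) ∉ A := by
    intro w hw
    obtain ⟨k, r, hkr⟩ := hmiss H hH w (disjoint_right.1 hHK hw)
    refine ⟨k, r, hkr, fun n x hn hx => ?_⟩
    rintro ⟨i, hi, hiK, hiH⟩
    rcases Nat.lt_or_ge k i with h | h
    · obtain ⟨z', hz', hz'H⟩ := hiH k h
      refine disjoint_left.1 hkr (show XX.br z' ∈ Nb k r w from fun j hj => ?_) hz'H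
      rw [hz' j hj, ← hx j hj]
    · exact hiK w (fun j hj => (hx j (lt_of_lt_of_le hj h)).symm) hw
  choose! k r hk1 hk2 using h1
  choose! k' r' hk1' hk2' using h2
  refine ⟨(⋃ z ∈ {z : ℕ → W | XX.br z ∈ H}, Nb (k z) (insert A (r z)) z) ∪ {p ∈ H | ∃ d, p = XX.ed d},
    (⋃ w ∈ {w : ℕ → W | XX.br w ∈ K}, Nb (k' w) (insert A (r' w)) w) ∪ {p ∈ K | ∃ d, p = XX.ed d},
    ?_, ?_, ?_, ?_, ?_⟩
  · refine (isOpen_biUnion fun z _ => Nb_open _ _ _).union (open_of_inr ?_)
    rintro z ⟨_, d, hd⟩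
    cases hd
  · refine (isOpen_biUnion fun z _ => Nb_open _ _ _).union (open_of_inr ?_)
    rintro z ⟨_, d, hd⟩
    cases hd
  · intro p hp
    cases p with
    | br z => exact Or.inl (mem_biUnion (show z ∈ {z : ℕ → W | XX.br z ∈ H} from hp)
        (self_mem _ _ _))
    | ed d => exact Or.inr ⟨hp, d, rfl⟩
  · intro p hp
    cases p with
    | br z => exact Or.inl (mem_biUnion (show z ∈ {z : ℕ → W | XX.br z ∈ K} from hp)
        (self_mem _ _ _))
    | ed d => exact Or.inr ⟨hp, d, rfl⟩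
  · rw [Set.disjoint_left]
    rintro p (hp | ⟨hp, _⟩) (hp' | ⟨hp', _⟩)
    · obtain ⟨z, hz, hpz⟩ := mem_iUnion₂.1 hp
      obtain ⟨w, hw, hpw⟩ := mem_iUnion₂.1 hp'
      exact Set.disjoint_left.1 (disj (Finset.mem_insert_self A _) (Finset.mem_insert_self A _)
        (hk2 z hz) (hk2' w hw)) hpz hpw
    · obtain ⟨z, hz, hpz⟩ := mem_iUnion₂.1 hp
      exact disjoint_left.1 (hk1 z hz) (Nb_mono le_rfl (Finset.subset_insert _ _) hpz) hp'
    · obtain ⟨w, hw, hpw⟩ := mem_iUnion₂.1 hp'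
      exact disjoint_left.1 (hk1' w hw) (Nb_mono le_rfl (Finset.subset_insert _ _) hpw) hp
    · exact disjoint_left.1 hHK hp hp'

/-- closed images of normal spaces are normal -/
theorem normal_image {X Y : Type} [TopologicalSpace X] [TopologicalSpace Y] {f : X → Y}
    (hf : Continuous f) (hs : Function.Surjective f) (hc : IsClosedMap f) (hX : NormalSpace X) :
    NormalSpace Y := by
  refine ⟨fun H K hH hK hHK => ?_⟩
  obtain ⟨U, V, hU, hV, hHU, hKV, hUV⟩ := hX.normal (f ⁻¹' H) (f ⁻¹' K) (hH.preimage hf)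
    (hK.preimage hf) (hHK.preimage f)
  refine ⟨(f '' Uᶜ)ᶜ, (f '' Vᶜ)ᶜ, (hc _ hU.isClosed_compl).isOpen_compl,
    (hc _ hV.isClosed_compl).isOpen_compl, ?_, ?_, ?_⟩
  · rintro y hy ⟨x, hx, rfl⟩
    exact hx (hHU hy)
  · rintro y hy ⟨x, hx, rfl⟩
    exact hx (hKV hy)
  · rw [Set.disjoint_left]
    intro y hy hy'
    obtain ⟨x, rfl⟩ := hs y
    have h1 : x ∈ U := by
      by_contra h
      exact hy ⟨x, h, rfl⟩
    have h2 : x ∈ V := by
      by_contra h
      exact hy' ⟨x, h, rfl⟩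
    exact disjoint_left.1 hUV h1 h2

/-- the image -/
inductive YY (W : Type) [LinearOrder W] : Type
  | pt (a : W) : YY W
  | ed (d : Ed W) : YY W

/-- the map collapsing each `{z | z 0 = a}` to a point -/
def ff : XX W → YY W
  | XX.br z => YY.pt (z 0)
  | XX.ed d => YY.ed d

instance : TopologicalSpace (YY W) := TopologicalSpace.coinduced ff inferInstance

theorem ff_cont : Continuous (ff (W := W)) := continuous_coinduced_rng

theorem Y_open {V : Set (YY W)} : IsOpen V ↔ IsOpen (ff ⁻¹' V : Set (XX W)) := Iff.rfl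

theorem ff_surj : Function.Surjective (ff (W := W)) := by
  intro p
  cases p with
  | pt a => exact ⟨XX.br fun _ => a, rfl⟩
  | ed d => exact ⟨XX.ed d, rfl⟩

theorem ff_closed : IsClosedMap (ff (W := W)) := by
  intro C hC
  rw [← isOpen_compl_iff, Y_open, isOpen_iff]
  intro z hz
  have hzC : XX.br z ∉ C := fun h => hz ⟨_, h, rfl⟩
  obtain ⟨k, r, h⟩ := isOpen_iff.1 hC.isOpen_compl z hzC
  refine ⟨max k 1, r, ?_⟩
  rintro p hp ⟨q, hq, hqp⟩
  cases p with
  | ed d =>
    cases q with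
    | br w => cases hqp
    | ed d' =>
      have : d' = d := by cases hqp; rfl
      rw [this] at hq
      exact h (Nb_mono (le_max_left k 1) subset_rfl hp) hq
  | br z' =>
    cases q with
    | ed d' => cases hqp
    | br w =>
      have h0 : w 0 = z' 0 := by
        have : YY.pt (w 0) = YY.pt (z' 0) := hqp
        injection this
      have h1 : z' 0 = z 0 := hp 0 (lt_of_lt_of_le Nat.zero_lt_one (le_max_right k 1))
      apply hz
      refine ⟨XX.br w, hq, ?_⟩
      show YY.pt (w 0) = YY.pt (z 0)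
      rw [h0, h1]

theorem Y_t1 : T1Space (YY W) := by
  refine ⟨fun p => ?_⟩
  obtain ⟨q, rfl⟩ := ff_surj p
  have := (X_t1 (W := W))
  have h := ff_closed (W := W) {q} isClosed_singleton
  rwa [image_singleton] at h

theorem Y_t4 : T4Space (YY W) := by
  have := Y_t1 (W := W)
  have := normal_image ff_cont ff_surj ff_closed (X_normal (W := W))
  exact ⟨⟩

theorem X_t4 : T4Space (XX W) := by
  have := X_t1 (W := W)
  have := X_normal (W := W)
  exact ⟨⟩

open Classical in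
/-- the image is not paralindelöf -/
theorem Y_not_para [Uncountable W] (hW : ∀ i : W, (Set.Iic i).Countable) :
    ¬ Paralindelof (YY W) := by
  intro hY
  let O : W → Set (YY W) := fun a => {p | ∀ b, p = YY.pt b → b = a}
  have hO : ∀ a, IsOpen (O a) := by
    intro a
    rw [Y_open, isOpen_iff]
    intro z hz
    have hza : z 0 = a := hz (z 0) rfl
    refine ⟨1, ∅, ?_⟩
    rintro p hp b hb
    cases p with
    | ed d => cases hb
    | br z' =>
      have h1 : z' 0 = z 0 := hp 0 Nat.zero_lt_one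
      have h2 : z' 0 = b := by
        have : YY.pt (z' 0) = YY.pt b := hb
        injection this
      rw [← h2, h1, hza]
  obtain ⟨w0⟩ : Nonempty W := inferInstance
  obtain ⟨𝒱, hVo, hVc, hVr, hVl⟩ := hY (range O) (by rintro _ ⟨a, rfl⟩; exact hO a) (by
    refine eq_univ_of_forall fun p => ?_
    cases p with
    | pt a => exact ⟨O a, ⟨a, rfl⟩, fun b hb => by cases hb; rfl⟩
    | ed d => exact ⟨O w0, ⟨w0, rfl⟩, fun b hb => by cases hb⟩)
  have hV : ∀ a : W, ∃ V ∈ 𝒱, YY.pt a ∈ V := by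
    intro a
    have : YY.pt a ∈ ⋃₀ 𝒱 := by rw [hVc]; trivial
    exact this
  choose V hV𝒱 haV using hV
  have hVinj : ∀ a b, YY.pt b ∈ V a → b = a := by
    intro a b hb
    obtain ⟨_, ⟨c, rfl⟩, hc⟩ := hVr (V a) (hV𝒱 a)
    rw [hc hb b rfl, hc (haV a) a rfl]
  choose N hN hNc using fun a => hVl (YY.pt a)
  -- open neighbourhoods
  have hM : ∀ a : W, ∃ M : Set (YY W), IsOpen M ∧ YY.pt a ∈ M ∧ M ⊆ V a ∧ M ⊆ N a := by
    intro a
    obtain ⟨M, hMN, hMo, haM⟩ := mem_nhds_iff.1 (hN a)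
    exact ⟨M ∩ V a, hMo.inter (hVo _ (hV𝒱 a)), ⟨haM, haV a⟩, inter_subset_right,
      inter_subset_left.trans hMN⟩
  choose M hMo haM hMV hMN using hM
  have hcnt : ∀ a, {b : W | (M a ∩ M b).Nonempty}.Countable := by
    intro a
    have hinj : Function.Injective V := by
      intro b c hbc
      have : YY.pt c ∈ V b := by rw [hbc]; exact haV c
      exact (hVinj b c this).symm
    refine ((hNc a).preimage (f := V) hinj).mono ?_
    rintro b ⟨p, hpa, hpb⟩
    exact ⟨hV𝒱 b, p, hMV b hpb, hMN a hpa⟩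
  have hkr : ∀ z : ℕ → W, ∃ k r, 1 ≤ k ∧ Nb k r z ⊆ ff ⁻¹' (M (z 0)) := by
    intro z
    obtain ⟨k, r, h⟩ := isOpen_iff.1 (Y_open.1 (hMo (z 0))) z (haM (z 0))
    exact ⟨max k 1, r, le_max_right _ _, (Nb_mono (le_max_left _ _) subset_rfl).trans h⟩
  choose k r hk1 hkr using hkr
  obtain ⟨a, ha⟩ := linking (P := Code W) (kk := k) (rr := r)
    (val := fun n x => {A : Code W | (n, x) ∈ A}) hW hk1
  refine ha ((hcnt a).mono ?_)
  rintro b ⟨hba, n, x, y, rfl, rfl, hkx, hky, hxy, hyx, hval⟩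
  let g : Set (Code W) := {A | (A ∈ r x ∧ (n, x) ∈ A) ∨ (A ∈ r y ∧ (n, y) ∈ A)}
  let d : Ed W := ⟨n, x, y, g, fun h => hba h.symm, hxy, hyx⟩
  refine ⟨YY.ed d, hkr x (show XX.ed d ∈ Nb (k x) (r x) x from Or.inl ⟨hkx, fun _ _ => rfl, ?_⟩),
    hkr y (show XX.ed d ∈ Nb (k y) (r y) y from Or.inr ⟨hky, fun _ _ => rfl, ?_⟩)⟩
  · intro A hA
    constructor
    · rintro (⟨_, h⟩ | ⟨h1, h2⟩)
      · exact h
      · exact (hval A hA h1).2 h2
    · intro h
      exact Or.inl ⟨hA, h⟩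
  · intro A hA
    constructor
    · rintro (⟨h1, h2⟩ | ⟨_, h⟩)
      · exact (hval A h1 hA).1 h2
      · exact h
    · intro h
      exact Or.inr ⟨hA, h⟩

/-- an uncountable well-ordered set with countable initial segments -/
theorem exists_omega1 : ∃ (W : Type) (_ : LinearOrder W), Uncountable W ∧
    ∀ i : W, (Set.Iic i).Countable := by
  refine ⟨(Cardinal.aleph 1).ord.ToType, inferInstance, ?_, ?_⟩
  · rw [← Cardinal.aleph0_lt_mk_iff, Cardinal.mk_ord_toType]
    exact Cardinal.aleph0_lt_aleph_one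
  · intro i
    have h1 : (Set.Iio i).Countable := by
      rw [← Cardinal.le_aleph0_iff_set_countable, ← Order.lt_succ_iff, ← Cardinal.aleph_zero,
        ← Cardinal.aleph_succ]
      have h2 := Cardinal.mk_Iio_ord_toType i
      simpa using h2
    have h3 : Set.Iic i = insert i (Set.Iio i) := (Set.Iio_insert).symm
    rw [h3]
    exact h1.insert i

end Q177.Navy
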