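import Pool.Agent.H289R3.FQ.Null
import Pool.Agent.H289R3.FQ.Slope
import Pool.Agent.H289R3.FQ.BData

/-!
# Continuous flows with a Hausdorff orbit space

The starting files `Pool.Agent.H289R3.FQ` treat flows with flow boxes which are transversal to the
orbit map.  Here the same is done for all continuous flows with Hausdorff orbit space (no flow
boxes); several proofs are taken over from there.
-/

set_option autoImplicit false
open Set Topology Filter

namespace Q177.Orb
open Pool.Agent.H289R3.FQ (T1 sm coe_sm coe_eq_zero lift_unique Null val sSup_add_const null_nhds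
  IsVar comb comb_cont comb_var PB ee shift)

/-- A continuous real flow `φ` on `Y` with open continuous quotient map `f`, whose fibres are the
orbits. -/
structure QF {Y N : Type*} [TopologicalSpace Y] [TopologicalSpace N] (φ : ℝ → Y → Y)
    (f : Y → N) : Prop where
  cont : Continuous (fun p : ℝ × Y => φ p.1 p.2)
  zero : ∀ y, φ 0 y = y
  add : ∀ s t y, φ (s + t) y = φ s (φ t y)
  fcont : Continuous f
  fopen : IsOpenMap f
  fibre : ∀ x y, f x = f y ↔ ∃ t, φ t x = y

variable {Y N : Type*} [TopologicalSpace Y] [TopologicalSpace N] {φ : ℝ → Y → Y} {f : Y → N}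


theorem QF.orbit_cont (h : QF φ f) (y : Y) : Continuous (fun t => φ t y) :=
  h.cont.comp (continuous_id.prodMk continuous_const)

theorem QF.time_cont (h : QF φ f) (t : ℝ) : Continuous (φ t) :=
  h.cont.comp (continuous_const.prodMk continuous_id)

theorem QF.f_flow (h : QF φ f) (t : ℝ) (y : Y) : f (φ t y) = f y :=
  ((h.fibre y (φ t y)).2 ⟨t, rfl⟩).symm

theorem QF.fibre_eq (h : QF φ f) (y : Y) : f ⁻¹' {f y} = range (fun t => φ t y) := by
  ext z
  simp only [mem_preimage, mem_singleton_iff, mem_range]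
  rw [eq_comm, h.fibre y z]

theorem QF.conn (h : QF φ f) (n : N) : IsPreconnected (f ⁻¹' {n}) := by
  by_cases hn : ∃ y, f y = n
  · obtain ⟨y, rfl⟩ := hn
    rw [h.fibre_eq]
    exact isPreconnected_range (h.orbit_cont y)
  · have : f ⁻¹' {n} = ∅ := by
      ext z
      simp only [mem_preimage, mem_singleton_iff, mem_empty_iff_false, iff_false]
      exact fun hz => hn ⟨z, hz⟩
    rw [this]
    exact isPreconnected_empty

/-- compact orbits are stable -/
theorem QF.stable [T2Space Y] [LocallyCompactSpace Y] [T2Space N] (h : QF φ f) {y0 : Y}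
    (hc : IsCompact (f ⁻¹' {f y0})) {O : Set Y} (hO : IsOpen O) (hsub : f ⁻¹' {f y0} ⊆ O) :
    ∃ L : Set Y, IsCompact L ∧ L ⊆ O ∧ ∀ᶠ n in 𝓝 (f y0), f ⁻¹' {n} ⊆ L := by
  obtain ⟨L, hL, h1, h2⟩ := exists_compact_between hc hO hsub
  refine ⟨L, hL, h2, ?_⟩
  have hfr : IsCompact (frontier (interior L)) := by
    apply hL.of_isClosed_subset isClosed_frontier
    exact (frontier_subset_closure.trans (closure_mono interior_subset)).trans
      hL.isClosed.closure_subset
  have hcl : IsClosed (f '' frontier (interior L)) := (hfr.image h.fcont).isClosed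
  have hnot : f y0 ∉ f '' frontier (interior L) := by
    rintro ⟨z, hz, hzf⟩
    have : z ∈ interior L := h1 hzf
    have hfe := (isOpen_interior (s := L)).frontier_eq
    rw [hfe] at hz
    exact hz.2 this
  have e1 : ∀ᶠ n in 𝓝 (f y0), n ∉ f '' frontier (interior L) := hcl.isOpen_compl.mem_nhds hnot
  have e2 : ∀ᶠ n in 𝓝 (f y0), n ∈ f '' interior L :=
    (h.fopen _ isOpen_interior).mem_nhds ⟨y0, h1 rfl, rfl⟩
  filter_upwards [e1, e2] with n hn1 hn2
  obtain ⟨z, hz, rfl⟩ := hn2
  by_contra hcon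
  obtain ⟨w, hw, hwL⟩ := not_subset.1 hcon
  have hfe := (isOpen_interior (s := L)).frontier_eq
  have hcov : f ⁻¹' {f z} ⊆ interior L ∪ (closure (interior L))ᶜ := by
    intro v hv
    by_contra hv'
    simp only [mem_union, mem_compl_iff, not_or, not_not] at hv'
    exact hn1 ⟨v, by rw [hfe]; exact ⟨hv'.2, hv'.1⟩, hv⟩
  obtain ⟨v, -, hv1, hv2⟩ := h.conn (f z) _ _ isOpen_interior isClosed_closure.isOpen_compl hcov
    ⟨z, rfl, hz⟩ ⟨w, hw, fun hw' => hwL (by
      have : closure (interior L) ⊆ L := (closure_mono interior_subset).trans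
        hL.isClosed.closure_subset
      exact this hw')⟩
  exact hv2 (subset_closure hv1)

theorem QF.compact_nhds [T2Space Y] [LocallyCompactSpace Y] [T2Space N] (h : QF φ f) {y0 : Y}
    (hc : IsCompact (f ⁻¹' {f y0})) : ∀ᶠ n in 𝓝 (f y0), IsCompact (f ⁻¹' {n}) := by
  obtain ⟨L, hL, -, h2⟩ := h.stable hc isOpen_univ (subset_univ _)
  filter_upwards [h2] with n hn
  exact hL.of_isClosed_subset (isClosed_singleton.preimage h.fcont) hn

theorem QF.compact_of_periodic (h : QF φ f) {y : Y} {T : ℝ} (hT0 : T ≠ 0)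
    (hT : φ T y = y) : IsCompact (f ⁻¹' {f y}) := by
  have hT' : φ |T| y = y := by
    rcases le_total 0 T with h0 | h0
    · rwa [abs_of_nonneg h0]
    · rw [abs_of_nonpos h0]
      conv_lhs => rw [← hT]
      rw [← h.add, neg_add_cancel, h.zero]
  have hper : Function.Periodic (fun t => φ t y) |T| := by
    intro s
    simp only
    rw [h.add, hT']
  rw [h.fibre_eq]
  have : range (fun t => φ t y) = (fun t => φ t y) '' Icc 0 |T| := by
    apply Subset.antisymm
    · rintro _ ⟨t, rfl⟩
      obtain ⟨s, hs, hs'⟩ := hper.exists_mem_Ico₀ (abs_pos.2 hT0) t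
      exact ⟨s, ⟨hs.1, hs.2.le⟩, hs'.symm⟩
    · rintro _ ⟨t, -, rfl⟩
      exact ⟨t, rfl⟩
  rw [this]
  exact isCompact_Icc.image (h.orbit_cont y)

/-- the pulled back flow -/
def PB.flow {N' : Type*} (h : QF φ f) (e : N' → N) (t : ℝ) (p : PB f e) : PB f e :=
  ⟨(φ t p.1.1, p.1.2), by rw [h.f_flow]; exact p.2⟩

theorem QF.pull {N' : Type*} [TopologicalSpace N'] (h : QF φ f) {e : N' → N}
    (he : Continuous e) : QF (Q177.Orb.PB.flow h e) (fun p : PB f e => p.1.2) where
  cont := by
    apply Continuous.subtype_mk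
    exact (h.cont.comp (continuous_fst.prodMk
      (continuous_fst.comp (continuous_subtype_val.comp continuous_snd)))).prodMk
      (continuous_snd.comp (continuous_subtype_val.comp continuous_snd))
  zero p := Subtype.ext (Prod.ext (h.zero _) rfl)
  add s t p := Subtype.ext (Prod.ext (h.add _ _ _) rfl)
  fcont := continuous_snd.comp continuous_subtype_val
  fopen := by
    intro O hO
    obtain ⟨O', hO', rfl⟩ := isOpen_induced_iff.1 hO
    rw [isOpen_iff_mem_nhds]
    rintro _ ⟨p, hp, rfl⟩
    obtain ⟨A, B, hA, hB, hpA, hpB, hAB⟩ := isOpen_prod_iff.1 hO' p.1.1 p.1.2 hp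
    have h1 : B ∩ e ⁻¹' (f '' A) ∈ 𝓝 p.1.2 :=
      (hB.inter ((h.fopen A hA).preimage he)).mem_nhds ⟨hpB, p.1.1, hpA, p.2⟩
    filter_upwards [h1] with n hn
    obtain ⟨hn1, q, hq, hqe⟩ := hn
    exact ⟨⟨(q, n), hqe⟩, hAB (Set.mk_mem_prod hq hn1), rfl⟩
  fibre := by
    intro x y
    constructor
    · intro hxy
      have hxy' : x.1.2 = y.1.2 := hxy
      have : f x.1.1 = f y.1.1 := by rw [x.2, y.2, hxy']
      obtain ⟨t, ht⟩ := (h.fibre _ _).1 this
      exact ⟨t, Subtype.ext (Prod.ext ht hxy')⟩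
    · rintro ⟨t, rfl⟩
      rfl

/-- restriction of a flow to the part over an open subset of the base -/
def RS.flow (h : QF φ f) (B : Set N) (t : ℝ) (p : {y : Y // f y ∈ B}) : {y : Y // f y ∈ B} :=
  ⟨φ t p.1, by rw [h.f_flow]; exact p.2⟩

theorem QF.restrict (h : QF φ f) {B : Set N} (hB : IsOpen B) :
    QF (RS.flow h B) (fun p : {y : Y // f y ∈ B} => f p.1) where
  cont := by
    apply Continuous.subtype_mk
    exact h.cont.comp (continuous_fst.prodMk (continuous_subtype_val.comp continuous_snd))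
  zero p := Subtype.ext (h.zero _)
  add s t p := Subtype.ext (h.add _ _ _)
  fcont := h.fcont.comp continuous_subtype_val
  fopen := h.fopen.comp (hB.preimage h.fcont).isOpenMap_subtype_val
  fibre := by
    intro x y
    rw [h.fibre x.1 y.1]
    constructor
    · rintro ⟨t, ht⟩
      exact ⟨t, Subtype.ext ht⟩
    · rintro ⟨t, rfl⟩
      exact ⟨t, rfl⟩

end Q177.Orb
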