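import Pool.Agent.Q177.OrbA

/-!
# Non-compact orbits

Over a compact set of non-compact orbits (of a continuous flow with Hausdorff orbit space) the
orbit map has a continuous section.
-/

set_option autoImplicit false
open Set Topology Filter

namespace Q177.Orb

variable {Y N : Type*} [TopologicalSpace Y] [TopologicalSpace N] {φ : ℝ → Y → Y} {f : Y → N}

/-- An orbit which meets a compact set at arbitrarily large times is periodic. -/
theorem QF.periodic_of_recurrent [T2Space Y] [LocallyCompactSpace Y] [T2Space N] (h : QF φ f)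
    {y : Y} {L : Set Y} (hL : IsCompact L) (hrec : ∀ M : ℝ, ∃ t, M < |t| ∧ φ t y ∈ L) :
    ∃ T > 0, φ T y = y := by
  classical
  have hF : IsClosed (f ⁻¹' {f y}) := isClosed_singleton.preimage h.fcont
  have : LocallyCompactSpace (f ⁻¹' {f y}) := hF.isClosedEmbedding_subtypeVal.locallyCompactSpace
  have : Nonempty (f ⁻¹' {f y}) := ⟨⟨y, rfl⟩⟩
  let A : ℤ → Set (f ⁻¹' {f y}) := fun n => {z | z.1 ∈ (fun t => φ t y) '' Icc (n : ℝ) (n + 1)}
  have hAc : ∀ n, IsClosed (A n) := fun n =>
    (isCompact_Icc.image (h.orbit_cont y)).isClosed.preimage continuous_subtype_val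
  have hAu : ⋃ n, A n = univ := by
    refine eq_univ_of_forall fun z => ?_
    obtain ⟨t, ht⟩ := (h.fibre y z.1).1 z.2.symm
    exact mem_iUnion.2 ⟨⌊t⌋, t, ⟨Int.floor_le t, (Int.lt_floor_add_one t).le⟩, ht⟩
  obtain ⟨n, z0, hz0⟩ := nonempty_interior_of_iUnion_of_closed hAc hAu
  obtain ⟨O, hO, hOA⟩ := isOpen_induced_iff.1 (isOpen_interior (s := A n))
  have hz0O : z0.1 ∈ O := by
    have : z0 ∈ Subtype.val ⁻¹' O := by rw [hOA]; exact hz0
    exact this
  obtain ⟨t0, ht0⟩ := (h.fibre y z0.1).1 z0.2.symm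
  choose t htM htL using fun k : ℕ => hrec k
  obtain ⟨z, hzL, hz⟩ := hL.exists_mapClusterPt (f := atTop) (u := fun k => φ (t k) y)
    (by rw [Filter.le_principal_iff]; exact Filter.mem_map.2 (Eventually.of_forall fun k => htL k))
  have hzF : z ∈ f ⁻¹' {f y} :=
    hF.mem_of_mapClusterPt hz (Eventually.of_forall fun k => h.f_flow _ _)
  obtain ⟨s, hs⟩ := (h.fibre y z).1 (Eq.symm hzF)
  have hW : {w | φ (t0 - s) w ∈ O} ∈ 𝓝 z := by
    apply (hO.preimage (h.time_cont _)).mem_nhds
    change φ (t0 - s) z ∈ O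
    rw [← hs, ← h.add, sub_add_cancel, ht0]
    exact hz0O
  have hfr : ∃ᶠ k in atTop, φ (t0 - s) (φ (t k) y) ∈ O := hz.frequently hW
  obtain ⟨k0, hk0⟩ := exists_nat_gt (|t0| + |s| + |(n : ℝ)| + 1)
  obtain ⟨k, hk, hkk⟩ := (hfr.and_eventually (eventually_ge_atTop k0)).exists
  have hmem : (⟨φ (t0 - s) (φ (t k) y), by
      change f _ = f y
      rw [h.f_flow, h.f_flow]⟩ : (f ⁻¹' {f y})) ∈ A n := by
    apply interior_subset
    rw [← hOA]
    exact hk
  obtain ⟨r, hr, hre⟩ := hmem
  simp only at hre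
  rw [← h.add] at hre
  have hkk' : (k0 : ℝ) ≤ k := by exact_mod_cast hkk
  have hT : φ (t0 - s + t k - r) y = y := by
    have : t0 - s + t k - r = -r + (t0 - s + t k) := by ring
    rw [this, h.add, ← hre, ← h.add, neg_add_cancel, h.zero]
  have hne : t0 - s + t k - r ≠ 0 := by
    intro h0
    have h1 : t k = r + s - t0 := by linarith
    have h2 := htM k
    have h3 : |t k| ≤ |r| + |s| + |t0| := by
      rw [h1]
      calc |r + s - t0| ≤ |r + s| + |t0| := abs_sub _ _
        _ ≤ |r| + |s| + |t0| := by linarith [abs_add_le r s]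
    have h4 : |r| ≤ |(n : ℝ)| + 1 := by
      rw [abs_le]
      constructor
      · linarith [hr.1, neg_abs_le (n : ℝ)]
      · linarith [hr.2, le_abs_self (n : ℝ)]
    linarith
  rcases lt_or_gt_of_ne hne with hlt | hgt
  · refine ⟨-(t0 - s + t k - r), by linarith, ?_⟩
    conv_lhs => rw [← hT]
    rw [← h.add, neg_add_cancel, h.zero]
  · exact ⟨_, hgt, hT⟩

theorem QF.periodic [T2Space Y] [LocallyCompactSpace Y] [T2Space N] (h : QF φ f) {y : Y}
    (hc : IsCompact (f ⁻¹' {f y})) : ∃ T > 0, φ T y = y := by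
  refine h.periodic_of_recurrent hc fun M => ⟨|M| + 1, ?_, h.f_flow _ _⟩
  rw [abs_of_pos (by positivity)]
  linarith [le_abs_self M]

theorem QF.bounded_times [T2Space Y] [LocallyCompactSpace Y] [T2Space N] (h : QF φ f) {y : Y}
    (hn : ¬ IsCompact (f ⁻¹' {f y})) {L : Set Y} (hL : IsCompact L) :
    ∃ M : ℝ, ∀ t, φ t y ∈ L → |t| ≤ M := by
  by_contra hcon
  push Not at hcon
  obtain ⟨T, hT, hTy⟩ := h.periodic_of_recurrent hL fun M => by
    obtain ⟨t, h1, h2⟩ := hcon M
    exact ⟨t, h2, h1⟩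
  exact hn (h.compact_of_periodic hT.ne' hTy)

/-- the time spent so far in the support of `g` -/
noncomputable def GG (φ : ℝ → Y → Y) (g : Y → ℝ) (y : Y) (t : ℝ) : ℝ := ∫ s in (0 : ℝ)..t, g (φ s y)

/-- the weight -/
noncomputable def chi (m c : ℝ) : ℝ := max 0 (m - c)

noncomputable def JJ (φ : ℝ → Y → Y) (g : Y → ℝ) (m : ℝ) (y : Y) (T : ℝ) : ℝ :=
  ∫ t in (0 : ℝ)..T, t * (g (φ t y) * chi m (GG φ g y t))

noncomputable def II (φ : ℝ → Y → Y) (g : Y → ℝ) (m : ℝ) (y : Y) (T : ℝ) : ℝ :=
  ∫ t in (0 : ℝ)..T, chi m (GG φ g y t) * g (φ t y)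

theorem chi_cont (m : ℝ) : Continuous (chi m) := by unfold chi; fun_prop

theorem chi_eq_zero {m c : ℝ} (h : m ≤ c) : chi m c = 0 := max_eq_left (by linarith)

section
variable {g : Y → ℝ} (h : QF φ f) (hg : Continuous g)
include h hg

theorem QF.g_cont : Continuous (fun p : Y × ℝ => g (φ p.2 p.1)) :=
  hg.comp (h.cont.comp (continuous_snd.prodMk continuous_fst))

theorem QF.GG_cont : Continuous (fun p : Y × ℝ => GG φ g p.1 p.2) := by
  unfold GG
  apply intervalIntegral.continuous_parametric_intervalIntegral_of_continuous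
    (f := fun (p : Y × ℝ) s => g (φ s p.1))
  · have := (h.g_cont hg).comp (by fun_prop : Continuous fun p : (Y × ℝ) × ℝ => (p.1.1, p.2))
    exact this
  · exact continuous_snd

theorem QF.gs_cont (y : Y) : Continuous (fun t : ℝ => g (φ t y)) :=
  hg.comp (h.orbit_cont y)

theorem QF.G_cont (y : Y) : Continuous (fun t : ℝ => GG φ g y t) :=
  (h.GG_cont hg).comp (by fun_prop : Continuous fun t : ℝ => (y, t))

theorem QF.JJ_cont (m T : ℝ) : Continuous (fun y : Y => JJ φ g m y T) := by
  unfold JJ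
  apply intervalIntegral.continuous_parametric_intervalIntegral_of_continuous'
    (f := fun (y : Y) t => t * (g (φ t y) * chi m (GG φ g y t)))
  have h1 : Continuous (fun p : Y × ℝ => p.2 * (g (φ p.2 p.1) * chi m (GG φ g p.1 p.2))) :=
    continuous_snd.mul ((h.g_cont hg).mul ((chi_cont m).comp (h.GG_cont hg)))
  exact h1

theorem QF.GG_mono (h0 : ∀ y, 0 ≤ g y) (y : Y) {s t : ℝ} (hst : s ≤ t) :
    GG φ g y s ≤ GG φ g y t := by
  unfold GG
  have h1 : IntervalIntegrable (fun s => g (φ s y)) MeasureTheory.volume 0 s :=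
    (h.gs_cont hg y).intervalIntegrable _ _
  have h2 : IntervalIntegrable (fun s => g (φ s y)) MeasureTheory.volume s t :=
    (h.gs_cont hg y).intervalIntegrable _ _
  rw [← intervalIntegral.integral_add_adjacent_intervals h1 h2]
  have := intervalIntegral.integral_nonneg (μ := MeasureTheory.volume) (f := fun s => g (φ s y)) hst
    (fun u _ => h0 _)
  linarith

theorem QF.JJ_eq (h0 : ∀ y, 0 ≤ g y) {m : ℝ} (y : Y) {S T : ℝ} (hST : S ≤ T)
    (hS : m ≤ GG φ g y S) : JJ φ g m y T = JJ φ g m y S := by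
  unfold JJ
  have hc : Continuous (fun t : ℝ => t * (g (φ t y) * chi m (GG φ g y t))) :=
    continuous_id.mul ((h.gs_cont hg y).mul ((chi_cont m).comp (h.G_cont hg y)))
  rw [← intervalIntegral.integral_add_adjacent_intervals (hc.intervalIntegrable 0 S)
    (hc.intervalIntegrable S T)]
  have : ∫ t in S..T, t * (g (φ t y) * chi m (GG φ g y t)) = 0 := by
    rw [intervalIntegral.integral_congr (g := fun _ => (0 : ℝ))]
    · simp
    · intro t ht
      rw [uIcc_of_le hST] at ht
      simp only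
      rw [chi_eq_zero (hS.trans (h.GG_mono hg h0 y ht.1))]
      ring
  rw [this, add_zero]

theorem QF.II_eq {m : ℝ} (hm : 0 < m) (y : Y) {T : ℝ} (hT : m ≤ GG φ g y T) :
    II φ g m y T = m ^ 2 / 2 := by
  unfold II
  have hder : ∀ t, HasDerivAt (fun t => GG φ g y t) (g (φ t y)) t := by
    intro t
    exact intervalIntegral.integral_hasDerivAt_right ((h.gs_cont hg y).intervalIntegrable _ _)
      ((h.gs_cont hg y).stronglyMeasurableAtFilter _ _) (h.gs_cont hg y).continuousAt
  have h1 := intervalIntegral.integral_comp_mul_deriv (a := 0) (b := T)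
    (f := fun t => GG φ g y t) (f' := fun t => g (φ t y)) (g := chi m) (fun t _ => hder t)
    (h.gs_cont hg y).continuousOn (chi_cont m)
  simp only [Function.comp] at h1
  rw [h1]
  have h0 : GG φ g y 0 = 0 := by simp [GG]
  rw [h0, ← intervalIntegral.integral_add_adjacent_intervals
    ((chi_cont m).intervalIntegrable 0 m) ((chi_cont m).intervalIntegrable m _)]
  have e1 : ∫ c in m..(GG φ g y T), chi m c = 0 := by
    rw [intervalIntegral.integral_congr (g := fun _ => (0 : ℝ))]
    · simp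
    · intro t ht
      rw [uIcc_of_le hT] at ht
      exact chi_eq_zero ht.1
  have e2 : ∫ c in (0 : ℝ)..m, chi m c = ∫ c in (0 : ℝ)..m, (m - c) := by
    apply intervalIntegral.integral_congr
    intro t ht
    rw [uIcc_of_le hm.le] at ht
    exact max_eq_right (by linarith [ht.2])
  rw [e1, e2, intervalIntegral.integral_sub (by simp) (by simp)]
  simp
  ring

open Classical in
theorem QF.exists_tau (h0 : ∀ y, 0 ≤ g y) {m : ℝ} (hm : 0 < m) : ∃ τ : Y → ℝ,
    (∀ y T, m < GG φ g y T → ContinuousAt τ y) ∧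
    (∀ y a T, 0 ≤ a → 0 ≤ T → (∀ s, 0 ≤ s → s < a → g (φ s y) = 0) → m ≤ GG φ g (φ a y) T →
      τ y = τ (φ a y) + a) := by
  let τ : Y → ℝ := fun y => if hh : ∃ T, m ≤ GG φ g y T then 2 / m ^ 2 * JJ φ g m y hh.choose else 0
  have hτ : ∀ y T, m ≤ GG φ g y T → τ y = 2 / m ^ 2 * JJ φ g m y T := by
    intro y T hT
    have hh : ∃ T, m ≤ GG φ g y T := ⟨T, hT⟩
    simp only [τ, hh, dif_pos]
    congr 1
    rcases le_total T hh.choose with h1 | h1
    · exact h.JJ_eq hg h0 y h1 hT
    · exact (h.JJ_eq hg h0 y h1 hh.choose_spec).symm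
  refine ⟨τ, ?_, ?_⟩
  · intro y T hT
    have h1 : ContinuousAt (fun y => 2 / m ^ 2 * JJ φ g m y T) y :=
      (continuous_const.mul (h.JJ_cont hg m T)).continuousAt
    apply h1.congr
    have h2 : Continuous (fun y => GG φ g y T) :=
      (h.GG_cont hg).comp (by fun_prop : Continuous fun y : Y => (y, T))
    filter_upwards [h2.continuousAt.eventually (lt_mem_nhds hT)] with z hz
    exact (hτ z T hz.le).symm
  · intro y a T ha hT hs hmT
    rcases eq_or_lt_of_le ha with h2 | h2
    · subst h2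
      rw [h.zero, add_zero]
    have hg0 : ∀ s ∈ Icc 0 a, g (φ s y) = 0 := by
      have hcl : IsClosed {s : ℝ | g (φ s y) = 0} := isClosed_eq (h.gs_cont hg y) continuous_const
      have hsub : Ico 0 a ⊆ {s : ℝ | g (φ s y) = 0} := fun s hs' => hs s hs'.1 hs'.2
      have := closure_minimal hsub hcl
      rw [closure_Ico h2.ne] at this
      exact this
    have hint : ∀ (u : ℝ → ℝ), Continuous u → ∀ t, (∀ s ∈ Icc 0 a, u s = 0) →
        ∫ s in (0 : ℝ)..(t + a), u s = ∫ s in (0 : ℝ)..t, u (s + a) := by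
      intro u hu t hu0
      rw [← intervalIntegral.integral_add_adjacent_intervals (hu.intervalIntegrable 0 a)
        (hu.intervalIntegrable a (t + a)), intervalIntegral.integral_comp_add_right, zero_add]
      have : ∫ s in (0 : ℝ)..a, u s = 0 := by
        rw [intervalIntegral.integral_congr (g := fun _ => (0 : ℝ))]
        · simp
        · intro t ht
          rw [uIcc_of_le ha] at ht
          exact hu0 t ht
      rw [this, zero_add]
    have hG : ∀ t, GG φ g y (t + a) = GG φ g (φ a y) t := by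
      intro t
      unfold GG
      rw [hint _ (h.gs_cont hg y) t hg0]
      simp only [h.add]
    have hJ : JJ φ g m y (T + a) = JJ φ g m (φ a y) T + a * II φ g m (φ a y) T := by
      unfold JJ II
      have hc : ∀ y, Continuous (fun t : ℝ => t * (g (φ t y) * chi m (GG φ g y t))) := fun y =>
        continuous_id.mul ((h.gs_cont hg y).mul ((chi_cont m).comp (h.G_cont hg y)))
      have hc2 : ∀ y, Continuous (fun t : ℝ => a * (chi m (GG φ g y t) * g (φ t y))) := fun y =>
        continuous_const.mul (((chi_cont m).comp (h.G_cont hg y)).mul (h.gs_cont hg y))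
      rw [hint _ (hc y) T (fun s hs' => by rw [hg0 s hs']; ring), ← intervalIntegral.integral_const_mul,
        ← intervalIntegral.integral_add ((hc _).intervalIntegrable _ _)
          ((hc2 _).intervalIntegrable _ _)]
      apply intervalIntegral.integral_congr
      intro t _
      simp only
      rw [hG, h.add]
      ring
    rw [hτ y (T + a) (by rw [hG]; exact hmT), hτ _ T hmT, hJ, h.II_eq hg hm _ hmT]
    field_simp
end

/-- a compact set in which every orbit over `K` spends a fixed amount of time -/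
theorem QF.exists_core [T2Space Y] [LocallyCompactSpace Y] (h : QF φ f)
    {K : Set N} (hK : IsCompact K) (hr : K ⊆ range f) :
    ∃ (L : Set Y) (δ : ℝ), IsCompact L ∧ 0 < δ ∧
      ∀ m ∈ K, ∃ y, f y = m ∧ ∀ s ∈ Icc 0 δ, φ s y ∈ L := by
  refine hK.induction_on (p := fun s => ∃ (L : Set Y) (δ : ℝ), IsCompact L ∧ 0 < δ ∧
      ∀ m ∈ s, ∃ y, f y = m ∧ ∀ s ∈ Icc 0 δ, φ s y ∈ L) ?_ ?_ ?_ ?_
  · exact ⟨∅, 1, isCompact_empty, one_pos, by simp⟩
  · rintro s t hst ⟨L, δ, h1, h2, h3⟩
    exact ⟨L, δ, h1, h2, fun m hm => h3 m (hst hm)⟩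
  · rintro s t ⟨L, δ, h1, h2, h3⟩ ⟨L', δ', h1', h2', h3'⟩
    refine ⟨L ∪ L', min δ δ', h1.union h1', lt_min h2 h2', ?_⟩
    rintro m (hm | hm)
    · obtain ⟨y, hy, hy'⟩ := h3 m hm
      exact ⟨y, hy, fun s hs => Or.inl (hy' s ⟨hs.1, hs.2.trans (min_le_left _ _)⟩)⟩
    · obtain ⟨y, hy, hy'⟩ := h3' m hm
      exact ⟨y, hy, fun s hs => Or.inr (hy' s ⟨hs.1, hs.2.trans (min_le_right _ _)⟩)⟩
  · intro m hm
    obtain ⟨y, rfl⟩ := hr hm
    obtain ⟨L, hL, hLy⟩ := exists_compact_mem_nhds y
    have h1 : Tendsto (fun p : ℝ × Y => φ p.1 p.2) (𝓝 (0, y)) (𝓝 y) := by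
      have := h.cont.tendsto (0, y)
      simpa only [h.zero] using this
    have h2 := h1 hLy
    rw [nhds_prod_eq, Filter.mem_map, Filter.mem_prod_iff] at h2
    obtain ⟨A, hA, B, hB, hAB⟩ := h2
    obtain ⟨ε, hε, hεA⟩ := Metric.mem_nhds_iff.1 hA
    refine ⟨f '' interior B, mem_nhdsWithin_of_mem_nhds ((h.fopen _ isOpen_interior).mem_nhds
      ⟨y, mem_interior_iff_mem_nhds.2 hB, rfl⟩), L, ε / 2, hL, by positivity, ?_⟩
    rintro _ ⟨z, hz, rfl⟩
    refine ⟨z, rfl, fun s hs => ?_⟩
    refine hAB (Set.mk_mem_prod (hεA ?_) (interior_subset hz))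
    rw [Metric.mem_ball, Real.dist_eq, sub_zero, abs_of_nonneg hs.1]
    linarith [hs.2]

/-- Over a compact set of non-compact orbits there is a continuous section. -/
theorem QF.exists_section [Nonempty Y] [T2Space Y] [LocallyCompactSpace Y] [T2Space N]
    (h : QF φ f) {K : Set N} (hK : IsCompact K) (hr : K ⊆ range f)
    (hfree : ∀ m ∈ K, ¬ IsCompact (f ⁻¹' {m})) :
    ∃ σ : N → Y, ContinuousOn σ K ∧ ∀ m ∈ K, f (σ m) = m := by
  classical
  obtain ⟨L, δ, hL, hδ, hLK⟩ := h.exists_core hK hr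
  obtain ⟨g, hg1, -, hgs, hg01⟩ := exists_continuous_one_zero_of_isCompact hL isClosed_empty
    (disjoint_empty L)
  have h0 : ∀ y, 0 ≤ g y := fun y => (hg01 y).1
  have hS : IsCompact (tsupport g) := hgs
  have hLS : L ⊆ tsupport g := by
    intro y hy
    apply subset_tsupport
    rw [Function.mem_support, hg1 hy]
    exact one_ne_zero
  -- the first point of the support on the orbits over `K`
  have hfirst : ∀ m ∈ K, ∃ b, f b = m ∧ b ∈ tsupport g ∧ ∀ s < 0, φ s b ∉ tsupport g := by
    intro m hm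
    obtain ⟨y, rfl, hy⟩ := hLK m hm
    obtain ⟨M, hM⟩ := h.bounded_times (hfree _ hm) hS
    have hcl : IsClosed {t : ℝ | φ t y ∈ tsupport g} :=
      (isClosed_tsupport g).preimage (h.orbit_cont y)
    have hne : {t : ℝ | φ t y ∈ tsupport g}.Nonempty := ⟨0, hLS (hy 0 ⟨le_rfl, hδ.le⟩)⟩
    have hbd : BddBelow {t : ℝ | φ t y ∈ tsupport g} :=
      ⟨-M, fun t ht => by have := hM t ht; rw [abs_le] at this; exact this.1⟩
    have hmem := hcl.csInf_mem hne hbd
    refine ⟨φ (sInf {t : ℝ | φ t y ∈ tsupport g}) y, h.f_flow _ _, hmem, ?_⟩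
    intro s hs hs'
    rw [← h.add] at hs'
    have := csInf_le hbd hs'
    linarith
  choose! b hbf hbS hbn using hfirst
  have hGb : ∀ m ∈ K, ∃ T, δ ≤ GG φ g (b m) T := by
    intro m hm
    obtain ⟨y, hyf, hy⟩ := hLK m hm
    obtain ⟨a, ha⟩ := (h.fibre (b m) y).1 (by rw [hbf m hm, hyf])
    have ha0 : 0 ≤ a := by
      by_contra hcon
      push Not at hcon
      apply hbn m hm a hcon
      rw [ha]
      have := hy 0 ⟨le_rfl, hδ.le⟩
      rw [h.zero] at this
      exact hLS this
    refine ⟨a + δ, ?_⟩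
    unfold GG
    have hc := h.gs_cont g.continuous (b m)
    rw [← intervalIntegral.integral_add_adjacent_intervals (hc.intervalIntegrable 0 a)
      (hc.intervalIntegrable a (a + δ))]
    have h1 : 0 ≤ ∫ s in (0 : ℝ)..a, g (φ s (b m)) :=
      intervalIntegral.integral_nonneg ha0 fun u _ => h0 _
    have h2 : ∫ s in a..(a + δ), g (φ s (b m)) = δ := by
      rw [intervalIntegral.integral_congr (g := fun _ => (1 : ℝ))]
      · simp
      · intro t ht
        rw [uIcc_of_le (by linarith)] at ht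
        have : φ t (b m) = φ (t - a) y := by rw [← ha, ← h.add, sub_add_cancel]
        simp only
        rw [this]
        exact hg1 (hy _ ⟨by linarith [ht.1], by linarith [ht.2]⟩)
    linarith
  obtain ⟨τ, hτc, hτs⟩ := h.exists_tau g.continuous h0 (m := δ / 2) (by positivity)
  refine ⟨fun m => φ (τ (b m)) (b m), ?_, fun m hm => by rw [h.f_flow, hbf m hm]⟩
  intro m hm
  change Tendsto _ _ _
  rw [tendsto_iff_ultrafilter]
  intro U hU
  have hUK : K ∈ U := hU self_mem_nhdsWithin
  have hUm : (U : Filter N) ≤ 𝓝 m := hU.trans nhdsWithin_le_nhds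
  obtain ⟨z, hzS, hz⟩ := hS.ultrafilter_le_nhds (U.map b) (by
    rw [Filter.le_principal_iff]
    change b ⁻¹' (tsupport g) ∈ U
    filter_upwards [hUK] with m' hm'
    exact hbS m' hm')
  have hbz : Tendsto b U (𝓝 z) := hz
  have hfz : f z = m := by
    have h1 : Tendsto (fun m' => f (b m')) U (𝓝 (f z)) := (h.fcont.tendsto z).comp hbz
    have h2 : Tendsto (fun m' => f (b m')) U (𝓝 m) := by
      refine Tendsto.congr' ?_ (show Tendsto (fun m' : N => m') U (𝓝 m) from hUm)
      filter_upwards [hUK] with m' hm'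
      exact (hbf m' hm').symm
    exact tendsto_nhds_unique h1 h2
  obtain ⟨a, ha⟩ := (h.fibre (b m) z).1 (by rw [hbf m hm, hfz])
  have ha0 : 0 ≤ a := by
    by_contra hcon
    push Not at hcon
    apply hbn m hm a hcon
    rw [ha]
    exact hzS
  have hga : ∀ s, 0 ≤ s → s < a → g (φ s (b m)) = 0 := by
    intro s _ hsa
    have e : φ s (b m) = φ (s - a) z := by rw [← ha, ← h.add, sub_add_cancel]
    have h1 : Tendsto (fun m' => g (φ (s - a) (b m'))) U (𝓝 (g (φ (s - a) z))) :=
      ((g.continuous.comp (h.time_cont _)).tendsto z).comp hbz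
    have h2 : Tendsto (fun m' => g (φ (s - a) (b m'))) U (𝓝 0) := by
      refine Tendsto.congr' ?_ tendsto_const_nhds
      filter_upwards [hUK] with m' hm'
      exact (image_eq_zero_of_notMem_tsupport (hbn m' hm' (s - a) (by linarith))).symm
    rw [e]
    exact tendsto_nhds_unique h1 h2
  obtain ⟨T', hT'⟩ := hGb m hm
  have hgI : ∀ t ≤ a, 0 ≤ t → GG φ g (b m) t = 0 := by
    intro t hta ht0
    unfold GG
    have hcl : IsClosed {s : ℝ | g (φ s (b m)) = 0} :=
      isClosed_eq (h.gs_cont g.continuous _) continuous_const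
    rcases eq_or_lt_of_le ha0 with h2 | h2
    · have : t = 0 := by linarith
      subst this
      simp
    · have hsub : Ico 0 a ⊆ {s : ℝ | g (φ s (b m)) = 0} := fun s hs' => hga s hs'.1 hs'.2
      have h3 := closure_minimal hsub hcl
      rw [closure_Ico h2.ne] at h3
      rw [intervalIntegral.integral_congr (g := fun _ => (0 : ℝ))]
      · simp
      · intro s hs
        rw [uIcc_of_le ht0] at hs
        exact h3 ⟨hs.1, hs.2.trans hta⟩
  have hT'a : a ≤ T' := by
    by_contra hcon
    push Not at hcon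
    rcases le_total 0 T' with h2 | h2
    · rw [hgI T' hcon.le h2] at hT'
      linarith
    · have := h.GG_mono g.continuous h0 (b m) h2
      have e0 : GG φ g (b m) 0 = 0 := by simp [GG]
      linarith
  have hGz : δ ≤ GG φ g z (T' - a) := by
    have e : GG φ g (b m) T' = GG φ g (b m) a + GG φ g z (T' - a) := by
      unfold GG
      have hc := h.gs_cont g.continuous (b m)
      rw [← intervalIntegral.integral_add_adjacent_intervals (hc.intervalIntegrable 0 a)
        (hc.intervalIntegrable a T')]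
      congr 1
      have : ∫ s in (0 : ℝ)..(T' - a), g (φ s z) = ∫ s in (0 : ℝ)..(T' - a), g (φ (s + a) (b m)) := by
        apply intervalIntegral.integral_congr
        intro s _
        simp only
        rw [h.add, ha]
      rw [this, intervalIntegral.integral_comp_add_right (fun s => g (φ s (b m))), zero_add,
        sub_add_cancel]
    rw [hgI a le_rfl ha0, zero_add] at e
    rw [← e]
    exact hT'
  have hτz : Tendsto (fun m' => τ (b m')) U (𝓝 (τ z)) :=
    (hτc z (T' - a) (by linarith)).tendsto.comp hbz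
  have hlim : Tendsto (fun m' => φ (τ (b m')) (b m')) U (𝓝 (φ (τ z) z)) :=
    (h.cont.tendsto (τ z, z)).comp (hτz.prodMk_nhds hbz)
  have e2 : φ (τ (b m)) (b m) = φ (τ z) z := by
    rw [hτs (b m) a (T' - a) ha0 (by linarith) hga (by rw [ha]; linarith), ha, h.add, ha]
  change Tendsto _ _ (𝓝 (φ (τ (b m)) (b m)))
  rw [e2]
  exact hlim

end Q177.Orb
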