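import Pool.Agent.Q177.OrbB

/-!
# Real lifts over compact orbits
-/

set_option autoImplicit false
open Set Topology Filter
open scoped unitInterval

namespace Q177.Orb
open Pool.Agent.H289R3.FQ (T1 sm coe_sm coe_eq_zero lift_unique Null val sSup_add_const null_nhds
  IsVar comb comb_cont comb_var PB ee shift)

variable {Y N : Type*} [TopologicalSpace Y] [TopologicalSpace N] {φ : ℝ → Y → Y} {f : Y → N}


theorem QF.val_eq (h : QF φ f) {D : Y → T1} {n : N} (hc : IsCompact (f ⁻¹' {n}))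
    {l : Y → ℝ} (hl : ContinuousOn l (f ⁻¹' {n})) (hD : ∀ z ∈ f ⁻¹' {n}, ((l z : ℝ) : T1) = D z) :
    val f D n = ((sSup (l '' (f ⁻¹' {n})) : ℝ) : T1) := by
  have hN : Null f D n := ⟨l, hl, hD⟩
  unfold val
  rw [dif_pos hN]
  obtain ⟨hl', hD'⟩ := hN.choose_spec
  set l' := hN.choose with hl'def
  rcases (f ⁻¹' {n}).eq_empty_or_nonempty with he | ⟨z0, hz0⟩
  · rw [he, image_empty, image_empty]
  · have hu := lift_unique (h.conn n) hl hl' (fun z hz => by rw [hD z hz, hD' z hz]) hz0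
    have himg : l' '' (f ⁻¹' {n}) = (fun x => x + (l' z0 - l z0)) '' (l '' (f ⁻¹' {n})) := by
      rw [image_image]
      exact image_congr hu
    have hi : (((l' z0 - l z0 : ℝ)) : T1) = 0 := by
      rw [AddCircle.coe_sub, hD z0 hz0, hD' z0 hz0, sub_self]
    rw [himg, sSup_add_const (Set.Nonempty.image l ⟨z0, hz0⟩)
      (hc.image_of_continuousOn hl).bddAbove,
      AddCircle.coe_add, hi, add_zero]

theorem QF.val_cont [T2Space Y] [NormalSpace Y] [LocallyCompactSpace Y] [T2Space N]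
    (h : QF φ f) {D : Y → T1} (hDc : Continuous D)
    {y0 : Y} (hc : IsCompact (f ⁻¹' {f y0})) (hN : Null f D (f y0)) :
    ContinuousAt (val f D) (f y0) ∧ ∀ᶠ n in 𝓝 (f y0), Null f D n := by
  obtain ⟨l0, hl0, hlD0⟩ := hN
  obtain ⟨O, l, hO, hKO, hl, hlD⟩ := null_nhds hDc hc.isClosed hl0 hlD0
  obtain ⟨L, hL, hLO, hev⟩ := h.stable hc hO hKO
  have hcn : ∀ᶠ n in 𝓝 (f y0), IsCompact (f ⁻¹' {n}) := h.compact_nhds hc
  have hval : ∀ᶠ n in 𝓝 (f y0), val f D n = ((sSup (l '' (f ⁻¹' {n})) : ℝ) : T1) := by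
    filter_upwards [hev, hcn] with n hn hn'
    exact h.val_eq hn' (hl.mono (hn.trans hLO)) (fun z hz => hlD z (hLO (hn hz)))
  refine ⟨?_, ?_⟩
  swap
  · filter_upwards [hev] with n hn
    exact ⟨l, hl.mono (hn.trans hLO), fun z hz => hlD z (hLO (hn hz))⟩
  set m0 := sSup (l '' (f ⁻¹' {f y0})) with hm0
  have hlim : Tendsto (fun n => sSup (l '' (f ⁻¹' {n}))) (𝓝 (f y0)) (𝓝 m0) := by
    rw [Metric.tendsto_nhds]
    intro ε hε
    have hbd0 : BddAbove (l '' (f ⁻¹' {f y0})) :=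
      (hc.image_of_continuousOn (hl.mono hKO)).bddAbove
    have hle0 : ∀ z ∈ f ⁻¹' {f y0}, l z ≤ m0 := fun z hz => le_csSup hbd0 ⟨z, hz, rfl⟩
    -- upper bound
    have hO1 : IsOpen (O ∩ l ⁻¹' Iio (m0 + ε / 2)) := hl.isOpen_inter_preimage hO isOpen_Iio
    obtain ⟨L1, -, hL1O, hev1⟩ := h.stable hc hO1 (fun z hz => ⟨hKO hz, by
      change l z < m0 + ε / 2
      linarith [hle0 z hz]⟩)
    -- lower bound
    obtain ⟨z0, hz0, hz0m⟩ := hc.exists_isMaxOn ⟨y0, rfl⟩ (hl.mono hKO)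
    have hz0' : m0 ≤ l z0 := csSup_le (Set.Nonempty.image l ⟨y0, rfl⟩)
      (by rintro _ ⟨z, hz, rfl⟩; exact hz0m hz)
    have hO2 : IsOpen (O ∩ l ⁻¹' Ioi (m0 - ε / 2)) := hl.isOpen_inter_preimage hO isOpen_Ioi
    have hev2 : ∀ᶠ n in 𝓝 (f y0), n ∈ f '' (O ∩ l ⁻¹' Ioi (m0 - ε / 2)) :=
      (h.fopen _ hO2).mem_nhds ⟨z0, ⟨hKO hz0, by
        change m0 - ε / 2 < l z0
        linarith⟩, hz0⟩
    filter_upwards [hev, hev1, hev2, hcn] with n hn hn1 hn2 hn3
    obtain ⟨z, ⟨hzO, hzl⟩, hzn⟩ := hn2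
    have hbd : BddAbove (l '' (f ⁻¹' {n})) :=
      (hn3.image_of_continuousOn (hl.mono (hn.trans hLO))).bddAbove
    have h1 : l z ≤ sSup (l '' (f ⁻¹' {n})) := le_csSup hbd ⟨z, hzn, rfl⟩
    have h2 : sSup (l '' (f ⁻¹' {n})) ≤ m0 + ε / 2 := by
      apply csSup_le (Set.Nonempty.image l ⟨z, hzn⟩)
      rintro _ ⟨w, hw, rfl⟩
      exact (hL1O (hn1 hw)).2.le
    have h3 : m0 - ε / 2 < l z := hzl
    rw [Real.dist_eq, abs_lt]
    constructor <;> linarith
  rw [ContinuousAt, hval.self_of_nhds]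
  exact (((AddCircle.continuous_mk' (1 : ℝ)).tendsto m0).comp hlim).congr' (by
    filter_upwards [hval] with n hn
    exact hn.symm)

theorem QF.val_translate (h : QF φ f) {D : Y → T1} {n n' : N}
    (hc : IsCompact (f ⁻¹' {n})) (hc' : IsCompact (f ⁻¹' {n'})) (hne : (f ⁻¹' {n}).Nonempty)
    (τ : Y ≃ₜ Y) (hτ : ∀ z, f z = n ↔ f (τ z) = n') {c : ℝ}
    (hD : ∀ z ∈ f ⁻¹' {n}, D (τ z) = D z + (c : T1)) (hN : Null f D n) :
    Null f D n' ∧ val f D n' = val f D n + (c : T1) := by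
  obtain ⟨l, hl, hlD⟩ := hN
  have hmem : ∀ z ∈ f ⁻¹' {n'}, τ.symm z ∈ f ⁻¹' {n} := by
    intro z hz
    change f (τ.symm z) = n
    rw [hτ, τ.apply_symm_apply]
    exact hz
  have hl' : ContinuousOn (fun z => l (τ.symm z) + c) (f ⁻¹' {n'}) :=
    (hl.comp τ.symm.continuous.continuousOn hmem).add continuousOn_const
  have hlD' : ∀ z ∈ f ⁻¹' {n'}, ((l (τ.symm z) + c : ℝ) : T1) = D z := by
    intro z hz
    rw [AddCircle.coe_add, hlD _ (hmem z hz), ← hD _ (hmem z hz), τ.apply_symm_apply]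
  refine ⟨⟨_, hl', hlD'⟩, ?_⟩
  rw [h.val_eq hc' hl' hlD', h.val_eq hc hl hlD]
  have himg : (fun z => l (τ.symm z) + c) '' (f ⁻¹' {n'}) =
      (fun x => x + c) '' (l '' (f ⁻¹' {n})) := by
    ext x
    constructor
    · rintro ⟨z, hz, rfl⟩
      exact ⟨_, ⟨_, hmem z hz, rfl⟩, rfl⟩
    · rintro ⟨_, ⟨z, hz, rfl⟩, rfl⟩
      refine ⟨τ z, (hτ z).1 hz, ?_⟩
      simp only [τ.symm_apply_apply]
  rw [himg, sSup_add_const (hne.image _) (hc.image_of_continuousOn hl).bddAbove,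
    AddCircle.coe_add]

theorem QF.exists_var (h : QF φ f) {D : Y → T1} (hD : Continuous D) :
    ∃ L : Y → ℝ → ℝ, IsVar φ D L := by
  let H : C(I × (Y × ℝ), T1) := ⟨fun p => D (φ (p.1 * p.2.2) p.2.1) - D p.2.1, by
    apply Continuous.sub
    · exact hD.comp (h.cont.comp
        (by fun_prop : Continuous fun p : I × (Y × ℝ) => (((p.1 : ℝ) * p.2.2, p.2.1) : ℝ × Y)))
    · exact hD.comp (by fun_prop)⟩
  have H0 : ∀ a, H (0, a) = (((0 : C(Y × ℝ, ℝ)) a : ℝ) : T1) := by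
    intro a
    simp [H, h.zero]
  let Lf := (AddCircle.isCoveringMap_coe (1 : ℝ)).liftHomotopy H 0 H0
  have hl : ∀ x, ((Lf x : ℝ) : T1) = H x := fun x =>
    congrFun ((AddCircle.isCoveringMap_coe (1 : ℝ)).liftHomotopy_lifts H 0 H0) x
  have h0 : ∀ a, Lf (0, a) = 0 := fun a =>
    (AddCircle.isCoveringMap_coe (1 : ℝ)).liftHomotopy_zero H 0 H0 a
  refine ⟨fun y t => Lf (1, (y, t)), ?_, ?_, ?_⟩
  · fun_prop
  · intro y
    have := lift_unique (K := (univ : Set I)) isPreconnected_univ (l := fun _ => (0 : ℝ))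
      (l' := fun s => Lf (s, (y, 0))) continuousOn_const (by fun_prop) (by
        intro s _
        rw [hl]
        simp [H, h.zero]) (mem_univ 0) 1 (mem_univ _)
    simp only [h0] at this
    simpa using this
  · intro y t
    rw [hl]
    simp [H]

theorem isVar_add {D : Y → T1} {L : Y → ℝ → ℝ} (hL : IsVar φ D L) (h : QF φ f) (y : Y)
    (s t : ℝ) : L y (s + t) = L y t + L (φ t y) s := by
  have := lift_unique (K := (univ : Set ℝ)) isPreconnected_univ
    (l := fun s => L y (s + t)) (l' := fun s => L y t + L (φ t y) s)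
    (Continuous.continuousOn (hL.cont.comp (by fun_prop : Continuous fun s : ℝ => (y, s + t))))
    (Continuous.continuousOn (continuous_const.add
      (hL.cont.comp (by fun_prop : Continuous fun s : ℝ => (φ t y, s))))) (by
      intro s _
      rw [AddCircle.coe_add, hL.coe, hL.coe, hL.coe, ← h.add]
      abel) (mem_univ 0) s (mem_univ _)
  simp only [zero_add, hL.zero, add_zero, sub_self] at this
  exact this.symm

theorem isVar_orbit_eq {D : Y → T1} {L : Y → ℝ → ℝ} (hL : IsVar φ D L) (h : QF φ f) {y : Y}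
    {l : Y → ℝ} (hl : ContinuousOn l (f ⁻¹' {f y})) (hlD : ∀ z ∈ f ⁻¹' {f y}, ((l z : ℝ) : T1) = D z)
    (t : ℝ) : L y t = l (φ t y) - l y := by
  have hmem : ∀ s, φ s y ∈ f ⁻¹' {f y} := fun s => h.f_flow s y
  have := lift_unique (K := (univ : Set ℝ)) isPreconnected_univ
    (l := fun s => l (φ s y) - l y) (l' := fun s => L y s)
    ((hl.comp (h.orbit_cont y).continuousOn (fun s _ => hmem s)).sub continuousOn_const)
    (Continuous.continuousOn (hL.cont.comp (by fun_prop : Continuous fun s : ℝ => (y, s)))) (by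
      intro s _
      have e0 : ((l y : ℝ) : T1) = D y := hlD y rfl
      rw [AddCircle.coe_sub, hlD _ (hmem s), e0, hL.coe]) (mem_univ 0) t (mem_univ _)
  simp only [hL.zero, h.zero, sub_self, add_zero] at this
  exact this

theorem isVar_zero_of_null {D : Y → T1} {L : Y → ℝ → ℝ} (hL : IsVar φ D L) (h : QF φ f) {y : Y}
    (hN : Null f D (f y)) {T : ℝ} (hT : φ T y = y) : L y T = 0 := by
  obtain ⟨l, hl, hlD⟩ := hN
  rw [isVar_orbit_eq hL h hl hlD, hT, sub_self]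

theorem isVar_null_of_zero [T2Space Y] {D : Y → T1} {L : Y → ℝ → ℝ} (hL : IsVar φ D L)
    (h : QF φ f) {y : Y} {T : ℝ} (hT0 : 0 < T) (hT : φ T y = y) (hLT : L y T = 0) :
    Null f D (f y) := by
  classical
  have hper : Function.Periodic (L y) T := by
    intro s
    rw [isVar_add hL h, hLT, hT, zero_add]
  have hLc : Continuous (L y) := hL.cont.comp (by fun_prop : Continuous fun s : ℝ => (y, s))
  obtain ⟨B, hB⟩ : ∃ B, ∀ s, |L y s| ≤ B := by
    obtain ⟨B, hB⟩ := isCompact_Icc.exists_bound_of_continuousOn (s := Icc 0 T) hLc.continuousOn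
    refine ⟨B, fun s => ?_⟩
    obtain ⟨s', hs', hs''⟩ := hper.exists_mem_Ico₀ hT0 s
    rw [hs'']
    exact hB s' ⟨hs'.1, hs'.2.le⟩
  have hP : ∀ P, φ P y = y → L y P = 0 := by
    intro P hP
    have hn : ∀ n : ℕ, L y (n * P) = n * L y P := by
      intro n
      induction n with
      | zero => simp [hL.zero]
      | succ n ih =>
        have : ((n + 1 : ℕ) : ℝ) * P = n * P + P := by push_cast; ring
        rw [this, isVar_add hL h, hP, ih]
        push_cast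
        ring
    by_contra hne
    obtain ⟨n, hn'⟩ := exists_nat_gt (B / |L y P|)
    have h1 := hB (n * P)
    rw [hn, abs_mul, Nat.abs_cast] at h1
    rw [div_lt_iff₀ (abs_pos.2 hne)] at hn'
    linarith
  obtain ⟨c0, hc0⟩ : ∃ c0 : ℝ, ((c0 : ℝ) : T1) = D y := ⟨_, coe_sm (D y)⟩
  let tt : Y → ℝ := fun z => if hz : ∃ t, φ t y = z then hz.choose else 0
  have htt : ∀ z ∈ f ⁻¹' {f y}, φ (tt z) y = z := by
    intro z hz
    have hz' := (h.fibre y z).1 (Eq.symm hz)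
    simp only [tt, hz', dif_pos]
    exact hz'.choose_spec
  have hLtt : ∀ t, L y (tt (φ t y)) = L y t := by
    intro t
    have e := htt (φ t y) (h.f_flow t y)
    have e2 : φ (tt (φ t y) - t) y = y := by
      have : y = φ (-t) (φ t y) := by rw [← h.add, neg_add_cancel, h.zero]
      conv_rhs => rw [this]
      rw [← e, ← h.add]
      congr 1
      rw [e]
      ring
    have e3 := isVar_add hL h y t (tt (φ t y) - t)
    rw [e2, hP _ e2, zero_add] at e3
    rw [← e3]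
    congr 1
    ring
  refine ⟨fun z => c0 + L y (tt z), ?_, ?_⟩
  · rw [continuousOn_iff_isClosed]
    intro A hA
    have hcont : Continuous (fun t => c0 + L y t) := continuous_const.add hLc
    refine ⟨(fun t => φ t y) '' (Icc 0 T ∩ (fun t => c0 + L y t) ⁻¹' A), ?_, ?_⟩
    · exact ((isCompact_Icc.inter_right (hA.preimage hcont)).image (h.orbit_cont y)).isClosed
    · ext z
      constructor
      · rintro ⟨hz1, hz2⟩
        refine ⟨?_, hz2⟩
        obtain ⟨t, rfl⟩ := (h.fibre y z).1 (Eq.symm hz2)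
        have hz1' : c0 + L y t ∈ A := by
          have : c0 + L y (tt (φ t y)) ∈ A := hz1
          rwa [hLtt] at this
        have hperφ : Function.Periodic (fun t => φ t y) T := by
          intro s
          simp only
          rw [h.add, hT]
        have hper2 : Function.Periodic (fun t => (φ t y, L y t)) T := by
          intro s
          simp only
          rw [h.add, hT, hper s]
        obtain ⟨s', hs', hs''⟩ := hper2.exists_mem_Ico₀ hT0 t
        simp only [Prod.mk.injEq] at hs''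
        refine ⟨s', ⟨⟨hs'.1, hs'.2.le⟩, ?_⟩, hs''.1.symm⟩
        change c0 + L y s' ∈ A
        rw [← hs''.2]
        exact hz1'
      · rintro ⟨⟨t, ⟨-, ht⟩, rfl⟩, hz2⟩
        refine ⟨?_, hz2⟩
        change c0 + L y (tt (φ t y)) ∈ A
        rw [hLtt]
        exact ht
  · intro z hz
    rw [AddCircle.coe_add, hL.coe, htt z hz, hc0]
    abel

theorem null_of_fixed' {D : Y → T1} (h : QF φ f) {y : Y} (hy : ∀ t, φ t y = y) :
    Null f D (f y) := by
  have hz : ∀ z ∈ f ⁻¹' {f y}, z = y := by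
    intro z hz
    obtain ⟨t, rfl⟩ := (h.fibre y z).1 (Eq.symm hz)
    exact hy t
  refine ⟨fun _ => sm (D y), continuousOn_const, fun z hz' => ?_⟩
  rw [coe_sm, hz z hz']

theorem QF.not_null_nhds [T2Space Y] [NormalSpace Y] [LocallyCompactSpace Y] [T2Space N]
    (h : QF φ f) {D : Y → T1} (hD : Continuous D) {y0 : Y} (hc : IsCompact (f ⁻¹' {f y0}))
    (hN : ¬ Null f D (f y0)) : ∀ᶠ n in 𝓝 (f y0), ¬ Null f D n := by
  obtain ⟨L, hL⟩ := h.exists_var hD
  obtain ⟨T0, hT0, hper⟩ := h.periodic hc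
  have hLne : L y0 T0 ≠ 0 := fun h0 => hN (isVar_null_of_zero hL h hT0 hper h0)
  obtain ⟨d, hd⟩ : ∃ d : ℤ, (d : ℝ) = L y0 T0 := by
    rw [← coe_eq_zero, hL.coe, hper, sub_self]
  have hd0 : d ≠ 0 := by
    rintro rfl
    exact hLne (by rw [← hd]; simp)
  have hd1 : (1 : ℝ) ≤ |(d : ℝ)| := by
    have : 1 ≤ |d| := Int.one_le_abs hd0
    exact_mod_cast this
  have horb : ∀ z ∈ f ⁻¹' {f y0}, L z T0 = d := by
    intro z hz
    obtain ⟨s, rfl⟩ := (h.fibre y0 z).1 (Eq.symm hz)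
    have e1 := isVar_add hL h y0 T0 s
    have e2 := isVar_add hL h y0 s T0
    rw [hper, add_comm s T0, e1] at e2
    rw [hd]
    linarith
  have hTc : Continuous (fun z => L z T0) :=
    hL.cont.comp (by fun_prop : Continuous fun z : Y => (z, T0))
  have hO : IsOpen {z | |L z T0 - d| < 1 / 2} :=
    isOpen_lt (hTc.sub continuous_const).abs continuous_const
  obtain ⟨C, -, hCO, hev⟩ := h.stable hc hO (fun z hz => by
    change |L z T0 - d| < 1 / 2
    rw [horb z hz, sub_self, abs_zero]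
    norm_num)
  have hran : ∀ᶠ n in 𝓝 (f y0), n ∈ f '' univ := (h.fopen _ isOpen_univ).mem_nhds ⟨y0, trivial, rfl⟩
  filter_upwards [hev, hran, h.compact_nhds hc] with n hn hnr hnc hNull
  obtain ⟨y, -, rfl⟩ := hnr
  obtain ⟨l, hl, hlD⟩ := hNull
  obtain ⟨B, hB⟩ := hnc.exists_bound_of_continuousOn hl
  have hbd : ∀ t, |L y t| ≤ 2 * B := by
    intro t
    rw [isVar_orbit_eq hL h hl hlD]
    have h1 := hB (φ t y) (h.f_flow t y)
    have h2 := hB y rfl
    rw [Real.norm_eq_abs] at h1 h2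
    calc |l (φ t y) - l y| ≤ |l (φ t y)| + |l y| := abs_sub _ _
      _ ≤ 2 * B := by linarith
  have hk : ∀ k : ℕ, |L y (k * T0) - k * d| ≤ k / 2 := by
    intro k
    induction k with
    | zero => simp [hL.zero]
    | succ k ih =>
      have e : ((k + 1 : ℕ) : ℝ) * T0 = T0 + k * T0 := by push_cast; ring
      rw [e, isVar_add hL h]
      have h1 : |L (φ (k * T0) y) T0 - d| < 1 / 2 := hCO (hn (h.f_flow _ _))
      have h2 : L y (k * T0) + L (φ (k * T0) y) T0 - ((k + 1 : ℕ) : ℝ) * d =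
          (L y (k * T0) - k * d) + (L (φ (k * T0) y) T0 - d) := by push_cast; ring
      rw [h2]
      have h3 := abs_add_le (L y (k * T0) - k * d) (L (φ (k * T0) y) T0 - d)
      push_cast
      linarith
  obtain ⟨k, hk'⟩ := exists_nat_gt (4 * B)
  have h1 := hk k
  have h2 := hbd (k * T0)
  have h3 : |(k : ℝ) * d| ≤ |L y (k * T0)| + |L y (k * T0) - k * d| := by
    have := abs_sub_abs_le_abs_sub ((k : ℝ) * d) (L y (k * T0))
    rw [abs_sub_comm] at this
    linarith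
  rw [abs_mul, Nat.abs_cast] at h3
  have h4 : (k : ℝ) ≤ k * |(d : ℝ)| := by
    nlinarith [Nat.cast_nonneg (α := ℝ) k]
  linarith

theorem QF.slope_exists [T2Space Y] [NormalSpace Y] [LocallyCompactSpace Y] [T2Space N]
    (h : QF φ f) {D₁ D₂ : Y → T1} (hD₁ : Continuous D₁)
    (hD₂ : Continuous D₂) {y0 : Y} (hc : IsCompact (f ⁻¹' {f y0})) (hN : ¬ Null f D₁ (f y0)) :
    ∃ r : ℚ, ∀ᶠ n in 𝓝 (f y0), ¬ Null f D₁ n ∧ Null f (comb D₁ D₂ r) n := by
  obtain ⟨L₁, hL₁⟩ := h.exists_var hD₁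
  obtain ⟨L₂, hL₂⟩ := h.exists_var hD₂
  obtain ⟨T0, hT0, hper⟩ := h.periodic hc
  have hint : ∀ {D : Y → T1} {L : Y → ℝ → ℝ}, IsVar φ D L → ∀ y T, φ T y = y →
      ∃ d : ℤ, (d : ℝ) = L y T := by
    intro D L hL y T hT
    rw [← coe_eq_zero, hL.coe, hT, sub_self]
  obtain ⟨d₁, hd₁⟩ := hint hL₁ y0 T0 hper
  obtain ⟨d₂, hd₂⟩ := hint hL₂ y0 T0 hper
  have hd₁0 : d₁ ≠ 0 := by
    rintro rfl
    exact hN (isVar_null_of_zero hL₁ h hT0 hper (by rw [← hd₁]; simp))
  let r : ℚ := (d₂ : ℚ) / d₁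
  have hr : (r.den : ℝ) * d₂ - (r.num : ℝ) * d₁ = 0 := by
    have h1 : (r.num : ℚ) / r.den = (d₂ : ℚ) / d₁ := Rat.num_div_den r
    have hd : (r.den : ℚ) ≠ 0 := by exact_mod_cast r.den_nz
    have hd1 : (d₁ : ℚ) ≠ 0 := by exact_mod_cast hd₁0
    rw [div_eq_div_iff hd hd1] at h1
    have : (r.den : ℚ) * d₂ - (r.num : ℚ) * d₁ = 0 := by linarith
    exact_mod_cast this
  have hNr : Null f (comb D₁ D₂ r) (f y0) := by
    apply isVar_null_of_zero (comb_var hL₁ hL₂ r) h hT0 hper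
    rw [← hd₁, ← hd₂]
    exact hr
  exact ⟨r, (h.not_null_nhds hD₁ hc hN).and (h.val_cont (comb_cont hD₁ hD₂ r) hc hNr).2⟩

theorem QF.slope_unique [T2Space Y] [LocallyCompactSpace Y] [T2Space N] (h : QF φ f) {D₁ D₂ : Y → T1} (hD₁ : Continuous D₁)
    (hD₂ : Continuous D₂) {y0 : Y} (hc : IsCompact (f ⁻¹' {f y0})) (hN : ¬ Null f D₁ (f y0))
    {r r' : ℚ} (hr : Null f (comb D₁ D₂ r) (f y0)) (hr' : Null f (comb D₁ D₂ r') (f y0)) :
    r = r' := by
  obtain ⟨L₁, hL₁⟩ := h.exists_var hD₁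
  obtain ⟨L₂, hL₂⟩ := h.exists_var hD₂
  obtain ⟨T0, hT0, hper⟩ := h.periodic hc
  have e1 : (r.den : ℝ) * L₂ y0 T0 - (r.num : ℝ) * L₁ y0 T0 = 0 :=
    isVar_zero_of_null (comb_var hL₁ hL₂ r) h hr hper
  have e2 : (r'.den : ℝ) * L₂ y0 T0 - (r'.num : ℝ) * L₁ y0 T0 = 0 :=
    isVar_zero_of_null (comb_var hL₁ hL₂ r') h hr' hper
  have hL0 : L₁ y0 T0 ≠ 0 := fun h0 => hN (isVar_null_of_zero hL₁ h hT0 hper h0)
  have hd : (r.den : ℝ) ≠ 0 := by exact_mod_cast r.den_nz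
  have hd' : (r'.den : ℝ) ≠ 0 := by exact_mod_cast r'.den_nz
  have hx : ((r : ℚ) : ℝ) = ((r' : ℚ) : ℝ) := by
    rw [Rat.cast_def, Rat.cast_def, div_eq_div_iff hd hd']
    have : ((r.num : ℝ) * r'.den - r'.num * r.den) * L₁ y0 T0 = 0 := by
      linear_combination (r.den : ℝ) * e2 - (r'.den : ℝ) * e1
    rcases mul_eq_zero.1 this with h1 | h1
    · linarith
    · exact absurd h1 hL0
  exact_mod_cast hx

end Q177.Orb
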