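import Pool.Agent.Q177.OrbC

set_option autoImplicit false
open Set Topology Filter

namespace Q177.Orb
open Pool.Agent.H289R3.FQ (T1 sm coe_sm coe_eq_zero lift_unique Null val sSup_add_const null_nhds
  IsVar comb comb_cont comb_var PB ee shift)

variable {X F : Type*} [TopologicalSpace X] [TopologicalSpace F] {φ : ℝ → X → X} {f : X → F}


theorem bdata [TopologicalSpace.MetrizableSpace X] [LocallyCompactSpace X] [T2Space F]
    (h : QF φ f) {e : (Fin 5 → ℝ) → F} (he : Continuous e)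
    (hper : ∀ y j, e (y + ee j) = e y) (hsurj : ∀ y, ∃ x, f x = e y) {O : Set X} (hO : IsOpen O)
    {D₁ D₂ : X × (Fin 5 → ℝ) → T1}
    (hD₁ : ContinuousOn D₁ {p | p.1 ∈ O ∧ f p.1 = e p.2})
    (hD₂ : ContinuousOn D₂ {p | p.1 ∈ O ∧ f p.1 = e p.2})
    (ht₁ : ∀ x y, x ∈ O → f x = e y → ∀ j, D₁ (x, y + ee j) =
      D₁ (x, y) + (((if j = 4 then y 2 else 0 : ℝ)) : T1))
    (ht₂ : ∀ x y, x ∈ O → f x = e y → ∀ j, D₂ (x, y + ee j) =
      D₂ (x, y) + (((if j = 3 then y 2 else 0 : ℝ)) : T1))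
    {K : Set (Fin 5 → ℝ)} (hK : ∀ y ∈ K, IsCompact (f ⁻¹' {e y}) ∧ f ⁻¹' {e y} ⊆ O) :
    ∃ (B₀ B₁ : Set (Fin 5 → ℝ)) (g₀ g₁ : (Fin 5 → ℝ) → T1) (r : (Fin 5 → ℝ) → ℚ),
      IsOpen B₀ ∧ IsOpen B₁ ∧ Disjoint B₀ B₁ ∧ (∀ y j, y ∈ B₀ ↔ y + ee j ∈ B₀) ∧
      (∀ y j, y ∈ B₁ ↔ y + ee j ∈ B₁) ∧
      K ⊆ B₀ ∪ B₁ ∧
      ContinuousOn g₀ B₀ ∧ ContinuousOn g₁ B₁ ∧
      (∀ y ∈ B₀, ∀ j, g₀ (y + ee j) = g₀ y + (if j = 4 then ((y 2 : ℝ) : T1) else 0)) ∧
      (∀ y ∈ B₁, ∀ᶠ y' in 𝓝 y, r y' = r y) ∧ (∀ y ∈ B₁, ∀ j, r (y + ee j) = r y) ∧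
      (∀ y ∈ B₁, ∀ j, g₁ (y + ee j) = g₁ y + (if j = 3 then (((r y).den * y 2 : ℝ) : T1)
        else if j = 4 then ((-((r y).num * y 2) : ℝ) : T1) else 0)) := by
  classical
  have h' := h.pull he
  have : LocallyCompactSpace (PB f e) :=
    ((isClosed_eq (h.fcont.comp continuous_fst) (he.comp continuous_snd)).isClosedEmbedding_subtypeVal
      ).locallyCompactSpace
  set fY : PB f e → (Fin 5 → ℝ) := fun p => p.1.2 with hfY
  have hsurjY : ∀ n, ∃ p : PB f e, fY p = n := by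
    intro n
    obtain ⟨x, hx⟩ := hsurj n
    exact ⟨⟨(x, n), hx⟩, rfl⟩
  have hOY : IsOpen {p : PB f e | p.1.1 ∈ O} :=
    hO.preimage (continuous_fst.comp continuous_subtype_val)
  set N0 : Set (Fin 5 → ℝ) := {n | IsCompact (fY ⁻¹' {n}) ∧ fY ⁻¹' {n} ⊆ {p | p.1.1 ∈ O}} with hN0d
  have hN0 : IsOpen N0 := by
    rw [isOpen_iff_mem_nhds]
    intro n hn
    obtain ⟨p, rfl⟩ := hsurjY n
    obtain ⟨L, -, hLO, hev⟩ := h'.stable hn.1 hOY hn.2
    filter_upwards [h'.compact_nhds hn.1, hev] with m hm hm'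
    exact ⟨hm, hm'.trans hLO⟩
  have h0 := h'.restrict hN0
  have : LocallyCompactSpace {p : PB f e // fY p ∈ N0} :=
    (hN0.preimage h'.fcont).locallyCompactSpace
  set f0 : {p : PB f e // fY p ∈ N0} → (Fin 5 → ℝ) := fun p => fY p.1 with hf0
  have hc0 : ∀ n ∈ N0, IsCompact (f0 ⁻¹' {n}) := by
    intro n hn
    rw [Subtype.isCompact_iff]
    have : Subtype.val '' (f0 ⁻¹' {n}) = fY ⁻¹' {n} := by
      ext p
      constructor
      · rintro ⟨q, hq, rfl⟩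
        exact hq
      · intro hp
        have hp' : fY p = n := hp
        exact ⟨⟨p, by rw [hp']; exact hn⟩, hp, rfl⟩
    rw [this]
    exact hn.1
  have hsurj0 : ∀ n ∈ N0, ∃ p, f0 p = n := by
    intro n hn
    obtain ⟨p, rfl⟩ := hsurjY n
    exact ⟨⟨p, hn⟩, rfl⟩
  have hf0N : ∀ p, f0 p ∈ N0 := fun p => p.2
  have hmemO : ∀ z : {p : PB f e // fY p ∈ N0}, z.1.1.1 ∈ O := fun z => z.2.2 rfl
  let E₁ : {p : PB f e // fY p ∈ N0} → T1 := fun z => D₁ z.1.1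
  let E₂ : {p : PB f e // fY p ∈ N0} → T1 := fun z => D₂ z.1.1
  have hE₁ : Continuous E₁ := hD₁.comp_continuous
    (continuous_subtype_val.comp continuous_subtype_val) (fun z => ⟨hmemO z, z.1.2⟩)
  have hE₂ : Continuous E₂ := hD₂.comp_continuous
    (continuous_subtype_val.comp continuous_subtype_val) (fun z => ⟨hmemO z, z.1.2⟩)
  -- translations
  have hshN : ∀ (j : Fin 5) (n : Fin 5 → ℝ), n ∈ N0 ↔ n + ee j ∈ N0 := by
    intro j n
    have himg : fY ⁻¹' {n + ee j} = shift (f := f) (ee j) (fun y => hper y j) '' (fY ⁻¹' {n}) := by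
      ext p
      constructor
      · intro hp
        refine ⟨(shift (f := f) (ee j) (fun y => hper y j)).symm p, ?_, Homeomorph.apply_symm_apply _ _⟩
        change p.1.2 - ee j = n
        have : p.1.2 = n + ee j := hp
        rw [this, add_sub_cancel_right]
      · rintro ⟨q, hq, rfl⟩
        change q.1.2 + ee j = n + ee j
        have : q.1.2 = n := hq
        rw [this]
    have hc : IsCompact (fY ⁻¹' {n + ee j}) ↔ IsCompact (fY ⁻¹' {n}) := by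
      rw [himg, Homeomorph.isCompact_image]
    have hs : fY ⁻¹' {n + ee j} ⊆ {p | p.1.1 ∈ O} ↔ fY ⁻¹' {n} ⊆ {p | p.1.1 ∈ O} := by
      rw [himg]
      exact image_subset_iff
    rw [hN0d, mem_ofPred_eq, mem_ofPred_eq, hc, hs]
  have hτ : ∀ j : Fin 5, ∃ τ : {p : PB f e // fY p ∈ N0} ≃ₜ {p : PB f e // fY p ∈ N0},
      ∀ z, (τ z).1.1 = (z.1.1.1, z.1.1.2 + ee j) := by
    intro j
    refine ⟨(shift (f := f) (ee j) (fun y => hper y j)).subtype (fun p => hshN j (fY p)), fun z => rfl⟩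
  have hcomb : ∀ (j : Fin 5) (n : Fin 5 → ℝ), n ∈ N0 → ∀ (D : {p : PB f e // fY p ∈ N0} → T1) (c : ℝ),
      (∀ τ : {p : PB f e // fY p ∈ N0} ≃ₜ {p : PB f e // fY p ∈ N0},
        (∀ z, (τ z).1.1 = (z.1.1.1, z.1.1.2 + ee j)) → ∀ z ∈ f0 ⁻¹' {n}, D (τ z) = D z + (c : T1)) →
      (Null f0 D n ↔ Null f0 D (n + ee j)) ∧
        (Null f0 D n → val f0 D (n + ee j) = val f0 D n + (c : T1)) := by
    intro j n hn D c hD
    obtain ⟨τ, hτj⟩ := hτ j
    have hfτ : ∀ z, f0 (τ z) = f0 z + ee j := fun z => by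
      change (τ z).1.1.2 = _
      rw [hτj]
    have hiff : ∀ z, f0 z = n ↔ f0 (τ z) = n + ee j := by
      intro z
      rw [hfτ]
      exact (add_left_inj _).symm
    have hn' := (hshN j n).1 hn
    have key := fun hN => h0.val_translate (D := D) (hc0 n hn) (hc0 _ hn') (hsurj0 n hn) τ hiff
      (hD τ hτj) hN
    refine ⟨⟨fun hN => (key hN).1, fun hN => ?_⟩, fun hN => (key hN).2⟩
    refine (h0.val_translate (D := D) (n := n + ee j) (n' := n) (hc0 _ hn') (hc0 n hn)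
      (hsurj0 _ hn') τ.symm ?_ (c := -c) ?_ hN).1
    · intro z
      rw [hiff, τ.apply_symm_apply]
    · intro z hz
      have hz' : τ.symm z ∈ f0 ⁻¹' {n} := by
        change f0 (τ.symm z) = n
        rw [hiff, τ.apply_symm_apply]
        exact hz
      have := hD τ hτj (τ.symm z) hz'
      rw [τ.apply_symm_apply] at this
      rw [this, AddCircle.coe_neg]
      abel
  have hE₁τ : ∀ (j : Fin 5) (n : Fin 5 → ℝ) (τ : {p : PB f e // fY p ∈ N0} ≃ₜ {p : PB f e // fY p ∈ N0}),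
      (∀ z, (τ z).1.1 = (z.1.1.1, z.1.1.2 + ee j)) → ∀ z ∈ f0 ⁻¹' {n},
        E₁ (τ z) = E₁ z + (((if j = 4 then n 2 else 0 : ℝ)) : T1) := by
    intro j n τ hτj z hz
    change D₁ (τ z).1.1 = _
    rw [hτj, ht₁ _ _ (hmemO z) z.1.2 j]
    have hz' : z.1.1.2 = n := hz
    rw [hz']
    rw [← hz']
  have hE₂τ : ∀ (j : Fin 5) (n : Fin 5 → ℝ) (τ : {p : PB f e // fY p ∈ N0} ≃ₜ {p : PB f e // fY p ∈ N0}),
      (∀ z, (τ z).1.1 = (z.1.1.1, z.1.1.2 + ee j)) → ∀ z ∈ f0 ⁻¹' {n},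
        E₂ (τ z) = E₂ z + (((if j = 3 then n 2 else 0 : ℝ)) : T1) := by
    intro j n τ hτj z hz
    change D₂ (τ z).1.1 = _
    rw [hτj, ht₂ _ _ (hmemO z) z.1.2 j]
    have hz' : z.1.1.2 = n := hz
    rw [hz']
    rw [← hz']
  have hE₁n : ∀ (j : Fin 5) (n : Fin 5 → ℝ), n ∈ N0 → (Null f0 E₁ n ↔ Null f0 E₁ (n + ee j)) ∧
      (Null f0 E₁ n → val f0 E₁ (n + ee j) = val f0 E₁ n + (((if j = 4 then n 2 else 0 : ℝ)) : T1)) :=
    fun j n hn => hcomb j n hn E₁ _ (hE₁τ j n)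
  have hcτ : ∀ (r : ℚ) (j : Fin 5) (n : Fin 5 → ℝ), n ∈ N0 →
      (Null f0 (comb E₁ E₂ r) n ↔ Null f0 (comb E₁ E₂ r) (n + ee j)) ∧
      (Null f0 (comb E₁ E₂ r) n → val f0 (comb E₁ E₂ r) (n + ee j) = val f0 (comb E₁ E₂ r) n +
        (((r.den * (if j = 3 then n 2 else 0) - r.num * (if j = 4 then n 2 else 0) : ℝ)) : T1)) := by
    intro r j n hn
    apply hcomb j n hn
    intro τ hτj z hz
    simp only [comb]
    rw [hE₁τ j n τ hτj z hz, hE₂τ j n τ hτj z hz]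
    have e1 : (((r.den : ℝ) * (if j = 3 then n 2 else 0 : ℝ) : ℝ) : T1) =
        (r.den : ℤ) • (((if j = 3 then n 2 else 0 : ℝ)) : T1) := by
      rw [← AddCircle.coe_zsmul, zsmul_eq_mul]
      push_cast
      rfl
    have e2 : (((r.num : ℝ) * (if j = 4 then n 2 else 0 : ℝ) : ℝ) : T1) =
        r.num • (((if j = 4 then n 2 else 0 : ℝ)) : T1) := by
      rw [← AddCircle.coe_zsmul, zsmul_eq_mul]
    rw [AddCircle.coe_sub, e1, e2, zsmul_add, zsmul_add]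
    abel
  -- the slope
  let r : (Fin 5 → ℝ) → ℚ := fun n => if hh : ∃ r, Null f0 (comb E₁ E₂ r) n then hh.choose else 0
  have hru : ∀ n ∈ N0, ¬ Null f0 E₁ n → ∀ s, Null f0 (comb E₁ E₂ s) n → r n = s := by
    intro n hn hN s hs
    obtain ⟨p, rfl⟩ := hsurj0 n hn
    have hh : ∃ r, Null f0 (comb E₁ E₂ r) (f0 p) := ⟨s, hs⟩
    have : r (f0 p) = hh.choose := by simp only [r, hh, dif_pos]
    rw [this]
    exact h0.slope_unique hE₁ hE₂ (hc0 _ hn) hN hh.choose_spec hs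
  have hrex : ∀ n ∈ N0, ¬ Null f0 E₁ n → ∀ᶠ n' in 𝓝 n, n' ∈ N0 ∧ ¬ Null f0 E₁ n' ∧
      Null f0 (comb E₁ E₂ (r n)) n' ∧ r n' = r n := by
    intro n hn hN
    obtain ⟨p, rfl⟩ := hsurj0 n hn
    obtain ⟨s, hs⟩ := h0.slope_exists hE₁ hE₂ (hc0 _ hn) hN
    have hrs : r (f0 p) = s := hru _ hn hN s hs.self_of_nhds.2
    filter_upwards [hs, hN0.mem_nhds hn] with n' hn' hn'0
    rw [hrs]
    exact ⟨hn'0, hn'.1, hn'.2, hru _ hn'0 hn'.1 s hn'.2⟩
  refine ⟨{n | n ∈ N0 ∧ Null f0 E₁ n}, {n | n ∈ N0 ∧ ¬ Null f0 E₁ n}, val f0 E₁,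
    fun n => val f0 (comb E₁ E₂ (r n)) n, r, ?_, ?_, ?_, ?_, ?_, ?_, ?_, ?_, ?_, ?_, ?_, ?_⟩
  · rw [isOpen_iff_mem_nhds]
    rintro n ⟨hn, hN⟩
    obtain ⟨p, rfl⟩ := hsurj0 n hn
    filter_upwards [hN0.mem_nhds hn, (h0.val_cont hE₁ (hc0 _ hn) hN).2] with m hm hm'
    exact ⟨hm, hm'⟩
  · rw [isOpen_iff_mem_nhds]
    rintro n ⟨hn, hN⟩
    filter_upwards [hrex n hn hN] with m hm
    exact ⟨hm.1, hm.2.1⟩
  · rw [Set.disjoint_left]
    rintro n ⟨-, h1⟩ ⟨-, h2⟩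
    exact h2 h1
  · intro y j
    simp only [mem_ofPred_eq]
    rw [← hshN j y]
    constructor
    · rintro ⟨h1, h2⟩
      exact ⟨h1, (hE₁n j y h1).1.1 h2⟩
    · rintro ⟨h1, h2⟩
      exact ⟨h1, (hE₁n j y h1).1.2 h2⟩
  · intro y j
    simp only [mem_ofPred_eq]
    rw [← hshN j y]
    constructor
    · rintro ⟨h1, h2⟩
      exact ⟨h1, fun h3 => h2 ((hE₁n j y h1).1.2 h3)⟩
    · rintro ⟨h1, h2⟩
      exact ⟨h1, fun h3 => h2 ((hE₁n j y h1).1.1 h3)⟩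
  · intro y hy
    obtain ⟨hy1, hy2⟩ := hK y hy
    have hyN : y ∈ N0 := by
      have himg : fY ⁻¹' {y} = Set.range (fun x : (f ⁻¹' {e y}) => (⟨(x.1, y), x.2⟩ : PB f e)) := by
        ext p
        constructor
        · intro hp
          have hp' : p.1.2 = y := hp
          refine ⟨⟨p.1.1, ?_⟩, ?_⟩
          · change f p.1.1 = e y
            rw [p.2, hp']
          · apply Subtype.ext
            exact Prod.ext rfl hp'.symm
        · rintro ⟨x, rfl⟩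
          rfl
      refine ⟨?_, ?_⟩
      · rw [himg]
        have := isCompact_iff_compactSpace.1 hy1
        apply isCompact_range
        apply Continuous.subtype_mk
        exact continuous_subtype_val.prodMk continuous_const
      · rw [himg]
        rintro _ ⟨x, rfl⟩
        exact hy2 x.2
    by_cases hN : Null f0 E₁ y
    · exact Or.inl ⟨hyN, hN⟩
    · exact Or.inr ⟨hyN, hN⟩
  · rintro n ⟨hn, hN⟩
    obtain ⟨p, rfl⟩ := hsurj0 n hn
    exact (h0.val_cont hE₁ (hc0 _ hn) hN).1.continuousWithinAt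
  · rintro n ⟨hn, hN⟩
    have hev := hrex n hn hN
    have hNn := hev.self_of_nhds.2.2.1
    obtain ⟨p, rfl⟩ := hsurj0 n hn
    have hc := (h0.val_cont (comb_cont hE₁ hE₂ (r (f0 p))) (hc0 _ hn) hNn).1
    apply ContinuousAt.continuousWithinAt
    apply hc.congr
    filter_upwards [hev] with m hm
    rw [hm.2.2.2]
  · rintro y ⟨hy, hN⟩ j
    rw [(hE₁n j y hy).2 hN]
    split_ifs <;> simp
  · rintro y ⟨hy, hN⟩
    filter_upwards [hrex y hy hN] with m hm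
    exact hm.2.2.2
  · rintro y ⟨hy, hN⟩ j
    have hNn := (hrex y hy hN).self_of_nhds.2.2.1
    exact hru _ ((hshN j y).1 hy) (fun h3 => hN ((hE₁n j y hy).1.2 h3)) _
      ((hcτ (r y) j y hy).1.1 hNn)
  · rintro y ⟨hy, hN⟩ j
    have hNn := (hrex y hy hN).self_of_nhds.2.2.1
    have hr : r (y + ee j) = r y := hru _ ((hshN j y).1 hy) (fun h3 => hN ((hE₁n j y hy).1.2 h3)) _
      ((hcτ (r y) j y hy).1.1 hNn)
    simp only [hr]
    rw [(hcτ (r y) j y hy).2 hNn]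
    congr 1
    by_cases h3 : j = 3
    · subst h3
      simp
    · by_cases h4 : j = 4
      · subst h4
        simp
      · simp [h3, h4]

end Q177.Orb
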