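import Pool.Agent.Q177.OrbD
import Pool.Agent.H289R3.FQ.Main

/-!
# Lifting maps through the Hopf fibration
-/

set_option autoImplicit false
open Set Topology Filter

namespace Q177.Orb
open Pool.Agent.H289R3.FQ (T1 ang ang_cont ee)
open Complex (I normSq)
open ComplexConjugate

/-- the Hopf map `ℂ² → ℂ × ℝ` -/
noncomputable def hopf (z : ℂ × ℂ) : ℂ × ℝ := (2 * z.1 * conj z.2, normSq z.1 - normSq z.2)

/-- the Hermitian product -/
noncomputable def ip (u z : ℂ × ℂ) : ℂ := u.1 * conj z.1 + u.2 * conj z.2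

/-- the Euclidean inner product of `ℂ × ℝ = ℝ³` -/
def dt (v w : ℂ × ℝ) : ℝ := v.1.re * w.1.re + v.1.im * w.1.im + v.2 * w.2

/-- squared norm of `ℂ²` -/
def nq (z : ℂ × ℂ) : ℝ := normSq z.1 + normSq z.2

noncomputable def nr (v : ℂ × ℝ) : ℝ := Real.sqrt (dt v v)

/-- (twice) the projection on the line belonging to `v` -/
noncomputable def pj (v : ℂ × ℝ) (z : ℂ × ℂ) : ℂ × ℂ :=
  (((nr v + v.2 : ℝ) : ℂ) * z.1 + v.1 * z.2, conj v.1 * z.1 + ((nr v - v.2 : ℝ) : ℂ) * z.2)

theorem hopf_cont : Continuous hopf := by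
  unfold hopf
  refine Continuous.prodMk ?_ ?_
  · exact (continuous_const.mul continuous_fst).mul (Complex.continuous_conj.comp continuous_snd)
  · exact (Complex.continuous_normSq.comp continuous_fst).sub
      (Complex.continuous_normSq.comp continuous_snd)

theorem ip_cont : Continuous (fun p : (ℂ × ℂ) × (ℂ × ℂ) => ip p.1 p.2) := by
  unfold ip
  have h1 : Continuous (fun p : (ℂ × ℂ) × (ℂ × ℂ) => conj p.2.1) :=
    Complex.continuous_conj.comp (continuous_fst.comp continuous_snd)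
  have h2 : Continuous (fun p : (ℂ × ℂ) × (ℂ × ℂ) => conj p.2.2) :=
    Complex.continuous_conj.comp (continuous_snd.comp continuous_snd)
  exact ((continuous_fst.comp continuous_fst).mul h1).add
    ((continuous_snd.comp continuous_fst).mul h2)

theorem dt_cont : Continuous (fun p : (ℂ × ℝ) × (ℂ × ℝ) => dt p.1 p.2) := by
  unfold dt
  fun_prop

theorem nr_cont : Continuous nr := by
  unfold nr dt
  fun_prop

theorem pj_cont : Continuous (fun p : (ℂ × ℝ) × (ℂ × ℂ) => pj p.1 p.2) := by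
  unfold pj
  have h0 := nr_cont
  have h1 : Continuous (fun p : (ℂ × ℝ) × (ℂ × ℂ) => nr p.1) := nr_cont.comp continuous_fst
  have h2 : Continuous (fun p : (ℂ × ℝ) × (ℂ × ℂ) => conj p.1.1) :=
    Complex.continuous_conj.comp (continuous_fst.comp continuous_fst)
  fun_prop

theorem dt_self (v : ℂ × ℝ) : dt v v = normSq v.1 + v.2 ^ 2 := by
  unfold dt
  rw [Complex.normSq_apply]
  ring

theorem dt_self_nonneg (v : ℂ × ℝ) : 0 ≤ dt v v := by
  rw [dt_self]
  positivity [Complex.normSq_nonneg v.1]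

theorem dt_self_pos {v : ℂ × ℝ} (hv : v ≠ 0) : 0 < dt v v := by
  rw [dt_self]
  have h1 := Complex.normSq_nonneg v.1
  have h2 := sq_nonneg v.2
  rcases eq_or_lt_of_le h1 with h | h
  · have hv1 : v.1 = 0 := Complex.normSq_eq_zero.1 h.symm
    have hv2 : v.2 ≠ 0 := fun h2 => hv (Prod.ext hv1 h2)
    positivity
  · linarith

theorem nr_sq (v : ℂ × ℝ) : nr v ^ 2 = dt v v := Real.sq_sqrt (dt_self_nonneg v)

theorem nr_nonneg (v : ℂ × ℝ) : 0 ≤ nr v := Real.sqrt_nonneg _

theorem nr_pos {v : ℂ × ℝ} (hv : v ≠ 0) : 0 < nr v := Real.sqrt_pos.2 (dt_self_pos hv)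

theorem nq_nonneg (z : ℂ × ℂ) : 0 ≤ nq z :=
  add_nonneg (Complex.normSq_nonneg _) (Complex.normSq_nonneg _)

theorem nq_eq_zero {z : ℂ × ℂ} (h : nq z = 0) : z = 0 := by
  unfold nq at h
  have h1 := Complex.normSq_nonneg z.1
  have h2 := Complex.normSq_nonneg z.2
  exact Prod.ext (Complex.normSq_eq_zero.1 (by linarith)) (Complex.normSq_eq_zero.1 (by linarith))

theorem dt_hopf (z : ℂ × ℂ) : dt (hopf z) (hopf z) = nq z ^ 2 := by
  simp only [dt, hopf, nq, Complex.normSq_apply, Complex.mul_re, Complex.mul_im, Complex.conj_re,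
    Complex.conj_im, Complex.re_ofNat, Complex.im_ofNat]
  ring

theorem nr_hopf (z : ℂ × ℂ) : nr (hopf z) = nq z := by
  unfold nr
  rw [dt_hopf, Real.sqrt_sq (nq_nonneg z)]

theorem normSq_ip (u z : ℂ × ℂ) : 2 * normSq (ip u z) = nq u * nq z + dt (hopf u) (hopf z) := by
  simp only [dt, hopf, nq, ip, Complex.normSq_apply, Complex.mul_re, Complex.mul_im, Complex.conj_re,
    Complex.conj_im, Complex.re_ofNat, Complex.im_ofNat, Complex.add_re, Complex.add_im]
  ring

theorem nq_pj (v : ℂ × ℝ) (z : ℂ × ℂ) : nq (pj v z) = 2 * nr v * (nr v * nq z + dt v (hopf z)) := by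
  have h := nr_sq v
  simp only [dt] at h
  simp only [dt, hopf, nq, pj, Complex.normSq_apply, Complex.mul_re, Complex.mul_im, Complex.conj_re,
    Complex.conj_im, Complex.re_ofNat, Complex.im_ofNat, Complex.add_re, Complex.add_im,
    Complex.ofReal_re, Complex.ofReal_im]
  linear_combination (-(z.1.re ^ 2 + z.1.im ^ 2 + z.2.re ^ 2 + z.2.im ^ 2)) * h

theorem hopf_pj (v : ℂ × ℝ) (z : ℂ × ℂ) :
    nr v • hopf (pj v z) = nq (pj v z) • v := by
  have h := nr_sq v
  simp only [dt] at h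
  refine Prod.ext (Complex.ext ?_ ?_) ?_
  · simp only [hopf, nq, pj, Complex.normSq_apply, Complex.mul_re, Complex.mul_im, Complex.conj_re,
      Complex.conj_im, Complex.re_ofNat, Complex.im_ofNat, Complex.add_re, Complex.add_im,
      Complex.ofReal_re, Complex.ofReal_im, Prod.smul_mk, Prod.smul_fst,
      Complex.real_smul, smul_eq_mul]
    linear_combination ((2) * nr v * z.1.re * z.2.re + (2) * nr v * z.1.im * z.2.im +
      (1) * v.1.re * z.1.re * z.1.re + (1) * v.1.re * z.2.re * z.2.re +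
      (1) * v.1.re * z.1.im * z.1.im + (1) * v.1.re * z.2.im * z.2.im) * h
  · simp only [hopf, nq, pj, Complex.normSq_apply, Complex.mul_re, Complex.mul_im, Complex.conj_re,
      Complex.conj_im, Complex.re_ofNat, Complex.im_ofNat, Complex.add_re, Complex.add_im,
      Complex.ofReal_re, Complex.ofReal_im, Prod.smul_mk, Prod.smul_fst,
      Complex.real_smul, smul_eq_mul]
    linear_combination ((2) * nr v * z.1.im * z.2.re + (-2) * nr v * z.1.re * z.2.im +
      (1) * v.1.im * z.1.im * z.1.im + (1) * v.1.im * z.2.re * z.2.re +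
      (1) * v.1.im * z.1.re * z.1.re + (1) * v.1.im * z.2.im * z.2.im) * h
  · simp only [hopf, nq, pj, Complex.normSq_apply, Complex.mul_re, Complex.mul_im, Complex.conj_re,
      Complex.conj_im, Complex.add_re, Complex.add_im,
      Complex.ofReal_re, Complex.ofReal_im, Prod.smul_mk, Prod.smul_snd, smul_eq_mul]
    linear_combination ((1) * nr v * z.1.re * z.1.re + (1) * nr v * z.1.im * z.1.im +
      (-1) * nr v * z.2.re * z.2.re + (-1) * nr v * z.2.im * z.2.im +
      (1) * v.2 * z.1.re * z.1.re + (1) * v.2 * z.1.im * z.1.im +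
      (1) * v.2 * z.2.re * z.2.re + (1) * v.2 * z.2.im * z.2.im) * h

/-- `z` lies over `v` (up to a positive factor) -/
def Ov (z : ℂ × ℂ) (v : ℂ × ℝ) : Prop := z ≠ 0 ∧ ∃ c : ℝ, 0 < c ∧ hopf z = c • v

theorem dt_smul_right (v w : ℂ × ℝ) (c : ℝ) : dt v (c • w) = c * dt v w := by
  simp only [dt, Prod.smul_fst, Prod.smul_snd, Complex.real_smul, Complex.mul_re, Complex.mul_im,
    Complex.ofReal_re, Complex.ofReal_im, smul_eq_mul]
  ring

theorem nq_pos {z : ℂ × ℂ} (h : z ≠ 0) : 0 < nq z :=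
  lt_of_le_of_ne (nq_nonneg z) fun h0 => h (nq_eq_zero h0.symm)

theorem ov_of_pj {v : ℂ × ℝ} (hv : v ≠ 0) {z : ℂ × ℂ} (h : 0 < nr v * nq z + dt v (hopf z)) :
    Ov (pj v z) v := by
  have h1 : 0 < nq (pj v z) := by
    rw [nq_pj]
    have := nr_pos hv
    positivity
  refine ⟨?_, nq (pj v z) / nr v, div_pos h1 (nr_pos hv), ?_⟩
  · intro h0
    rw [h0] at h1
    simp [nq] at h1
  · have := hopf_pj v z
    rw [div_eq_inv_mul, mul_smul, ← this, smul_smul, inv_mul_cancel₀ (nr_pos hv).ne', one_smul]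

theorem Ov.step {z : ℂ × ℂ} {v w : ℂ × ℝ} (h : Ov z v) (hw : w ≠ 0) (hvw : 0 < dt w v) :
    Ov (pj w z) w := by
  obtain ⟨hz, c, hc, he⟩ := h
  apply ov_of_pj hw
  rw [he, dt_smul_right]
  have h1 := nq_pos hz
  have h2 := nr_pos hw
  positivity

theorem exists_ov {v : ℂ × ℝ} (hv : v ≠ 0) : ∃ z, Ov z v := by
  have e1 : nr v * nq (1, 0) + dt v (hopf (1, 0)) = nr v + v.2 := by
    simp [nq, dt, hopf]
  have e2 : nr v * nq (0, 1) + dt v (hopf (0, 1)) = nr v - v.2 := by
    simp [nq, dt, hopf]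
    ring
  rcases le_total 0 v.2 with h | h
  · refine ⟨_, ov_of_pj hv (z := (1, 0)) ?_⟩
    rw [e1]
    linarith [nr_pos hv]
  · refine ⟨_, ov_of_pj hv (z := (0, 1)) ?_⟩
    rw [e2]
    linarith [nr_pos hv]

theorem ip_ne_zero {u z : ℂ × ℂ} {v : ℂ × ℝ} (hu : u ≠ 0) (huv : hopf u = v) (h : Ov z v) :
    ip u z ≠ 0 := by
  obtain ⟨hz, c, hc, he⟩ := h
  have h1 := normSq_ip u z
  rw [he, huv, dt_smul_right, ← huv, dt_hopf] at h1
  intro h0
  rw [h0, map_zero, mul_zero] at h1
  have h2 := nq_pos hu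
  have h3 := nq_pos hz
  have : 0 < nq u * nq z + c * nq u ^ 2 := by positivity
  linarith

/-- lifting of maps of a ball -/
theorem exists_lift {E : Type} [NormedAddCommGroup E] [NormedSpace ℝ E] [ProperSpace E]
    (g : E → ℂ × ℝ) (hg : Continuous g) (h0 : ∀ x, g x ≠ 0) (R : ℝ) :
    ∃ Z : E → ℂ × ℂ, Continuous Z ∧ ∀ x, ‖x‖ ≤ R → Ov (Z x) (g x) := by
  obtain ⟨z0, hz0⟩ := exists_ov (h0 0)
  -- a fine subdivision
  obtain ⟨n, hn0, hn⟩ : ∃ n : ℕ, 0 < n ∧ ∀ x, ‖x‖ ≤ R → ∀ k : ℕ, k < n →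
      0 < dt (g (((k + 1 : ℕ) / n : ℝ) • x)) (g ((k / n : ℝ) • x)) := by
    have hK : IsCompact (Metric.closedBall (0 : E) R ×ˢ (Icc (0 : ℝ) 1)) :=
      (isCompact_closedBall _ _).prod isCompact_Icc
    let F : E × ℝ → ℝ → ℝ := fun p s => dt (g ((p.2 + s) • p.1)) (g (p.2 • p.1))
    have hF : Continuous (fun q : (E × ℝ) × ℝ => F q.1 q.2) := by
      have e1 : Continuous (fun q : (E × ℝ) × ℝ => g ((q.1.2 + q.2) • q.1.1)) :=
        hg.comp (by fun_prop)
      have e2 : Continuous (fun q : (E × ℝ) × ℝ => g (q.1.2 • q.1.1)) := hg.comp (by fun_prop)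
      exact dt_cont.comp (e1.prodMk e2)
    have hopen : IsOpen {q : (E × ℝ) × ℝ | 0 < F q.1 q.2} := isOpen_lt continuous_const hF
    have hsub : (Metric.closedBall (0 : E) R ×ˢ (Icc (0 : ℝ) 1)) ×ˢ ({0} : Set ℝ) ⊆
        {q : (E × ℝ) × ℝ | 0 < F q.1 q.2} := by
      rintro ⟨p, s⟩ ⟨-, hs⟩
      have hs' : s = 0 := hs
      subst hs'
      change 0 < dt (g ((p.2 + 0) • p.1)) (g (p.2 • p.1))
      rw [add_zero]
      exact dt_self_pos (h0 _)
    obtain ⟨U, V, -, hV, hU, h0V, hUV⟩ := generalized_tube_lemma hK isCompact_singleton hopen hsub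
    obtain ⟨ε, hε, hεV⟩ := Metric.isOpen_iff.1 hV 0 (h0V rfl)
    obtain ⟨n, hn⟩ := exists_nat_gt (1 / ε)
    have hn0 : (0 : ℝ) < n := lt_trans (by positivity) hn
    refine ⟨n, by exact_mod_cast hn0, fun x hx k hk => ?_⟩
    have h1 : ((x, (k / n : ℝ)), (1 / n : ℝ)) ∈ U ×ˢ V := by
      refine ⟨hU ⟨by simpa using hx, by positivity, ?_⟩, hεV ?_⟩
      · rw [div_le_one hn0]
        exact_mod_cast hk.le
      · rw [Metric.mem_ball, Real.dist_eq, sub_zero, abs_of_pos (by positivity), one_div]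
        rw [one_div] at hn
        exact inv_lt_of_inv_lt₀ hε hn
    have h2 := hUV h1
    change 0 < dt (g ((k / n + 1 / n : ℝ) • x)) (g ((k / n : ℝ) • x)) at h2
    have e : (((k + 1 : ℕ) : ℝ) / n) = k / n + 1 / n := by push_cast; ring
    rw [e]
    exact h2
  let Z : ℕ → E → ℂ × ℂ := fun k => Nat.rec (fun _ => z0)
    (fun k Zk x => pj (g (((k + 1 : ℕ) / n : ℝ) • x)) (Zk x)) k
  have hZs : ∀ k x, Z (k + 1) x = pj (g (((k + 1 : ℕ) / n : ℝ) • x)) (Z k x) := fun k x => rfl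
  have hZc : ∀ k, Continuous (Z k) := by
    intro k
    induction k with
    | zero => exact continuous_const
    | succ k ih =>
      have : Z (k + 1) = fun x => pj (g (((k + 1 : ℕ) / n : ℝ) • x)) (Z k x) := rfl
      rw [this]
      exact pj_cont.comp ((hg.comp (continuous_const.smul continuous_id)).prodMk ih)
  have hZo : ∀ k ≤ n, ∀ x, ‖x‖ ≤ R → Ov (Z k x) (g ((k / n : ℝ) • x)) := by
    intro k
    induction k with
    | zero =>
      intro _ x _
      simp only [Nat.cast_zero, zero_div, zero_smul]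
      exact hz0
    | succ k ih =>
      intro hk x hx
      rw [hZs]
      exact (ih (by omega) x hx).step (h0 _) (hn x hx k (by omega))
  refine ⟨Z n, hZc n, fun x hx => ?_⟩
  have := hZo n le_rfl x hx
  rwa [div_self (by exact_mod_cast hn0.ne'), one_smul] at this

/-! ### the sections over the torus -/

/-- `exp (2 π i x)` -/
noncomputable def E1 (x : ℝ) : ℂ := Circle.exp (2 * Real.pi * x)

theorem E1_cont : Continuous E1 := by unfold E1; fun_prop

theorem E1_add (x y : ℝ) : E1 (x + y) = E1 x * E1 y := by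
  unfold E1
  rw [mul_add, Circle.exp_add, Circle.coe_mul]

theorem E1_int (n : ℤ) : E1 n = 1 := by
  unfold E1
  have : Circle.exp (2 * Real.pi * (n : ℝ)) = 1 := by
    rw [mul_comm]
    exact Circle.exp_int_mul_two_pi n
  rw [this]
  rfl

theorem E1_ne (x : ℝ) : E1 x ≠ 0 := Circle.coe_ne_zero _

theorem E1_normSq (x : ℝ) : normSq (E1 x) = 1 := by
  unfold E1
  exact Circle.normSq_coe _

theorem ang_E1 (s : ℝ) {w : ℂ} (hw : w ≠ 0) : ang (E1 s * w) = ang w + ((s : ℝ) : T1) := by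
  have key : ∀ z : ℂ, z ≠ 0 → ∀ θ : T1, (AddCircle.toCircle θ : ℂ) = z / ‖z‖ → ang z = θ := by
    intro z hz θ hθ
    unfold ang
    rw [Homeomorph.symm_apply_eq, AddCircle.homeomorphCircle_apply]
    apply Circle.ext
    have hz' : (‖z‖ : ℂ) ≠ 0 := by simpa using hz
    rw [hθ, Circle.coe_exp, eq_div_iff hz', mul_comm]
    exact Complex.norm_mul_exp_arg_mul_I z
  have hang : (AddCircle.toCircle (ang w) : ℂ) = w / ‖w‖ := by
    unfold ang
    rw [← AddCircle.homeomorphCircle_apply (T := 1) one_ne_zero, Homeomorph.apply_symm_apply,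
      Circle.coe_exp]
    have hz' : (‖w‖ : ℂ) ≠ 0 := by simpa using hw
    rw [eq_div_iff hz', mul_comm]
    exact Complex.norm_mul_exp_arg_mul_I w
  apply key _ (mul_ne_zero (E1_ne s) hw)
  rw [AddCircle.toCircle_add, Circle.coe_mul, hang, AddCircle.toCircle_apply_mk, norm_mul]
  have h1 : ‖E1 s‖ = 1 := by unfold E1; exact Circle.norm_coe _
  rw [h1, one_mul]
  unfold E1
  rw [div_one]
  ring

/-- two sections of the line bundle of degree one over the torus -/
noncomputable def th (s t : ℝ) : ℂ × ℂ :=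
  (E1 (t * s) * (E1 (-(Int.fract t * s)) * (((1 - Int.fract t : ℝ) : ℂ) + (Int.fract t : ℝ) * E1 s)),
    E1 (t * s) * (E1 (-(Int.fract t * s)) * ((Int.fract t * (1 - Int.fract t) : ℝ) : ℂ)))

theorem th_cont : Continuous (fun p : ℝ × ℝ => th p.1 p.2) := by
  have h1 : Continuous (fun p : ℝ × ℝ => E1 (p.2 * p.1)) :=
    E1_cont.comp (continuous_snd.mul continuous_fst)
  have h2 : Continuous (fun p : ℝ × ℝ =>
      (fun (p : ℝ × ℝ) (r : ℝ) => E1 (-(r * p.1)) * (((1 - r : ℝ) : ℂ) + (r : ℝ) * E1 p.1)) p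
        (Int.fract p.2)) := by
    apply ContinuousOn.comp_fract (s := fun p : ℝ × ℝ => p.2)
      (f := fun (p : ℝ × ℝ) (r : ℝ) => E1 (-(r * p.1)) * (((1 - r : ℝ) : ℂ) + (r : ℝ) * E1 p.1))
    · apply Continuous.continuousOn
      have e1 : Continuous (fun q : (ℝ × ℝ) × ℝ => E1 (-(q.2 * q.1.1))) := E1_cont.comp (by fun_prop)
      have e2 : Continuous (fun q : (ℝ × ℝ) × ℝ => E1 q.1.1) := E1_cont.comp (by fun_prop)
      have e3 : Continuous (fun q : (ℝ × ℝ) × ℝ => (((1 - q.2 : ℝ) : ℂ) + (q.2 : ℝ) * E1 q.1.1)) := by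
        fun_prop
      exact e1.mul e3
    · exact continuous_snd
    · intro p
      simp only [zero_mul, neg_zero, sub_zero, one_mul, sub_self]
      have : E1 0 = 1 := by simpa using E1_int 0
      rw [this]
      have h3 : E1 (-p.1) * E1 p.1 = 1 := by rw [← E1_add, neg_add_cancel, this]
      simp only [Complex.ofReal_one, Complex.ofReal_zero, zero_mul, add_zero, zero_add, one_mul, h3]
  have h3 : Continuous (fun p : ℝ × ℝ =>
      (fun (p : ℝ × ℝ) (r : ℝ) => E1 (-(r * p.1)) * ((r * (1 - r) : ℝ) : ℂ)) p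
        (Int.fract p.2)) := by
    apply ContinuousOn.comp_fract (s := fun p : ℝ × ℝ => p.2)
      (f := fun (p : ℝ × ℝ) (r : ℝ) => E1 (-(r * p.1)) * ((r * (1 - r) : ℝ) : ℂ))
    · apply Continuous.continuousOn
      have e1 : Continuous (fun q : (ℝ × ℝ) × ℝ => E1 (-(q.2 * q.1.1))) := E1_cont.comp (by fun_prop)
      have e3 : Continuous (fun q : (ℝ × ℝ) × ℝ => ((q.2 * (1 - q.2) : ℝ) : ℂ)) := by
        fun_prop
      exact e1.mul e3
    · exact continuous_snd
    · intro p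
      simp
  exact (h1.mul h2).prodMk (h1.mul h3)

theorem th_ne (s t : ℝ) : th s t ≠ 0 := by
  intro h
  have h1 := congrArg Prod.fst h
  have h2 := congrArg Prod.snd h
  simp only [th, Prod.fst_zero, Prod.snd_zero, mul_eq_zero, E1_ne, false_or] at h1 h2
  have h3 : Int.fract t * (1 - Int.fract t) = 0 := by exact_mod_cast h2
  have h4 : Int.fract t = 0 := by
    rcases mul_eq_zero.1 h3 with h | h
    · exact h
    · linarith [Int.fract_lt_one t]
  rw [h4] at h1
  simp at h1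

theorem th_add_one_left (s t : ℝ) : th (s + 1) t = th s t := by
  have e0 : E1 (s + 1) = E1 s := by
    rw [E1_add]
    have := E1_int 1
    rw [Int.cast_one] at this
    rw [this, mul_one]
  have e1 : E1 (t * (s + 1)) * E1 (-(Int.fract t * (s + 1))) = E1 (t * s) * E1 (-(Int.fract t * s)) := by
    rw [← E1_add, ← E1_add]
    have h1 : t * (s + 1) + -(Int.fract t * (s + 1)) = (t * s + -(Int.fract t * s)) + (⌊t⌋ : ℝ) := by
      have := Int.floor_add_fract t
      linear_combination (-1 : ℝ) * this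
    rw [h1, E1_add, E1_int, mul_one]
  unfold th
  rw [← mul_assoc, ← mul_assoc, ← mul_assoc, ← mul_assoc, e1, e0]

theorem th_add_one_right (s t : ℝ) : th s (t + 1) = (E1 s * (th s t).1, E1 s * (th s t).2) := by
  unfold th
  have e1 : E1 ((t + 1) * s) = E1 s * E1 (t * s) := by
    rw [← E1_add]
    congr 1
    ring
  rw [Int.fract_add_one, e1]
  simp only [mul_assoc]

theorem hopf_th_left (s t : ℝ) : hopf (th (s + 1) t) = hopf (th s t) := by rw [th_add_one_left]

theorem hopf_mul {c : ℂ} (hc : normSq c = 1) (z : ℂ × ℂ) : hopf (c * z.1, c * z.2) = hopf z := by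
  unfold hopf
  simp only [map_mul, hc, one_mul]
  refine Prod.ext ?_ rfl
  simp only
  have h1 : c * conj c = 1 := by
    rw [Complex.mul_conj, hc]
    simp
  linear_combination (2 * z.1 * conj z.2) * h1

theorem hopf_th_right (s t : ℝ) : hopf (th s (t + 1)) = hopf (th s t) := by
  rw [th_add_one_right, hopf_mul (E1_normSq s)]

theorem ip_mul (c : ℂ) (u z : ℂ × ℂ) : ip (c * u.1, c * u.2) z = c * ip u z := by
  unfold ip
  ring

end Q177.Orb
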