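import Pool.Agent.Q177.OrbE
import Pool.Agent.H790.FQ.Torus
import Pool.Agent.H672R3.FQ.Stokes
import Pool.Agent.Y364.E3.Top

/-!
# `(ℝ³ ∖ 0)³` is not the orbit space of a flow on a Euclidean space
-/

set_option autoImplicit false
open Set Topology Filter

namespace Q177.Orb
open Pool.Agent.H289R3.FQ (T1 ang ang_cont ee TaskTorus)

/-- three-space without the origin -/
abbrev P3 : Type := {v : ℂ × ℝ // v ≠ 0}

/-- the manifold -/
abbrev QQ : Type := P3 × P3 × P3

theorem hopf_th_ne (s t : ℝ) : hopf (th s t) ≠ 0 := by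
  intro h
  have h1 := nr_hopf (th s t)
  rw [h] at h1
  have h2 := nq_pos (th_ne s t)
  have h3 : nr 0 = 0 := by simp [nr, dt]
  linarith

/-- the Hopf map applied to the section -/
noncomputable def ht (s t : ℝ) : P3 := ⟨hopf (th s t), hopf_th_ne s t⟩

theorem ht_cont : Continuous (fun p : ℝ × ℝ => ht p.1 p.2) :=
  Continuous.subtype_mk (hopf_cont.comp th_cont) _

theorem ht_left (s t : ℝ) : ht (s + 1) t = ht s t := Subtype.ext (hopf_th_left s t)

theorem ht_right (s t : ℝ) : ht s (t + 1) = ht s t := Subtype.ext (hopf_th_right s t)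

theorem ht_int (s t : ℝ) (m n : ℤ) : ht (s + m) (t + n) = ht s t := by
  have h1 : ∀ s t, ∀ m : ℕ, ht (s + m) t = ht s t := by
    intro s t m
    induction m with
    | zero => simp
    | succ m ih =>
      have : s + ((m + 1 : ℕ) : ℝ) = s + m + 1 := by push_cast; ring
      rw [this, ht_left, ih]
  have h2 : ∀ s t, ∀ m : ℕ, ht s (t + m) = ht s t := by
    intro s t m
    induction m with
    | zero => simp
    | succ m ih =>
      have : t + ((m + 1 : ℕ) : ℝ) = t + m + 1 := by push_cast; ring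
      rw [this, ht_right, ih]
  have h3 : ∀ s t, ∀ m : ℤ, ht (s + m) t = ht s t := by
    intro s t m
    obtain ⟨k, rfl | rfl⟩ := m.eq_nat_or_neg
    · exact_mod_cast h1 s t k
    · have := h1 (s + ((-(k : ℤ) : ℤ) : ℝ)) t k
      rw [← this]
      congr 1
      push_cast
      ring
  have h4 : ∀ s t, ∀ m : ℤ, ht s (t + m) = ht s t := by
    intro s t m
    obtain ⟨k, rfl | rfl⟩ := m.eq_nat_or_neg
    · exact_mod_cast h2 s t k
    · have := h2 s (t + ((-(k : ℤ) : ℤ) : ℝ)) k
      rw [← this]
      congr 1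
      push_cast
      ring
  rw [h3, h4]

/-- the map of the torus to the manifold -/
noncomputable def tr (y : Fin 5 → ℝ) : QQ := (ht (y 0) (y 1), ht (y 2) (y 4), ht (y 2) (y 3))

theorem ht_val (s t : ℝ) : (ht s t).1 = hopf (th s t) := rfl

attribute [local irreducible] th ht ip hopf

theorem ht_cont' (i j : Fin 5) : Continuous (fun y : Fin 5 → ℝ => ht (y i) (y j)) := by
  have h1 : Continuous (fun y : Fin 5 → ℝ => (y i, y j)) := by fun_prop
  exact ht_cont.comp h1

theorem th_cont' (i j : Fin 5) : Continuous (fun y : Fin 5 → ℝ => th (y i) (y j)) := by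
  have h1 : Continuous (fun y : Fin 5 → ℝ => (y i, y j)) := by fun_prop
  exact th_cont.comp h1

theorem tr_cont : Continuous tr := by
  unfold tr
  exact (ht_cont' 0 1).prodMk ((ht_cont' 2 4).prodMk (ht_cont' 2 3))

theorem tr_int (y : Fin 5 → ℝ) (k : Fin 5 → ℤ) : tr (fun j => y j + k j) = tr y := by
  unfold tr
  simp only [ht_int]

theorem tr_ee (y : Fin 5 → ℝ) (j : Fin 5) : tr (y + ee j) = tr y := by
  have : y + ee j = fun i => y i + ((Pi.single j 1 : Fin 5 → ℤ) i : ℝ) := by
    funext i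
    simp only [Pi.add_apply, ee]
    by_cases h : i = j
    · subst h; simp
    · simp [h]
  rw [this, tr_int]

theorem taskTorus : TaskTorus := Pool.Agent.H790.FQ.taskTorus Pool.Agent.H672R3.FQ.taskStokes

/-- the equivariance of the angle functions -/
theorem ang_th (a b : Fin 5) (hab : a ≠ b) (z : ℂ × ℂ) (y : Fin 5 → ℝ)
    (h : ip (th (y a) (y b)) z ≠ 0) (j : Fin 5) :
    ang (ip (th ((y + ee j) a) ((y + ee j) b)) z) =
      ang (ip (th (y a) (y b)) z) + (((if j = b then y a else 0 : ℝ)) : T1) := by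
  simp only [Pi.add_apply, ee]
  by_cases hja : j = a
  · subst hja
    have e : (Pi.single j 1 : Fin 5 → ℝ) b = 0 := by simp [Ne.symm hab]
    rw [Pi.single_eq_same, e, add_zero, th_add_one_left, if_neg hab]
    simp
  · have ea : (Pi.single j 1 : Fin 5 → ℝ) a = 0 := by simp [Ne.symm hja]
    rw [ea, add_zero]
    by_cases hjb : j = b
    · subst hjb
      rw [Pi.single_eq_same, if_pos rfl, th_add_one_right, ip_mul, ang_E1 _ h]
    · have eb : (Pi.single j 1 : Fin 5 → ℝ) b = 0 := by simp [Ne.symm hjb]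
      rw [eb, add_zero, if_neg hjb]
      simp

theorem no_quotient {E : Type} [NormedAddCommGroup E] [NormedSpace ℝ E] [ProperSpace E]
    {φ : ℝ → E → E} {f : E → QQ} (h : QF φ f) (hs : Function.Surjective f) : False := by
  classical
  have hsurj : ∀ y, ∃ x, f x = tr y := fun y => hs _
  -- the torus and its bad part
  have hTc : IsCompact (range tr) := by
    have : range tr = tr '' Icc 0 1 := by
      apply Subset.antisymm
      · rintro _ ⟨y, rfl⟩
        refine ⟨fun j => Int.fract (y j), ⟨fun j => Int.fract_nonneg _, fun j => (Int.fract_lt_one _).le⟩, ?_⟩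
        rw [← tr_int (fun j => Int.fract (y j)) (fun j => ⌊y j⌋)]
        congr 1
        funext j
        exact Int.fract_add_floor (y j)
      · rintro _ ⟨y, -, rfl⟩
        exact ⟨y, rfl⟩
    rw [this]
    exact isCompact_Icc.image tr_cont
  let K : Set QQ := {m | m ∈ range tr ∧ ¬ IsCompact (f ⁻¹' {m})}
  have hKc : IsCompact K := by
    apply hTc.of_isClosed_subset _ (fun m hm => hm.1)
    rw [← isOpen_compl_iff, isOpen_iff_mem_nhds]
    intro m hm
    by_cases hmT : m ∈ range tr
    · have hmc : IsCompact (f ⁻¹' {m}) := by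
        by_contra hcon
        exact hm ⟨hmT, hcon⟩
      obtain ⟨y, rfl⟩ := hmT
      obtain ⟨x, hx⟩ := hsurj y
      rw [← hx] at hmc ⊢
      filter_upwards [h.compact_nhds hmc] with n hn hn'
      exact hn'.2 hn
    · filter_upwards [hTc.isClosed.isOpen_compl.mem_nhds hmT] with n hn hn'
      exact hn hn'.1
  obtain ⟨σ, hσc, hσ⟩ := h.exists_section hKc (fun m _ => hs m) (fun m hm => hm.2)
  -- a bound on the section
  have hbound : ∀ L : Set E, IsCompact L → ∃ R : ℝ, ∀ x ∈ L, ‖x‖ < R := by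
    intro L hL
    obtain ⟨B, hB⟩ := hL.exists_bound_of_continuousOn (f := fun x : E => x) continuousOn_id
    exact ⟨B + 1, fun x hx => (hB x hx).trans_lt (lt_add_one _)⟩
  have hg1 : Continuous (fun x => (f x).1.1) := continuous_subtype_val.comp (continuous_fst.comp h.fcont)
  have hg2 : Continuous (fun x => (f x).2.1.1) :=
    continuous_subtype_val.comp (continuous_fst.comp (continuous_snd.comp h.fcont))
  have hg3 : Continuous (fun x => (f x).2.2.1) :=
    continuous_subtype_val.comp (continuous_snd.comp (continuous_snd.comp h.fcont))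
  obtain ⟨R₁, hR₁⟩ := hbound _ (hKc.image_of_continuousOn hσc)
  obtain ⟨Z₁, hZ₁c, hZ₁⟩ := exists_lift _ hg1 (fun x => (f x).1.2) R₁
  -- the bad set in the universal cover of the torus
  let C : Set (Fin 5 → ℝ) := {y | tr y ∈ K}
  have hCint : ∀ (y : Fin 5 → ℝ) (k : Fin 5 → ℤ), y ∈ C ↔ (fun j => y j + k j) ∈ C := by
    intro y k
    simp only [C, mem_ofPred_eq, tr_int]
  have hσR : ∀ y ∈ C, ‖σ (tr y)‖ < R₁ := fun y hy => hR₁ _ ⟨_, hy, rfl⟩
  have hne1 : ∀ y ∈ C, ip (th (y 0) (y 1)) (Z₁ (σ (tr y))) ≠ 0 := by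
    intro y hy
    have e : f (σ (tr y)) = tr y := hσ _ hy
    apply ip_ne_zero (th_ne _ _) _ (hZ₁ _ (hσR y hy).le)
    rw [e]
    exact (ht_val _ _).symm
  refine taskTorus C (hKc.isClosed.preimage tr_cont) ?_
    (fun y => ang (ip (th (y 0) (y 1)) (Z₁ (σ (tr y))))) ?_ ?_ ?_
  · intro y j
    simp only [C, mem_ofPred_eq, tr_ee]
  · intro y hy
    apply ContinuousAt.comp_continuousWithinAt (g := ang)
      (f := fun y : Fin 5 → ℝ => ip (th (y 0) (y 1)) (Z₁ (σ (tr y)))) (ang_cont (hne1 y hy))
    have h1 : ContinuousOn (fun y : Fin 5 → ℝ => ip (th (y 0) (y 1)) (Z₁ (σ (tr y)))) C := by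
      have h2 : ContinuousOn (fun y : Fin 5 → ℝ => (th (y 0) (y 1), Z₁ (σ (tr y)))) C := by
        apply ContinuousOn.prodMk
        · exact (th_cont' 0 1).continuousOn
        · exact hZ₁c.comp_continuousOn (hσc.comp tr_cont.continuousOn (fun y hy => hy))
      exact ip_cont.comp_continuousOn h2
    exact h1 y hy
  · intro y hy j
    rw [tr_ee, ang_th 0 1 (by decide) _ y (hne1 y hy) j]
    congr 1
    by_cases hj : j = 1
    · rw [if_pos hj, if_pos hj]
    · rw [if_neg hj, if_neg hj]
      simp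
  · intro δ hδ
    let A : Set (Fin 5 → ℝ) := {y | ∀ c ∈ C, δ ≤ dist y c}
    have hAcl : IsClosed A := by
      have : A = ⋂ c ∈ C, {y | δ ≤ dist y c} := by
        ext y
        simp [A]
      rw [this]
      exact isClosed_biInter fun c _ => isClosed_le continuous_const (by fun_prop)
    have hAc : ∀ y ∈ A, IsCompact (f ⁻¹' {tr y}) := by
      intro y hy
      by_contra hcon
      have hyC : y ∈ C := ⟨⟨y, rfl⟩, hcon⟩
      have := hy y hyC
      rw [dist_self] at this
      linarith
    have hTA : IsCompact (tr '' A) := by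
      have : tr '' A = tr '' (A ∩ Icc 0 1) := by
        apply Subset.antisymm
        · rintro _ ⟨y, hy, rfl⟩
          refine ⟨fun j => Int.fract (y j), ⟨?_, fun j => Int.fract_nonneg _,
            fun j => (Int.fract_lt_one _).le⟩, ?_⟩
          · intro c hc
            have h1 := hy (fun j => c j + (⌊y j⌋ : ℤ)) ((hCint c _).1 hc)
            have h2 : dist (fun j => Int.fract (y j)) c =
                dist y (fun j => c j + (⌊y j⌋ : ℤ)) := by
              rw [dist_eq_norm, dist_eq_norm]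
              congr 1
              funext j
              simp only [Pi.sub_apply]
              have := Int.fract_add_floor (y j)
              linarith
            rw [h2]
            exact h1
          · rw [← tr_int (fun j => Int.fract (y j)) (fun j => ⌊y j⌋)]
            congr 1
            funext j
            exact Int.fract_add_floor (y j)
        · exact image_mono inter_subset_left
      rw [this]
      exact (isCompact_Icc.inter_left hAcl).image tr_cont
    obtain ⟨L, hL, hLA⟩ : ∃ L : Set E, IsCompact L ∧ ∀ m ∈ tr '' A, f ⁻¹' {m} ⊆ L := by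
      refine hTA.induction_on (p := fun s => ∃ L : Set E, IsCompact L ∧
        ∀ m ∈ s, f ⁻¹' {m} ⊆ L) ?_ ?_ ?_ ?_
      · exact ⟨∅, isCompact_empty, by simp⟩
      · rintro s t hst ⟨L, hL, hL'⟩
        exact ⟨L, hL, fun m hm => hL' m (hst hm)⟩
      · rintro s t ⟨L, hL, hL'⟩ ⟨L2, hL2, hL2'⟩
        refine ⟨L ∪ L2, hL.union hL2, ?_⟩
        rintro m (hm | hm)
        · exact (hL' m hm).trans subset_union_left
        · exact (hL2' m hm).trans subset_union_right
      · rintro _ ⟨y, hy, rfl⟩
        obtain ⟨x, hx⟩ := hsurj y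
        have hc := hAc y hy
        rw [← hx] at hc ⊢
        obtain ⟨L, hL, -, hev⟩ := h.stable hc isOpen_univ (subset_univ _)
        exact ⟨_, mem_nhdsWithin_of_mem_nhds hev, L, hL, fun m hm => hm⟩
    obtain ⟨R₂, hR₂⟩ := hbound L hL
    obtain ⟨Z₂, hZ₂c, hZ₂⟩ := exists_lift _ hg2 (fun x => (f x).2.1.2) R₂
    obtain ⟨Z₃, hZ₃c, hZ₃⟩ := exists_lift _ hg3 (fun x => (f x).2.2.2) R₂
    have hne2 : ∀ x (y : Fin 5 → ℝ), ‖x‖ < R₂ → f x = tr y → ip (th (y 2) (y 4)) (Z₂ x) ≠ 0 := by
      intro x y hx hxy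
      apply ip_ne_zero (th_ne _ _) _ (hZ₂ _ hx.le)
      rw [hxy]
      exact (ht_val _ _).symm
    have hne3 : ∀ x (y : Fin 5 → ℝ), ‖x‖ < R₂ → f x = tr y → ip (th (y 2) (y 3)) (Z₃ x) ≠ 0 := by
      intro x y hx hxy
      apply ip_ne_zero (th_ne _ _) _ (hZ₃ _ hx.le)
      rw [hxy]
      exact (ht_val _ _).symm
    refine bdata h tr_cont tr_ee hsurj (O := {x | ‖x‖ < R₂}) ?_
      (D₁ := fun p => ang (ip (th (p.2 2) (p.2 4)) (Z₂ p.1)))
      (D₂ := fun p => ang (ip (th (p.2 2) (p.2 3)) (Z₃ p.1)))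
      ?_ ?_ ?_ ?_ (K := A) ?_
    · exact isOpen_lt continuous_norm continuous_const
    · rintro p ⟨hp1, hp2⟩
      apply ContinuousAt.continuousWithinAt
      apply ContinuousAt.comp (g := ang) (f := fun p : E × (Fin 5 → ℝ) =>
        ip (th (p.2 2) (p.2 4)) (Z₂ p.1)) (ang_cont (hne2 p.1 p.2 hp1 hp2))
      apply Continuous.continuousAt
      exact ip_cont.comp (((th_cont' 2 4).comp continuous_snd).prodMk (hZ₂c.comp continuous_fst))
    · rintro p ⟨hp1, hp2⟩
      apply ContinuousAt.continuousWithinAt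
      apply ContinuousAt.comp (g := ang) (f := fun p : E × (Fin 5 → ℝ) =>
        ip (th (p.2 2) (p.2 3)) (Z₃ p.1)) (ang_cont (hne3 p.1 p.2 hp1 hp2))
      apply Continuous.continuousAt
      exact ip_cont.comp (((th_cont' 2 3).comp continuous_snd).prodMk (hZ₃c.comp continuous_fst))
    · intro x y hx hxy j
      exact ang_th 2 4 (by decide) _ y (hne2 x y hx hxy) j
    · intro x y hx hxy j
      exact ang_th 2 3 (by decide) _ y (hne3 x y hx hxy) j
    · intro y hy
      exact ⟨hAc y hy, fun x hx => hR₂ x (hLA _ ⟨y, hy, rfl⟩ hx)⟩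

/-- the orbit map of a continuous flow -/
theorem qf_of_homeo {E : Type} [TopologicalSpace E] {Φ : ℝ → E → E}
    (hc : Continuous (fun p : ℝ × E => Φ p.1 p.2)) (h0 : ∀ x, Φ 0 x = x)
    (hadd : ∀ s t x, Φ (s + t) x = Φ s (Φ t x))
    {Q : Type} [TopologicalSpace Q] (θ : Quot (fun x y : E => ∃ t : ℝ, Φ t x = y) ≃ₜ Q) :
    QF Φ (fun x => θ (Quot.mk _ x)) where
  cont := hc
  zero := h0
  add := hadd
  fcont := θ.continuous.comp continuous_quot_mk
  fopen := by
    apply θ.isOpenMap.comp
    intro O hO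
    rw [isOpen_coinduced]
    have : Quot.mk (fun x y : E => ∃ t : ℝ, Φ t x = y) ⁻¹'
        (Quot.mk (fun x y : E => ∃ t : ℝ, Φ t x = y) '' O) = ⋃ t, (Φ t) ⁻¹' O := by
      ext x
      simp only [mem_preimage, mem_image, mem_iUnion]
      constructor
      · rintro ⟨y, hy, hyx⟩
        have heq : Relation.EqvGen (fun x y : E => ∃ t : ℝ, Φ t x = y) x y :=
          Quot.eqvGen_exact hyx.symm
        have hr : ∀ a b, Relation.EqvGen (fun x y : E => ∃ t : ℝ, Φ t x = y) a b →
            ∃ t, Φ t a = b := by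
          intro a b hab
          induction hab with
          | rel a b hab => exact hab
          | refl a => exact ⟨0, h0 a⟩
          | symm a b _ ih =>
            obtain ⟨t, rfl⟩ := ih
            exact ⟨-t, by rw [← hadd, neg_add_cancel, h0]⟩
          | trans a b c _ _ ih1 ih2 =>
            obtain ⟨t, rfl⟩ := ih1
            obtain ⟨s, rfl⟩ := ih2
            exact ⟨s + t, hadd _ _ _⟩
        obtain ⟨t, ht⟩ := hr x y heq
        exact ⟨t, by rw [ht]; exact hy⟩
      · rintro ⟨t, ht⟩
        exact ⟨Φ t x, ht, (Quot.sound ⟨t, rfl⟩).symm⟩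
    rw [this]
    apply isOpen_iUnion
    intro t
    exact hO.preimage (hc.comp (continuous_const.prodMk continuous_id))
  fibre := by
    intro x y
    rw [θ.injective.eq_iff]
    constructor
    · intro hxy
      have hr : ∀ a b, Relation.EqvGen (fun x y : E => ∃ t : ℝ, Φ t x = y) a b →
          ∃ t, Φ t a = b := by
        intro a b hab
        induction hab with
        | rel a b hab => exact hab
        | refl a => exact ⟨0, h0 a⟩
        | symm a b _ ih =>
          obtain ⟨t, rfl⟩ := ih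
          exact ⟨-t, by rw [← hadd, neg_add_cancel, h0]⟩
        | trans a b c _ _ ih1 ih2 =>
          obtain ⟨t, rfl⟩ := ih1
          obtain ⟨s, rfl⟩ := ih2
          exact ⟨s + t, hadd _ _ _⟩
      exact hr x y (Quot.eqvGen_exact hxy)
    · intro hxy
      exact Quot.sound hxy

/-! ### the manifold structure -/

noncomputable def lin3 : (ℂ × ℝ) ≃L[ℝ] EuclideanSpace ℝ (Fin 3) :=
  ContinuousLinearEquiv.ofFinrankEq (by
    rw [Module.finrank_prod, Complex.finrank_real_complex, Module.finrank_self,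
      finrank_euclideanSpace_fin])

theorem sc_P3 : SimplyConnectedSpace P3 := by
  have h1 := Pool.Agent.Y364.E3.sc_compl_zero
  let e : P3 ≃ₜ ({0}ᶜ : Set (EuclideanSpace ℝ (Fin 3))) :=
    lin3.toHomeomorph.subtype (fun v => by
      simp only [ne_eq, mem_compl_iff, mem_singleton_iff]
      change ¬ v = 0 ↔ ¬ lin3 v = 0
      rw [map_eq_zero_iff _ lin3.injective])
  exact e.toHomotopyEquiv.simplyConnectedSpace

theorem sc_QQ : SimplyConnectedSpace QQ := by
  have h1 := sc_P3
  have h2 := Pool.Agent.H774R3.sc_prod P3 P3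
  exact Pool.Agent.H774R3.sc_prod P3 (P3 × P3)

noncomputable def lin9 : ((ℂ × ℝ) × (ℂ × ℝ) × (ℂ × ℝ)) ≃L[ℝ] EuclideanSpace ℝ (Fin 9) :=
  ContinuousLinearEquiv.ofFinrankEq (by
    simp only [Module.finrank_prod, Complex.finrank_real_complex, Module.finrank_self,
      finrank_euclideanSpace_fin])

noncomputable def emb (q : QQ) : EuclideanSpace ℝ (Fin 9) := lin9 (q.1.1, q.2.1.1, q.2.2.1)

theorem emb_open : IsOpenEmbedding emb := by
  have h0 : IsOpen {v : ℂ × ℝ | v ≠ 0} := isOpen_ne
  have h1 : IsOpenEmbedding (Subtype.val : P3 → ℂ × ℝ) := h0.isOpenEmbedding_subtypeVal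
  have h2 := h1.prodMap (h1.prodMap h1)
  exact lin9.toHomeomorph.isOpenEmbedding.comp h2

instance : Nonempty QQ := by
  have h : Nonempty P3 := ⟨⟨(1, 0), by simp⟩⟩
  infer_instance

noncomputable instance : ChartedSpace (EuclideanSpace ℝ (Fin 9)) QQ :=
  emb_open.singletonChartedSpace

end Q177.Orb
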