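import Mathlib

/-!
# Rectifiable spaces of countable cellularity with a compact set of countable character
-/

set_option autoImplicit false

open Set Topology Filter

universe u

namespace Q177.Rect

/-- Continuous operations `p`, `q` and a compact set `K` with countable outer base. -/
structure Data (X : Type u) [TopologicalSpace X] where
  p : X × X → X
  q : X × X → X
  e : X
  hp : Continuous p
  hq : Continuous q
  pq : ∀ x y, p (x, q (x, y)) = y
  qp : ∀ x y, q (x, p (x, y)) = y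
  qe : ∀ x, q (x, x) = e
  K : Set X
  hK : IsCompact K
  eK : e ∈ K
  U : ℕ → Set X
  C : ℕ → Set X
  hU : ∀ n, IsOpen (U n)
  hC : ∀ n, IsClosed (C n)
  KU : ∀ n, K ⊆ U n
  UC : ∀ n, U n ⊆ C n
  CU : ∀ n, C (n + 1) ⊆ U n
  base : ∀ O : Set X, IsOpen O → K ⊆ O → ∃ n, U n ⊆ O
  inter : ∀ x, (∀ n, x ∈ U n) → x ∈ K

namespace Data

variable {X : Type u} [TopologicalSpace X] (d : Data X)

theorem U_anti {m n : ℕ} (h : m ≤ n) : d.U n ⊆ d.U m := by
  induction h with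
  | refl => exact Subset.rfl
  | step _ ih => exact ((d.UC _).trans (d.CU _)).trans ih

/-- symmetric neighbourhoods of the diagonal -/
def E (n : ℕ) : Set (X × X) := {z | d.q (z.1, z.2) ∈ d.U n ∧ d.q (z.2, z.1) ∈ d.U n}

theorem E_open (n : ℕ) : IsOpen (d.E n) :=
  ((d.hU n).preimage (d.hq.comp (continuous_fst.prodMk continuous_snd))).inter
    ((d.hU n).preimage (d.hq.comp (continuous_snd.prodMk continuous_fst)))

theorem E_diag (n : ℕ) (x : X) : (x, x) ∈ d.E n := by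
  constructor <;> (show d.q (x, x) ∈ d.U n; rw [d.qe]; exact d.KU n d.eK)

theorem notMem_K {x : X} (h : x ∉ d.K) : ∃ n, x ∉ d.C n := by
  by_contra hc
  push Not at hc
  exact h (d.inter x fun n => d.CU n (hc (n + 1)))

/-- a countable set `D` such that every point is reached in the required way -/
theorem exists_D (hccc : ∀ 𝒞 : Set (Set X), (∀ O ∈ 𝒞, IsOpen O ∧ O.Nonempty) →
    𝒞.PairwiseDisjoint id → 𝒞.Countable) :
    ∃ D : Set X, D.Countable ∧ ∀ y : X, ∃ c ∈ closure D, d.q (y, c) ∈ d.K ∧ d.q (c, y) ∈ d.K := by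
  classical
  -- maximal disjoint families of small open sets
  have hmax : ∀ n : ℕ, ∃ γ : Set (Set X), (∀ O ∈ γ, IsOpen O ∧ O.Nonempty ∧ O ×ˢ O ⊆ d.E n) ∧
      γ.PairwiseDisjoint id ∧ ∀ W : Set X, IsOpen W → W.Nonempty → ∃ O ∈ γ, (O ∩ W).Nonempty := by
    intro n
    let S : Set (Set (Set X)) := {γ | (∀ O ∈ γ, IsOpen O ∧ O.Nonempty ∧ O ×ˢ O ⊆ d.E n) ∧
      γ.PairwiseDisjoint id}
    obtain ⟨γ, hγ⟩ : ∃ γ, Maximal (· ∈ S) γ := by
      refine zorn_subset S fun c hc hchain => ?_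
      refine ⟨⋃₀ c, ⟨?_, ?_⟩, fun s hs => subset_sUnion_of_mem hs⟩
      · rintro O ⟨s, hs, hO⟩
        exact (hc hs).1 O hO
      · rintro O ⟨s, hs, hO⟩ O' ⟨s', hs', hO'⟩ hne
        rcases hchain.total hs hs' with h | h
        · exact (hc hs').2 (h hO) hO' hne
        · exact (hc hs).2 hO (h hO') hne
    refine ⟨γ, hγ.prop.1, hγ.prop.2, fun W hW hWne => ?_⟩
    by_contra hcon
    push Not at hcon
    obtain ⟨w, hw⟩ := hWne
    obtain ⟨A, B, hA, hB, hwA, hwB, hAB⟩ := isOpen_prod_iff.1 (d.E_open n) w w (d.E_diag n w)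
    let O : Set X := W ∩ (A ∩ B)
    have hOo : IsOpen O := hW.inter (hA.inter hB)
    have hwO : w ∈ O := ⟨hw, hwA, hwB⟩
    have hmem : insert O γ ∈ S := by
      constructor
      · intro O' hO'
        rcases hO' with rfl | hO'
        · exact ⟨hOo, ⟨w, hwO⟩, fun z hz => hAB ⟨hz.1.2.1, hz.2.2.2⟩⟩
        · exact hγ.prop.1 O' hO'
      · refine hγ.prop.2.insert fun O' hO' _ => ?_
        refine disjoint_left.2 fun x hx hx' => ?_
        have : x ∈ O' ∩ W := ⟨hx', hx.1⟩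
        rw [hcon O' hO'] at this
        exact this
    have hOγ : O ∈ γ := hγ.le_of_ge hmem (subset_insert _ _) (mem_insert _ _)
    have : w ∈ O ∩ W := ⟨hwO, hw⟩
    rw [hcon O hOγ] at this
    exact this
  choose γ hγ hγd hγm using hmax
  have hne : ∀ n, ∀ O ∈ γ n, ∃ a, a ∈ O := fun n O hO => (hγ n O hO).2.1
  have : Nonempty X := ⟨d.e⟩
  choose! a ha using hne
  refine ⟨⋃ n, (a n) '' (γ n), countable_iUnion fun n => Countable.image
    (hccc (γ n) (fun O hO => ⟨(hγ n O hO).1, (hγ n O hO).2.1⟩) (hγd n)) _, fun y => ?_⟩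
  set D : Set X := ⋃ n, (a n) '' (γ n) with hD
  by_contra hcon
  push Not at hcon
  -- for every `k ∈ K` a box
  have hbox : ∀ k ∈ d.K, ∃ W V : Set X, IsOpen W ∧ IsOpen V ∧ y ∈ W ∧ k ∈ V ∧ ∃ m,
      ∀ z ∈ W, ∀ w ∈ V, d.p (z, w) ∈ D → d.q (d.p (z, w), z) ∉ d.U m := by
    intro k hk
    by_cases hc : d.p (y, k) ∈ closure D
    · have h2 : d.q (d.p (y, k), y) ∉ d.K := hcon _ hc (by rw [d.qp]; exact hk)
      obtain ⟨m, hm⟩ := d.notMem_K h2
      have hopen : IsOpen {z : X × X | d.q (d.p z, z.1) ∉ d.C m} :=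
        (d.hC m).isOpen_compl.preimage (d.hq.comp (d.hp.prodMk continuous_fst))
      obtain ⟨W, V, hW, hV, hyW, hkV, hWV⟩ := isOpen_prod_iff.1 hopen y k hm
      exact ⟨W, V, hW, hV, hyW, hkV, m, fun z hz w hw _ h => hWV (mk_mem_prod hz hw) (d.UC m h)⟩
    · have hopen : IsOpen {z : X × X | d.p z ∉ closure D} :=
        isClosed_closure.isOpen_compl.preimage d.hp
      obtain ⟨W, V, hW, hV, hyW, hkV, hWV⟩ := isOpen_prod_iff.1 hopen y k hc
      exact ⟨W, V, hW, hV, hyW, hkV, 0, fun z hz w hw h _ =>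
        hWV (mk_mem_prod hz hw) (subset_closure h)⟩
  choose! W V hW hV hyW hkV m hWV using hbox
  obtain ⟨t, htK, htV⟩ := d.hK.elim_nhds_subcover V (fun k hk => (hV k hk).mem_nhds (hkV k hk))
  obtain ⟨l0, hl0⟩ := d.base (⋃ k ∈ t, V k) (isOpen_biUnion fun k hk => hV k (htK k hk)) htV
  let l := max l0 (t.sup m)
  have hWo : IsOpen (⋂ k ∈ t, W k) := isOpen_biInter_finset fun k hk => hW k (htK k hk)
  have hyWt : y ∈ ⋂ k ∈ t, W k := mem_iInter₂.2 fun k hk => hyW k (htK k hk)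
  obtain ⟨O, hO, z, hzO, hzW⟩ := hγm l _ hWo ⟨y, hyWt⟩
  have hE : (a l O, z) ∈ d.E l := (hγ l O hO).2.2 (mk_mem_prod (ha l O hO) hzO)
  have hu : d.q (z, a l O) ∈ ⋃ k ∈ t, V k := hl0 (d.U_anti (le_max_left _ _) hE.2)
  obtain ⟨k, hk, hku⟩ := mem_iUnion₂.1 hu
  have haD : a l O ∈ D := mem_iUnion.2 ⟨l, O, hO, rfl⟩
  refine hWV k (htK k hk) z (mem_iInter₂.1 hzW k hk) _ hku ?_ ?_
  · rwa [d.pq]
  · rw [d.pq]
    exact d.U_anti ((Finset.le_sup hk).trans (le_max_right _ _)) hE.1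

include d in
/-- the main theorem -/
theorem lindelof (hccc : ∀ 𝒞 : Set (Set X), (∀ O ∈ 𝒞, IsOpen O ∧ O.Nonempty) →
    𝒞.PairwiseDisjoint id → 𝒞.Countable) : LindelofSpace X := by
  classical
  obtain ⟨D, hD, hDy⟩ := d.exists_D hccc
  choose c hcD hc1 hc2 using hDy
  refine ⟨isLindelof_of_countable_subcover fun {ι} 𝒰 h𝒰 hcov => ?_⟩
  -- finite subcovers of the compact sets `c y * K`
  have hkey : ∀ y : X, ∃ x ∈ D, ∃ n : ℕ, (x, y) ∈ d.E n ∧ ∃ t : Finset ι,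
      {y' | (x, y') ∈ d.E n} ⊆ ⋃ i ∈ t, 𝒰 i := by
    intro y
    have hcomp : IsCompact ((fun k => d.p (c y, k)) '' d.K) :=
      d.hK.image (d.hp.comp (continuous_const.prodMk continuous_id))
    obtain ⟨t, ht⟩ := hcomp.elim_finite_subcover 𝒰 h𝒰 ((subset_univ _).trans hcov)
    have hOo : IsOpen (⋃ i ∈ t, 𝒰 i) := isOpen_biUnion fun i _ => h𝒰 i
    obtain ⟨G, V, hG, hV, hcG, hKV, hGV⟩ := generalized_tube_lemma
      (isCompact_singleton (x := c y)) d.hK (hOo.preimage d.hp) (by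
        rintro ⟨x, k⟩ ⟨hx, hk⟩
        rw [mem_singleton_iff] at hx
        subst hx
        exact ht ⟨k, hk, rfl⟩)
    obtain ⟨n, hn⟩ := d.base V hV hKV
    have hopen : IsOpen {x : X | (x, y) ∈ d.E n} :=
      (d.E_open n).preimage (continuous_id.prodMk continuous_const)
    obtain ⟨x, ⟨hxG, hxE⟩, hxD⟩ := mem_closure_iff.1 (hcD y) (G ∩ {x : X | (x, y) ∈ d.E n})
      (hG.inter hopen) ⟨hcG rfl, ⟨d.KU n (hc2 y), d.KU n (hc1 y)⟩⟩
    refine ⟨x, hxD, n, hxE, t, fun y' hy' => ?_⟩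
    have := hGV (mk_mem_prod hxG (hn hy'.1))
    rwa [mem_preimage, d.pq] at this
  choose x hxD n hxn t ht using hkey
  -- a countable family
  have hcount : (D ×ˢ (univ : Set ℕ)).Countable := hD.prod (countable_univ)
  let P : X × ℕ → Prop := fun z => ∃ s : Finset ι, {y' | (z.1, y') ∈ d.E z.2} ⊆ ⋃ i ∈ s, 𝒰 i
  choose! s hs using fun (z : X × ℕ) (hz : P z) => hz
  refine ⟨⋃ z ∈ D ×ˢ (univ : Set ℕ), (s z : Set ι), hcount.biUnion fun z _ => (s z).countable_toSet,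
    fun y _ => ?_⟩
  have hP : P (x y, n y) := ⟨t y, ht y⟩
  have h1 := hs (x y, n y) hP (show y ∈ {y' | (x y, y') ∈ d.E (n y)} from hxn y)
  obtain ⟨i, hi, hyi⟩ := mem_iUnion₂.1 h1
  exact mem_iUnion₂.2 ⟨i, mem_iUnion₂.2 ⟨(x y, n y), ⟨hxD y, mem_univ _⟩, hi⟩, hyi⟩

end Data

end Q177.Rect
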