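import Pool.Agent.Q177.RectA

/-!
# From rectifiable spaces of point countable type to the data of `RectA`
-/

set_option autoImplicit false

open Set Topology Filter

universe u

namespace Q177.Rect

variable {X : Type u} [TopologicalSpace X]

/-- A nonempty compact set with a countable outer base. -/
def HasCompact (X : Type u) [TopologicalSpace X] : Prop :=
  ∃ K : Set X, IsCompact K ∧ K.Nonempty ∧ ∃ O : ℕ → Set X, (∀ n, IsOpen (O n) ∧ K ⊆ O n) ∧
    ∀ V : Set X, IsOpen V → K ⊆ V → ∃ n, O n ⊆ V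

/-- rectifiability -/
def Rectifiable (X : Type u) [TopologicalSpace X] : Prop :=
  ∃ (e : X) (φ : (X × X) ≃ₜ (X × X)), (∀ x, φ '' ({x} ×ˢ univ) = {x} ×ˢ univ) ∧
    ∀ x, φ (x, x) = (x, e)

/-- ccc -/
def CCC (X : Type u) [TopologicalSpace X] : Prop :=
  ∀ 𝒞 : Set (Set X), (∀ O ∈ 𝒞, IsOpen O ∧ O.Nonempty) → 𝒞.PairwiseDisjoint id → 𝒞.Countable

theorem exists_data [T3Space X] (hr : Rectifiable X) (hK : HasCompact X) : Nonempty (Data X) := by
  obtain ⟨e, φ, hφ, hφe⟩ := hr
  obtain ⟨K, hKc, ⟨x0, hx0⟩, O, hO, hbase⟩ := hK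
  have hφ1 : ∀ z, (φ z).1 = z.1 := by
    rintro ⟨x, y⟩
    have : φ (x, y) ∈ φ '' ({x} ×ˢ univ) := ⟨(x, y), ⟨rfl, trivial⟩, rfl⟩
    rw [hφ] at this
    exact this.1
  have hφs1 : ∀ z, (φ.symm z).1 = z.1 := by
    intro z
    have := hφ1 (φ.symm z)
    rw [φ.apply_symm_apply] at this
    exact this.symm
  let p : X × X → X := fun z => (φ.symm z).2
  let q : X × X → X := fun z => (φ z).2
  have hp : Continuous p := continuous_snd.comp φ.symm.continuous
  have hq : Continuous q := continuous_snd.comp φ.continuous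
  have pq : ∀ x y, p (x, q (x, y)) = y := by
    intro x y
    have h1 : φ (x, y) = (x, (φ (x, y)).2) := Prod.ext (hφ1 _) rfl
    show (φ.symm (x, (φ (x, y)).2)).2 = y
    rw [← h1, φ.symm_apply_apply]
  have qp : ∀ x y, q (x, p (x, y)) = y := by
    intro x y
    have h1 : φ.symm (x, y) = (x, (φ.symm (x, y)).2) := Prod.ext (hφs1 _) rfl
    show (φ (x, (φ.symm (x, y)).2)).2 = y
    rw [← h1, φ.apply_symm_apply]
  have qe : ∀ x, q (x, x) = e := by
    intro x
    show (φ (x, x)).2 = e
    rw [hφe]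
  -- the compact set is moved to `e`
  let K' : Set X := {y | p (x0, y) ∈ K}
  have hcp : Continuous fun y => p (x0, y) := hp.comp (continuous_const.prodMk continuous_id)
  have hcq : Continuous fun y => q (x0, y) := hq.comp (continuous_const.prodMk continuous_id)
  have hK'im : K' = (fun y => q (x0, y)) '' K := by
    ext y
    constructor
    · intro hy
      exact ⟨_, hy, qp x0 y⟩
    · rintro ⟨k, hk, rfl⟩
      show p (x0, q (x0, k)) ∈ K
      rw [pq]
      exact hk
  have hK'c : IsCompact K' := by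
    rw [hK'im]
    exact hKc.image hcq
  have heK' : e ∈ K' := by
    show p (x0, e) ∈ K
    rw [← qe x0, pq]
    exact hx0
  let O' : ℕ → Set X := fun n => (fun y => p (x0, y)) ⁻¹' (O n)
  have hO'o : ∀ n, IsOpen (O' n) := fun n => (hO n).1.preimage hcp
  have hO'K : ∀ n, K' ⊆ O' n := fun n y hy => (hO n).2 hy
  have hO'b : ∀ V : Set X, IsOpen V → K' ⊆ V → ∃ n, O' n ⊆ V := by
    intro V hV hKV
    obtain ⟨n, hn⟩ := hbase ((fun y => q (x0, y)) ⁻¹' V) (hV.preimage hcq) (by
      intro k hk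
      apply hKV
      show p (x0, q (x0, k)) ∈ K
      rw [pq]
      exact hk)
    refine ⟨n, fun y hy => ?_⟩
    have := hn hy
    show y ∈ V
    rw [mem_preimage, qp] at this
    exact this
  -- closed neighbourhoods
  have step : ∀ (n : ℕ) (c : {c : Set X // K' ⊆ interior c ∧ IsClosed c}),
      ∃ c' : {c : Set X // K' ⊆ interior c ∧ IsClosed c}, c'.1 ⊆ interior c.1 ∩ O' n := by
    intro n c
    have hVo : IsOpen (interior c.1 ∩ O' n) := isOpen_interior.inter (hO'o n)
    have hloc : ∀ k : X, k ∈ K' → ∃ t : Set X, t ∈ 𝓝 k ∧ IsClosed t ∧ t ⊆ interior c.1 ∩ O' n :=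
      fun k hk => exists_mem_nhds_isClosed_subset (hVo.mem_nhds ⟨c.2.1 hk, hO'K n hk⟩)
    choose! t ht htc hts using hloc
    obtain ⟨s, hsK, hsc⟩ := hK'c.elim_nhds_subcover (fun k => interior (t k))
      (fun k hk => interior_mem_nhds.2 (ht k hk))
    refine ⟨⟨⋃ k ∈ s, t k, ?_, ?_⟩, ?_⟩
    · refine hsc.trans (interior_maximal (iUnion₂_mono fun k _ => interior_subset)
        (isOpen_biUnion fun k _ => isOpen_interior))
    · exact s.finite_toSet.isClosed_biUnion fun k hk => htc k (hsK k hk)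
    · exact iUnion₂_subset fun k hk => hts k (hsK k hk)
  choose f hf using step
  let c : ℕ → {c : Set X // K' ⊆ interior c ∧ IsClosed c} := fun n =>
    Nat.rec ⟨Set.univ, by simp, isClosed_univ⟩ (fun n c => f n c) n
  have hc : ∀ n, (c (n + 1)).1 ⊆ interior (c n).1 ∩ O' n := fun n => hf n (c n)
  refine ⟨{
    p := p
    q := q
    e := e
    hp := hp
    hq := hq
    pq := pq
    qp := qp
    qe := qe
    K := K'
    hK := hK'c
    eK := heK'
    U := fun n => interior (c n).1
    C := fun n => (c n).1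
    hU := fun n => isOpen_interior
    hC := fun n => (c n).2.2
    KU := fun n => (c n).2.1
    UC := fun n => interior_subset
    CU := fun n => (hc n).trans inter_subset_left
    base := by
      intro V hV hKV
      obtain ⟨n, hn⟩ := hO'b V hV hKV
      exact ⟨n + 1, interior_subset.trans ((hc n).trans (inter_subset_right.trans hn))⟩
    inter := by
      intro x hx
      by_contra hxK
      obtain ⟨n, hn⟩ := hO'b {x}ᶜ isClosed_singleton.isOpen_compl (by
        intro y hy hyx
        exact hxK (hyx ▸ hy))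
      exact hn ((hc n) (interior_subset (hx (n + 1)))).2 rfl }⟩

theorem lindelof_of_hasCompact [T3Space X] (hr : Rectifiable X) (hK : HasCompact X)
    (hc : CCC X) : LindelofSpace X := by
  obtain ⟨d⟩ := exists_data hr hK
  exact d.lindelof hc

/-- the condition in the definition of a `p`-space -/
def PCond (X : Type u) [TopologicalSpace X] : Prop :=
  ∃ γ : ℕ → Set (Set (StoneCech X)),
    (∀ n, ∀ U ∈ γ n, IsOpen U) ∧ (∀ n, ∀ x : X, ∃ U ∈ γ n, stoneCechUnit x ∈ U) ∧
      ∀ x : X, (⋂ n, ⋃₀ {U | U ∈ γ n ∧ stoneCechUnit x ∈ U}) ⊆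
        Set.range (stoneCechUnit : X → StoneCech X)

theorem hasCompact_of_pcond [T35Space X] (x0 : X) (hp : PCond X) : HasCompact X := by
  obtain ⟨γ, hγo, hγc, hγ⟩ := hp
  let j : X → StoneCech X := stoneCechUnit
  have hj : IsEmbedding j := isEmbedding_stoneCechUnit
  choose G hG hGe using fun n => hγc n x0
  have step : ∀ (n : ℕ) (c : {c : Set (StoneCech X) // c ∈ 𝓝 (j x0) ∧ IsClosed c}),
      ∃ c' : {c : Set (StoneCech X) // c ∈ 𝓝 (j x0) ∧ IsClosed c},
        c'.1 ⊆ interior c.1 ∩ G n := by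
    intro n c
    have h1 : interior c.1 ∩ G n ∈ 𝓝 (j x0) :=
      inter_mem (interior_mem_nhds.2 c.2.1) ((hγo n _ (hG n)).mem_nhds (hGe n))
    obtain ⟨t, ht, htc, hts⟩ := exists_mem_nhds_isClosed_subset h1
    exact ⟨⟨t, ht, htc⟩, hts⟩
  choose f hf using step
  let c : ℕ → {c : Set (StoneCech X) // c ∈ 𝓝 (j x0) ∧ IsClosed c} := fun n =>
    Nat.rec ⟨Set.univ, univ_mem, isClosed_univ⟩ (fun n c => f n c) n
  have hc : ∀ n, (c (n + 1)).1 ⊆ interior (c n).1 ∩ G n := fun n => hf n (c n)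
  have hanti : Antitone fun n => (c n).1 :=
    antitone_nat_of_succ_le fun n => ((hc n).trans inter_subset_left).trans interior_subset
  let K' : Set (StoneCech X) := ⋂ n, (c n).1
  have hK'c : IsCompact K' := (isClosed_iInter fun n => (c n).2.2).isCompact
  have hK'r : K' ⊆ Set.range j := by
    refine Subset.trans ?_ (hγ x0)
    intro z hz
    refine mem_iInter.2 fun n => ?_
    exact mem_sUnion.2 ⟨G n, ⟨hG n, hGe n⟩, (hc n (mem_iInter.1 hz (n + 1))).2⟩
  have hKi : ∀ n, K' ⊆ interior (c n).1 := fun n z hz =>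
    (hc n (mem_iInter.1 hz (n + 1))).1
  refine ⟨j ⁻¹' K', hj.isInducing.isCompact_preimage' hK'c hK'r,
    ⟨x0, mem_iInter.2 fun n => mem_of_mem_nhds (c n).2.1⟩,
    fun n => j ⁻¹' interior (c n).1,
    fun n => ⟨isOpen_interior.preimage hj.continuous, preimage_mono (hKi n)⟩, ?_⟩
  intro O hO hKO
  obtain ⟨O', hO', rfl⟩ := hj.isInducing.isOpen_iff.1 hO
  have hKO' : K' ⊆ O' := by
    intro z hz
    obtain ⟨x, rfl⟩ := hK'r hz
    exact hKO hz
  obtain ⟨n, hn⟩ := exists_subset_nhds_of_isCompact' (V := fun n => (c n).1)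
    (directed_of_isDirected_le fun m n h => hanti h)
    (fun n => (c n).2.2.isCompact) (fun n => (c n).2.2)
    (U := O') (fun x hx => hO'.mem_nhds (hKO' hx))
  exact ⟨n, preimage_mono (interior_subset.trans hn)⟩

theorem lindelof_of_pcond [T35Space X] (hr : Rectifiable X) (hp : PCond X) (hc : CCC X) :
    LindelofSpace X := by
  obtain ⟨e, _⟩ := id hr
  exact lindelof_of_hasCompact hr (hasCompact_of_pcond e hp) hc

/-- separable spaces have countable cellularity -/
theorem ccc_of_separable [TopologicalSpace.SeparableSpace X] : CCC X := by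
  intro 𝒞 h𝒞 hd
  exact hd.countable_of_isOpen (fun O hO => (h𝒞 O hO).1) (fun O hO => (h𝒞 O hO).2)

end Q177.Rect
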