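import Mathlib

/-!
# Sierpinski's theorem on the real line
A countable family of pairwise disjoint closed subsets covering the line has a member which is
the whole line.
-/

set_option autoImplicit false

namespace Q177.Sierpinski

open Set Topology

theorem exists_eq_univ {ι : Type*} [Countable ι] (C : ι → Set ℝ) (hc : ∀ i, IsClosed (C i))
    (hd : ∀ i j x, x ∈ C i → x ∈ C j → i = j) (hu : ∀ x, ∃ i, x ∈ C i) :
    ∃ i, C i = Set.univ := by
  classical
  -- the set of points which are interior to no member
  set T : Set ℝ := (⋃ i, interior (C i))ᶜ with hT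
  have hTc : IsClosed T := (isOpen_iUnion fun i => isOpen_interior).isClosed_compl
  -- main step: a connected open set on which `T` is contained in one member
  have key : ∀ (U : Set ℝ) (n : ι), IsPreconnected U → IsOpen U →
      (∀ x ∈ U, x ∈ T → x ∈ C n) → ∀ s ∈ U, ∀ m, s ∈ C m → m ≠ n → U ⊆ C m := by
    intro U n hU hUo hUT s hs m hsm hmn
    -- `C m ∩ U = interior (C m) ∩ U`
    have h1 : ∀ x ∈ U, x ∈ C m → x ∈ interior (C m) := by
      intro x hx hxm
      by_contra hcon
      have hxT : x ∈ T := by
        rw [hT, mem_compl_iff, mem_iUnion]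
        rintro ⟨i, hi⟩
        have := hd i m x (interior_subset hi) hxm
        subst this
        exact hcon hi
      exact hmn (hd m n x hxm (hUT x hx hxT))
    by_contra hcon
    rw [Set.not_subset] at hcon
    obtain ⟨y, hyU, hyC⟩ := hcon
    obtain ⟨z, hzU, hz1, hz2⟩ := hU (interior (C m)) (C m)ᶜ isOpen_interior (hc m).isOpen_compl
      (by
        intro x hx
        by_cases hxm : x ∈ C m
        · exact Or.inl (h1 x hx hxm)
        · exact Or.inr hxm)
      ⟨s, hs, h1 s hs hsm⟩ ⟨y, hyU, hyC⟩
    exact hz2 (interior_subset hz1)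
  by_cases hTe : T = ∅
  · obtain ⟨i0, hi0⟩ := hu 0
    by_contra hcon
    push Not at hcon
    have hne := hcon i0
    rw [Set.ne_univ_iff_exists_notMem] at hne
    obtain ⟨y, hy⟩ := hne
    obtain ⟨z, -, hz1, hz2⟩ := isPreconnected_univ (α := ℝ) (interior (C i0)) (C i0)ᶜ
      isOpen_interior (hc i0).isOpen_compl
      (by
        intro x _
        by_cases hxm : x ∈ C i0
        · left
          have : x ∉ T := by rw [hTe]; simp
          rw [hT, mem_compl_iff, not_not, mem_iUnion] at this
          obtain ⟨i, hi⟩ := this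
          have := hd i i0 x (interior_subset hi) hxm
          subst this
          exact hi
        · exact Or.inr hxm)
      ⟨0, mem_univ _, (by
        have : (0 : ℝ) ∉ T := by rw [hTe]; simp
        rw [hT, mem_compl_iff, not_not, mem_iUnion] at this
        obtain ⟨i, hi⟩ := this
        have := hd i i0 0 (interior_subset hi) hi0
        subst this
        exact hi)⟩ ⟨y, mem_univ _, hy⟩
    exact hz2 (interior_subset hz1)
  · exfalso
    have hTn : T.Nonempty := Set.nonempty_iff_ne_empty.mpr hTe
    have : CompleteSpace T := hTc.completeSpace_coe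
    have : Nonempty T := hTn.to_subtype
    obtain ⟨n, hn⟩ := nonempty_interior_of_iUnion_of_closed
      (f := fun i => ((↑) : T → ℝ) ⁻¹' (C i))
      (fun i => (hc i).preimage continuous_subtype_val) (by
        rw [Set.eq_univ_iff_forall]
        intro x
        obtain ⟨i, hi⟩ := hu x
        exact mem_iUnion.mpr ⟨i, hi⟩)
    obtain ⟨t, ht⟩ := hn
    rw [mem_interior] at ht
    obtain ⟨V, hVs, hVo, htV⟩ := ht
    obtain ⟨W, hWo, rfl⟩ := isOpen_induced_iff.mp hVo
    obtain ⟨ε, hε, hball⟩ := Metric.isOpen_iff.mp hWo t htV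
    have hUT : ∀ x ∈ Metric.ball (t : ℝ) ε, x ∈ T → x ∈ C n := by
      intro x hx hxT
      exact hVs (a := ⟨x, hxT⟩) (hball hx)
    have htn : (t : ℝ) ∈ C n := hUT t (Metric.mem_ball_self hε) t.2
    -- `t` is not interior to `C n`
    have hnot : ¬ Metric.ball (t : ℝ) ε ⊆ C n := by
      intro h
      have htT : (t : ℝ) ∉ ⋃ i, interior (C i) := t.2
      exact htT (mem_iUnion.mpr
        ⟨n, mem_interior.mpr ⟨_, h, Metric.isOpen_ball, Metric.mem_ball_self hε⟩⟩)
    rw [Set.not_subset] at hnot
    obtain ⟨s, hsU, hsn⟩ := hnot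
    obtain ⟨m, hm⟩ := hu s
    have hmn : m ≠ n := by
      rintro rfl
      exact hsn hm
    have h2 := key (Metric.ball (t : ℝ) ε) n (convex_ball _ _).isPreconnected
      Metric.isOpen_ball hUT s hsU m hm hmn
    exact hmn (hd m n t (h2 (Metric.mem_ball_self hε)) htn)

end Q177.Sierpinski
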