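import Mathlib

set_option autoImplicit false

universe u

namespace Q177.SubRank

open Set

variable {X : Type u}

/-! ### Ideals in families of sets -/

/-- `I` is a (nonempty, directed, downward closed) ideal of the family `Δ` -/
structure IsIdl (Δ I : Set (Set X)) : Prop where
  sub : I ⊆ Δ
  ne : I.Nonempty
  dir : ∀ D ∈ I, ∀ E ∈ I, ∃ F ∈ I, D ⊆ F ∧ E ⊆ F
  down : ∀ D ∈ Δ, ∀ E ∈ I, D ⊆ E → D ∈ I

/-- maximal ideals -/
structure IsMaxIdl (Δ I : Set (Set X)) : Prop where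
  idl : IsIdl Δ I
  max : ∀ J, IsIdl Δ J → I ⊆ J → J ⊆ I

theorem exists_maxIdl {Δ : Set (Set X)} {D : Set X} (hD : D ∈ Δ) :
    ∃ I, IsMaxIdl Δ I ∧ D ∈ I := by
  have hI0 : IsIdl Δ {E | E ∈ Δ ∧ E ⊆ D} :=
    { sub := fun E hE => hE.1
      ne := ⟨D, hD, subset_rfl⟩
      dir := fun E hE F hF => ⟨D, ⟨hD, subset_rfl⟩, hE.2, hF.2⟩
      down := fun E hE F hF hEF => ⟨hE, hEF.trans hF.2⟩ }
  obtain ⟨M, hM0, hM⟩ := zorn_subset_nonempty {I | IsIdl Δ I} (by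
    intro c hc hch hcn
    refine ⟨⋃₀ c, ?_, fun s hs => subset_sUnion_of_mem hs⟩
    refine ⟨sUnion_subset fun I hI => (hc hI).sub, ?_, ?_, ?_⟩
    · obtain ⟨I, hI⟩ := hcn
      obtain ⟨E, hE⟩ := (hc hI).ne
      exact ⟨E, I, hI, hE⟩
    · rintro E ⟨I, hI, hEI⟩ F ⟨J, hJ, hFJ⟩
      rcases hch.total hI hJ with h | h
      · obtain ⟨G, hG, h1, h2⟩ := (hc hJ).dir E (h hEI) F hFJ
        exact ⟨G, ⟨J, hJ, hG⟩, h1, h2⟩
      · obtain ⟨G, hG, h1, h2⟩ := (hc hI).dir E hEI F (h hFJ)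
        exact ⟨G, ⟨I, hI, hG⟩, h1, h2⟩
    · rintro E hE F ⟨J, hJ, hFJ⟩ hEF
      exact ⟨J, hJ, (hc hJ).down E hE F hFJ hEF⟩) _ hI0
  exact ⟨M, ⟨hM.prop, fun J hJ hMJ => hM.2 hJ hMJ⟩, hM0 ⟨hD, subset_rfl⟩⟩

/-- no infinite sequence of pairwise incomparable members through `x` -/
def Fac (Δ : Set (Set X)) (x : X) : Prop :=
  ∀ f : ℕ → Set X, (∀ n, f n ∈ Δ ∧ x ∈ f n) →
    (∀ m n, m < n → ¬ f m ⊆ f n ∧ ¬ f n ⊆ f m) → False

theorem Fac.mono {Δ Δ' : Set (Set X)} {x : X} (h : Fac Δ x) (hs : Δ' ⊆ Δ) : Fac Δ' x :=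
  fun f hf hi => h f (fun n => ⟨hs (hf n).1, (hf n).2⟩) hi

/-- compatibility among members through `x` -/
def Cpt (Δ : Set (Set X)) (x : X) (D E : Set X) : Prop :=
  ∃ F ∈ Δ, x ∈ F ∧ D ⊆ F ∧ E ⊆ F

theorem Cpt.symm {Δ : Set (Set X)} {x : X} {D E : Set X} (h : Cpt Δ x D E) : Cpt Δ x E D := by
  obtain ⟨F, hF, hx, h1, h2⟩ := h
  exact ⟨F, hF, hx, h2, h1⟩

/-- the members through `x` above `D` form a directed family -/
def Da (Δ : Set (Set X)) (x : X) (D : Set X) : Prop :=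
  D ∈ Δ ∧ x ∈ D ∧ ∀ E ∈ Δ, ∀ F ∈ Δ, D ⊆ E → D ⊆ F → Cpt Δ x E F

theorem exists_da {Δ : Set (Set X)} {x : X} (hfac : Fac Δ x) {D : Set X} (hD : D ∈ Δ)
    (hx : x ∈ D) : ∃ E, Da Δ x E ∧ D ⊆ E := by
  by_contra hcon
  push Not at hcon
  -- every extension splits
  have hsplit : ∀ P : {E : Set X // E ∈ Δ ∧ D ⊆ E}, ∃ Q : {E : Set X // E ∈ Δ ∧ D ⊆ E},
      ∃ R : {E : Set X // E ∈ Δ ∧ D ⊆ E}, P.1 ⊆ Q.1 ∧ P.1 ⊆ R.1 ∧ ¬ Cpt Δ x Q.1 R.1 := by
    rintro ⟨P, hP, hDP⟩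
    have h1 : ¬ Da Δ x P := fun h => hcon P h hDP
    unfold Da at h1
    push Not at h1
    obtain ⟨E, hE, F, hF, hPE, hPF, h⟩ := h1 hP (hDP hx)
    exact ⟨⟨E, hE, hDP.trans hPE⟩, ⟨F, hF, hDP.trans hPF⟩, hPE, hPF, h⟩
  choose Q R hQ hR hQR using hsplit
  let r : ℕ → {E : Set X // E ∈ Δ ∧ D ⊆ E} := fun n => Nat.rec ⟨D, hD, subset_rfl⟩ (fun _ P => R P) n
  have hrs : ∀ n, r (n + 1) = R (r n) := fun n => rfl
  have hmono : ∀ m n, m ≤ n → (r m).1 ⊆ (r n).1 := by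
    intro m n hmn
    induction hmn with
    | refl => exact subset_rfl
    | step _ ih => exact ih.trans (by rw [hrs]; exact hR _)
  have hinc : ∀ m n, m < n → ¬ Cpt Δ x (Q (r m)).1 (Q (r n)).1 := by
    rintro m n hmn ⟨F, hF, hxF, h1, h2⟩
    refine hQR (r m) ⟨F, hF, hxF, h1, ?_⟩
    have h3 : (R (r m)).1 ⊆ (r n).1 := by
      rw [← hrs]; exact hmono _ _ hmn
    exact (h3.trans (hQ _)).trans h2
  refine hfac (fun n => (Q (r n)).1) (fun n => ⟨(Q (r n)).2.1, (Q (r n)).2.2 hx⟩) ?_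
  intro m n hmn
  refine ⟨fun h => hinc m n hmn ?_, fun h => hinc m n hmn ?_⟩
  · exact ⟨(Q (r n)).1, (Q (r n)).2.1, (Q (r n)).2.2 hx, h, subset_rfl⟩
  · exact ⟨(Q (r m)).1, (Q (r m)).2.1, (Q (r m)).2.2 hx, subset_rfl, h⟩

theorem finite_of_fac {Δ : Set (Set X)} {x : X} (hfac : Fac Δ x) {A : Set (Set X)}
    (hA : ∀ D ∈ A, D ∈ Δ ∧ x ∈ D) (hinc : ∀ D ∈ A, ∀ E ∈ A, D ⊆ E → D = E) : A.Finite := by
  by_contra hinf
  have hinf' : A.Infinite := hinf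
  let f : ℕ ↪ A := Set.Infinite.natEmbedding A hinf'
  refine hfac (fun n => (f n).1) (fun n => hA _ (f n).2) ?_
  intro m n hmn
  refine ⟨fun h => ?_, fun h => ?_⟩
  · have := hinc _ (f m).2 _ (f n).2 h
    exact absurd (f.injective (Subtype.ext this)) (ne_of_lt hmn)
  · have := hinc _ (f n).2 _ (f m).2 h
    exact absurd (f.injective (Subtype.ext this)) (ne_of_gt hmn)

/-- only finitely many maximal ideals have a member through `x` -/
theorem finite_maxIdl {Δ : Set (Set X)} {x : X} (hfac : Fac Δ x) :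
    {I | IsMaxIdl Δ I ∧ x ∈ ⋃₀ I}.Finite := by
  -- a maximal pairwise incompatible family of directed elements
  obtain ⟨A, hA⟩ : ∃ A, Maximal (fun A : Set (Set X) => (∀ D ∈ A, Da Δ x D) ∧
      ∀ D ∈ A, ∀ E ∈ A, D ≠ E → ¬ Cpt Δ x D E) A := by
    refine zorn_subset {A : Set (Set X) | (∀ D ∈ A, Da Δ x D) ∧
      ∀ D ∈ A, ∀ E ∈ A, D ≠ E → ¬ Cpt Δ x D E} ?_
    intro c hc hch
    refine ⟨⋃₀ c, ⟨?_, ?_⟩, fun s hs => subset_sUnion_of_mem hs⟩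
    · rintro D ⟨A, hA, hD⟩
      exact (hc hA).1 D hD
    · rintro D ⟨A, hA, hD⟩ E ⟨B, hB, hE⟩ hne
      rcases hch.total hA hB with h | h
      · exact (hc hB).2 D (h hD) E hE hne
      · exact (hc hA).2 D hD E (h hE) hne
  have hAda := hA.prop.1
  have hAinc := hA.prop.2
  have hAfin : A.Finite := by
    refine finite_of_fac hfac (fun D hD => ⟨(hAda D hD).1, (hAda D hD).2.1⟩) ?_
    intro D hD E hE hDE
    by_contra hne
    exact hAinc D hD E hE hne ⟨E, (hAda E hE).1, (hAda E hE).2.1, hDE, subset_rfl⟩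
  -- every member through `x` is compatible with an element of `A`
  have hcpt : ∀ D ∈ Δ, x ∈ D → ∃ P ∈ A, Cpt Δ x P D := by
    intro D hD hx
    obtain ⟨E, hE, hDE⟩ := exists_da hfac hD hx
    by_contra hcon
    push Not at hcon
    have hEA : ∀ P ∈ A, ¬ Cpt Δ x P E := by
      rintro P hP ⟨F, hF, hxF, h1, h2⟩
      exact hcon P hP ⟨F, hF, hxF, h1, hDE.trans h2⟩
    have hEnot : E ∉ A := fun h => hEA E h ⟨E, hE.1, hE.2.1, subset_rfl, subset_rfl⟩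
    have hins : insert E A ⊆ A := hA.2 (by
      refine ⟨?_, ?_⟩
      · intro P hP
        rcases mem_insert_iff.1 hP with rfl | hP
        · exact hE
        · exact hAda P hP
      · intro P hP Q hQ hne
        rcases mem_insert_iff.1 hP with h1 | h1
        · rcases mem_insert_iff.1 hQ with h2 | h2
          · exact absurd (h1.trans h2.symm) hne
          · rw [h1]
            exact fun h => hEA Q h2 h.symm
        · rcases mem_insert_iff.1 hQ with h2 | h2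
          · rw [h2]
            exact hEA P h1
          · exact hAinc P h1 Q h2 hne) (subset_insert E A)
    exact hEnot (hins (mem_insert E A))
  -- the ideals
  let J : Set X → Set (Set X) := fun P => {D | D ∈ Δ ∧ Cpt Δ x P D}
  have hJ : ∀ P ∈ A, IsIdl Δ (J P) := by
    intro P hP
    refine ⟨fun D hD => hD.1, ⟨P, (hAda P hP).1, P, (hAda P hP).1, (hAda P hP).2.1, subset_rfl,
      subset_rfl⟩, ?_, ?_⟩
    · rintro D ⟨hD, F, hF, hxF, hPF, hDF⟩ E ⟨hE, G, hG, hxG, hPG, hEG⟩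
      obtain ⟨K, hK, hxK, hFK, hGK⟩ := (hAda P hP).2.2 F hF G hG hPF hPG
      exact ⟨K, ⟨hK, K, hK, hxK, hPF.trans hFK, subset_rfl⟩, hDF.trans hFK, hEG.trans hGK⟩
    · rintro D hD E ⟨hE, F, hF, hxF, hPF, hEF⟩ hDE
      exact ⟨hD, F, hF, hxF, hPF, hDE.trans hEF⟩
  refine (hAfin.image J).subset ?_
  rintro I ⟨hI, hxI⟩
  obtain ⟨D0, hD0, hxD0⟩ := hxI
  have hex : ∃ P ∈ A, I ⊆ J P := by
    by_contra hcon
    push Not at hcon
    have hex2 : ∀ P : A, ∃ D ∈ I, D ∉ J P.1 := fun P => Set.not_subset.1 (hcon P.1 P.2)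
    choose d hd hdJ using hex2
    have : Finite A := hAfin
    -- an upper bound in `I`
    have hub : ∀ s : Set A, s.Finite → ∃ U ∈ I, D0 ⊆ U ∧ ∀ P ∈ s, d P ⊆ U := by
      intro s hs
      refine Set.Finite.induction_on s hs ⟨D0, hD0, subset_rfl, by simp⟩ ?_
      intro P s _ _ ih
      obtain ⟨U, hU, hDU, hsU⟩ := ih
      obtain ⟨V, hV, hUV, hdV⟩ := hI.idl.dir U hU (d P) (hd P)
      refine ⟨V, hV, hDU.trans hUV, ?_⟩
      intro Q hQ
      rcases mem_insert_iff.1 hQ with rfl | hQ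
      · exact hdV
      · exact (hsU Q hQ).trans hUV
    obtain ⟨U, hU, hDU, hsU⟩ := hub univ (toFinite _)
    obtain ⟨P, hP, hPU⟩ := hcpt U (hI.idl.sub hU) (hDU hxD0)
    exact hdJ ⟨P, hP⟩ ((hJ P hP).down _ (hI.idl.sub (hd ⟨P, hP⟩)) U ⟨hI.idl.sub hU, hPU⟩
      (hsU ⟨P, hP⟩ (mem_univ _)))
  obtain ⟨P, hP, hIP⟩ := hex
  exact ⟨P, hP, Subset.antisymm (hI.max _ (hJ P hP) hIP) hIP⟩

/-- members of an ideal containing finitely many given points of the union -/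
theorem exists_mem_finite {Δ I : Set (Set X)} (hI : IsIdl Δ I) {s : Set X} (hs : s.Finite)
    (hsI : s ⊆ ⋃₀ I) : ∃ D ∈ I, s ⊆ D := by
  have hdir : DirectedOn (· ⊆ ·) I := fun D hD E hE => hI.dir D hD E hE
  exact DirectedOn.exists_mem_subset_of_finite_of_subset_sUnion hI.ne hdir hs hsI

end Q177.SubRank
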