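import Pool.Agent.Q177.SubRank

set_option autoImplicit false

universe u

namespace Q177.SubRank

open Set

variable {X : Type u}

/-- `I` is a leaf: its union lies in a member of the cover -/
def Leaf (𝒰 : Set (Set X)) (I : Set (Set X)) : Prop := ∃ U ∈ 𝒰, ⋃₀ I ⊆ U

open Classical in
/-- a pair of distinguishable points in the union (if there is one) -/
noncomputable def pr [TopologicalSpace X] [Nonempty X] (I : Set (Set X)) : X × X :=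
  if h : ∃ p : X × X, p.1 ∈ ⋃₀ I ∧ p.2 ∈ ⋃₀ I ∧ ¬ Inseparable p.1 p.2 then h.choose
  else Classical.arbitrary _

/-- members of `I` which do not contain both points of the pair -/
def split [TopologicalSpace X] [Nonempty X] (I : Set (Set X)) : Set (Set X) :=
  {D | D ∈ I ∧ ¬ ((pr I).1 ∈ D ∧ (pr I).2 ∈ D)}

/-- child relation -/
def Child [TopologicalSpace X] [Nonempty X] (𝒰 : Set (Set X)) (I J : Set (Set X)) : Prop :=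
  ¬ Leaf 𝒰 I ∧ IsMaxIdl (split I) J

section

variable [TopologicalSpace X] [Nonempty X] {𝒰 : Set (Set X)} {Γ : Set (Set X)}

theorem pr_spec {I : Set (Set X)} (hΓo : ∀ D ∈ Γ, IsOpen D) (hΓ : ∀ D ∈ Γ, ∃ U ∈ 𝒰, D ⊆ U)
    (hΓne : ∀ D ∈ Γ, D.Nonempty) (hI : IsIdl Γ I) (hleaf : ¬ Leaf 𝒰 I) :
    (pr I).1 ∈ ⋃₀ I ∧ (pr I).2 ∈ ⋃₀ I ∧ ¬ Inseparable (pr I).1 (pr I).2 := by
  have h : ∃ p : X × X, p.1 ∈ ⋃₀ I ∧ p.2 ∈ ⋃₀ I ∧ ¬ Inseparable p.1 p.2 := by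
    by_contra hcon
    push Not at hcon
    obtain ⟨D, hD⟩ := hI.ne
    obtain ⟨a, ha⟩ := hΓne D (hI.sub hD)
    obtain ⟨U, hU, hDU⟩ := hΓ D (hI.sub hD)
    refine hleaf ⟨U, hU, fun z hz => hDU ?_⟩
    exact ((hcon (a, z) ⟨D, hD, ha⟩ hz).mem_open_iff (hΓo D (hI.sub hD))).1 ha
  unfold pr
  rw [dif_pos h]
  exact h.choose_spec

theorem split_sub (I : Set (Set X)) : split I ⊆ I := fun _ hD => hD.1

/-- a child is again an ideal of the family -/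
theorem child_idl {I J : Set (Set X)} (hI : IsIdl Γ I) (hJ : Child 𝒰 I J) : IsIdl Γ J := by
  refine ⟨(hJ.2.idl.sub.trans (split_sub I)).trans hI.sub, hJ.2.idl.ne, hJ.2.idl.dir, ?_⟩
  intro D hD E hE hDE
  have hE' := hJ.2.idl.sub hE
  refine hJ.2.idl.down D ⟨hI.down D hD E hE'.1 hDE, ?_⟩ E hE hDE
  exact fun h => hE'.2 ⟨hDE h.1, hDE h.2⟩

/-- the members of the family which do not contain both points still cover -/
theorem exists_split [R0Space X] (hΓo : ∀ D ∈ Γ, IsOpen D)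
    (hΓ : ∀ D ∈ Γ, ∃ U ∈ 𝒰, D ⊆ U) (hΓne : ∀ D ∈ Γ, D.Nonempty)
    (hbase : ∀ D ∈ Γ, ∀ W : Set X, IsOpen W → ∀ z ∈ D ∩ W, ∃ G ∈ Γ, z ∈ G ∧ G ⊆ D ∩ W)
    {I : Set (Set X)} (hI : IsIdl Γ I) (hleaf : ¬ Leaf 𝒰 I) {z : X} (hz : z ∈ ⋃₀ I) :
    ∃ D ∈ split I, z ∈ D := by
  obtain ⟨ha, hb, hab⟩ := pr_spec hΓo hΓ hΓne hI hleaf
  obtain ⟨D, hD, hzD⟩ := hz
  -- a point of the pair that can be separated from `z`
  have key : ∀ c : X, ¬ Inseparable z c → ∃ W : Set X, IsOpen W ∧ z ∈ W ∧ c ∉ W := by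
    intro c hc
    by_contra hcon
    push Not at hcon
    have h1 : c ⤳ z := specializes_iff_forall_open.2 fun W hW hzW => hcon W hW hzW
    exact hc (h1.symm.antisymm h1)
  by_cases h1 : Inseparable z (pr I).1
  · have h2 : ¬ Inseparable z (pr I).2 := fun h => hab (h1.symm.trans h)
    obtain ⟨W, hW, hzW, hcW⟩ := key _ h2
    obtain ⟨G, hG, hzG, hGD⟩ := hbase D (hI.sub hD) W hW z ⟨hzD, hzW⟩
    exact ⟨G, ⟨hI.down G hG D hD (hGD.trans inter_subset_left),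
      fun h => hcW (hGD h.2).2⟩, hzG⟩
  · obtain ⟨W, hW, hzW, hcW⟩ := key _ h1
    obtain ⟨G, hG, hzG, hGD⟩ := hbase D (hI.sub hD) W hW z ⟨hzD, hzW⟩
    exact ⟨G, ⟨hI.down G hG D hD (hGD.trans inter_subset_left),
      fun h => hcW (hGD h.1).2⟩, hzG⟩

/-- there is no infinite branch through a point -/
theorem no_branch (hΓo : ∀ D ∈ Γ, IsOpen D)
    (hΓ : ∀ D ∈ Γ, ∃ U ∈ 𝒰, D ⊆ U) (hΓne : ∀ D ∈ Γ, D.Nonempty) {x : X} (hfac : Fac Γ x)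
    (I : ℕ → Set (Set X)) (hI : ∀ n, IsIdl Γ (I n)) (hx : ∀ n, x ∈ ⋃₀ I n)
    (hch : ∀ n, Child 𝒰 (I n) (I (n + 1))) : False := by
  classical
  have hsub : ∀ m n, m < n → I n ⊆ split (I m) := by
    intro m n hmn
    have h1 : ∀ k, I (m + 1 + k) ⊆ I (m + 1) := by
      intro k
      induction k with
      | zero => exact subset_rfl
      | succ k ih => exact ((hch (m + 1 + k)).2.idl.sub.trans (split_sub _)).trans ih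
    obtain ⟨k, rfl⟩ : ∃ k, n = m + 1 + k := ⟨n - (m + 1), by omega⟩
    exact (h1 k).trans (hch m).2.idl.sub
  -- members containing the pair and `x`
  have hE : ∀ n, ∃ E ∈ I n, (pr (I n)).1 ∈ E ∧ (pr (I n)).2 ∈ E ∧ x ∈ E := by
    intro n
    obtain ⟨ha, hb, _⟩ := pr_spec hΓo hΓ hΓne (hI n) (hch n).1
    obtain ⟨E, hE, hs⟩ := exists_mem_finite (hI n)
      (s := {(pr (I n)).1, (pr (I n)).2, x}) (toFinite _) (by
        intro z hz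
        rcases hz with rfl | rfl | rfl
        · exact ha
        · exact hb
        · exact hx n)
    exact ⟨E, hE, hs (by simp), hs (by simp), hs (by simp)⟩
  choose E hEI hEa hEb hEx using hE
  obtain ⟨F, hF, hFF⟩ := exists_seq_of_forall_finset_exists
    (fun p : ℕ × Set X => p.2 ∈ I p.1 ∧ E p.1 ⊆ p.2)
    (fun p q => p.1 < q.1 ∧ ¬ q.2 ⊆ p.2) (by
      intro s hs
      -- an index above
      obtain ⟨n, hn⟩ : ∃ n : ℕ, ∀ p ∈ s, p.1 < n := by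
        refine ⟨(s.sup fun p => p.1) + 1, fun p hp => ?_⟩
        exact Nat.lt_succ_of_le (Finset.le_sup (f := fun p : ℕ × Set X => p.1) hp)
      -- points outside the previous members
      have hpt : ∀ p : {p // p ∈ s}, ∃ c ∈ ⋃₀ I n, c ∉ p.1.2 := by
        intro p
        by_contra hcon
        push Not at hcon
        obtain ⟨U, hU, hpU⟩ := hΓ p.1.2 ((hI _).sub (hs p.1 p.2).1)
        exact (hch n).1 ⟨U, hU, fun z hz => hpU (hcon z hz)⟩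
      choose c hcI hcp using hpt
      obtain ⟨G, hG, hsG⟩ := exists_mem_finite (hI n) (s := range c) (finite_range c)
        (range_subset_iff.2 hcI)
      obtain ⟨H, hH, hGH, hEH⟩ := (hI n).dir G hG (E n) (hEI n)
      refine ⟨(n, H), ⟨hH, hEH⟩, fun p hp => ⟨hn p hp, fun h => ?_⟩⟩
      exact hcp ⟨p, hp⟩ (h (hGH (hsG ⟨⟨p, hp⟩, rfl⟩))))
  refine hfac (fun n => (F n).2) (fun n => ⟨(hI _).sub (hF n).1, (hF n).2 (hEx _)⟩) ?_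
  intro m n hmn
  refine ⟨fun h => ?_, (hFF m n hmn).2⟩
  have h1 := (hsub (F m).1 (F n).1 (hFF m n hmn).1 (hF n).1).2
  exact h1 ⟨h ((hF m).2 (hEa _)), h ((hF m).2 (hEb _))⟩

/-- child relation through a point -/
def Cx (𝒰 Γ : Set (Set X)) (x : X) (J I : Set (Set X)) : Prop :=
  (IsIdl Γ I ∧ x ∈ ⋃₀ I) ∧ Child 𝒰 I J ∧ x ∈ ⋃₀ J

theorem wf_cx (hΓo : ∀ D ∈ Γ, IsOpen D)
    (hΓ : ∀ D ∈ Γ, ∃ U ∈ 𝒰, D ⊆ U) (hΓne : ∀ D ∈ Γ, D.Nonempty) {x : X} (hfac : Fac Γ x) :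
    WellFounded (Cx 𝒰 Γ x) := by
  rw [wellFounded_iff_isEmpty_descending_chain]
  refine ⟨fun ⟨I, hI⟩ => ?_⟩
  exact no_branch hΓo hΓ hΓne hfac I (fun n => (hI n).1.1) (fun n => (hI n).1.2)
    (fun n => (hI n).2.1)

/-- the descendants of an ideal which are leaves -/
def Lv (𝒰 : Set (Set X)) (I : Set (Set X)) : Set (Set (Set X)) :=
  {J | Relation.ReflTransGen (Child 𝒰) I J ∧ Leaf 𝒰 J}

theorem desc_sub {I J : Set (Set X)} (h : Relation.ReflTransGen (Child 𝒰) I J) : J ⊆ I := by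
  induction h with
  | refl => exact subset_rfl
  | tail _ hc ih => exact (hc.2.idl.sub.trans (split_sub _)).trans ih

theorem lv_main [R0Space X] (hΓo : ∀ D ∈ Γ, IsOpen D)
    (hΓ : ∀ D ∈ Γ, ∃ U ∈ 𝒰, D ⊆ U) (hΓne : ∀ D ∈ Γ, D.Nonempty)
    (hbase : ∀ D ∈ Γ, ∀ W : Set X, IsOpen W → ∀ z ∈ D ∩ W, ∃ G ∈ Γ, z ∈ G ∧ G ⊆ D ∩ W)
    {x : X} (hfac : Fac Γ x) (I : Set (Set X)) :
    IsIdl Γ I → x ∈ ⋃₀ I → {J | J ∈ Lv 𝒰 I ∧ x ∈ ⋃₀ J}.Finite ∧ ∃ J ∈ Lv 𝒰 I, x ∈ ⋃₀ J := by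
  induction I using (wf_cx hΓo hΓ hΓne hfac).induction with
  | _ I ih =>
    intro hI hx
    by_cases hleaf : Leaf 𝒰 I
    · refine ⟨(finite_singleton I).subset ?_, I, ⟨Relation.ReflTransGen.refl, hleaf⟩, hx⟩
      rintro J ⟨⟨hJ, _⟩, _⟩
      rcases Relation.ReflTransGen.cases_head hJ with h | ⟨K, hK, _⟩
      · exact h.symm
      · exact absurd hleaf hK.1
    · have hfin : {K | IsMaxIdl (split I) K ∧ x ∈ ⋃₀ K}.Finite :=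
        finite_maxIdl (hfac.mono ((split_sub I).trans hI.sub))
      refine ⟨?_, ?_⟩
      · refine (hfin.biUnion (t := fun K => {J | J ∈ Lv 𝒰 K ∧ x ∈ ⋃₀ J}) ?_).subset ?_
        · rintro K ⟨hK, hxK⟩
          exact (ih K ⟨⟨hI, hx⟩, ⟨hleaf, hK⟩, hxK⟩ (child_idl hI ⟨hleaf, hK⟩) hxK).1
        · rintro J ⟨⟨hJ, hJl⟩, hxJ⟩
          rcases Relation.ReflTransGen.cases_head hJ with h | ⟨K, hK, hKJ⟩
          · rw [← h] at hJl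
            exact absurd hJl hleaf
          · have hxK : x ∈ ⋃₀ K := sUnion_subset_sUnion (desc_sub hKJ) hxJ
            exact mem_biUnion (show K ∈ {K | IsMaxIdl (split I) K ∧ x ∈ ⋃₀ K} from ⟨hK.2, hxK⟩)
              ⟨⟨hKJ, hJl⟩, hxJ⟩
      · obtain ⟨D, hD, hxD⟩ := exists_split hΓo hΓ hΓne hbase hI hleaf hx
        obtain ⟨K, hK, hDK⟩ := exists_maxIdl hD
        have hxK : x ∈ ⋃₀ K := ⟨D, hDK, hxD⟩
        obtain ⟨J, ⟨hJ, hJl⟩, hxJ⟩ :=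
          (ih K ⟨⟨hI, hx⟩, ⟨hleaf, hK⟩, hxK⟩ (child_idl hI ⟨hleaf, hK⟩) hxK).2
        exact ⟨J, ⟨Relation.ReflTransGen.head ⟨hleaf, hK⟩ hJ, hJl⟩, hxJ⟩

end

/-- the main theorem -/
theorem main [TopologicalSpace X] [R0Space X] {B : Set (Set X)}
    (hB : TopologicalSpace.IsTopologicalBasis B) (hfac : ∀ x, Fac B x)
    (𝒰 : Set (Set X)) (h𝒰 : ∀ U ∈ 𝒰, IsOpen U) (hcov : ⋃₀ 𝒰 = univ) :
    ∃ 𝒱 : Set (Set X), (∀ V ∈ 𝒱, IsOpen V) ∧ ⋃₀ 𝒱 = univ ∧ (∀ V ∈ 𝒱, ∃ U ∈ 𝒰, V ⊆ U) ∧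
      ∀ x, {V ∈ 𝒱 | x ∈ V}.Finite := by
  rcases isEmpty_or_nonempty X with hX | hX
  · refine ⟨∅, by simp, ?_, by simp, fun x => (hX.false x).elim⟩
    exact Subsingleton.elim _ _
  set Γ : Set (Set X) := {D | D ∈ B ∧ D.Nonempty ∧ ∃ U ∈ 𝒰, D ⊆ U} with hΓdef
  have hΓo : ∀ D ∈ Γ, IsOpen D := fun D hD => hB.isOpen hD.1
  have hΓ : ∀ D ∈ Γ, ∃ U ∈ 𝒰, D ⊆ U := fun D hD => hD.2.2
  have hΓne : ∀ D ∈ Γ, D.Nonempty := fun D hD => hD.2.1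
  have hbase : ∀ D ∈ Γ, ∀ W : Set X, IsOpen W → ∀ z ∈ D ∩ W, ∃ G ∈ Γ, z ∈ G ∧ G ⊆ D ∩ W := by
    intro D hD W hW z hz
    obtain ⟨G, hG, hzG, hGD⟩ := hB.exists_subset_of_mem_open hz ((hΓo D hD).inter hW)
    obtain ⟨U, hU, hDU⟩ := hΓ D hD
    exact ⟨G, ⟨hG, ⟨z, hzG⟩, U, hU, (hGD.trans inter_subset_left).trans hDU⟩, hzG, hGD⟩
  have hcovΓ : ∀ x, ∃ D ∈ Γ, x ∈ D := by
    intro x
    have : x ∈ ⋃₀ 𝒰 := by rw [hcov]; trivial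
    obtain ⟨U, hU, hxU⟩ := this
    obtain ⟨G, hG, hxG, hGU⟩ := hB.exists_subset_of_mem_open hxU (h𝒰 U hU)
    exact ⟨G, ⟨hG, ⟨x, hxG⟩, U, hU, hGU⟩, hxG⟩
  have hfacΓ : ∀ x, Fac Γ x := fun x => (hfac x).mono fun D hD => hD.1
  have hopenI : ∀ I J, IsMaxIdl Γ I → J ∈ Lv 𝒰 I → J ⊆ Γ := fun I J hI hJ =>
    (desc_sub hJ.1).trans hI.idl.sub
  refine ⟨{V | ∃ I J, IsMaxIdl Γ I ∧ J ∈ Lv 𝒰 I ∧ V = ⋃₀ J}, ?_, ?_, ?_, ?_⟩
  · rintro V ⟨I, J, hI, hJ, rfl⟩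
    exact isOpen_sUnion fun D hD => hΓo D (hopenI I J hI hJ hD)
  · refine eq_univ_of_forall fun x => ?_
    obtain ⟨D, hD, hxD⟩ := hcovΓ x
    obtain ⟨I, hI, hDI⟩ := exists_maxIdl hD
    obtain ⟨J, hJ, hxJ⟩ := (lv_main hΓo hΓ hΓne hbase (hfacΓ x) I hI.idl ⟨D, hDI, hxD⟩).2
    exact ⟨⋃₀ J, ⟨I, J, hI, hJ, rfl⟩, hxJ⟩
  · rintro V ⟨I, J, hI, hJ, rfl⟩
    exact hJ.2
  · intro x
    refine (((finite_maxIdl (hfacΓ x)).biUnion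
      (t := fun I => {J | J ∈ Lv 𝒰 I ∧ x ∈ ⋃₀ J}) ?_).image (fun J : Set (Set X) => ⋃₀ J)).subset ?_
    · rintro I ⟨hI, hxI⟩
      exact (lv_main hΓo hΓ hΓne hbase (hfacΓ x) I hI.idl hxI).1
    · rintro V ⟨⟨I, J, hI, hJ, rfl⟩, hxV⟩
      refine ⟨J, mem_biUnion (show I ∈ {I | IsMaxIdl Γ I ∧ x ∈ ⋃₀ I} from
        ⟨hI, sUnion_subset_sUnion (desc_sub hJ.1) hxV⟩) ⟨hJ, hxV⟩, rfl⟩

end Q177.SubRank
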