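import Mathlib
import Pool.Agent.Q177.SubRankB

/-!
# MP_03f7b8_gt: spaces with a base of subinfinite rank are metacompact
-/

set_option autoImplicit false

universe u

namespace Q177.SubRankFinal

open Set Topology

/-- A family of sets is incomparable if no member is contained in a different member. -/
def Incomparable {X : Type u} (Γ : Set (Set X)) : Prop :=
  ∀ A ∈ Γ, ∀ B ∈ Γ, A ≠ B → ¬ A ⊆ B ∧ ¬ B ⊆ A

/-- A family of sets has subinfinite rank if each of its incomparable subfamilies with nonempty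
intersection is finite. -/
def SubinfiniteRank {X : Type u} (Γ : Set (Set X)) : Prop :=
  ∀ Γ' ⊆ Γ, Incomparable Γ' → (⋂₀ Γ').Nonempty → Γ'.Finite

/-- Every open cover has a point-finite open refinement (which is again a cover). -/
def Metacompact (X : Type u) [TopologicalSpace X] : Prop :=
  ∀ 𝒰 : Set (Set X), (∀ U ∈ 𝒰, IsOpen U) → ⋃₀ 𝒰 = univ →
    ∃ 𝒱 : Set (Set X), (∀ V ∈ 𝒱, IsOpen V) ∧ ⋃₀ 𝒱 = univ ∧ (∀ V ∈ 𝒱, ∃ U ∈ 𝒰, V ⊆ U) ∧
      ∀ x : X, {V ∈ 𝒱 | x ∈ V}.Finite

theorem fac_trace {X : Type u} {B : Set (Set X)} (hr : SubinfiniteRank B) (Y : Set X) (y : Y) :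
    Q177.SubRank.Fac ((fun U : Set X => (Subtype.val ⁻¹' U : Set Y)) '' B) y := by
  intro f hf hinc
  choose G hG hGf using fun n => (hf n).1
  have hGf' : ∀ n, (Subtype.val ⁻¹' (G n) : Set Y) = f n := hGf
  have hnot : ∀ m n, m ≠ n → ¬ G m ⊆ G n := by
    intro m n hmn h
    have h1 : f m ⊆ f n := by
      rw [← hGf' m, ← hGf' n]
      exact preimage_mono h
    rcases lt_or_gt_of_ne hmn with h2 | h2
    · exact (hinc m n h2).1 h1
    · exact (hinc n m h2).2 h1
  have hinj : Function.Injective G := by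
    intro m n h
    by_contra hmn
    exact hnot m n hmn h.subset
  have hfin := hr (range G) (range_subset_iff.2 hG) (by
    rintro _ ⟨m, rfl⟩ _ ⟨n, rfl⟩ hne
    have hmn : m ≠ n := fun h => hne (by rw [h])
    exact ⟨hnot m n hmn, hnot n m hmn.symm⟩) ⟨y.1, by
      rintro _ ⟨n, rfl⟩
      have h1 : y ∈ (Subtype.val ⁻¹' (G n) : Set Y) := by
        rw [hGf' n]; exact (hf n).2
      exact h1⟩
  exact infinite_range_of_injective hinj hfin

/-- (1) If a `T1` space, or more generally an `R0` space, has a base of subinfinite rank, then all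
its subspaces are metacompact, in particular the space itself.
(2) Without a separation axiom this fails: on `ℕ` there is a `T0` topology which has a base
totally ordered by inclusion (so of subinfinite rank) and is not metacompact. -/
theorem result :
    (∀ (X : Type u) [TopologicalSpace X] [R0Space X] (B : Set (Set X)),
      TopologicalSpace.IsTopologicalBasis B → SubinfiniteRank B →
        Metacompact X ∧ ∀ Y : Set X, Metacompact Y) ∧
    (∃ (t : TopologicalSpace ℕ) (B : Set (Set ℕ)), @T0Space ℕ t ∧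
      @TopologicalSpace.IsTopologicalBasis ℕ t B ∧ IsChain (· ⊆ ·) B ∧ SubinfiniteRank B ∧
        ¬ @Metacompact ℕ t) := by
  refine ⟨?_, ?_⟩
  · intro X _ _ B hB hr
    refine ⟨?_, ?_⟩
    · intro 𝒰 h𝒰 hcov
      refine Q177.SubRank.main hB (fun x f hf hinc => ?_) 𝒰 h𝒰 hcov
      have hinj : Function.Injective f := by
        intro m n h
        by_contra hmn
        rcases lt_or_gt_of_ne hmn with h2 | h2
        · exact (hinc m n h2).1 h.subset
        · exact (hinc n m h2).2 h.subset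
      refine infinite_range_of_injective hinj (hr (range f)
        (range_subset_iff.2 fun n => (hf n).1) ?_ ⟨x, ?_⟩)
      · rintro _ ⟨m, rfl⟩ _ ⟨n, rfl⟩ hne
        rcases lt_or_gt_of_ne (fun h => hne (by rw [h]) : m ≠ n) with h2 | h2
        · exact hinc m n h2
        · exact (hinc n m h2).symm
      · rintro _ ⟨n, rfl⟩
        exact (hf n).2
    · intro Y 𝒰 h𝒰 hcov
      exact Q177.SubRank.main (hB.isInducing Topology.IsInducing.subtypeVal)
        (fun y => fac_trace hr Y y) 𝒰 h𝒰 hcov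
  · let t : TopologicalSpace ℕ :=
      { IsOpen := fun s => ∀ n ∈ s, ∀ m ≤ n, m ∈ s
        isOpen_univ := fun _ _ _ _ => trivial
        isOpen_inter := fun s s' hs hs' n hn m hm => ⟨hs n hn.1 m hm, hs' n hn.2 m hm⟩
        isOpen_sUnion := fun S hS n hn m hm => by
          obtain ⟨s, hs, hns⟩ := hn
          exact ⟨s, hs, hS s hs n hns m hm⟩ }
    have hopen : ∀ s : Set ℕ, IsOpen[t] s ↔ ∀ n ∈ s, ∀ m ≤ n, m ∈ s := fun s => Iff.rfl
    have hIic : ∀ n : ℕ, IsOpen[t] (Iic n) := fun n k hk m hm => le_trans hm hk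
    have hchain : IsChain (· ⊆ ·) (range fun n : ℕ => Iic n) := by
      rintro _ ⟨m, rfl⟩ _ ⟨n, rfl⟩ _
      rcases le_total m n with h | h
      · exact Or.inl (Iic_subset_Iic.2 h)
      · exact Or.inr (Iic_subset_Iic.2 h)
    refine ⟨t, range fun n : ℕ => Iic n, ?_, ?_, hchain, ?_, ?_⟩
    · refine @T0Space.mk ℕ t ?_
      intro m n hmn
      have h1 : m ∈ Iic n := ((@Inseparable.mem_open_iff ℕ t _ _ _ hmn (hIic n))).2 (le_refl n)
      have h2 : n ∈ Iic m := ((@Inseparable.mem_open_iff ℕ t _ _ _ hmn (hIic m))).1 (le_refl m)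
      exact le_antisymm h1 h2
    · refine @TopologicalSpace.isTopologicalBasis_of_isOpen_of_nhds ℕ t _ ?_ ?_
      · rintro _ ⟨n, rfl⟩
        exact hIic n
      · intro n U hn hU
        exact ⟨Iic n, ⟨n, rfl⟩, le_refl n, fun m hm => hU n hn m hm⟩
    · intro Γ' hΓ' hinc _
      refine Set.Subsingleton.finite ?_
      intro A hA A' hA'
      by_contra hne
      rcases hchain.total (hΓ' hA) (hΓ' hA') with h | h
      · exact (hinc A hA A' hA' hne).1 h
      · exact (hinc A hA A' hA' hne).2 h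
    · intro hmeta
      obtain ⟨𝒱, hVo, hVc, hVr, hVf⟩ := hmeta (range fun n : ℕ => Iic n) (by
        rintro _ ⟨n, rfl⟩
        exact hIic n) (by
        refine eq_univ_of_forall fun n => ⟨Iic n, ⟨n, rfl⟩, le_refl n⟩)
      -- every nonempty member contains `0`; members are bounded
      have hb : ∀ V ∈ 𝒱, ∃ n : ℕ, V ⊆ Iic n := by
        intro V hV
        obtain ⟨_, ⟨n, rfl⟩, hn⟩ := hVr V hV
        exact ⟨n, hn⟩
      choose! b hb' using hb
      have hfin := hVf 0
      obtain ⟨N, hN⟩ := (hfin.image b).bddAbove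
      have h1 : N + 1 ∈ ⋃₀ 𝒱 := by rw [hVc]; trivial
      obtain ⟨V, hV, hNV⟩ := h1
      have h0 : 0 ∈ V := hVo V hV _ hNV 0 (Nat.zero_le _)
      have h2 : b V ≤ N := hN ⟨V, ⟨hV, h0⟩, rfl⟩
      have h3 : N + 1 ≤ b V := hb' V hV hNV
      omega

end Q177.SubRankFinal
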