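import Mathlib

/-!
# A diagonal argument

A sequence-valued coding of all countable partial functions `(A, f)` on an uncountable set cannot
have the property that families with bounded codes are pointwise bounded.
-/

set_option autoImplicit false

namespace Q177.Tuk

open Set

/-- An injective choice from countably many infinite sets. -/
lemma exists_injective_choice {ι α : Type*} [Encodable ι] (E : ι → Set α)
    (hE : ∀ i, (E i).Infinite) : ∃ x : ι → α, Function.Injective x ∧ ∀ i, x i ∈ E i := by
  classical
  choose t ht1 ht2 using fun i => (hE i).exists_subset_card_eq (Encodable.encode i + 1)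
  have hall : ∀ s : Finset ι, s.card ≤ (s.biUnion t).card := by
    intro s
    rcases s.eq_empty_or_nonempty with rfl | hs
    · simp
    · obtain ⟨m, hm, hmax⟩ := s.exists_max_image (fun i => Encodable.encode i) hs
      have h1 : s.card ≤ Encodable.encode m + 1 := by
        have := Finset.card_le_card_of_injOn (s := s)
          (t := Finset.range (Encodable.encode m + 1)) (fun i => Encodable.encode i)
          (by
            intro i hi
            have := hmax i hi
            simp only [Finset.coe_range, mem_Iio]
            omega)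
          (fun a _ b _ h => Encodable.encode_injective h)
        simpa using this
      have h2 : t m ⊆ s.biUnion t := Finset.subset_biUnion_of_mem t hm
      have h3 := Finset.card_le_card h2
      rw [ht2 m] at h3
      omega
  obtain ⟨x, hx, hx'⟩ := (Finset.all_card_le_biUnion_card_iff_exists_injective t).1 hall
  exact ⟨x, hx, fun i => ht1 i (by exact_mod_cast hx' i)⟩

/-- No coding of the countable partial functions on an uncountable set by sequences of natural
numbers makes countable families with bounded codes pointwise bounded. -/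
theorem combi {I : Type*} [Uncountable I] (h : Set I → (I → ℕ) → ℕ → ℕ)
    (H : ∀ (A : ℕ → Set I) (f : ℕ → I → ℕ) (g : ℕ → ℕ), (∀ k, (A k).Countable) →
      (∀ k i, h (A k) (f k) i ≤ g i) → ∀ ξ, (∀ k, ξ ∈ A k) → ∃ b, ∀ k, f k ξ ≤ b) : False := by
  classical
  let D : List ℕ → Set I → (I → ℕ) → Prop := fun s A f =>
    ∀ i (hi : i < s.length), h A f i ≤ s[i]
  let E : List ℕ × ℕ → Set I := fun u =>
    {ξ | ∀ (A : Set I) (f : I → ℕ), A.Countable → ξ ∈ A → D u.1 A f → f ξ ≤ u.2}
  -- every point lies in some `E` along every sequence
  have claim : ∀ (ξ : I) (g : ℕ → ℕ), ∃ k v, ξ ∈ E ((List.range k).map g, v) := by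
    intro ξ g
    by_contra hcon
    push Not at hcon
    have hcon' : ∀ k, ∃ (A : Set I) (f : I → ℕ), A.Countable ∧ ξ ∈ A ∧
        D ((List.range k).map g) A f ∧ k < f ξ := by
      intro k
      have := hcon k k
      simp only [E, mem_ofPred_eq, not_forall, not_le] at this
      obtain ⟨A, f, h1, h2, h3, h4⟩ := this
      exact ⟨A, f, h1, h2, h3, h4⟩
    choose A f hA hξ hD hf using hcon'
    obtain ⟨b, hb⟩ := H A f
      (fun i => max (g i) ((Finset.range (i + 1)).sup (fun k => h (A k) (f k) i))) hA
      (by
        intro k i
        rcases lt_or_ge i k with hik | hik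
        · refine le_trans ?_ (le_max_left _ _)
          have := hD k i (by simpa using hik)
          simpa using this
        · refine le_trans ?_ (le_max_right _ _)
          exact Finset.le_sup (f := fun k => h (A k) (f k) i)
            (Finset.mem_range.2 (Nat.lt_succ_of_le hik))) ξ hξ
    exact absurd (hb b) (not_le.2 (hf b))
  let U : Set (List ℕ × ℕ) := {u | ¬ (E u).Countable}
  have hC : (⋃ u ∈ Uᶜ, E u).Countable := by
    refine (Set.to_countable (Uᶜ)).biUnion ?_
    intro u hu
    simpa [U] using hu
  obtain ⟨ξ₀, hξ₀⟩ : ∃ ξ₀, ξ₀ ∉ ⋃ u ∈ Uᶜ, E u := by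
    by_contra hcon
    push Not at hcon
    exact Set.not_countable_univ (hC.mono fun x _ => hcon x)
  obtain ⟨x, hx, hxE⟩ := exists_injective_choice (ι := U) (fun u => E u.1) (fun u => by
    intro hfin
    exact u.2 hfin.countable)
  let A : Set I := range x
  let f : I → ℕ := fun ξ => if hξ : ∃ u, x u = ξ then (hξ.choose).1.2 + 1 else 0
  have hfx : ∀ u : U, f (x u) = u.1.2 + 1 := by
    intro u
    have hex : ∃ u', x u' = x u := ⟨u, rfl⟩
    have : hex.choose = u := hx hex.choose_spec
    simp only [f, dif_pos hex, this]
  obtain ⟨k, v, hkv⟩ := claim ξ₀ (h A f)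
  have hu : ((List.range k).map (h A f), v) ∈ U := by
    by_contra hcon
    exact hξ₀ (mem_biUnion (x := ((List.range k).map (h A f), v)) hcon hkv)
  have h1 := hxE ⟨_, hu⟩
  have h2 := h1 A f (Set.countable_range x) ⟨_, rfl⟩ (by
    intro i hi
    simp)
  rw [hfx] at h2
  simp at h2

end Q177.Tuk
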