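import Mathlib
import Pool.Agent.Q177.TukA

/-!
# The free topological group over a uniform space need not have Tukey type `𝒰^ω`
-/

set_option autoImplicit false

universe u

namespace Q177.Tuk

open Set Topology Filter

/-! ### Definitions -/

/-- `(X, 𝒰)` is `ω`-narrow. -/
def OmegaNarrow (X : Type u) [UniformSpace X] : Prop :=
  ∀ V ∈ uniformity X, ∃ A : Set X, A.Countable ∧ ∀ x, ∃ a ∈ A, (a, x) ∈ V

/-- The canonical map `X → F(X)` is uniformly continuous for the two-sided uniformity of the group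
topology `t` on the free group. -/
def CanonicalUC (X : Type u) [UniformSpace X] (t : GroupTopology (FreeGroup X)) : Prop :=
  ∀ V ∈ @nhds (FreeGroup X) t.toTopologicalSpace 1,
    {p : X × X | (FreeGroup.of p.1)⁻¹ * FreeGroup.of p.2 ∈ V ∧
      FreeGroup.of p.1 * (FreeGroup.of p.2)⁻¹ ∈ V} ∈ uniformity X

/-- The topology of `F(X, 𝒰)`: the finest group topology on the free group for which the canonical
map is uniformly continuous. -/
def freeTopology (X : Type u) [UniformSpace X] : GroupTopology (FreeGroup X) :=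
  sInf {t | CanonicalUC X t}

/-- Neighbourhoods of the identity of `F(X, 𝒰)`, ordered by reverse inclusion. -/
abbrev NbhdId (X : Type u) [UniformSpace X] : Type u :=
  {V : Set (FreeGroup X) // V ∈ @nhds (FreeGroup X) (freeTopology X).toTopologicalSpace 1}ᵒᵈ

/-- The entourages of `(X, 𝒰)`, ordered by reverse inclusion. -/
abbrev Entourages (X : Type u) [UniformSpace X] : Type u :=
  {V : Set (X × X) // V ∈ uniformity X}ᵒᵈ

/-- Tukey order: some map `Q → P` sends cofinal subsets to cofinal subsets. -/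
def TukeyLE (P Q : Type*) [Preorder P] [Preorder Q] : Prop :=
  ∃ φ : Q → P, ∀ C : Set Q, (∀ q, ∃ c ∈ C, q ≤ c) → ∀ p, ∃ c ∈ φ '' C, p ≤ c

/-! ### Basic facts -/

lemma canonicalUC_freeTopology (X : Type u) [UniformSpace X] : CanonicalUC X (freeTopology X) := by
  have h1 : Tendsto (fun p : X × X => (FreeGroup.of p.1)⁻¹ * FreeGroup.of p.2) (uniformity X)
      (@nhds (FreeGroup X) (freeTopology X).toTopologicalSpace 1) := by
    rw [freeTopology, GroupTopology.toTopologicalSpace_sInf, nhds_sInf]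
    simp only [tendsto_iInf]
    rintro _ ⟨t, ht, rfl⟩ V hV
    exact mem_map.2 (mem_of_superset (ht V hV) fun p hp => hp.1)
  have h2 : Tendsto (fun p : X × X => FreeGroup.of p.1 * (FreeGroup.of p.2)⁻¹) (uniformity X)
      (@nhds (FreeGroup X) (freeTopology X).toTopologicalSpace 1) := by
    rw [freeTopology, GroupTopology.toTopologicalSpace_sInf, nhds_sInf]
    simp only [tendsto_iInf]
    rintro _ ⟨t, ht, rfl⟩ V hV
    exact mem_map.2 (mem_of_superset (ht V hV) fun p hp => hp.2)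
  intro V hV
  exact inter_mem (h1 hV) (h2 hV)

lemma freeTopology_le {X : Type u} [UniformSpace X] {t : GroupTopology (FreeGroup X)}
    (ht : CanonicalUC X t) : freeTopology X ≤ t := sInf_le ht

lemma mem_nhds_freeTopology {X : Type u} [UniformSpace X] {t : GroupTopology (FreeGroup X)}
    (ht : CanonicalUC X t) {V : Set (FreeGroup X)}
    (hV : V ∈ @nhds (FreeGroup X) t.toTopologicalSpace 1) :
    V ∈ @nhds (FreeGroup X) (freeTopology X).toTopologicalSpace 1 :=
  (nhds_mono (show (freeTopology X).toTopologicalSpace ≤ t.toTopologicalSpace from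
    freeTopology_le ht)) hV

/-! ### The uniform space -/

variable (I : Type u)

/-- The points: an uncountable discrete part `I`, a sequence, and one limit point. -/
abbrev Pt : Type u := Option (I ⊕ ℕ)

variable {I}

/-- The set of points singled out by a countable `A ⊆ I` and `m`. -/
def S (A : Set I) (m : ℕ) : Set (Pt I) :=
  {x | (∃ ξ ∈ A, x = some (Sum.inl ξ)) ∨ ∃ n < m, x = some (Sum.inr n)}

/-- The basic entourage. -/
def R (A : Set I) (m : ℕ) : Set (Pt I × Pt I) :=
  {p | p.1 = p.2 ∨ (p.1 ∉ S A m ∧ p.2 ∉ S A m)}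

lemma S_mono {A B : Set I} {m n : ℕ} (h : A ⊆ B) (h' : m ≤ n) : S A m ⊆ S B n := by
  rintro x (⟨ξ, hξ, rfl⟩ | ⟨k, hk, rfl⟩)
  · exact Or.inl ⟨ξ, h hξ, rfl⟩
  · exact Or.inr ⟨k, lt_of_lt_of_le hk h', rfl⟩

lemma R_anti {A B : Set I} {m n : ℕ} (h : A ⊆ B) (h' : m ≤ n) : R B n ⊆ R A m := by
  rintro p (hp | ⟨h1, h2⟩)
  · exact Or.inl hp
  · exact Or.inr ⟨fun h3 => h1 (S_mono h h' h3), fun h3 => h2 (S_mono h h' h3)⟩

/-- The filter basis of entourages. -/
def basis (I : Type u) : FilterBasis (Pt I × Pt I) where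
  sets := {V | ∃ (A : Set I) (m : ℕ), A.Countable ∧ V = R A m}
  nonempty := ⟨R ∅ 0, ∅, 0, countable_empty, rfl⟩
  inter_sets := by
    rintro _ _ ⟨A, m, hA, rfl⟩ ⟨B, n, hB, rfl⟩
    exact ⟨_, ⟨A ∪ B, max m n, hA.union hB, rfl⟩, subset_inter
      (R_anti subset_union_left (le_max_left _ _)) (R_anti subset_union_right (le_max_right _ _))⟩

/-- The uniform structure. -/
@[reducible] def unif (I : Type u) : UniformSpace (Pt I) :=
  UniformSpace.ofCore (UniformSpace.Core.mkOfBasis (basis I)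
    (by
      rintro _ ⟨A, m, -, rfl⟩ x
      exact Or.inl rfl)
    (by
      rintro _ ⟨A, m, hA, rfl⟩
      refine ⟨_, ⟨A, m, hA, rfl⟩, ?_⟩
      rintro p (hp | ⟨h1, h2⟩)
      · exact Or.inl hp.symm
      · exact Or.inr ⟨h2, h1⟩)
    (by
      rintro _ ⟨A, m, hA, rfl⟩
      refine ⟨_, ⟨A, m, hA, rfl⟩, ?_⟩
      rintro ⟨x, z⟩ ⟨y, h1, h2⟩
      rcases h1 with h1 | ⟨h1, h1'⟩
      · have h1 : x = y := h1
        subst h1
        exact h2
      · rcases h2 with h2 | ⟨h2, h2'⟩
        · have h2 : y = z := h2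
          subst h2
          exact Or.inr ⟨h1, h1'⟩
        · exact Or.inr ⟨h1, h2'⟩))

attribute [local instance] unif

lemma mem_unif {V : Set (Pt I × Pt I)} :
    V ∈ uniformity (Pt I) ↔ ∃ (A : Set I) (m : ℕ), A.Countable ∧ R A m ⊆ V := by
  change V ∈ (basis I).filter ↔ _
  rw [FilterBasis.mem_filter_iff]
  constructor
  · rintro ⟨_, ⟨A, m, hA, rfl⟩, h⟩
    exact ⟨A, m, hA, h⟩
  · rintro ⟨A, m, hA, h⟩
    exact ⟨_, ⟨A, m, hA, rfl⟩, h⟩

lemma countable_S {A : Set I} (hA : A.Countable) (m : ℕ) : (S A m).Countable := by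
  have h1 : S A m ⊆ (fun ξ : I => (some (Sum.inl ξ) : Pt I)) '' A ∪
      range (fun n : ℕ => (some (Sum.inr n) : Pt I)) := by
    rintro x (⟨ξ, hξ, rfl⟩ | ⟨k, -, rfl⟩)
    · exact Or.inl ⟨ξ, hξ, rfl⟩
    · exact Or.inr ⟨k, rfl⟩
  exact ((hA.image _).union (countable_range _)).mono h1

lemma omegaNarrow_unif : OmegaNarrow (Pt I) := by
  intro V hV
  obtain ⟨A, m, hA, hR⟩ := mem_unif.1 hV
  refine ⟨S A m ∪ {none}, (countable_S hA m).union (countable_singleton _), fun x => ?_⟩
  by_cases hx : x ∈ S A m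
  · exact ⟨x, Or.inl hx, hR (Or.inl rfl)⟩
  · refine ⟨none, Or.inr rfl, hR (Or.inr ⟨?_, hx⟩)⟩
    rintro (⟨ξ, -, h⟩ | ⟨n, -, h⟩) <;> exact absurd h (by simp)

lemma t0_unif : T0Space (Pt I) := by
  rw [t0Space_iff_uniformity]
  intro x y h
  by_contra hne
  have key : ∀ z w : Pt I, z ≠ w → z ≠ none → (∀ r ∈ uniformity (Pt I), (z, w) ∈ r) → False := by
    intro z w hzw hz hr
    rcases z with _ | ξ | n
    · exact hz rfl
    · rcases hr (R {ξ} 0) (mem_unif.2 ⟨_, _, countable_singleton _, Subset.rfl⟩) with h1 | ⟨h1, -⟩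
      · exact hzw h1
      · exact h1 (Or.inl ⟨ξ, rfl, rfl⟩)
    · rcases hr (R ∅ (n + 1)) (mem_unif.2 ⟨_, _, countable_empty, Subset.rfl⟩) with h1 | ⟨h1, -⟩
      · exact hzw h1
      · exact h1 (Or.inr ⟨n, Nat.lt_succ_self n, rfl⟩)
  by_cases hx : x = none
  · refine key y x (Ne.symm hne) (fun hy => hne (hx.trans hy.symm)) fun r hr => ?_
    exact h _ (symm_le_uniformity hr)
  · exact key x y hne hx h

/-! ### The permutation representations -/

/-- The set acted on. -/
abbrev Q (I : Type u) : Type u := Option (I × Bool)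

/-- Flipping the second coordinate at the places where `A ∋ ξ` and `n < f ξ`. -/
noncomputable def flipFun (A : Set I) (f : I → ℕ) (n : ℕ) : Q I → Q I := by
  classical
  exact fun q => match q with
  | none => none
  | some (ξ, b) => if ξ ∈ A ∧ n < f ξ then some (ξ, !b) else some (ξ, b)

lemma flipFun_flipFun (A : Set I) (f : I → ℕ) (n : ℕ) (q : Q I) :
    flipFun A f n (flipFun A f n q) = q := by
  classical
  rcases q with _ | ⟨ξ, b⟩
  · rfl
  · by_cases h : ξ ∈ A ∧ n < f ξ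
    · simp [flipFun, h]
    · simp [flipFun, h]

/-- The flip as a permutation. -/
noncomputable def flip (A : Set I) (f : I → ℕ) (n : ℕ) : Equiv.Perm (Q I) where
  toFun := flipFun A f n
  invFun := flipFun A f n
  left_inv := flipFun_flipFun A f n
  right_inv := flipFun_flipFun A f n

/-- The permutation attached to a point. -/
noncomputable def perm (A : Set I) (f : I → ℕ) : Pt I → Equiv.Perm (Q I) := by
  classical
  exact fun x => match x with
  | none => 1
  | some (Sum.inl ξ) => if ξ ∈ A then Equiv.swap none (some (ξ, false)) else 1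
  | some (Sum.inr n) => flip A f n

/-- The homomorphism. -/
noncomputable def rep (A : Set I) (f : I → ℕ) : FreeGroup (Pt I) →* Equiv.Perm (Q I) :=
  FreeGroup.lift (perm A f)

/-- Pointwise stabilizers. -/
def Stab (A : Set I) (f : I → ℕ) (F : Set (Q I)) : Set (FreeGroup (Pt I)) :=
  {g | ∀ q ∈ F, rep A f g q = q}

/-- The group filter basis of pointwise stabilizers of finite sets. -/
@[reducible] noncomputable def gbasis (A : Set I) (f : I → ℕ) : GroupFilterBasis (FreeGroup (Pt I)) where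
  sets := {V | ∃ F : Set (Q I), F.Finite ∧ V = Stab A f F}
  nonempty := ⟨_, ∅, finite_empty, rfl⟩
  inter_sets := by
    rintro _ _ ⟨F, hF, rfl⟩ ⟨F', hF', rfl⟩
    refine ⟨_, ⟨F ∪ F', hF.union hF', rfl⟩, ?_⟩
    intro g hg
    exact ⟨fun q hq => hg q (Or.inl hq), fun q hq => hg q (Or.inr hq)⟩
  one' := by
    rintro _ ⟨F, hF, rfl⟩ q hq
    simp
  mul' := by
    rintro _ ⟨F, hF, rfl⟩
    refine ⟨_, ⟨F, hF, rfl⟩, ?_⟩
    rintro _ ⟨g, hg, g', hg', rfl⟩ q hq
    simp only [map_mul, Equiv.Perm.mul_apply]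
    rw [hg' q hq, hg q hq]
  inv' := by
    rintro _ ⟨F, hF, rfl⟩
    refine ⟨_, ⟨F, hF, rfl⟩, ?_⟩
    intro g hg q hq
    simp only [map_inv]
    rw [Equiv.Perm.inv_eq_iff_eq]
    exact (hg q hq).symm
  conj' := by
    rintro x _ ⟨F, hF, rfl⟩
    refine ⟨_, ⟨(fun q => (rep A f x)⁻¹ q) '' F, hF.image _, rfl⟩, ?_⟩
    intro g hg q hq
    simp only [map_mul, Equiv.Perm.mul_apply, map_inv]
    rw [hg _ ⟨q, hq, rfl⟩]
    simp

/-- The group topology of pointwise stabilizers. -/
noncomputable def gtop (A : Set I) (f : I → ℕ) : GroupTopology (FreeGroup (Pt I)) where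
  toTopologicalSpace := (gbasis A f).topology
  toIsTopologicalGroup := (gbasis A f).isTopologicalGroup

lemma stab_mem (A : Set I) (f : I → ℕ) {F : Set (Q I)} (hF : F.Finite) :
    Stab A f F ∈ @nhds _ (gtop A f).toTopologicalSpace 1 := by
  have := ((gbasis A f).nhds_one_hasBasis).mem_of_mem (i := Stab A f F) ⟨F, hF, rfl⟩
  exact this

lemma exists_stab_subset (A : Set I) (f : I → ℕ) {V : Set (FreeGroup (Pt I))}
    (hV : V ∈ @nhds _ (gtop A f).toTopologicalSpace 1) :
    ∃ F : Set (Q I), F.Finite ∧ Stab A f F ⊆ V := by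
  obtain ⟨_, ⟨F, hF, rfl⟩, h⟩ := ((gbasis A f).nhds_one_hasBasis).mem_iff.1 hV
  exact ⟨F, hF, h⟩

lemma of_mem_stab (A : Set I) (f : I → ℕ) {F : Set (Q I)} {m : ℕ}
    (hm : ∀ ξ b, some (ξ, b) ∈ F → f ξ ≤ m) {x : Pt I} (hx : x ∉ S A m) :
    FreeGroup.of x ∈ Stab A f F := by
  classical
  intro q hq
  rcases x with _ | ξ | n
  · simp [rep, perm]
  · have hξ : ξ ∉ A := fun h => hx (Or.inl ⟨ξ, h, rfl⟩)
    simp [rep, perm, hξ]
  · have hn : m ≤ n := by
      by_contra h
      exact hx (Or.inr ⟨n, not_le.1 h, rfl⟩)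
    have h1 : rep A f (FreeGroup.of (some (Sum.inr n))) q = flipFun A f n q := by
      simp [rep, perm, flip]
    rw [h1]
    rcases q with _ | ⟨ξ, b⟩
    · rfl
    · have h2 : ¬ n < f ξ := by
        have := hm ξ b hq
        omega
      simp [flipFun, h2]

lemma stab_mul {A : Set I} {f : I → ℕ} {F : Set (Q I)} {g g' : FreeGroup (Pt I)}
    (hg : g ∈ Stab A f F) (hg' : g' ∈ Stab A f F) : g * g' ∈ Stab A f F := by
  intro q hq
  simp only [map_mul, Equiv.Perm.mul_apply]
  rw [hg' q hq, hg q hq]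

lemma stab_inv {A : Set I} {f : I → ℕ} {F : Set (Q I)} {g : FreeGroup (Pt I)}
    (hg : g ∈ Stab A f F) : g⁻¹ ∈ Stab A f F := by
  intro q hq
  simp only [map_inv]
  rw [Equiv.Perm.inv_eq_iff_eq]
  exact (hg q hq).symm

lemma canonicalUC_gtop {A : Set I} (hA : A.Countable) (f : I → ℕ) :
    CanonicalUC (Pt I) (gtop A f) := by
  intro V hV
  obtain ⟨F, hF, hFV⟩ := exists_stab_subset A f hV
  let F' : Finset (Q I) := hF.toFinset
  let m : ℕ := F'.sup (fun q => match q with
    | none => 0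
    | some (ξ, _) => f ξ)
  have hm : ∀ ξ b, some (ξ, b) ∈ F → f ξ ≤ m := by
    intro ξ b h
    have hmem : (some (ξ, b) : Q I) ∈ F' := by simpa [F'] using h
    exact Finset.le_sup (f := fun q : Q I => match q with
      | none => 0
      | some (ξ, _) => f ξ) hmem
  refine mem_unif.2 ⟨A, m, hA, ?_⟩
  rintro ⟨x, y⟩ (h | ⟨h1, h2⟩)
  · have h : x = y := h
    subst h
    have h1 : (1 : FreeGroup (Pt I)) ∈ V := by
      apply hFV
      intro q hq
      simp
    exact ⟨by simpa using h1, by simpa using h1⟩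
  · have h1' := of_mem_stab A f hm h1
    have h2' := of_mem_stab A f hm h2
    exact ⟨hFV (stab_mul (stab_inv h1') h2'), hFV (stab_mul h1' (stab_inv h2'))⟩

/-- The neighbourhood of the identity attached to `(A, f)`. -/
lemma stab_mem_free {A : Set I} (hA : A.Countable) (f : I → ℕ) :
    Stab A f {none} ∈ @nhds _ (freeTopology (Pt I)).toTopologicalSpace 1 :=
  mem_nhds_freeTopology (canonicalUC_gtop hA f) (stab_mem A f (finite_singleton _))

/-- The words `y x_n⁻¹ ∞ y⁻¹`. -/
def word (ξ : I) (n : ℕ) : FreeGroup (Pt I) :=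
  FreeGroup.of (some (Sum.inl ξ)) * ((FreeGroup.of (some (Sum.inr n)))⁻¹ *
    FreeGroup.of none) * (FreeGroup.of (some (Sum.inl ξ)))⁻¹

lemma word_mem_stab {A : Set I} {f : I → ℕ} {ξ : I} {n : ℕ} (hξ : ξ ∈ A)
    (h : word ξ n ∈ Stab A f {none}) : f ξ ≤ n := by
  classical
  by_contra hlt
  have hlt : n < f ξ := not_le.1 hlt
  have h1 := h none rfl
  have h2 : rep A f (word ξ n) none = Equiv.swap none (some (ξ, false))
      ((flip A f n)⁻¹ ((Equiv.swap none (some (ξ, false)))⁻¹ none)) := by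
    simp [rep, word, perm, hξ, Equiv.Perm.mul_apply]
  rw [h2] at h1
  have h3 : (Equiv.swap (none : Q I) (some (ξ, false)))⁻¹ none = some (ξ, false) := by
    rw [Equiv.swap_inv, Equiv.swap_apply_left]
  rw [h3] at h1
  have h4 : (flip A f n)⁻¹ (some (ξ, false)) = some (ξ, true) := by
    rw [Equiv.Perm.inv_eq_iff_eq]
    change _ = flipFun A f n (some (ξ, true))
    simp [flipFun, hξ, hlt]
  rw [h4, Equiv.swap_apply_of_ne_of_ne (by simp) (by simp)] at h1
  exact absurd h1 (by simp)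

lemma exists_word_mem {V : Set (FreeGroup (Pt I))}
    (hV : V ∈ @nhds _ (freeTopology (Pt I)).toTopologicalSpace 1) (ξ : I) :
    ∃ n, word ξ n ∈ V := by
  let _ := (freeTopology (Pt I)).toTopologicalSpace
  have _ := (freeTopology (Pt I)).toIsTopologicalGroup
  let a : FreeGroup (Pt I) := FreeGroup.of (some (Sum.inl ξ))
  have hc : Continuous fun g : FreeGroup (Pt I) => a * g * a⁻¹ := by fun_prop
  have h1 : (fun g : FreeGroup (Pt I) => a * g * a⁻¹) ⁻¹' V ∈ 𝓝 (1 : FreeGroup (Pt I)) := by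
    apply hc.continuousAt.preimage_mem_nhds
    simpa using hV
  obtain ⟨A, m, -, hR⟩ := mem_unif.1 (canonicalUC_freeTopology (Pt I) _ h1)
  refine ⟨m, ?_⟩
  have h2 : ((some (Sum.inr m) : Pt I), (none : Pt I)) ∈ R A m := by
    refine Or.inr ⟨?_, ?_⟩
    · rintro (⟨ξ, -, h⟩ | ⟨n, hn, h⟩)
      · simp at h
      · have : m = n := by simpa using h
        omega
    · rintro (⟨ξ, -, h⟩ | ⟨n, -, h⟩) <;> exact absurd h (by simp)
  exact (hR h2).1

/-- The neighbourhood filter of the identity of the free topological group over this `ω`-narrow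
uniform space is not Tukey below `𝒰^ω`. -/
theorem not_tukeyLE [Uncountable I] : ¬ TukeyLE (NbhdId (Pt I)) (ℕ → Entourages (Pt I)) := by
  classical
  rintro ⟨φ, hφ⟩
  -- the Tukey map in the other direction
  have key : ∀ N : NbhdId (Pt I), ∃ u : ℕ → Entourages (Pt I), ∀ v, u ≤ v → N ≤ φ v := by
    intro N
    by_contra hcon
    push Not at hcon
    obtain ⟨c, ⟨v, hv, rfl⟩, hc⟩ := hφ {v | ¬ N ≤ φ v} (fun u => by
      obtain ⟨v, huv, hv⟩ := hcon u
      exact ⟨v, hv, huv⟩) N
    exact hv hc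
  choose T hT using key
  let N : ∀ (A : Set I) (_ : A.Countable) (_ : I → ℕ), NbhdId (Pt I) := fun A hA f =>
    OrderDual.toDual ⟨Stab A f {none}, stab_mem_free hA f⟩
  have hbase : ∀ (A : Set I) (hA : A.Countable) (f : I → ℕ) (i : ℕ), ∃ (B : Set I) (m : ℕ),
      B.Countable ∧ R B m ⊆ (OrderDual.ofDual (T (N A hA f) i)).1 := fun A hA f i =>
    mem_unif.1 (OrderDual.ofDual (T (N A hA f) i)).2
  choose B m hB hR using hbase
  refine combi (I := I) (fun A f i => if hA : A.Countable then m A hA f i else 0) ?_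
  intro A f g hA hle ξ hξ
  let W : ℕ → Entourages (Pt I) := fun i =>
    OrderDual.toDual ⟨R (⋃ k, B (A k) (hA k) (f k) i) (g i),
      mem_unif.2 ⟨_, _, countable_iUnion fun k => hB _ _ _ _, Subset.rfl⟩⟩
  have hW : ∀ k, T (N (A k) (hA k) (f k)) ≤ W := by
    intro k i
    change (W i).ofDual.1 ⊆ (OrderDual.ofDual (T (N (A k) (hA k) (f k)) i)).1
    refine Subset.trans ?_ (hR (A k) (hA k) (f k) i)
    refine R_anti (subset_iUnion (fun k => B (A k) (hA k) (f k) i) k) ?_
    have := hle k i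
    rwa [dif_pos (hA k)] at this
  obtain ⟨n, hn⟩ := exists_word_mem (OrderDual.ofDual (φ W)).2 ξ
  refine ⟨n, fun k => ?_⟩
  have h1 : (OrderDual.ofDual (φ W)).1 ⊆ Stab (A k) (f k) {none} :=
    hT (N (A k) (hA k) (f k)) W (hW k)
  exact word_mem_stab (hξ k) (h1 hn)

end Q177.Tuk
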