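import Mathlib

/-!
# A weakly pseudocompact `ℝ`-factorizable group which is not precompact
-/

set_option autoImplicit false

open Set Topology Filter

namespace Q177.WPs

/-- the compact group -/
abbrev K : Type := ℝ → ZMod 2

/-- the `Σ`-product -/
def S : AddSubgroup K where
  carrier := {x | {i | x i ≠ 0}.Countable}
  zero_mem' := by simp
  add_mem' := by
    intro a b ha hb
    refine (ha.union hb).mono ?_
    intro i hi
    by_contra h
    simp only [mem_union, mem_ofPred_eq, not_or, not_not] at h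
    exact hi (by simp [h.1, h.2])
  neg_mem' := by
    intro a ha
    refine Set.Countable.mono ?_ ha
    intro i hi h
    exact hi (by simp [h])

theorem mem_S {x : K} : x ∈ S ↔ {i | x i ≠ 0}.Countable := Iff.rfl

open Classical in
/-- extension by zero -/
noncomputable def ext (A : Set ℝ) (hA : A.Countable) (u : A → ZMod 2) : S :=
  ⟨fun i => if h : i ∈ A then u ⟨i, h⟩ else 0, by
    refine hA.mono ?_
    intro i hi
    by_contra h
    exact hi (by simp [h])⟩

theorem ext_apply {A : Set ℝ} (hA : A.Countable) (u : A → ZMod 2) (i : A) :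
    (ext A hA u : K) i = u i := by
  simp [ext]

theorem ext_apply_notMem {A : Set ℝ} (hA : A.Countable) (u : A → ZMod 2) {i : ℝ} (h : i ∉ A) :
    (ext A hA u : K) i = 0 := by
  simp [ext, h]

theorem ext_cont {A : Set ℝ} (hA : A.Countable) : Continuous (ext A hA) := by
  refine Continuous.subtype_mk (continuous_pi fun i => ?_) _
  by_cases h : i ∈ A
  · simp only [h, dif_pos]
    exact continuous_apply _
  · simp only [h, dif_neg, not_false_iff]
    exact continuous_const

/-- restriction -/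
def res (A : Set ℝ) (x : S) : A → ZMod 2 := fun i => (x : K) i

theorem ext_res {A : Set ℝ} (hA : A.Countable) (x : S) (hx : {i | (x : K) i ≠ 0} ⊆ A) :
    ext A hA (res A x) = x := by
  apply Subtype.ext
  funext i
  by_cases h : i ∈ A
  · exact ext_apply hA (res A x) ⟨i, h⟩
  · rw [ext_apply_notMem hA _ h]
    by_contra hne
    exact h (hx fun h0 => hne h0.symm)

theorem depend_eps {φ : S → ℝ} (hφ : Continuous φ) {ε : ℝ} (hε : 0 < ε) :
    ∃ A : Set ℝ, A.Countable ∧ ∀ x y : S, (∀ i ∈ A, (x : K) i = (y : K) i) → |φ x - φ y| < ε := by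
  by_contra hcon
  push Not at hcon
  have hc : ∀ A : {A : Set ℝ // A.Countable}, ∃ z : S × S,
      (∀ i ∈ A.1, (z.1 : K) i = (z.2 : K) i) ∧ ε ≤ |φ z.1 - φ z.2| := by
    rintro ⟨A, hA⟩
    obtain ⟨x, y, hxy, h⟩ := hcon A hA
    exact ⟨(x, y), hxy, h⟩
  choose z hz1 hz2 using hc
  let step : {A : Set ℝ // A.Countable} → {A : Set ℝ // A.Countable} := fun A =>
    ⟨A.1 ∪ ({i | ((z A).1 : K) i ≠ 0} ∪ {i | ((z A).2 : K) i ≠ 0}),
      A.2.union ((z A).1.2.union (z A).2.2)⟩
  let B : ℕ → {A : Set ℝ // A.Countable} := fun n => step^[n] ⟨∅, countable_empty⟩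
  have hB : ∀ n, B (n + 1) = step (B n) := fun n => Function.iterate_succ_apply' step n _
  have hBm : Monotone fun n => (B n).1 := monotone_nat_of_le_succ fun n => by
    rw [hB]
    exact subset_union_left
  let A : Set ℝ := ⋃ n, (B n).1
  have hA : A.Countable := countable_iUnion fun n => (B n).2
  have hx : ∀ n, {i | ((z (B n)).1 : K) i ≠ 0} ⊆ A := fun n i hi =>
    mem_iUnion.2 ⟨n + 1, by rw [hB]; exact Or.inr (Or.inl hi)⟩
  have hy : ∀ n, {i | ((z (B n)).2 : K) i ≠ 0} ⊆ A := fun n i hi =>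
    mem_iUnion.2 ⟨n + 1, by rw [hB]; exact Or.inr (Or.inr hi)⟩
  let 𝒰 : Ultrafilter ℕ := hyperfilter ℕ
  obtain ⟨u, -, hu⟩ := isCompact_univ.ultrafilter_le_nhds
    (𝒰.map fun n => res A (z (B n)).1) (by simp)
  obtain ⟨v, -, hv⟩ := isCompact_univ.ultrafilter_le_nhds
    (𝒰.map fun n => res A (z (B n)).2) (by simp)
  have hu' : Tendsto (fun n => res A (z (B n)).1) 𝒰 (𝓝 u) := hu
  have hv' : Tendsto (fun n => res A (z (B n)).2) 𝒰 (𝓝 v) := hv
  have huv : u = v := by
    funext i
    obtain ⟨m, hm⟩ := mem_iUnion.1 i.2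
    have h1 : Tendsto (fun n => res A (z (B n)).1 i) 𝒰 (𝓝 (u i)) :=
      ((continuous_apply i).tendsto u).comp hu'
    have h2 : Tendsto (fun n => res A (z (B n)).2 i) 𝒰 (𝓝 (v i)) :=
      ((continuous_apply i).tendsto v).comp hv'
    have h3 : (fun n => res A (z (B n)).1 i) =ᶠ[(𝒰 : Filter ℕ)]
        fun n => res A (z (B n)).2 i := by
      have : ∀ᶠ n in (hyperfilter ℕ : Filter ℕ), m ≤ n :=
        (Nat.hyperfilter_le_atTop (eventually_ge_atTop m))
      refine this.mono fun n hn => ?_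
      exact hz1 (B n) i (hBm hn hm)
    exact tendsto_nhds_unique (h1.congr' h3) h2
  have h1 : Tendsto (fun n => φ (z (B n)).1) 𝒰 (𝓝 (φ (ext A hA u))) := by
    have := ((hφ.comp (ext_cont hA)).tendsto u).comp hu'
    refine this.congr fun n => ?_
    show φ (ext A hA (res A (z (B n)).1)) = _
    rw [ext_res hA _ (hx n)]
  have h2 : Tendsto (fun n => φ (z (B n)).2) 𝒰 (𝓝 (φ (ext A hA u))) := by
    have := ((hφ.comp (ext_cont hA)).tendsto v).comp hv'
    rw [huv]
    refine this.congr fun n => ?_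
    show φ (ext A hA (res A (z (B n)).2)) = _
    rw [ext_res hA _ (hy n)]
  have h3 : Tendsto (fun n => |φ (z (B n)).1 - φ (z (B n)).2|) 𝒰 (𝓝 0) := by
    have := (h1.sub h2).abs
    simpa using this
  have h4 : ∀ᶠ n in (𝒰 : Filter ℕ), |φ (z (B n)).1 - φ (z (B n)).2| < ε :=
    h3.eventually (gt_mem_nhds hε)
  obtain ⟨n, hn⟩ := h4.exists
  exact absurd hn (not_lt.2 (hz2 (B n)))

theorem depend {φ : S → ℝ} (hφ : Continuous φ) :
    ∃ A : Set ℝ, A.Countable ∧ ∀ x y : S, (∀ i ∈ A, (x : K) i = (y : K) i) → φ x = φ y := by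
  choose A hA hA' using fun n : ℕ => depend_eps hφ (Nat.one_div_pos_of_nat (α := ℝ) (n := n))
  refine ⟨⋃ n, A n, countable_iUnion hA, fun x y hxy => ?_⟩
  by_contra hne
  obtain ⟨n, hn⟩ := exists_nat_one_div_lt (abs_pos.2 (sub_ne_zero.2 hne))
  exact absurd (hA' n x y fun i hi => hxy i (mem_iUnion.2 ⟨n, hi⟩)) (not_lt.2 hn.le)

/-- approximating points of `K` by points of `S` -/
theorem exists_S (u : K) (V : ℕ → Set K) (hV : ∀ k, IsOpen (V k)) (hu : ∀ k, u ∈ V k) :
    ∃ v : S, ∀ k, (v : K) ∈ V k := by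
  choose I w hw hI using fun k => isOpen_pi_iff.1 (hV k) u (hu k)
  have hA : (⋃ k, (I k : Set ℝ)).Countable := countable_iUnion fun k => (I k).countable_toSet
  refine ⟨ext _ hA fun i => u i, fun k => hI k fun i hi => ?_⟩
  have hiA : i ∈ ⋃ k, (I k : Set ℝ) := mem_iUnion.2 ⟨k, hi⟩
  rw [show (ext _ hA (fun i => u i) : K) i = u i from ext_apply hA (fun i => u i) ⟨i, hiA⟩]
  exact (hw k i hi).2

/-- the point outside `S` -/
def p : K := fun _ => 1

theorem p_notMem : p ∉ S := by
  intro h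
  have h1 : {i : ℝ | p i ≠ 0} = univ := eq_univ_of_forall fun i => by
    show (1 : ZMod 2) ≠ 0
    decide
  rw [mem_S, h1] at h
  exact Cardinal.not_countable_real h

/-- the locally compact space -/
abbrev Y : Type := {q : ℤ × K // q ≠ (0, p)}

instance : LocallyCompactSpace Y :=
  (isOpen_compl_singleton (x := ((0 : ℤ), p))).locallyCompactSpace

/-- the embedding -/
def emb (g : ℤ × S) : Y := ⟨(g.1, (g.2 : K)), fun h => p_notMem (by
  have := (Prod.ext_iff.1 h).2
  rw [← show (g.2 : K) = p from this]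
  exact g.2.2)⟩

theorem emb_embedding : IsEmbedding emb := by
  have h : IsEmbedding (fun g : ℤ × S => ((g.1, (g.2 : K)) : ℤ × K)) :=
    IsEmbedding.id.prodMap IsEmbedding.subtypeVal
  exact IsEmbedding.of_comp (Continuous.subtype_mk h.continuous _) continuous_subtype_val h

/-- the embedding in the compactification -/
def j (g : ℤ × S) : OnePoint Y := (emb g : OnePoint Y)

theorem j_embedding : IsEmbedding j := OnePoint.isOpenEmbedding_coe.isEmbedding.comp emb_embedding

theorem gdelta {T : Set (OnePoint Y)} (hT : IsGδ T) (hne : T.Nonempty) :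
    (T ∩ range j).Nonempty := by
  obtain ⟨O, hO, rfl⟩ := isGδ_iff_eq_iInter_nat.1 hT
  obtain ⟨b, hb⟩ := hne
  rw [mem_iInter] at hb
  induction b using OnePoint.rec with
  | infty =>
    -- complements of compact sets
    let C : ℕ → Set (ℤ × K) := fun k => Subtype.val '' (((↑) : Y → OnePoint Y) ⁻¹' O k)ᶜ
    have hC : ∀ k, IsCompact (C k) := fun k =>
      ((OnePoint.isOpen_def.1 (hO k)).1 (hb k)).image continuous_subtype_val
    obtain ⟨v, hv⟩ := exists_S p (fun k => {w | ((0 : ℤ), w) ∉ C k})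
      (fun k => (hC k).isClosed.isOpen_compl.preimage (by fun_prop)) (fun k => by
        rintro ⟨y, _, hy⟩
        exact y.2 hy)
    refine ⟨j (0, v), mem_iInter.2 fun k => ?_, ⟨_, rfl⟩⟩
    by_contra h
    exact hv k ⟨emb (0, v), h, rfl⟩
  | coe y =>
    obtain ⟨⟨n, u⟩, hy⟩ := y
    let W : ℕ → Set (ℤ × K) := fun k => Subtype.val '' (((↑) : Y → OnePoint Y) ⁻¹' O k)
    have hW : ∀ k, IsOpen (W k) := fun k =>
      (isOpen_compl_singleton (x := ((0 : ℤ), p))).isOpenMap_subtype_val _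
        (OnePoint.isOpen_def.1 (hO k)).2
    obtain ⟨v, hv⟩ := exists_S u (fun k => {w | (n, w) ∈ W k})
      (fun k => (hW k).preimage (by fun_prop)) (fun k => ⟨_, hb k, rfl⟩)
    refine ⟨j (n, v), mem_iInter.2 fun k => ?_, ⟨_, rfl⟩⟩
    obtain ⟨y, hy1, hy2⟩ := hv k
    have : y = emb (n, v) := Subtype.ext hy2
    rw [this] at hy1
    exact hy1

theorem factor (f : ℤ × S → ℝ) (hf : Continuous f) : ∃ (A : Set ℝ), A.Countable ∧
    ∃ h : ℤ × (A → ZMod 2) → ℝ, Continuous h ∧ ∀ g, f g = h (g.1, res A g.2) := by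
  choose A hA hA' using fun n : ℤ => depend (φ := fun x => f (n, x)) (by fun_prop)
  have hAc : (⋃ n, A n).Countable := countable_iUnion hA
  refine ⟨⋃ n, A n, hAc, fun q => f (q.1, ext _ hAc q.2),
    hf.comp (continuous_fst.prodMk ((ext_cont hAc).comp continuous_snd)), ?_⟩
  rintro ⟨n, x⟩
  refine hA' n _ _ fun i hi => ?_
  exact (ext_apply hAc (res _ x) ⟨i, mem_iUnion.2 ⟨n, hi⟩⟩).symm

end Q177.WPs
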