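import Pool.Agent.Q177.WPs

set_option autoImplicit false

open Set Topology Filter
open scoped Pointwise

namespace Q177.WPs

/-- the group -/
abbrev G : Type := Multiplicative (ℤ × S)

theorem weak : ∃ (B : Type) (_ : TopologicalSpace B) (_ : CompactSpace B) (_ : T2Space B)
    (e : G → B), IsEmbedding e ∧ DenseRange e ∧
      ∀ T : Set B, IsGδ T → T.Nonempty → (T ∩ range e).Nonempty := by
  refine ⟨OnePoint Y, inferInstance, inferInstance, inferInstance, fun g => j g.toAdd,
    j_embedding, ?_, ?_⟩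
  · refine dense_iff_inter_open.2 fun O hO hne => ?_
    obtain ⟨b, hb, g, hg⟩ := gdelta hO.isGδ hne
    exact ⟨b, hb, Multiplicative.ofAdd g, hg⟩
  · intro T hT hne
    obtain ⟨b, hb, g, hg⟩ := gdelta hT hne
    exact ⟨b, hb, Multiplicative.ofAdd g, hg⟩

/-- the projection -/
def proj (A : Set ℝ) : ℤ × S →+ ℤ × (A → ZMod 2) where
  toFun g := (g.1, res A g.2)
  map_zero' := rfl
  map_add' _ _ := rfl

theorem rfactor (f : G → ℝ) (hf : Continuous f) :
    ∃ (H : Type) (_ : Group H) (_ : TopologicalSpace H) (_ : IsTopologicalGroup H)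
      (_ : T2Space H) (_ : SecondCountableTopology H) (π : G →* H) (h : H → ℝ),
      Continuous π ∧ Function.Surjective π ∧ Continuous h ∧ ∀ x, f x = h (π x) := by
  obtain ⟨A, hA, h, hh, hfh⟩ := factor (fun g => f (Multiplicative.ofAdd g)) hf
  have : Countable A := hA.to_subtype
  have : SecondCountableTopology (A → ZMod 2) := inferInstance
  have h2 : SecondCountableTopology (Multiplicative (ℤ × (A → ZMod 2))) :=
    inferInstanceAs (SecondCountableTopology (ℤ × (A → ZMod 2)))
  have h3 : T2Space (Multiplicative (ℤ × (A → ZMod 2))) :=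
    inferInstanceAs (T2Space (ℤ × (A → ZMod 2)))
  refine ⟨Multiplicative (ℤ × (A → ZMod 2)), inferInstance, inferInstance, inferInstance, h3, h2,
    AddMonoidHom.toMultiplicative (proj A), fun q => h q.toAdd, ?_, ?_, hh, ?_⟩
  · show Continuous fun g : ℤ × S => (g.1, res A g.2)
    refine continuous_fst.prodMk (continuous_pi fun i => ?_)
    exact (continuous_apply (i : ℝ)).comp (continuous_subtype_val.comp continuous_snd)
  · intro q
    refine ⟨Multiplicative.ofAdd (q.toAdd.1, ext A hA q.toAdd.2), ?_⟩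
    show Multiplicative.ofAdd (q.toAdd.1, res A (ext A hA q.toAdd.2)) = q
    have : res A (ext A hA q.toAdd.2) = q.toAdd.2 := funext fun i => ext_apply hA _ i
    rw [this]
    rfl
  · intro x
    exact hfh x.toAdd

theorem not_precompact : ¬ ∀ U ∈ 𝓝 (1 : G), ∃ F : Set G, F.Finite ∧ F * U = univ := by
  intro h
  obtain ⟨F, hF, hFU⟩ := h {g | g.toAdd.1 = 0} (by
    have ho : IsOpen {g : ℤ × S | g.1 = 0} :=
      (isOpen_discrete ({0} : Set ℤ)).preimage continuous_fst
    exact ho.mem_nhds (show (0 : ℤ × S).1 = 0 from rfl))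
  have h1 : (univ : Set ℤ) ⊆ (fun g : G => g.toAdd.1) '' F := by
    intro n _
    have h2 : (Multiplicative.ofAdd ((n, 0) : ℤ × S) : G) ∈ F * {g : G | g.toAdd.1 = 0} := by
      rw [hFU]
      trivial
    obtain ⟨a, ha, b, hb, hab⟩ := h2
    refine ⟨a, ha, ?_⟩
    have h3 : a.toAdd.1 + b.toAdd.1 = n := congrArg (fun g : G => g.toAdd.1) hab
    have h4 : b.toAdd.1 = 0 := hb
    show a.toAdd.1 = n
    rw [← h3, h4, add_zero]
  exact Set.infinite_univ ((hF.image _).subset h1)

end Q177.WPs
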