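import Mathlib

set_option autoImplicit false

universe u v

namespace Q177.WTheta

open Set Topology

/-! ### Label elimination -/

section elim

variable {X : Type u} {ι : Type} [Nonempty ι]

/-- The requirement on the label chosen at stage `α`. -/
def Req (K : Set X) (Q : List ι → Set X) (Xl : ι → Set X) (α : Ordinal.{0}) (g : Ordinal.{0} → ι)
    (n : ι) : Prop :=
  ∃ x ∈ K ∩ Xl n, ∀ F : Finset Ordinal.{0}, (∀ β ∈ F, β < α) →
    x ∈ Q ((F.sort (· ≥ ·)).map g)

open Classical in
/-- the labels chosen by transfinite recursion -/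
noncomputable def lab (K : Set X) (Q : List ι → Set X) (Xl : ι → Set X) : Ordinal.{0} → ι :=
  Ordinal.lt_wf.fix fun α g =>
    Classical.epsilon (Req K Q Xl α (fun β => if h : β < α then g β h else Classical.arbitrary ι))

omit [Nonempty ι] in
theorem Req.congr {K : Set X} {Q : List ι → Set X} {Xl : ι → Set X} {α : Ordinal.{0}}
    {g g' : Ordinal.{0} → ι} (h : ∀ β < α, g β = g' β) {n : ι} (hr : Req K Q Xl α g n) :
    Req K Q Xl α g' n := by
  obtain ⟨x, hx, hF⟩ := hr
  refine ⟨x, hx, fun F hFα => ?_⟩
  have h1 := hF F hFα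
  rwa [List.map_congr_left (g := g')] at h1
  intro β hβ
  exact h β (hFα β ((Finset.mem_sort _).1 hβ))

theorem lab_spec {K : Set X} {Q : List ι → Set X} {Xl : ι → Set X} {α : Ordinal.{0}} {n : ι}
    (h : Req K Q Xl α (lab K Q Xl) n) : Req K Q Xl α (lab K Q Xl) (lab K Q Xl α) := by
  classical
  have h1 : lab K Q Xl α = Classical.epsilon (Req K Q Xl α
      (fun β => if _ : β < α then lab K Q Xl β else Classical.arbitrary ι)) := by
    rw [lab, WellFounded.fix_eq]
  have h2 : Req K Q Xl α
      (fun β => if _ : β < α then lab K Q Xl β else Classical.arbitrary ι) n :=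
    h.congr fun β hβ => by simp [hβ]
  have h3 := Classical.epsilon_spec (p := Req K Q Xl α
      (fun β => if _ : β < α then lab K Q Xl β else Classical.arbitrary ι)) ⟨n, h2⟩
  rw [← h1] at h3
  exact h3.congr fun β hβ => by simp [hβ]

/-- **Label elimination.** -/
theorem elim [TopologicalSpace X] {K : Set X} (hK : IsCompact K) {Q : List ι → Set X}
    (hQc : ∀ s, IsClosed (Q s)) (hQm : ∀ s t : List ι, s.Sublist t → Q t ⊆ Q s)
    {Xl : ι → Set X} (hcov : ∀ x ∈ K, ∃ n, x ∈ Xl n) (h0 : (K ∩ Q []).Nonempty)
    (hstep : ∀ s n, (K ∩ Q s ∩ Xl n).Nonempty → (K ∩ Q (n :: s)).Nonempty)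
    (hno : ∀ n, Disjoint (Q [n]) (Xl n)) : False := by
  classical
  set c := lab K Q Xl with hc
  have key : ∀ α : Ordinal.{0}, Req K Q Xl α c (c α) := by
    intro α
    induction α using WellFoundedLT.induction with
    | ind α ih =>
      -- finite sets of smaller ordinals
      have hfin : ∀ F : Finset Ordinal.{0}, (∀ β ∈ F, β < α) →
          (K ∩ Q ((F.sort (· ≥ ·)).map c)).Nonempty := by
        intro F hF
        rcases F.eq_empty_or_nonempty with rfl | hne
        · simpa using h0
        · have hmax := F.max'_mem hne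
          set β := F.max' hne with hβ
          obtain ⟨x, ⟨hxK, hxl⟩, hxQ⟩ := ih β (hF β hmax)
          have hlt : ∀ γ ∈ F.erase β, γ < β := fun γ hγ =>
            lt_of_le_of_ne (F.le_max' γ (Finset.mem_of_mem_erase hγ)) (Finset.ne_of_mem_erase hγ)
          have h1 := hstep (((F.erase β).sort (· ≥ ·)).map c) (c β)
            ⟨x, ⟨hxK, hxQ (F.erase β) hlt⟩, hxl⟩
          have h2 : F.sort (· ≥ ·) = β :: (F.erase β).sort (· ≥ ·) := by
            conv_lhs => rw [← Finset.insert_erase hmax]
            exact Finset.sort_insert (r := (· ≥ ·)) (fun b hb => (hlt b hb).le)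
              (Finset.notMem_erase β F)
          rw [h2, List.map_cons]
          exact h1
      have hmono : ∀ F G : Finset Ordinal.{0}, F ⊆ G →
          Q ((G.sort (· ≥ ·)).map c) ⊆ Q ((F.sort (· ≥ ·)).map c) := by
        intro F G hFG
        apply hQm
        apply List.Sublist.map
        refine List.sublist_of_subperm_of_pairwise (r := (· ≥ ·)) ?_ (Finset.pairwise_sort _ _)
          (Finset.pairwise_sort _ _)
        refine List.subperm_of_subset (Finset.sort_nodup _ _) ?_
        intro a ha
        rw [Finset.mem_sort] at ha ⊢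
        exact hFG ha
      obtain ⟨x, hxK, hx⟩ := hK.inter_iInter_nonempty
        (fun F : {F : Finset Ordinal.{0} // ∀ β ∈ F, β < α} => Q ((F.1.sort (· ≥ ·)).map c))
        (fun F => hQc _) (by
          intro u
          obtain ⟨x, hxK, hx⟩ := hfin (u.biUnion fun F => F.1) (by
            intro β hβ
            obtain ⟨F, _, hβF⟩ := Finset.mem_biUnion.1 hβ
            exact F.2 β hβF)
          refine ⟨x, hxK, mem_iInter₂.2 fun F hF => ?_⟩
          exact hmono F.1 _ (Finset.subset_biUnion_of_mem (fun F : {F : Finset Ordinal.{0} //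
            ∀ β ∈ F, β < α} => F.1) hF) hx)
      obtain ⟨n, hn⟩ := hcov x hxK
      refine lab_spec (n := n) ⟨x, ⟨hxK, hn⟩, fun F hF => ?_⟩
      exact mem_iInter.1 hx ⟨F, hF⟩
  refine not_injective_of_ordinal c ?_
  have hne : ∀ β α : Ordinal.{0}, β < α → c β ≠ c α := by
    intro β α h heq
    obtain ⟨x, ⟨_, hxl⟩, hxQ⟩ := key α
    have h1 := hxQ {β} (by simpa using h)
    rw [Finset.sort_singleton, List.map_cons, List.map_nil] at h1
    rw [← heq] at hxl
    exact (Set.disjoint_left.1 (hno (c β))) h1 hxl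
  intro β α h
  rcases lt_trichotomy β α with h1 | h1 | h1
  · exact absurd h (hne β α h1)
  · exact h1
  · exact absurd h.symm (hne α β h1)

end elim

end Q177.WTheta
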