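import Pool.Agent.Q177.WThetaA

set_option autoImplicit false

universe u v

namespace Q177.WTheta

open Set Topology

/-- Every open cover has an open refinement which is a union of countably many families such that
each point lies in at least one but only finitely many members of one of the families. -/
def WeaklyThetaRefinable (X : Type u) [TopologicalSpace X] : Prop :=
  ∀ 𝒰 : Set (Set X), (∀ U ∈ 𝒰, IsOpen U) → ⋃₀ 𝒰 = univ →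
    ∃ 𝒱 : ℕ → Set (Set X), (∀ n, ∀ V ∈ 𝒱 n, IsOpen V ∧ ∃ U ∈ 𝒰, V ⊆ U) ∧
      ∀ x, ∃ n, {V ∈ 𝒱 n | x ∈ V}.Nonempty ∧ {V ∈ 𝒱 n | x ∈ V}.Finite

/-- the part of `E` is handled by countably many families -/
def Small {Y : Type v} [TopologicalSpace Y] (𝒰 : Set (Set Y)) (E : Set Y) : Prop :=
  ∃ 𝒪 : ℕ → Set (Set Y), (∀ n, ∀ O ∈ 𝒪 n, IsOpen O ∧ ∃ U ∈ 𝒰, O ⊆ U) ∧
    ∀ y ∈ E, ∃ n, {O ∈ 𝒪 n | y ∈ O}.Nonempty ∧ {O ∈ 𝒪 n | y ∈ O}.Finite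

theorem Small.mono {Y : Type v} [TopologicalSpace Y] {𝒰 : Set (Set Y)} {E E' : Set Y}
    (h : Small 𝒰 E') (hE : E ⊆ E') : Small 𝒰 E := by
  obtain ⟨𝒪, h1, h2⟩ := h
  exact ⟨𝒪, h1, fun y hy => h2 y (hE hy)⟩

theorem Small.iUnion {Y : Type v} [TopologicalSpace Y] {𝒰 : Set (Set Y)} {κ : Type*} [Countable κ]
    {E : κ → Set Y} (h : ∀ k, Small 𝒰 (E k)) : Small 𝒰 (⋃ k, E k) := by
  classical
  choose 𝒪 h1 h2 using h
  rcases isEmpty_or_nonempty κ with hκ | hκ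
  · refine ⟨fun _ => ∅, by simp, fun y hy => ?_⟩
    obtain ⟨k, _⟩ := mem_iUnion.1 hy
    exact (hκ.false k).elim
  obtain ⟨e, he⟩ := exists_surjective_nat (κ × ℕ)
  refine ⟨fun n => 𝒪 (e n).1 (e n).2, fun n O hO => h1 _ _ O hO, fun y hy => ?_⟩
  obtain ⟨k, hk⟩ := mem_iUnion.1 hy
  obtain ⟨m, hm⟩ := h2 k y hk
  obtain ⟨n, hn⟩ := he (k, m)
  refine ⟨n, ?_⟩
  simp only [hn]
  exact hm

/-- the points lying in exactly one member -/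
def One {X : Type u} (𝒱 : Set (Set X)) : Set X := {x | ∃! V, V ∈ 𝒱 ∧ x ∈ V}

/-- one may assume that each point is in exactly one member of some family -/
theorem exists_one {X : Type u} [TopologicalSpace X] (hX : WeaklyThetaRefinable X)
    {𝒰 : Set (Set X)} (hU : ∀ U ∈ 𝒰, IsOpen U) (hcov : ⋃₀ 𝒰 = univ) :
    ∃ 𝒱 : ℕ × ℕ → Set (Set X), (∀ n, ∀ V ∈ 𝒱 n, IsOpen V ∧ ∃ U ∈ 𝒰, V ⊆ U) ∧
      ∀ x, ∃ n, x ∈ One (𝒱 n) := by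
  obtain ⟨𝒱, h1, h2⟩ := hX 𝒰 hU hcov
  refine ⟨fun p => {W | ∃ F : Set (Set X), F ⊆ 𝒱 p.1 ∧ F.Finite ∧ F.Nonempty ∧
    F.ncard = p.2 ∧ W = ⋂₀ F}, ?_, ?_⟩
  · rintro ⟨n, k⟩ W ⟨F, hF, hfin, ⟨V, hV⟩, _, rfl⟩
    refine ⟨hfin.isOpen_sInter fun V hV => (h1 n V (hF hV)).1, ?_⟩
    obtain ⟨U, hU', hVU⟩ := (h1 n V (hF hV)).2
    exact ⟨U, hU', (sInter_subset_of_mem hV).trans hVU⟩
  · intro x
    obtain ⟨n, hne, hfin⟩ := h2 x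
    refine ⟨(n, {V ∈ 𝒱 n | x ∈ V}.ncard), ⋂₀ {V ∈ 𝒱 n | x ∈ V}, ⟨⟨_, fun V hV => hV.1, hfin, hne,
      rfl, rfl⟩, fun V hV => hV.2⟩, ?_⟩
    rintro W ⟨⟨F, hF, hFfin, hFne, hcard, rfl⟩, hxW⟩
    have hsub : F ⊆ {V ∈ 𝒱 n | x ∈ V} := fun V hV => ⟨hF hV, hxW V hV⟩
    have := eq_of_subset_of_ncard_le hsub hcard.ge hfin
    rw [this]

section

variable {X : Type u} {Y : Type v} [TopologicalSpace X] [TopologicalSpace Y] {f : X → Y}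

/-- members met inside `B` over `O` -/
def Met (𝒱 : Set (Set X)) (B O : Set X) : Set (Set X) :=
  {V ∈ 𝒱 | (V ∩ One 𝒱 ∩ B ∩ O).Nonempty}

omit [TopologicalSpace X] in
theorem Met.mono {𝒱 : Set (Set X)} {B B' O O' : Set X} (hB : B ⊆ B') (hO : O ⊆ O') :
    Met 𝒱 B O ⊆ Met 𝒱 B' O' := by
  rintro V ⟨hV, x, ⟨⟨hx1, hx2⟩, hx3⟩, hx4⟩
  exact ⟨hV, x, ⟨⟨hx1, hx2⟩, hB hx3⟩, hO hx4⟩

/-- points near which infinitely many members are met inside `B` -/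
def st (𝒱 : Set (Set X)) (B : Set X) : Set X :=
  {x | ∀ O : Set X, IsOpen O → x ∈ O → ¬ (Met 𝒱 B O).Finite}

theorem st_closed (𝒱 : Set (Set X)) (B : Set X) : IsClosed (st 𝒱 B) := by
  rw [← isOpen_compl_iff, isOpen_iff_forall_mem_open]
  intro x hx
  have hx' : ¬ ∀ O : Set X, IsOpen O → x ∈ O → ¬ (Met 𝒱 B O).Finite := hx
  push Not at hx'
  obtain ⟨O, hO, hxO, hfin⟩ := hx'
  exact ⟨O, fun z hz hzs => hzs O hO hz hfin, hO, hxO⟩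

theorem st_mono {𝒱 : Set (Set X)} {B B' : Set X} (h : B ⊆ B') : st 𝒱 B ⊆ st 𝒱 B' :=
  fun _ hx O hO hxO hfin => hx O hO hxO (hfin.subset (Met.mono h subset_rfl))

theorem st_subset {𝒱 : Set (Set X)} {B : Set X} (hB : IsClosed B) : st 𝒱 B ⊆ B := by
  intro x hx
  by_contra hxB
  refine hx Bᶜ hB.isOpen_compl hxB ?_
  have : Met 𝒱 B Bᶜ = ∅ := by
    rw [eq_empty_iff_forall_notMem]
    rintro V ⟨_, z, ⟨_, hz⟩, hz'⟩
    exact hz' hz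
  rw [this]
  exact finite_empty

theorem st_disjoint {𝒱 : Set (Set X)} (h𝒱 : ∀ V ∈ 𝒱, IsOpen V) (B : Set X) :
    Disjoint (st 𝒱 B) (One 𝒱) := by
  rw [Set.disjoint_left]
  rintro x hx ⟨V, ⟨hV, hxV⟩, _⟩
  refine hx V (h𝒱 V hV) hxV ((finite_singleton V).subset ?_)
  rintro V' ⟨hV', z, ⟨⟨hzV', hz⟩, _⟩, hzV⟩
  obtain ⟨V0, _, hu⟩ := hz
  rw [mem_singleton_iff, hu V' ⟨hV', hzV'⟩, hu V ⟨hV, hzV⟩]

/-- the exceptional set -/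
def Exc (f : X → Y) (𝒱 : Set (Set X)) (B : Set X) : Set Y :=
  {y | (f ⁻¹' {y} ∩ B ∩ One 𝒱).Nonempty ∧
    ∃ W : Set Y, IsOpen W ∧ y ∈ W ∧ (Met 𝒱 B (f ⁻¹' W)).Finite}

theorem exc_of (hc : IsClosedMap f) {𝒱 : Set (Set X)} {B : Set X} {y : Y}
    (hK : IsCompact (f ⁻¹' {y})) (h1 : (f ⁻¹' {y} ∩ B ∩ One 𝒱).Nonempty)
    (h2 : ¬ (f ⁻¹' {y} ∩ st 𝒱 B).Nonempty) : y ∈ Exc f 𝒱 B := by
  refine ⟨h1, ?_⟩
  have h3 : ∀ x ∈ f ⁻¹' {y}, ∃ O : Set X, IsOpen O ∧ x ∈ O ∧ (Met 𝒱 B O).Finite := by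
    intro x hx
    have hxs : ¬ ∀ O : Set X, IsOpen O → x ∈ O → ¬ (Met 𝒱 B O).Finite := fun h => h2 ⟨x, hx, h⟩
    push Not at hxs
    exact hxs
  choose! O hO hxO hfin using h3
  obtain ⟨t, htK, ht⟩ := hK.elim_nhds_subcover O fun x hx => (hO x hx).mem_nhds (hxO x hx)
  set W0 : Set X := ⋃ x ∈ t, O x with hW0
  have hW0o : IsOpen W0 := isOpen_biUnion fun x hx => hO x (htK x hx)
  refine ⟨(f '' W0ᶜ)ᶜ, (hc _ hW0o.isClosed_compl).isOpen_compl, ?_, ?_⟩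
  · rintro ⟨x, hx, hxy⟩
    exact hx (ht hxy)
  · refine ((t.finite_toSet.biUnion fun x hx => hfin x (htK x hx))).subset ?_
    rintro V ⟨hV, z, hz, hzW⟩
    have hzW0 : z ∈ W0 := by
      by_contra h
      exact hzW ⟨z, h, rfl⟩
    obtain ⟨x, hx, hzx⟩ := mem_iUnion₂.1 hzW0
    exact mem_biUnion hx ⟨hV, z, hz, hzx⟩

omit [TopologicalSpace X] in
/-- the exceptional sets are small -/
theorem exc_small {𝒰 : Set (Set Y)} (hU : ∀ U ∈ 𝒰, IsOpen U) {𝒱 : Set (Set X)}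
    (h𝒱 : ∀ V ∈ 𝒱, ∃ U ∈ 𝒰, V ⊆ f ⁻¹' U) (B : Set X) : Small 𝒰 (Exc f 𝒱 B) := by
  classical
  choose! u hu hVu using h𝒱
  -- the least number of members met
  have hex : ∀ y : Exc f 𝒱 B, ∃ k, ∃ W : Set Y, IsOpen W ∧ y.1 ∈ W ∧ (Met 𝒱 B (f ⁻¹' W)).Finite ∧
      (Met 𝒱 B (f ⁻¹' W)).ncard = k := by
    rintro ⟨y, _, W, hW, hyW, hfin⟩
    exact ⟨_, W, hW, hyW, hfin, rfl⟩
  let k : Exc f 𝒱 B → ℕ := fun y => Nat.find (hex y)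
  choose W hWo hyW hWfin hWk using fun y => Nat.find_spec (hex y)
  have hmin : ∀ (y : Exc f 𝒱 B) (W' : Set Y), IsOpen W' → y.1 ∈ W' →
      (Met 𝒱 B (f ⁻¹' W')).Finite → k y ≤ (Met 𝒱 B (f ⁻¹' W')).ncard :=
    fun y W' h1 h2 h3 => Nat.find_min' (hex y) ⟨W', h1, h2, h3, rfl⟩
  let F : Exc f 𝒱 B → Set (Set X) := fun y => Met 𝒱 B (f ⁻¹' W y)
  have hFk : ∀ y, (F y).ncard = k y := hWk
  have hkey : ∀ y z : Exc f 𝒱 B, k y = k z → z.1 ∈ W y → F z = F y := by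
    intro y z hyz hz
    have hzz : z.1 ∈ W z ∩ W y := ⟨hyW z, hz⟩
    have hs1 : Met 𝒱 B (f ⁻¹' (W z ∩ W y)) ⊆ F z :=
      Met.mono subset_rfl (preimage_mono inter_subset_left)
    have hs2 : Met 𝒱 B (f ⁻¹' (W z ∩ W y)) ⊆ F y :=
      Met.mono subset_rfl (preimage_mono inter_subset_right)
    have hcard := hmin z _ ((hWo z).inter (hWo y)) hzz ((hWfin z).subset hs1)
    have e1 : Met 𝒱 B (f ⁻¹' (W z ∩ W y)) = F z :=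
      eq_of_subset_of_ncard_le hs1 (by rw [hFk]; exact hcard) (hWfin z)
    have e2 : Met 𝒱 B (f ⁻¹' (W z ∩ W y)) = F y :=
      eq_of_subset_of_ncard_le hs2 (by rw [hFk, hyz]; exact hcard) (hWfin y)
    rw [← e1, e2]
  let G : ℕ → Set (Set X) → Set X → Set Y := fun m F0 V =>
    (⋃ y ∈ {y : Exc f 𝒱 B | k y = m ∧ F y = F0}, W y) ∩ u V
  refine ⟨fun m => {O | ∃ y : Exc f 𝒱 B, k y = m ∧ ∃ V ∈ F y, O = G m (F y) V}, ?_, ?_⟩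
  · rintro m O ⟨y, hy, V, hV, rfl⟩
    have hVm : V ∈ 𝒱 := hV.1
    exact ⟨(isOpen_biUnion fun z _ => hWo z).inter (hU _ (hu V hVm)), u V, hu V hVm,
      inter_subset_right⟩
  · intro z hz
    set z' : Exc f 𝒱 B := ⟨z, hz⟩ with hz'
    refine ⟨k z', ?_, ?_⟩
    · obtain ⟨x, ⟨hxz, hxB⟩, hxO⟩ := hz.1
      obtain ⟨V, ⟨hV, hxV⟩, hVu'⟩ := hxO
      have hfx : f x = z := hxz
      have hVF : V ∈ F z' := ⟨hV, x, ⟨⟨hxV, V, ⟨hV, hxV⟩, hVu'⟩, hxB⟩, by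
        show f x ∈ W z'
        rw [hfx]; exact hyW z'⟩
      refine ⟨G (k z') (F z') V, ⟨z', rfl, V, hVF, rfl⟩, ?_, ?_⟩
      · exact mem_biUnion (show z' ∈ {y : Exc f 𝒱 B | k y = k z' ∧ F y = F z'} from ⟨rfl, rfl⟩)
          (hyW z')
      · have : x ∈ f ⁻¹' u V := hVu V hV hxV
        rw [← hfx]
        exact this
    · refine ((hWfin z').image fun V => G (k z') (F z') V).subset ?_
      rintro O ⟨⟨y, hy, V, hV, rfl⟩, hzO⟩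
      obtain ⟨y', ⟨hy1, hy2⟩, hzy'⟩ := mem_iUnion₂.1 hzO.1
      have h1 : F z' = F y' := hkey y' z' hy1 hzy'
      have h2 : F z' = F y := by rw [h1, hy2]
      refine ⟨V, ?_, ?_⟩
      · show V ∈ F z'
        rw [h2]; exact hV
      · show G (k z') (F z') V = G (k z') (F y) V
        rw [h2]

/-- iterated star sets -/
def Bl (𝒱 : ℕ × ℕ → Set (Set X)) : List (ℕ × ℕ) → Set X
  | [] => univ
  | n :: s => st (𝒱 n) (Bl 𝒱 s)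

theorem Bl_closed (𝒱 : ℕ × ℕ → Set (Set X)) : ∀ s, IsClosed (Bl 𝒱 s)
  | [] => isClosed_univ
  | _ :: _ => st_closed _ _

theorem Bl_sub (𝒱 : ℕ × ℕ → Set (Set X)) {s t : List (ℕ × ℕ)} (h : s.Sublist t) :
    Bl 𝒱 t ⊆ Bl 𝒱 s := by
  induction h with
  | slnil => exact subset_rfl
  | @cons s t a _ ih => exact (st_subset (Bl_closed 𝒱 t)).trans ih
  | @cons_cons s t a _ ih => exact st_mono ih

/-- **Perfect images.** -/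
theorem perfect_image (hX : WeaklyThetaRefinable X) (hf : Continuous f)
    (hs : Function.Surjective f) (hc : IsClosedMap f) (hK : ∀ y, IsCompact (f ⁻¹' {y})) :
    WeaklyThetaRefinable Y := by
  intro 𝒰 hU hcov
  obtain ⟨𝒱, h1, h2⟩ := exists_one hX (𝒰 := (fun U => f ⁻¹' U) '' 𝒰)
    (by rintro _ ⟨U, hU', rfl⟩; exact (hU U hU').preimage hf)
    (by
      refine eq_univ_of_forall fun x => ?_
      have h : f x ∈ ⋃₀ 𝒰 := by rw [hcov]; trivial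
      obtain ⟨U, hU', hx⟩ := h
      exact ⟨_, ⟨U, hU', rfl⟩, hx⟩)
  have h3 : ∀ n, ∀ V ∈ 𝒱 n, ∃ U ∈ 𝒰, V ⊆ f ⁻¹' U := by
    intro n V hV
    obtain ⟨_, ⟨U, hU', rfl⟩, h⟩ := (h1 n V hV).2
    exact ⟨U, hU', h⟩
  have hsmall : Small 𝒰 (⋃ p : List (ℕ × ℕ) × (ℕ × ℕ), Exc f (𝒱 p.2) (Bl 𝒱 p.1)) :=
    Small.iUnion fun p => exc_small hU (h3 p.2) _
  have huniv : (⋃ p : List (ℕ × ℕ) × (ℕ × ℕ), Exc f (𝒱 p.2) (Bl 𝒱 p.1)) = univ := by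
    refine eq_univ_of_forall fun y => ?_
    by_contra hy
    refine elim (hK y) (Q := Bl 𝒱) (Bl_closed 𝒱) (fun s t h => Bl_sub 𝒱 h)
      (Xl := fun n => One (𝒱 n)) (fun x _ => h2 x) ?_ ?_ ?_
    · obtain ⟨x, hx⟩ := hs y
      exact ⟨x, hx, trivial⟩
    · intro s n hne
      by_contra hcon
      exact hy (mem_iUnion.2 ⟨(s, n), exc_of hc (hK y) hne hcon⟩)
    · intro n
      exact st_disjoint (fun V hV => (h1 n V hV).1) _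
  rw [huniv] at hsmall
  obtain ⟨𝒪, hO1, hO2⟩ := hsmall
  exact ⟨𝒪, hO1, fun y => hO2 y trivial⟩

end

end Q177.WTheta
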